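import Pool.Agent.Lib.P8e91ed.Algo

/-!
Input and output formats of the approximation scheme, and the function it computes.
-/

set_option autoImplicit false

open MeasureTheory Finset

noncomputable section

namespace Pool.Agent.Lib.P8e91ed

/-- `⌊log₂ (N + M)⌋ + 1` -/
def lg (N M : ℕ) : ℕ := Nat.log 2 (N + M) + 1

/-- self-delimiting code of a list of bits -/
def dbl (l : List Bool) : List Bool := (l.flatMap fun b => [true, b]) ++ [false]

/-- code of a rational number: sign, numerator, denominator -/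
def encQ (x : ℚ) : List Bool :=
  decide (x.num < 0) :: (dbl (Nat.bits x.num.natAbs) ++ dbl (Nat.bits x.den))

/-- code of an input `(N, M, answers)`: `N` and `M` in unary -/
def encIn (x : ℕ × ℕ × List ℚ) : List Bool :=
  List.replicate x.1 true ++ false ::
    (List.replicate x.2.1 true ++ false :: x.2.2.flatMap encQ)

/-- code of an output (numerator, denominator), in binary -/
def encOut (y : ℕ × ℕ) : List Bool := dbl (Nat.bits y.1) ++ dbl (Nat.bits y.2)

/-- the `i`-th query point: it has coordinates `(D_t - R 2^B) / 2^B`, where the `D_t` are the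
digits of `i` in base `2 R 2^B + 1` -/
def queryPt (d R B i : ℕ) : Sp d :=
  gridPt B fun t : Fin d =>
    ((i / (2 * (R * 2 ^ B) + 1) ^ (t : ℕ) % (2 * (R * 2 ^ B) + 1) : ℕ) : ℤ) - (R * 2 ^ B : ℕ)

/-- The list `ans` consists of valid answers: for every point `x` of the grid
`{-R, -R + 2^(-B), ..., R}^d` a rational within `2^(-p)` of `q x`. -/
def Valid {d : ℕ} (q : Sp d → ℝ) (R B p : ℕ) (ans : List ℚ) : Prop :=
  ans.length = (2 * (R * 2 ^ B) + 1) ^ d ∧
    ∀ i < (2 * (R * 2 ^ B) + 1) ^ d, |((ans.getD i 0 : ℚ) : ℝ) - q (queryPt d R B i)| ≤ 1 / 2 ^ p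

/-- rounding of the answers to multiples of `2^(-p)` in `[0, 1]` -/
def tabOf (p : ℕ) (ans : List ℚ) (i : ℕ) : ℕ :=
  ((Icc 1 (2 ^ p)).filter fun s : ℕ => (s : ℚ) ≤ ans.getD i 0 * 2 ^ p).card

/-- the constants of an algorithm -/
structure Consts where
  d : ℕ
  R : ℕ
  a : ℕ
  b : ℕ
  D : ℕ
  A : ℕ → ℕ
  K1 : ℕ
  K2 : ℕ
  K3 : ℕ
  K4 : ℕ

namespace Consts

variable (C : Consts)

/-- the data of the run on a given input -/
def inst (x : ℕ × ℕ × List ℚ) : Inst where
  d := C.d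
  R := C.R
  a := C.a
  b := C.b
  D := C.D
  A := C.A
  N := x.1
  T := 2 * (C.K1 * lg x.1 x.2.1)
  m := C.K1 * lg x.1 x.2.1
  B := C.K2 * lg x.1 x.2.1
  p := C.K3 * lg x.1 x.2.1
  tab := tabOf (C.K3 * lg x.1 x.2.1) x.2.2

/-- exponent used to approximate the exponential -/
def Qe (x : ℕ × ℕ × List ℚ) : ℕ := C.K4 * x.2.1 * (x.1 + 1) ^ (2 * C.d)

/-- the output, a fraction -/
def out (x : ℕ × ℕ × List ℚ) : ℕ × ℕ :=
  (((C.inst x).Den * C.Qe x + (C.inst x).Num.toNat) ^ C.Qe x, ((C.inst x).Den * C.Qe x) ^ C.Qe x)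

end Consts

/-- the Boltzmann factor `e^{-φ}` -/
def boltz {d : ℕ} (φ : Sp d → ENNReal) (x : Sp d) : ℝ :=
  if φ x = ⊤ then 0 else Real.exp (-(φ x).toReal)

/-- The potential-weighted connective constant, the infimum over `k ≥ 1` of `V_k^(1/k)`. -/
def connectiveConstant {d : ℕ} (q : Sp d → ℝ) : ℝ :=
  ⨅ k : ℕ, (walkIntegral q (k + 1)) ^ (1 / ((k : ℝ) + 1))

/-- The box `Λ_n = [-n, n]^d`. -/
def box (d n : ℕ) : Set (Sp d) := {x | ∀ i, |x i| ≤ (n : ℝ)}

/-- The partition function `Z_Λ(λ)`; the term `k = 0` of the series is `1`. -/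
def partitionFunction {d : ℕ} (q : Sp d → ℝ) (Λ : Set (Sp d)) (lam : ℝ) : ℝ :=
  ∑' k : ℕ, lam ^ k / (k.factorial : ℝ) * ∫ x in Set.univ.pi (fun _ : Fin k => Λ), inter q x

end Pool.Agent.Lib.P8e91ed
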