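import Mathlib
import Pool.Agent.Lib.Pa7c826.Transfer

/-!
Extension of the polynomial-time toolkit: binary arithmetic, signed numbers, propositions.
-/

set_option autoImplicit false

namespace Pool.Agent.Lib.P8e91ed.PT

open Pool.Agent.Lib.PolyTime Pool.Agent.Lib.Pa7c826

variable {α : Type*} {D : α → Prop} {ctx : List (α → List Bool)}

/-- domain extended by an index below `n` -/
abbrev Dx (D : α → Prop) (n : α → ℕ) : α × ℕ → Prop := fun p => D p.1 ∧ p.2 < n p.1

/-- context extended by an index -/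
abbrev cx (ctx : List (α → List Bool)) : List (α × ℕ → List Bool) :=
  PolyTime.lift ctx ++ [fun p => un p.2]

theorem cU {n : α → ℕ} {t : α → List Bool} (h : PolyC D ctx t) :
    PolyC (Dx D n) (cx ctx) (fun p => t p.1) := up h

theorem nU {n : α → ℕ} {t : α → ℕ} (h : PolyN D ctx t) :
    PolyN (Dx D n) (cx ctx) (fun p => t p.1) := up h

theorem bU {n : α → ℕ} {t : α → Bool} (h : PolyB D ctx t) :
    PolyB (Dx D n) (cx ctx) (fun p => t p.1) := up h

theorem nL {n : α → ℕ} : PolyN (Dx D n) (cx ctx) (fun p => p.2) := last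

theorem cMap {n : α → ℕ} {φ : α → ℕ → Bool} (hn : PolyN D ctx n)
    (hφ : PolyB (Dx D n) (cx ctx) (fun p => φ p.1 p.2)) :
    PolyC D ctx (fun a => (List.range (n a)).map (fun i => φ a i)) := PolyC.map_range hn hφ

/-! ### Values of bit lists -/

theorem bval_lt (l : List Bool) : bval l < 2 ^ l.length := by
  induction l with
  | nil => simp [bval]
  | cons b l ih =>
    simp only [bval, List.length_cons, pow_succ]
    have : b.toNat ≤ 1 := Bool.toNat_le b
    omega

theorem bval_take_drop (l : List Bool) (n : ℕ) :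
    bval (l.take n) + 2 ^ n * bval (l.drop n) = bval l := by
  rcases Nat.lt_or_ge l.length n with h | h
  · rw [List.take_of_length_le h.le, List.drop_of_length_le h.le]
    simp [bval]
  · conv_rhs => rw [← List.take_append_drop n l]
    rw [bval_append, List.length_take, min_eq_left h]

theorem bval_take_lt (l : List Bool) (n : ℕ) : bval (l.take n) < 2 ^ n := by
  refine (bval_lt _).trans_le (Nat.pow_le_pow_right (by norm_num) ?_)
  rw [List.length_take]
  exact min_le_left _ _

theorem bval_headD (l : List Bool) (h : bval l < 2) : bval l = (l.headD false).toNat := by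
  rcases l with _ | ⟨b, l⟩
  · rfl
  · simp only [bval] at h ⊢
    simp only [List.headD_cons]
    omega

theorem bval_bits (n : ℕ) : bval (Nat.bits n) = n := by
  induction n using Nat.binaryRec' with
  | zero => simp [bval]
  | bit b n h ih =>
    rw [Nat.bits_append_bit n b h, bval, ih, Nat.bit_val]
    ring

/-- removing the most significant zeros -/
def trimR (l : List Bool) : List Bool := (l.reverse.dropWhile (fun b => !b)).reverse

theorem bits_bval_snoc (l : List Bool) : Nat.bits (bval (l ++ [true])) = l ++ [true] := by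
  induction l with
  | nil => simp [bval]
  | cons b l ih =>
    have h1 : bval (b :: l ++ [true]) = Nat.bit b (bval (l ++ [true])) := by
      rw [Nat.bit_val, List.cons_append, bval]
      ring
    rw [h1, Nat.bits_append_bit, ih]
    · rfl
    · intro h0
      exfalso
      rw [bval_append] at h0
      have : 0 < 2 ^ l.length := by positivity
      simp [bval] at h0

theorem bits_bval (l : List Bool) : Nat.bits (bval l) = trimR l := by
  induction l using List.reverseRecOn with
  | nil => simp [bval, trimR]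
  | append_singleton l b ih =>
    cases b with
    | true =>
      rw [bits_bval_snoc, trimR, List.reverse_append]
      simp
    | false =>
      have h1 : bval (l ++ [false]) = bval l := by
        rw [bval_append]; simp [bval]
      rw [h1, ih, trimR, trimR, List.reverse_append]
      simp

theorem poly_dropFalse {t : α → List Bool} (ht : PolyC D ctx t) :
    PolyC D ctx (fun a => (t a).dropWhile (fun b => !b)) := by
  obtain ⟨pt, hpt⟩ := ht.length_le
  refine PolyC.recOn (x := t) (fun a l => l.dropWhile (fun b => !b)) ht PolyC.nil (fun b => ?_)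
    ⟨pt, fun a ha l hl => ?_⟩
  · cases b with
    | false =>
      have : PolyC (fun p : α × List Bool => D p.1 ∧ (false :: p.2) <:+ t p.1)
        (PolyTime.lift ctx ++ [fun p => p.2, fun p => p.2.dropWhile (fun b => !b)])
        (fun p => p.2.dropWhile (fun b => !b)) := PolyC.var (by simp)
      exact this.congr (fun p _ => by simp)
    | true =>
      have : PolyC (fun p : α × List Bool => D p.1 ∧ (true :: p.2) <:+ t p.1)
        (PolyTime.lift ctx ++ [fun p => p.2, fun p => p.2.dropWhile (fun b => !b)])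
        (fun p => true :: p.2) := PolyC.cons true (PolyC.var (by simp))
      exact this.congr (fun p _ => by simp)
  · have h1 := hl.length_le
    have h2 := hpt a ha
    have h3 : (l.dropWhile (fun b => !b)).length ≤ l.length :=
      (List.dropWhile_suffix _).length_le
    omega

theorem poly_trimR {t : α → List Bool} (ht : PolyC D ctx t) :
    PolyC D ctx (fun a => trimR (t a)) := PolyC.reverse (poly_dropFalse (PolyC.reverse ht))

/-- canonical binary representation -/
theorem bin_bits {f : α → ℕ} (hf : PolyBin D ctx f) : PolyC D ctx (fun a => Nat.bits (f a)) := by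
  obtain ⟨t, h1, h2⟩ := hf
  exact (poly_trimR h1).congr (fun a ha => by rw [← bits_bval, h2 a ha])

theorem bin_of_bits {f : α → ℕ} (hf : PolyC D ctx (fun a => Nat.bits (f a))) : PolyBin D ctx f :=
  ⟨_, hf, fun a _ => bval_bits (f a)⟩

/-! ### Subtraction and comparison -/

/-- bitwise complement on `n` bits -/
def cmpl (n : ℕ) (y : List Bool) : List Bool := (List.range n).map (fun i => !(y.getD i false))

theorem cmpl_length (n : ℕ) (y : List Bool) : (cmpl n y).length = n := by simp [cmpl]

theorem cmpl_val (n : ℕ) (y : List Bool) (h : y.length ≤ n) : bval (cmpl n y) + bval y + 1 = 2 ^ n := by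
  have h1 : ∀ i < n, (cmpl n y).getD i false = !(y.getD i false) := by
    intro i hi
    unfold cmpl
    rw [List.getD_eq_getElem?_getD, List.getElem?_map, List.getElem?_range hi]
    rfl
  rw [bval_eq_sum (cmpl n y) n (by rw [cmpl_length]), bval_eq_sum y n h]
  have h2 : ∑ i ∈ Finset.range n, ((cmpl n y).getD i false).toNat * 2 ^ i =
      ∑ i ∈ Finset.range n, (!(y.getD i false)).toNat * 2 ^ i := by
    apply Finset.sum_congr rfl
    intro i hi
    rw [h1 i (Finset.mem_range.1 hi)]
  rw [h2, ← Finset.sum_add_distrib]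
  have h3 : ∑ i ∈ Finset.range n, ((!(y.getD i false)).toNat * 2 ^ i +
      (y.getD i false).toNat * 2 ^ i) = ∑ i ∈ Finset.range n, 2 ^ i := by
    apply Finset.sum_congr rfl
    intro i _
    cases y.getD i false <;> simp
  rw [h3]
  clear h h1 h2 h3
  induction n with
  | zero => simp
  | succ n ih => rw [Finset.sum_range_succ, pow_succ]; omega

/-- auxiliary sum for the subtraction -/
def subAux (x y : List Bool) : List Bool :=
  addBits (addBits x (cmpl (x.length + y.length) y)) [true]

theorem subAux_val (x y : List Bool) :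
    bval (subAux x y) + bval y = bval x + 2 ^ (x.length + y.length) := by
  have h := cmpl_val (x.length + y.length) y (by omega)
  unfold subAux
  rw [addBits_val, addBits_val]
  simp only [bval, Bool.toNat_true]
  omega

/-- carry bit -/
def geBit (x y : List Bool) : Bool := ((subAux x y).drop (x.length + y.length)).headD false

theorem subAux_split (x y : List Bool) :
    bval ((subAux x y).take (x.length + y.length)) + 2 ^ (x.length + y.length) *
      (geBit x y).toNat + bval y = bval x + 2 ^ (x.length + y.length) := by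
  have h1 := subAux_val x y
  have h2 := bval_take_drop (subAux x y) (x.length + y.length)
  have h3 : bval x < 2 ^ (x.length + y.length) := (bval_lt x).trans_le
    (Nat.pow_le_pow_right (by norm_num) (by omega))
  have h4 : bval ((subAux x y).drop (x.length + y.length)) < 2 := by
    by_contra h
    have h5 : 2 ^ (x.length + y.length) * 2 ≤ 2 ^ (x.length + y.length) *
        bval ((subAux x y).drop (x.length + y.length)) := Nat.mul_le_mul_left _ (by omega)
    omega
  have h5 := bval_headD _ h4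
  rw [geBit, ← h5]
  omega

theorem geBit_eq (x y : List Bool) : geBit x y = decide (bval y ≤ bval x) := by
  have h1 := subAux_split x y
  have h2 := bval_take_lt (subAux x y) (x.length + y.length)
  have h3 : bval x < 2 ^ (x.length + y.length) := (bval_lt x).trans_le
    (Nat.pow_le_pow_right (by norm_num) (by omega))
  rcases Bool.eq_false_or_eq_true (geBit x y) with h | h
  · rw [h] at h1 ⊢
    simp only [Bool.toNat_true, mul_one] at h1
    symm
    rw [decide_eq_true_eq]
    omega
  · rw [h] at h1 ⊢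
    simp only [Bool.toNat_false, mul_zero, add_zero] at h1
    symm
    rw [decide_eq_false_iff_not]
    omega

/-- truncated subtraction -/
def subBits (x y : List Bool) : List Bool :=
  if geBit x y then (subAux x y).take (x.length + y.length) else []

theorem subBits_val (x y : List Bool) : bval (subBits x y) = bval x - bval y := by
  have h1 := subAux_split x y
  unfold subBits
  have h4 := geBit_eq x y
  rcases Bool.eq_false_or_eq_true (geBit x y) with h | h
  · rw [h] at h1 ⊢
    simp only [Bool.toNat_true, mul_one] at h1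
    simp only [if_true]
    omega
  · rw [h] at h4 ⊢
    have h5 := (decide_eq_false_iff_not.1 h4.symm)
    simp only [Bool.false_eq_true, if_false, bval]
    omega

theorem poly_subAux {x y : α → List Bool} (hx : PolyC D ctx x) (hy : PolyC D ctx y) :
    PolyC D ctx (fun a => subAux (x a) (y a)) := by
  have hn : PolyN D ctx (fun a => (x a).length + (y a).length) :=
    (PolyN.length hx).add (PolyN.length hy)
  have h1 : PolyC D ctx (fun a => cmpl ((x a).length + (y a).length) (y a)) :=
    PolyC.map_range (φ := fun p : α × ℕ => !((y p.1).getD p.2 false)) hn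
      (PolyB.getD (up (n := fun a => (x a).length + (y a).length) hy)
        (last (D := D) (ctx := ctx) (n := fun a => (x a).length + (y a).length))).not
  exact PolyC.addBits (PolyC.addBits hx h1) (PolyC.const [true])

theorem poly_geBit {x y : α → List Bool} (hx : PolyC D ctx x) (hy : PolyC D ctx y) :
    PolyB D ctx (fun a => geBit (x a) (y a)) :=
  PolyB.headD (PolyC.drop (poly_subAux hx hy) ((PolyN.length hx).add (PolyN.length hy)))

theorem poly_subBits {x y : α → List Bool} (hx : PolyC D ctx x) (hy : PolyC D ctx y) :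
    PolyC D ctx (fun a => subBits (x a) (y a)) :=
  PolyC.ite (poly_geBit hx hy)
    (PolyC.mono (PolyC.take (poly_subAux hx hy) ((PolyN.length hx).add (PolyN.length hy)))
      fun _ h => h.1) PolyC.nil

theorem bin_sub {f g : α → ℕ} (hf : PolyBin D ctx f) (hg : PolyBin D ctx g) :
    PolyBin D ctx (fun a => f a - g a) := by
  obtain ⟨t, h1, h2⟩ := hf
  obtain ⟨u, h3, h4⟩ := hg
  exact ⟨fun a => subBits (t a) (u a), poly_subBits h1 h3, fun a ha => by
    rw [subBits_val, h2 a ha, h4 a ha]⟩

theorem bin_le {f g : α → ℕ} (hf : PolyBin D ctx f) (hg : PolyBin D ctx g) :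
    PolyB D ctx (fun a => decide (f a ≤ g a)) := by
  obtain ⟨t, h1, h2⟩ := hf
  obtain ⟨u, h3, h4⟩ := hg
  exact (poly_geBit h3 h1).congr (fun a ha => by rw [geBit_eq, h2 a ha, h4 a ha])

/-! ### Natural numbers in binary -/

theorem bin_const (n : ℕ) : PolyBin D ctx (fun _ => n) :=
  bin_of_bits (PolyC.const (Nat.bits n))

theorem bin_ofN {f : α → ℕ} (hf : PolyN D ctx f) : PolyBin D ctx f := by
  have h : PolyBin D ctx (fun a => ∑ i ∈ Finset.range (f a), 1) :=
    PolyBin.sum_range (f := fun _ => 1) hf (bin_const 1)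
  exact h.congr (fun a _ => by simp)

theorem bin_mul {f g : α → ℕ} (hf : PolyBin D ctx f) (hg : PolyBin D ctx g) :
    PolyBin D ctx (fun a => f a * g a) := by
  obtain ⟨t, h1, h2⟩ := hf
  obtain ⟨u, h3, h4⟩ := hg
  have hn : PolyN D ctx (fun a => (t a).length) := PolyN.length h1
  have hs : PolyBin (fun p : α × ℕ => D p.1 ∧ p.2 < (t p.1).length)
      (PolyTime.lift ctx ++ [fun p => un p.2])
      (fun p => if (t p.1).getD p.2 false then 2 ^ p.2 * g p.1 else 0) := by
    refine PolyBin.ite (PolyB.getD (up (n := fun a => (t a).length) h1)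
      (last (D := D) (ctx := ctx) (n := fun a => (t a).length))) ?_ PolyBin.zero
    refine ⟨fun p => List.replicate p.2 false ++ u p.1,
      PolyC.mono ((PolyC.replicateFalse (last (D := D) (ctx := ctx)
        (n := fun a => (t a).length))).append (up (n := fun a => (t a).length) h3))
      fun _ h => h.1, ?_⟩
    rintro ⟨a, i⟩ ⟨⟨ha, _⟩, _⟩
    rw [bval_append, bval_replicate_false, List.length_replicate, zero_add, h4 a ha]
  have h5 := PolyBin.sum_range (f := fun p => if (t p.1).getD p.2 false then 2 ^ p.2 * g p.1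
    else 0) hn hs
  refine h5.congr (fun a ha => ?_)
  rw [← h2 a ha, bval_eq_sum (t a) _ le_rfl, Finset.sum_mul]
  apply Finset.sum_congr rfl
  intro i _
  cases (t a).getD i false <;> simp

theorem size_mul_le (m n : ℕ) : (m * n).size ≤ m.size + n.size := by
  rw [Nat.size_le, pow_add]
  exact Nat.mul_lt_mul'' (Nat.lt_size_self m) (Nat.lt_size_self n)

theorem bin_prod {n : α → ℕ} {f : α × ℕ → ℕ} (hn : PolyN D ctx n)
    (hf : PolyBin (Dx D n) (cx ctx) f) :
    PolyBin D ctx (fun a => ∏ i ∈ Finset.range (n a), f (a, i)) := by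
  have hb := bin_bits hf
  obtain ⟨pt, hpt⟩ := hb.length_le
  obtain ⟨pn, hpn⟩ := PolyC.length_le hn
  have hlen : ∀ a, D a → ∀ k, k ≤ n a → (∏ i ∈ Finset.range k, f (a, i)).size ≤
      1 + k * pt.eval (total (vals ctx a) + pn.eval (total (vals ctx a))) := by
    intro a ha k
    induction k with
    | zero => intro _; simp
    | succ k ih =>
      intro hk
      have h3 := ih (by omega)
      have h4 := hpt (a, k) ⟨ha, show k < n a by omega⟩
      have h5 := hpn a ha
      rw [un_length] at h5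
      simp only [vals_append, vals_lift, vals_cons, vals_nil, total_append, total_cons,
        total_nil, un_length] at h4
      rw [Nat.size_eq_bits_len] at h4
      have h6 : (f (a, k)).size ≤
          pt.eval (total (vals ctx a) + pn.eval (total (vals ctx a))) :=
        h4.trans (eval_mono _ (by omega))
      rw [Finset.prod_range_succ, Nat.succ_mul]
      have h7 := size_mul_le (∏ i ∈ Finset.range k, f (a, i)) (f (a, k))
      omega
  apply bin_of_bits
  refine PolyC.natRec (fun a k => Nat.bits (∏ i ∈ Finset.range k, f (a, i))) hn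
    ((PolyC.const [true]).congr (fun a _ => by simp)) ?_
    ⟨1 + pn * pt.comp (Polynomial.X + pn), fun a ha k hk => ?_⟩
  · have hF : PolyBin (fun p : α × ℕ => D p.1 ∧ p.2 < n p.1)
        (PolyTime.lift ctx ++ [fun p => un p.2,
          fun p => Nat.bits (∏ i ∈ Finset.range p.2, f (p.1, i))])
        (fun p => ∏ i ∈ Finset.range p.2, f (p.1, i)) := bin_of_bits (PolyC.var (by simp))
    have ht : PolyBin (fun p : α × ℕ => D p.1 ∧ p.2 < n p.1)
        (PolyTime.lift ctx ++ [fun p => un p.2,
          fun p => Nat.bits (∏ i ∈ Finset.range p.2, f (p.1, i))]) f := by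
      apply bin_of_bits
      refine PolyC.subset hb ?_
      intro f hf
      simp only [List.mem_append, List.mem_cons, List.not_mem_nil, or_false] at hf ⊢
      tauto
    exact (bin_bits (bin_mul hF ht)).congr (fun p _ => by rw [Finset.prod_range_succ])
  · rw [Nat.size_eq_bits_len]
    refine (hlen a ha k hk).trans ?_
    have h5 := hpn a ha
    rw [un_length] at h5
    simp only [Polynomial.eval_mul, Polynomial.eval_comp, Polynomial.eval_add,
      Polynomial.eval_X, Polynomial.eval_one]
    exact Nat.add_le_add_left (Nat.mul_le_mul_right _ (hk.trans h5)) _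

theorem bin_up {n : α → ℕ} {f : α → ℕ} (hf : PolyBin D ctx f) :
    PolyBin (Dx D n) (cx ctx) (fun p => f p.1) := by
  obtain ⟨t, h1, h2⟩ := hf
  exact ⟨fun p => t p.1, up h1, fun p hp => h2 p.1 hp.1⟩

theorem bin_pow {f g : α → ℕ} (hf : PolyBin D ctx f) (hg : PolyN D ctx g) :
    PolyBin D ctx (fun a => f a ^ g a) :=
  (bin_prod (f := fun p => f p.1) hg (bin_up hf)).congr (fun a _ => by simp)

/-! ### Unary numbers -/

theorem list_sum_range (g : ℕ → ℕ) (n : ℕ) :
    ((List.range n).map g).sum = ∑ i ∈ Finset.range n, g i := by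
  induction n with
  | zero => simp
  | succ n ih =>
    rw [List.range_succ, List.map_append, List.sum_append, ih, Finset.sum_range_succ]
    simp

theorem n_sum {n : α → ℕ} {f : α × ℕ → ℕ} (hn : PolyN D ctx n)
    (hf : PolyN (Dx D n) (cx ctx) f) :
    PolyN D ctx (fun a => ∑ i ∈ Finset.range (n a), f (a, i)) := by
  have h1 := PolyN.length (PolyC.flatMap_range (t := fun p => un (f p)) hn hf)
  refine h1.congr (fun a _ => ?_)
  rw [List.length_flatMap]
  simp only [un_length]
  exact list_sum_range _ _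

theorem nSum {n : α → ℕ} {f : α → ℕ → ℕ} (hn : PolyN D ctx n)
    (hf : PolyN (Dx D n) (cx ctx) (fun p => f p.1 p.2)) :
    PolyN D ctx (fun a => ∑ i ∈ Finset.range (n a), f a i) := n_sum hn hf

theorem binSum {n : α → ℕ} {f : α → ℕ → ℕ} (hn : PolyN D ctx n)
    (hf : PolyBin (Dx D n) (cx ctx) (fun p => f p.1 p.2)) :
    PolyBin D ctx (fun a => ∑ i ∈ Finset.range (n a), f a i) := PolyBin.sum_range hn hf

theorem binProd {n : α → ℕ} {f : α → ℕ → ℕ} (hn : PolyN D ctx n)
    (hf : PolyBin (Dx D n) (cx ctx) (fun p => f p.1 p.2)) :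
    PolyBin D ctx (fun a => ∏ i ∈ Finset.range (n a), f a i) := bin_prod hn hf

theorem n_pow {f g : α → ℕ} (hf : PolyN D ctx f) (hg : PolyN D ctx g)
    (hB : ∃ B : Polynomial ℕ, ∀ a, D a → f a ^ g a ≤ B.eval (total (vals ctx a))) :
    PolyN D ctx (fun a => f a ^ g a) := by
  obtain ⟨B, hB⟩ := hB
  refine PolyC.natRec (fun a k => un (f a ^ k)) hg ((PolyN.const 1).congr (fun a _ => by simp)) ?_
    ⟨B + 1, fun a ha k hk => ?_⟩
  · have h1 : PolyN (fun p : α × ℕ => D p.1 ∧ p.2 < g p.1)
        (PolyTime.lift ctx ++ [fun p => un p.2, fun p => un (f p.1 ^ p.2)])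
        (fun p => f p.1 ^ p.2) := PolyC.var (by simp)
    exact (h1.mul (up2 hf)).congr (fun p _ => by rw [pow_succ])
  · rw [un_length, Polynomial.eval_add, Polynomial.eval_one]
    rcases Nat.eq_zero_or_pos (f a) with h0 | h0
    · rw [h0]
      rcases Nat.eq_zero_or_pos k with h1 | h1
      · subst h1; simp
      · rw [zero_pow h1.ne']; omega
    · have h1 := Nat.pow_le_pow_right h0 hk
      have h2 := hB a ha
      omega

theorem log_eq_card (n : ℕ) :
    ((Finset.range n).filter fun i => decide (1 ≤ n / 2 ^ (i + 1)) = true).card = Nat.log 2 n := by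
  rcases Nat.eq_zero_or_pos n with h0 | h0
  · subst h0; simp
  have h1 : ((Finset.range n).filter fun i => decide (1 ≤ n / 2 ^ (i + 1)) = true) =
      Finset.range (Nat.log 2 n) := by
    ext i
    simp only [Finset.mem_filter, Finset.mem_range, decide_eq_true_eq]
    rw [Nat.le_div_iff_mul_le (by positivity), one_mul]
    constructor
    · rintro ⟨_, h⟩
      exact (Nat.le_log_iff_pow_le (by norm_num) h0.ne').2 h
    · intro h
      have h2 := (Nat.le_log_iff_pow_le (b := 2) (by norm_num) h0.ne').1 (Nat.succ_le_of_lt h)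
      refine ⟨?_, h2⟩
      have h3 : i + 1 < 2 ^ (i + 1) := Nat.lt_two_pow_self
      have h4 : 2 ^ (i + 1) ≤ n := h2
      omega
  rw [h1, Finset.card_range]

theorem n_log {f : α → ℕ} (hf : PolyN D ctx f) : PolyN D ctx (fun a => Nat.log 2 (f a)) := by
  have F := upN (n := f) hf
  have L := last (D := D) (ctx := ctx) (n := f)
  have h := PolyN.count (φ := fun p : α × ℕ => decide (1 ≤ f p.1 / 2 ^ (p.2 + 1))) hf
    (PolyB.le (PolyN.const 1) (PolyN.divPow F L.succ))
  exact h.congr (fun a _ => log_eq_card (f a))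

theorem b_testBit {f g : α → ℕ} (hf : PolyN D ctx f) (hg : PolyN D ctx g) :
    PolyB D ctx (fun a => (f a).testBit (g a)) :=
  (PolyB.odd (PolyN.divPow hf hg)).congr (fun a _ => by rw [Nat.testBit_eq_decide_div_mod_eq])

/-- The predicate `D` bounds `f` by a polynomial in the input size. -/
def Bdd (D : α → Prop) (ctx : List (α → List Bool)) (f : α → ℕ) : Prop :=
  ∃ B : Polynomial ℕ, ∀ a, D a → f a ≤ B.eval (total (vals ctx a))

theorem Bdd.ofN {f : α → ℕ} (hf : PolyN D ctx f) : Bdd D ctx f := by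
  obtain ⟨B, hB⟩ := PolyC.length_le hf
  exact ⟨B, fun a ha => by simpa using hB a ha⟩

theorem Bdd.le {f g : α → ℕ} (hf : Bdd D ctx f) (h : ∀ a, D a → g a ≤ f a) : Bdd D ctx g := by
  obtain ⟨B, hB⟩ := hf
  exact ⟨B, fun a ha => (h a ha).trans (hB a ha)⟩

theorem Bdd.pow {f : α → ℕ} (hf : Bdd D ctx f) (k : ℕ) : Bdd D ctx (fun a => f a ^ k) := by
  obtain ⟨B, hB⟩ := hf
  exact ⟨B ^ k, fun a ha => by
    rw [Polynomial.eval_pow]
    exact Nat.pow_le_pow_left (hB a ha) k⟩

theorem Bdd.mono {D' : α → Prop} {f : α → ℕ} (hf : Bdd D ctx f) (h : ∀ a, D' a → D a) :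
    Bdd D' ctx f := by
  obtain ⟨B, hB⟩ := hf
  exact ⟨B, fun a ha => hB a (h a ha)⟩

/-! ### Propositions -/

/-- propositions decidable in polynomial time -/
def PolyP (D : α → Prop) (ctx : List (α → List Bool)) (P : α → Prop) : Prop :=
  ∃ φ : α → Bool, PolyB D ctx φ ∧ ∀ a, D a → (φ a = true ↔ P a)

theorem PolyP.congr {P Q : α → Prop} (h : PolyP D ctx P) (e : ∀ a, D a → (P a ↔ Q a)) :
    PolyP D ctx Q := by
  obtain ⟨φ, h1, h2⟩ := h
  exact ⟨φ, h1, fun a ha => (h2 a ha).trans (e a ha)⟩

theorem PolyP.mono {D' : α → Prop} {P : α → Prop} (h : PolyP D ctx P) (hD : ∀ a, D' a → D a) :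
    PolyP D' ctx P := by
  obtain ⟨φ, h1, h2⟩ := h
  exact ⟨φ, PolyC.mono h1 hD, fun a ha => h2 a (hD a ha)⟩

theorem PolyP.ofB {φ : α → Bool} (h : PolyB D ctx φ) : PolyP D ctx (fun a => φ a = true) :=
  ⟨φ, h, fun _ _ => Iff.rfl⟩

theorem PolyP.not {P : α → Prop} (h : PolyP D ctx P) : PolyP D ctx (fun a => ¬ P a) := by
  obtain ⟨φ, h1, h2⟩ := h
  refine ⟨fun a => !(φ a), PolyB.not h1, fun a ha => ?_⟩
  beta_reduce
  rw [← h2 a ha]
  cases φ a <;> simp

theorem PolyP.and {P Q : α → Prop} (h : PolyP D ctx P) (h' : PolyP D ctx Q) :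
    PolyP D ctx (fun a => P a ∧ Q a) := by
  obtain ⟨φ, h1, h2⟩ := h
  obtain ⟨ψ, h3, h4⟩ := h'
  refine ⟨fun a => φ a && ψ a, PolyB.and h1 h3, fun a ha => ?_⟩
  beta_reduce
  rw [← h2 a ha, ← h4 a ha, Bool.and_eq_true]

theorem PolyP.or {P Q : α → Prop} (h : PolyP D ctx P) (h' : PolyP D ctx Q) :
    PolyP D ctx (fun a => P a ∨ Q a) := by
  obtain ⟨φ, h1, h2⟩ := h
  obtain ⟨ψ, h3, h4⟩ := h'
  refine ⟨fun a => φ a || ψ a, PolyB.or h1 h3, fun a ha => ?_⟩
  beta_reduce
  rw [← h2 a ha, ← h4 a ha, Bool.or_eq_true]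

theorem PolyP.imp {P Q : α → Prop} (h : PolyP D ctx P) (h' : PolyP D ctx Q) :
    PolyP D ctx (fun a => P a → Q a) := by
  refine (h.not.or h').congr (fun a _ => ?_)
  tauto

theorem PolyP.le {f g : α → ℕ} (hf : PolyN D ctx f) (hg : PolyN D ctx g) :
    PolyP D ctx (fun a => f a ≤ g a) := ⟨_, PolyB.le hf hg, fun a _ => by simp⟩

theorem PolyP.lt {f g : α → ℕ} (hf : PolyN D ctx f) (hg : PolyN D ctx g) :
    PolyP D ctx (fun a => f a < g a) := ⟨_, PolyB.lt hf hg, fun a _ => by simp⟩

theorem PolyP.eq {f g : α → ℕ} (hf : PolyN D ctx f) (hg : PolyN D ctx g) :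
    PolyP D ctx (fun a => f a = g a) := ⟨_, PolyB.natEq hf hg, fun a _ => by simp⟩

theorem PolyP.binle {f g : α → ℕ} (hf : PolyBin D ctx f) (hg : PolyBin D ctx g) :
    PolyP D ctx (fun a => f a ≤ g a) := ⟨_, bin_le hf hg, fun a _ => by simp⟩

theorem PolyP.testBit {f g : α → ℕ} (hf : PolyN D ctx f) (hg : PolyN D ctx g) :
    PolyP D ctx (fun a => (f a).testBit (g a) = true) := PolyP.ofB (b_testBit hf hg)

theorem PolyP.up {n : α → ℕ} {P : α → Prop} (h : PolyP D ctx P) :
    PolyP (Dx D n) (cx ctx) (fun p => P p.1) := by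
  obtain ⟨φ, h1, h2⟩ := h
  exact ⟨fun p => φ p.1, Pa7c826.up h1, fun p hp => h2 p.1 hp.1⟩

theorem PolyP.forall_range {n : α → ℕ} {P : α → ℕ → Prop} (hn : PolyN D ctx n)
    (hP : PolyP (Dx D n) (cx ctx) (fun p => P p.1 p.2)) :
    PolyP D ctx (fun a => ∀ i ∈ Finset.range (n a), P a i) := by
  obtain ⟨φ, h1, h2⟩ := hP
  refine ⟨_, PolyB.forall_lt (φ := φ) hn h1, fun a ha => ?_⟩
  rw [decide_eq_true_eq]
  constructor
  · intro h i hi
    exact (h2 (a, i) ⟨ha, Finset.mem_range.1 hi⟩).1 (h i (Finset.mem_range.1 hi))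
  · intro h i hi
    exact (h2 (a, i) ⟨ha, hi⟩).2 (h i (Finset.mem_range.2 hi))

theorem PolyP.exists_range {n : α → ℕ} {P : α → ℕ → Prop} (hn : PolyN D ctx n)
    (hP : PolyP (Dx D n) (cx ctx) (fun p => P p.1 p.2)) :
    PolyP D ctx (fun a => ∃ i ∈ Finset.range (n a), P a i) := by
  refine (PolyP.forall_range (P := fun a i => ¬ P a i) hn hP.not).not.congr (fun a _ => ?_)
  push Not
  rfl

theorem n_ite {P : α → Prop} {_ : ∀ a, Decidable (P a)} {f g : α → ℕ} (hP : PolyP D ctx P)
    (hf : PolyN (fun a => D a ∧ P a) ctx f) (hg : PolyN (fun a => D a ∧ ¬ P a) ctx g) :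
    PolyN D ctx (fun a => if P a then f a else g a) := by
  obtain ⟨φ, h1, h2⟩ := hP
  have h3 : PolyC D ctx (fun a => if φ a then un (f a) else un (g a)) := PolyC.ite h1
    (PolyC.mono hf fun a h => ⟨h.1, (h2 a h.1).1 h.2⟩)
    (PolyC.mono hg fun a h => ⟨h.1, fun hc => by
      have := (h2 a h.1).2 hc
      rw [h.2] at this
      exact absurd this (by simp)⟩)
  refine h3.congr (fun a ha => ?_)
  beta_reduce
  by_cases h : P a
  · rw [if_pos ((h2 a ha).2 h), if_pos h]
  · rw [if_neg (fun hc => h ((h2 a ha).1 hc)), if_neg h]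

theorem bin_ite {P : α → Prop} {_ : ∀ a, Decidable (P a)} {f g : α → ℕ} (hP : PolyP D ctx P)
    (hf : PolyBin (fun a => D a ∧ P a) ctx f) (hg : PolyBin (fun a => D a ∧ ¬ P a) ctx g) :
    PolyBin D ctx (fun a => if P a then f a else g a) := by
  obtain ⟨φ, h1, h2⟩ := hP
  have h3 : PolyBin D ctx (fun a => if φ a then f a else g a) := PolyBin.ite h1
    (hf.mono fun a h => ⟨h.1, (h2 a h.1).1 h.2⟩)
    (hg.mono fun a h => ⟨h.1, fun hc => by
      have := (h2 a h.1).2 hc
      rw [h.2] at this
      exact absurd this (by simp)⟩)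
  refine h3.congr (fun a ha => ?_)
  beta_reduce
  by_cases h : P a
  · rw [if_pos ((h2 a ha).2 h), if_pos h]
  · rw [if_neg (fun hc => h ((h2 a ha).1 hc)), if_neg h]

theorem n_card {n : α → ℕ} {P : α → ℕ → Prop} {_ : ∀ a, DecidablePred (P a)} (hn : PolyN D ctx n)
    (hP : PolyP (Dx D n) (cx ctx) (fun p => P p.1 p.2)) :
    PolyN D ctx (fun a => ((Finset.range (n a)).filter (P a)).card) := by
  obtain ⟨φ, h1, h2⟩ := hP
  refine (PolyN.count hn h1).congr (fun a ha => ?_)
  congr 1
  apply Finset.filter_congr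
  intro i hi
  exact h2 (a, i) ⟨ha, Finset.mem_range.1 hi⟩

/-! ### Integers -/

/-- integers computable in polynomial time, as differences of binary numbers -/
def PolyZ (D : α → Prop) (ctx : List (α → List Bool)) (f : α → ℤ) : Prop :=
  ∃ P Q : α → ℕ, PolyBin D ctx P ∧ PolyBin D ctx Q ∧ ∀ a, D a → f a = (P a : ℤ) - Q a

theorem PolyZ.congr {f g : α → ℤ} (h : PolyZ D ctx f) (e : ∀ a, D a → f a = g a) :
    PolyZ D ctx g := by
  obtain ⟨P, Q, h1, h2, h3⟩ := h
  exact ⟨P, Q, h1, h2, fun a ha => (e a ha).symm.trans (h3 a ha)⟩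

theorem PolyZ.mono {D' : α → Prop} {f : α → ℤ} (h : PolyZ D ctx f) (hD : ∀ a, D' a → D a) :
    PolyZ D' ctx f := by
  obtain ⟨P, Q, h1, h2, h3⟩ := h
  exact ⟨P, Q, h1.mono hD, h2.mono hD, fun a ha => h3 a (hD a ha)⟩

theorem PolyZ.ofBin {f : α → ℕ} (h : PolyBin D ctx f) : PolyZ D ctx (fun a => (f a : ℤ)) :=
  ⟨f, fun _ => 0, h, PolyBin.zero, fun a _ => by simp⟩

theorem PolyZ.neg {f : α → ℤ} (h : PolyZ D ctx f) : PolyZ D ctx (fun a => - f a) := by
  obtain ⟨P, Q, h1, h2, h3⟩ := h
  exact ⟨Q, P, h2, h1, fun a ha => by beta_reduce; rw [h3 a ha]; ring⟩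

theorem PolyZ.add {f g : α → ℤ} (h : PolyZ D ctx f) (h' : PolyZ D ctx g) :
    PolyZ D ctx (fun a => f a + g a) := by
  obtain ⟨P, Q, h1, h2, h3⟩ := h
  obtain ⟨P', Q', h1', h2', h3'⟩ := h'
  exact ⟨_, _, h1.add h1', h2.add h2', fun a ha => by
    beta_reduce; rw [h3 a ha, h3' a ha]; push_cast; ring⟩

theorem PolyZ.mul {f g : α → ℤ} (h : PolyZ D ctx f) (h' : PolyZ D ctx g) :
    PolyZ D ctx (fun a => f a * g a) := by
  obtain ⟨P, Q, h1, h2, h3⟩ := h
  obtain ⟨P', Q', h1', h2', h3'⟩ := h'
  exact ⟨_, _, (bin_mul h1 h1').add (bin_mul h2 h2'), (bin_mul h1 h2').add (bin_mul h2 h1'),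
    fun a ha => by beta_reduce; rw [h3 a ha, h3' a ha]; push_cast; ring⟩

theorem PolyZ.ite {P : α → Prop} {_ : ∀ a, Decidable (P a)} {f g : α → ℤ} (hP : PolyP D ctx P)
    (hf : PolyZ (fun a => D a ∧ P a) ctx f) (hg : PolyZ (fun a => D a ∧ ¬ P a) ctx g) :
    PolyZ D ctx (fun a => if P a then f a else g a) := by
  obtain ⟨P1, Q1, h1, h2, h3⟩ := hf
  obtain ⟨P2, Q2, h1', h2', h3'⟩ := hg
  refine ⟨fun a => if P a then P1 a else P2 a, fun a => if P a then Q1 a else Q2 a,
    bin_ite hP h1 h1', bin_ite hP h2 h2', fun a ha => ?_⟩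
  beta_reduce
  by_cases h : P a
  · rw [if_pos h, if_pos h, if_pos h]; exact h3 a ⟨ha, h⟩
  · rw [if_neg h, if_neg h, if_neg h]; exact h3' a ⟨ha, h⟩

theorem PolyZ.sum {n : α → ℕ} {f : α → ℕ → ℤ} (hn : PolyN D ctx n)
    (hf : PolyZ (Dx D n) (cx ctx) (fun p => f p.1 p.2)) :
    PolyZ D ctx (fun a => ∑ i ∈ Finset.range (n a), f a i) := by
  obtain ⟨P, Q, h1, h2, h3⟩ := hf
  refine ⟨_, _, PolyBin.sum_range hn h1, PolyBin.sum_range hn h2, fun a ha => ?_⟩
  push_cast
  rw [← Finset.sum_sub_distrib]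
  apply Finset.sum_congr rfl
  intro i hi
  exact h3 (a, i) ⟨ha, Finset.mem_range.1 hi⟩

theorem PolyZ.sum_filter {n : α → ℕ} {P : α → ℕ → Prop} {_ : ∀ a, DecidablePred (P a)}
    {f : α → ℕ → ℤ} (hn : PolyN D ctx n)
    (hP : PolyP (Dx D n) (cx ctx) (fun p => P p.1 p.2))
    (hf : PolyZ (Dx D n) (cx ctx) (fun p => f p.1 p.2)) :
    PolyZ D ctx (fun a => ∑ i ∈ (Finset.range (n a)).filter (P a), f a i) := by
  have h1 : PolyZ D ctx (fun a => ∑ i ∈ Finset.range (n a), if P a i then f a i else 0) := by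
    refine PolyZ.sum (f := fun a i => if P a i then f a i else 0) hn ?_
    exact PolyZ.ite hP (hf.mono fun _ h => h.1)
      ((PolyZ.ofBin (bin_const 0)).congr fun _ _ => by simp)
  exact h1.congr (fun a _ => by rw [Finset.sum_filter])

theorem bin_sum_filter {n : α → ℕ} {P : α → ℕ → Prop} {_ : ∀ a, DecidablePred (P a)}
    {f : α → ℕ → ℕ} (hn : PolyN D ctx n)
    (hP : PolyP (Dx D n) (cx ctx) (fun p => P p.1 p.2))
    (hf : PolyBin (Dx D n) (cx ctx) (fun p => f p.1 p.2)) :
    PolyBin D ctx (fun a => ∑ i ∈ (Finset.range (n a)).filter (P a), f a i) := by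
  have h1 : PolyBin D ctx (fun a => ∑ i ∈ Finset.range (n a), if P a i then f a i else 0) := by
    refine PolyBin.sum_range (f := fun p => if P p.1 p.2 then f p.1 p.2 else 0) hn ?_
    exact bin_ite hP (hf.mono fun _ h => h.1) PolyBin.zero
  exact h1.congr (fun a _ => by rw [Finset.sum_filter])

theorem PolyZ.toNat {f : α → ℤ} (h : PolyZ D ctx f) : PolyBin D ctx (fun a => (f a).toNat) := by
  obtain ⟨P, Q, h1, h2, h3⟩ := h
  exact (bin_sub h1 h2).congr (fun a ha => by rw [h3 a ha]; omega)

theorem PolyZ.negOnePow {g : α → ℕ} (hg : PolyN D ctx g) :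
    PolyZ D ctx (fun a => (-1) ^ g a) := by
  have h1 : PolyZ D ctx (fun a => if g a % 2 = 1 then (-1 : ℤ) else 1) := by
    refine PolyZ.ite ⟨_, PolyB.odd hg, fun a _ => by simp⟩ ?_ ?_
    · exact ((PolyZ.ofBin (bin_const 1)).neg).congr (fun _ _ => by simp)
    · exact (PolyZ.ofBin (bin_const 1)).congr (fun _ _ => by simp)
  refine h1.congr (fun a _ => ?_)
  split_ifs with h
  · rw [Odd.neg_one_pow (Nat.odd_iff.2 h)]
  · rw [Even.neg_one_pow (Nat.even_iff.2 (by omega))]

theorem PolyZ.prod {n : α → ℕ} {f : α → ℕ → ℤ} (hn : PolyN D ctx n)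
    (hf : PolyZ (Dx D n) (cx ctx) (fun p => f p.1 p.2)) :
    PolyZ D ctx (fun a => ∏ i ∈ Finset.range (n a), f a i) := by
  obtain ⟨P, Q, h1, h2, h3⟩ := hf
  -- magnitude and sign
  have hm : PolyBin D ctx (fun a => ∏ i ∈ Finset.range (n a),
      ((P (a, i) - Q (a, i)) + (Q (a, i) - P (a, i)))) :=
    bin_prod (f := fun p => (P p - Q p) + (Q p - P p)) hn ((bin_sub h1 h2).add (bin_sub h2 h1))
  have hs : PolyN D ctx (fun a => ((Finset.range (n a)).filter
      (fun i => ¬ (Q (a, i) ≤ P (a, i)))).card) :=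
    n_card (P := fun a i => ¬ (Q (a, i) ≤ P (a, i))) hn (PolyP.binle h2 h1).not
  refine ((PolyZ.negOnePow hs).mul (PolyZ.ofBin hm)).congr (fun a ha => ?_)
  have h4 : ∀ i ∈ Finset.range (n a), f a i =
      (if ¬ (Q (a, i) ≤ P (a, i)) then (-1 : ℤ) else 1) *
        (((P (a, i) - Q (a, i)) + (Q (a, i) - P (a, i)) : ℕ) : ℤ) := by
    intro i hi
    have h5 := h3 (a, i) ⟨ha, Finset.mem_range.1 hi⟩
    simp only at h5
    rw [h5]
    split_ifs with h6
    · omega
    · omega
  rw [Finset.prod_congr rfl h4, Finset.prod_mul_distrib]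
  push_cast
  congr 1
  rw [Finset.prod_ite, Finset.prod_const, Finset.prod_const_one, mul_one]

end Pool.Agent.Lib.P8e91ed.PT
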