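import Mathlib
import Pool.Agent.Lib.P8e91ed.Scheme
import Pool.Agent.Lib.P8e91ed.PolyBin

/-!
The function `Consts.out` is computable in polynomial time: reading the input.
-/

set_option autoImplicit false

namespace Pool.Agent.Lib.P8e91ed.PT

open Pool.Agent.Lib.PolyTime Pool.Agent.Lib.Pa7c826

variable {α : Type*} {D : α → Prop} {ctx : List (α → List Bool)}

/-! ### Decoding -/

theorem dbl_cons (b : Bool) (v : List Bool) : dbl (b :: v) = true :: b :: dbl v := rfl

theorem dbl_length (v : List Bool) : (dbl v).length = 2 * v.length + 1 := by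
  induction v with
  | nil => rfl
  | cons b v ih => rw [dbl_cons]; simp only [List.length_cons, ih]; ring

theorem dbl_even (v rest : List Bool) (j : ℕ) (hj : j ≤ v.length) :
    (dbl v ++ rest).getD (2 * j) false = decide (j < v.length) := by
  induction v generalizing j with
  | nil =>
    have : j = 0 := by simpa using hj
    subst this
    rfl
  | cons b v ih =>
    rcases j with _ | j
    · simp [dbl_cons]
    · have h1 := ih j (by simpa using hj)
      rw [dbl_cons, show 2 * (j + 1) = 2 * j + 1 + 1 by ring, List.cons_append, List.cons_append,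
        List.getD_cons_succ, List.getD_cons_succ, h1]
      simp

theorem dbl_odd (v rest : List Bool) (j : ℕ) (hj : j < v.length) :
    (dbl v ++ rest).getD (2 * j + 1) false = v.getD j false := by
  induction v generalizing j with
  | nil => simp at hj
  | cons b v ih =>
    rcases j with _ | j
    · simp [dbl_cons]
    · have h1 := ih j (by simpa using hj)
      rw [dbl_cons, show 2 * (j + 1) + 1 = (2 * j + 1) + 1 + 1 by ring, List.cons_append,
        List.cons_append, List.getD_cons_succ, List.getD_cons_succ, h1]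
      simp

open Classical in
/-- length of the first coded list -/
noncomputable def und (l : List Bool) : ℕ :=
  ((Finset.range l.length).filter (fun i => ∀ j ∈ Finset.range (i + 1),
    l.getD (2 * j) false = true)).card

/-- first coded list -/
noncomputable def dfst (l : List Bool) : List Bool := (List.range (und l)).map (fun i => l.getD (2 * i + 1) false)

/-- what follows the first coded list -/
noncomputable def drest (l : List Bool) : List Bool := l.drop (2 * und l + 1)

theorem und_dbl (v rest : List Bool) : und (dbl v ++ rest) = v.length := by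
  classical
  have h1 : (Finset.range (dbl v ++ rest).length).filter (fun i => ∀ j ∈ Finset.range (i + 1),
      (dbl v ++ rest).getD (2 * j) false = true) = Finset.range v.length := by
    ext i
    simp only [Finset.mem_filter, Finset.mem_range]
    constructor
    · rintro ⟨h1, h2⟩
      by_contra h3
      have h4 := h2 v.length (by omega)
      rw [dbl_even v rest v.length le_rfl] at h4
      simp at h4
    · intro h
      refine ⟨?_, ?_⟩
      · rw [List.length_append, dbl_length]; omega
      · intro j hj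
        rw [dbl_even v rest j (by omega), decide_eq_true_eq]
        omega
  rw [und, h1, Finset.card_range]

theorem dfst_dbl (v rest : List Bool) : dfst (dbl v ++ rest) = v := by
  rw [dfst, und_dbl]
  apply List.ext_getElem
  · simp
  · intro i h1 h2
    rw [List.getElem_map, List.getElem_range, dbl_odd v rest i h2,
      List.getD_eq_getElem _ _ h2]

theorem drest_dbl (v rest : List Bool) : drest (dbl v ++ rest) = rest := by
  rw [drest, und_dbl]
  exact List.drop_left' (dbl_length v)

theorem poly_und {t : α → List Bool} (ht : PolyC D ctx t) : PolyN D ctx (fun a => und (t a)) := by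
  have hn := PolyN.length ht
  refine n_card (P := fun a i => ∀ j ∈ Finset.range (i + 1), (t a).getD (2 * j) false = true) hn ?_
  refine PolyP.forall_range (n := fun p : α × ℕ => p.2 + 1)
    (P := fun p j => (t p.1).getD (2 * j) false = true) (PolyN.succ nL) ?_
  exact PolyP.ofB (PolyB.getD (cU (cU ht)) ((PolyN.const 2).mul nL))

theorem poly_dfst {t : α → List Bool} (ht : PolyC D ctx t) :
    PolyC D ctx (fun a => dfst (t a)) := by
  have hn := poly_und ht
  exact cMap (φ := fun a i => (t a).getD (2 * i + 1) false) hn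
    (PolyB.getD (cU ht) ((PolyN.const 2).mul nL).succ)

theorem poly_drest {t : α → List Bool} (ht : PolyC D ctx t) :
    PolyC D ctx (fun a => drest (t a)) := PolyC.drop ht ((PolyN.const 2).mul (poly_und ht)).succ

/-- skip one rational number -/
noncomputable def skipQ (l : List Bool) : List Bool := drest (drest (l.drop 1))

theorem skipQ_enc (x : ℚ) (rest : List Bool) : skipQ (encQ x ++ rest) = rest := by
  rw [skipQ, encQ]
  rw [List.cons_append, List.drop_one, List.tail_cons, List.append_assoc, drest_dbl, drest_dbl]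

theorem skipQ_nil : skipQ [] = [] := by simp [skipQ, drest]

theorem skipQ_length (l : List Bool) : (skipQ l).length ≤ l.length := by
  simp only [skipQ, drest, List.length_drop]
  omega

theorem skipQ_iter (ans : List ℚ) (i : ℕ) :
    skipQ^[i] (ans.flatMap encQ) = (ans.drop i).flatMap encQ := by
  induction i generalizing ans with
  | zero => simp
  | succ i ih =>
    rw [Function.iterate_succ_apply]
    rcases ans with _ | ⟨x, ans⟩
    · have : ∀ k, skipQ^[k] ([] : List Bool) = [] := by
        intro k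
        induction k with
        | zero => rfl
        | succ k ihk => rw [Function.iterate_succ_apply, skipQ_nil, ihk]
      simp [skipQ_nil, this]
    · rw [List.flatMap_cons, skipQ_enc, ih, List.drop_succ_cons]

theorem poly_skipQ {t : α → List Bool} (ht : PolyC D ctx t) :
    PolyC D ctx (fun a => skipQ (t a)) := by
  have h1 : PolyC D ctx (fun a => (t a).drop 1) := PolyC.drop ht (PolyN.const 1)
  exact poly_drest (poly_drest h1)

theorem poly_skipQ_iter {t : α → List Bool} {k : α → ℕ} (ht : PolyC D ctx t)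
    (hk : PolyN D ctx k) : PolyC D ctx (fun a => skipQ^[k a] (t a)) := by
  obtain ⟨pt, hpt⟩ := ht.length_le
  refine PolyC.natRec (fun a k => skipQ^[k] (t a)) hk ht ?_ ⟨pt, fun a ha k hk' => ?_⟩
  · have h1 : PolyC (fun p : α × ℕ => D p.1 ∧ p.2 < k p.1)
        (PolyTime.lift ctx ++ [fun p => un p.2, fun p => skipQ^[p.2] (t p.1)])
        (fun p => skipQ^[p.2] (t p.1)) := PolyC.var (by simp)
    exact (poly_skipQ h1).congr (fun p _ => by rw [Function.iterate_succ_apply'])
  · refine le_trans ?_ (hpt a ha)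
    clear hk'
    induction k with
    | zero => rfl
    | succ k ih =>
      rw [Function.iterate_succ_apply']
      exact (skipQ_length _).trans ih

/-! ### The input -/

/-- `w` is an input available in polynomial time -/
structure Inp (D : α → Prop) (ctx : List (α → List Bool)) (w : α → ℕ × ℕ × List ℚ) : Prop where
  poly : PolyC D ctx (fun a => encIn (w a))
  hN : ∀ a, D a → 1 ≤ (w a).1
  hM : ∀ a, D a → 1 ≤ (w a).2.1

variable {w : α → ℕ × ℕ × List ℚ}

theorem Inp.up {n : α → ℕ} (h : Inp D ctx w) :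
    Inp (Dx D n) (cx ctx) (fun p => w p.1) :=
  ⟨Pa7c826.up h.poly, fun p hp => h.hN p.1 hp.1, fun p hp => h.hM p.1 hp.1⟩

theorem Inp.mono {D' : α → Prop} (h : Inp D ctx w) (hD : ∀ a, D' a → D a) : Inp D' ctx w :=
  ⟨PolyC.mono h.poly hD, fun a ha => h.hN a (hD a ha), fun a ha => h.hM a (hD a ha)⟩

theorem Inp.nN (h : Inp D ctx w) : PolyN D ctx (fun a => (w a).1) :=
  (PolyN.length h.poly.takeTrue).congr (fun a _ => by
    have : encIn (w a) = un (w a).1 ++ false :: (List.replicate (w a).2.1 true ++ false ::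
      (w a).2.2.flatMap encQ) := rfl
    rw [this, takeWhile_un, un_length])

theorem afterTrue_encIn (x : ℕ × ℕ × List ℚ) : PolyTime.afterTrue (encIn x) =
    un x.2.1 ++ false :: x.2.2.flatMap encQ := by
  have : encIn x = un x.1 ++ false :: (un x.2.1 ++ false :: x.2.2.flatMap encQ) := rfl
  rw [this, afterTrue_un]

theorem Inp.nM (h : Inp D ctx w) : PolyN D ctx (fun a => (w a).2.1) :=
  (PolyN.length h.poly.afterTrue.takeTrue).congr (fun a _ => by
    rw [afterTrue_encIn, takeWhile_un, un_length])

theorem Inp.cR (h : Inp D ctx w) : PolyC D ctx (fun a => (w a).2.2.flatMap encQ) :=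
  h.poly.afterTrue.afterTrue.congr (fun a _ => by rw [afterTrue_encIn, afterTrue_un])

theorem card_Icc_filter (n : ℕ) (P : ℕ → Prop) [DecidablePred P] :
    ((Finset.Icc 1 n).filter P).card = ((Finset.range n).filter fun s => P (s + 1)).card := by
  rw [Finset.card_filter, Finset.card_filter]
  have h1 : Finset.Icc 1 n = Finset.Ico 1 (n + 1) := by
    ext
    simp only [Finset.mem_Icc, Finset.mem_Ico]
    omega
  rw [h1, Finset.sum_Ico_eq_sum_range]
  simp only [Nat.add_sub_cancel]
  refine Finset.sum_congr rfl (fun s _ => ?_)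
  simp only [add_comm]

theorem tab_cond (p : ℕ) (x : ℚ) (s : ℕ) : ((s + 1 : ℕ) : ℚ) ≤ x * 2 ^ p ↔
    (¬ (decide (x.num < 0) = true) ∧ (1 ≤ x.den ∧ (s + 1) * x.den ≤ x.num.natAbs * 2 ^ p)) := by
  have hden : 0 < x.den := x.den_pos
  have h1 : ((s + 1 : ℕ) : ℚ) ≤ x * 2 ^ p ↔ ((s + 1 : ℕ) : ℤ) * x.den ≤ x.num * 2 ^ p := by
    have hx : x = (x.num : ℚ) / (x.den : ℚ) := (Rat.num_div_den x).symm
    have hd : (0 : ℚ) < x.den := by exact_mod_cast hden
    constructor
    · intro h
      rw [hx, div_mul_eq_mul_div, le_div_iff₀ hd] at h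
      exact_mod_cast h
    · intro h
      rw [hx, div_mul_eq_mul_div, le_div_iff₀ hd]
      exact_mod_cast h
  rw [h1]
  rcases lt_or_ge x.num 0 with h2 | h2
  · constructor
    · intro h
      exfalso
      have h3 : x.num * 2 ^ p ≤ 0 := mul_nonpos_of_nonpos_of_nonneg h2.le (by positivity)
      have h4 : 0 < ((s + 1 : ℕ) : ℤ) * x.den := by positivity
      exact absurd (h.trans h3) (not_le.2 h4)
    · rintro ⟨h, _⟩
      exact absurd (decide_eq_true h2) h
  · have h3 : (x.num.natAbs : ℤ) = x.num := Int.natAbs_of_nonneg h2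
    rw [← h3]
    constructor
    · intro h
      refine ⟨?_, hden, ?_⟩
      · rw [decide_eq_true_eq]; omega
      · exact_mod_cast h
    · rintro ⟨_, _, h⟩
      exact_mod_cast h

/-- the condition defining the table -/
def TabP (r : List Bool) (p s : ℕ) : Prop :=
  ¬ ((r.headD false) = true) ∧ (1 ≤ bval (dfst (drest (r.drop 1))) ∧
    (s + 1) * bval (dfst (drest (r.drop 1))) ≤ bval (dfst (r.drop 1)) * 2 ^ p)

open Classical in
theorem tabOf_eq (p : ℕ) (ans : List ℚ) (i : ℕ) : tabOf p ans i =
    ((Finset.range (2 ^ p)).filter fun s => TabP (skipQ^[i] (ans.flatMap encQ)) p s).card := by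
  rw [tabOf, card_Icc_filter, skipQ_iter]
  congr 1
  apply Finset.filter_congr
  intro s _
  unfold TabP
  rcases lt_or_ge i ans.length with h | h
  · have h1 : ans.drop i = ans[i] :: ans.drop (i + 1) := List.drop_eq_getElem_cons h
    have h2 : ans.getD i 0 = ans[i] := List.getD_eq_getElem _ _ h
    rw [h1, h2, List.flatMap_cons, encQ, List.cons_append, List.headD_cons, List.drop_one,
      List.tail_cons, List.append_assoc, drest_dbl, dfst_dbl, dfst_dbl, bval_bits, bval_bits]
    exact tab_cond p _ s
  · have h1 : ans.drop i = [] := List.drop_eq_nil_of_le h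
    have h2 : ans.getD i 0 = 0 := List.getD_eq_default _ _ h
    rw [h1, h2, zero_mul]
    constructor
    · intro h3
      exfalso
      have : (0 : ℚ) < ((s + 1 : ℕ) : ℚ) := by positivity
      linarith
    · rintro ⟨_, h3, _⟩
      exfalso
      have h5 : drest ((([] : List ℚ).flatMap encQ).drop 1) = [] := by simp [drest]
      have h6 : und [] = 0 := by
        unfold und
        rw [Finset.card_eq_zero]
        apply Finset.eq_empty_of_forall_notMem
        intro i hi
        simp at hi
      have h7 : dfst [] = [] := by rw [dfst, h6]; rfl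
      rw [h5, h7] at h3
      simp [bval] at h3

theorem Inp.nTab (h : Inp D ctx w) {p i : α → ℕ} (hp : PolyN D ctx (fun a => 2 ^ p a))
    (hi : PolyN D ctx i) : PolyN D ctx (fun a => tabOf (p a) (w a).2.2 (i a)) := by
  have hr : PolyC D ctx (fun a => skipQ^[i a] ((w a).2.2.flatMap encQ)) :=
    poly_skipQ_iter h.cR hi
  have hr1 := PolyC.drop hr (PolyN.const 1)
  have hnum : PolyBin D ctx (fun a => bval (dfst ((skipQ^[i a] ((w a).2.2.flatMap encQ)).drop 1))) :=
    ⟨_, poly_dfst hr1, fun _ _ => rfl⟩
  have hden : PolyBin D ctx (fun a => bval (dfst (drest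
      ((skipQ^[i a] ((w a).2.2.flatMap encQ)).drop 1)))) :=
    ⟨_, poly_dfst (poly_drest hr1), fun _ _ => rfl⟩
  classical
  have h1 : PolyN D ctx (fun a => ((Finset.range (2 ^ p a)).filter fun s =>
      TabP (skipQ^[i a] ((w a).2.2.flatMap encQ)) (p a) s).card) :=
    n_card hp (((PolyP.ofB (PolyB.headD (cU hr))).not).and
      ((PolyP.binle (bin_const 1) (bin_up hden)).and
      (PolyP.binle (bin_mul (bin_ofN (PolyN.succ nL)) (bin_up hden))
        (bin_mul (bin_up hnum) (bin_up (bin_ofN hp))))))
  exact h1.congr (fun a _ => (tabOf_eq (p a) (w a).2.2 (i a)).symm)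

/-! ### Logarithmic bounds -/

theorem Inp.nlg (h : Inp D ctx w) : PolyN D ctx (fun a => lg (w a).1 (w a).2.1) :=
  (n_log (h.nN.add h.nM)).succ

/-- bounded by a multiple of the logarithm of the input -/
def LgB (D : α → Prop) (w : α → ℕ × ℕ × List ℚ) (f : α → ℕ) : Prop :=
  ∃ K : ℕ, ∀ a, D a → f a ≤ K * lg (w a).1 (w a).2.1

theorem LgB.up {n f : α → ℕ} (h : LgB D w f) :
    LgB (Dx D n) (fun p => w p.1) (fun p => f p.1) := by
  obtain ⟨K, hK⟩ := h
  exact ⟨K, fun p hp => hK p.1 hp.1⟩

theorem LgB.last {n : α → ℕ} (h : LgB D w n) :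
    LgB (Dx D n) (fun p => w p.1) (fun p => p.2) := by
  obtain ⟨K, hK⟩ := h
  exact ⟨K, fun p hp => hp.2.le.trans (hK p.1 hp.1)⟩

theorem LgB.le {f g : α → ℕ} (h : LgB D w f) (hg : ∀ a, D a → g a ≤ f a) : LgB D w g := by
  obtain ⟨K, hK⟩ := h
  exact ⟨K, fun a ha => (hg a ha).trans (hK a ha)⟩

theorem LgB.mono {D' : α → Prop} {f : α → ℕ} (h : LgB D w f) (hD : ∀ a, D' a → D a) :
    LgB D' w f := by
  obtain ⟨K, hK⟩ := h
  exact ⟨K, fun a ha => hK a (hD a ha)⟩

theorem LgB.add {f g : α → ℕ} (h : LgB D w f) (h' : LgB D w g) : LgB D w (fun a => f a + g a) := by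
  obtain ⟨K, hK⟩ := h
  obtain ⟨K', hK'⟩ := h'
  exact ⟨K + K', fun a ha => by
    beta_reduce
    rw [add_mul]; exact add_le_add (hK a ha) (hK' a ha)⟩

theorem LgB.const (c : ℕ) : LgB D w (fun _ => c) :=
  ⟨c, fun a _ => by
    have : 1 ≤ lg (w a).1 (w a).2.1 := by unfold lg; omega
    nlinarith⟩

theorem LgB.cmul {f : α → ℕ} (h : LgB D w f) (c : ℕ) : LgB D w (fun a => c * f a) := by
  obtain ⟨K, hK⟩ := h
  exact ⟨c * K, fun a ha => by
    beta_reduce
    rw [mul_assoc]; exact Nat.mul_le_mul_left _ (hK a ha)⟩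

theorem LgB.lg : LgB D w (fun a => P8e91ed.lg (w a).1 (w a).2.1) := ⟨1, fun a _ => by simp⟩

theorem cpow_bound (c K N M : ℕ) (f : ℕ) (hN : 1 ≤ N) (hf : f ≤ K * lg N M) :
    c ^ f ≤ (2 * (N + M)) ^ ((c + 1) * K) := by
  have h1 : c ^ f ≤ (c + 1) ^ f := Nat.pow_le_pow_left (by omega) f
  have h2 : (c + 1) ^ f ≤ (c + 1) ^ (K * lg N M) := Nat.pow_le_pow_right (by omega) hf
  have h3 : (c + 1) ^ (K * lg N M) ≤ (2 ^ (c + 1)) ^ (K * lg N M) :=
    Nat.pow_le_pow_left (Nat.lt_two_pow_self).le _
  have h4 : 2 ^ lg N M ≤ 2 * (N + M) := by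
    unfold lg
    rw [pow_succ, mul_comm]
    exact Nat.mul_le_mul_left _ (Nat.pow_log_le_self 2 (by omega))
  calc c ^ f ≤ (2 ^ (c + 1)) ^ (K * lg N M) := h1.trans (h2.trans h3)
    _ = (2 ^ lg N M) ^ ((c + 1) * K) := by rw [← pow_mul, ← pow_mul]; ring_nf
    _ ≤ _ := Nat.pow_le_pow_left h4 _

theorem Inp.bcpow (h : Inp D ctx w) (c : ℕ) {f : α → ℕ} (hb : LgB D w f) :
    Bdd D ctx (fun a => c ^ f a) := by
  obtain ⟨K, hK⟩ := hb
  have h1 : PolyN D ctx (fun a => 2 * ((w a).1 + (w a).2.1)) := (PolyN.const 2).mul (h.nN.add h.nM)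
  exact ((Bdd.ofN h1).pow ((c + 1) * K)).le (fun a ha =>
    cpow_bound c K _ _ _ (h.hN a ha) (hK a ha))

theorem Inp.ncpow (h : Inp D ctx w) (c : ℕ) {f : α → ℕ} (hf : PolyN D ctx f) (hb : LgB D w f) :
    PolyN D ctx (fun a => c ^ f a) := n_pow (PolyN.const c) hf (h.bcpow c hb)

end Pool.Agent.Lib.P8e91ed.PT
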