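import Mathlib
import Pool.Agent.Lib.P8e91ed.Scheme
import Pool.Agent.Lib.P8e91ed.PolyIn

/-!
The function `Consts.out` is computable in polynomial time.
-/

set_option autoImplicit false
set_option linter.unusedVariables false

namespace Pool.Agent.Lib.P8e91ed.PT

open Pool.Agent.Lib.PolyTime Pool.Agent.Lib.Pa7c826

variable {α : Type*} {D : α → Prop} {ctx : List (α → List Bool)} {w : α → ℕ × ℕ × List ℚ}

/-! ### Parameters -/

section params

variable (C : Consts) (h : Inp D ctx w)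

include h in
theorem nT : PolyN D ctx (fun a => (C.inst (w a)).T) :=
  (PolyN.const 2).mul ((PolyN.const C.K1).mul h.nlg)

theorem bT : LgB D w (fun a => (C.inst (w a)).T) := (LgB.lg.cmul C.K1).cmul 2

include h in
theorem nm : PolyN D ctx (fun a => (C.inst (w a)).m) := (PolyN.const C.K1).mul h.nlg

theorem bm : LgB D w (fun a => (C.inst (w a)).m) := LgB.lg.cmul C.K1

include h in
theorem nB : PolyN D ctx (fun a => (C.inst (w a)).B) := (PolyN.const C.K2).mul h.nlg

theorem bB : LgB D w (fun a => (C.inst (w a)).B) := LgB.lg.cmul C.K2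

include h in
theorem np : PolyN D ctx (fun a => (C.inst (w a)).p) := (PolyN.const C.K3).mul h.nlg

theorem bp : LgB D w (fun a => (C.inst (w a)).p) := LgB.lg.cmul C.K3

include h in
theorem nN : PolyN D ctx (fun a => (C.inst (w a)).N) := h.nN

include h in
theorem n2B : PolyN D ctx (fun a => 2 ^ (C.inst (w a)).B) := h.ncpow 2 (nB C h) (bB C)

include h in
theorem n2p : PolyN D ctx (fun a => 2 ^ (C.inst (w a)).p) := h.ncpow 2 (np C h) (bp C)

include h in
theorem nH : PolyN D ctx (fun a => (C.inst (w a)).H) := (PolyN.const C.R).mul (n2B C h)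

include h in
theorem n2Ni {i : α → ℕ} (hi : PolyN D ctx i) (hib : ∀ a, D a → i a ≤ C.d) :
    PolyN D ctx (fun a => (2 * (C.inst (w a)).N) ^ i a) := by
  have h1 : PolyN D ctx (fun a => 2 * (C.inst (w a)).N) := (PolyN.const 2).mul h.nN
  refine n_pow h1 hi (((Bdd.ofN h1).pow C.d).le (fun a ha => ?_))
  have h2 : 1 ≤ (C.inst (w a)).N := h.hN a ha
  exact Nat.pow_le_pow_right (by omega) (hib a ha)

theorem ncst {i : α → ℕ} (c d : ℕ) (hi : PolyN D ctx i) (hib : ∀ a, D a → i a ≤ d) :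
    PolyN D ctx (fun a => c ^ i a) := by
  refine n_pow (PolyN.const c) hi ⟨Polynomial.C ((c + 1) ^ d), fun a ha => ?_⟩
  rw [Polynomial.eval_C]
  calc c ^ i a ≤ (c + 1) ^ i a := Nat.pow_le_pow_left (by omega) _
    _ ≤ (c + 1) ^ d := Nat.pow_le_pow_right (by omega) (hib a ha)

include h in
theorem nXc {x t i : α → ℕ} (hx : PolyN D ctx x) (ht : PolyN D ctx t) (tb : LgB D w t)
    (hi : PolyN D ctx i) (hib : ∀ a, D a → i a ≤ C.d) :
    PolyN D ctx (fun a => (C.inst (w a)).Xc (x a) (t a) (i a)) := by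
  have hze : ∀ a, (C.inst (w a)).ze = (2 * C.R + 1) ^ C.d := fun a => rfl
  have hzpos : 0 < (2 * C.R + 1) ^ C.d := by positivity
  have h1 : PolyN D ctx (fun a => x a / (C.inst (w a)).ze ^ (C.inst (w a)).T /
      (2 * (C.inst (w a)).N) ^ i a % (2 * (C.inst (w a)).N)) := by
    refine PolyN.mod (PolyN.div (PolyN.div hx (h.ncpow ((2 * C.R + 1) ^ C.d) (nT C h) (bT C)) ?_)
      (n2Ni C h hi hib) ?_)
      ((PolyN.const 2).mul h.nN) ?_
    · intro a ha
      exact Nat.pow_pos hzpos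
    · intro a ha
      have h2 : 1 ≤ (C.inst (w a)).N := h.hN a ha
      exact Nat.pow_pos (by omega)
    · intro a ha
      have h2 : 1 ≤ (C.inst (w a)).N := h.hN a ha
      omega
  have h2 : PolyN D ctx (fun a => ∑ t' ∈ Finset.range (t a),
      x a / (C.inst (w a)).ze ^ t' % (C.inst (w a)).ze / (2 * (C.inst (w a)).R + 1) ^ i a %
        (2 * (C.inst (w a)).R + 1)) := by
    refine nSum ht ?_
    refine PolyN.mod (PolyN.div (PolyN.mod (PolyN.div (nU hx)
      (h.up.ncpow ((2 * C.R + 1) ^ C.d) nL tb.last) ?_) (PolyN.const ((2 * C.R + 1) ^ C.d)) ?_)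
      (nU (ncst (2 * C.R + 1) C.d hi hib)) ?_) (PolyN.const (2 * C.R + 1)) ?_
    · intro a ha; exact Nat.pow_pos hzpos
    · intro a ha; exact hzpos
    · intro a ha; positivity
    · intro a ha; positivity
  exact h1.add h2

include h in
theorem pSame {x t y u : α → ℕ} (hx : PolyN D ctx x) (ht : PolyN D ctx t) (tb : LgB D w t)
    (hy : PolyN D ctx y) (hu : PolyN D ctx u) (ub : LgB D w u) :
    PolyP D ctx (fun a => (C.inst (w a)).same (x a) (t a) (y a) (u a)) := by
  refine PolyP.forall_range (n := fun _ => C.d) (PolyN.const C.d) ?_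
  exact PolyP.eq
    ((nXc C h.up (nU hx) (nU ht) tb.up nL (fun p hp => hp.2.le)).add
      ((PolyN.const C.R).mul (nU hu)))
    ((nXc C h.up (nU hy) (nU hu) ub.up nL (fun p hp => hp.2.le)).add
      ((PolyN.const C.R).mul (nU ht)))

include h in
theorem pOkc {x : α → ℕ} (hx : PolyN D ctx x) :
    PolyP D ctx (fun a => (C.inst (w a)).okc (x a)) := by
  refine PolyP.forall_range (PolyN.succ (nT C h)) ?_
  refine PolyP.forall_range (n := fun _ => C.d) (PolyN.const C.d) ?_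
  have tb : LgB D w (fun a => (C.inst (w a)).T + 1) := (bT C).add (LgB.const 1)
  have hX : PolyN (Dx (Dx D (fun a => (C.inst (w a)).T + 1)) (fun _ => C.d)) (cx (cx ctx))
      (fun p => (C.inst (w p.1.1)).Xc (x p.1.1) p.1.2 p.2) :=
    nXc C h.up.up (nU (nU hx)) (nU nL) (tb.last.up (n := fun _ => C.d)) nL (fun p hp => hp.2.le)
  have hR : PolyN (Dx (Dx D (fun a => (C.inst (w a)).T + 1)) (fun _ => C.d)) (cx (cx ctx))
      (fun p => (C.inst (w p.1.1)).R * p.1.2) := (PolyN.const C.R).mul (nU nL)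
  have hN : PolyN (Dx (Dx D (fun a => (C.inst (w a)).T + 1)) (fun _ => C.d)) (cx (cx ctx))
      (fun p => 2 * (C.inst (w p.1.1)).N) := (PolyN.const 2).mul h.up.up.nN
  exact (PolyP.le hR hX).and (PolyP.lt hX (hN.add hR))

include h in
theorem pSameSet {x y : α → ℕ} (hx : PolyN D ctx x) (hy : PolyN D ctx y) :
    PolyP D ctx (fun a => (C.inst (w a)).sameSet (x a) (y a)) := by
  have tb : LgB D w (fun a => (C.inst (w a)).T + 1) := (bT C).add (LgB.const 1)
  have hT1 : PolyN D ctx (fun a => (C.inst (w a)).T + 1) := PolyN.succ (nT C h)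
  have b1 : LgB (Dx (Dx D (fun a => (C.inst (w a)).T + 1)) (fun p => (C.inst (w p.1)).T + 1))
      (fun p => w p.1.1) (fun p => p.1.2) := LgB.up (LgB.last tb)
  have b2 : LgB (Dx (Dx D (fun a => (C.inst (w a)).T + 1)) (fun p => (C.inst (w p.1)).T + 1))
      (fun p => w p.1.1) (fun p => p.2) := LgB.last (LgB.up tb)
  have hI : Inp (Dx (Dx D (fun a => (C.inst (w a)).T + 1)) (fun p => (C.inst (w p.1)).T + 1))
      (cx (cx ctx)) (fun p => w p.1.1) := h.up.up
  have h1 : PolyP (Dx (Dx D (fun a => (C.inst (w a)).T + 1)) (fun p => (C.inst (w p.1)).T + 1))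
      (cx (cx ctx)) (fun p => (C.inst (w p.1.1)).same (x p.1.1) p.1.2 (y p.1.1) p.2) :=
    pSame C hI (nU (nU hx)) (nU nL) b1 (nU (nU hy)) nL b2
  have h2 : PolyP (Dx (Dx D (fun a => (C.inst (w a)).T + 1)) (fun p => (C.inst (w p.1)).T + 1))
      (cx (cx ctx)) (fun p => (C.inst (w p.1.1)).same (x p.1.1) p.2 (y p.1.1) p.1.2) :=
    pSame C hI (nU (nU hx)) nL b2 (nU (nU hy)) (nU nL) b1
  exact (PolyP.forall_range hT1 (PolyP.exists_range (nU hT1) h1)).and
    (PolyP.forall_range hT1 (PolyP.exists_range (nU hT1) h2))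

include h in
theorem pCanon {x : α → ℕ} (hx : PolyN D ctx x) :
    PolyP D ctx (fun a => (C.inst (w a)).okc (x a) ∧ ∀ y ∈ Finset.range (x a),
      (C.inst (w a)).okc y → ¬ (C.inst (w a)).sameSet (x a) y) :=
  (pOkc C h hx).and (PolyP.forall_range hx ((pOkc C h.up nL).imp (pSameSet C h.up (nU hx) nL).not))

include h in
theorem pFv {x t : α → ℕ} (hx : PolyN D ctx x) (ht : PolyN D ctx t) (tb : LgB D w t) :
    PolyP D ctx (fun a => (C.inst (w a)).fv (x a) (t a)) :=
  PolyP.forall_range ht (pSame C h.up (nU hx) nL tb.last (nU hx) (nU ht) tb.up).not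

include h in
theorem nNx : PolyN D ctx (fun a => (C.inst (w a)).nx) :=
  (PolyN.pow ((PolyN.const 2).mul h.nN) C.d).mul (h.ncpow ((2 * C.R + 1) ^ C.d) (nT C h) (bT C))

include h in
theorem nNfv {x : α → ℕ} (hx : PolyN D ctx x) : PolyN D ctx (fun a => (C.inst (w a)).nfv (x a)) := by
  have tb : LgB D w (fun a => (C.inst (w a)).T + 1) := (bT C).add (LgB.const 1)
  exact n_card (PolyN.succ (nT C h)) (pFv C h.up (nU hx) nL tb.last)

end params

/-! ### Bit counting -/

theorem nCnt {e p : α → ℕ} (he : PolyN D ctx e) (hp : PolyN D ctx p) :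
    PolyN D ctx (fun a => cnt (e a) (p a)) := n_card hp (PolyP.testBit (nU he) nL)

theorem nNb {e i L : α → ℕ} (he : PolyN D ctx e) (hi : PolyN D ctx i) (hL : PolyN D ctx L) :
    PolyN D ctx (fun a => nb (e a) (i a) (L a)) :=
  nSum hL (n_ite ((PolyP.testBit (nU he) nL).and (PolyP.eq (nCnt (nU he) nL) (nU hi)))
    (PolyC.mono nL fun _ h => h.1) (PolyN.const 0))

theorem nPrv {y t : α → ℕ} (hy : PolyN D ctx y) (ht : PolyN D ctx t) :
    PolyN D ctx (fun a => prv (y a) (t a)) := by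
  refine nSum ht (n_ite ((PolyP.testBit (nU hy) nL).and ?_)
    (PolyC.mono nL fun _ h => h.1) (PolyN.const 0))
  refine PolyP.forall_range (nU ht) ((PolyP.lt (nU nL) nL).imp ?_)
  exact (PolyP.testBit (nU (nU hy)) nL).not.congr (fun _ _ => by simp)

theorem cnt_succ (e L : ℕ) : cnt e (L + 1) = cnt e L + if e.testBit L = true then 1 else 0 := by
  unfold cnt
  rw [Finset.range_add_one, Finset.filter_insert]
  split_ifs with h
  · rw [Finset.card_insert_of_notMem (by simp)]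
  · rfl

theorem nb_le (e i L : ℕ) : (cnt e L ≤ i → nb e i L = 0) ∧ nb e i L ≤ L := by
  induction L with
  | zero => simp [nb]
  | succ L ih =>
    have h1 : nb e i (L + 1) = nb e i L + if e.testBit L = true ∧ cnt e L = i then L else 0 := by
      unfold nb
      rw [Finset.sum_range_succ]
    rw [h1, cnt_succ]
    constructor
    · intro h2
      have h3 : cnt e L ≤ i := by omega
      rw [ih.1 h3, zero_add]
      rw [if_neg]
      rintro ⟨h4, h5⟩
      rw [if_pos h4] at h2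
      omega
    · split_ifs with h2
      · rw [ih.1 h2.2.le]
        omega
      · have := ih.2
        omega

section main

variable (C : Consts) (h : Inp D ctx w)

include h in
theorem nPf {e k i : α → ℕ} (he : PolyN D ctx e) (hk : PolyN D ctx k) (hi : PolyN D ctx i) :
    PolyN D ctx (fun a => (C.inst (w a)).pf (e a) (k a) (i a)) :=
  PolyN.sub (nNb he hi ((nT C h).add hk)) hi

theorem bPf {e k i : α → ℕ} (kb : LgB D w k) :
    LgB D w (fun a => (C.inst (w a)).pf (e a) (k a) (i a)) :=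
  ((bT C).add kb).le (fun a _ => (Nat.sub_le _ _).trans (nb_le _ _ _).2)

include h in
theorem nLev {v k i : α → ℕ} (hv : PolyN D ctx v) (hk : PolyN D ctx k) (hi : PolyN D ctx i) :
    PolyN D ctx (fun a => (C.inst (w a)).lev (v a) (k a) (i a)) := by
  refine PolyN.sub (nNb hv hi ((nB C h).add hk)) ?_
  refine n_ite (PolyP.eq hi (PolyN.const 0)) (PolyN.const 0) ?_
  exact PolyC.mono (PolyN.succ (nNb hv (PolyN.sub hi (PolyN.const 1)) ((nB C h).add hk)))
    fun _ h => h.1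

include h in
theorem nOff {v k i : α → ℕ} (hv : PolyN D ctx v) (hk : PolyN D ctx k) (hi : PolyN D ctx i) :
    PolyN D ctx (fun a => (C.inst (w a)).off (v a) (k a) (i a)) := by
  refine n_ite (PolyP.eq hi (PolyN.const 0)) (PolyN.const 0) ?_
  exact PolyC.mono (PolyN.sub
    (PolyN.succ (nNb hv (PolyN.sub hi (PolyN.const 1)) ((nB C h).add hk))) hi)
    fun _ h => h.1

include h in
theorem nGx {v ε u k i c : α → ℕ} (hv : PolyN D ctx v) (hε : PolyN D ctx ε) (hu : PolyN D ctx u)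
    (hk : PolyN D ctx k) (hi : PolyN D ctx i) (hc : PolyN D ctx c) :
    PolyN D ctx (fun a => (C.inst (w a)).gx (v a) (ε a) (u a) (k a) (i a) (c a)) := by
  refine nSum (PolyN.sub (nLev C h hv hk hi) (n_ite (PolyP.testBit hε hi) (PolyN.const 1)
    (PolyN.const 0))) ?_
  refine n_ite (PolyP.testBit (nU hu) ?_) ?_ (PolyN.const 0)
  · exact (((nU (nOff C h hv hk hi)).add nL).mul (PolyN.const C.d)).add (nU hc)
  · have h1 : PolyN (Dx D (fun a => (C.inst (w a)).lev (v a) (k a) (i a) -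
        if (ε a).testBit (i a) = true then 1 else 0)) (cx ctx)
        (fun p => 2 ^ ((C.inst (w p.1)).B - 1 - p.2)) :=
      h.up.ncpow 2 (PolyN.sub (PolyN.sub (nU (nB C h)) (PolyN.const 1)) nL)
        (((bB C).up).le (fun p _ => (Nat.sub_le _ _).trans (Nat.sub_le _ _)))
    exact PolyC.mono h1 fun _ h => h.1

include h in
theorem nUU {x e v ε u k i i' c : α → ℕ} (hx : PolyN D ctx x) (he : PolyN D ctx e)
    (hv : PolyN D ctx v) (hε : PolyN D ctx ε) (hu : PolyN D ctx u) (hk : PolyN D ctx k)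
    (kb : LgB D w k) (hi : PolyN D ctx i) (hi' : PolyN D ctx i') (hc : PolyN D ctx c)
    (hcb : ∀ a, D a → c a ≤ C.d) :
    PolyN D ctx (fun a => (C.inst (w a)).UU (x a) (e a) (v a) (ε a) (u a) (k a) (i a) (i' a)
      (c a)) :=
  (((nXc C h hx (nPf C h he hk hi) (bPf C kb) hc hcb).add
    ((PolyN.const C.R).mul (nPf C h he hk hi'))).mul (n2B C h)).add (nGx C h hv hε hu hk hi hc)

include h in
theorem nQh {x e v ε u k i i' : α → ℕ} (hx : PolyN D ctx x) (he : PolyN D ctx e)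
    (hv : PolyN D ctx v) (hε : PolyN D ctx ε) (hu : PolyN D ctx u) (hk : PolyN D ctx k)
    (kb : LgB D w k) (hi : PolyN D ctx i) (hi' : PolyN D ctx i') :
    PolyN D ctx (fun a => (C.inst (w a)).qh (x a) (e a) (v a) (ε a) (u a) (k a) (i a) (i' a)) := by
  have hU1 : PolyN (Dx D (fun _ => C.d)) (cx ctx) (fun p => (C.inst (w p.1)).UU (x p.1) (e p.1)
      (v p.1) (ε p.1) (u p.1) (k p.1) (i p.1) (i' p.1) p.2) :=
    nUU C h.up (nU hx) (nU he) (nU hv) (nU hε) (nU hu) (nU hk) kb.up (nU hi) (nU hi') nL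
      (fun p hp => hp.2.le)
  have hU2 : PolyN (Dx D (fun _ => C.d)) (cx ctx) (fun p => (C.inst (w p.1)).UU (x p.1) (e p.1)
      (v p.1) (ε p.1) (u p.1) (k p.1) (i' p.1) (i p.1) p.2) :=
    nUU C h.up (nU hx) (nU he) (nU hv) (nU hε) (nU hu) (nU hk) kb.up (nU hi') (nU hi) nL
      (fun p hp => hp.2.le)
  have hH : PolyN (Dx D (fun _ => C.d)) (cx ctx) (fun p => (C.inst (w p.1)).H) := nU (nH C h)
  have hpw : PolyN (Dx D (fun _ => C.d)) (cx ctx) (fun p => (2 * (C.inst (w p.1)).H + 1) ^ p.2) := by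
    have h1 : PolyN (Dx D (fun _ => C.d)) (cx ctx) (fun p => 2 * (C.inst (w p.1)).H + 1) :=
      PolyN.succ ((PolyN.const 2).mul hH)
    refine n_pow h1 nL (((Bdd.ofN h1).pow C.d).le (fun p hp => ?_))
    exact Nat.pow_le_pow_right (by omega) hp.2.le
  have hidx : PolyN D ctx (fun a => ∑ c ∈ Finset.range C.d,
      ((C.inst (w a)).UU (x a) (e a) (v a) (ε a) (u a) (k a) (i a) (i' a) c + (C.inst (w a)).H -
        (C.inst (w a)).UU (x a) (e a) (v a) (ε a) (u a) (k a) (i' a) (i a) c) *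
      (2 * (C.inst (w a)).H + 1) ^ c) :=
    nSum (n := fun _ => C.d) (PolyN.const C.d) ((PolyN.sub (hU1.add hH) hU2).mul hpw)
  refine n_ite ?_ ?_ ?_
  · refine PolyP.forall_range (n := fun _ => C.d) (PolyN.const C.d) ?_
    exact (PolyP.le hU2 (hU1.add hH)).and (PolyP.le hU1 (hU2.add hH))
  · exact PolyC.mono (h.nTab (p := fun a => (C.inst (w a)).p) (n2p C h) hidx) fun _ h => h.1
  · exact PolyC.mono (n2p C h) fun _ h => h.1

include h in
theorem bMult {e k : α → ℕ} (he : PolyN D ctx e) (hk : PolyN D ctx k) :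
    PolyBin D ctx (fun a => (C.inst (w a)).mult (e a) (k a)) := by
  refine binProd (PolyN.succ (nT C h)) ?_
  refine binProd (nU (nm C h)) ?_
  refine bin_ofN (n_ite (PolyP.le ?_ nL) (PolyC.mono (PolyN.succ nL) fun _ h => h.1)
    (PolyN.const 1))
  refine n_card (nU (nU hk)) ?_
  exact PolyP.eq (nPf C h.up.up.up (nU (nU (nU he))) (nU (nU (nU hk))) nL) (nU (nU nL))

include h in
theorem zPair {x e v ε u k i i' : α → ℕ} (hx : PolyN D ctx x) (he : PolyN D ctx e)
    (hv : PolyN D ctx v) (hε : PolyN D ctx ε) (hu : PolyN D ctx u) (hk : PolyN D ctx k)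
    (kb : LgB D w k) (hi : PolyN D ctx i) (hi' : PolyN D ctx i') :
    PolyZ D ctx (fun a => if i a < i' a ∧ i' a < k a then
      ((C.inst (w a)).qh (x a) (e a) (v a) (ε a) (u a) (k a) (i a) (i' a) : ℤ)
      else 2 ^ (C.inst (w a)).p) := by
  have h1 : PolyZ D ctx (fun a =>
      ((C.inst (w a)).qh (x a) (e a) (v a) (ε a) (u a) (k a) (i a) (i' a) : ℤ)) :=
    PolyZ.ofBin (bin_ofN (nQh C h hx he hv hε hu hk kb hi hi'))
  have h2 : PolyZ D ctx (fun a => (2 : ℤ) ^ (C.inst (w a)).p) :=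
    (PolyZ.ofBin (bin_ofN (n2p C h))).congr (fun a _ => by push_cast; rfl)
  exact PolyZ.ite ((PolyP.lt hi hi').and (PolyP.lt hi' hk)) (h1.mono fun _ h => h.1)
    (h2.mono fun _ h => h.1)

include h in
theorem zConf {x e v ε u k : α → ℕ} (hx : PolyN D ctx x) (he : PolyN D ctx e)
    (hv : PolyN D ctx v) (hε : PolyN D ctx ε) (hu : PolyN D ctx u) (hk : PolyN D ctx k)
    (kb : LgB D w k) :
    PolyZ D ctx (fun a => ∏ i ∈ Finset.range (C.inst (w a)).m,
      ∏ i' ∈ Finset.range (C.inst (w a)).m, if i < i' ∧ i' < k a then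
      ((C.inst (w a)).qh (x a) (e a) (v a) (ε a) (u a) (k a) i i' : ℤ)
      else 2 ^ (C.inst (w a)).p) :=
  PolyZ.prod (nm C h) (PolyZ.prod (nU (nm C h))
    (zPair C h.up.up (nU (nU hx)) (nU (nU he)) (nU (nU hv)) (nU (nU hε)) (nU (nU hu))
      (nU (nU hk)) kb.up.up (nU nL) nL))

include h in
theorem zSumU {x e v ε k : α → ℕ} (hx : PolyN D ctx x) (he : PolyN D ctx e)
    (hv : PolyN D ctx v) (hε : PolyN D ctx ε) (hk : PolyN D ctx k)
    (kb : LgB D w k) :
    PolyZ D ctx (fun a => ∑ u ∈ Finset.range (2 ^ ((C.inst (w a)).d * (C.inst (w a)).B)),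
      ∏ i ∈ Finset.range (C.inst (w a)).m,
      ∏ i' ∈ Finset.range (C.inst (w a)).m, if i < i' ∧ i' < k a then
      ((C.inst (w a)).qh (x a) (e a) (v a) (ε a) u (k a) i i' : ℤ)
      else 2 ^ (C.inst (w a)).p) := by
  have hn : PolyN D ctx (fun a => 2 ^ ((C.inst (w a)).d * (C.inst (w a)).B)) :=
    h.ncpow 2 ((PolyN.const C.d).mul (nB C h)) ((bB C).cmul C.d)
  exact PolyZ.sum hn (zConf C h.up (nU hx) (nU he) (nU hv) (nU hε) nL (nU hk) kb.up)

include h in
theorem zEps {x e v k : α → ℕ} (hx : PolyN D ctx x) (he : PolyN D ctx e)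
    (hv : PolyN D ctx v) (hk : PolyN D ctx k) (kb : LgB D w k) :
    PolyZ D ctx (fun a => ∑ ε ∈ (C.inst (w a)).eps (v a) (k a),
      (-1) ^ cnt ε (k a) * ((C.inst (w a)).mult (e a) (k a) : ℤ) *
      ∑ u ∈ Finset.range (2 ^ ((C.inst (w a)).d * (C.inst (w a)).B)),
      ∏ i ∈ Finset.range (C.inst (w a)).m,
      ∏ i' ∈ Finset.range (C.inst (w a)).m, if i < i' ∧ i' < k a then
      ((C.inst (w a)).qh (x a) (e a) (v a) ε u (k a) i i' : ℤ)
      else 2 ^ (C.inst (w a)).p) := by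
  have hn : PolyN D ctx (fun a => 2 ^ k a) := h.ncpow 2 hk kb
  have h1 : PolyP (Dx D (fun a => 2 ^ k a)) (cx ctx) (fun p => ∀ i ∈ Finset.range (k p.1),
      p.2.testBit i = true → 1 ≤ (C.inst (w p.1)).lev (v p.1) (k p.1) i) :=
    PolyP.forall_range (nU hk) ((PolyP.testBit (nU nL) nL).imp (PolyP.le (PolyN.const 1)
      (nLev C h.up.up (nU (nU hv)) (nU (nU hk)) nL)))
  exact PolyZ.sum_filter hn h1 (((PolyZ.negOnePow (nCnt nL (nU hk))).mul
    (PolyZ.ofBin (bMult C h.up (nU he) (nU hk)))).mul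
    (zSumU C h.up (nU hx) (nU he) (nU hv) nL (nU hk) kb.up))

include h in
theorem zV {x e k : α → ℕ} (hx : PolyN D ctx x) (he : PolyN D ctx e)
    (hk : PolyN D ctx k) (kb : LgB D w k) :
    PolyZ D ctx (fun a => ∑ v ∈ (C.inst (w a)).vCodes (k a),
      ∑ ε ∈ (C.inst (w a)).eps v (k a),
      (-1) ^ cnt ε (k a) * ((C.inst (w a)).mult (e a) (k a) : ℤ) *
      ∑ u ∈ Finset.range (2 ^ ((C.inst (w a)).d * (C.inst (w a)).B)),
      ∏ i ∈ Finset.range (C.inst (w a)).m,
      ∏ i' ∈ Finset.range (C.inst (w a)).m, if i < i' ∧ i' < k a then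
      ((C.inst (w a)).qh (x a) (e a) v ε u (k a) i i' : ℤ)
      else 2 ^ (C.inst (w a)).p) := by
  have hn : PolyN D ctx (fun a => 2 ^ ((C.inst (w a)).B + k a)) :=
    h.ncpow 2 ((nB C h).add hk) ((bB C).add kb)
  have h1 : PolyP (Dx D (fun a => 2 ^ ((C.inst (w a)).B + k a))) (cx ctx)
      (fun p => cnt p.2 ((C.inst (w p.1)).B + k p.1) = k p.1) :=
    PolyP.eq (nCnt nL (nU ((nB C h).add hk))) (nU hk)
  exact PolyZ.sum_filter hn h1 (zEps C h.up (nU hx) (nU he) nL (nU hk) kb.up)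

include h in
theorem zZhat {x j k : α → ℕ} (hx : PolyN D ctx x) (hj : PolyN D ctx j) (hk : PolyN D ctx k)
    (kb : LgB D w k) : PolyZ D ctx (fun a => (C.inst (w a)).zhat (x a) (j a) (k a)) := by
  have hn : PolyN D ctx (fun a => 2 ^ ((C.inst (w a)).T + k a)) :=
    h.ncpow 2 ((nT C h).add hk) ((bT C).add kb)
  have h1 : PolyP (Dx D (fun a => 2 ^ ((C.inst (w a)).T + k a))) (cx ctx)
      (fun p => cnt p.2 ((C.inst (w p.1)).T + k p.1) = k p.1 ∧
        ∀ i ∈ Finset.range (k p.1), (j p.1).testBit ((C.inst (w p.1)).pf p.2 (k p.1) i) = true) :=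
    (PolyP.eq (nCnt nL (nU ((nT C h).add hk))) (nU hk)).and
      (PolyP.forall_range (nU hk) (PolyP.testBit (nU (nU hj))
        (nPf C h.up.up (nU nL) (nU (nU hk)) nL)))
  exact PolyZ.sum_filter hn h1 (zV C h.up (nU hx) nL (nU hk) kb.up)

include h in
theorem bFact : PolyBin D ctx (fun a => ((C.inst (w a)).m).factorial) :=
  (binProd (f := fun _ s => s + 1) (nm C h) (bin_ofN (PolyN.succ nL))).congr (fun a _ => by
    rw [Finset.prod_range_add_one_eq_factorial])

include h in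
theorem bDD : PolyBin D ctx (fun a => (C.inst (w a)).DD) := by
  have h1 : PolyBin D ctx (fun a => 2 ^ ((C.inst (w a)).d * (C.inst (w a)).B)) :=
    bin_pow (bin_const 2) ((PolyN.const C.d).mul (nB C h))
  have h2 : PolyBin D ctx (fun a => (2 ^ (C.inst (w a)).p) ^ ((C.inst (w a)).m * (C.inst (w a)).m)) :=
    bin_pow (bin_ofN (n2p C h)) ((nm C h).mul (nm C h))
  exact bin_mul (bin_mul h1 h2) (bin_pow (bFact C h) (PolyN.succ (nT C h)))

include h in
theorem zCc {x j t s : α → ℕ} (hx : PolyN D ctx x) (hj : PolyN D ctx j) (ht : PolyN D ctx t)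
    (tb : LgB D w t) (hs : PolyN D ctx s) :
    PolyZ D ctx (fun a => (C.inst (w a)).cc (x a) (j a) (t a) (s a)) := by
  have h1 : PolyZ D ctx (fun a => (t a : ℤ) * (C.inst (w a)).zhat (x a) (j a) (t a)) :=
    (PolyZ.ofBin (bin_ofN ht)).mul (zZhat C h hx hj ht tb)
  have h2 : PolyZ D ctx (fun a => - (C.inst (w a)).zhat (x a) (j a) (t a - s a)) :=
    (zZhat C h hx hj (PolyN.sub ht hs) (tb.le (fun a _ => Nat.sub_le _ _))).neg
  exact PolyZ.ite (PolyP.eq hs (PolyN.const 0)) (h1.mono fun _ h => h.1) (h2.mono fun _ h => h.1)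

include h in
theorem zLhat {x j n : α → ℕ} (hx : PolyN D ctx x) (hj : PolyN D ctx j) (hn : PolyN D ctx n)
    (nb : LgB D w n) : PolyZ D ctx (fun a => (C.inst (w a)).lhat (x a) (j a) (n a)) := by
  have h2n : PolyN D ctx (fun a => 2 ^ n a) := h.ncpow 2 hn nb
  have h1 : PolyP (Dx D (fun a => 2 ^ n a)) (cx ctx) (fun p => p.2.testBit 0 = true) :=
    PolyP.testBit nL (PolyN.const 0)
  -- the factors, with shifted index
  have b1 : LgB (Dx (Dx D (fun a => 2 ^ n a)) (fun p => n p.1)) (fun p => w p.1.1)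
      (fun p => p.2 + 1) := by
    obtain ⟨K, hK⟩ := nb
    exact ⟨K, fun p hp => (Nat.succ_le_of_lt hp.2).trans (hK p.1.1 hp.1.1)⟩
  have h2 : PolyZ (Dx (Dx D (fun a => 2 ^ n a)) (fun p => n p.1)) (cx (cx ctx))
      (fun p => if p.2 + 1 = n p.1.1 ∨ p.1.2.testBit (p.2 + 1) = true then
        (C.inst (w p.1.1)).cc (x p.1.1) (j p.1.1) (p.2 + 1) (prv p.1.2 (p.2 + 1))
        else ((C.inst (w p.1.1)).DD : ℤ)) := by
    have hL : PolyN (Dx (Dx D (fun a => 2 ^ n a)) (fun p => n p.1)) (cx (cx ctx))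
      (fun p => p.2 + 1) := PolyN.succ nL
    have h3 := zCc C h.up.up (nU (nU hx)) (nU (nU hj)) hL b1 (nPrv (nU nL) hL)
    have h4 : PolyZ (Dx (Dx D (fun a => 2 ^ n a)) (fun p => n p.1)) (cx (cx ctx))
      (fun p => ((C.inst (w p.1.1)).DD : ℤ)) := PolyZ.ofBin (bDD C h.up.up)
    exact PolyZ.ite ((PolyP.eq hL (nU (nU hn))).or (PolyP.testBit (nU nL) hL))
      (h3.mono fun _ h => h.1) (h4.mono fun _ h => h.1)
  have h3 : PolyZ (Dx D (fun a => 2 ^ n a)) (cx ctx) (fun p => ∏ t ∈ Finset.Icc 1 (n p.1),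
      if t = n p.1 ∨ p.2.testBit t = true then
        (C.inst (w p.1)).cc (x p.1) (j p.1) t (prv p.2 t)
        else ((C.inst (w p.1)).DD : ℤ)) := by
    have h4 := PolyZ.prod (f := fun (q : α × ℕ) (s : ℕ) =>
      if s + 1 = n q.1 ∨ q.2.testBit (s + 1) = true then
        (C.inst (w q.1)).cc (x q.1) (j q.1) (s + 1) (prv q.2 (s + 1))
        else ((C.inst (w q.1)).DD : ℤ)) (nU hn) h2
    refine h4.congr (fun p _ => ?_)
    have h5 : Finset.Icc 1 (n p.1) = Finset.Ico 1 (n p.1 + 1) := by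
      ext t
      simp only [Finset.mem_Icc, Finset.mem_Ico]
      omega
    rw [h5, Finset.prod_Ico_eq_prod_range]
    simp only [Nat.add_sub_cancel]
    refine Finset.prod_congr rfl (fun t _ => ?_)
    simp only [add_comm 1 t]
  exact PolyZ.sum_filter h2n h1 h3

theorem binTable (A : ℕ → ℕ) (c : ℕ) : ∀ {D : α → Prop} {f : α → ℕ}, PolyN D ctx f →
    (∀ a, D a → f a ≤ c) → PolyBin D ctx (fun a => A (f a)) := by
  classical
  induction c with
  | zero =>
    intro D f hf hfc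
    exact (bin_const (A 0)).congr (fun a ha => by rw [Nat.le_zero.1 (hfc a ha)])
  | succ c ih =>
    intro D f hf hfc
    have h1 : PolyBin D ctx (fun a => if f a = c + 1 then A (c + 1) else A (f a)) :=
      bin_ite (PolyP.eq hf (PolyN.const (c + 1))) (bin_const _)
        (ih (PolyC.mono hf fun _ h => h.1) (fun a ha => by
          have h2 := hfc a ha.1
          have h3 : f a ≠ c + 1 := ha.2
          omega))
    refine h1.congr (fun a _ => ?_)
    split_ifs with h2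
    · rw [h2]
    · rfl

include h in
theorem bCmbc {n : α → ℕ} (hn : PolyN D ctx n) (nb : LgB D w n) :
    PolyBin D ctx (fun a => (C.inst (w a)).cmbc (n a)) := by
  classical
  rcases Nat.eq_zero_or_pos C.D with h0 | h0
  · -- no coefficients
    have h1 : PolyBin D ctx (fun a => if n a = 0 then 1 else 0) :=
      bin_ite (PolyP.eq hn (PolyN.const 0)) (bin_const 1) (bin_const 0)
    refine h1.congr (fun a _ => ?_)
    have hD : (C.inst (w a)).D = 0 := h0
    unfold Inst.cmbc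
    rw [hD]
    split_ifs with h2
    · rw [h2]; simp
    · rw [zero_pow h2]; simp
  · have hDn : PolyN D ctx (fun a => (C.inst (w a)).D ^ n a) := h.ncpow C.D hn nb
    have hdig : PolyN (Dx (Dx D (fun a => (C.inst (w a)).D ^ n a)) (fun p => n p.1)) (cx (cx ctx))
        (fun p => p.1.2 / (C.inst (w p.1.1)).D ^ p.2 % (C.inst (w p.1.1)).D + 1) := by
      refine PolyN.succ (PolyN.mod (PolyN.div (nU nL) (h.up.up.ncpow C.D nL ?_) ?_)
        (PolyN.const C.D) ?_)
      · exact LgB.last (LgB.up nb)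
      · intro a _; exact Nat.pow_pos h0
      · intro a _; exact h0
    have h1 : PolyP (Dx D (fun a => (C.inst (w a)).D ^ n a)) (cx ctx)
        (fun p => ∑ t ∈ Finset.range (n p.1), (p.2 / (C.inst (w p.1)).D ^ t %
          (C.inst (w p.1)).D + 1) ≤ (C.inst (w p.1)).m) :=
      PolyP.le (nSum (nU hn) hdig) (nm C h.up)
    have h2 : PolyBin (Dx (Dx D (fun a => (C.inst (w a)).D ^ n a)) (fun p => n p.1)) (cx (cx ctx))
        (fun p => (C.inst (w p.1.1)).A (p.1.2 / (C.inst (w p.1.1)).D ^ p.2 %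
          (C.inst (w p.1.1)).D + 1)) :=
      binTable C.A C.D hdig (fun p _ => Nat.succ_le_of_lt (Nat.mod_lt _ h0))
    exact bin_sum_filter hDn h1 (binProd (nU hn) h2)

include h in
theorem zTot {n : α → ℕ} (hn : PolyN D ctx n) (nb : LgB D w n) :
    PolyZ D ctx (fun a => (C.inst (w a)).tot (n a)) := by
  have hT1 : PolyN D ctx (fun a => 2 ^ ((C.inst (w a)).T + 1)) :=
    h.ncpow 2 (PolyN.succ (nT C h)) ((bT C).add (LgB.const 1))
  have hb : LgB D w (fun a => (C.inst (w a)).T + 1) := (bT C).add (LgB.const 1)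
  have h1 : PolyP (Dx (Dx D (fun a => (C.inst (w a)).nx)) (fun p => 2 ^ ((C.inst (w p.1)).T + 1)))
      (cx (cx ctx)) (fun p => ∀ t ∈ Finset.range ((C.inst (w p.1.1)).T + 1),
        p.2.testBit t = true → (C.inst (w p.1.1)).fv p.1.2 t) :=
    PolyP.forall_range (nU (nU (PolyN.succ (nT C h)))) ((PolyP.testBit (nU nL) nL).imp
      (pFv C h.up.up.up (nU (nU nL)) nL (LgB.last (LgB.up (LgB.up hb)))))
  have h2 : PolyZ (Dx (Dx D (fun a => (C.inst (w a)).nx)) (fun p => 2 ^ ((C.inst (w p.1)).T + 1)))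
      (cx (cx ctx)) (fun p => (-1) ^ ((C.inst (w p.1.1)).nfv p.1.2 -
        cnt p.2 ((C.inst (w p.1.1)).T + 1)) * (C.inst (w p.1.1)).lhat p.1.2 p.2 (n p.1.1)) :=
    (PolyZ.negOnePow (PolyN.sub (nNfv C h.up.up (nU nL))
      (nCnt nL (nU (nU (PolyN.succ (nT C h))))))).mul
      (zLhat C h.up.up (nU nL) nL (nU (nU hn)) nb.up.up)
  exact PolyZ.sum_filter (nNx C h) (pCanon C h.up nL) (PolyZ.sum_filter (nU hT1) h1 h2)

include h in
theorem zNum : PolyZ D ctx (fun a => (C.inst (w a)).Num) := by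
  have b1 : LgB (Dx D (fun a => (C.inst (w a)).m)) (fun p => w p.1) (fun p => p.2 + 1) := by
    obtain ⟨K, hK⟩ := bm (D := D) (w := w) C
    exact ⟨K, fun p hp => (Nat.succ_le_of_lt hp.2).trans (hK p.1 hp.1)⟩
  have hL : PolyN (Dx D (fun a => (C.inst (w a)).m)) (cx ctx) (fun p => p.2 + 1) := PolyN.succ nL
  have hmn : PolyN (Dx D (fun a => (C.inst (w a)).m)) (cx ctx)
      (fun p => (C.inst (w p.1)).m - (p.2 + 1)) := PolyN.sub (nU (nm C h)) hL
  have h1 : PolyBin (Dx D (fun a => (C.inst (w a)).m)) (cx ctx)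
      (fun p => ∏ s ∈ Finset.range (C.inst (w p.1)).m, if s + 1 = p.2 + 1 then 1 else (s + 1)) := by
    refine binProd (nU (nm C h)) ?_
    exact bin_ite (PolyP.eq (PolyN.succ nL) (nU hL)) (bin_const 1)
      (bin_ofN (PolyC.mono (PolyN.succ nL) fun _ h => h.1))
  have h2 : PolyBin (Dx D (fun a => (C.inst (w a)).m)) (cx ctx) (fun p =>
      (∏ s ∈ Finset.range (C.inst (w p.1)).m, if s + 1 = p.2 + 1 then 1 else (s + 1)) *
        (C.inst (w p.1)).cmbc (p.2 + 1) * (C.inst (w p.1)).SA ^ ((C.inst (w p.1)).m - (p.2 + 1)) *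
        (C.inst (w p.1)).a ^ (p.2 + 1) * (C.inst (w p.1)).b ^ ((C.inst (w p.1)).m - (p.2 + 1)) *
        (C.inst (w p.1)).DD ^ ((C.inst (w p.1)).m - (p.2 + 1))) := by
    have e1 : PolyBin (Dx D (fun a => (C.inst (w a)).m)) (cx ctx)
        (fun p => (C.inst (w p.1)).SA ^ ((C.inst (w p.1)).m - (p.2 + 1))) :=
      bin_pow (bin_const (∑ i ∈ Finset.Icc 1 C.D, C.A i)) hmn
    have e2 : PolyBin (Dx D (fun a => (C.inst (w a)).m)) (cx ctx)
        (fun p => (C.inst (w p.1)).a ^ (p.2 + 1)) := bin_pow (bin_const C.a) hL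
    have e3 : PolyBin (Dx D (fun a => (C.inst (w a)).m)) (cx ctx)
        (fun p => (C.inst (w p.1)).b ^ ((C.inst (w p.1)).m - (p.2 + 1))) :=
      bin_pow (bin_const C.b) hmn
    exact bin_mul (bin_mul (bin_mul (bin_mul (bin_mul h1 (bCmbc C h.up hL b1)) e1) e2) e3)
      (bin_pow (bDD C h.up) hmn)
  have h3 := PolyZ.sum (f := fun (a : α) (s : ℕ) =>
      (((∏ s' ∈ Finset.range (C.inst (w a)).m, if s' + 1 = s + 1 then 1 else (s' + 1)) *
        (C.inst (w a)).cmbc (s + 1) * (C.inst (w a)).SA ^ ((C.inst (w a)).m - (s + 1)) *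
        (C.inst (w a)).a ^ (s + 1) * (C.inst (w a)).b ^ ((C.inst (w a)).m - (s + 1)) *
        (C.inst (w a)).DD ^ ((C.inst (w a)).m - (s + 1)) : ℕ) : ℤ) *
        (C.inst (w a)).tot (s + 1)) (nm C h) ((PolyZ.ofBin h2).mul (zTot C h.up hL b1))
  refine h3.congr (fun a _ => ?_)
  unfold Inst.Num
  have h5 : Finset.Icc 1 (C.inst (w a)).m = Finset.Ico 1 ((C.inst (w a)).m + 1) := by
    ext t
    simp only [Finset.mem_Icc, Finset.mem_Ico]
    omega
  rw [h5, Finset.sum_Ico_eq_sum_range]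
  simp only [Nat.add_sub_cancel]
  refine Finset.sum_congr rfl (fun t _ => ?_)
  simp only [add_comm 1 t]

include h in
theorem bDen : PolyBin D ctx (fun a => (C.inst (w a)).Den) := by
  have e1 : PolyBin D ctx (fun a => (C.inst (w a)).SA ^ (C.inst (w a)).m) :=
    bin_pow (bin_const (∑ i ∈ Finset.Icc 1 C.D, C.A i)) (nm C h)
  have e2 : PolyBin D ctx (fun a => (C.inst (w a)).b ^ (C.inst (w a)).m) :=
    bin_pow (bin_const C.b) (nm C h)
  exact bin_mul (bin_mul (bin_mul (bFact C h) e1) e2) (bin_pow (bDD C h) (nm C h))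

include h in
theorem nQe : PolyN D ctx (fun a => C.Qe (w a)) :=
  ((PolyN.const C.K4).mul h.nM).mul (PolyN.pow (PolyN.succ h.nN) (2 * C.d))

end main

theorem cDbl {t : α → List Bool} (ht : PolyC D ctx t) : PolyC D ctx (fun a => dbl (t a)) := by
  have h1 : PolyC D ctx (fun a => (List.range (t a).length).flatMap
      (fun i => [true, (t a).getD i false])) :=
    PolyC.flatMap_range (t := fun p : α × ℕ => [true, (t p.1).getD p.2 false]) (PolyN.length ht)
      (PolyC.cons true (PolyB.getD (up (n := fun a => (t a).length) ht)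
        (last (D := D) (ctx := ctx) (n := fun a => (t a).length))))
  refine (h1.append (PolyC.const [false])).congr (fun a _ => ?_)
  unfold dbl
  congr 1
  generalize t a = l
  have h2 : l = (List.range l.length).map (fun i => l.getD i false) := by
    apply List.ext_getElem
    · simp
    · intro i h1 h2
      rw [List.getElem_map, List.getElem_range, List.getD_eq_getElem _ _ h1]
  conv_rhs => rw [h2]
  rw [List.flatMap_map]

end Pool.Agent.Lib.P8e91ed.PT

namespace Pool.Agent.Lib.P8e91ed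

open Pool.Agent.Lib.PolyTime PT

theorem poly_out (C : Consts) :
    Nonempty (Turing.TM2ComputableInPolyTime (α := {x : ℕ × ℕ × List ℚ // 1 ≤ x.1 ∧ 1 ≤ x.2.1})
      (αΓ := Bool) (βΓ := Bool) (fun x => encIn x.1) encOut (fun x => C.out x.1)) := by
  have h : Inp (fun x : ℕ × ℕ × List ℚ => 1 ≤ x.1 ∧ 1 ≤ x.2.1) [encIn] (fun x => x) :=
    ⟨PolyC.var (by simp), fun _ h => h.1, fun _ h => h.2⟩
  have hQ := nQe C h
  have h1 : Pa7c826.PolyBin (fun x : ℕ × ℕ × List ℚ => 1 ≤ x.1 ∧ 1 ≤ x.2.1) [encIn]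
      (fun x => (C.inst x).Den * C.Qe x) := bin_mul (bDen C h) (bin_ofN hQ)
  have h2 : Pa7c826.PolyBin (fun x : ℕ × ℕ × List ℚ => 1 ≤ x.1 ∧ 1 ≤ x.2.1) [encIn]
      (fun x => (C.out x).1) := bin_pow (h1.add (zNum C h).toNat) hQ
  have h3 : Pa7c826.PolyBin (fun x : ℕ × ℕ × List ℚ => 1 ≤ x.1 ∧ 1 ≤ x.2.1) [encIn]
      (fun x => (C.out x).2) := bin_pow h1 hQ
  exact PolyC.toTM2 encIn C.out encOut (PolyC.append (cDbl (bin_bits h2)) (cDbl (bin_bits h3)))

end Pool.Agent.Lib.P8e91ed
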