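import Pool.Agent.Lib.P8e91ed.Defs

/-!
The algorithm of MP_8e91ed_lc as an explicit formula in natural numbers.
-/

set_option autoImplicit false

open Finset

noncomputable section

namespace Pool.Agent.Lib.P8e91ed

/-- The data of one run. `tab` is the table of the (rounded) oracle answers, `a / b` the activity,
`A 1, ..., A D` the coefficients of the interpolation polynomial. -/
structure Inst where
  d : ℕ
  R : ℕ
  a : ℕ
  b : ℕ
  D : ℕ
  A : ℕ → ℕ
  N : ℕ
  T : ℕ
  m : ℕ
  B : ℕ
  p : ℕ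
  tab : ℕ → ℕ

/-- number of set bits of `e` below position `p` -/
def cnt (e p : ℕ) : ℕ := ((range p).filter fun q => e.testBit q = true).card

/-- position of the set bit of rank `i` of `e`, among the positions below `L` -/
def nb (e i L : ℕ) : ℕ := ∑ p ∈ range L, if e.testBit p = true ∧ cnt e p = i then p else 0

/-- last set bit of `y` below `t` -/
def prv (y t : ℕ) : ℕ :=
  ∑ s ∈ range t, if y.testBit s = true ∧ ∀ u ∈ range t, s < u → y.testBit u = false then s else 0

namespace Inst

variable (I : Inst)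

/-- number of displacements -/
def ze : ℕ := (2 * I.R + 1) ^ I.d

/-- coordinate `i` of the position of the walk `x` at time `t`, shifted by `N + R t` -/
def Xc (x t i : ℕ) : ℕ :=
  x / I.ze ^ I.T / (2 * I.N) ^ i % (2 * I.N) +
    ∑ t' ∈ range t, x / I.ze ^ t' % I.ze / (2 * I.R + 1) ^ i % (2 * I.R + 1)

/-- the walk stays in the box -/
def okc (x : ℕ) : Prop := ∀ t ∈ range (I.T + 1), ∀ i ∈ range I.d,
  I.R * t ≤ I.Xc x t i ∧ I.Xc x t i < 2 * I.N + I.R * t

/-- walk `x` at time `t` is where walk `y` is at time `u` -/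
def same (x t y u : ℕ) : Prop := ∀ i ∈ range I.d, I.Xc x t i + I.R * u = I.Xc y u i + I.R * t

/-- same range -/
def sameSet (x y : ℕ) : Prop :=
  (∀ t ∈ range (I.T + 1), ∃ u ∈ range (I.T + 1), I.same x t y u) ∧
    ∀ u ∈ range (I.T + 1), ∃ t ∈ range (I.T + 1), I.same x t y u

/-- number of walk codes -/
def nx : ℕ := (2 * I.N) ^ I.d * I.ze ^ I.T

open Classical in
/-- the walk codes kept: one for every range -/
def canon : Finset ℕ :=
  (range I.nx).filter fun x => I.okc x ∧ ∀ y ∈ range x, I.okc y → ¬ I.sameSet x y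

/-- first visit -/
def fv (x t : ℕ) : Prop := ∀ u ∈ range t, ¬ I.same x u x t

open Classical in
/-- the masks kept: sets of first visit times -/
def masks (x : ℕ) : Finset ℕ :=
  (range (2 ^ (I.T + 1))).filter fun j => ∀ t ∈ range (I.T + 1), j.testBit t = true → I.fv x t

open Classical in
/-- number of cells of the range of the walk -/
def nfv (x : ℕ) : ℕ := ((range (I.T + 1)).filter fun t => I.fv x t).card

/-- the cell of the walk `x` at time `t` -/
def cel (x t : ℕ) : Fin I.d → ℤ := fun i => (I.Xc x t i : ℤ) - I.R * t - I.N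

/-- the set of times given by the mask `j` -/
def times (j : ℕ) : Finset ℕ := (range (I.T + 1)).filter fun t => j.testBit t = true

/-- cell time of the point `i`, from the code `e` -/
def pf (e k i : ℕ) : ℕ := nb e i (I.T + k) - i

/-- level of the point `i`, from the code `v` -/
def lev (v k i : ℕ) : ℕ := nb v i (I.B + k) - if i = 0 then 0 else nb v (i - 1) (I.B + k) + 1

/-- sum of the levels of the points before `i` -/
def off (v k i : ℕ) : ℕ := if i = 0 then 0 else nb v (i - 1) (I.B + k) + 1 - i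

/-- grid coordinate `c` of the point `i` inside its cell, in units of `2^(-B)` -/
def gx (v ε u k i c : ℕ) : ℕ :=
  ∑ s ∈ range (I.lev v k i - if ε.testBit i = true then 1 else 0),
    if u.testBit ((I.off v k i + s) * I.d + c) = true then 2 ^ (I.B - 1 - s) else 0

/-- coordinate `c` of point `i`, up to a shift common to `(i, i')` and `(i', i)` -/
def UU (x e v ε u k i i' c : ℕ) : ℕ :=
  (I.Xc x (I.pf e k i) c + I.R * I.pf e k i') * 2 ^ I.B + I.gx v ε u k i c

/-- half width of the table -/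
def H : ℕ := I.R * 2 ^ I.B

open Classical in
/-- the factor of the pair of points `(i, i')`, multiplied by `2^p` -/
def qh (x e v ε u k i i' : ℕ) : ℕ :=
  if ∀ c ∈ range I.d, I.UU x e v ε u k i' i c ≤ I.UU x e v ε u k i i' c + I.H ∧
      I.UU x e v ε u k i i' c ≤ I.UU x e v ε u k i' i c + I.H then
    I.tab (∑ c ∈ range I.d, (I.UU x e v ε u k i i' c + I.H - I.UU x e v ε u k i' i c) *
      (2 * I.H + 1) ^ c)
  else 2 ^ I.p

/-- `(m!)^(T+1) / ∏ (multiplicities)!` -/
def mult (e k : ℕ) : ℕ :=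
  ∏ t ∈ range (I.T + 1), ∏ s ∈ range I.m,
    if ((range k).filter fun i => I.pf e k i = t).card ≤ s then s + 1 else 1

/-- the codes `e` kept -/
def eCodes (j k : ℕ) : Finset ℕ :=
  (range (2 ^ (I.T + k))).filter fun e =>
    cnt e (I.T + k) = k ∧ ∀ i ∈ range k, j.testBit (I.pf e k i) = true

/-- the level codes `v` kept -/
def vCodes (k : ℕ) : Finset ℕ :=
  (range (2 ^ (I.B + k))).filter fun v => cnt v (I.B + k) = k

/-- the difference codes `ε` kept -/
def eps (v k : ℕ) : Finset ℕ :=
  (range (2 ^ k)).filter fun ε => ∀ i ∈ range k, ε.testBit i = true → 1 ≤ I.lev v k i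

/-- scaled approximation of the canonical partition function with `k` points -/
def zhat (x j k : ℕ) : ℤ :=
  ∑ e ∈ I.eCodes j k, ∑ v ∈ I.vCodes k, ∑ ε ∈ I.eps v k,
    (-1) ^ cnt ε k * (I.mult e k : ℤ) *
      ∑ u ∈ range (2 ^ (I.d * I.B)), ∏ i ∈ range I.m, ∏ i' ∈ range I.m,
        if i < i' ∧ i' < k then (I.qh x e v ε u k i i' : ℤ) else 2 ^ I.p

/-- the scaling factor of `zhat` -/
def DD : ℕ := 2 ^ (I.d * I.B) * (2 ^ I.p) ^ (I.m * I.m) * (I.m.factorial) ^ (I.T + 1)

/-- the coefficients of the linear recursion -/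
def cc (x j t s : ℕ) : ℤ := if s = 0 then t * I.zhat x j t else - I.zhat x j (t - s)

/-- scaled coefficient of the logarithmic derivative -/
def lhat (x j n : ℕ) : ℤ :=
  ∑ y ∈ (range (2 ^ n)).filter (fun y => y.testBit 0 = true),
    ∏ t ∈ Icc 1 n, if t = n ∨ y.testBit t = true then I.cc x j t (prv y t) else I.DD

/-- `cmb` written with codes -/
def cmbc (n : ℕ) : ℕ :=
  ∑ w ∈ (range (I.D ^ n)).filter (fun w => ∑ t ∈ range n, (w / I.D ^ t % I.D + 1) ≤ I.m),
    ∏ t ∈ range n, I.A (w / I.D ^ t % I.D + 1)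

/-- the sum of the coefficients of the interpolation polynomial -/
def SA : ℕ := ∑ i ∈ Icc 1 I.D, I.A i

/-- sum over the connected sets and their subsets -/
def tot (n : ℕ) : ℤ :=
  ∑ x ∈ I.canon, ∑ j ∈ I.masks x, (-1) ^ (I.nfv x - cnt j (I.T + 1)) * I.lhat x j n

/-- numerator of the approximation of `log Z` -/
def Num : ℤ :=
  ∑ n ∈ Icc 1 I.m, ((∏ s ∈ range I.m, if s + 1 = n then 1 else (s + 1)) * I.cmbc n *
    I.SA ^ (I.m - n) * I.a ^ n * I.b ^ (I.m - n) * I.DD ^ (I.m - n) : ℕ) * I.tot n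

/-- denominator of the approximation of `log Z` -/
def Den : ℕ := I.m.factorial * I.SA ^ I.m * I.b ^ I.m * I.DD ^ I.m

/-- the table as a function on the integer lattice -/
def Qt (D : Fin I.d → ℤ) : ℝ :=
  open Classical in
  if ∀ c, |D c| ≤ (I.H : ℤ) then
    (I.tab (∑ c : Fin I.d, (D c + I.H).toNat * (2 * I.H + 1) ^ (c : ℕ)) : ℝ) / 2 ^ I.p
  else 1

end Inst

end Pool.Agent.Lib.P8e91ed
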