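import Pool.Agent.Lib.P8e91ed.Defs

/-!
Cluster expansion over finite sets of cells (pure algebra) for MP_8e91ed_lc.
-/

set_option autoImplicit false

open Finset

noncomputable section

namespace Pool.Agent.Lib.P8e91ed

section Moebius
variable {α : Type*} [DecidableEq α]

theorem sum_Icc_sign {A X : Finset α} (h : A ⊆ X) :
    ∑ Y ∈ X.powerset.filter (fun Y => A ⊆ Y), (-1 : ℝ) ^ (X.card - Y.card) =
      if A = X then 1 else 0 := by
  have h1 : ∑ Y ∈ X.powerset.filter (fun Y => A ⊆ Y), (-1 : ℝ) ^ (X.card - Y.card) =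
      ∑ Z ∈ (X \ A).powerset, (-1 : ℝ) ^ Z.card := by
    refine Finset.sum_bij' (fun Y _ => X \ Y) (fun Z _ => X \ Z) ?_ ?_ ?_ ?_ ?_
    · intro Y hY
      rw [mem_filter, mem_powerset] at hY
      rw [mem_powerset]
      exact sdiff_subset_sdiff (Subset.refl _) hY.2
    · intro Z hZ
      rw [mem_powerset] at hZ
      rw [mem_filter, mem_powerset]
      refine ⟨sdiff_subset, ?_⟩
      intro a ha
      rw [mem_sdiff]
      refine ⟨h ha, fun haZ => ?_⟩
      have := hZ haZ
      rw [mem_sdiff] at this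
      exact this.2 ha
    · intro Y hY
      rw [mem_filter, mem_powerset] at hY
      exact Finset.sdiff_sdiff_eq_self hY.1
    · intro Z hZ
      rw [mem_powerset] at hZ
      exact Finset.sdiff_sdiff_eq_self (hZ.trans sdiff_subset)
    · intro Y hY
      rw [mem_filter, mem_powerset] at hY
      rw [card_sdiff_of_subset hY.1]
  rw [h1]
  by_cases hA : A = X
  · subst hA
    simp
  · rw [if_neg hA]
    have hne : (X \ A).Nonempty := by
      rw [sdiff_nonempty]
      intro hXA
      exact hA (Subset.antisymm h hXA)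
    have := Finset.sum_powerset_neg_one_pow_card_of_nonempty hne
    exact_mod_cast this

/-- alternating sum over the subsets -/
def dlt (f : Finset α → ℝ) (X : Finset α) : ℝ :=
  ∑ Y ∈ X.powerset, (-1 : ℝ) ^ (X.card - Y.card) * f Y

theorem dlt_of_sum {f c : Finset α → ℝ} (X : Finset α)
    (h : ∀ Y, Y ⊆ X → f Y = ∑ A ∈ Y.powerset, c A) :
    dlt f X = c X := by
  unfold dlt
  have h1 : ∑ Y ∈ X.powerset, (-1 : ℝ) ^ (X.card - Y.card) * f Y =
      ∑ Y ∈ X.powerset, ∑ A ∈ Y.powerset, (-1 : ℝ) ^ (X.card - Y.card) * c A := by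
    refine sum_congr rfl (fun Y hY => ?_)
    rw [h Y (mem_powerset.mp hY), mul_sum]
  rw [h1]
  rw [Finset.sum_comm' (t' := X.powerset) (s' := fun A => X.powerset.filter (fun Y => A ⊆ Y))]
  · have h2 : ∀ A ∈ X.powerset,
        ∑ Y ∈ X.powerset.filter (fun Y => A ⊆ Y), (-1 : ℝ) ^ (X.card - Y.card) * c A =
          if A = X then c A else 0 := by
      intro A hA
      rw [← sum_mul, sum_Icc_sign (mem_powerset.mp hA)]
      split_ifs <;> simp
    rw [sum_congr rfl h2, Finset.sum_ite_eq']
    simp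
  · intro Y A
    simp only [mem_powerset, mem_filter]
    constructor
    · rintro ⟨h1, h2⟩
      exact ⟨⟨h1, h2⟩, h2.trans h1⟩
    · rintro ⟨⟨h1, h2⟩, _⟩
      exact ⟨h1, h2⟩

theorem sum_dlt (f : Finset α → ℝ) (L : Finset α) : ∑ X ∈ L.powerset, dlt f X = f L := by
  unfold dlt
  rw [Finset.sum_comm' (t' := L.powerset) (s' := fun Y => L.powerset.filter (fun X => Y ⊆ X))]
  · have h2 : ∀ Y ∈ L.powerset,
        ∑ X ∈ L.powerset.filter (fun X => Y ⊆ X), (-1 : ℝ) ^ (X.card - Y.card) * f Y =
          if Y = L then f Y else 0 := by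
      intro Y hY
      rw [mem_powerset] at hY
      rw [← sum_mul]
      have h3 : ∑ X ∈ L.powerset.filter (fun X => Y ⊆ X), (-1 : ℝ) ^ (X.card - Y.card) =
          if Y = L then 1 else 0 := by
        have h4 := sum_Icc_sign hY
        have h5 : ∑ X ∈ L.powerset.filter (fun X => Y ⊆ X), (-1 : ℝ) ^ (X.card - Y.card) =
            (-1 : ℝ) ^ (L.card - Y.card) *
              ∑ X ∈ L.powerset.filter (fun X => Y ⊆ X), (-1 : ℝ) ^ (L.card - X.card) := by
          rw [mul_sum]
          refine sum_congr rfl (fun X hX => ?_)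
          rw [mem_filter, mem_powerset] at hX
          have e1 := card_le_card hX.1
          have e2 := card_le_card hX.2
          rw [← pow_add]
          have e3 : L.card - Y.card + (L.card - X.card) = (X.card - Y.card) + 2 * (L.card - X.card) := by
            omega
          rw [e3, pow_add, pow_mul]
          simp
        rw [h5, h4]
        split_ifs with h6
        · subst h6; simp
        · simp
      rw [h3]
      split_ifs <;> simp
    rw [sum_congr rfl h2, Finset.sum_ite_eq']
    simp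
  · intro X Y
    simp only [mem_powerset, mem_filter]
    constructor
    · rintro ⟨h1, h2⟩
      exact ⟨⟨h1, h2⟩, h2.trans h1⟩
    · rintro ⟨⟨h1, h2⟩, _⟩
      exact ⟨h1, h2⟩

/-- the alternating sums vanish above the size `k` -/
def Ord (f : Finset α → ℝ) (k : ℕ) : Prop := ∀ X : Finset α, k < X.card → dlt f X = 0

theorem Ord.mul {f g : Finset α → ℝ} {k l : ℕ} (hf : Ord f k) (hg : Ord g l) :
    Ord (fun Y => f Y * g Y) (k + l) := by
  intro X hX
  have h : ∀ Y, Y ⊆ X → f Y * g Y = ∑ C ∈ Y.powerset,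
      ∑ p ∈ (C.powerset ×ˢ C.powerset).filter (fun p => p.1 ∪ p.2 = C), dlt f p.1 * dlt g p.2 := by
    intro Y _
    rw [← sum_dlt f Y, ← sum_dlt g Y, sum_mul_sum, ← sum_product']
    rw [← Finset.sum_fiberwise_of_maps_to (t := Y.powerset) (g := fun p : Finset α × Finset α => p.1 ∪ p.2)]
    · refine sum_congr rfl (fun C hC => ?_)
      rw [mem_powerset] at hC
      refine sum_congr ?_ (fun _ _ => rfl)
      ext p
      simp only [mem_filter, mem_product, mem_powerset]
      constructor
      · rintro ⟨_, h2⟩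
        exact ⟨⟨h2 ▸ subset_union_left, h2 ▸ subset_union_right⟩, h2⟩
      · rintro ⟨⟨h1, h1'⟩, h2⟩
        exact ⟨⟨h1.trans hC, h1'.trans hC⟩, h2⟩
    · intro p hp
      rw [mem_product, mem_powerset, mem_powerset] at hp
      rw [mem_powerset]
      exact union_subset hp.1 hp.2
  rw [dlt_of_sum (c := fun C => ∑ p ∈ (C.powerset ×ˢ C.powerset).filter (fun p => p.1 ∪ p.2 = C),
    dlt f p.1 * dlt g p.2) X h]
  refine sum_eq_zero (fun p hp => ?_)
  rw [mem_filter] at hp
  have h1 : X.card ≤ p.1.card + p.2.card := by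
    rw [← hp.2]; exact card_union_le _ _
  rcases Nat.lt_or_ge k p.1.card with h2 | h2
  · rw [hf _ h2, zero_mul]
  · rw [hg p.2 (by omega), mul_zero]

omit [DecidableEq α] in
theorem dlt_sub (f g : Finset α → ℝ) (X : Finset α) :
    dlt (fun Y => f Y - g Y) X = dlt f X - dlt g X := by
  unfold dlt
  rw [← sum_sub_distrib]
  refine sum_congr rfl (fun Y _ => by ring)

omit [DecidableEq α] in
theorem dlt_smul (a : ℝ) (f : Finset α → ℝ) (X : Finset α) :
    dlt (fun Y => a * f Y) X = a * dlt f X := by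
  unfold dlt
  rw [mul_sum]
  refine sum_congr rfl (fun Y _ => by ring)

omit [DecidableEq α] in
theorem dlt_sum {ι : Type*} (s : Finset ι) (f : ι → Finset α → ℝ) (X : Finset α) :
    dlt (fun Y => ∑ i ∈ s, f i Y) X = ∑ i ∈ s, dlt (f i) X := by
  unfold dlt
  rw [sum_comm]
  refine sum_congr rfl (fun Y _ => by rw [mul_sum])

end Moebius

theorem ell_eq (z : ℕ → ℝ) (n : ℕ) :
    ell z n = n * z n - ∑ j ∈ range n, ell z j * z (n - j) := by
  rw [ell, Finset.sum_range]

/-- the power series identity behind `ell` -/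
theorem ell_mul (z : ℕ → ℝ) (h0 : z 0 = 1) :
    PowerSeries.mk (ell z) * PowerSeries.mk z = PowerSeries.mk (fun n => (n : ℝ) * z n) := by
  ext n
  rw [PowerSeries.coeff_mul, PowerSeries.coeff_mk]
  rw [Finset.Nat.sum_antidiagonal_eq_sum_range_succ
    (fun i j => (PowerSeries.coeff i) (PowerSeries.mk (ell z)) *
      (PowerSeries.coeff j) (PowerSeries.mk z)) n]
  simp only [PowerSeries.coeff_mk]
  rw [sum_range_succ, Nat.sub_self, h0, mul_one, ell_eq z n]
  ring

theorem ell_conv {z z1 z2 : ℕ → ℝ} (h1 : z1 0 = 1) (h2 : z2 0 = 1)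
    (h : ∀ k, z k = ∑ p ∈ antidiagonal k, z1 p.1 * z2 p.2) (n : ℕ) :
    ell z n = ell z1 n + ell z2 n := by
  have h0 : z 0 = 1 := by
    rw [h 0]; simp [h1, h2]
  have hz : PowerSeries.mk z = PowerSeries.mk z1 * PowerSeries.mk z2 := by
    ext k
    rw [PowerSeries.coeff_mul, PowerSeries.coeff_mk, h k]
    simp only [PowerSeries.coeff_mk]
  have hd : PowerSeries.mk (fun n => (n : ℝ) * z n) =
      PowerSeries.mk (fun n => (n : ℝ) * z1 n) * PowerSeries.mk z2 +
        PowerSeries.mk z1 * PowerSeries.mk (fun n => (n : ℝ) * z2 n) := by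
    ext k
    rw [map_add, PowerSeries.coeff_mul, PowerSeries.coeff_mul, PowerSeries.coeff_mk, h k,
      ← sum_add_distrib, mul_sum]
    refine sum_congr rfl (fun p hp => ?_)
    simp only [PowerSeries.coeff_mk]
    rw [Finset.HasAntidiagonal.mem_antidiagonal] at hp
    rw [← hp]
    push_cast
    ring
  have key : (PowerSeries.mk (ell z) - (PowerSeries.mk (ell z1) + PowerSeries.mk (ell z2))) *
      PowerSeries.mk z = 0 := by
    rw [sub_mul, ell_mul z h0, hd, ← ell_mul z1 h1, ← ell_mul z2 h2, hz]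
    ring
  have hne : PowerSeries.mk z ≠ 0 := by
    intro hc
    have := congrArg (PowerSeries.coeff 0) hc
    rw [PowerSeries.coeff_mk, map_zero, h0] at this
    exact one_ne_zero this
  rcases mul_eq_zero.mp key with hk | hk
  · have := congrArg (PowerSeries.coeff n) hk
    simp only [map_sub, map_add, PowerSeries.coeff_mk, map_zero] at this
    linarith
  · exact absurd hk hne

theorem ell_ord {α : Type*} [DecidableEq α] {z : Finset α → ℕ → ℝ}
    (hdeg : ∀ k, Ord (fun Y => z Y k) k) (n : ℕ) : Ord (fun Y => ell (z Y) n) n := by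
  induction n using Nat.strong_induction_on with
  | _ n ih =>
    intro X hX
    have h1 : (fun Y => ell (z Y) n) =
        fun Y => (n : ℝ) * z Y n - ∑ j ∈ range n, ell (z Y) j * z Y (n - j) := by
      funext Y
      exact ell_eq (z Y) n
    rw [h1, dlt_sub, dlt_smul, dlt_sum, hdeg n X hX, mul_zero, zero_sub, neg_eq_zero]
    refine sum_eq_zero (fun j hj => ?_)
    rw [mem_range] at hj
    have := (ih j hj).mul (hdeg (n - j)) X (by omega)
    exact this

theorem cluster {α : Type*} [DecidableEq α] {adj : α → α → Prop} (hsymm : ∀ a b, adj a b → adj b a)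
    {z : Finset α → ℕ → ℝ} (hz0 : ∀ Y, z Y 0 = 1)
    (hmul : ∀ Y Y' : Finset α, Disjoint Y Y' → (∀ a ∈ Y, ∀ b ∈ Y', ¬ adj a b) → ∀ k,
      z (Y ∪ Y') k = ∑ p ∈ antidiagonal k, z Y p.1 * z Y' p.2)
    (hdeg : ∀ (X : Finset α) (k : ℕ), k < X.card →
      ∑ Y ∈ X.powerset, (-1 : ℝ) ^ (X.card - Y.card) * z Y k = 0)
    (L : Finset α) {n : ℕ} (hn : 1 ≤ n) (F : Finset (Finset α)) (hFL : ∀ X ∈ F, X ⊆ L)
    (hF : ∀ X, X ⊆ L → X.Nonempty → X.card ≤ n → Conn adj X → X ∈ F) :
    ∑ X ∈ F, ∑ Y ∈ X.powerset, (-1 : ℝ) ^ (X.card - Y.card) * ell (z Y) n = ell (z L) n := by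
  have _ := hsymm
  have _ := hn
  have hadd : ∀ Y Y' : Finset α, Disjoint Y Y' → (∀ a ∈ Y, ∀ b ∈ Y', ¬ adj a b) → ∀ m,
      ell (z (Y ∪ Y')) m = ell (z Y) m + ell (z Y') m := fun Y Y' h1 h2 m =>
    ell_conv (hz0 _) (hz0 _) (hmul Y Y' h1 h2) m
  have hord : Ord (fun Y => ell (z Y) n) n := ell_ord (fun k X hX => hdeg X k hX) n
  have hemp : ell (z ∅) n = 0 := by
    have := hadd ∅ ∅ (disjoint_empty_left _) (by simp) n
    rw [empty_union] at this
    linarith
  -- the alternating sum vanishes on disconnected sets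
  have hdis : ∀ X : Finset α, ¬ Conn adj X → dlt (fun Y => ell (z Y) n) X = 0 := by
    intro X hX
    unfold Conn at hX
    push Not at hX
    obtain ⟨A, hAX, hAne, hAX', hA⟩ := hX
    have hBne : (X \ A).Nonempty := by
      rw [sdiff_nonempty]
      intro h
      exact hAX' (Subset.antisymm hAX h)
    -- coefficients of the sum representation
    have hrep : ∀ Y, Y ⊆ X → ell (z Y) n = ∑ C ∈ Y.powerset,
        ((if C ⊆ A then dlt (fun Y => ell (z Y) n) C else 0) +
          (if C ⊆ X \ A then dlt (fun Y => ell (z Y) n) C else 0)) := by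
      intro Y hY
      have e1 : Y = (Y ∩ A) ∪ (Y ∩ (X \ A)) := by
        ext a
        simp only [mem_union, mem_inter, mem_sdiff]
        constructor
        · intro h
          by_cases haA : a ∈ A
          · exact Or.inl ⟨h, haA⟩
          · exact Or.inr ⟨h, hY h, haA⟩
        · rintro (h | h)
          · exact h.1
          · exact h.1
      have e2 : Disjoint (Y ∩ A) (Y ∩ (X \ A)) := by
        rw [Finset.disjoint_left]
        intro a h1 h2
        rw [mem_inter] at h1 h2
        exact (mem_sdiff.mp h2.2).2 h1.2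
      have e3 := hadd (Y ∩ A) (Y ∩ (X \ A)) e2 (by
        intro a ha b hb
        exact hA a (mem_inter.mp ha).2 b (mem_inter.mp hb).2) n
      rw [← e1] at e3
      rw [e3, sum_add_distrib, ← sum_filter, ← sum_filter]
      congr 1
      · rw [← sum_dlt (fun Y => ell (z Y) n) (Y ∩ A)]
        refine sum_congr ?_ (fun _ _ => rfl)
        ext C
        simp only [mem_powerset, mem_filter, subset_inter_iff]
      · rw [← sum_dlt (fun Y => ell (z Y) n) (Y ∩ (X \ A))]
        refine sum_congr ?_ (fun _ _ => rfl)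
        ext C
        simp only [mem_powerset, mem_filter, subset_inter_iff]
    rw [dlt_of_sum X hrep, if_neg, if_neg, add_zero]
    · intro h
      obtain ⟨a, ha⟩ := hAne
      exact (mem_sdiff.mp (h (hAX ha))).2 ha
    · intro h
      obtain ⟨b, hb⟩ := hBne
      exact (mem_sdiff.mp hb).2 (h (mem_sdiff.mp hb).1)
  have hzero : ∀ X, X ⊆ L → X ∉ F → dlt (fun Y => ell (z Y) n) X = 0 := by
    intro X hXL hXF
    rcases X.eq_empty_or_nonempty with h | h
    · subst h
      simp [dlt, hemp]
    · by_cases hc : Conn adj X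
      · by_cases hcard : X.card ≤ n
        · exact absurd (hF X hXL h hcard hc) hXF
        · exact hord X (by omega)
      · exact hdis X hc
  have hFsub : F ⊆ L.powerset := fun X hX => mem_powerset.mpr (hFL X hX)
  have hsum : ∑ X ∈ F, dlt (fun Y => ell (z Y) n) X =
      ∑ X ∈ L.powerset, dlt (fun Y => ell (z Y) n) X :=
    sum_subset hFsub (fun X hX hXF => hzero X (mem_powerset.mp hX) hXF)
  have hfin := sum_dlt (fun Y => ell (z Y) n) L
  rw [← hsum] at hfin
  exact hfin

end Pool.Agent.Lib.P8e91ed
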