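import Pool.Agent.Lib.P8e91ed.CodesC

/-!
Module `Codes`: the integer `zhat` is a scaled sparse quadrature approximation.
-/

set_option autoImplicit false

open Finset

noncomputable section

namespace Pool.Agent.Lib.P8e91ed

namespace Codes

theorem fact_split {c m : ℕ} (h : c ≤ m) :
    (∏ s ∈ range m, if c ≤ s then s + 1 else 1) * c.factorial = m.factorial := by
  obtain ⟨r, rfl⟩ := Nat.exists_eq_add_of_le h
  clear h
  induction r with
  | zero =>
    rw [Finset.prod_congr rfl (g := fun _ => 1)]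
    · simp
    · intro s hs
      rw [Finset.mem_range] at hs
      rw [if_neg (by omega)]
  | succ r ih =>
    rw [← add_assoc, Finset.prod_range_succ, if_pos (by omega), Nat.factorial_succ, ← ih]
    ring

theorem mult_eq (I : Inst) {e j k : ℕ} (hk : k ≤ I.m) (hlt : ∀ i < k, I.pf e k i ∈ I.times j) :
    (I.mult e k : ℝ) = (I.m.factorial : ℝ) ^ (I.T + 1) *
      ∏ t ∈ I.times j, 1 /
        (((univ.filter fun i : Fin k => I.pf e k i = t).card.factorial : ℕ) : ℝ) := by
  classical
  have hcard : ∀ t, ((range k).filter fun i => I.pf e k i = t).card =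
      (univ.filter fun i : Fin k => I.pf e k i = t).card := by
    intro t
    rw [← Finset.card_image_of_injective (univ.filter fun i : Fin k => I.pf e k i = t)
      Fin.val_injective]
    congr 1
    ext q
    simp only [Finset.mem_filter, Finset.mem_range, Finset.mem_image, Finset.mem_univ, true_and]
    constructor
    · rintro ⟨h1, h2⟩
      exact ⟨⟨q, h1⟩, h2, rfl⟩
    · rintro ⟨i, h1, rfl⟩
      exact ⟨i.2, h1⟩
  have h1 : ∀ t, ((∏ s ∈ range I.m,
      if ((range k).filter fun i => I.pf e k i = t).card ≤ s then s + 1 else 1 : ℕ) : ℝ) =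
      (I.m.factorial : ℝ) *
        (1 / (((univ.filter fun i : Fin k => I.pf e k i = t).card.factorial : ℕ) : ℝ)) := by
    intro t
    rw [hcard t]
    have h2 : (univ.filter fun i : Fin k => I.pf e k i = t).card ≤ I.m := by
      refine le_trans (Finset.card_le_univ _) ?_
      rw [Fintype.card_fin]
      exact hk
    have h3 := fact_split h2
    have h4 : ((univ.filter fun i : Fin k => I.pf e k i = t).card.factorial : ℝ) ≠ 0 := by
      exact_mod_cast Nat.factorial_ne_zero _
    rw [mul_one_div, eq_div_iff h4]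
    exact_mod_cast h3
  unfold Inst.mult
  rw [Nat.cast_prod, Finset.prod_congr rfl (fun t _ => h1 t), Finset.prod_mul_distrib,
    Finset.prod_const, Finset.card_range]
  congr 1
  symm
  apply Finset.prod_subset
  · intro t ht
    exact Finset.mem_range.mpr (mem_times.mp ht).1
  · intro t _ ht
    have : (univ.filter fun i : Fin k => I.pf e k i = t) = ∅ := by
      rw [Finset.filter_eq_empty_iff]
      intro i _ h
      exact ht (h ▸ hlt i i.2)
    rw [this]
    simp

theorem prod_restrict {m k : ℕ} (hk : k ≤ m) (P : ℝ) (a : ℕ → ℕ → ℝ) :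
    ∏ i ∈ range m, ∏ i' ∈ range m, (if i < i' ∧ i' < k then P * a i i' else P) =
      P ^ (m * m) * ∏ i : Fin k, ∏ i' : Fin k, if i < i' then a i i' else 1 := by
  have h1 : ∀ i i' : ℕ, (if i < i' ∧ i' < k then P * a i i' else P) =
      P * (if i < i' ∧ i' < k then a i i' else 1) := by
    intro i i'
    split_ifs <;> simp
  simp only [h1]
  simp only [Finset.prod_mul_distrib, Finset.prod_const, Finset.card_range]
  rw [← pow_mul]
  congr 1
  rw [← Fin.prod_univ_eq_prod_range (fun i => ∏ i' ∈ range m, if i < i' ∧ i' < k then a i i' else 1) m]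
  rw [Fin.prod_univ_eq_prod_range (fun i => ∏ i' ∈ range m, if i < i' ∧ i' < k then a i i' else 1) m]
  rw [← Finset.prod_subset (Finset.range_subset_range.mpr hk)
    (f := fun i => ∏ i' ∈ range m, if i < i' ∧ i' < k then a i i' else 1)]
  · rw [Finset.prod_range]
    refine Finset.prod_congr rfl ?_
    intro i _
    rw [← Finset.prod_subset (Finset.range_subset_range.mpr hk)
      (f := fun i' => if (i : ℕ) < i' ∧ i' < k then a i i' else 1)]
    · rw [Finset.prod_range]
      refine Finset.prod_congr rfl ?_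
      intro i' _
      have h2 : ((i : ℕ) < i' ∧ (i' : ℕ) < k) ↔ i < i' := by
        constructor
        · rintro ⟨h, _⟩
          exact h
        · intro h
          exact ⟨h, i'.2⟩
      simp only [h2]
    · intro i' _ h
      rw [Finset.mem_range] at h
      rw [if_neg (by omega)]
  · intro i _ h
    rw [Finset.mem_range] at h
    apply Finset.prod_eq_one
    intro i' _
    rw [if_neg (by omega)]

theorem qh_eq (I : Inst) (x e v ε u k i i' : ℕ) :
    (I.qh x e v ε u k i i' : ℝ) = 2 ^ I.p *
      I.Qt (fun t => (2 ^ I.B * I.cel x (I.pf e k i) t + (I.gx v ε u k i t : ℤ)) -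
        (2 ^ I.B * I.cel x (I.pf e k i') t + (I.gx v ε u k i' t : ℤ))) := by
  classical
  have hD : ∀ t : Fin I.d, (2 ^ I.B * I.cel x (I.pf e k i) t + (I.gx v ε u k i t : ℤ)) -
        (2 ^ I.B * I.cel x (I.pf e k i') t + (I.gx v ε u k i' t : ℤ)) =
      (I.UU x e v ε u k i i' t : ℤ) - (I.UU x e v ε u k i' i t : ℤ) := by
    intro t
    unfold Inst.UU Inst.cel
    push_cast
    ring
  have hcond : (∀ c ∈ range I.d, I.UU x e v ε u k i' i c ≤ I.UU x e v ε u k i i' c + I.H ∧
      I.UU x e v ε u k i i' c ≤ I.UU x e v ε u k i' i c + I.H) ↔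
      ∀ t : Fin I.d, |(I.UU x e v ε u k i i' t : ℤ) - (I.UU x e v ε u k i' i t : ℤ)| ≤ (I.H : ℤ) := by
    constructor
    · intro h t
      have := h t (Finset.mem_range.mpr t.2)
      rw [abs_le]
      constructor <;> omega
    · intro h c hc
      have := h ⟨c, Finset.mem_range.mp hc⟩
      rw [abs_le] at this
      simp only at this
      constructor <;> omega
  unfold Inst.qh Inst.Qt
  simp only [hD]
  by_cases h : ∀ t : Fin I.d, |(I.UU x e v ε u k i i' t : ℤ) - (I.UU x e v ε u k i' i t : ℤ)| ≤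
      (I.H : ℤ)
  · rw [if_pos (hcond.mpr h), if_pos h]
    have h2 : (∑ c ∈ range I.d, (I.UU x e v ε u k i i' c + I.H - I.UU x e v ε u k i' i c) *
      (2 * I.H + 1) ^ c) = ∑ c : Fin I.d,
        ((I.UU x e v ε u k i i' c : ℤ) - (I.UU x e v ε u k i' i c : ℤ) + I.H).toNat *
          (2 * I.H + 1) ^ (c : ℕ) := by
      rw [Finset.sum_range]
      refine Finset.sum_congr rfl ?_
      intro c _
      congr 1
      omega
    rw [h2]
    have h3 : (2 : ℝ) ^ I.p ≠ 0 := by positivity
    field_simp
  · rw [if_neg (fun h' => h (hcond.mp h')), if_neg h]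
    push_cast
    ring

/-- the sum over the codes of the positions inside the cells -/
theorem sum_u (I : Inst) (x e v ε : ℕ) {k : ℕ} (hk : k ≤ I.m) (hv : cnt v (I.B + k) = k) :
    ∑ u ∈ range (2 ^ (I.d * I.B)), ∏ i ∈ range I.m, ∏ i' ∈ range I.m,
        (if i < i' ∧ i' < k then (I.qh x e v ε u k i i' : ℝ) else 2 ^ I.p) =
      ((2 : ℝ) ^ (I.d * I.B) * ((2 : ℝ) ^ I.p) ^ (I.m * I.m)) *
        avgB I.Qt I.B (fun i : Fin k => I.cel x (I.pf e k i))
          (fun i : Fin k => I.lev v k i - if ε.testBit i = true then 1 else 0) := by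
  classical
  set G : ((i : Fin k) → Fin I.d → ℕ) → ℝ := fun h =>
    ∏ i : Fin k, ∏ i' : Fin k, if i < i' then
      I.Qt (fun t => (2 ^ I.B * I.cel x (I.pf e k i) t + (h i t : ℤ)) -
        (2 ^ I.B * I.cel x (I.pf e k i') t + (h i' t : ℤ))) else 1 with hG
  have h1 : ∀ u, ∏ i ∈ range I.m, ∏ i' ∈ range I.m,
        (if i < i' ∧ i' < k then (I.qh x e v ε u k i i' : ℝ) else 2 ^ I.p) =
      ((2 : ℝ) ^ I.p) ^ (I.m * I.m) * G (fun i c => I.gx v ε u k i c) := by
    intro u
    have := prod_restrict hk ((2 : ℝ) ^ I.p) (fun i i' =>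
      I.Qt (fun t => (2 ^ I.B * I.cel x (I.pf e k i) t + (I.gx v ε u k i t : ℤ)) -
        (2 ^ I.B * I.cel x (I.pf e k i') t + (I.gx v ε u k i' t : ℤ))))
    rw [← this]
    refine Finset.prod_congr rfl fun i _ => Finset.prod_congr rfl fun i' _ => ?_
    split_ifs
    · rw [qh_eq]
    · rfl
  have h2 := sum_grid (d := I.d) (B := I.B) (fun i : Fin k => I.lev v k i)
    (fun i : Fin k => I.lev v k i - if ε.testBit i = true then 1 else 0)
    (fun i : Fin k => I.off v k i) (fun i => Nat.sub_le _ _)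
    (by
      intro i i' hii
      have h3 : (i : ℕ) < i' := hii
      rw [← (off_succ I hv i.2).1, off_eq I hv _ i.2, off_eq I hv _ i'.2.le]
      exact Finset.sum_le_sum_of_subset (Finset.range_subset_range.mpr h3))
    (by
      intro i
      rw [← (off_succ I hv i.2).1, off_eq I hv _ i.2]
      exact le_trans (Finset.sum_le_sum_of_subset (Finset.range_subset_range.mpr i.2))
        (sum_lev_le I hv)) G
  rw [Finset.sum_congr rfl (fun u _ => h1 u), ← Finset.mul_sum]
  have h3 : ∑ u ∈ range (2 ^ (I.d * I.B)), G (fun i c => I.gx v ε u k i c) =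
      ∑ u ∈ range (2 ^ (I.d * I.B)), G (fun i c => ∑ s ∈ range (I.lev v k i -
        if ε.testBit i = true then 1 else 0),
        if u.testBit ((I.off v k i + s) * I.d + c) = true then 2 ^ (I.B - 1 - s) else 0) := rfl
  rw [h3, h2]
  unfold avgB
  rw [hG]
  push_cast
  ring

end Codes

open Codes in
theorem zhat_eq (I : Inst) (x j : ℕ) {k : ℕ} (hk : k ≤ I.m) :
    (I.zhat x j k : ℝ) = (I.DD : ℝ) * ztil I.Qt I.B (I.times j) (I.cel x) k := by
  classical
  set K : ℝ := (2 : ℝ) ^ (I.d * I.B) * ((2 : ℝ) ^ I.p) ^ (I.m * I.m) with hK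
  have hz : (I.zhat x j k : ℝ) = ∑ e ∈ I.eCodes j k, (I.mult e k : ℝ) *
      ∑ v ∈ I.vCodes k, ∑ ε ∈ I.eps v k, (-1 : ℝ) ^ cnt ε k *
        ∑ u ∈ range (2 ^ (I.d * I.B)), ∏ i ∈ range I.m, ∏ i' ∈ range I.m,
          (if i < i' ∧ i' < k then (I.qh x e v ε u k i i' : ℝ) else 2 ^ I.p) := by
    unfold Inst.zhat
    push_cast
    refine Finset.sum_congr rfl fun e _ => ?_
    rw [Finset.mul_sum]
    refine Finset.sum_congr rfl fun v _ => ?_
    rw [Finset.mul_sum]
    refine Finset.sum_congr rfl fun ε _ => ?_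
    ring
  rw [hz]
  have key : ∀ e ∈ I.eCodes j k, (I.mult e k : ℝ) *
      ∑ v ∈ I.vCodes k, ∑ ε ∈ I.eps v k, (-1 : ℝ) ^ cnt ε k *
        ∑ u ∈ range (2 ^ (I.d * I.B)), ∏ i ∈ range I.m, ∏ i' ∈ range I.m,
          (if i < i' ∧ i' < k then (I.qh x e v ε u k i i' : ℝ) else 2 ^ I.p) =
      (fun f : Fin k → ℕ => ((I.m.factorial : ℝ) ^ (I.T + 1) *
        ∏ t ∈ I.times j, 1 / (((univ.filter fun i => f i = t).card.factorial : ℕ) : ℝ)) *
          (K * smol I.Qt I.B (fun i => I.cel x (f i)))) (fun i : Fin k => I.pf e k i) := by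
    intro e he
    have he' : ∀ i < k, I.pf e k i ∈ I.times j := by
      unfold Inst.eCodes at he
      rw [Finset.mem_filter, Finset.mem_range] at he
      intro i hi
      rw [mem_times]
      refine ⟨?_, he.2.2 i (Finset.mem_range.mpr hi)⟩
      have := nb_add_le rfl he.2.1 hi
      unfold Inst.pf
      omega
    simp only
    rw [mult_eq I hk he']
    congr 1
    set c : Fin k → Fin I.d → ℤ := fun i => I.cel x (I.pf e k i) with hc
    have hv : ∀ v ∈ I.vCodes k, ∑ ε ∈ I.eps v k, (-1 : ℝ) ^ cnt ε k *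
        ∑ u ∈ range (2 ^ (I.d * I.B)), ∏ i ∈ range I.m, ∏ i' ∈ range I.m,
          (if i < i' ∧ i' < k then (I.qh x e v ε u k i i' : ℝ) else 2 ^ I.p) =
        ∑ ε ∈ I.eps v k, (-1 : ℝ) ^ cnt ε k *
          (fun e' : Fin k → Bool => K * avgB I.Qt I.B c
            (fun i : Fin k => I.lev v k i - if e' i = true then 1 else 0))
            (fun i : Fin k => ε.testBit i) := by
      intro v hv
      have hv' : cnt v (I.B + k) = k := by
        unfold Inst.vCodes at hv
        rw [Finset.mem_filter] at hv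
        exact hv.2
      refine Finset.sum_congr rfl fun ε _ => ?_
      rw [sum_u I x e v ε hk hv']
    rw [Finset.sum_congr rfl hv]
    have h4 : ∀ v ∈ I.vCodes k, ∑ ε ∈ I.eps v k, (-1 : ℝ) ^ cnt ε k *
          (fun e' : Fin k → Bool => K * avgB I.Qt I.B c
            (fun i : Fin k => I.lev v k i - if e' i = true then 1 else 0))
            (fun i : Fin k => ε.testBit i) =
        ∑ e' ∈ (univ : Finset (Fin k → Bool)).filter
          (fun e' => ∀ i : Fin k, e' i = true → 1 ≤ I.lev v k i),
        (-1 : ℝ) ^ (univ.filter fun i : Fin k => e' i = true).card *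
          (K * avgB I.Qt I.B c (fun i : Fin k => I.lev v k i - if e' i = true then 1 else 0)) :=
      fun v _ => sum_eps I v k (fun e' : Fin k → Bool => K * avgB I.Qt I.B c
            (fun i : Fin k => I.lev v k i - if e' i = true then 1 else 0))
    rw [Finset.sum_congr rfl h4]
    have h5 := sum_vCodes I k (fun v b => ∑ e' ∈ (univ : Finset (Fin k → Bool)).filter
        (fun e' => ∀ i : Fin k, e' i = true → 1 ≤ b i),
        (-1 : ℝ) ^ (univ.filter fun i : Fin k => e' i = true).card *
          (K * avgB I.Qt I.B c (fun i : Fin k => b i - if e' i = true then 1 else 0)))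
      (fun b => ∑ e' ∈ (univ : Finset (Fin k → Bool)).filter
        (fun e' => ∀ i : Fin k, e' i = true → 1 ≤ b i),
        (-1 : ℝ) ^ (univ.filter fun i : Fin k => e' i = true).card *
          (K * avgB I.Qt I.B c (fun i : Fin k => b i - if e' i = true then 1 else 0)))
      (fun _ _ => rfl)
    simp only at h5
    rw [h5]
    unfold smol
    rw [Finset.mul_sum]
    refine Finset.sum_congr rfl fun b _ => ?_
    rw [Finset.mul_sum]
    refine Finset.sum_congr rfl fun e' _ => ?_
    ring
  rw [Finset.sum_congr rfl key]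
  refine (sum_eCodes I j k (fun f : Fin k → ℕ => ((I.m.factorial : ℝ) ^ (I.T + 1) *
        ∏ t ∈ I.times j, 1 / (((univ.filter fun i => f i = t).card.factorial : ℕ) : ℝ)) *
          (K * smol I.Qt I.B (fun i => I.cel x (f i))))).trans ?_
  unfold ztil Inst.DD
  rw [Finset.mul_sum]
  refine Finset.sum_congr rfl fun f _ => ?_
  rw [hK]
  push_cast
  ring

end Pool.Agent.Lib.P8e91ed
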