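import Pool.Agent.Lib.P8e91ed.Algo

/-!
Bit codes of strictly increasing sequences, for the module `Codes`.
-/

set_option autoImplicit false

open Finset

noncomputable section

namespace Pool.Agent.Lib.P8e91ed

namespace Codes

theorem cnt_zero (e : ℕ) : cnt e 0 = 0 := by simp [cnt]

theorem cnt_succ (e p : ℕ) :
    cnt e (p + 1) = cnt e p + if e.testBit p = true then 1 else 0 := by
  unfold cnt
  rw [Finset.range_add_one, Finset.filter_insert]
  split_ifs with h
  · rw [Finset.card_insert_of_notMem (by simp)]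
  · rfl

theorem cnt_mono (e : ℕ) : Monotone (cnt e) :=
  monotone_nat_of_le_succ (fun p => by rw [cnt_succ]; omega)

theorem cnt_lt {e p q : ℕ} (h : p < q) (hp : e.testBit p = true) : cnt e p < cnt e q := by
  have := cnt_mono e (show p + 1 ≤ q by omega)
  rw [cnt_succ, if_pos hp] at this
  omega

theorem exists_pos {e i : ℕ} :
    ∀ {L : ℕ}, i < cnt e L → ∃ p < L, e.testBit p = true ∧ cnt e p = i
  | 0, h => by simp [cnt] at h
  | L + 1, h => by
    rw [cnt_succ] at h
    by_cases h1 : i < cnt e L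
    · obtain ⟨p, hp, h2⟩ := exists_pos h1
      exact ⟨p, by omega, h2⟩
    · split_ifs at h with h2
      · exact ⟨L, by omega, h2, by omega⟩
      · omega

theorem pos_unique {e p q : ℕ} (hp : e.testBit p = true) (hq : e.testBit q = true)
    (h : cnt e p = cnt e q) : p = q := by
  rcases lt_trichotomy p q with h1 | h1 | h1
  · have := cnt_lt h1 hp
    omega
  · exact h1
  · have := cnt_lt h1 hq
    omega

theorem nb_eq {e i L p : ℕ} (hp : p < L) (ht : e.testBit p = true) (hc : cnt e p = i) :
    nb e i L = p := by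
  unfold nb
  rw [Finset.sum_eq_single p]
  · rw [if_pos ⟨ht, hc⟩]
  · intro q _ hne
    rw [if_neg]
    rintro ⟨h1, h2⟩
    exact hne (pos_unique h1 ht (h2.trans hc.symm))
  · intro h
    exact absurd (Finset.mem_range.mpr hp) h

theorem nb_spec {e i L : ℕ} (h : i < cnt e L) :
    nb e i L < L ∧ e.testBit (nb e i L) = true ∧ cnt e (nb e i L) = i := by
  obtain ⟨p, hp, h1, h2⟩ := exists_pos h
  rw [nb_eq hp h1 h2]
  exact ⟨hp, h1, h2⟩

theorem nb_lt_nb {e i i' L : ℕ} (h : i < i') (h' : i' < cnt e L) : nb e i L < nb e i' L := by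
  obtain ⟨_, _, h3⟩ := nb_spec (lt_trans h h')
  obtain ⟨_, _, h6⟩ := nb_spec h'
  by_contra hcon
  have := cnt_mono e (not_lt.mp hcon)
  omega

/-- the code of the set of values of `P` -/
def code (L : ℕ) {k : ℕ} (P : Fin k → ℕ) : ℕ :=
  open Classical in
  Nat.ofBits (fun p : Fin L => decide (∃ i, P i = p))

theorem code_lt (L : ℕ) {k : ℕ} (P : Fin k → ℕ) : code L P < 2 ^ L := Nat.ofBits_lt_two_pow _

theorem testBit_code {L k : ℕ} {P : Fin k → ℕ} {p : ℕ} (hp : p < L) :
    (code L P).testBit p = true ↔ ∃ i, P i = p := by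
  classical
  unfold code
  rw [Nat.testBit_ofBits_lt _ _ hp]
  simp

theorem cnt_code {L k : ℕ} {P : Fin k → ℕ} (hP : StrictMono P) {p : ℕ} (hp : p ≤ L) :
    cnt (code L P) p = (univ.filter fun i => P i < p).card := by
  classical
  unfold cnt
  rw [← Finset.card_image_of_injective (univ.filter fun i => P i < p) hP.injective]
  congr 1
  ext q
  simp only [Finset.mem_filter, Finset.mem_range, Finset.mem_image, Finset.mem_univ, true_and]
  constructor
  · rintro ⟨h1, h2⟩
    obtain ⟨i, rfl⟩ := (testBit_code (by omega)).mp h2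
    exact ⟨i, h1, rfl⟩
  · rintro ⟨i, h1, rfl⟩
    exact ⟨h1, (testBit_code (by omega)).mpr ⟨i, rfl⟩⟩

theorem cnt_code_self {L k : ℕ} {P : Fin k → ℕ} (hP : StrictMono P) (hL : ∀ i, P i < L)
    (i : Fin k) : cnt (code L P) (P i) = i := by
  rw [cnt_code hP (hL i).le]
  have : (univ.filter fun i' => P i' < P i) = Finset.Iio i := by
    ext i'
    simp [hP.lt_iff_lt]
  rw [this, Fin.card_Iio]

theorem cnt_code_top {L k : ℕ} {P : Fin k → ℕ} (hP : StrictMono P) (hL : ∀ i, P i < L) :
    cnt (code L P) L = k := by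
  rw [cnt_code hP le_rfl]
  have : (univ.filter fun i' => P i' < L) = univ := by
    ext i'
    simp [hL i']
  rw [this, Finset.card_univ, Fintype.card_fin]

theorem nb_code {L k : ℕ} {P : Fin k → ℕ} (hP : StrictMono P) (hL : ∀ i, P i < L)
    (i : Fin k) : nb (code L P) i L = P i :=
  nb_eq (hL i) ((testBit_code (hL i)).mpr ⟨i, rfl⟩) (cnt_code_self hP hL i)

theorem code_nb {L k e : ℕ} (he : e < 2 ^ L) (hc : cnt e L = k) :
    code L (fun i : Fin k => nb e i L) = e := by
  apply Nat.eq_of_testBit_eq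
  intro p
  by_cases hp : p < L
  · have key : (code L (fun i : Fin k => nb e i L)).testBit p = true ↔ e.testBit p = true := by
      rw [testBit_code hp]
      constructor
      · rintro ⟨i, rfl⟩
        exact (nb_spec (by rw [hc]; exact i.2)).2.1
      · intro h
        have h1 : cnt e p < k := by
          have := cnt_lt hp h
          omega
        exact ⟨⟨cnt e p, h1⟩, nb_eq hp h rfl⟩
    cases h1 : (code L (fun i : Fin k => nb e i L)).testBit p <;> cases h2 : e.testBit p
    · rfl
    · exact absurd (key.mpr h2) (by rw [h1]; simp)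
    · exact absurd (key.mp h1) (by rw [h2]; simp)
    · rfl
  · rw [Nat.testBit_lt_two_pow (lt_of_lt_of_le (code_lt L _) (Nat.pow_le_pow_right (by norm_num) (not_lt.mp hp))),
      Nat.testBit_lt_two_pow (lt_of_lt_of_le he (Nat.pow_le_pow_right (by norm_num) (not_lt.mp hp)))]

end Codes

end Pool.Agent.Lib.P8e91ed
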