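import Pool.Agent.Lib.P8e91ed.CodesA

/-!
Bijections between codes and monotone functions, level vectors, flags; for the module `Codes`.
-/

set_option autoImplicit false

open Finset

noncomputable section

namespace Pool.Agent.Lib.P8e91ed

namespace Codes

theorem cnt_add_le (e p : ℕ) : ∀ r : ℕ, cnt e (p + r) ≤ cnt e p + r
  | 0 => by simp
  | r + 1 => by
    rw [← add_assoc, cnt_succ]
    have := cnt_add_le e p r
    split_ifs <;> omega

theorem cnt_le_self (e p : ℕ) : cnt e p ≤ p := by
  have := cnt_add_le e 0 p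
  rw [cnt_zero] at this
  simpa using this

theorem le_nb {e i L : ℕ} (h : i < cnt e L) : i ≤ nb e i L := by
  obtain ⟨_, _, h3⟩ := nb_spec h
  have := cnt_le_self e (nb e i L)
  omega

theorem nb_add_le {e i L T k : ℕ} (hL : L = T + k) (hc : cnt e L = k) (hi : i < k) :
    nb e i L ≤ T + i := by
  obtain ⟨h1, h2, h3⟩ := nb_spec (e := e) (i := i) (L := L) (by omega)
  obtain ⟨r, hr⟩ := Nat.exists_eq_add_of_lt h1
  have h4 := cnt_add_le e (nb e i L + 1) r
  rw [cnt_succ, if_pos h2, h3, show nb e i L + 1 + r = L by omega, hc] at h4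
  omega

theorem nb_diff {e i i' L : ℕ} (h : i ≤ i') (h' : i' < cnt e L) :
    nb e i L + (i' - i) ≤ nb e i' L := by
  obtain ⟨_, _, h3⟩ := nb_spec (lt_of_le_of_lt h h')
  obtain ⟨_, _, h6⟩ := nb_spec h'
  rcases Nat.lt_or_ge (nb e i' L) (nb e i L) with h7 | h7
  · have := cnt_mono e h7.le
    rcases Nat.lt_or_ge i i' with h8 | h8
    · omega
    · have : i = i' := by omega
      subst this
      simp
  · obtain ⟨r, hr⟩ := Nat.exists_eq_add_of_le h7
    have := cnt_add_le e (nb e i L) r
    rw [← hr, h3, h6] at this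
    omega

theorem mem_times {I : Inst} {j t : ℕ} : t ∈ I.times j ↔ t < I.T + 1 ∧ j.testBit t = true := by
  simp [Inst.times]

theorem sum_eCodes (I : Inst) (j k : ℕ) (G : (Fin k → ℕ) → ℝ) :
    ∑ e ∈ I.eCodes j k, G (fun i : Fin k => I.pf e k i) =
      ∑ f ∈ (Fintype.piFinset fun _ : Fin k => I.times j).filter Monotone, G f := by
  classical
  refine Finset.sum_nbij' (fun e => fun i : Fin k => I.pf e k i)
    (fun f => code (I.T + k) (fun i => f i + i)) ?_ ?_ ?_ ?_ ?_
  · intro e he
    unfold Inst.eCodes at he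
    rw [Finset.mem_filter, Finset.mem_range] at he
    obtain ⟨he1, he2, he3⟩ := he
    rw [Finset.mem_filter, Fintype.mem_piFinset]
    constructor
    · intro i
      rw [mem_times]
      refine ⟨?_, he3 i (Finset.mem_range.mpr i.2)⟩
      have := nb_add_le rfl he2 i.2
      unfold Inst.pf
      omega
    · intro i i' h
      have h1 := nb_diff (e := e) (L := I.T + k) (show (i : ℕ) ≤ i' from h) (by rw [he2]; exact i'.2)
      have h2 := le_nb (e := e) (L := I.T + k) (i := i) (by rw [he2]; exact i.2)
      have h3 := le_nb (e := e) (L := I.T + k) (i := i') (by rw [he2]; exact i'.2)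
      have h4 : (i : ℕ) ≤ i' := h
      unfold Inst.pf
      simp only
      omega
  · intro f hf
    rw [Finset.mem_filter, Fintype.mem_piFinset] at hf
    obtain ⟨hf1, hf2⟩ := hf
    have hP : StrictMono (fun i : Fin k => f i + (i : ℕ)) := by
      intro i i' h
      have h1 := hf2 h.le
      have h2 : (i : ℕ) < i' := h
      simp only
      omega
    have hL : ∀ i : Fin k, f i + (i : ℕ) < I.T + k := by
      intro i
      have := (mem_times.mp (hf1 i)).1
      have := i.2
      omega
    unfold Inst.eCodes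
    rw [Finset.mem_filter, Finset.mem_range]
    refine ⟨code_lt _ _, cnt_code_top hP hL, ?_⟩
    intro i hi
    have hi' := Finset.mem_range.mp hi
    have h1 : I.pf (code (I.T + k) fun i : Fin k => f i + (i : ℕ)) k i = f ⟨i, hi'⟩ := by
      unfold Inst.pf
      have := nb_code hP hL ⟨i, hi'⟩
      simp only at this
      rw [this]
      omega
    rw [h1]
    exact (mem_times.mp (hf1 _)).2
  · intro e he
    unfold Inst.eCodes at he
    rw [Finset.mem_filter, Finset.mem_range] at he
    obtain ⟨he1, he2, he3⟩ := he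
    have h1 : (fun i : Fin k => I.pf e k i + (i : ℕ)) = fun i : Fin k => nb e i (I.T + k) := by
      funext i
      unfold Inst.pf
      have := le_nb (e := e) (L := I.T + k) (i := i) (by rw [he2]; exact i.2)
      omega
    simp only
    rw [h1]
    exact code_nb he1 he2
  · intro f hf
    rw [Finset.mem_filter, Fintype.mem_piFinset] at hf
    obtain ⟨hf1, hf2⟩ := hf
    have hP : StrictMono (fun i : Fin k => f i + (i : ℕ)) := by
      intro i i' h
      have h1 := hf2 h.le
      have h2 : (i : ℕ) < i' := h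
      simp only
      omega
    have hL : ∀ i : Fin k, f i + (i : ℕ) < I.T + k := by
      intro i
      have := (mem_times.mp (hf1 i)).1
      have := i.2
      omega
    funext i
    simp only [Inst.pf]
    rw [nb_code hP hL i]
    omega
  · intro e _
    rfl

/-! Levels. -/

theorem off_succ (I : Inst) {v k : ℕ} (hv : cnt v (I.B + k) = k) {i : ℕ} (hi : i < k) :
    I.off v k (i + 1) = I.off v k i + I.lev v k i ∧ nb v i (I.B + k) = I.off v k (i + 1) + i := by
  have h1 := le_nb (e := v) (L := I.B + k) (i := i) (by omega)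
  unfold Inst.off Inst.lev
  rw [if_neg (by omega)]
  simp only [Nat.add_sub_cancel]
  rcases Nat.eq_zero_or_pos i with h0 | h0
  · subst h0
    simp
  · rw [if_neg (by omega), if_neg (by omega)]
    have h2 := nb_diff (e := v) (L := I.B + k) (show i - 1 ≤ i by omega) (by omega)
    have h3 := le_nb (e := v) (L := I.B + k) (i := i - 1) (by omega)
    omega

theorem off_zero (I : Inst) (v k : ℕ) : I.off v k 0 = 0 := by simp [Inst.off]

theorem off_eq (I : Inst) {v k : ℕ} (hv : cnt v (I.B + k) = k) :
    ∀ i ≤ k, I.off v k i = ∑ i' ∈ range i, I.lev v k i'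
  | 0, _ => by rw [off_zero]; simp
  | i + 1, h => by
    rw [(off_succ I hv (by omega)).1, off_eq I hv i (by omega), Finset.sum_range_succ]

theorem sum_lev_le (I : Inst) {v k : ℕ} (hv : cnt v (I.B + k) = k) :
    ∑ i' ∈ range k, I.lev v k i' ≤ I.B := by
  rw [← off_eq I hv k le_rfl]
  rcases Nat.eq_zero_or_pos k with h0 | h0
  · subst h0
    rw [off_zero]
    exact Nat.zero_le _
  · obtain ⟨i, rfl⟩ : ∃ i, k = i + 1 := ⟨k - 1, by omega⟩
    have h1 := (off_succ I hv (show i < i + 1 by omega)).2
    have h2 := nb_add_le (T := I.B) rfl hv (show i < i + 1 by omega)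
    omega

/-- positions coding a level vector -/
def posOf {k : ℕ} (b : Fin k → ℕ) (i : Fin k) : ℕ := ∑ i' ∈ Iic i, b i' + i

theorem posOf_strictMono {k : ℕ} (b : Fin k → ℕ) : StrictMono (posOf b) := by
  intro i i' h
  unfold posOf
  have h1 : ∑ x ∈ Iic i, b x ≤ ∑ x ∈ Iic i', b x :=
    Finset.sum_le_sum_of_subset (Finset.Iic_subset_Iic.mpr h.le)
  have h2 : (i : ℕ) < i' := h
  omega

theorem posOf_lt {k B : ℕ} {b : Fin k → ℕ} (hb : ∑ i, b i ≤ B) (i : Fin k) :
    posOf b i < B + k := by
  unfold posOf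
  have h1 : ∑ x ∈ Iic i, b x ≤ ∑ x, b x :=
    Finset.sum_le_sum_of_subset (Finset.subset_univ _)
  have := i.2
  omega

theorem lev_code (I : Inst) {k : ℕ} {b : Fin k → ℕ} (hb : ∑ i, b i ≤ I.B) (i : Fin k) :
    I.lev (code (I.B + k) (posOf b)) k i = b i := by
  have hP := posOf_strictMono b
  have hL := posOf_lt hb
  unfold Inst.lev
  rw [nb_code hP hL i]
  by_cases h0 : (i : ℕ) = 0
  · rw [if_pos h0]
    unfold posOf
    have : Iic i = {i} := by
      ext x
      simp only [Finset.mem_Iic, Finset.mem_singleton]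
      constructor
      · intro h
        apply Fin.ext
        have : (x : ℕ) ≤ i := h
        omega
      · rintro rfl
        exact le_rfl
    rw [this, Finset.sum_singleton]
    omega
  · rw [if_neg h0]
    have h1 : (i : ℕ) - 1 < k := by have := i.2; omega
    have h2 := nb_code hP hL ⟨(i : ℕ) - 1, h1⟩
    simp only at h2
    rw [h2]
    unfold posOf
    have h3 : Iic i = insert i (Iic (⟨(i : ℕ) - 1, h1⟩ : Fin k)) := by
      ext x
      simp only [Finset.mem_Iic, Finset.mem_insert]
      constructor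
      · intro h
        have h4 : (x : ℕ) ≤ i := h
        by_cases h5 : x = i
        · exact Or.inl h5
        · right
          have h6 : (x : ℕ) ≠ i := fun h => h5 (Fin.ext h)
          show (x : ℕ) ≤ (i : ℕ) - 1
          omega
      · rintro (rfl | h)
        · exact le_rfl
        · have h4 : (x : ℕ) ≤ (i : ℕ) - 1 := h
          show (x : ℕ) ≤ i
          omega
    rw [h3, Finset.sum_insert]
    · simp only
      omega
    · rw [Finset.mem_Iic]
      intro h
      have h4 : (i : ℕ) ≤ (i : ℕ) - 1 := h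
      omega

theorem sum_vCodes (I : Inst) (k : ℕ) (G : ℕ → (Fin k → ℕ) → ℝ) (G' : (Fin k → ℕ) → ℝ)
    (hG : ∀ v, cnt v (I.B + k) = k → G v (fun i => I.lev v k i) = G' (fun i => I.lev v k i)) :
    ∑ v ∈ I.vCodes k, G v (fun i : Fin k => I.lev v k i) =
      ∑ b ∈ (univ : Finset (Fin k → Fin (I.B + 1))).filter (fun b => ∑ i, (b i : ℕ) ≤ I.B),
        G' (fun i => (b i : ℕ)) := by
  classical
  have hmem : ∀ v, v ∈ I.vCodes k ↔ v < 2 ^ (I.B + k) ∧ cnt v (I.B + k) = k := by
    intro v
    unfold Inst.vCodes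
    rw [Finset.mem_filter, Finset.mem_range]
  have hsum : ∀ v, cnt v (I.B + k) = k → ∑ i : Fin k, I.lev v k i ≤ I.B := by
    intro v hv
    have := sum_lev_le I hv
    rwa [Finset.sum_range] at this
  have hle : ∀ v, cnt v (I.B + k) = k → ∀ i : Fin k, I.lev v k i < I.B + 1 := by
    intro v hv i
    have h1 := hsum v hv
    have h2 := Finset.single_le_sum (f := fun i : Fin k => I.lev v k i)
      (fun _ _ => Nat.zero_le _) (Finset.mem_univ i)
    omega
  refine Finset.sum_bij' (fun v hv => fun i : Fin k => ⟨I.lev v k i, hle v ((hmem v).mp hv).2 i⟩)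
    (fun b _ => code (I.B + k) (posOf fun i => (b i : ℕ))) ?_ ?_ ?_ ?_ ?_
  · intro v hv
    rw [Finset.mem_filter]
    exact ⟨Finset.mem_univ _, hsum v ((hmem v).mp hv).2⟩
  · intro b hb
    rw [Finset.mem_filter] at hb
    rw [hmem]
    exact ⟨code_lt _ _, cnt_code_top (posOf_strictMono _) (posOf_lt hb.2)⟩
  · intro v hv
    obtain ⟨h1, h2⟩ := (hmem v).mp hv
    have h3 : (posOf fun i : Fin k => I.lev v k i) = fun i : Fin k => nb v i (I.B + k) := by
      funext i
      unfold posOf
      have h4 := (off_succ I h2 i.2).2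
      rw [off_eq I h2 _ i.2] at h4
      rw [h4]
      congr 1
      have h5 : Iic i = (univ.filter fun x : Fin k => (x : ℕ) < i + 1) := by
        ext x
        simp only [Finset.mem_Iic, Finset.mem_filter, Finset.mem_univ, true_and]
        rw [Fin.le_def]
        omega
      rw [h5]
      symm
      refine Finset.sum_bij' (fun a ha => (⟨a, lt_of_lt_of_le (Finset.mem_range.mp ha) i.2⟩ : Fin k))
        (fun a _ => (a : ℕ)) ?_ ?_ ?_ ?_ ?_
      · intro a ha
        rw [Finset.mem_filter]
        exact ⟨Finset.mem_univ _, Finset.mem_range.mp ha⟩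
      · intro a ha
        rw [Finset.mem_filter] at ha
        exact Finset.mem_range.mpr ha.2
      · intro a _
        rfl
      · intro a _
        rfl
      · intro a _
        rfl
    rw [h3]
    exact code_nb h1 h2
  · intro b hb
    rw [Finset.mem_filter] at hb
    funext i
    apply Fin.ext
    exact lev_code I hb.2 i
  · intro v hv
    exact hG v ((hmem v).mp hv).2

/-! Flags. -/

theorem cnt_eq_card (ε k : ℕ) :
    cnt ε k = (univ.filter fun i : Fin k => ε.testBit i = true).card := by
  classical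
  unfold cnt
  rw [← Finset.card_image_of_injective (univ.filter fun i : Fin k => ε.testBit i = true)
    Fin.val_injective]
  congr 1
  ext q
  simp only [Finset.mem_filter, Finset.mem_range, Finset.mem_image, Finset.mem_univ, true_and]
  constructor
  · rintro ⟨h1, h2⟩
    exact ⟨⟨q, h1⟩, h2, rfl⟩
  · rintro ⟨i, h1, rfl⟩
    exact ⟨i.2, h1⟩

theorem sum_eps (I : Inst) (v k : ℕ) (G : (Fin k → Bool) → ℝ) :
    ∑ ε ∈ I.eps v k, (-1 : ℝ) ^ cnt ε k * G (fun i : Fin k => ε.testBit i) =
      ∑ e ∈ (univ : Finset (Fin k → Bool)).filter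
          (fun e => ∀ i : Fin k, e i = true → 1 ≤ I.lev v k i),
        (-1 : ℝ) ^ (univ.filter fun i : Fin k => e i = true).card * G e := by
  classical
  have hmem : ∀ ε, ε ∈ I.eps v k ↔ ε < 2 ^ k ∧
      ∀ i ∈ range k, ε.testBit i = true → 1 ≤ I.lev v k i := by
    intro v
    unfold Inst.eps
    rw [Finset.mem_filter, Finset.mem_range]
  refine Finset.sum_nbij' (fun ε => fun i : Fin k => ε.testBit i) (fun e => Nat.ofBits e)
    ?_ ?_ ?_ ?_ ?_
  · intro ε hε
    rw [Finset.mem_filter]
    exact ⟨Finset.mem_univ _, fun i => ((hmem ε).mp hε).2 i (Finset.mem_range.mpr i.2)⟩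
  · intro e he
    rw [Finset.mem_filter] at he
    rw [hmem]
    refine ⟨Nat.ofBits_lt_two_pow _, ?_⟩
    intro i hi h
    rw [Nat.testBit_ofBits_lt _ _ (Finset.mem_range.mp hi)] at h
    exact he.2 ⟨i, Finset.mem_range.mp hi⟩ h
  · intro ε hε
    apply Nat.eq_of_testBit_eq
    intro p
    by_cases hp : p < k
    · rw [Nat.testBit_ofBits_lt _ _ hp]
    · rw [Nat.testBit_ofBits_ge _ _ (not_lt.mp hp), Nat.testBit_lt_two_pow
        (lt_of_lt_of_le ((hmem ε).mp hε).1 (Nat.pow_le_pow_right (by norm_num) (not_lt.mp hp)))]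
  · intro e _
    funext i
    exact Nat.testBit_ofBits_lt _ _ i.2
  · intro ε _
    rw [cnt_eq_card]

end Codes

end Pool.Agent.Lib.P8e91ed
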