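import Pool.Agent.Lib.P8e91ed.CodesB

/-!
Averages over bit strings as averages over grids; for the module `Codes`.
-/

set_option autoImplicit false

open Finset

noncomputable section

namespace Pool.Agent.Lib.P8e91ed

namespace Codes

/-- averages of functions depending on some of the bits -/
theorem avg_pull {J K : Type} [Fintype J] [Fintype K] [DecidableEq J] [DecidableEq K] (ι : J → K)
    (hι : Function.Injective ι) (G : (J → Bool) → ℝ) :
    ∑ u : K → Bool, G (fun x => u (ι x)) =
      (2 : ℝ) ^ (Fintype.card K) * ((1 / 2) ^ (Fintype.card J) * ∑ w : J → Bool, G w) := by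
  classical
  have e1 := Equiv.ofInjective ι hι
  have hcard : Fintype.card K = Fintype.card J + Fintype.card {x // ¬ x ∈ Set.range ι} := by
    have h1 := Fintype.card_congr (Equiv.Set.sumCompl (Set.range ι))
    rw [Fintype.card_sum] at h1
    rw [← h1, Fintype.card_congr e1]
    rfl
  have step : ∑ u : K → Bool, G (fun x => u (ι x)) =
      ∑ p : ({x // x ∈ Set.range ι} → Bool) × ({x // ¬ x ∈ Set.range ι} → Bool),
        G (fun x => p.1 ⟨ι x, x, rfl⟩) := by
    refine Fintype.sum_equiv (Equiv.piEquivPiSubtypeProd (fun x => x ∈ Set.range ι)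
      (fun _ => Bool)) _ _ ?_
    intro u
    rfl
  rw [step, Fintype.sum_prod_type]
  simp only [Finset.sum_const, Finset.card_univ, nsmul_eq_mul]
  rw [← Finset.mul_sum]
  have h2 : ∑ i : {x // x ∈ Set.range ι} → Bool, G (fun x => i ⟨ι x, x, rfl⟩) =
      ∑ w : J → Bool, G w := by
    refine Fintype.sum_equiv (Equiv.arrowCongr (Equiv.ofInjective ι hι).symm (Equiv.refl Bool))
      _ _ ?_
    intro u
    congr 1
  rw [h2, hcard]
  have h3 : Fintype.card ({x // ¬ x ∈ Set.range ι} → Bool) =
      2 ^ Fintype.card {x // ¬ x ∈ Set.range ι} := by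
    simp
  rw [h3, pow_add]
  push_cast
  have h4 : (2 : ℝ) ^ (Fintype.card J) * (1 / 2) ^ (Fintype.card J) = 1 := by
    rw [← mul_pow]
    norm_num
  calc (2 : ℝ) ^ Fintype.card {x // ¬ x ∈ Set.range ι} * ∑ w, G w
      = (2 ^ (Fintype.card J) * (1 / 2) ^ (Fintype.card J)) *
        (2 : ℝ) ^ Fintype.card {x // ¬ x ∈ Set.range ι} * ∑ w, G w := by rw [h4, one_mul]
    _ = _ := by ring

/-- binary expansion, most significant bit first -/
def bigE (n : ℕ) : (Fin n → Bool) ≃ Fin (2 ^ n) :=
  (Equiv.arrowCongr Fin.revPerm finTwoEquiv.symm).trans finFunctionFinEquiv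

theorem bigE_val (n : ℕ) (w : Fin n → Bool) :
    (bigE n w : ℕ) = ∑ s : Fin n, if w s = true then 2 ^ (n - 1 - (s : ℕ)) else 0 := by
  unfold bigE
  rw [Equiv.trans_apply, finFunctionFinEquiv_apply]
  rw [← Equiv.sum_comp Fin.revPerm]
  refine Finset.sum_congr rfl ?_
  intro s _
  simp only [Equiv.arrowCongr_apply, Function.comp, Fin.revPerm_apply, Fin.revPerm_symm,
    Fin.rev_rev, Fin.val_rev]
  rw [show n - ((s : ℕ) + 1) = n - 1 - s by omega]
  cases w s
  · simp [finTwoEquiv]
  · simp [finTwoEquiv]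

/-- regrouping bits into grid points -/
def regroup {k d : ℕ} (b : Fin k → ℕ) (E : (n : ℕ) → (Fin n → Bool) ≃ Fin (2 ^ n)) :
    ((Σ i : Fin k, Fin (b i)) × Fin d → Bool) ≃ ((i : Fin k) → Fin d → Fin (2 ^ b i)) where
  toFun w := fun i c => E (b i) (fun s => w (⟨i, s⟩, c))
  invFun g := fun x => (E (b x.1.1)).symm (g x.1.1 x.2) x.1.2
  left_inv w := by
    funext ⟨⟨i, s⟩, c⟩
    simp
  right_inv g := by
    funext i c
    show (E (b i)) (fun s => (E (b i)).symm (g i c) s) = g i c
    exact (E (b i)).apply_symm_apply (g i c)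

theorem sum_regroup {k d : ℕ} (b : Fin k → ℕ) (G : ((i : Fin k) → Fin d → ℕ) → ℝ) :
    ∑ w : (Σ i : Fin k, Fin (b i)) × Fin d → Bool,
      G (fun i c => ∑ s : Fin (b i), if w (⟨i, s⟩, c) = true then 2 ^ (b i - 1 - (s : ℕ)) else 0) =
      ∑ g : (i : Fin k) → Fin d → Fin (2 ^ b i), G (fun i c => g i c) := by
  refine Fintype.sum_equiv (regroup b bigE) _ _ ?_
  intro w
  congr 1
  funext i c
  exact (bigE_val (b i) _).symm

/-- sums over numbers below `2 ^ n` as sums over bit strings -/
theorem sum_range_bits (n : ℕ) (G : (ℕ → Bool) → ℝ)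
    (hG : ∀ u v : ℕ → Bool, (∀ p < n, u p = v p) → G u = G v) :
    ∑ u ∈ range (2 ^ n), G (fun p => u.testBit p) =
      ∑ w : Fin n → Bool, G (fun p => if h : p < n then w ⟨p, h⟩ else false) := by
  refine Finset.sum_bij' (fun u _ => fun i : Fin n => u.testBit i) (fun w _ => Nat.ofBits w)
    ?_ ?_ ?_ ?_ ?_
  · intro u _
    exact Finset.mem_univ _
  · intro w _
    exact Finset.mem_range.mpr (Nat.ofBits_lt_two_pow _)
  · intro u hu
    apply Nat.eq_of_testBit_eq
    intro p
    by_cases hp : p < n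
    · rw [Nat.testBit_ofBits_lt _ _ hp]
    · rw [Nat.testBit_ofBits_ge _ _ (not_lt.mp hp), Nat.testBit_lt_two_pow
        (lt_of_lt_of_le (Finset.mem_range.mp hu)
          (Nat.pow_le_pow_right (by norm_num) (not_lt.mp hp)))]
  · intro w _
    funext i
    exact Nat.testBit_ofBits_lt _ _ i.2
  · intro u _
    apply hG
    intro p hp
    rw [dif_pos hp]

/-- The average over the codes `u` of a function of the grid coordinates. -/
theorem sum_grid {k d B : ℕ} (b b' o : Fin k → ℕ) (hb' : ∀ i, b' i ≤ b i)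
    (ho : ∀ i i' : Fin k, i < i' → o i + b i ≤ o i') (hB : ∀ i, o i + b i ≤ B)
    (G : ((i : Fin k) → Fin d → ℕ) → ℝ) :
    ∑ u ∈ range (2 ^ (d * B)),
      G (fun i c => ∑ s ∈ range (b' i),
        if u.testBit ((o i + s) * d + c) = true then 2 ^ (B - 1 - s) else 0) =
      (2 : ℝ) ^ (d * B) * ((∏ i, ((1 : ℝ) / 2 ^ (b' i)) ^ d) *
        ∑ g : (i : Fin k) → Fin d → Fin (2 ^ b' i), G (fun i c => 2 ^ (B - b' i) * (g i c : ℕ))) := by
  classical
  -- rewrite as a sum over bit strings
  have hpos : ∀ (i : Fin k) (s : ℕ) (c : Fin d), s < b' i → (o i + s) * d + c < d * B := by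
    intro i s c hs
    have h1 : o i + s + 1 ≤ B := by
      have := hB i
      have := hb' i
      omega
    have h2 : (o i + s) * d + c < (o i + s + 1) * d := by
      have h3 : (o i + s + 1) * d = (o i + s) * d + d := by ring
      have := c.2
      omega
    calc (o i + s) * d + c < (o i + s + 1) * d := h2
      _ ≤ B * d := Nat.mul_le_mul_right _ h1
      _ = d * B := Nat.mul_comm _ _
  have h1 := sum_range_bits (d * B) (fun u => G (fun i c => ∑ s ∈ range (b' i),
    if u ((o i + s) * d + c) = true then 2 ^ (B - 1 - s) else 0)) (by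
      intro u v huv
      congr 1
      funext i c
      refine Finset.sum_congr rfl ?_
      intro s hs
      rw [huv _ (hpos i s c (Finset.mem_range.mp hs))])
  rw [h1]
  -- the injection
  set ι : (Σ i : Fin k, Fin (b' i)) × Fin d → Fin (d * B) :=
    fun x => ⟨(o x.1.1 + x.1.2) * d + x.2, hpos x.1.1 x.1.2 x.2 x.1.2.2⟩ with hιdef
  have hι : Function.Injective ι := by
    rintro ⟨⟨i, s⟩, c⟩ ⟨⟨i', s'⟩, c'⟩ h
    simp only [hιdef, Fin.mk.injEq] at h
    have hd : 0 < d := lt_of_le_of_lt (Nat.zero_le _) c.2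
    have hc : (c : ℕ) = c' := by
      have h3 := congrArg (· % d) h
      simpa [Nat.mul_add_mod', Nat.mod_eq_of_lt c.2, Nat.mod_eq_of_lt c'.2] using h3
    have hs : o i + s = o i' + s' := by
      rw [hc] at h
      exact Nat.eq_of_mul_eq_mul_right hd (Nat.add_right_cancel h)
    have hi : i = i' := by
      rcases lt_trichotomy i i' with h5 | h5 | h5
      · exfalso
        have := ho i i' h5
        have := s.2
        have := hb' i
        omega
      · exact h5
      · exfalso
        have := ho i' i h5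
        have := s'.2
        have := hb' i'
        omega
    subst hi
    have hs2 : s = s' := Fin.ext (by omega)
    subst hs2
    have : c = c' := Fin.ext hc
    subst this
    rfl
  have h2 := avg_pull ι hι (fun w => G (fun i c => 2 ^ (B - b' i) *
    ∑ s : Fin (b' i), if w (⟨i, s⟩, c) = true then 2 ^ (b' i - 1 - (s : ℕ)) else 0))
  have h3 := sum_regroup (d := d) b' (fun g => G (fun i c => 2 ^ (B - b' i) * g i c))
  simp only at h3
  rw [h3] at h2
  have h4 : ∀ w : Fin (d * B) → Bool,
      G (fun i c => ∑ s ∈ range (b' i),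
        if (if h : (o i + s) * d + c < d * B then w ⟨(o i + s) * d + c, h⟩ else false) = true
          then 2 ^ (B - 1 - s) else 0) =
      G (fun i c => 2 ^ (B - b' i) *
        ∑ s : Fin (b' i), if w (ι (⟨i, s⟩, c)) = true then 2 ^ (b' i - 1 - (s : ℕ)) else 0) := by
    intro w
    congr 1
    funext i c
    rw [Finset.sum_range, Finset.mul_sum]
    refine Finset.sum_congr rfl ?_
    intro s _
    rw [dif_pos (hpos i s c s.2)]
    have h5 : b' i ≤ B := by
      have := hB i
      have := hb' i
      omega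
    have h6 := s.2
    simp only [hιdef]
    split_ifs
    · rw [← pow_add]
      congr 1
      omega
    · simp
  rw [Finset.sum_congr rfl (fun w _ => h4 w), h2, Fintype.card_fin, Fintype.card_prod,
    Fintype.card_fin, Fintype.card_sigma]
  simp only [Fintype.card_fin]
  congr 2
  rw [pow_mul, ← Finset.prod_pow_eq_pow_sum, Finset.prod_pow]
  congr 1
  refine Finset.prod_congr rfl ?_
  intro i _
  rw [div_pow, one_pow]

end Codes

end Pool.Agent.Lib.P8e91ed
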