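import Mathlib

/-!
Definitions shared by all the files on MP_8e91ed_lc (FPTAS for repulsive Gibbs point processes).
`q` is always the Boltzmann factor `x ↦ e^{-φ(x)}` of a repulsive potential `φ`.
-/

set_option autoImplicit false

open MeasureTheory Finset

noncomputable section

namespace Pool.Agent.Lib.P8e91ed

/-- Euclidean space `R^d`. -/
abbrev Sp (d : ℕ) := EuclideanSpace ℝ (Fin d)

/-- `q` is the Boltzmann factor of a repulsive potential of range at most `r`. -/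
structure IsPot {d : ℕ} (q : Sp d → ℝ) (r : ℝ) : Prop where
  meas : Measurable q
  nonneg : ∀ x, 0 ≤ q x
  le_one : ∀ x, q x ≤ 1
  even : ∀ x, q (-x) = q x
  far : ∀ x, r < ‖x‖ → q x = 1

/-- The interaction factor `e^{-H(x)}`, the product of `q (x_i - x_j)` over the pairs `i < j`. -/
def inter {d k : ℕ} (q : Sp d → ℝ) (x : Fin k → Sp d) : ℝ :=
  ∏ i : Fin k, ∏ j : Fin k, if i < j then q (x i - x j) else 1

/-- The partition function with (real) weight function `w`. -/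
def ZW {d : ℕ} (q : Sp d → ℝ) (w : Sp d → ℝ) : ℝ :=
  ∑' k : ℕ, (1 / (k.factorial : ℝ)) * ∫ x : Fin k → Sp d, (∏ i, w (x i)) * inter q x

/-- The coefficient of `λ^k` in the partition function of the region `Y`. -/
def zc {d : ℕ} (q : Sp d → ℝ) (Y : Set (Sp d)) (k : ℕ) : ℝ :=
  (1 / (k.factorial : ℝ)) * ∫ x in Set.univ.pi (fun _ : Fin k => Y), inter q x

/-- The partition function of the region `Y` at a complex activity. -/
def Zc {d : ℕ} (q : Sp d → ℝ) (Y : Set (Sp d)) (lam : ℂ) : ℂ :=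
  ∑' k : ℕ, (zc q Y k : ℂ) * lam ^ k

/-- The path `v_0 = 0, v_1, ..., v_k` attached to `v : Fin k → R^d`. -/
def path {d k : ℕ} (v : Fin k → Sp d) (j : ℕ) : Sp d :=
  if h : 0 < j ∧ j ≤ k then v ⟨j - 1, by omega⟩ else 0

/-- The integrals `V_k` of the problem, written with `q = e^{-φ}`. -/
def walkIntegral {d : ℕ} (q : Sp d → ℝ) (k : ℕ) : ℝ :=
  ∫ v : Fin k → Sp d, ∏ j ∈ Icc 1 k,
    ((∏ i ∈ range (j - 1),
        if ‖path v j - path v i‖ < ‖path v i - path v (i + 1)‖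
          then q (path v j - path v i) else 1) *
      (1 - q (path v j - path v (j - 1))))

/-- The open `δ`-neighbourhood in `ℂ` of the real segment `[0, lam0]`. -/
def nearSeg (lam0 δ : ℝ) : Set ℂ := {z | ∃ s ∈ Set.Icc (0 : ℝ) lam0, ‖z - (s : ℂ)‖ < δ}

/-- The modification of the activity at `x` when the path goes from `v` to `w`. -/
def cutw {d : ℕ} (q : Sp d → ℝ) (v w x : Sp d) : ℝ :=
  if ‖x - v‖ < ‖w - v‖ then q (v - x) else 1

/-- The modification of the activity at `x` after the history `h = (v_0, ..., v_j)`. -/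
def histw {d : ℕ} (q : Sp d → ℝ) {j : ℕ} (h : Fin (j + 1) → Sp d) (x : Sp d) : ℝ :=
  ∏ i : Fin j, cutw q (h i.castSucc) (h i.succ) x

/-- The density of the step from the history `h` to the next point `x`. -/
def dens {d : ℕ} (q : Sp d → ℝ) (η : Sp d → ℝ) {j : ℕ} (h : Fin (j + 1) → Sp d) (x : Sp d) : ℝ :=
  η x * histw q h x * (1 - q (h (Fin.last j) - x))

/-- Coefficients of the logarithmic derivative: if `Z(t) = ∑ z_n t^n` with `z_0 = 1` then
`t Z'(t) / Z(t) = ∑ (ell z n) t^n`. -/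
def ell (z : ℕ → ℝ) (n : ℕ) : ℝ := n * z n - ∑ j : Fin n, ell z j * z (n - j)

/-- The half-open unit cube with corner `c`. -/
def cell {d : ℕ} (c : Fin d → ℤ) : Set (Sp d) := {x | ∀ i, (c i : ℝ) ≤ x i ∧ x i < c i + 1}

/-- The union of the unit cubes in `Y`. -/
def reg {d : ℕ} (Y : Finset (Fin d → ℤ)) : Set (Sp d) := ⋃ c ∈ Y, cell c

/-- Two cells at sup-distance at most `R`. -/
def cadj {d : ℕ} (R : ℕ) (c c' : Fin d → ℤ) : Prop := ∀ i, |c i - c' i| ≤ R

/-- `X` cannot be split into two nonempty parts that are not adjacent. -/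
def Conn {α : Type*} [DecidableEq α] (adj : α → α → Prop) (X : Finset α) : Prop :=
  ∀ Y, Y ⊆ X → Y.Nonempty → Y ≠ X → ∃ a ∈ Y, ∃ b ∈ X \ Y, adj a b

/-- `∑_{j ≤ m} [t^j] (∑_{1 ≤ i ≤ D} A_i t^i)^n` -/
def cmb (D : ℕ) (A : ℕ → ℕ) (m n : ℕ) : ℕ :=
  ∑ j ∈ range (m + 1), ((∑ i ∈ Icc 1 D, Polynomial.C (A i) * Polynomial.X ^ i) ^ n).coeff j

/-- the cells of the box `[-N, N]^d` -/
def boxCells (d N : ℕ) : Finset (Fin d → ℤ) := Fintype.piFinset fun _ => Ico (-(N : ℤ)) N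

/-- variation of the factor of the pair `{i, j}` in the variable `i` -/
def vr {k : ℕ} (f : Fin k → Fin k → Bool → Bool → ℝ) (i j : Fin k) : ℝ :=
  if i < j then max |f i j false false - f i j true false| |f i j false true - f i j true true|
  else max |f j i false false - f j i false true| |f j i true false - f j i true true|

/-- average over the grid with `2^(b i)` points per coordinate in the cell `c i`; positions are
in units of `2^(-B)` -/
def avgB {d : ℕ} (Q : (Fin d → ℤ) → ℝ) (B : ℕ) {k : ℕ} (c : Fin k → Fin d → ℤ) (b : Fin k → ℕ) :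
    ℝ :=
  (∏ i, ((1 : ℝ) / 2 ^ (b i)) ^ d) * ∑ g : (i : Fin k) → Fin d → Fin (2 ^ (b i)),
    ∏ i, ∏ j, if i < j then
      Q (fun t => (2 ^ B * c i t + 2 ^ (B - b i) * (g i t : ℤ)) -
        (2 ^ B * c j t + 2 ^ (B - b j) * (g j t : ℤ))) else 1

/-- the sparse quadrature formula with level budget `B` -/
def smol {d : ℕ} (Q : (Fin d → ℤ) → ℝ) (B : ℕ) {k : ℕ} (c : Fin k → Fin d → ℤ) : ℝ :=
  ∑ b ∈ (univ : Finset (Fin k → Fin (B + 1))).filter (fun b => ∑ i, (b i : ℕ) ≤ B),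
    ∑ e ∈ (univ : Finset (Fin k → Bool)).filter (fun e => ∀ i, e i = true → 1 ≤ (b i : ℕ)),
      (-1 : ℝ) ^ (univ.filter fun i => e i = true).card *
        avgB Q B c (fun i => (b i : ℕ) - if e i then 1 else 0)

/-- the exact integral over the product of the cells -/
def Icell {d : ℕ} (q : Sp d → ℝ) {k : ℕ} (c : Fin k → Fin d → ℤ) : ℝ :=
  ∫ x in Set.univ.pi (fun i => cell (c i)), inter q x

/-- the point of `R^d` with coordinates `D_t / 2^B` -/
def gridPt {d : ℕ} (B : ℕ) (D : Fin d → ℤ) : Sp d :=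
  WithLp.toLp 2 (fun t => (D t : ℝ) / 2 ^ B)

/-- number of points in adjacent cells -/
def nearCount {d : ℕ} (R : ℕ) {k : ℕ} (c : Fin k → Fin d → ℤ) (i : Fin k) : ℕ :=
  (univ.filter fun j => j ≠ i ∧ ∀ t, |c i t - c j t| ≤ R).card

/-- the averaged modulus of continuity of `q` is at most `C δ^α` -/
def HolderAvg {d : ℕ} (q : Sp d → ℝ) (C α : ℝ) : Prop :=
  ∀ δ : ℝ, 0 < δ → δ ≤ 1 → ∃ ω : Sp d → ℝ, Measurable ω ∧ (∀ x, 0 ≤ ω x) ∧ Integrable ω ∧
    (∀ x y z, ‖y - x‖ < δ → ‖z - x‖ < δ → |q y - q z| ≤ ω x) ∧ ∫ x, ω x ≤ C * δ ^ α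

/-- approximation of `zc q (reg (A.image cel)) k` -/
def ztil {d : ℕ} (Q : (Fin d → ℤ) → ℝ) (B : ℕ) (A : Finset ℕ) (cel : ℕ → Fin d → ℤ) (k : ℕ) : ℝ :=
  ∑ f ∈ (Fintype.piFinset fun _ : Fin k => A).filter Monotone,
    (∏ t ∈ A, 1 / (((univ.filter fun i => f i = t).card.factorial : ℕ) : ℝ)) *
      smol Q B (fun i => cel (f i))

end Pool.Agent.Lib.P8e91ed
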