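import Mathlib

/-!
Approximation of the exponential by a power, with relative error.
-/

set_option autoImplicit false

noncomputable section

namespace Pool.Agent.Lib.P8e91ed

theorem exp_le_mul {y : ℝ} (h0 : 0 ≤ y) (h1 : y ≤ 1) :
    Real.exp y ≤ (1 + y) * Real.exp (y ^ 2) := by
  have a1 := Real.abs_exp_sub_one_sub_id_le (x := y) (by rw [abs_of_nonneg h0]; exact h1)
  have a2 := (abs_le.1 a1).2
  have a3 := Real.add_one_le_exp (y ^ 2)
  have : (1 + y) * (1 + y ^ 2) ≤ (1 + y) * Real.exp (y ^ 2) :=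
    mul_le_mul_of_nonneg_left (by linarith) (by linarith)
  nlinarith [mul_nonneg h0 (sq_nonneg y)]

theorem exp_approx {x L Z : ℝ} {M Q : ℕ} (hM : 1 ≤ M) (hx : 0 ≤ x) (hxL : x ≤ L) (hL : 1 ≤ L)
    (hZ : 0 < Z) (hxZ : |x - Real.log Z| ≤ 1 / (4 * M)) (hQ : 4 * M * L ^ 2 ≤ Q) :
    |(1 + x / Q) ^ Q - Z| ≤ 1 / M * Z := by
  have hM' : (1 : ℝ) ≤ M := by exact_mod_cast hM
  have hL2 : 1 ≤ L ^ 2 := one_le_pow₀ hL
  have hQ0 : (0 : ℝ) < Q := by
    have : 0 < 4 * (M : ℝ) * L ^ 2 := by positivity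
    linarith
  have hLQ : L ≤ Q := by nlinarith
  set y : ℝ := x / Q with hy
  have hy0 : 0 ≤ y := by positivity
  have hy1 : y ≤ 1 := by
    rw [hy, div_le_one hQ0]
    linarith
  have hQy : (Q : ℝ) * y = x := by rw [hy]; field_simp
  have hup : (1 + y) ^ Q ≤ Real.exp x := by
    calc (1 + y) ^ Q ≤ (Real.exp y) ^ Q := by
          gcongr
          linarith [Real.add_one_le_exp y]
      _ = Real.exp x := by rw [← Real.exp_nat_mul, hQy]
  have hlow : Real.exp (x - 1 / (4 * M)) ≤ (1 + y) ^ Q := by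
    have h1 : Real.exp x ≤ (1 + y) ^ Q * Real.exp (Q * y ^ 2) := by
      calc Real.exp x = (Real.exp y) ^ Q := by rw [← Real.exp_nat_mul, hQy]
        _ ≤ ((1 + y) * Real.exp (y ^ 2)) ^ Q := by
            gcongr
            exact exp_le_mul hy0 hy1
        _ = (1 + y) ^ Q * Real.exp (Q * y ^ 2) := by rw [mul_pow, ← Real.exp_nat_mul]
    have h2 : (Q : ℝ) * y ^ 2 ≤ 1 / (4 * M) := by
      have e : (Q : ℝ) * y ^ 2 = x ^ 2 / Q := by rw [hy]; field_simp
      rw [e, div_le_div_iff₀ hQ0 (by positivity)]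
      have : x ^ 2 ≤ L ^ 2 := by gcongr
      nlinarith
    rw [Real.exp_sub, div_le_iff₀ (Real.exp_pos _)]
    refine h1.trans ?_
    gcongr
  have ht : (0 : ℝ) < 1 / (4 * M) := by positivity
  have hM4 : (1 : ℝ) / M = 4 * (1 / (4 * M)) := by field_simp
  have ht1 : (1 : ℝ) / (4 * M) ≤ 1 / 4 := by
    rw [div_le_div_iff₀ (by positivity) (by norm_num)]
    linarith
  set t : ℝ := 1 / (4 * M) with htdef
  have hxZ' := abs_le.1 hxZ
  have hE1 : Real.exp x ≤ Z * (1 + 2 * t) := by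
    have h1 : Real.exp t ≤ 1 + 2 * t := by
      have := (abs_le.1 (Real.abs_exp_sub_one_le (x := t) (by rw [abs_of_pos ht]; linarith))).2
      rw [abs_of_pos ht] at this
      linarith
    calc Real.exp x ≤ Real.exp (Real.log Z + t) := Real.exp_le_exp.2 (by linarith)
      _ = Z * Real.exp t := by rw [Real.exp_add, Real.exp_log hZ]
      _ ≤ Z * (1 + 2 * t) := by gcongr
  have hE2 : Z * (1 - 2 * t) ≤ Real.exp (x - t) := by
    calc Z * (1 - 2 * t) ≤ Z * Real.exp (-(2 * t)) := by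
          gcongr
          have := Real.add_one_le_exp (-(2 * t))
          linarith
      _ = Real.exp (Real.log Z - 2 * t) := by rw [sub_eq_add_neg, Real.exp_add, Real.exp_log hZ]
      _ ≤ Real.exp (x - t) := Real.exp_le_exp.2 (by linarith)
  rw [hM4, abs_le]
  constructor
  · nlinarith
  · nlinarith

end Pool.Agent.Lib.P8e91ed
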