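import Pool.Agent.Lib.P8e91ed.Defs

set_option autoImplicit false

open MeasureTheory Finset

noncomputable section

namespace Pool.Agent.Lib.P8e91ed

section Expansion
variable {d : ℕ} {q : Sp d → ℝ} {r : ℝ}

/-- The terms of the series `ZW`. -/
def trm (q : Sp d → ℝ) (w : Sp d → ℝ) (k : ℕ) : ℝ :=
  (1 / (k.factorial : ℝ)) * ∫ x : Fin k → Sp d, (∏ i, w (x i)) * inter q x

/-- Measurable, nonnegative and integrable weights. -/
structure Wt (w : Sp d → ℝ) : Prop where
  meas : Measurable w
  nonneg : ∀ x, 0 ≤ w x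
  int : Integrable w

lemma inter_nonneg (hq : IsPot q r) {k : ℕ} (x : Fin k → Sp d) : 0 ≤ inter q x := by
  unfold inter
  refine Finset.prod_nonneg fun i _ => Finset.prod_nonneg fun j _ => ?_
  split_ifs
  · exact hq.nonneg _
  · exact zero_le_one

lemma inter_le_one (hq : IsPot q r) {k : ℕ} (x : Fin k → Sp d) : inter q x ≤ 1 := by
  unfold inter
  refine Finset.prod_le_one (fun i _ => Finset.prod_nonneg fun j _ => ?_)
    fun i _ => Finset.prod_le_one (fun j _ => ?_) fun j _ => ?_
  all_goals split_ifs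
  all_goals first | exact hq.nonneg _ | exact hq.le_one _ | exact zero_le_one | exact le_rfl

lemma measurable_inter (hq : IsPot q r) (k : ℕ) : Measurable (inter q : (Fin k → Sp d) → ℝ) := by
  unfold inter
  refine Finset.measurable_prod _ fun i _ => Finset.measurable_prod _ fun j _ => ?_
  split_ifs
  · exact hq.meas.comp ((measurable_pi_apply i).sub (measurable_pi_apply j))
  · exact measurable_const

lemma Wt.prod_meas {w : Sp d → ℝ} (hw : Wt w) (k : ℕ) :
    Measurable (fun x : Fin k → Sp d => ∏ i, w (x i)) :=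
  Finset.measurable_prod _ fun i _ => hw.meas.comp (measurable_pi_apply i)

lemma Wt.prod_int {w : Sp d → ℝ} (hw : Wt w) (k : ℕ) :
    Integrable (fun x : Fin k → Sp d => ∏ i, w (x i)) :=
  Integrable.fintype_prod (f := fun _ => w) fun _ => hw.int

lemma Wt.prod_nonneg {w : Sp d → ℝ} (hw : Wt w) {k : ℕ} (x : Fin k → Sp d) :
    0 ≤ ∏ i, w (x i) := Finset.prod_nonneg fun i _ => hw.nonneg _

lemma Wt.full_int {w : Sp d → ℝ} (hw : Wt w) (hq : IsPot q r) (k : ℕ) :
    Integrable (fun x : Fin k → Sp d => (∏ i, w (x i)) * inter q x) := by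
  refine (hw.prod_int k).mono' ((hw.prod_meas k).mul (measurable_inter hq k)).aestronglyMeasurable
    (Filter.Eventually.of_forall fun x => ?_)
  rw [Real.norm_eq_abs, abs_of_nonneg (mul_nonneg (hw.prod_nonneg x) (inter_nonneg hq x))]
  exact mul_le_of_le_one_right (hw.prod_nonneg x) (inter_le_one hq x)

lemma trm_nonneg {w : Sp d → ℝ} (hw : Wt w) (hq : IsPot q r) (k : ℕ) : 0 ≤ trm q w k :=
  mul_nonneg (by positivity)
    (integral_nonneg fun x => mul_nonneg (hw.prod_nonneg x) (inter_nonneg hq x))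

lemma trm_le {w : Sp d → ℝ} (hw : Wt w) (hq : IsPot q r) (k : ℕ) :
    trm q w k ≤ (∫ x, w x) ^ k / k.factorial := by
  unfold trm
  rw [one_div, div_eq_inv_mul]
  refine mul_le_mul_of_nonneg_left ?_ (by positivity)
  have h := integral_fintype_prod_volume_eq_pow (ι := Fin k) w
  rw [Fintype.card_fin] at h
  rw [← h]
  refine integral_mono (hw.full_int hq k) (hw.prod_int k) fun x => ?_
  exact mul_le_of_le_one_right (hw.prod_nonneg x) (inter_le_one hq x)

lemma summable_trm {w : Sp d → ℝ} (hw : Wt w) (hq : IsPot q r) : Summable (trm q w) :=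
  Summable.of_nonneg_of_le (trm_nonneg hw hq) (trm_le hw hq)
    (Real.summable_pow_div_factorial _)

lemma hasSum_ZW {w : Sp d → ℝ} (hw : Wt w) (hq : IsPot q r) : HasSum (trm q w) (ZW q w) :=
  (summable_trm hw hq).hasSum

lemma trm_zero (q w : Sp d → ℝ) : trm q w 0 = 1 := by
  unfold trm inter
  have h : (volume : Measure (Fin 0 → Sp d)) Set.univ = 1 := by
    rw [volume_pi]; exact Measure.pi_empty_univ _
  simp [measureReal_def, h]

theorem ZW_one_le (hq : IsPot q r) {w : Sp d → ℝ} (hw : Measurable w) (h0 : ∀ x, 0 ≤ w x)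
    (hi : Integrable w) : 1 ≤ ZW q w := by
  have hW : Wt w := ⟨hw, h0, hi⟩
  rw [← trm_zero q w]
  exact (summable_trm hW hq).le_tsum 0 fun k _ => trm_nonneg hW hq k

theorem ZW_le_exp (hq : IsPot q r) {w : Sp d → ℝ} (hw : Measurable w) (h0 : ∀ x, 0 ≤ w x)
    (hi : Integrable w) : ZW q w ≤ Real.exp (∫ x, w x) := by
  have hW : Wt w := ⟨hw, h0, hi⟩
  rw [Real.exp_eq_exp_ℝ]
  exact hasSum_le (trm_le hW hq) (hasSum_ZW hW hq) (NormedSpace.expSeries_div_hasSum_exp _)

lemma inter_insertNth (hq : IsPot q r) {k : ℕ} (i : Fin (k + 1)) (a : Sp d) (y : Fin k → Sp d) :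
    inter q (i.insertNth (α := fun _ => Sp d) a y) = (∏ j, q (a - y j)) * inter q y := by
  unfold inter
  rw [Fin.prod_univ_succAbove _ i]
  simp_rw [Fin.prod_univ_succAbove _ i, Fin.insertNth_apply_same, Fin.insertNth_apply_succAbove]
  rw [Finset.prod_mul_distrib, ← mul_assoc]
  congr 1
  · rw [if_neg (lt_irrefl i), one_mul, ← Finset.prod_mul_distrib]
    refine Finset.prod_congr rfl fun j _ => ?_
    rcases lt_or_gt_of_ne (Fin.succAbove_ne i j) with h | h
    · rw [if_neg (not_lt.mpr h.le), if_pos h, one_mul, ← hq.even, neg_sub]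
    · rw [if_pos h, if_neg (not_lt.mpr h.le), mul_one]
  · simp_rw [Fin.succAbove_lt_succAbove_iff]

lemma integral_insert {k : ℕ} (i : Fin (k + 1)) (F : (Fin (k + 1) → Sp d) → ℝ) :
    ∫ x, F x = ∫ p : Sp d × (Fin k → Sp d), F (i.insertNth (α := fun _ => Sp d) p.1 p.2) := by
  rw [← (volume_preserving_piFinSuccAbove (fun _ => Sp d) i).symm.integral_comp']
  rfl

lemma prod_erase_succAbove {k : ℕ} (i : Fin (k + 1)) (f : Fin (k + 1) → ℝ) :
    ∏ j ∈ univ.erase i, f j = ∏ j, f (i.succAbove j) := by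
  rw [← Finset.prod_image (g := i.succAbove) (f := f) (fun a _ b _ h =>
    Fin.succAbove_right_injective h)]
  congr 1
  ext j
  simp [eq_comm]

lemma prod_add_sub_le {ι : Type*} [DecidableEq ι] (s : Finset ι) (v e : ι → ℝ)
    (hv : ∀ i, 0 ≤ v i) (he : ∀ i, 0 ≤ e i) :
    ∏ i ∈ s, (v i + e i) - ∏ i ∈ s, v i ≤ ∑ i ∈ s, e i * ∏ j ∈ s.erase i, (v j + e j) := by
  induction s using Finset.induction_on with
  | empty => simp
  | insert a s ha ih =>
    rw [Finset.prod_insert ha, Finset.prod_insert ha, Finset.sum_insert ha,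
      Finset.erase_insert ha]
    have h1 : ∀ i ∈ s, e i * ∏ j ∈ (insert a s).erase i, (v j + e j) =
        (v a + e a) * (e i * ∏ j ∈ s.erase i, (v j + e j)) := by
      intro i hi
      have hia : i ≠ a := fun h => ha (h ▸ hi)
      rw [Finset.erase_insert_of_ne hia.symm, Finset.prod_insert (by simp [ha])]
      ring
    rw [Finset.sum_congr rfl h1, ← Finset.mul_sum]
    have h2 : 0 ≤ v a + e a := add_nonneg (hv a) (he a)
    have h3 : ∏ i ∈ s, v i ≤ ∏ i ∈ s, (v i + e i) :=
      Finset.prod_le_prod (fun i _ => hv i) fun i _ => by linarith [he i]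
    nlinarith [mul_le_mul_of_nonneg_left ih h2, mul_le_mul_of_nonneg_left h3 (he a)]

lemma le_prod_add_sub {ι : Type*} [DecidableEq ι] (s : Finset ι) (v e : ι → ℝ)
    (hv : ∀ i, 0 ≤ v i) (he : ∀ i, 0 ≤ e i) :
    ∑ i ∈ s, e i * ∏ j ∈ s.erase i, v j ≤ ∏ i ∈ s, (v i + e i) - ∏ i ∈ s, v i := by
  induction s using Finset.induction_on with
  | empty => simp
  | insert a s ha ih =>
    rw [Finset.prod_insert ha, Finset.prod_insert ha, Finset.sum_insert ha,
      Finset.erase_insert ha]
    have h1 : ∀ i ∈ s, e i * ∏ j ∈ (insert a s).erase i, v j =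
        v a * (e i * ∏ j ∈ s.erase i, v j) := by
      intro i hi
      have hia : i ≠ a := fun h => ha (h ▸ hi)
      rw [Finset.erase_insert_of_ne hia.symm, Finset.prod_insert (by simp [ha])]
      ring
    rw [Finset.sum_congr rfl h1, ← Finset.mul_sum]
    have h3 : ∏ i ∈ s, v i ≤ ∏ i ∈ s, (v i + e i) :=
      Finset.prod_le_prod (fun i _ => hv i) fun i _ => by linarith [he i]
    nlinarith [mul_le_mul_of_nonneg_left ih (hv a), mul_le_mul_of_nonneg_left h3 (he a)]

lemma Wt.mulq {v : Sp d → ℝ} (hv : Wt v) (hq : IsPot q r) (a : Sp d) :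
    Wt (fun y => v y * q (a - y)) where
  meas := hv.meas.mul (hq.meas.comp (measurable_const.sub measurable_id))
  nonneg x := mul_nonneg (hv.nonneg x) (hq.nonneg _)
  int := by
    refine hv.int.mono' (hv.meas.mul
      (hq.meas.comp (measurable_const.sub measurable_id))).aestronglyMeasurable
      (Filter.Eventually.of_forall fun x => ?_)
    rw [Real.norm_eq_abs, abs_of_nonneg (mul_nonneg (hv.nonneg x) (hq.nonneg _))]
    exact mul_le_of_le_one_right (hv.nonneg x) (hq.le_one _)

lemma Wt.sub {w e : Sp d → ℝ} (hw : Wt w) (he : Wt e) (h : ∀ x, e x ≤ w x) :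
    Wt (fun x => w x - e x) :=
  ⟨hw.meas.sub he.meas, fun x => sub_nonneg.mpr (h x), hw.int.sub he.int⟩

lemma Wt.of_le {w e : Sp d → ℝ} (hw : Wt w) (he : Measurable e) (h0 : ∀ x, 0 ≤ e x)
    (h : ∀ x, e x ≤ w x) : Wt e :=
  ⟨he, h0, hw.int.mono' he.aestronglyMeasurable (Filter.Eventually.of_forall fun x => by
    rw [Real.norm_eq_abs, abs_of_nonneg (h0 x)]; exact h x)⟩

/-- The function integrated in `dtm`. -/
def gfun (q e v : Sp d → ℝ) (k : ℕ) (p : Sp d × (Fin k → Sp d)) : ℝ :=
  e p.1 * ((∏ j, v (p.2 j) * q (p.1 - p.2 j)) * inter q p.2)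

/-- first order terms -/
def dtm (q e v : Sp d → ℝ) (k : ℕ) : ℝ := ∫ a, e a * trm q (fun y => v y * q (a - y)) k

lemma gfun_int (hq : IsPot q r) {e v : Sp d → ℝ} (he : Wt e) (hv : Wt v) (k : ℕ) :
    Integrable (gfun q e v k) := by
  have h1 : Integrable (fun p : Sp d × (Fin k → Sp d) => e p.1 * ∏ j, v (p.2 j)) :=
    Integrable.mul_prod he.int (hv.prod_int k)
  refine h1.mono' ?_ (Filter.Eventually.of_forall fun p => ?_)
  · refine Measurable.aestronglyMeasurable ?_
    unfold gfun
    refine (he.meas.comp measurable_fst).mul (Measurable.mul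
      (Finset.measurable_prod _ fun j _ => Measurable.mul ?_ ?_) ?_)
    · exact hv.meas.comp ((measurable_pi_apply j).comp measurable_snd)
    · exact hq.meas.comp (measurable_fst.sub ((measurable_pi_apply j).comp measurable_snd))
    · exact (measurable_inter hq k).comp measurable_snd
  · have h2 := (hv.mulq hq p.1).prod_nonneg p.2
    have h3 : (∏ j, v (p.2 j) * q (p.1 - p.2 j)) ≤ ∏ j, v (p.2 j) :=
      Finset.prod_le_prod (fun j _ => (hv.mulq hq p.1).nonneg _) fun j _ =>
        mul_le_of_le_one_right (hv.nonneg _) (hq.le_one _)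
    unfold gfun
    rw [Real.norm_eq_abs, abs_of_nonneg (mul_nonneg (he.nonneg _)
      (mul_nonneg h2 (inter_nonneg hq _)))]
    refine mul_le_mul_of_nonneg_left ?_ (he.nonneg _)
    exact (mul_le_of_le_one_right h2 (inter_le_one hq _)).trans h3

lemma gfun_slice {e v : Sp d → ℝ} (k : ℕ) (a : Sp d) :
    (1 / (k.factorial : ℝ)) * ∫ y, gfun q e v k (a, y) =
      e a * trm q (fun y => v y * q (a - y)) k := by
  unfold gfun trm
  simp only
  rw [integral_const_mul]
  ring

lemma dtm_int (hq : IsPot q r) {e v : Sp d → ℝ} (he : Wt e) (hv : Wt v) (k : ℕ) :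
    Integrable (fun a => e a * trm q (fun y => v y * q (a - y)) k) := by
  have := ((gfun_int hq he hv k).integral_prod_left).const_mul (1 / (k.factorial : ℝ))
  exact this.congr (Filter.Eventually.of_forall fun a => gfun_slice k a)

lemma dtm_eq_prod (hq : IsPot q r) {e v : Sp d → ℝ} (he : Wt e) (hv : Wt v) (k : ℕ) :
    dtm q e v k = (1 / (k.factorial : ℝ)) * ∫ p, gfun q e v k p := by
  unfold dtm
  rw [Measure.volume_eq_prod, integral_prod _ (by exact gfun_int hq he hv k),
    ← integral_const_mul]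
  exact integral_congr_ae (Filter.Eventually.of_forall fun a => (gfun_slice k a).symm)

lemma insert_fun (hq : IsPot q r) {e v : Sp d → ℝ} {k : ℕ} (i : Fin (k + 1))
    (p : Sp d × (Fin k → Sp d)) :
    (e (i.insertNth (α := fun _ => Sp d) p.1 p.2 i) *
      ∏ j, v (i.insertNth (α := fun _ => Sp d) p.1 p.2 (i.succAbove j))) *
      inter q (i.insertNth (α := fun _ => Sp d) p.1 p.2) = gfun q e v k p := by
  unfold gfun
  rw [inter_insertNth hq]
  simp_rw [Fin.insertNth_apply_same, Fin.insertNth_apply_succAbove]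
  rw [Finset.prod_mul_distrib]
  ring

lemma dtm_eq (hq : IsPot q r) {e v : Sp d → ℝ} (he : Wt e) (hv : Wt v) {k : ℕ}
    (i : Fin (k + 1)) :
    dtm q e v k = (1 / (k.factorial : ℝ)) * ∫ x : Fin (k + 1) → Sp d,
      (e (x i) * ∏ j ∈ univ.erase i, v (x j)) * inter q x := by
  rw [dtm_eq_prod hq he hv, integral_insert i]
  congr 1
  refine integral_congr_ae (Filter.Eventually.of_forall fun p => ?_)
  simp only
  rw [← insert_fun hq i p, prod_erase_succAbove i (fun j => v (i.insertNth (α := fun _ => Sp d)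
    p.1 p.2 j))]

lemma dfun_int (hq : IsPot q r) {e v : Sp d → ℝ} (he : Wt e) (hv : Wt v) {k : ℕ}
    (i : Fin (k + 1)) :
    Integrable (fun x : Fin (k + 1) → Sp d =>
      (e (x i) * ∏ j ∈ univ.erase i, v (x j)) * inter q x) := by
  rw [← (volume_preserving_piFinSuccAbove (fun _ => Sp d) i).symm.integrable_comp_emb
    (MeasurableEquiv.measurableEmbedding _)]
  refine (gfun_int hq he hv k).congr (Filter.Eventually.of_forall fun p => ?_)
  simp only [Function.comp]
  rw [← insert_fun hq i p]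
  rw [prod_erase_succAbove i (fun j => v
    (((MeasurableEquiv.piFinSuccAbove (fun _ => Sp d) i).symm p) j))]
  rfl

lemma trm_mono (hq : IsPot q r) {v w : Sp d → ℝ} (hv : Wt v) (hw : Wt w)
    (h : ∀ x, v x ≤ w x) (k : ℕ) : trm q v k ≤ trm q w k := by
  refine mul_le_mul_of_nonneg_left ?_ (by positivity)
  refine integral_mono (hv.full_int hq k) (hw.full_int hq k) fun x => ?_
  exact mul_le_mul_of_nonneg_right (Finset.prod_le_prod (fun i _ => hv.nonneg _) fun i _ => h _)
    (inter_nonneg hq x)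

lemma dtm_le (hq : IsPot q r) {e v : Sp d → ℝ} (he : Wt e) (hv : Wt v) (k : ℕ) :
    dtm q e v k ≤ (∫ x, e x) * trm q v k := by
  unfold dtm
  rw [← integral_mul_const]
  refine integral_mono (dtm_int hq he hv k) (he.int.mul_const _) fun a => ?_
  refine mul_le_mul_of_nonneg_left ?_ (he.nonneg a)
  exact trm_mono hq (hv.mulq hq a) hv (fun x => mul_le_of_le_one_right (hv.nonneg x)
    (hq.le_one _)) k

lemma dtm_nonneg (hq : IsPot q r) {e v : Sp d → ℝ} (he : Wt e) (hv : Wt v) (k : ℕ) :
    0 ≤ dtm q e v k :=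
  integral_nonneg fun a => mul_nonneg (he.nonneg a) (trm_nonneg (hv.mulq hq a) hq k)

lemma hasSum_dtm (hq : IsPot q r) {e v : Sp d → ℝ} (he : Wt e) (hv : Wt v) :
    HasSum (dtm q e v) (∫ a, e a * ZW q (fun y => v y * q (a - y))) := by
  have h1 : ∀ k, (∫ a, ‖e a * trm q (fun y => v y * q (a - y)) k‖) = dtm q e v k := by
    intro k
    refine integral_congr_ae (Filter.Eventually.of_forall fun a => ?_)
    simp only
    rw [Real.norm_eq_abs, abs_of_nonneg (mul_nonneg (he.nonneg a)
      (trm_nonneg (hv.mulq hq a) hq k))]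
  have h2 := hasSum_integral_of_summable_integral_norm
    (F := fun k a => e a * trm q (fun y => v y * q (a - y)) k) (μ := volume)
    (dtm_int hq he hv) (by
      simp_rw [h1]
      exact Summable.of_nonneg_of_le (dtm_nonneg hq he hv) (dtm_le hq he hv)
        ((summable_trm hv hq).mul_left _))
  have h3 : (∫ a, ∑' k, e a * trm q (fun y => v y * q (a - y)) k) =
      ∫ a, e a * ZW q (fun y => v y * q (a - y)) := by
    refine integral_congr_ae (Filter.Eventually.of_forall fun a => ?_)
    simp only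
    rw [tsum_mul_left]
    rfl
  rw [← h3]
  exact h2

lemma dsum_int (hq : IsPot q r) {e u : Sp d → ℝ} (he : Wt e) (hu : Wt u) (k : ℕ) :
    Integrable (fun x : Fin (k + 1) → Sp d =>
        (∑ i, e (x i) * ∏ j ∈ univ.erase i, u (x j)) * inter q x) := by
  simp_rw [Finset.sum_mul]
  exact integrable_finsetSum _ fun i _ => dfun_int hq he hu i

lemma dtm_sum (hq : IsPot q r) {e u : Sp d → ℝ} (he : Wt e) (hu : Wt u) (k : ℕ) :
    dtm q e u k = (1 / ((k + 1).factorial : ℝ)) *
      ∫ x : Fin (k + 1) → Sp d,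
        (∑ i, e (x i) * ∏ j ∈ univ.erase i, u (x j)) * inter q x := by
  simp_rw [Finset.sum_mul]
  rw [integral_finsetSum _ fun i _ => dfun_int hq he hu i]
  have h1 : ∀ i : Fin (k + 1), (∫ x : Fin (k + 1) → Sp d,
      (e (x i) * ∏ j ∈ univ.erase i, u (x j)) * inter q x) = k.factorial * dtm q e u k := by
    intro i
    rw [dtm_eq hq he hu i, ← mul_assoc, mul_one_div_cancel (by positivity), one_mul]
  rw [Finset.sum_congr rfl fun i _ => h1 i, Finset.sum_const, Finset.card_univ,
    Fintype.card_fin, nsmul_eq_mul, Nat.factorial_succ]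
  push_cast
  have hk : (k.factorial : ℝ) ≠ 0 := by positivity
  field_simp

lemma pdiff_int (hq : IsPot q r) {w v : Sp d → ℝ} (hw : Wt w) (hv : Wt v) (k : ℕ) :
    Integrable (fun x : Fin k → Sp d => (∏ i, w (x i) - ∏ i, v (x i)) * inter q x) := by
  refine ((hw.full_int hq k).sub (hv.full_int hq k)).congr
    (Filter.Eventually.of_forall fun x => ?_)
  simp only [Pi.sub_apply]
  ring

lemma trm_sub (hq : IsPot q r) {w v : Sp d → ℝ} (hw : Wt w) (hv : Wt v) (k : ℕ) :
    trm q w k - trm q v k = (1 / (k.factorial : ℝ)) * ∫ x : Fin k → Sp d,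
        (∏ i, w (x i) - ∏ i, v (x i)) * inter q x := by
  unfold trm
  rw [← mul_sub, ← integral_sub (hw.full_int hq _) (hv.full_int hq _)]
  congr 1
  refine integral_congr_ae (Filter.Eventually.of_forall fun x => ?_)
  simp only
  ring

lemma term_diff (hq : IsPot q r) {w v e : Sp d → ℝ} (hw : Wt w) (hv : Wt v) (he : Wt e)
    (h : ∀ x, w x = v x + e x) (k : ℕ) :
    dtm q e v k ≤ trm q w (k + 1) - trm q v (k + 1) ∧
    trm q w (k + 1) - trm q v (k + 1) ≤ dtm q e w k := by
  rw [trm_sub hq hw hv, dtm_sum hq he hv, dtm_sum hq he hw]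
  constructor
  · refine mul_le_mul_of_nonneg_left ?_ (by positivity)
    refine integral_mono (dsum_int hq he hv k) (pdiff_int hq hw hv (k + 1)) fun x => ?_
    refine mul_le_mul_of_nonneg_right ?_ (inter_nonneg hq x)
    have := le_prod_add_sub univ (fun i => v (x i)) (fun i => e (x i))
      (fun i => hv.nonneg (x i)) (fun i => he.nonneg (x i))
    simp_rw [h]
    exact this
  · refine mul_le_mul_of_nonneg_left ?_ (by positivity)
    refine integral_mono (pdiff_int hq hw hv (k + 1)) (dsum_int hq he hw k) fun x => ?_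
    refine mul_le_mul_of_nonneg_right ?_ (inter_nonneg hq x)
    have := prod_add_sub_le univ (fun i => v (x i)) (fun i => e (x i))
      (fun i => hv.nonneg (x i)) (fun i => he.nonneg (x i))
    simp_rw [h]
    exact this

lemma trm_diff_mulq (hq : IsPot q r) {w v : Sp d → ℝ} (hw : Wt w) (hv : Wt v)
    (h : ∀ x, v x ≤ w x) (a : Sp d) (k : ℕ) :
    trm q (fun y => w y * q (a - y)) k - trm q (fun y => v y * q (a - y)) k ≤
      trm q w k - trm q v k := by
  unfold trm
  rw [← mul_sub, ← mul_sub, ← integral_sub (hw.full_int hq _) (hv.full_int hq _),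
    ← integral_sub ((hw.mulq hq a).full_int hq _) ((hv.mulq hq a).full_int hq _)]
  refine mul_le_mul_of_nonneg_left ?_ (by positivity)
  refine integral_mono (((hw.mulq hq a).full_int hq _).sub ((hv.mulq hq a).full_int hq _))
    ((hw.full_int hq _).sub (hv.full_int hq _)) fun x => ?_
  simp only
  rw [← sub_mul, ← sub_mul, Finset.prod_mul_distrib, Finset.prod_mul_distrib, ← sub_mul]
  refine mul_le_mul_of_nonneg_right ?_ (inter_nonneg hq x)
  refine mul_le_of_le_one_right (sub_nonneg.mpr ?_) ?_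
  · exact Finset.prod_le_prod (fun i _ => hv.nonneg _) fun i _ => h _
  · exact Finset.prod_le_one (fun i _ => hq.nonneg _) fun i _ => hq.le_one _

lemma dtm_diff (hq : IsPot q r) {w v e : Sp d → ℝ} (hw : Wt w) (hv : Wt v) (he : Wt e)
    (h : ∀ x, v x ≤ w x) (k : ℕ) :
    dtm q e w k - dtm q e v k ≤ (∫ x, e x) * (trm q w k - trm q v k) := by
  unfold dtm
  rw [← integral_sub (dtm_int hq he hw k) (dtm_int hq he hv k), ← integral_mul_const]
  refine integral_mono ((dtm_int hq he hw k).sub (dtm_int hq he hv k)) (he.int.mul_const _)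
    fun a => ?_
  simp only
  rw [← mul_sub]
  exact mul_le_mul_of_nonneg_left (trm_diff_mulq hq hw hv h a k) (he.nonneg a)

lemma hasSum_diff (hq : IsPot q r) {w v : Sp d → ℝ} (hw : Wt w) (hv : Wt v) :
    HasSum (fun k => trm q w (k + 1) - trm q v (k + 1)) (ZW q w - ZW q v) := by
  have h := (hasSum_ZW hw hq).sub (hasSum_ZW hv hq)
  have h2 := (hasSum_nat_add_iff' 1).mpr h
  simpa [trm_zero] using h2

theorem ZW_mono (hq : IsPot q r) {w v : Sp d → ℝ} (hw : Wt w) (hv : Wt v)
    (h : ∀ x, v x ≤ w x) : ZW q v ≤ ZW q w :=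
  hasSum_le (trm_mono hq hv hw h) (hasSum_ZW hv hq) (hasSum_ZW hw hq)

theorem ZW_sub (hq : IsPot q r) {w e : Sp d → ℝ} (hw : Measurable w) (he : Measurable e)
    (h0 : ∀ x, 0 ≤ e x) (h1 : ∀ x, e x ≤ w x) (hi : Integrable w) :
    ZW q (fun x => w x - e x) ≤ ZW q w ∧
      ZW q w - ZW q (fun x => w x - e x) ≤ (∫ x, e x) * ZW q w := by
  have hW : Wt w := ⟨hw, fun x => (h0 x).trans (h1 x), hi⟩
  have hE : Wt e := hW.of_le he h0 h1
  have hV := hW.sub hE h1
  refine ⟨ZW_mono hq hW hV fun x => sub_le_self _ (h0 x), ?_⟩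
  have h2 : ∀ x, w x = (fun x => w x - e x) x + e x := fun x => by simp
  exact hasSum_le (fun k => (term_diff hq hW hV hE h2 k).2.trans (dtm_le hq hE hW k))
    (hasSum_diff hq hW hV) ((hasSum_ZW hW hq).mul_left _)

theorem ZW_sub2 (hq : IsPot q r) {w e : Sp d → ℝ} (hw : Measurable w) (he : Measurable e)
    (h0 : ∀ x, 0 ≤ e x) (h1 : ∀ x, e x ≤ w x) (hi : Integrable w) :
    |ZW q w - ZW q (fun x => w x - e x) - ∫ x, e x * ZW q (fun y => w y * q (x - y))| ≤
      (∫ x, e x) ^ 2 * ZW q w := by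
  have hW : Wt w := ⟨hw, fun x => (h0 x).trans (h1 x), hi⟩
  have hE : Wt e := hW.of_le he h0 h1
  have hV := hW.sub hE h1
  have hI : 0 ≤ ∫ x, e x := integral_nonneg h0
  have h2 : ∀ x, w x = (fun x => w x - e x) x + e x := fun x => by simp
  have hup : ZW q w - ZW q (fun x => w x - e x) ≤ ∫ x, e x * ZW q (fun y => w y * q (x - y)) :=
    hasSum_le (fun k => (term_diff hq hW hV hE h2 k).2) (hasSum_diff hq hW hV)
      (hasSum_dtm hq hE hW)
  have hlo : (∫ x, e x * ZW q (fun y => w y * q (x - y))) -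
      (∫ x, e x) * (ZW q w - ZW q (fun x => w x - e x)) ≤
        ZW q w - ZW q (fun x => w x - e x) := by
    refine hasSum_le (fun k => ?_) ((hasSum_dtm hq hE hW).sub
      (((hasSum_ZW hW hq).sub (hasSum_ZW hV hq)).mul_left (∫ x, e x))) (hasSum_diff hq hW hV)
    have h5 := dtm_diff hq hW hV hE (fun x => sub_le_self _ (h0 x)) k
    have h3 := (term_diff hq hW hV hE h2 k).1
    linarith
  have hs := (ZW_sub hq hw he h0 h1 hi).2
  have h4 := mul_le_mul_of_nonneg_left hs hI
  rw [abs_le]
  constructor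
  · nlinarith
  · have : 0 ≤ (∫ x, e x) ^ 2 * ZW q w := mul_nonneg (sq_nonneg _)
      (zero_le_one.trans (ZW_one_le hq hw hW.nonneg hi))
    linarith

theorem ZW_measurable (hq : IsPot q r) {Ω : Type} [MeasurableSpace Ω] {w : Ω → Sp d → ℝ}
    (hw : Measurable (Function.uncurry w)) (h0 : ∀ ω x, 0 ≤ w ω x)
    (hi : ∀ ω, Integrable (w ω)) : Measurable (fun ω => ZW q (w ω)) := by
  have hW : ∀ ω, Wt (w ω) := fun ω => ⟨hw.comp measurable_prodMk_left, h0 ω, hi ω⟩
  have hterm : ∀ k, Measurable (fun ω => trm q (w ω) k) := by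
    intro k
    unfold trm
    refine Measurable.const_mul ?_ _
    refine StronglyMeasurable.measurable ?_
    refine StronglyMeasurable.integral_prod_right'
      (f := fun p : Ω × (Fin k → Sp d) => (∏ i, w p.1 (p.2 i)) * inter q p.2) ?_
    refine Measurable.stronglyMeasurable ?_
    have h1 : Measurable (fun p : Ω × (Fin k → Sp d) => ∏ i, w p.1 (p.2 i)) :=
      Finset.measurable_prod _ fun i _ =>
        hw.comp (measurable_fst.prodMk ((measurable_pi_apply i).comp measurable_snd))
    exact h1.mul ((measurable_inter hq k).comp measurable_snd)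
  refine measurable_of_tendsto_metrizable (f := fun n ω => ∑ k ∈ range n, trm q (w ω) k)
    (fun n => Finset.measurable_sum _ fun k _ => hterm k) ?_
  rw [tendsto_pi_nhds]
  intro ω
  exact (hasSum_ZW (hW ω) hq).tendsto_sum_nat

theorem zc_nonneg (hq : IsPot q r) (Y : Set (Sp d)) (k : ℕ) : 0 ≤ zc q Y k :=
  mul_nonneg (by positivity) (integral_nonneg fun x => inter_nonneg hq x)

theorem zc_zero (q : Sp d → ℝ) (Y : Set (Sp d)) : zc q Y 0 = 1 := by
  unfold zc inter
  have h : (volume : Measure (Fin 0 → Sp d)) Set.univ = 1 := by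
    rw [volume_pi]; exact Measure.pi_empty_univ _
  have h2 : Set.univ.pi (fun _ : Fin 0 => Y) = Set.univ := by
    ext x; simp
  rw [h2]
  simp [measureReal_def, h]

lemma wt_ind {Y : Set (Sp d)} (hY : MeasurableSet Y) (hb : Bornology.IsBounded Y) {s : ℝ}
    (hs : 0 ≤ s) : Wt (fun x => s * Y.indicator 1 x) where
  meas := (measurable_one.indicator hY).const_mul s
  nonneg x := mul_nonneg hs (Set.indicator_nonneg (fun _ _ => zero_le_one) x)
  int := by
    refine Integrable.const_mul ?_ s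
    rw [integrable_indicator_iff hY]
    exact integrableOn_const hb.measure_lt_top.ne

lemma zc_eq {Y : Set (Sp d)} (hY : MeasurableSet Y) (k : ℕ) (s : ℝ) :
    s ^ k * zc q Y k = trm q (fun x => s * Y.indicator 1 x) k := by
  unfold zc trm
  rw [← integral_indicator (MeasurableSet.univ_pi fun _ => hY)]
  rw [mul_left_comm, ← integral_const_mul]
  congr 1
  refine integral_congr_ae (Filter.Eventually.of_forall fun x => ?_)
  simp only
  rw [Finset.prod_mul_distrib, Finset.prod_const, Finset.card_univ, Fintype.card_fin]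
  by_cases hx : x ∈ Set.univ.pi (fun _ : Fin k => Y)
  · rw [Set.indicator_of_mem hx]
    have : ∏ i, Y.indicator (1 : Sp d → ℝ) (x i) = 1 := by
      refine Finset.prod_eq_one fun i _ => ?_
      rw [Set.indicator_of_mem (hx i (Set.mem_univ i))]
      rfl
    rw [this, mul_one]
  · rw [Set.indicator_of_notMem hx]
    have : ∃ i, x i ∉ Y := by
      by_contra hcon
      push Not at hcon
      exact hx fun i _ => hcon i
    obtain ⟨i, hi⟩ := this
    have : ∏ i, Y.indicator (1 : Sp d → ℝ) (x i) = 0 :=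
      Finset.prod_eq_zero (Finset.mem_univ i) (Set.indicator_of_notMem hi _)
    rw [this]
    ring

lemma zc_eq_one {Y : Set (Sp d)} (hY : MeasurableSet Y) (k : ℕ) :
    zc q Y k = trm q (fun x => 1 * Y.indicator 1 x) k := by
  have := zc_eq (q := q) hY k 1
  rwa [one_pow, one_mul] at this

theorem zc_le (hq : IsPot q r) {Y : Set (Sp d)} (hY : MeasurableSet Y)
    (hb : Bornology.IsBounded Y) (k : ℕ) : zc q Y k ≤ (volume Y).toReal ^ k / k.factorial := by
  rw [zc_eq_one hY]
  refine (trm_le (wt_ind hY hb zero_le_one) hq k).trans_eq ?_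
  congr 2
  simp_rw [one_mul]
  rw [integral_indicator_one hY]
  rfl

lemma norm_term_le (hq : IsPot q r) {Y : Set (Sp d)} (hY : MeasurableSet Y)
    (hb : Bornology.IsBounded Y) (k : ℕ) {z : ℂ} {R : ℝ} (hz : ‖z‖ ≤ R) :
    ‖(zc q Y k : ℂ) * z ^ k‖ ≤ ((volume Y).toReal * R) ^ k / k.factorial := by
  rw [norm_mul, norm_pow, Complex.norm_real, Real.norm_eq_abs, abs_of_nonneg (zc_nonneg hq Y k),
    mul_pow, mul_div_right_comm]
  exact mul_le_mul (zc_le hq hY hb k) (pow_le_pow_left₀ (norm_nonneg _) hz k) (by positivity)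
    (by positivity)

theorem hasSum_Zc (hq : IsPot q r) {Y : Set (Sp d)} (hY : MeasurableSet Y)
    (hb : Bornology.IsBounded Y) (z : ℂ) :
    HasSum (fun k => (zc q Y k : ℂ) * z ^ k) (Zc q Y z) := by
  refine Summable.hasSum ?_
  exact Summable.of_norm_bounded (Real.summable_pow_div_factorial ((volume Y).toReal * ‖z‖))
    fun k => norm_term_le hq hY hb k le_rfl

theorem differentiable_Zc (hq : IsPot q r) {Y : Set (Sp d)} (hY : MeasurableSet Y)
    (hb : Bornology.IsBounded Y) : Differentiable ℂ (Zc q Y) := by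
  intro z
  have h := Complex.differentiableOn_tsum_of_summable_norm
    (F := fun (k : ℕ) (w : ℂ) => (zc q Y k : ℂ) * w ^ k) (U := Metric.ball 0 (‖z‖ + 1))
    (Real.summable_pow_div_factorial ((volume Y).toReal * (‖z‖ + 1)))
    (fun k => (differentiable_id.pow k |>.const_mul _).differentiableOn) Metric.isOpen_ball
    (fun k w hw => norm_term_le hq hY hb k (by
      rw [mem_ball_zero_iff] at hw; exact hw.le))
  exact h.differentiableAt (Metric.isOpen_ball.mem_nhds (by simp))

theorem Zc_ofReal (hq : IsPot q r) {Y : Set (Sp d)} (hY : MeasurableSet Y)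
    (hb : Bornology.IsBounded Y) (s : ℝ) :
    Zc q Y s = (ZW q (fun x => s * Y.indicator 1 x) : ℝ) := by
  have h := hasSum_Zc hq hY hb s
  have h2 : HasSum (fun k => ((trm q (fun x => s * Y.indicator 1 x) k : ℝ) : ℂ)) (Zc q Y s) := by
    refine h.congr_fun ?_ |> fun h => h
    intro k
    rw [← zc_eq hY k s]
    push_cast
    ring
  have h3 : Zc q Y s = ((Zc q Y s).re : ℂ) := by
    have := Complex.hasSum_iff _ _ |>.mp h2
    have him := this.2
    simp only [Complex.ofReal_im] at him
    have := him.unique hasSum_zero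
    exact Complex.ext rfl (by rw [this, Complex.ofReal_im])
  rw [h3]
  congr 1
  have h4 := Complex.hasSum_re h2
  simp only [Complex.ofReal_re] at h4
  exact h4.tsum_eq.symm

theorem deriv_Zc (hq : IsPot q r) {Y : Set (Sp d)} (hY : MeasurableSet Y)
    (hb : Bornology.IsBounded Y) {s : ℝ} (hs : 0 ≤ s) :
    deriv (Zc q Y) s =
      ((∫ x, Y.indicator 1 x * ZW q (fun y => s * Y.indicator 1 y * q (x - y)) : ℝ) : ℂ) := by
  have h := Complex.hasSum_deriv_of_summable_norm
    (F := fun (k : ℕ) (w : ℂ) => (zc q Y k : ℂ) * w ^ k) (U := Metric.ball 0 (‖(s : ℂ)‖ + 1))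
    (z := (s : ℂ))
    (Real.summable_pow_div_factorial ((volume Y).toReal * (‖(s : ℂ)‖ + 1)))
    (fun k => (differentiable_id.pow k |>.const_mul _).differentiableOn) Metric.isOpen_ball
    (fun k w hw => norm_term_le hq hY hb k (by
      rw [mem_ball_zero_iff] at hw; exact hw.le)) (by simp)
  have h1 : Wt (fun x => Y.indicator (1 : Sp d → ℝ) x) := by
    have := wt_ind hY hb zero_le_one
    simpa using this
  have hW := wt_ind hY hb hs
  have h2 := hasSum_dtm hq h1 hW
  have h3 : ∀ k : ℕ, ((k : ℝ) + 1) * zc q Y (k + 1) * s ^ k =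
      dtm q (fun x => Y.indicator 1 x) (fun x => s * Y.indicator 1 x) k := by
    intro k
    rw [dtm_eq hq h1 hW 0, zc_eq_one hY]
    unfold trm
    rw [Nat.factorial_succ]
    push_cast
    have hk : (k.factorial : ℝ) ≠ 0 := by positivity
    have hk1 : (k : ℝ) + 1 ≠ 0 := by positivity
    have h4 : (∫ x : Fin (k + 1) → Sp d, (Y.indicator 1 (x 0) *
        ∏ j ∈ univ.erase 0, s * Y.indicator 1 (x j)) * inter q x) =
        s ^ k * ∫ x : Fin (k + 1) → Sp d, (∏ i, 1 * Y.indicator 1 (x i)) * inter q x := by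
      rw [← integral_const_mul]
      refine integral_congr_ae (Filter.Eventually.of_forall fun x => ?_)
      simp only
      rw [Finset.prod_mul_distrib, Finset.prod_const, Finset.card_erase_of_mem (Finset.mem_univ _),
        Finset.card_univ, Fintype.card_fin, Nat.add_sub_cancel]
      simp_rw [one_mul]
      rw [← Finset.mul_prod_erase univ (fun i => Y.indicator 1 (x i)) (Finset.mem_univ 0)]
      ring
    rw [h4]
    field_simp
  have h5 : HasSum (fun k : ℕ => ((((k : ℝ) + 1) * zc q Y (k + 1) * s ^ k : ℝ) : ℂ))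
      ((∫ x, Y.indicator 1 x * ZW q (fun y => s * Y.indicator 1 y * q (x - y)) : ℝ) : ℂ) := by
    rw [Complex.hasSum_ofReal]
    simp_rw [h3]
    exact h2
  have h6 : HasSum (fun k : ℕ => ((((k : ℝ) + 1) * zc q Y (k + 1) * s ^ k : ℝ) : ℂ))
      (deriv (Zc q Y) s) := by
    have h7 := (hasSum_nat_add_iff' 1).mpr h
    have h8 : (∑ i ∈ range 1, deriv (fun w : ℂ => (zc q Y i : ℂ) * w ^ i) s) = 0 := by
      simp
    rw [h8, sub_zero] at h7
    refine HasSum.congr_fun h7 ?_ |> fun h => h
    intro k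
    rw [deriv_const_mul _ (by fun_prop), deriv_pow_field]
    push_cast
    ring
  exact h6.unique h5

end Expansion

end Pool.Agent.Lib.P8e91ed
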