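import Pool.Agent.Lib.P8e91ed.Algo

/-!
Walks cover connected sets; the family of the ranges of the walks and its encoding.
-/

set_option autoImplicit false

open Finset

noncomputable section

namespace Pool.Agent.Lib.P8e91ed

/-! ### digits -/

lemma exists_digits (b n : ℕ) (a : ℕ → ℕ) (ha : ∀ i < n, a i < b) :
    ∃ x < b ^ n, ∀ i < n, x / b ^ i % b = a i := by
  induction n with
  | zero => exact ⟨0, by simp, by simp⟩
  | succ n ih =>
    obtain ⟨x, hx, hx2⟩ := ih fun i hi => ha i (hi.trans (Nat.lt_succ_self n))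
    have hb : 0 < b := (Nat.zero_le _).trans_lt (ha n (Nat.lt_succ_self n))
    have han := ha n (Nat.lt_succ_self n)
    refine ⟨x + b ^ n * a n, ?_, fun i hi => ?_⟩
    · have h1 : b ^ n * a n + b ^ n ≤ b ^ (n + 1) := by
        rw [pow_succ]
        have : b ^ n * (a n + 1) ≤ b ^ n * b := Nat.mul_le_mul_left _ han
        linarith
      omega
    · rcases (Nat.lt_succ_iff.1 hi).lt_or_eq with h | h
      · obtain ⟨c, rfl⟩ := Nat.exists_eq_add_of_lt h
        have h1 : b ^ (i + c + 1) * a (i + c + 1) = b ^ i * (b * (b ^ c * a (i + c + 1))) := by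
          ring
        rw [h1, Nat.add_mul_div_left _ _ (pow_pos hb i), Nat.add_mul_mod_self_left]
        exact hx2 i h
      · subst h
        rw [Nat.add_mul_div_left _ _ (pow_pos hb i), Nat.div_eq_of_lt hx, zero_add,
          Nat.mod_eq_of_lt han]

lemma exists_mask (A : Finset ℕ) (n : ℕ) :
    ∃ j < 2 ^ n, ∀ t < n, (j.testBit t = true ↔ t ∈ A) := by
  obtain ⟨j, hj, hj2⟩ := exists_digits 2 n (fun t => if t ∈ A then 1 else 0) (by
    intro i _
    split_ifs <;> norm_num)
  refine ⟨j, hj, fun t ht => ?_⟩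
  rw [Nat.testBit_eq_decide_div_mod_eq, hj2 t ht]
  by_cases h : t ∈ A <;> simp [h]

/-! ### walks -/

theorem walk_cover {α : Type*} [DecidableEq α] {adj : α → α → Prop} (hrefl : ∀ a, adj a a)
    (hsymm : ∀ a b, adj a b → adj b a) {X : Finset α} (hX : X.Nonempty) (hc : Conn adj X)
    {T : ℕ} (hT : 2 * X.card ≤ T + 2) :
    ∃ w : ℕ → α, (∀ t, adj (w t) (w (t + 1))) ∧ (range (T + 1)).image w = X ∧
      ∀ t, w t ∈ X := by
  have key : ∀ k, 1 ≤ k → k ≤ X.card → ∃ Y, Y ⊆ X ∧ Y.card = k ∧ ∃ w : ℕ → α,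
      (∀ t, adj (w t) (w (t + 1))) ∧ (∀ t, w t ∈ Y) ∧ (range (2 * k - 1)).image w = Y := by
    intro k hk
    induction k, hk using Nat.le_induction with
    | base =>
      intro _
      obtain ⟨a, ha⟩ := hX
      exact ⟨{a}, by simpa using ha, by simp, fun _ => a, fun _ => hrefl a, by simp, by simp⟩
    | succ k hk ih =>
      intro hkX
      obtain ⟨Y, hYX, hYc, w, hw1, hw2, hw3⟩ := ih (by omega)
      have hYne : Y.Nonempty := card_pos.1 (by omega)
      have hYX' : Y ≠ X := by rintro rfl; omega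
      obtain ⟨a, haY, b, hb, hab⟩ := hc Y hYX hYne hYX'
      rw [mem_sdiff] at hb
      obtain ⟨t0, ht0, hwt0⟩ := mem_image.1 (by rw [hw3]; exact haY : a ∈ (range (2 * k - 1)).image w)
      have ht0' := mem_range.1 ht0
      refine ⟨insert b Y, insert_subset hb.1 hYX, by rw [card_insert_of_notMem hb.2, hYc],
        fun t => if t ≤ t0 then w t else if t = t0 + 1 then b else w (t - 2), ?_, ?_, ?_⟩
      · intro t
        dsimp only
        rcases lt_trichotomy t t0 with h | h | h
        · rw [if_pos h.le, if_pos (by omega)]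
          exact hw1 t
        · subst h
          rw [if_pos le_rfl, if_neg (by omega), if_pos rfl, hwt0]
          exact hab
        · rw [if_neg (by omega), if_neg (by omega : ¬ t + 1 ≤ t0), if_neg (by omega : ¬ t + 1 = t0 + 1)]
          by_cases h2 : t = t0 + 1
          · rw [if_pos h2, h2]
            have : t0 + 1 + 1 - 2 = t0 := by omega
            rw [this, hwt0]
            exact hsymm _ _ hab
          · rw [if_neg h2]
            have : t + 1 - 2 = t - 2 + 1 := by omega
            rw [this]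
            exact hw1 _
      · intro t
        dsimp only
        split_ifs
        · exact mem_insert_of_mem (hw2 t)
        · exact mem_insert_self _ _
        · exact mem_insert_of_mem (hw2 _)
      · ext y
        rw [mem_image, mem_insert]
        constructor
        · rintro ⟨t, _, rfl⟩
          split_ifs
          · exact Or.inr (hw2 t)
          · exact Or.inl rfl
          · exact Or.inr (hw2 _)
        · rintro (rfl | hy)
          · refine ⟨t0 + 1, mem_range.2 (by omega), ?_⟩
            rw [if_neg (by omega), if_pos rfl]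
          · rw [← hw3, mem_image] at hy
            obtain ⟨t1, ht1, rfl⟩ := hy
            have ht1' := mem_range.1 ht1
            by_cases h : t1 ≤ t0
            · exact ⟨t1, mem_range.2 (by omega), by rw [if_pos h]⟩
            · refine ⟨t1 + 2, mem_range.2 (by omega), ?_⟩
              rw [if_neg (by omega), if_neg (by omega)]
              rfl
  obtain ⟨Y, hYX, hYc, w, hw1, hw2, hw3⟩ := key X.card (card_pos.2 hX) le_rfl
  have hY : Y = X := eq_of_subset_of_card_le hYX hYc.ge
  subst hY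
  refine ⟨w, hw1, ?_, hw2⟩
  apply Subset.antisymm
  · intro y hy
    obtain ⟨t, _, rfl⟩ := mem_image.1 hy
    exact hw2 t
  · conv_lhs => rw [← hw3]
    have hpos := card_pos.2 hX
    exact image_subset_image (range_subset_range.2 (by omega))

/-! ### the family -/

/-- the family of the ranges of the walks -/
def fam (I : Inst) : Finset (Finset (Fin I.d → ℤ)) :=
  open Classical in I.canon.image fun x => (range (I.T + 1)).image (I.cel x)

lemma same_iff (I : Inst) (x t y u : ℕ) : I.same x t y u ↔ I.cel x t = I.cel y u := by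
  unfold Inst.same Inst.cel
  constructor
  · intro h
    funext i
    have h1 := h i (mem_range.2 i.2)
    have h2 : ((I.Xc x t i : ℤ)) + I.R * u = I.Xc y u i + I.R * t := by exact_mod_cast h1
    linarith
  · intro h i hi
    have h1 := congrFun h ⟨i, mem_range.1 hi⟩
    simp only at h1
    have h2 : ((I.Xc x t i : ℤ)) + I.R * u = I.Xc y u i + I.R * t := by linarith
    exact_mod_cast h2

lemma sameSet_iff (I : Inst) (x y : ℕ) : I.sameSet x y ↔
    (range (I.T + 1)).image (I.cel x) = (range (I.T + 1)).image (I.cel y) := by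
  unfold Inst.sameSet
  simp only [same_iff]
  constructor
  · rintro ⟨h1, h2⟩
    apply Subset.antisymm
    · intro c hc
      obtain ⟨t, ht, rfl⟩ := mem_image.1 hc
      obtain ⟨u, hu, h⟩ := h1 t ht
      exact mem_image.2 ⟨u, hu, h.symm⟩
    · intro c hc
      obtain ⟨u, hu, rfl⟩ := mem_image.1 hc
      obtain ⟨t, ht, h⟩ := h2 u hu
      exact mem_image.2 ⟨t, ht, h⟩
  · intro h
    constructor
    · intro t ht
      have h1 : I.cel x t ∈ (range (I.T + 1)).image (I.cel y) := by
        rw [← h]; exact mem_image_of_mem _ ht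
      obtain ⟨u, hu, h2⟩ := mem_image.1 h1
      exact ⟨u, hu, h2.symm⟩
    · intro u hu
      have h1 : I.cel y u ∈ (range (I.T + 1)).image (I.cel x) := by
        rw [h]; exact mem_image_of_mem _ hu
      obtain ⟨t, ht, h2⟩ := mem_image.1 h1
      exact ⟨t, ht, h2⟩

lemma mem_canon (I : Inst) (x : ℕ) : x ∈ I.canon ↔ x < I.nx ∧ I.okc x ∧
    ∀ y < x, I.okc y → ¬ I.sameSet x y := by
  unfold Inst.canon
  simp only [mem_filter, mem_range]

lemma mem_fam_iff (I : Inst) (X : Finset (Fin I.d → ℤ)) : X ∈ fam I ↔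
    ∃ x ∈ I.canon, (range (I.T + 1)).image (I.cel x) = X := by
  unfold fam
  rw [mem_image]

lemma cel_mem_box (I : Inst) {x t : ℕ} (hx : I.okc x) (ht : t ∈ range (I.T + 1)) :
    I.cel x t ∈ boxCells I.d I.N := by
  unfold boxCells
  rw [Fintype.mem_piFinset]
  intro i
  obtain ⟨h1, h2⟩ := hx t ht i (mem_range.2 i.2)
  rw [mem_Ico]
  unfold Inst.cel
  have h3 : (I.R : ℤ) * t ≤ I.Xc x t i := by exact_mod_cast h1
  have h4 : (I.Xc x t i : ℤ) < 2 * I.N + I.R * t := by exact_mod_cast h2
  constructor <;> linarith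

theorem fam_subset (I : Inst) (hN : 1 ≤ I.N) : ∀ X ∈ fam I, X ⊆ boxCells I.d I.N := by
  intro X hX
  obtain ⟨x, hx, rfl⟩ := (mem_fam_iff I X).1 hX
  have hok := ((mem_canon I x).1 hx).2.1
  intro c hc
  obtain ⟨t, ht, rfl⟩ := mem_image.1 hc
  exact cel_mem_box I hok ht

theorem fam_card (I : Inst) : (fam I).card ≤ I.nx := by
  unfold fam
  refine card_image_le.trans ?_
  have h : I.canon ⊆ range I.nx := fun x hx => mem_range.2 ((mem_canon I x).1 hx).1
  exact (card_le_card h).trans (by rw [card_range])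

/-- a code for every walk -/
lemma exists_code (I : Inst) {w : ℕ → Fin I.d → ℤ} (hw : ∀ t, cadj I.R (w t) (w (t + 1)))
    (hbox : ∀ t, w t ∈ boxCells I.d I.N) :
    ∃ x < I.nx, ∀ t ≤ I.T, ∀ i : Fin I.d, (I.Xc x t i : ℤ) = w t i + I.N + I.R * t := by
  have hb : ∀ t (i : Fin I.d), -(I.N : ℤ) ≤ w t i ∧ w t i < I.N := by
    intro t i
    have := hbox t
    unfold boxCells at this
    rw [Fintype.mem_piFinset] at this
    exact mem_Ico.1 (this i)
  obtain ⟨P, hP, hP2⟩ := exists_digits (2 * I.N) I.d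
    (fun i => if h : i < I.d then (w 0 ⟨i, h⟩ + I.N).toNat else 0) (by
      intro i hi
      rw [dif_pos hi]
      have := hb 0 ⟨i, hi⟩
      omega)
  have hE : ∀ t', ∃ E < (2 * I.R + 1) ^ I.d, ∀ i < I.d, E / (2 * I.R + 1) ^ i % (2 * I.R + 1) =
      if h : i < I.d then (w (t' + 1) ⟨i, h⟩ - w t' ⟨i, h⟩ + I.R).toNat else 0 := by
    intro t'
    apply exists_digits
    intro i hi
    rw [dif_pos hi]
    have := abs_le.1 (hw t' ⟨i, hi⟩)
    omega
  choose E hE1 hE2 using hE
  have hze : 0 < I.ze := pow_pos (by omega) _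
  obtain ⟨x1, hx1, hx2⟩ := exists_digits I.ze I.T E fun i _ => hE1 i
  refine ⟨x1 + I.ze ^ I.T * P, ?_, ?_⟩
  · unfold Inst.nx
    have h1 : I.ze ^ I.T * (P + 1) ≤ I.ze ^ I.T * (2 * I.N) ^ I.d := Nat.mul_le_mul_left _ hP
    have h2 : (2 * I.N) ^ I.d * I.ze ^ I.T = I.ze ^ I.T * (2 * I.N) ^ I.d := mul_comm _ _
    rw [h2]
    linarith
  · intro t ht i
    unfold Inst.Xc
    have h1 : (x1 + I.ze ^ I.T * P) / I.ze ^ I.T = P := by
      rw [Nat.add_mul_div_left _ _ (pow_pos hze _), Nat.div_eq_of_lt hx1, zero_add]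
    rw [h1, hP2 i i.2, dif_pos i.2]
    have h2 : ∀ t' ∈ range t, (x1 + I.ze ^ I.T * P) / I.ze ^ t' % I.ze / (2 * I.R + 1) ^ (i : ℕ) %
        (2 * I.R + 1) = (w (t' + 1) i - w t' i + I.R).toNat := by
      intro t' ht'
      have ht'' := mem_range.1 ht'
      have h3 : t' < I.T := lt_of_lt_of_le ht'' ht
      have h4 : (x1 + I.ze ^ I.T * P) / I.ze ^ t' % I.ze = x1 / I.ze ^ t' % I.ze := by
        have h5 : I.ze ^ I.T * P = I.ze ^ t' * (I.ze * (I.ze ^ (I.T - t' - 1) * P)) := by
          have h6 : I.T = t' + (1 + (I.T - t' - 1)) := by omega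
          conv_lhs => rw [h6]
          rw [pow_add, pow_add, pow_one]
          ring
        rw [h5, Nat.add_mul_div_left _ _ (pow_pos hze _), Nat.add_mul_mod_self_left]
      rw [h4, hx2 t' h3, hE2 t' i i.2, dif_pos i.2]
    rw [sum_congr rfl h2]
    push_cast
    have h7 : ∀ t' : ℕ, ((w (t' + 1) i - w t' i + I.R).toNat : ℤ) =
        w (t' + 1) i - w t' i + I.R := by
      intro t'
      have := abs_le.1 (hw t' i)
      exact Int.toNat_of_nonneg (by omega)
    have h8 : ((w 0 i + I.N).toNat : ℤ) = w 0 i + I.N := by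
      have := hb 0 i
      exact Int.toNat_of_nonneg (by omega)
    have h9 : ∑ t' ∈ range t, ((w (t' + 1) i - w t' i + I.R).toNat : ℤ) =
        w t i - w 0 i + I.R * t := by
      simp only [h7]
      rw [sum_add_distrib, sum_range_sub (fun t' => w t' i), sum_const, card_range, nsmul_eq_mul]
      ring
    have h10 : (((w 0 ⟨(i : ℕ), i.2⟩ + I.N).toNat : ℕ) : ℤ) = w 0 i + I.N := h8
    rw [h9, h10]
    ring

theorem mem_fam (I : Inst) (hN : 1 ≤ I.N) (X : Finset (Fin I.d → ℤ))
    (hX : X ⊆ boxCells I.d I.N) (hne : X.Nonempty) (hT : 2 * X.card ≤ I.T + 2)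
    (hc : Conn (cadj I.R) X) : X ∈ fam I := by
  obtain ⟨w, hw1, hw2, hw3⟩ := walk_cover (adj := cadj I.R) (fun a i => by simp)
    (fun a b h i => by rw [abs_sub_comm]; exact h i) hne hc hT
  obtain ⟨x, hx, hx2⟩ := exists_code I hw1 fun t => hX (hw3 t)
  have hcel : ∀ t ∈ range (I.T + 1), I.cel x t = w t := by
    intro t ht
    funext i
    unfold Inst.cel
    rw [hx2 t (Nat.lt_succ_iff.1 (mem_range.1 ht)) i]
    ring
  have hok : I.okc x := by
    intro t ht i hi
    have h1 := hx2 t (Nat.lt_succ_iff.1 (mem_range.1 ht)) ⟨i, mem_range.1 hi⟩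
    have h2 := hX (hw3 t)
    unfold boxCells at h2
    rw [Fintype.mem_piFinset] at h2
    have h3 := mem_Ico.1 (h2 ⟨i, mem_range.1 hi⟩)
    simp only at h1
    constructor
    · have : ((I.R * t : ℕ) : ℤ) ≤ I.Xc x t i := by push_cast; linarith
      exact_mod_cast this
    · have : (I.Xc x t i : ℤ) < ((2 * I.N + I.R * t : ℕ) : ℤ) := by push_cast; linarith
      exact_mod_cast this
  have hrng : (range (I.T + 1)).image (I.cel x) = X := by
    rw [← hw2]
    exact image_congr fun t ht => hcel t ht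
  classical
  have hex : ∃ y, I.okc y ∧ (range (I.T + 1)).image (I.cel y) = X := ⟨x, hok, hrng⟩
  rw [mem_fam_iff]
  refine ⟨Nat.find hex, ?_, (Nat.find_spec hex).2⟩
  rw [mem_canon]
  refine ⟨(Nat.find_min' hex ⟨hok, hrng⟩).trans_lt hx, (Nat.find_spec hex).1, ?_⟩
  intro y hy hoky hs
  rw [sameSet_iff] at hs
  exact Nat.find_min hex hy ⟨hoky, by rw [← hs]; exact (Nat.find_spec hex).2⟩

/-! ### masks -/

lemma mem_times (I : Inst) (j t : ℕ) : t ∈ I.times j ↔ t < I.T + 1 ∧ j.testBit t = true := by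
  unfold Inst.times
  rw [mem_filter, mem_range]

lemma mem_masks (I : Inst) (x j : ℕ) : j ∈ I.masks x ↔ j < 2 ^ (I.T + 1) ∧
    ∀ t < I.T + 1, j.testBit t = true → I.fv x t := by
  unfold Inst.masks
  simp only [mem_filter, mem_range]

/-- the first visits -/
def FV (I : Inst) (x : ℕ) : Finset ℕ :=
  open Classical in (range (I.T + 1)).filter fun t => I.fv x t

lemma mem_FV (I : Inst) (x t : ℕ) : t ∈ FV I x ↔ t < I.T + 1 ∧ I.fv x t := by
  unfold FV
  simp only [mem_filter, mem_range]

lemma card_FV (I : Inst) (x : ℕ) : (FV I x).card = I.nfv x := rfl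

lemma injOn_FV (I : Inst) (x : ℕ) : Set.InjOn (I.cel x) (FV I x) := by
  intro t ht u hu h
  have ht' := (mem_FV I x t).1 ht
  have hu' := (mem_FV I x u).1 hu
  rcases lt_trichotomy t u with h1 | h1 | h1
  · exact absurd ((same_iff I x t x u).2 h) (hu'.2 t (mem_range.2 h1))
  · exact h1
  · exact absurd ((same_iff I x u x t).2 h.symm) (ht'.2 u (mem_range.2 h1))

lemma image_FV (I : Inst) (x : ℕ) :
    (FV I x).image (I.cel x) = (range (I.T + 1)).image (I.cel x) := by
  classical
  apply Subset.antisymm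
  · apply image_subset_image
    intro t ht
    exact mem_range.2 ((mem_FV I x t).1 ht).1
  · intro c hc
    obtain ⟨t, ht, rfl⟩ := mem_image.1 hc
    have hex : ∃ u, I.cel x u = I.cel x t := ⟨t, rfl⟩
    refine mem_image.2 ⟨Nat.find hex, (mem_FV I x _).2 ⟨?_, ?_⟩, Nat.find_spec hex⟩
    · exact (Nat.find_min' hex rfl).trans_lt (mem_range.1 ht)
    · intro u hu hs
      rw [same_iff] at hs
      exact Nat.find_min hex (mem_range.1 hu) (hs.trans (Nat.find_spec hex))

lemma times_subset_FV (I : Inst) {x j : ℕ} (hj : j ∈ I.masks x) : I.times j ⊆ FV I x := by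
  intro t ht
  have h1 := (mem_times I j t).1 ht
  exact (mem_FV I x t).2 ⟨h1.1, ((mem_masks I x j).1 hj).2 t h1.1 h1.2⟩

theorem injOn_cel (I : Inst) {x j : ℕ} (hx : x ∈ I.canon) (hj : j ∈ I.masks x) :
    Set.InjOn (I.cel x) (I.times j) :=
  (injOn_FV I x).mono (times_subset_FV I hj)

lemma sum_masks (I : Inst) (x : ℕ) (g : Finset (Fin I.d → ℤ) → ℝ) :
    ∑ j ∈ I.masks x, (-1 : ℝ) ^ (I.nfv x - cnt j (I.T + 1)) * g ((I.times j).image (I.cel x)) =
      ∑ Y ∈ ((range (I.T + 1)).image (I.cel x)).powerset,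
        (-1 : ℝ) ^ (((range (I.T + 1)).image (I.cel x)).card - Y.card) * g Y := by
  rw [← image_FV]
  refine sum_bij (fun j _ => (I.times j).image (I.cel x)) ?_ ?_ ?_ ?_
  · intro j hj
    exact mem_powerset.2 (image_subset_image (times_subset_FV I hj))
  · intro j1 hj1 j2 hj2 h
    have h1 : I.times j1 = I.times j2 := by
      ext t
      constructor
      · intro ht
        have h2 : I.cel x t ∈ (I.times j2).image (I.cel x) := by
          rw [← h]; exact mem_image_of_mem _ ht
        obtain ⟨u, hu, h3⟩ := mem_image.1 h2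
        have := injOn_FV I x (times_subset_FV I hj2 hu) (times_subset_FV I hj1 ht) h3
        rwa [← this]
      · intro ht
        have h2 : I.cel x t ∈ (I.times j1).image (I.cel x) := by
          rw [h]; exact mem_image_of_mem _ ht
        obtain ⟨u, hu, h3⟩ := mem_image.1 h2
        have := injOn_FV I x (times_subset_FV I hj1 hu) (times_subset_FV I hj2 ht) h3
        rwa [← this]
    apply Nat.eq_of_testBit_eq
    intro t
    by_cases ht : t < I.T + 1
    · have h2 : t ∈ I.times j1 ↔ t ∈ I.times j2 := by rw [h1]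
      rw [mem_times, mem_times] at h2
      rw [Bool.eq_iff_iff]
      tauto
    · have h2 : 2 ^ (I.T + 1) ≤ 2 ^ t := Nat.pow_le_pow_right (by norm_num) (not_lt.1 ht)
      rw [Nat.testBit_lt_two_pow (((mem_masks I x j1).1 hj1).1.trans_le h2),
        Nat.testBit_lt_two_pow (((mem_masks I x j2).1 hj2).1.trans_le h2)]
  · intro Y hY
    rw [mem_powerset] at hY
    obtain ⟨j, hj, hj2⟩ := exists_mask ((FV I x).filter fun t => I.cel x t ∈ Y) (I.T + 1)
    refine ⟨j, ?_, ?_⟩
    · rw [mem_masks]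
      refine ⟨hj, fun t ht hb => ?_⟩
      have := (mem_filter.1 ((hj2 t ht).1 hb)).1
      exact ((mem_FV I x t).1 this).2
    · ext c
      rw [mem_image]
      constructor
      · rintro ⟨t, ht, rfl⟩
        have h1 := (mem_times I j t).1 ht
        exact (mem_filter.1 ((hj2 t h1.1).1 h1.2)).2
      · intro hc
        obtain ⟨t, ht, rfl⟩ := mem_image.1 (hY hc)
        have h1 := (mem_FV I x t).1 ht
        exact ⟨t, (mem_times I j t).2 ⟨h1.1, (hj2 t h1.1).2 (mem_filter.2 ⟨ht, hc⟩)⟩, rfl⟩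
  · intro j hj
    congr 2
    rw [card_image_of_injOn (injOn_FV I x), card_FV,
      card_image_of_injOn ((injOn_FV I x).mono (times_subset_FV I hj))]
    rfl

theorem sum_fam (I : Inst) (g : Finset (Fin I.d → ℤ) → ℝ) :
    ∑ x ∈ I.canon, ∑ j ∈ I.masks x, (-1 : ℝ) ^ (I.nfv x - cnt j (I.T + 1)) *
        g ((I.times j).image (I.cel x)) =
      ∑ X ∈ fam I, ∑ Y ∈ X.powerset, (-1 : ℝ) ^ (X.card - Y.card) * g Y := by
  unfold fam
  rw [sum_image]
  · exact sum_congr rfl fun x _ => sum_masks I x g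
  · intro x hx y hy h
    have hx' := (mem_canon I x).1 hx
    have hy' := (mem_canon I y).1 hy
    rcases lt_trichotomy x y with h1 | h1 | h1
    · exact absurd ((sameSet_iff I y x).2 h.symm) (hy'.2.2 x h1 hx'.2.1)
    · exact h1
    · exact absurd ((sameSet_iff I x y).2 h) (hx'.2.2 y h1 hy'.2.1)

end Pool.Agent.Lib.P8e91ed
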