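import Pool.Agent.Lib.P8e91ed.Taylor

/-!
Module Interp: interpolation of the logarithm of an entire function along a polynomial map.
-/

set_option autoImplicit false

open Finset Filter Topology

noncomputable section

namespace Pool.Agent.Lib.P8e91ed

theorem tc_polynomial (p : Polynomial ℂ) (n : ℕ) : tc (fun s => p.eval s) n = p.coeff n := by
  refine tc_of_hasSum (z := fun k => p.coeff k) (fun s => ?_) n
  rw [Polynomial.eval_eq_sum_range]
  refine hasSum_sum_of_ne_finset_zero (fun k hk => ?_)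
  rw [Polynomial.coeff_eq_zero_of_natDegree_lt (by simpa using hk), zero_mul]

/-- the core of the module: Taylor coefficients of `log Z ∘ P` -/
theorem tc_log_comp {z : ℕ → ℝ} {Z : ℂ → ℂ} (hz0 : z 0 = 1)
    (hZ : ∀ s, HasSum (fun k => (z k : ℂ) * s ^ k) (Z s)) (p : Polynomial ℂ)
    (hp0 : p.coeff 0 = 0) {lg : ℂ → ℂ} (hlg0 : lg 0 = 0)
    (hlg : ∀ᶠ t in 𝓝 (0 : ℂ), HasDerivAt lg
      (deriv Z (p.eval t) * (Polynomial.derivative p).eval t / Z (p.eval t)) t)
    (m : ℕ) {j : ℕ} (hj : j ≤ m) :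
    tc lg j = (∑ n ∈ Icc 1 m, Polynomial.C ((ell z n / n : ℝ) : ℂ) * p ^ n).coeff j := by
  set Q : Polynomial ℂ := ∑ n ∈ Icc 1 m, Polynomial.C ((ell z n / n : ℝ) : ℂ) * p ^ n with hQ
  have hZd : Differentiable ℂ Z := differentiable_of_hasSum hZ
  have hZ0 : Z 0 = 1 := by
    have := tc_of_hasSum hZ 0
    rw [tc_zero, hz0] at this; simpa using this
  have hdZ : Differentiable ℂ (deriv Z) := (hZd.contDiff (n := 2)).differentiable_deriv_two
  have hp00 : p.eval 0 = 0 := by rw [← Polynomial.coeff_zero_eq_eval_zero, hp0]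
  -- the function R
  set U : ℂ → ℂ := fun u => deriv Z u / Z u with hU
  have hUan : AnalyticAt ℂ U 0 := by
    refine (hdZ.analyticAt 0).div (hZd.analyticAt 0) ?_
    rw [hZ0]; exact one_ne_zero
  set W : ℂ → ℂ := fun u => ∑ i ∈ range m, (ell z (i + 1) : ℂ) * u ^ i with hW
  have hWsum : ∀ s, HasSum (fun k => (if k < m then (ell z (k + 1) : ℂ) else 0) * s ^ k) (W s) := by
    intro s
    have h3 : W s = ∑ k ∈ range m, (if k < m then (ell z (k + 1) : ℂ) else 0) * s ^ k :=
      Finset.sum_congr rfl fun k hk => by rw [if_pos (Finset.mem_range.1 hk)]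
    rw [h3]
    refine hasSum_sum_of_ne_finset_zero (fun k hk => ?_)
    rw [if_neg (by simpa using hk), zero_mul]
  have hWan : AnalyticAt ℂ W 0 := (differentiable_of_hasSum hWsum).analyticAt 0
  set R : ℂ → ℂ := fun u => U u - W u with hR
  have hRan : AnalyticAt ℂ R 0 := hUan.sub hWan
  have hRtc : ∀ i < m, tc R i = 0 := by
    intro i hi
    have h1 : tc (fun s => s * U s) (i + 1) = (ell z (i + 1) : ℂ) := by
      have hf : AnalyticAt ℂ (fun s => s * U s) 0 := analyticAt_id.mul hUan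
      refine tc_ell hz0 hZ hf ?_ (i + 1)
      have : ∀ᶠ s in 𝓝 (0 : ℂ), Z s ≠ 0 :=
        (hZd 0).continuousAt.eventually_ne (by rw [hZ0]; exact one_ne_zero)
      filter_upwards [this] with s hs
      simp only [hU]; field_simp
    rw [tc_id_mul hUan, if_neg (Nat.succ_ne_zero i), Nat.add_sub_cancel] at h1
    rw [hR, tc_sub hUan hWan, h1, tc_of_hasSum hWsum, if_pos hi, sub_self]
  obtain ⟨g, hg, hRg⟩ := order_of_tc_eq_zero hRan hRtc
  -- p = X * p1
  obtain ⟨p1, hp1⟩ : Polynomial.X ∣ p := Polynomial.X_dvd_iff.2 hp0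
  have hpan : AnalyticAt ℂ (fun t => p.eval t) 0 := p.differentiable.analyticAt 0
  have hp1an : AnalyticAt ℂ (fun t => p1.eval t) 0 := p1.differentiable.analyticAt 0
  have hpdan : AnalyticAt ℂ (fun t => (Polynomial.derivative p).eval t) 0 :=
    (Polynomial.derivative p).differentiable.analyticAt 0
  have hQan : AnalyticAt ℂ (fun t => Q.eval t) 0 := Q.differentiable.analyticAt 0
  have hQd : ∀ t, (Polynomial.derivative Q).eval t =
      (Polynomial.derivative p).eval t * W (p.eval t) := by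
    intro t
    have h1 : (Polynomial.derivative Q).eval t = ∑ n ∈ Icc 1 m, ((ell z n / n : ℝ) : ℂ) *
        ((n : ℂ) * p.eval t ^ (n - 1) * (Polynomial.derivative p).eval t) := by
      rw [hQ, Polynomial.derivative_sum, Polynomial.eval_finsetSum]
      refine Finset.sum_congr rfl fun n _ => ?_
      rw [Polynomial.derivative_C_mul, Polynomial.derivative_pow]
      simp
    rw [h1]
    simp only [hW]
    rw [Finset.mul_sum]
    refine Finset.sum_nbij' (fun n => n - 1) (fun i => i + 1) ?_ ?_ ?_ ?_ ?_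
    · intro n hn
      have := Finset.mem_Icc.1 hn
      exact Finset.mem_range.2 (by omega)
    · intro i hi
      have := Finset.mem_range.1 hi
      exact Finset.mem_Icc.2 (by omega)
    · intro n hn
      have := Finset.mem_Icc.1 hn
      change n - 1 + 1 = n
      omega
    · intro i _; rfl
    · intro n hn
      have h2 := Finset.mem_Icc.1 hn
      have h3 : n - 1 + 1 = n := by omega
      have h4 : (n : ℂ) ≠ 0 := by exact_mod_cast (by omega : n ≠ 0)
      rw [h3]
      push_cast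
      field_simp
  have hQan' : ∀ t, HasDerivAt (fun t => Q.eval t) ((Polynomial.derivative Q).eval t) t :=
    fun t => Q.hasDerivAt t
  have hlgan : AnalyticAt ℂ lg 0 := by
    obtain ⟨s, hs, hs2⟩ := Filter.eventually_iff_exists_mem.1 hlg
    exact DifferentiableOn.analyticAt (s := s)
      (fun t ht => (hs2 t ht).differentiableAt.differentiableWithinAt) hs
  have hDan : AnalyticAt ℂ (fun t => lg t - Q.eval t) 0 := hlgan.sub hQan
  have hfac : ∀ᶠ t in 𝓝 (0 : ℂ), deriv (fun t => lg t - Q.eval t) t =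
      t ^ m * ((Polynomial.derivative p).eval t * (p1.eval t) ^ m * g (p.eval t)) := by
    have hcont : Tendsto (fun t => p.eval t) (𝓝 0) (𝓝 0) := by
      have := hpan.continuousAt.tendsto
      rwa [hp00] at this
    filter_upwards [hlg, hcont.eventually hRg] with t ht1 ht2
    have h1 : HasDerivAt (fun t => lg t - Q.eval t) _ t := ht1.sub (hQan' t)
    rw [h1.deriv, hQd]
    have h2 : p.eval t = t * p1.eval t := by rw [hp1]; simp
    have h3 : deriv Z (p.eval t) * (Polynomial.derivative p).eval t / Z (p.eval t) -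
        (Polynomial.derivative p).eval t * W (p.eval t) =
        (Polynomial.derivative p).eval t * R (p.eval t) := by
      simp only [hR, hU]; ring
    rw [h3, ht2]
    rw [show p.eval t ^ m = t ^ m * p1.eval t ^ m by rw [h2, mul_pow]]
    ring
  have hgp : AnalyticAt ℂ (fun t => g (p.eval t)) 0 := by
    refine AnalyticAt.fun_comp ?_ hpan
    rw [hp00]; exact hg
  have hzero : ∀ i < m, tc (deriv (fun t => lg t - Q.eval t)) i = 0 := by
    intro i hi
    exact tc_eq_zero_of_order hDan.deriv ((hpdan.mul (hp1an.pow m)).mul hgp) hfac hi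
  have hmain : tc (fun t => lg t - Q.eval t) j = 0 := by
    rcases Nat.eq_zero_or_pos j with hj0 | hj0
    · subst hj0
      rw [tc_zero, hlg0, ← Polynomial.coeff_zero_eq_eval_zero, hQ]
      rw [Polynomial.finsetSum_coeff, Finset.sum_eq_zero, sub_zero]
      intro n hn
      have h2 := Finset.mem_Icc.1 hn
      rw [Polynomial.coeff_C_mul, Polynomial.coeff_zero_eq_eval_zero, Polynomial.eval_pow, hp00,
        zero_pow (by omega), mul_zero]
    · have h1 := hzero (j - 1) (by omega)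
      rw [tc_deriv] at h1
      have h2 : j - 1 + 1 = j := by omega
      rw [h2] at h1
      rcases mul_eq_zero.1 h1 with h3 | h3
      · exfalso
        have : ((j - 1 : ℕ) : ℂ) + 1 ≠ 0 := by exact_mod_cast Nat.succ_ne_zero (j - 1)
        exact this h3
      · exact h3
  rw [tc_sub hlgan hQan, tc_polynomial] at hmain
  exact sub_eq_zero.1 hmain

theorem interp {lam0 δ : ℝ} (h0 : 0 < lam0) (hδ : 0 < δ) {D : ℕ} {A : ℕ → ℕ} {β : ℝ}
    (hA : 0 < ∑ i ∈ Icc 1 D, A i) (hβ : 1 < β)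
    (hmap : ∀ z : ℂ, ‖z‖ ≤ β →
        (lam0 : ℂ) * ((∑ i ∈ Icc 1 D, (A i : ℂ) * z ^ i) / ∑ i ∈ Icc 1 D, (A i : ℂ)) ∈
          nearSeg lam0 δ) :
    ∃ C : ℝ, 0 ≤ C ∧ ∀ (z : ℕ → ℝ) (Z : ℂ → ℂ) (V : ℝ), z 0 = 1 → (∀ k, 0 ≤ z k) →
      (∀ s, HasSum (fun k => (z k : ℂ) * s ^ k) (Z s)) → 0 ≤ V →
      (∀ s ∈ nearSeg lam0 δ, Z s ≠ 0 ∧ ‖deriv Z s‖ ≤ V * ‖Z s‖) →
      ∀ m : ℕ, |Real.log (Z lam0).re -
        ∑ n ∈ Icc 1 m, (cmb D A m n : ℝ) / ((∑ i ∈ Icc 1 D, A i : ℕ) : ℝ) ^ n * lam0 ^ n *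
          (ell z n / n)| ≤ C * V * (1 / β) ^ m := by
  set S : ℕ := ∑ i ∈ Icc 1 D, A i with hS
  have hSc : (∑ i ∈ Icc 1 D, (A i : ℂ)) = (S : ℂ) := by rw [hS]; push_cast; rfl
  have hS0 : (S : ℂ) ≠ 0 := by exact_mod_cast hA.ne'
  set qN : Polynomial ℕ := ∑ i ∈ Icc 1 D, Polynomial.C (A i) * Polynomial.X ^ i with hqN
  set q : Polynomial ℂ := qN.map (Nat.castRingHom ℂ) with hq
  have hqeval : ∀ t : ℂ, q.eval t = ∑ i ∈ Icc 1 D, (A i : ℂ) * t ^ i := by
    intro t
    rw [hq, hqN, Polynomial.map_sum, Polynomial.eval_finsetSum]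
    refine Finset.sum_congr rfl fun i _ => ?_
    simp
  set p : Polynomial ℂ := Polynomial.C ((lam0 : ℂ) / S) * q with hp
  have hpeval : ∀ t : ℂ, p.eval t =
      (lam0 : ℂ) * ((∑ i ∈ Icc 1 D, (A i : ℂ) * t ^ i) / ∑ i ∈ Icc 1 D, (A i : ℂ)) := by
    intro t
    rw [hp, Polynomial.eval_mul, Polynomial.eval_C, hqeval, hSc]
    ring
  have hp0 : p.coeff 0 = 0 := by
    rw [Polynomial.coeff_zero_eq_eval_zero, hpeval, Finset.sum_eq_zero]
    · simp
    · intro i hi
      have := Finset.mem_Icc.1 hi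
      rw [zero_pow (by omega), mul_zero]
  have hp1 : p.eval 1 = (lam0 : ℂ) := by
    rw [hpeval]
    simp only [one_pow, mul_one]
    rw [hSc, div_self hS0, mul_one]
  have hβ0 : 0 < β := by linarith
  obtain ⟨M0, hM0⟩ : ∃ M0 : ℝ, ∀ t : ℂ, ‖t‖ ≤ β → ‖(Polynomial.derivative p).eval t‖ ≤ M0 := by
    obtain ⟨M0, hM0⟩ := (isCompact_closedBall (0 : ℂ) β).exists_bound_of_continuousOn
      (f := fun t => (Polynomial.derivative p).eval t)
      (Polynomial.derivative p).continuous.continuousOn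
    exact ⟨M0, fun t ht => hM0 t (by simpa using ht)⟩
  have hM00 : 0 ≤ M0 := (norm_nonneg _).trans (hM0 0 (by simpa using hβ0.le))
  have hβ1 : 0 < 1 - 1 / β := by
    rw [sub_pos, div_lt_one hβ0]; exact hβ
  refine ⟨M0 / (1 - 1 / β), by positivity, ?_⟩
  intro z Z V hz0 hznn hZ hV hnear m
  have hZd : Differentiable ℂ Z := differentiable_of_hasSum hZ
  have hZ0 : Z 0 = 1 := by
    have := tc_of_hasSum hZ 0
    rw [tc_zero, hz0] at this; simpa using this
  have hdZ : Differentiable ℂ (deriv Z) := (hZd.contDiff (n := 2)).differentiable_deriv_two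
  set F : ℂ → ℂ := fun t => Z (p.eval t) with hF
  have hFder : ∀ t, HasDerivAt F (deriv Z (p.eval t) * (Polynomial.derivative p).eval t) t :=
    fun t => (hZd (p.eval t)).hasDerivAt.comp t (p.hasDerivAt t)
  have hFd : Differentiable ℂ F := fun t => (hFder t).differentiableAt
  have hF0 : F 0 = 1 := by
    simp only [hF]
    rw [← Polynomial.coeff_zero_eq_eval_zero, hp0, hZ0]
  have hgood : ∀ t : ℂ, ‖t‖ ≤ β → F t ≠ 0 ∧ ‖deriv Z (p.eval t)‖ ≤ V * ‖F t‖ := by
    intro t ht
    refine hnear (p.eval t) ?_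
    rw [hpeval]; exact hmap t ht
  obtain ⟨lg, hlg0, hlg, hexp⟩ := exists_log hFd
    (fun s hs => (hgood s (by simpa using (Metric.mem_ball.1 hs).le)).1) hβ0 hF0
  have hlg' : ∀ s ∈ Metric.ball (0 : ℂ) β, HasDerivAt lg
      (deriv Z (p.eval s) * (Polynomial.derivative p).eval s / Z (p.eval s)) s := by
    intro s hs
    have := hlg s hs
    rwa [(hFder s).deriv] at this
  have hcoef : ∀ j ≤ m, tc lg j =
      (∑ n ∈ Icc 1 m, Polynomial.C ((ell z n / n : ℝ) : ℂ) * p ^ n).coeff j := fun j hj =>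
    tc_log_comp hz0 hZ p hp0 hlg0
      (Filter.eventually_of_mem (Metric.ball_mem_nhds 0 hβ0) hlg') m hj
  -- Taylor series of lg at 1
  have h1mem : (1 : ℂ) ∈ Metric.ball (0 : ℂ) β := by simpa using hβ
  have hsum : HasSum (fun n => tc lg n) (lg 1) := by
    have hd : DifferentiableOn ℂ lg (Metric.ball 0 β) := fun s hs =>
      (hlg s hs).differentiableAt.differentiableWithinAt
    have := Complex.hasSum_taylorSeries_on_ball hd h1mem
    have e : (fun n => tc lg n) = fun n : ℕ =>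
        ((n.factorial : ℂ))⁻¹ • ((1 : ℂ) - 0) ^ n • iteratedDeriv n lg 0 := by
      funext n
      simp [tc, div_eq_inv_mul]
    rw [e]; exact this
  -- bounds
  set ψ : ℂ → ℂ := fun t =>
    deriv Z (p.eval t) * (Polynomial.derivative p).eval t / Z (p.eval t) with hψ
  have hψd : DiffContOnCl ℂ ψ (Metric.ball 0 β) := by
    refine DifferentiableOn.diffContOnCl ?_
    rw [closure_ball (0 : ℂ) hβ0.ne']
    intro s hs
    have hs' : ‖s‖ ≤ β := by simpa using hs
    refine DifferentiableAt.differentiableWithinAt ?_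
    refine DifferentiableAt.div ?_ (hFd s) (hgood s hs').1
    exact ((hdZ (p.eval s)).comp s p.differentiable.differentiableAt).mul
      (Polynomial.derivative p).differentiable.differentiableAt
  have hψb : ∀ s : ℂ, ‖s‖ = β → ‖ψ s‖ ≤ M0 * V := by
    intro s hs
    have h2 := hgood s hs.le
    have h3 : 0 < ‖Z (p.eval s)‖ := norm_pos_iff.2 h2.1
    rw [hψ]
    simp only
    rw [norm_div, norm_mul, div_le_iff₀ h3]
    calc _ ≤ (V * ‖F s‖) * M0 := mul_le_mul h2.2 (hM0 s hs.le) (norm_nonneg _) (by positivity)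
      _ = M0 * V * ‖Z (p.eval s)‖ := by simp only [hF]; ring
  have hlgder : deriv lg =ᶠ[𝓝 0] ψ :=
    Filter.eventually_of_mem (Metric.ball_mem_nhds 0 hβ0) fun s hs => (hlg' s hs).deriv
  have hbd : ∀ j, ‖tc lg (j + 1)‖ ≤ M0 * V / β ^ j := by
    intro j
    have h2 := tc_deriv lg j
    rw [tc_congr hlgder j] at h2
    have h3 := norm_tc_le hβ0 hψd hψb j
    rw [h2, norm_mul] at h3
    have h4 : (1 : ℝ) ≤ ‖((j : ℂ) + 1)‖ := by
      have : ((j : ℂ) + 1) = ((j + 1 : ℕ) : ℂ) := by push_cast; rfl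
      rw [this, Complex.norm_natCast]
      exact_mod_cast Nat.succ_le_succ (Nat.zero_le j)
    calc ‖tc lg (j + 1)‖ = 1 * ‖tc lg (j + 1)‖ := (one_mul _).symm
      _ ≤ ‖((j : ℂ) + 1)‖ * ‖tc lg (j + 1)‖ := mul_le_mul_of_nonneg_right h4 (norm_nonneg _)
      _ ≤ _ := h3
  have htail : ‖lg 1 - ∑ j ∈ range (m + 1), tc lg j‖ ≤
      M0 / (1 - 1 / β) * V * (1 / β) ^ m := by
    have h2 := (hasSum_nat_add_iff' (m + 1)).2 hsum
    have hr0 : 0 ≤ 1 / β := by positivity
    have hr1 : 1 / β < 1 := by rw [div_lt_one hβ0]; exact hβ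
    have h3 := ((hasSum_geometric_of_lt_one hr0 hr1).mul_left (M0 * V * (1 / β) ^ m))
    have h4 : ‖lg 1 - ∑ j ∈ range (m + 1), tc lg j‖ ≤ M0 * V * (1 / β) ^ m * (1 - 1 / β)⁻¹ := by
      rw [← h2.tsum_eq]
      refine tsum_of_norm_bounded h3 fun j => ?_
      have := hbd (j + m)
      refine this.trans (le_of_eq ?_)
      rw [div_eq_mul_inv, ← inv_pow, ← one_div, pow_add]
      ring
    refine h4.trans (le_of_eq ?_)
    rw [div_eq_mul_inv]; ring
  -- the logarithm
  have hF1 : F 1 = Z lam0 := by simp only [hF, hp1]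
  have hre1 : HasSum (fun k => z k * lam0 ^ k) (Z lam0).re := by
    have := Complex.hasSum_re (hZ lam0)
    have e : (fun k => z k * lam0 ^ k) = fun k => ((z k : ℂ) * (lam0 : ℂ) ^ k).re := by
      funext k
      rw [← Complex.ofReal_pow, ← Complex.ofReal_mul, Complex.ofReal_re]
    rw [e]; exact this
  have him1 : (Z lam0).im = 0 := by
    have h2 := Complex.hasSum_im (hZ lam0)
    have h3 : HasSum (fun _ : ℕ => (0 : ℝ)) (Z lam0).im := by
      have e : (fun _ : ℕ => (0 : ℝ)) = fun k => ((z k : ℂ) * (lam0 : ℂ) ^ k).im := by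
        funext k
        rw [← Complex.ofReal_pow, ← Complex.ofReal_mul, Complex.ofReal_im]
      rw [e]; exact h2
    exact h3.unique hasSum_zero
  have hpos : 0 < (Z lam0).re := by
    have h2 := le_hasSum hre1 0 (fun k _ => mul_nonneg (hznn k) (pow_nonneg h0.le k))
    rw [hz0] at h2
    simp only [pow_zero, mul_one] at h2
    linarith
  have hlog : Real.log (Z lam0).re = (lg 1).re := by
    have h2 : ‖Z lam0‖ = (Z lam0).re := by
      have : Z lam0 = ((Z lam0).re : ℂ) := Complex.ext (by simp) (by simp [him1])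
      rw [this, Complex.norm_real, Real.norm_eq_abs, Complex.ofReal_re, abs_of_pos hpos]
    rw [← h2, ← hF1, ← hexp 1 h1mem, Complex.norm_exp, Real.log_exp]
  -- the finite sum
  have hfinite : ∑ j ∈ range (m + 1), tc lg j =
      ((∑ n ∈ Icc 1 m, (cmb D A m n : ℝ) / ((S : ℕ) : ℝ) ^ n * lam0 ^ n * (ell z n / n) : ℝ) :
        ℂ) := by
    rw [Finset.sum_congr rfl fun j hj => hcoef j (Nat.lt_succ_iff.1 (Finset.mem_range.1 hj))]
    simp only [Polynomial.finsetSum_coeff, Polynomial.coeff_C_mul]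
    rw [Finset.sum_comm]
    push_cast
    refine Finset.sum_congr rfl fun n _ => ?_
    rw [← Finset.mul_sum]
    have h2 : ∀ j, (p ^ n).coeff j = ((lam0 : ℂ) / S) ^ n * (((qN ^ n).coeff j : ℕ) : ℂ) := by
      intro j
      rw [hp, mul_pow, ← Polynomial.C_pow, Polynomial.coeff_C_mul, hq, ← Polynomial.map_pow,
        Polynomial.coeff_map]
      simp
    simp only [h2]
    rw [← Finset.mul_sum, ← Nat.cast_sum]
    have h3 : ∑ j ∈ range (m + 1), (qN ^ n).coeff j = cmb D A m n := by rw [cmb]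
    rw [h3, div_pow]
    ring
  rw [hlog]
  have h5 : (lg 1).re - ∑ n ∈ Icc 1 m, (cmb D A m n : ℝ) / ((S : ℕ) : ℝ) ^ n * lam0 ^ n *
      (ell z n / n) = (lg 1 - ∑ j ∈ range (m + 1), tc lg j).re := by
    rw [hfinite, Complex.sub_re, Complex.ofReal_re]
  rw [h5]
  exact (Complex.abs_re_le_norm _).trans htail

end Pool.Agent.Lib.P8e91ed
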