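import Pool.Agent.Lib.P8e91ed.Taylor

/-!
Module LogPert: perturbation of the coefficients of the logarithmic derivative.
-/

set_option autoImplicit false

open Finset Filter Topology

noncomputable section

namespace Pool.Agent.Lib.P8e91ed

theorem lp_mem_nearSeg {lam0 δ ρ : ℝ} (h0 : 0 ≤ lam0) (hρ : ρ < δ) {s : ℂ} (hs : ‖s‖ ≤ ρ) :
    s ∈ nearSeg lam0 δ :=
  ⟨0, ⟨le_rfl, h0⟩, by simpa using lt_of_le_of_lt hs hρ⟩

theorem lower_bound {Z : ℂ → ℂ} (hZ : Differentiable ℂ Z) (hZ0 : Z 0 = 1) {R V : ℝ} (hR : 0 < R)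
    (hne : ∀ s ∈ Metric.ball (0 : ℂ) R, Z s ≠ 0 ∧ ‖deriv Z s‖ ≤ V * ‖Z s‖) {s : ℂ}
    (hs : s ∈ Metric.ball (0 : ℂ) R) : Real.exp (-(V * ‖s‖)) ≤ ‖Z s‖ := by
  obtain ⟨lg, hlg0, hlg, hexp⟩ := exists_log hZ (fun s hs => (hne s hs).1) hR hZ0
  have h1 : ‖lg s - lg 0‖ ≤ V * ‖s - 0‖ := by
    refine Convex.norm_image_sub_le_of_norm_hasDerivWithin_le
      (f' := fun s => deriv Z s / Z s) (s := Metric.ball (0 : ℂ) R)
      (fun x hx => (hlg x hx).hasDerivWithinAt) (fun x hx => ?_) (convex_ball 0 R)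
      (Metric.mem_ball_self hR) hs
    have h2 := hne x hx
    have h3 : 0 < ‖Z x‖ := norm_pos_iff.2 h2.1
    rw [norm_div, div_le_iff₀ h3]
    exact h2.2
  rw [hlg0, sub_zero, sub_zero] at h1
  rw [← hexp s hs, Complex.norm_exp]
  refine Real.exp_le_exp.2 ?_
  have h4 := Complex.abs_re_le_norm (lg s)
  have h5 := neg_abs_le (lg s).re
  linarith

theorem ell_congr {z z' : ℕ → ℝ} {n : ℕ} (h : ∀ k ≤ n, z k = z' k) : ell z n = ell z' n := by
  induction n using Nat.strong_induction_on with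
  | _ n ih =>
    rw [ell, ell, h n le_rfl]
    congr 1
    refine Finset.sum_congr rfl fun j _ => ?_
    rw [ih j j.2 (fun k hk => h k (by have := j.2; omega)), h (n - j) (Nat.sub_le _ _)]

theorem sum_geo_le {ρ : ℝ} (h0 : 0 ≤ ρ) (h1 : ρ ≤ 1 / 2) (n : ℕ) :
    ∑ k ∈ range (n + 1), ρ ^ k ≤ 2 := by
  calc ∑ k ∈ range (n + 1), ρ ^ k ≤ ∑ k ∈ range (n + 1), (1 / 2 : ℝ) ^ k :=
        Finset.sum_le_sum fun k _ => pow_le_pow_left₀ h0 h1 k
    _ ≤ 2 := by
      exact sum_geometric_two_le (n + 1)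

theorem sum_geo_le' {ρ : ℝ} (h0 : 0 ≤ ρ) (h1 : ρ ≤ 1 / 2) (n : ℕ) :
    ∑ k ∈ range (n + 1), (k : ℝ) * ρ ^ (k - 1) ≤ 4 := by
  have h : ∀ n : ℕ, ∑ k ∈ range (n + 1), (k : ℝ) * (1 / 2 : ℝ) ^ (k - 1) =
      4 - (n + 2) * (1 / 2) ^ n * 2 := by
    intro n
    induction n with
    | zero => norm_num
    | succ n ih =>
      rw [Finset.sum_range_succ, ih, Nat.add_sub_cancel]
      push_cast
      ring
  calc _ ≤ ∑ k ∈ range (n + 1), (k : ℝ) * (1 / 2 : ℝ) ^ (k - 1) :=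
        Finset.sum_le_sum fun k _ =>
          mul_le_mul_of_nonneg_left (pow_le_pow_left₀ h0 h1 _) (Nat.cast_nonneg k)
    _ ≤ 4 := by
      rw [h n]
      have : (0 : ℝ) ≤ (n + 2) * (1 / 2) ^ n * 2 := by positivity
      linarith

theorem log_pert {lam0 δ : ℝ} (h0 : 0 ≤ lam0) (hδ : 0 < δ) :
    ∃ K : ℝ, 1 ≤ K ∧ ∀ (z z' : ℕ → ℝ) (Z : ℂ → ℂ) (V τ : ℝ), z 0 = 1 → z' 0 = 1 →
      (∀ s, HasSum (fun k => (z k : ℂ) * s ^ k) (Z s)) → 0 ≤ V → 0 ≤ τ →
      (∀ s ∈ nearSeg lam0 δ, Z s ≠ 0 ∧ ‖deriv Z s‖ ≤ V * ‖Z s‖) →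
      ∀ n : ℕ, (∀ k ≤ n, |z' k - z k| ≤ τ) → K ^ n * Real.exp (K * V) * τ ≤ 1 →
        |ell z' n - ell z n| ≤ K ^ n * Real.exp (K * V) * τ := by
  obtain ⟨ρ, hρ0, hρδ, hρ2⟩ : ∃ ρ : ℝ, 0 < ρ ∧ 2 * ρ ≤ δ ∧ ρ ≤ 1 / 2 :=
    ⟨min (δ / 2) (1 / 2), by positivity, by
      have := min_le_left (δ / 2) (1 / 2 : ℝ); linarith, min_le_right _ _⟩
  refine ⟨4 / ρ, by rw [le_div_iff₀ hρ0]; linarith, ?_⟩
  intro z z' Z V τ hz0 hz0' hZ hV hτ hnear n hτn hsmall
  rcases Nat.eq_zero_or_pos n with hn | hn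
  · subst hn
    have h1 : ell z' 0 = 0 := by rw [ell]; simp
    have h2 : ell z 0 = 0 := by rw [ell]; simp
    rw [h1, h2]; simp only [sub_self, abs_zero]; positivity
  have hK8 : (8 : ℝ) ≤ 4 / ρ := by rw [le_div_iff₀ hρ0]; linarith
  -- the modified function
  set z2 : ℕ → ℝ := fun k => if k ≤ n then z' k else z k with hz2
  have hz20 : z2 0 = 1 := by simp [hz2, hz0']
  have hell : ell z' n = ell z2 n := ell_congr fun k hk => by simp [hz2, hk]
  set P : ℂ → ℂ := fun s => ∑ k ∈ range (n + 1), ((z' k - z k : ℝ) : ℂ) * s ^ k with hP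
  set Z2 : ℂ → ℂ := fun s => Z s + P s with hZ2
  have hZ2sum : ∀ s, HasSum (fun k => (z2 k : ℂ) * s ^ k) (Z2 s) := by
    intro s
    have h1 : HasSum (fun k => if k ∈ range (n + 1) then ((z' k - z k : ℝ) : ℂ) * s ^ k else 0)
        (P s) := by
      have h3 : P s = ∑ k ∈ range (n + 1),
          (if k ∈ range (n + 1) then ((z' k - z k : ℝ) : ℂ) * s ^ k else 0) :=
        Finset.sum_congr rfl fun k hk => by rw [if_pos hk]
      rw [h3]
      exact hasSum_sum_of_ne_finset_zero (fun k hk => if_neg hk)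
    have h2 := (hZ s).add h1
    have h3 : (fun k => (z2 k : ℂ) * s ^ k) = fun k => (z k : ℂ) * s ^ k +
        (if k ∈ range (n + 1) then ((z' k - z k : ℝ) : ℂ) * s ^ k else 0) := by
      funext k
      by_cases hk : k ≤ n
      · have : k ∈ range (n + 1) := Finset.mem_range.2 (by omega)
        simp only [hz2, if_pos hk, if_pos this]
        push_cast; ring
      · have : k ∉ range (n + 1) := fun h => hk (by have := Finset.mem_range.1 h; omega)
        simp only [hz2, if_neg hk, if_neg this]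
        ring
    rw [h3]
    exact h2
  have hZd : Differentiable ℂ Z := differentiable_of_hasSum hZ
  have hZ2d : Differentiable ℂ Z2 := differentiable_of_hasSum hZ2sum
  have hZ0 : Z 0 = 1 := by
    have := tc_of_hasSum hZ 0
    rw [tc_zero, hz0] at this; simpa using this
  have hPd : ∀ s, HasDerivAt P (∑ k ∈ range (n + 1), ((z' k - z k : ℝ) : ℂ) *
      ((k : ℂ) * s ^ (k - 1))) s := by
    intro s
    have := HasDerivAt.fun_sum (u := range (n + 1))
      (A := fun k (s : ℂ) => ((z' k - z k : ℝ) : ℂ) * s ^ k)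
      (A' := fun k => ((z' k - z k : ℝ) : ℂ) * ((k : ℂ) * s ^ (k - 1))) (x := s)
      (fun k _ => (hasDerivAt_pow k s).const_mul _)
    exact this
  have hnear' : ∀ s ∈ Metric.ball (0 : ℂ) (2 * ρ), Z s ≠ 0 ∧ ‖deriv Z s‖ ≤ V * ‖Z s‖ := by
    intro s hs
    refine hnear s ⟨0, ⟨le_rfl, h0⟩, ?_⟩
    have : ‖s‖ < 2 * ρ := by simpa using hs
    simpa using lt_of_lt_of_le this hρδ
  have hlow : ∀ s : ℂ, ‖s‖ ≤ ρ → Real.exp (-(V * ρ)) ≤ ‖Z s‖ := by
    intro s hs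
    refine le_trans (Real.exp_le_exp.2 ?_)
      (lower_bound hZd hZ0 (by linarith : (0:ℝ) < 2 * ρ) hnear' (s := s)
        (by simpa using (by linarith : ‖s‖ < 2 * ρ)))
    have := mul_le_mul_of_nonneg_left hs hV
    linarith
  have hPb : ∀ s : ℂ, ‖s‖ ≤ ρ → ‖P s‖ ≤ 2 * τ := by
    intro s hs
    calc ‖P s‖ ≤ ∑ k ∈ range (n + 1), ‖((z' k - z k : ℝ) : ℂ) * s ^ k‖ := norm_sum_le _ _
      _ ≤ ∑ k ∈ range (n + 1), τ * ρ ^ k := by
        refine Finset.sum_le_sum fun k hk => ?_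
        rw [norm_mul, norm_pow, Complex.norm_real, Real.norm_eq_abs]
        exact mul_le_mul (hτn k (by have := Finset.mem_range.1 hk; omega))
          (pow_le_pow_left₀ (norm_nonneg _) hs k) (by positivity) hτ
      _ = τ * ∑ k ∈ range (n + 1), ρ ^ k := by rw [Finset.mul_sum]
      _ ≤ τ * 2 := mul_le_mul_of_nonneg_left (sum_geo_le hρ0.le hρ2 n) hτ
      _ = 2 * τ := by ring
  have hPb' : ∀ s : ℂ, ‖s‖ ≤ ρ → ‖deriv P s‖ ≤ 4 * τ := by
    intro s hs
    rw [(hPd s).deriv]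
    calc _ ≤ ∑ k ∈ range (n + 1), ‖((z' k - z k : ℝ) : ℂ) * ((k : ℂ) * s ^ (k - 1))‖ :=
          norm_sum_le _ _
      _ ≤ ∑ k ∈ range (n + 1), τ * ((k : ℝ) * ρ ^ (k - 1)) := by
        refine Finset.sum_le_sum fun k hk => ?_
        rw [norm_mul, norm_mul, norm_pow, Complex.norm_real, Real.norm_eq_abs,
          Complex.norm_natCast]
        refine mul_le_mul (hτn k (by have := Finset.mem_range.1 hk; omega)) ?_
          (by positivity) hτ
        exact mul_le_mul_of_nonneg_left (pow_le_pow_left₀ (norm_nonneg _) hs _)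
          (Nat.cast_nonneg k)
      _ = τ * ∑ k ∈ range (n + 1), (k : ℝ) * ρ ^ (k - 1) := by rw [Finset.mul_sum]
      _ ≤ τ * 4 := mul_le_mul_of_nonneg_left (sum_geo_le' hρ0.le hρ2 n) hτ
      _ = 4 * τ := by ring
  -- smallness
  have hKn : (8 : ℝ) ≤ (4 / ρ) ^ n :=
    calc (8 : ℝ) ≤ 4 / ρ := hK8
      _ = (4 / ρ) ^ 1 := (pow_one _).symm
      _ ≤ (4 / ρ) ^ n := pow_le_pow_right₀ (by linarith) hn
  have hexpV : Real.exp (V * ρ) ≤ Real.exp (4 / ρ * V) := by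
    refine Real.exp_le_exp.2 ?_
    have h1 : V * ρ ≤ V * (4 / ρ) := mul_le_mul_of_nonneg_left (by linarith) hV
    linarith
  have hτsmall : 8 * τ ≤ Real.exp (-(V * ρ)) := by
    have h1 : 8 * Real.exp (V * ρ) * τ ≤ 1 := by
      refine le_trans (mul_le_mul_of_nonneg_right ?_ hτ) hsmall
      exact mul_le_mul hKn hexpV (Real.exp_pos _).le (by positivity)
    rw [Real.exp_neg, ← one_div, le_div_iff₀ (Real.exp_pos _)]
    linarith
  have hlow2 : ∀ s : ℂ, ‖s‖ ≤ ρ → Real.exp (-(V * ρ)) / 2 ≤ ‖Z2 s‖ := by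
    intro s hs
    have h1 : ‖Z s‖ - ‖P s‖ ≤ ‖Z2 s‖ := by
      have := norm_sub_norm_le (Z s) (-P s)
      rw [norm_neg, sub_neg_eq_add] at this
      exact this
    have h2 := hlow s hs
    have h3 := hPb s hs
    linarith
  -- the logarithmic derivatives
  set L : ℂ → ℂ := fun s => s * deriv Z s / Z s with hL
  set L2 : ℂ → ℂ := fun s => s * deriv Z2 s / Z2 s with hL2
  have hZne : ∀ s : ℂ, ‖s‖ ≤ ρ → Z s ≠ 0 := fun s hs =>
    norm_pos_iff.1 (lt_of_lt_of_le (Real.exp_pos _) (hlow s hs))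
  have hZ2ne : ∀ s : ℂ, ‖s‖ ≤ ρ → Z2 s ≠ 0 := fun s hs =>
    norm_pos_iff.1 (lt_of_lt_of_le (by positivity) (hlow2 s hs))
  have hdZ : Differentiable ℂ (deriv Z) :=
    (hZd.contDiff (n := 2)).differentiable_deriv_two
  have hdZ2 : Differentiable ℂ (deriv Z2) :=
    (hZ2d.contDiff (n := 2)).differentiable_deriv_two
  have hLan : ∀ s : ℂ, ‖s‖ ≤ ρ → DifferentiableAt ℂ L s := fun s hs =>
    ((differentiableAt_id.mul (hdZ s)).div (hZd s) (hZne s hs))
  have hL2an : ∀ s : ℂ, ‖s‖ ≤ ρ → DifferentiableAt ℂ L2 s := fun s hs =>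
    ((differentiableAt_id.mul (hdZ2 s)).div (hZ2d s) (hZ2ne s hs))
  have hball : ∀ s ∈ Metric.ball (0 : ℂ) ρ, ‖s‖ ≤ ρ := fun s hs => by
    have : ‖s‖ < ρ := by simpa using hs
    exact this.le
  have hLa : AnalyticAt ℂ L 0 := by
    refine DifferentiableOn.analyticAt (s := Metric.ball 0 ρ)
      (fun s hs => (hLan s (hball s hs)).differentiableWithinAt) (Metric.ball_mem_nhds 0 hρ0)
  have hL2a : AnalyticAt ℂ L2 0 := by
    refine DifferentiableOn.analyticAt (s := Metric.ball 0 ρ)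
      (fun s hs => (hL2an s (hball s hs)).differentiableWithinAt) (Metric.ball_mem_nhds 0 hρ0)
  have e1 : tc L n = (ell z n : ℂ) := by
    refine tc_ell hz0 hZ hLa ?_ n
    filter_upwards [Metric.ball_mem_nhds (0 : ℂ) hρ0] with s hs
    have := hZne s (hball s hs)
    simp only [hL]; field_simp
  have e2 : tc L2 n = (ell z2 n : ℂ) := by
    refine tc_ell hz20 hZ2sum hL2a ?_ n
    filter_upwards [Metric.ball_mem_nhds (0 : ℂ) hρ0] with s hs
    have := hZ2ne s (hball s hs)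
    simp only [hL2]; field_simp
  have hdiff : tc (fun s => L2 s - L s) n = ((ell z2 n - ell z n : ℝ) : ℂ) := by
    rw [tc_sub hL2a hLa, e1, e2]; push_cast; ring
  have hdc : DiffContOnCl ℂ (fun s => L2 s - L s) (Metric.ball 0 ρ) := by
    refine DifferentiableOn.diffContOnCl ?_
    rw [closure_ball (0 : ℂ) hρ0.ne']
    intro s hs
    have hs' : ‖s‖ ≤ ρ := by simpa using hs
    exact ((hL2an s hs').sub (hLan s hs')).differentiableWithinAt
  have hbound : ∀ s : ℂ, ‖s‖ = ρ → ‖L2 s - L s‖ ≤ 4 * τ * Real.exp V := by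
    intro s hs
    have hs' : ‖s‖ ≤ ρ := hs.le
    have hder : deriv Z2 s = deriv Z s + deriv P s := by
      have := (hZd s).hasDerivAt.add (hPd s)
      rw [(hPd s).deriv]
      exact this.deriv
    have hid : L2 s - L s = s * (deriv P s * Z s - deriv Z s * P s) / (Z s * Z2 s) := by
      have a := hZne s hs'
      have b := hZ2ne s hs'
      simp only [hL, hL2]
      rw [hder]
      have hZ2s : Z2 s = Z s + P s := rfl
      rw [hZ2s] at b ⊢
      field_simp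
      ring
    have hZpos : 0 < ‖Z s‖ := norm_pos_iff.2 (hZne s hs')
    have hZ2pos : 0 < ‖Z2 s‖ := norm_pos_iff.2 (hZ2ne s hs')
    rw [hid, norm_div, norm_mul, norm_mul, hs, div_le_iff₀ (mul_pos hZpos hZ2pos)]
    have h1 : ‖deriv P s * Z s - deriv Z s * P s‖ ≤ (4 + 2 * V) * τ * ‖Z s‖ := by
      refine (norm_sub_le _ _).trans ?_
      rw [norm_mul, norm_mul]
      have a1 := mul_le_mul_of_nonneg_right (hPb' s hs') hZpos.le
      have a2 : ‖deriv Z s‖ * ‖P s‖ ≤ V * ‖Z s‖ * (2 * τ) :=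
        mul_le_mul (hnear' s (by
          have : ‖s‖ < 2 * ρ := by linarith
          simpa using this)).2 (hPb s hs') (norm_nonneg _) (by positivity)
      linarith
    have h2 : (1 : ℝ) ≤ 2 * Real.exp (V * ρ) * ‖Z2 s‖ := by
      have a1 := hlow2 s hs'
      have a2 : Real.exp (V * ρ) * Real.exp (-(V * ρ)) = 1 := by
        rw [← Real.exp_add]; simp
      have a3 := mul_le_mul_of_nonneg_left a1 (Real.exp_pos (V * ρ)).le
      nlinarith
    have h3 : 4 + 2 * V ≤ 4 * Real.exp (V / 2) := by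
      have := Real.add_one_le_exp (V / 2)
      linarith
    have h4 : Real.exp (V * ρ) ≤ Real.exp (V / 2) := by
      refine Real.exp_le_exp.2 ?_
      have := mul_le_mul_of_nonneg_left hρ2 hV
      linarith
    have h5 : Real.exp (V / 2) * Real.exp (V / 2) = Real.exp V := by
      rw [← Real.exp_add]; congr 1; ring
    have h6 : 0 ≤ τ * ‖Z s‖ := by positivity
    calc ρ * ‖deriv P s * Z s - deriv Z s * P s‖
        ≤ 1 / 2 * ((4 + 2 * V) * τ * ‖Z s‖) :=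
          mul_le_mul hρ2 h1 (norm_nonneg _) (by norm_num)
      _ ≤ 1 / 2 * (4 * Real.exp (V / 2) * τ * ‖Z s‖) := by
          have := mul_le_mul_of_nonneg_right h3 h6
          linarith
      _ = 2 * Real.exp (V / 2) * (τ * ‖Z s‖) * 1 := by ring
      _ ≤ 2 * Real.exp (V / 2) * (τ * ‖Z s‖) * (2 * Real.exp (V / 2) * ‖Z2 s‖) := by
          refine mul_le_mul_of_nonneg_left (h2.trans ?_) (by positivity)
          have := mul_le_mul_of_nonneg_right h4 hZ2pos.le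
          linarith
      _ = 4 * τ * (Real.exp (V / 2) * Real.exp (V / 2)) * (‖Z s‖ * ‖Z2 s‖) := by ring
      _ = 4 * τ * Real.exp V * (‖Z s‖ * ‖Z2 s‖) := by rw [h5]
  have hfin := norm_tc_le hρ0 hdc hbound n
  rw [hdiff, Complex.norm_real, Real.norm_eq_abs] at hfin
  rw [hell]
  refine hfin.trans ?_
  have h7 : Real.exp V ≤ Real.exp (4 / ρ * V) := by
    refine Real.exp_le_exp.2 ?_
    have := mul_le_mul_of_nonneg_right (by linarith : (1 : ℝ) ≤ 4 / ρ) hV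
    linarith
  have h8 : 4 / ρ ^ n ≤ (4 / ρ) ^ n := by
    rw [div_pow]
    refine div_le_div_of_nonneg_right ?_ (by positivity)
    calc (4 : ℝ) = 4 ^ 1 := by norm_num
      _ ≤ 4 ^ n := pow_le_pow_right₀ (by norm_num) hn
  calc 4 * τ * Real.exp V / ρ ^ n = 4 / ρ ^ n * Real.exp V * τ := by ring
    _ ≤ (4 / ρ) ^ n * Real.exp (4 / ρ * V) * τ := by
      refine mul_le_mul_of_nonneg_right ?_ hτ
      exact mul_le_mul h8 h7 (Real.exp_pos _).le (by positivity)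

end Pool.Agent.Lib.P8e91ed
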