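import Mathlib

/-!
The choice of the constants of the algorithm.
-/

set_option autoImplicit false

open Finset

noncomputable section

namespace Pool.Agent.Lib.P8e91ed

theorem exists_small {x c e : ℝ} (hx : x < 1) (hc : 0 < c) (he : 0 < e) :
    ∃ K : ℕ, c * x ^ K ≤ e := by
  obtain ⟨K, hK⟩ := exists_pow_lt_of_lt_one (div_pos he hc) hx
  refine ⟨K, ?_⟩
  have := (lt_div_iff₀ hc).1 hK
  linarith

theorem two_mul_le_four_pow {N l : ℕ} (hl : 1 ≤ l) (hN : N ≤ 2 ^ l) : 2 * N ≤ 4 ^ l := by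
  have h1 : 2 ≤ 2 ^ l := by
    calc 2 = 2 ^ 1 := by norm_num
      _ ≤ 2 ^ l := Nat.pow_le_pow_right (by norm_num) hl
  calc 2 * N ≤ 2 ^ l * 2 ^ l := Nat.mul_le_mul h1 hN
    _ = 4 ^ l := by rw [← mul_pow]; norm_num

set_option maxHeartbeats 4000000 in
/-- The choice of the constants. -/
theorem consts {β γ Ci Cz lam0 Kl Kt : ℝ} (hβ : 1 < β) (hγ : 0 < γ) (hCi : 0 ≤ Ci) (hCz : 0 ≤ Cz)
    (hlam : 0 ≤ lam0) (hKl : 1 ≤ Kl) (hKt : 1 ≤ Kt) (d ze : ℕ) (hze : 1 ≤ ze) :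
    ∃ K1 K2 K3 : ℕ, ∀ l N M : ℕ, 1 ≤ l → N ≤ 2 ^ l → 1 ≤ M → M ≤ 2 ^ l →
      Kl ^ (K1 * l) * Real.exp (Kl * (Cz * ((2 * (K1 * l) : ℕ) + 1))) *
        (Kt ^ (2 * (K1 * l) + 1 + K1 * l) *
          ((2 : ℝ) ^ (-(γ * (K2 * l : ℕ))) + Kt ^ (K2 * l) * (2 / 2 ^ (K3 * l)))) ≤ 1 ∧
      Ci * (Cz * ((2 * N) ^ d : ℕ)) * (1 / β) ^ (K1 * l) +
        (K1 * l : ℕ) * (1 + lam0) ^ (K1 * l) *
          (((2 * N) ^ d * ze ^ (2 * (K1 * l)) : ℕ) * 2 ^ (2 * (K1 * l) + 1) *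
          (Kl ^ (K1 * l) * Real.exp (Kl * (Cz * ((2 * (K1 * l) : ℕ) + 1))) *
        (Kt ^ (2 * (K1 * l) + 1 + K1 * l) *
          ((2 : ℝ) ^ (-(γ * (K2 * l : ℕ))) + Kt ^ (K2 * l) * (2 / 2 ^ (K3 * l)))))) ≤
        1 / (4 * M) := by
  have hCC : 0 ≤ Ci * Cz := mul_nonneg hCi hCz
  obtain ⟨K1, hK1⟩ := exists_small (x := 1 / β) (c := (1 + Ci * Cz) * 4 ^ d) (e := 1 / 16)
    (by rw [div_lt_one (by linarith)]; exact hβ) (by positivity) (by norm_num)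
  set P : ℝ := Kl ^ K1 * Real.exp (Kl * Cz * (2 * K1 + 1)) * Kt ^ (3 * K1 + 1) with hP
  set G : ℝ := 2 ^ K1 * (1 + lam0) ^ K1 * 4 ^ d * (ze : ℝ) ^ (2 * K1) * 2 ^ (2 * K1 + 1) with hG
  have hKt0 : 0 < Kt := by linarith
  have hKl0 : 0 < Kl := by linarith
  have hze' : (1 : ℝ) ≤ ze := by exact_mod_cast hze
  have hP0 : 0 < P := by positivity
  have hze0 : (0 : ℝ) < ze := by linarith
  have hG0 : 0 < G := by positivity
  have hG1 : 1 ≤ G := by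
    have a1 : (1 : ℝ) ≤ 2 ^ K1 := one_le_pow₀ (by norm_num)
    have a2 : (1 : ℝ) ≤ (1 + lam0) ^ K1 := one_le_pow₀ (by linarith)
    have a3 : (1 : ℝ) ≤ 4 ^ d := one_le_pow₀ (by norm_num)
    have a4 : (1 : ℝ) ≤ (ze : ℝ) ^ (2 * K1) := one_le_pow₀ hze'
    have a5 : (1 : ℝ) ≤ 2 ^ (2 * K1 + 1) := one_le_pow₀ (by norm_num)
    rw [hG]
    exact one_le_mul_of_one_le_of_one_le (one_le_mul_of_one_le_of_one_le
      (one_le_mul_of_one_le_of_one_le (one_le_mul_of_one_le_of_one_le a1 a2) a3) a4) a5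
  obtain ⟨K2, hK2⟩ := exists_small (x := (2 : ℝ) ^ (-γ)) (c := P * G) (e := 1 / 64)
    (Real.rpow_lt_one_of_one_lt_of_neg (by norm_num) (by linarith))
    (by positivity) (by norm_num)
  obtain ⟨K3, hK3⟩ := exists_small (x := (1 / 2 : ℝ)) (c := 2 * (P * G) * Kt ^ K2) (e := 1 / 64)
    (by norm_num) (by positivity) (by norm_num)
  refine ⟨K1, K2, K3, ?_⟩
  intro l N M hl hN hM1 hM
  have hl' : (1 : ℝ) ≤ l := by exact_mod_cast hl
  set S : ℝ := Kl ^ (K1 * l) * Real.exp (Kl * (Cz * ((2 * (K1 * l) : ℕ) + 1))) *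
        (Kt ^ (2 * (K1 * l) + 1 + K1 * l) *
          ((2 : ℝ) ^ (-(γ * (K2 * l : ℕ))) + Kt ^ (K2 * l) * (2 / 2 ^ (K3 * l)))) with hS
  -- the bound of S
  have hx2 : (2 : ℝ) ^ (-(γ * (K2 * l : ℕ))) = (((2 : ℝ) ^ (-γ)) ^ K2) ^ l := by
    rw [← pow_mul, ← Real.rpow_natCast, ← Real.rpow_mul (by norm_num)]
    congr 1
    push_cast
    ring
  have hx3 : Kt ^ (K2 * l) * (2 / 2 ^ (K3 * l)) = 2 * (Kt ^ K2 * (1 / 2) ^ K3) ^ l := by
    rw [mul_pow, ← pow_mul, ← pow_mul, one_div, inv_pow]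
    field_simp
  have hPl : Kl ^ (K1 * l) * Real.exp (Kl * (Cz * ((2 * (K1 * l) : ℕ) + 1))) *
      Kt ^ (2 * (K1 * l) + 1 + K1 * l) ≤ P ^ l := by
    have b1 : Kl ^ (K1 * l) = (Kl ^ K1) ^ l := pow_mul _ _ _
    have b2 : Real.exp (Kl * (Cz * ((2 * (K1 * l) : ℕ) + 1))) ≤
        (Real.exp (Kl * Cz * (2 * K1 + 1))) ^ l := by
      rw [← Real.exp_nat_mul]
      refine Real.exp_le_exp.2 ?_
      push_cast
      have : 0 ≤ Kl * Cz := by positivity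
      nlinarith
    have b3 : Kt ^ (2 * (K1 * l) + 1 + K1 * l) ≤ (Kt ^ (3 * K1 + 1)) ^ l := by
      rw [← pow_mul]
      refine pow_le_pow_right₀ hKt ?_
      calc 2 * (K1 * l) + 1 + K1 * l ≤ 2 * (K1 * l) + l + K1 * l := by omega
        _ = (3 * K1 + 1) * l := by ring
    rw [hP, mul_pow, mul_pow, b1]
    gcongr
  have hSle : S ≤ P ^ l * ((((2 : ℝ) ^ (-γ)) ^ K2) ^ l + 2 * (Kt ^ K2 * (1 / 2) ^ K3) ^ l) := by
    rw [hS, hx2, hx3, ← mul_assoc]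
    exact mul_le_mul_of_nonneg_right hPl (by positivity)
  have hS0 : 0 ≤ S := by positivity
  have hSG : G ^ l * S ≤ 2 * (1 / 64) ^ l := by
    calc G ^ l * S ≤ G ^ l * (P ^ l * ((((2 : ℝ) ^ (-γ)) ^ K2) ^ l +
          2 * (Kt ^ K2 * (1 / 2) ^ K3) ^ l)) := mul_le_mul_of_nonneg_left hSle (by positivity)
      _ = (P * G * ((2 : ℝ) ^ (-γ)) ^ K2) ^ l + 2 * (P * G * (Kt ^ K2 * (1 / 2) ^ K3)) ^ l := by
          simp only [mul_pow]; ring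
      _ ≤ (1 / 64) ^ l + (2 : ℝ) ^ l * (P * G * (Kt ^ K2 * (1 / 2) ^ K3)) ^ l := by
          gcongr
          calc (2 : ℝ) = 2 ^ 1 := by norm_num
            _ ≤ 2 ^ l := pow_le_pow_right₀ (by norm_num) hl
      _ = (1 / 64) ^ l + (2 * (P * G) * Kt ^ K2 * (1 / 2) ^ K3) ^ l := by
          rw [← mul_pow]
          congr 2
          ring
      _ ≤ (1 / 64) ^ l + (1 / 64) ^ l := by
          gcongr
      _ = 2 * (1 / 64) ^ l := by ring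
  have hGl1 : 1 ≤ G ^ l := one_le_pow₀ hG1
  have h64 : (1 / 64 : ℝ) ^ l ≤ 1 / 32 * (1 / 2) ^ l := by
    calc (1 / 64 : ℝ) ^ l = (1 / 32) ^ l * (1 / 2) ^ l := by
          rw [← mul_pow]; norm_num
      _ ≤ (1 / 32) ^ 1 * (1 / 2) ^ l := by
          refine mul_le_mul_of_nonneg_right ?_ (by positivity)
          exact pow_le_pow_of_le_one (by norm_num) (by norm_num) hl
      _ = 1 / 32 * (1 / 2) ^ l := by rw [pow_one]
  have h16 : (1 / 16 : ℝ) ^ l ≤ 1 / 8 * (1 / 2) ^ l := by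
    calc (1 / 16 : ℝ) ^ l = (1 / 8) ^ l * (1 / 2) ^ l := by
          rw [← mul_pow]; norm_num
      _ ≤ (1 / 8) ^ 1 * (1 / 2) ^ l := by
          refine mul_le_mul_of_nonneg_right ?_ (by positivity)
          exact pow_le_pow_of_le_one (by norm_num) (by norm_num) hl
      _ = 1 / 8 * (1 / 2) ^ l := by rw [pow_one]
  have hhalf : (1 / 2 : ℝ) ^ l ≤ 1 := pow_le_one₀ (by norm_num) (by norm_num)
  have hN4 : ((2 * N : ℕ) : ℝ) ≤ 4 ^ l := by exact_mod_cast two_mul_le_four_pow hl hN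
  have hNd : (((2 * N) ^ d : ℕ) : ℝ) ≤ (4 ^ d) ^ l := by
    rw [Nat.cast_pow, ← pow_mul, mul_comm d l, pow_mul]
    gcongr
  constructor
  · calc S ≤ G ^ l * S := le_mul_of_one_le_left hS0 hGl1
      _ ≤ 2 * (1 / 64) ^ l := hSG
      _ ≤ 1 := by linarith
  · have t1 : Ci * (Cz * ((2 * N) ^ d : ℕ)) * (1 / β) ^ (K1 * l) ≤ (1 / 16) ^ l := by
      have c1 : Ci * Cz ≤ (1 + Ci * Cz) ^ l := by
        calc Ci * Cz ≤ (1 + Ci * Cz) ^ 1 := by linarith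
          _ ≤ (1 + Ci * Cz) ^ l := pow_le_pow_right₀ (by linarith) hl
      calc Ci * (Cz * ((2 * N) ^ d : ℕ)) * (1 / β) ^ (K1 * l)
          = (Ci * Cz) * (((2 * N) ^ d : ℕ) : ℝ) * ((1 / β) ^ K1) ^ l := by
            rw [pow_mul]; ring
        _ ≤ (1 + Ci * Cz) ^ l * (4 ^ d) ^ l * ((1 / β) ^ K1) ^ l := by gcongr
        _ = ((1 + Ci * Cz) * 4 ^ d * (1 / β) ^ K1) ^ l := by
            rw [mul_pow, mul_pow]
        _ ≤ (1 / 16) ^ l := by gcongr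
    have t2 : ((K1 * l : ℕ) : ℝ) * (1 + lam0) ^ (K1 * l) *
          (((2 * N) ^ d * ze ^ (2 * (K1 * l)) : ℕ) * 2 ^ (2 * (K1 * l) + 1)) ≤ G ^ l := by
      have c1 : ((K1 * l : ℕ) : ℝ) ≤ (2 ^ K1) ^ l := by
        rw [← pow_mul]
        have : K1 * l ≤ 2 ^ (K1 * l) := (Nat.lt_two_pow_self).le
        exact_mod_cast this
      have c2 : (1 + lam0) ^ (K1 * l) = ((1 + lam0) ^ K1) ^ l := pow_mul _ _ _
      have c3 : (ze : ℝ) ^ (2 * (K1 * l)) = ((ze : ℝ) ^ (2 * K1)) ^ l := by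
        rw [← pow_mul]; congr 1; ring
      have c4 : (2 : ℝ) ^ (2 * (K1 * l) + 1) ≤ (2 ^ (2 * K1 + 1)) ^ l := by
        rw [← pow_mul]
        refine pow_le_pow_right₀ (by norm_num) ?_
        calc 2 * (K1 * l) + 1 ≤ 2 * (K1 * l) + l := by omega
          _ = (2 * K1 + 1) * l := by ring
      have c5 : (((2 * N) ^ d * ze ^ (2 * (K1 * l)) : ℕ) : ℝ) =
          (((2 * N) ^ d : ℕ) : ℝ) * (ze : ℝ) ^ (2 * (K1 * l)) := by push_cast; ring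
      rw [c5, c2, c3]
      calc ((K1 * l : ℕ) : ℝ) * ((1 + lam0) ^ K1) ^ l *
            ((((2 * N) ^ d : ℕ) : ℝ) * ((ze : ℝ) ^ (2 * K1)) ^ l * 2 ^ (2 * (K1 * l) + 1))
          ≤ (2 ^ K1) ^ l * ((1 + lam0) ^ K1) ^ l *
            ((4 ^ d) ^ l * ((ze : ℝ) ^ (2 * K1)) ^ l * (2 ^ (2 * K1 + 1)) ^ l) := by
            gcongr
        _ = G ^ l := by
            rw [hG]
            simp only [mul_pow]
            ring
    have hM' : (1 / 2 : ℝ) ^ l ≤ 1 / M := by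
      rw [one_div, inv_pow, one_div]
      have : (M : ℝ) ≤ 2 ^ l := by exact_mod_cast hM
      have hM0 : (0 : ℝ) < M := by exact_mod_cast hM1
      exact inv_anti₀ hM0 this
    have hfin : (1 : ℝ) / (4 * M) = 1 / 4 * (1 / M) := by
      rw [one_div_mul_one_div]
    have t3 : ((K1 * l : ℕ) : ℝ) * (1 + lam0) ^ (K1 * l) *
          ((((2 * N) ^ d * ze ^ (2 * (K1 * l)) : ℕ) * 2 ^ (2 * (K1 * l) + 1)) * S) ≤
          2 * (1 / 64) ^ l := by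
      rw [← mul_assoc]
      exact (mul_le_mul_of_nonneg_right t2 hS0).trans hSG
    have hpos : (0 : ℝ) ≤ (1 / 2) ^ l := by positivity
    rw [hfin]
    refine (add_le_add t1 t3).trans ?_
    linarith

end Pool.Agent.Lib.P8e91ed
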