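import Pool.Agent.Lib.P8e91ed.Algo

/-!
The path sum formula for the coefficients of the logarithmic derivative, and the power
coefficients written with codes.
-/

set_option autoImplicit false

open Finset

noncomputable section

namespace Pool.Agent.Lib.P8e91ed

/-! ### last set bit -/

lemma prv_congr {y y' t : ℕ} (h : ∀ s < t, y.testBit s = y'.testBit s) : prv y t = prv y' t := by
  unfold prv
  refine sum_congr rfl fun s hs => ?_
  have hs' := mem_range.1 hs
  rw [h s hs']
  congr 1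
  refine propext (and_congr Iff.rfl ?_)
  refine forall_congr' fun u => forall_congr' fun hu => ?_
  rw [h u (mem_range.1 hu)]

lemma prv_succ_false {y N : ℕ} (h : y.testBit N = false) : prv y (N + 1) = prv y N := by
  unfold prv
  rw [sum_range_succ, if_neg (by simp [h]), add_zero]
  refine sum_congr rfl fun s hs => ?_
  congr 1
  refine propext (and_congr Iff.rfl ⟨fun h1 u hu => h1 u ?_, fun h1 u hu hsu => ?_⟩)
  · exact mem_range.2 ((mem_range.1 hu).trans (Nat.lt_succ_self N))
  · rcases (Nat.lt_succ_iff.1 (mem_range.1 hu)).lt_or_eq with h2 | h2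
    · exact h1 u (mem_range.2 h2) hsu
    · rw [h2]; exact h

lemma prv_succ_true {y N : ℕ} (h : y.testBit N = true) : prv y (N + 1) = N := by
  unfold prv
  rw [sum_range_succ, if_pos]
  · rw [sum_eq_zero, zero_add]
    intro s hs
    rw [if_neg]
    rintro ⟨_, h2⟩
    have := h2 N (mem_range.2 (Nat.lt_succ_self N)) (mem_range.1 hs)
    rw [h] at this
    exact absurd this (by simp)
  · refine ⟨h, fun u hu hsu => ?_⟩
    have := mem_range.1 hu
    omega

/-! ### sums over the codes of paths -/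

section PathSum

variable (c : ℕ → ℕ → ℤ) (D : ℤ)

/-- the weight of the steps of the path `y` strictly before `N` -/
def wtB (y N : ℕ) : ℤ := ∏ t ∈ Ico 1 N, if y.testBit t = true then c t (prv y t) else D

/-- sum over the paths from `0` to `n` -/
def pathS (n : ℕ) : ℤ :=
  ∑ y ∈ (range (2 ^ n)).filter (fun y => y.testBit 0 = true), wtB c D y n * c n (prv y n)

/-- sum over the paths with all points before the last one below `N` -/
def pathQ (n N : ℕ) : ℤ :=
  ∑ y ∈ (range (2 ^ N)).filter (fun y => y.testBit 0 = true), wtB c D y N * c n (prv y N)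

lemma wtB_congr {y y' N : ℕ} (h : ∀ s < N, y.testBit s = y'.testBit s) :
    wtB c D y N = wtB c D y' N := by
  unfold wtB
  refine prod_congr rfl fun t ht => ?_
  have ht' := mem_Ico.1 ht
  rw [h t ht'.2, prv_congr fun s hs => h s (hs.trans ht'.2)]

lemma pathQ_one (n : ℕ) : pathQ c D n 1 = c n 0 := by
  unfold pathQ
  have h : (range (2 ^ 1)).filter (fun y => y.testBit 0 = true) = {1} := by decide
  rw [h, sum_singleton]
  have h1 : prv 1 1 = 0 := prv_succ_true (by decide)
  rw [h1]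
  simp [wtB]

lemma pathQ_succ (n : ℕ) {N : ℕ} (hN : 1 ≤ N) :
    pathQ c D n (N + 1) = D * pathQ c D n N + pathS c D N * c n N := by
  unfold pathQ pathS
  have h0 : 2 ^ (N + 1) = 2 ^ N + 2 ^ N := by ring
  rw [h0, sum_filter, sum_range_add, ← sum_filter]
  congr 1
  · rw [mul_sum]
    refine sum_congr rfl fun y hy => ?_
    have hy1 : y < 2 ^ N := mem_range.1 (mem_filter.1 hy).1
    have hb : y.testBit N = false := Nat.testBit_lt_two_pow hy1
    have h1 : wtB c D y (N + 1) = wtB c D y N * D := by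
      unfold wtB
      rw [prod_Ico_succ_top hN, if_neg (by simp [hb])]
    rw [h1, prv_succ_false hb]
    ring
  · rw [sum_filter, sum_mul]
    refine sum_congr rfl fun y hy => ?_
    have hy1 : y < 2 ^ N := mem_range.1 hy
    have hlt : ∀ s < N, (2 ^ N + y).testBit s = y.testBit s := fun s hs =>
      Nat.testBit_two_pow_add_gt hs y
    have hb : (2 ^ N + y).testBit N = true := by
      rw [Nat.testBit_two_pow_add_eq, Nat.testBit_lt_two_pow hy1]; rfl
    rw [hlt 0 hN]
    by_cases hy0 : y.testBit 0 = true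
    · rw [if_pos hy0, if_pos hy0, prv_succ_true hb]
      congr 1
      have h1 : wtB c D (2 ^ N + y) (N + 1) = wtB c D (2 ^ N + y) N * c N (prv (2 ^ N + y) N) := by
        unfold wtB
        rw [prod_Ico_succ_top hN, if_pos hb]
      rw [h1, wtB_congr c D hlt, prv_congr hlt]
    · rw [if_neg hy0, if_neg hy0, zero_mul]

lemma pathQ_eq (n : ℕ) {N : ℕ} (hN : 1 ≤ N) :
    pathQ c D n N = D ^ (N - 1) * c n 0 + ∑ s ∈ Ico 1 N, D ^ (N - 1 - s) * (pathS c D s * c n s) := by
  induction N, hN using Nat.le_induction with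
  | base => rw [pathQ_one]; simp
  | succ N hN ih =>
    rw [pathQ_succ c D n hN, ih, sum_Ico_succ_top hN, mul_add, mul_sum, ← mul_assoc, ← pow_succ']
    have h1 : N - 1 + 1 = N := by omega
    have h2 : N + 1 - 1 = N := by omega
    rw [h1, h2, Nat.sub_self, pow_zero, one_mul, ← add_assoc]
    congr 2
    refine sum_congr rfl fun s hs => ?_
    have hs' := mem_Ico.1 hs
    rw [← mul_assoc, ← pow_succ']
    congr 2
    omega

lemma pathS_eq {n : ℕ} (hn : 1 ≤ n) :
    pathS c D n = D ^ (n - 1) * c n 0 + ∑ s ∈ Ico 1 n, D ^ (n - 1 - s) * (pathS c D s * c n s) :=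
  pathQ_eq c D n hn

end PathSum

lemma lhat_eq_pathS (I : Inst) (x j : ℕ) {n : ℕ} (hn : 1 ≤ n) :
    I.lhat x j n = pathS (I.cc x j) I.DD n := by
  unfold Inst.lhat pathS
  refine sum_congr rfl fun y _ => ?_
  have h1 : Icc 1 n = insert n (Ico 1 n) := by
    ext t; simp only [mem_Icc, mem_insert, mem_Ico]; omega
  rw [h1, prod_insert (by simp), if_pos (Or.inl rfl), mul_comm]
  congr 1
  unfold wtB
  refine prod_congr rfl fun t ht => ?_
  have ht' := mem_Ico.1 ht
  have : t ≠ n := by omega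
  simp only [this, false_or]

lemma ell_zero (z : ℕ → ℝ) : ell z 0 = 0 := by
  rw [ell]
  simp

theorem lhat_eq (I : Inst) (x j : ℕ) {z : ℕ → ℝ} {n : ℕ} (hn : 1 ≤ n)
    (hz : ∀ k, 1 ≤ k → k ≤ n → (I.zhat x j k : ℝ) = (I.DD : ℝ) * z k) (hz0 : z 0 = 1) :
    (I.lhat x j n : ℝ) = (I.DD : ℝ) ^ n * ell z n := by
  rw [lhat_eq_pathS I x j hn]
  induction n using Nat.strong_induction_on with
  | _ n ih =>
    rw [pathS_eq _ _ hn, ell]
    push_cast
    have h0 : (I.cc x j n 0 : ℝ) = n * ((I.DD : ℝ) * z n) := by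
      unfold Inst.cc
      rw [if_pos rfl]
      push_cast
      rw [hz n hn le_rfl]
    rw [h0]
    have h1 : ∑ s ∈ Ico 1 n, (I.DD : ℝ) ^ (n - 1 - s) *
        ((pathS (I.cc x j) I.DD s : ℝ) * (I.cc x j n s : ℝ)) =
        ∑ s ∈ Ico 1 n, -((I.DD : ℝ) ^ n * (ell z s * z (n - s))) := by
      refine sum_congr rfl fun s hs => ?_
      have hs' := mem_Ico.1 hs
      rw [ih s hs'.2 hs'.1 fun k hk1 hk2 => hz k hk1 (hk2.trans hs'.2.le)]
      have h2 : (I.cc x j n s : ℝ) = -((I.DD : ℝ) * z (n - s)) := by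
        unfold Inst.cc
        rw [if_neg (by omega)]
        push_cast
        rw [hz (n - s) (by omega) (by omega)]
      rw [h2]
      have h3 : (I.DD : ℝ) ^ n = (I.DD : ℝ) ^ (n - 1 - s) * (I.DD : ℝ) ^ s * (I.DD : ℝ) := by
        rw [← pow_add, ← pow_succ]
        congr 1
        omega
      rw [h3]
      ring
    rw [h1, sum_neg_distrib, ← mul_sum]
    have h4 : ∑ j : Fin n, ell z j * z (n - j) = ∑ s ∈ Ico 1 n, ell z s * z (n - s) := by
      rw [Fin.sum_univ_eq_sum_range (fun s => ell z s * z (n - s)) n, range_eq_Ico,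
        sum_eq_sum_Ico_succ_bot hn, ell_zero, zero_mul, zero_add]
    rw [h4]
    have h5 : (I.DD : ℝ) ^ n = (I.DD : ℝ) ^ (n - 1) * (I.DD : ℝ) := by
      rw [← pow_succ]; congr 1; omega
    rw [h5]
    ring

/-! ### coefficients of powers -/

theorem cmbc_eq (I : Inst) (n : ℕ) : I.cmbc n = cmb I.D I.A I.m n := by
  classical
  unfold Inst.cmbc cmb
  have h1 : (∑ i ∈ Icc 1 I.D, Polynomial.C (I.A i) * (Polynomial.X : Polynomial ℕ) ^ i) =
      ∑ i : Fin I.D, Polynomial.C (I.A (i + 1)) * (Polynomial.X : Polynomial ℕ) ^ ((i : ℕ) + 1) := by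
    rw [Fin.sum_univ_eq_sum_range (fun i => Polynomial.C (I.A (i + 1)) *
      (Polynomial.X : Polynomial ℕ) ^ (i + 1)) I.D, range_eq_Ico,
      sum_Ico_add' (fun i => Polynomial.C (I.A i) * (Polynomial.X : Polynomial ℕ) ^ i) 0 I.D 1]
    rfl
  have h2 : (∑ i ∈ Icc 1 I.D, Polynomial.C (I.A i) * (Polynomial.X : Polynomial ℕ) ^ i) ^ n =
      ∑ f : Fin n → Fin I.D, Polynomial.C (∏ t, I.A (f t + 1)) *
        (Polynomial.X : Polynomial ℕ) ^ (∑ t, ((f t : ℕ) + 1)) := by
    rw [h1, ← Fin.prod_const, prod_univ_sum]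
    refine sum_congr (by ext f; simp) fun f _ => ?_
    rw [prod_mul_distrib, map_prod, prod_pow_eq_pow_sum]
  rw [h2]
  simp only [Polynomial.finsetSum_coeff, Polynomial.coeff_C_mul_X_pow]
  rw [sum_comm]
  rw [sum_filter]
  rw [← Fin.sum_univ_eq_sum_range (fun w => if ∑ t ∈ range n, (w / I.D ^ t % I.D + 1) ≤ I.m then
    ∏ t ∈ range n, I.A (w / I.D ^ t % I.D + 1) else 0) (I.D ^ n)]
  rw [← finFunctionFinEquiv.symm.sum_comp]
  refine sum_congr rfl fun w _ => ?_
  have h3 : ∀ t : Fin n, ((finFunctionFinEquiv.symm w t : Fin I.D) : ℕ) =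
      (w : ℕ) / I.D ^ (t : ℕ) % I.D := fun t => by simp [finFunctionFinEquiv]
  simp only [h3]
  rw [Fin.prod_univ_eq_prod_range (fun t => I.A ((w : ℕ) / I.D ^ t % I.D + 1)) n,
    Fin.sum_univ_eq_sum_range (fun t => (w : ℕ) / I.D ^ t % I.D + 1) n]
  rw [sum_ite_eq' (range (I.m + 1))]
  simp only [mem_range, Nat.lt_succ_iff]

end Pool.Agent.Lib.P8e91ed
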