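import Pool.Agent.Lib.P8e91ed.Defs

/-!
Barvinok's polynomial map: the truncated logarithm maps a disc of radius larger than one into a
small neighbourhood of the segment.
-/

set_option autoImplicit false

open MeasureTheory Finset

noncomputable section

namespace Pool.Agent.Lib.P8e91ed

namespace PolyMap

/-- truncated series of `-log (1 - w)` -/
def S (D : ℕ) (w : ℂ) : ℂ := ∑ i ∈ Icc 1 D, w ^ i / i

theorem S_eq (D : ℕ) (w : ℂ) : S D w = - Complex.logTaylor (D + 1) (-w) := by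
  unfold S Complex.logTaylor
  rw [← Finset.sum_neg_distrib, Finset.range_eq_Ico,
    Finset.sum_eq_sum_Ico_succ_bot (by omega : 0 < D + 1)]
  simp only [Nat.cast_zero, div_zero, neg_zero, zero_add]
  have : Finset.Icc 1 D = Finset.Ico 1 (D + 1) := by ext; simp only [Finset.mem_Icc, Finset.mem_Ico]; omega
  rw [this]
  refine Finset.sum_congr rfl fun i _ => ?_
  have h : ((-1 : ℂ) ^ (i + 1)) * (-w) ^ i = - w ^ i := by
    rw [neg_pow w i, pow_succ]
    have h2 : ((-1 : ℂ) ^ i) * ((-1 : ℂ) ^ i) = 1 := by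
      rw [← mul_pow]; simp
    linear_combination (- w ^ i) * h2
  rw [h]; ring

theorem S_near {D : ℕ} {w : ℂ} {ρ : ℝ} (hw : ‖w‖ ≤ ρ) (hρ : ρ < 1)
    (hD : ρ ^ (D + 1) * (1 - ρ)⁻¹ ≤ 1 / 2) :
    ‖S D w - (- Complex.log (1 - w))‖ ≤ 1 / 2 := by
  have h1 : ‖-w‖ < 1 := by rw [norm_neg]; linarith
  have h := Complex.norm_log_sub_logTaylor_le D h1
  rw [norm_neg, ← sub_eq_add_neg] at h
  have h2 : S D w - (- Complex.log (1 - w)) =
      Complex.log (1 - w) - Complex.logTaylor (D + 1) (-w) := by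
    rw [S_eq]; ring
  rw [h2]
  have hn : 0 ≤ ‖w‖ := norm_nonneg w
  have hρ0 : 0 ≤ ρ := hn.trans hw
  refine h.trans ?_
  have h3 : ‖w‖ ^ (D + 1) ≤ ρ ^ (D + 1) := pow_le_pow_left₀ hn hw _
  have h4 : (1 - ‖w‖)⁻¹ ≤ (1 - ρ)⁻¹ := inv_anti₀ (by linarith) (by linarith)
  have h5 : ‖w‖ ^ (D + 1) * (1 - ‖w‖)⁻¹ ≤ ρ ^ (D + 1) * (1 - ρ)⁻¹ :=
    mul_le_mul h3 h4 (inv_nonneg.2 (by linarith)) (pow_nonneg hρ0 _)
  have h6 : 0 ≤ ‖w‖ ^ (D + 1) * (1 - ‖w‖)⁻¹ :=
    mul_nonneg (pow_nonneg hn _) (inv_nonneg.2 (by linarith))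
  calc ‖w‖ ^ (D + 1) * (1 - ‖w‖)⁻¹ / (D + 1) ≤ ‖w‖ ^ (D + 1) * (1 - ‖w‖)⁻¹ :=
        div_le_self h6 (by have : (0:ℝ) ≤ D := Nat.cast_nonneg D; linarith)
    _ ≤ _ := h5.trans hD

end PolyMap

open PolyMap in
theorem exists_map {lam0 δ : ℝ} (h0 : 0 < lam0) (hδ : 0 < δ) :
    ∃ (D : ℕ) (A : ℕ → ℕ) (β : ℝ), 0 < ∑ i ∈ Icc 1 D, A i ∧ 1 < β ∧
      ∀ z : ℂ, ‖z‖ ≤ β →
        (lam0 : ℂ) * ((∑ i ∈ Icc 1 D, (A i : ℂ) * z ^ i) / ∑ i ∈ Icc 1 D, (A i : ℂ)) ∈
          nearSeg lam0 δ := by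
  -- choice of M
  obtain ⟨M, hM2, hM⟩ : ∃ M : ℕ, 2 ≤ M ∧ 1 / 2 + 4 * lam0 / δ < Real.log M := by
    obtain ⟨M, hM⟩ := exists_nat_gt (max 2 (Real.exp (1 / 2 + 4 * lam0 / δ)))
    have h1 : (2 : ℝ) < M := lt_of_le_of_lt (le_max_left _ _) hM
    have h2 : Real.exp (1 / 2 + 4 * lam0 / δ) < M := lt_of_le_of_lt (le_max_right _ _) hM
    refine ⟨M, by exact_mod_cast h1.le, ?_⟩
    rw [Real.lt_log_iff_exp_lt (by linarith)]
    exact h2
  have hMR : (2 : ℝ) ≤ M := by exact_mod_cast hM2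
  have hM0 : (0 : ℝ) < M := by linarith
  set α : ℝ := 1 - 1 / M with hα
  have hinv : (1 : ℝ) / M ≤ 1 / 2 := one_div_le_one_div_of_le (by norm_num) hMR
  have hinv0 : (0 : ℝ) < 1 / M := by positivity
  have hα0 : 1 / 2 ≤ α := by rw [hα]; linarith
  have hα1 : α < 1 := by rw [hα]; linarith
  set ρ : ℝ := (1 + α) / 2 with hρdef
  have hρ1 : ρ < 1 := by rw [hρdef]; linarith
  have hρ0 : 0 < ρ := by rw [hρdef]; linarith
  have hαρ : α < ρ := by rw [hρdef]; linarith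
  set β : ℝ := ρ / α with hβdef
  have hβ1 : 1 < β := by rw [hβdef, one_lt_div (by linarith)]; exact hαρ
  -- choice of D
  obtain ⟨D, hD⟩ : ∃ D : ℕ, ρ ^ (D + 1) * (1 - ρ)⁻¹ ≤ 1 / 2 ∧ 1 ≤ D := by
    obtain ⟨n, hn⟩ := exists_pow_lt_of_lt_one (by
      have : 0 < 1 - ρ := by linarith
      positivity : 0 < (1 / 2) * (1 - ρ)) hρ1
    refine ⟨n + 1, ?_, by omega⟩
    have h1 : ρ ^ (n + 1 + 1) ≤ ρ ^ n := pow_le_pow_of_le_one hρ0.le hρ1.le (by omega)
    have h2 : 0 < 1 - ρ := by linarith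
    calc ρ ^ (n + 1 + 1) * (1 - ρ)⁻¹ ≤ ((1 / 2) * (1 - ρ)) * (1 - ρ)⁻¹ :=
          mul_le_mul_of_nonneg_right (h1.trans hn.le) (inv_nonneg.2 h2.le)
      _ = 1 / 2 := by field_simp
  obtain ⟨hD, hD1⟩ := hD
  -- coefficients
  set A : ℕ → ℕ := fun i => (D.factorial / i) * (M - 1) ^ i * M ^ (D - i) with hA
  have hAreal : ∀ i ∈ Icc 1 D, (A i : ℝ) = (D.factorial : ℝ) * M ^ D * (α ^ i / i) := by
    intro i hi
    rw [Finset.mem_Icc] at hi
    have hi0 : (i : ℝ) ≠ 0 := by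
      have : 0 < i := hi.1
      positivity
    have hdvd : i ∣ D.factorial := Nat.dvd_factorial hi.1 hi.2
    simp only [hA]
    rw [Nat.cast_mul, Nat.cast_mul, Nat.cast_pow, Nat.cast_pow, Nat.cast_div hdvd hi0,
      Nat.cast_sub (by omega : 1 ≤ M), Nat.cast_one]
    have h1 : α = (M - 1) / M := by rw [hα]; field_simp
    rw [h1, div_pow]
    have h2 : (M : ℝ) ^ D = M ^ (D - i) * M ^ i := by
      rw [← pow_add]; congr 1; omega
    rw [h2]
    field_simp
  set P1 : ℝ := ∑ i ∈ Icc 1 D, α ^ i / i with hP1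
  have hc : (0 : ℝ) < (D.factorial : ℝ) * M ^ D := by positivity
  have hsum : ∑ i ∈ Icc 1 D, (A i : ℝ) = (D.factorial : ℝ) * M ^ D * P1 := by
    rw [hP1, Finset.mul_sum]
    exact Finset.sum_congr rfl hAreal
  have hsumC : ∑ i ∈ Icc 1 D, (A i : ℂ) = (((D.factorial : ℝ) * M ^ D : ℝ) : ℂ) * (P1 : ℂ) := by
    rw [← Complex.ofReal_mul, ← hsum]; push_cast; rfl
  have hsumz : ∀ z : ℂ, ∑ i ∈ Icc 1 D, (A i : ℂ) * z ^ i =
      (((D.factorial : ℝ) * M ^ D : ℝ) : ℂ) * S D (α * z) := by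
    intro z
    unfold S
    rw [Finset.mul_sum]
    refine Finset.sum_congr rfl fun i hi => ?_
    have h := hAreal i hi
    have h' : (A i : ℂ) = (((D.factorial : ℝ) * M ^ D * (α ^ i / i) : ℝ) : ℂ) := by
      rw [← h]; simp
    rw [h', mul_pow]
    push_cast
    ring
  -- value at one
  have hSα : S D (α : ℂ) = (P1 : ℂ) := by
    unfold S; rw [hP1]; push_cast; rfl
  have hlog : Complex.log (1 - (α : ℂ)) = ((- Real.log M : ℝ) : ℂ) := by
    have h1 : (1 - (α : ℂ)) = ((1 / M : ℝ) : ℂ) := by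
      rw [hα]; push_cast; ring
    rw [h1, ← Complex.ofReal_log (by positivity)]
    congr 1
    rw [one_div, Real.log_inv]
  have hP1near : |P1 - Real.log M| ≤ 1 / 2 := by
    have h := S_near (D := D) (w := (α : ℂ)) (ρ := ρ) (by
      rw [Complex.norm_real, Real.norm_eq_abs, abs_of_nonneg (by linarith)]; exact hαρ.le) hρ1 hD
    rw [hSα, hlog] at h
    have h2 : (P1 : ℂ) - (-((- Real.log M : ℝ) : ℂ)) = ((P1 - Real.log M : ℝ) : ℂ) := by
      push_cast; ring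
    rw [h2, Complex.norm_real, Real.norm_eq_abs] at h
    exact h
  have hP1low : Real.log M - 1 / 2 ≤ P1 := by
    have := (abs_le.1 hP1near).1; linarith
  have hP1big : 4 * lam0 / δ < P1 := by linarith
  have hP1pos : 0 < P1 := lt_of_le_of_lt (by positivity) hP1big
  refine ⟨D, A, β, ?_, hβ1, ?_⟩
  · have : (0 : ℝ) < ((∑ i ∈ Icc 1 D, A i : ℕ) : ℝ) := by
      rw [Nat.cast_sum, hsum]; positivity
    exact_mod_cast this
  · intro z hz
    rw [hsumz, hsumC]
    have hcC : (((D.factorial : ℝ) * M ^ D : ℝ) : ℂ) ≠ 0 := by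
      exact_mod_cast hc.ne'
    rw [mul_div_mul_left _ _ hcC]
    set w : ℂ := (α : ℂ) * z with hw
    have hwn : ‖w‖ ≤ ρ := by
      rw [hw, norm_mul, Complex.norm_real, Real.norm_eq_abs, abs_of_nonneg (by linarith)]
      calc α * ‖z‖ ≤ α * β := mul_le_mul_of_nonneg_left hz (by linarith)
        _ = ρ := by rw [hβdef]; field_simp
    have hS := S_near hwn hρ1 hD
    -- real and imaginary parts of the logarithm
    set x : ℝ := - Real.log ‖1 - w‖ with hx
    set y : ℝ := - Complex.arg (1 - w) with hy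
    have hlogw : - Complex.log (1 - w) = (x : ℂ) + (y : ℂ) * Complex.I := by
      rw [Complex.log, hx, hy]; push_cast; ring
    have hre : 0 ≤ (1 - w).re := by
      have h1 : |w.re| ≤ ‖w‖ := Complex.abs_re_le_norm w
      have h2 := (abs_le.1 h1).2
      simp only [Complex.sub_re, Complex.one_re]
      linarith
    have hyb : |y| ≤ 1.58 := by
      have h1 : |Complex.arg (1 - w)| ≤ Real.pi / 2 := Complex.abs_arg_le_pi_div_two_iff.2 hre
      have h2 := Real.pi_lt_d2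
      rw [hy, abs_neg]
      have h3 : (3.15 : ℝ) / 2 ≤ 1.58 := by norm_num
      linarith
    have hup : ‖1 - w‖ ≤ 2 := by
      calc ‖1 - w‖ ≤ ‖(1 : ℂ)‖ + ‖w‖ := norm_sub_le _ _
        _ ≤ 2 := by rw [norm_one]; linarith
    have hlo : 1 / (2 * M) ≤ ‖1 - w‖ := by
      have h1 : ‖(1 : ℂ)‖ - ‖w‖ ≤ ‖1 - w‖ := norm_sub_norm_le _ _
      rw [norm_one] at h1
      have h2 : 1 - ρ = 1 / (2 * M) := by
        rw [hρdef, hα]; field_simp; ring
      linarith
    have hpos : 0 < ‖1 - w‖ := lt_of_lt_of_le (by positivity) hlo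
    have hxlo : - 0.7 ≤ x := by
      have h1 : Real.log ‖1 - w‖ ≤ Real.log 2 := Real.log_le_log hpos hup
      have h2 := Real.log_two_lt_d9
      rw [hx]
      have h3 : (0.6931471808 : ℝ) ≤ 0.7 := by norm_num
      linarith
    have hxup : x ≤ Real.log M + 0.7 := by
      have h1 : Real.log (1 / (2 * M)) ≤ Real.log ‖1 - w‖ :=
        Real.log_le_log (by positivity) hlo
      rw [one_div, Real.log_inv, Real.log_mul (by norm_num) hM0.ne'] at h1
      have h2 := Real.log_two_lt_d9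
      rw [hx]
      have h3 : (0.6931471808 : ℝ) ≤ 0.7 := by norm_num
      linarith
    set s : ℝ := max 0 (min x P1) with hs
    have hs0 : 0 ≤ s := le_max_left _ _
    have hs1 : s ≤ P1 := max_le hP1pos.le (min_le_right _ _)
    have hxs : |x - s| ≤ 1.2 := by
      have h3 : Real.log M ≤ P1 + 1 / 2 := by
        have := (abs_le.1 hP1near).1; linarith
      have hc1 : (0.7 : ℝ) + 1 / 2 ≤ 1.2 := by norm_num
      have hc2 : (0.7 : ℝ) ≤ 1.2 := by norm_num
      have hc3 : (0 : ℝ) ≤ 1.2 := by norm_num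
      rcases le_total x P1 with h | h
      · rw [hs, min_eq_left h]
        rcases le_total 0 x with h' | h'
        · rw [max_eq_right h']; simpa using hc3
        · rw [max_eq_left h', sub_zero, abs_of_nonpos h']; linarith
      · rw [hs, min_eq_right h, max_eq_right hP1pos.le, abs_of_nonneg (by linarith)]
        linarith
    have hdist : ‖S D w - (s : ℂ)‖ ≤ 4 := by
      have h1 : S D w - (s : ℂ) = (S D w - (- Complex.log (1 - w))) +
          (((x - s : ℝ) : ℂ) + (y : ℂ) * Complex.I) := by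
        rw [hlogw]; push_cast; ring
      rw [h1]
      refine (norm_add_le _ _).trans ?_
      have h2 : ‖((x - s : ℝ) : ℂ) + (y : ℂ) * Complex.I‖ ≤ |x - s| + |y| := by
        refine (norm_add_le _ _).trans ?_
        rw [norm_mul, Complex.norm_I, mul_one, Complex.norm_real, Complex.norm_real,
          Real.norm_eq_abs, Real.norm_eq_abs]
      have hc4 : (1 / 2 : ℝ) + (1.2 + 1.58) ≤ 4 := by norm_num
      linarith
    refine ⟨lam0 * (s / P1), ⟨by positivity, ?_⟩, ?_⟩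
    · have : s / P1 ≤ 1 := (div_le_one hP1pos).2 hs1
      nlinarith
    · have h1 : (lam0 : ℂ) * (S D w / (P1 : ℂ)) - ((lam0 * (s / P1) : ℝ) : ℂ) =
          ((lam0 / P1 : ℝ) : ℂ) * (S D w - (s : ℂ)) := by
        push_cast; ring
      rw [h1, norm_mul, Complex.norm_real, Real.norm_eq_abs, abs_of_nonneg (by positivity)]
      have h2 : 4 * lam0 < P1 * δ := by
        rw [div_lt_iff₀ hδ] at hP1big; exact hP1big
      calc lam0 / P1 * ‖S D w - (s : ℂ)‖ ≤ lam0 / P1 * 4 :=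
            mul_le_mul_of_nonneg_left hdist (by positivity)
        _ < δ := by
            rw [div_mul_eq_mul_div, div_lt_iff₀ hP1pos]; linarith

end Pool.Agent.Lib.P8e91ed
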