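import Pool.Agent.Lib.P8e91ed.Scheme
import Pool.Agent.Lib.P8e91ed.Cluster

/-!
Regions that are unions of unit cells, and the canonical partition functions of these regions
(for MP_8e91ed_lc).
-/

set_option autoImplicit false

open MeasureTheory Finset

noncomputable section

namespace Pool.Agent.Lib.P8e91ed

section Regions
variable {d : ℕ} {q : Sp d → ℝ} {r : ℝ}

/-- the cell containing a point -/
def cellOf (x : Sp d) : Fin d → ℤ := fun i => ⌊x i⌋

theorem mem_cell_iff {x : Sp d} {c : Fin d → ℤ} : x ∈ cell c ↔ cellOf x = c := by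
  unfold cell cellOf
  rw [Set.mem_ofPred_eq, funext_iff]
  exact forall_congr' fun i => Int.floor_eq_iff.symm

theorem mem_reg_iff {x : Sp d} {Y : Finset (Fin d → ℤ)} : x ∈ reg Y ↔ cellOf x ∈ Y := by
  simp [reg, mem_cell_iff]

theorem cell_eq_preimage (c : Fin d → ℤ) :
    cell c = (@WithLp.ofLp 2 (Fin d → ℝ)) ⁻¹'
      (Set.univ.pi fun i => Set.Ico (c i : ℝ) (c i + 1)) := by
  ext x
  simp [cell, Set.mem_pi]

theorem measurableSet_cell (c : Fin d → ℤ) : MeasurableSet (cell c) := by
  rw [cell_eq_preimage]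
  exact (PiLp.volume_preserving_ofLp (Fin d)).measurable
    (MeasurableSet.univ_pi fun i => measurableSet_Ico)

theorem volume_cell (c : Fin d → ℤ) : volume (cell c) = 1 := by
  rw [cell_eq_preimage, (PiLp.volume_preserving_ofLp (Fin d)).measure_preimage
    (MeasurableSet.univ_pi fun i => measurableSet_Ico).nullMeasurableSet, Real.volume_pi_Ico]
  simp

theorem measurableSet_reg (Y : Finset (Fin d → ℤ)) : MeasurableSet (reg Y) :=
  Finset.measurableSet_biUnion _ fun c _ => measurableSet_cell c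

theorem volume_reg' (Y : Finset (Fin d → ℤ)) : volume (reg Y) = Y.card := by
  unfold reg
  rw [measure_biUnion_finset]
  · simp [volume_cell]
  · intro a _ b _ hab
    rw [Function.onFun, Set.disjoint_left]
    intro x hx hx'
    rw [mem_cell_iff] at hx hx'
    exact hab (hx.symm.trans hx')
  · exact fun c _ => measurableSet_cell c

theorem volume_reg (Y : Finset (Fin d → ℤ)) : (volume (reg Y)).toReal = Y.card := by
  rw [volume_reg']
  simp

theorem isBounded_cell (c : Fin d → ℤ) : Bornology.IsBounded (cell c) := by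
  have h1 : IsCompact ((@WithLp.toLp 2 (Fin d → ℝ)) ''
      (Set.Icc (fun i => (c i : ℝ)) (fun i => (c i : ℝ) + 1))) :=
    isCompact_Icc.image (PiLp.continuous_toLp 2 _)
  refine h1.isBounded.subset ?_
  intro x hx
  refine ⟨x.ofLp, ?_, rfl⟩
  rw [Set.mem_Icc]
  exact ⟨fun i => (hx i).1, fun i => (hx i).2.le⟩

theorem isBounded_reg (Y : Finset (Fin d → ℤ)) : Bornology.IsBounded (reg Y) := by
  unfold reg
  exact (Bornology.isBounded_biUnion_finset Y).mpr fun c _ => isBounded_cell c

theorem box_ae_eq (N : ℕ) : (box d N : Set (Sp d)) =ᵐ[volume] reg (boxCells d N) := by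
  have h1 : (box d N : Set (Sp d)) = (@WithLp.ofLp 2 (Fin d → ℝ)) ⁻¹'
      (Set.Icc (fun _ => (-(N : ℝ))) (fun _ => (N : ℝ))) := by
    ext x
    simp only [box, Set.mem_ofPred_eq, abs_le, Set.mem_preimage, Set.mem_Icc, Pi.le_def]
    exact forall_and
  have h2 : reg (boxCells d N) = (@WithLp.ofLp 2 (Fin d → ℝ)) ⁻¹'
      (Set.univ.pi fun _ => Set.Ico (-(N : ℝ)) (N : ℝ)) := by
    ext x
    rw [mem_reg_iff]
    simp only [boxCells, Fintype.mem_piFinset, mem_Ico, Set.mem_preimage, Set.mem_univ_pi,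
      Set.mem_Ico, cellOf]
    refine forall_congr' fun i => ?_
    rw [Int.le_floor, Int.floor_lt]
    push_cast
    rfl
  rw [h1, h2]
  exact ((PiLp.volume_preserving_ofLp (Fin d)).quasiMeasurePreserving.preimage_ae_eq
    Measure.univ_pi_Ico_ae_eq_Icc).symm

theorem zc_box (q : Sp d → ℝ) (N k : ℕ) : zc q (box d N) k = zc q (reg (boxCells d N)) k := by
  unfold zc
  congr 1
  refine setIntegral_congr_set ?_
  exact Measure.ae_eq_set_pi fun i _ => box_ae_eq N

theorem reg_measurable_inter (hq : IsPot q r) (k : ℕ) :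
    Measurable (fun x : Fin k → Sp d => inter q x) := by
  unfold inter
  refine Finset.measurable_prod _ fun i _ => Finset.measurable_prod _ fun j _ => ?_
  split_ifs
  · exact hq.meas.comp ((measurable_pi_apply i).sub (measurable_pi_apply j))
  · exact measurable_const

theorem reg_inter_nonneg (hq : IsPot q r) {k : ℕ} (x : Fin k → Sp d) : 0 ≤ inter q x := by
  unfold inter
  refine Finset.prod_nonneg fun i _ => Finset.prod_nonneg fun j _ => ?_
  split_ifs
  · exact hq.nonneg _
  · exact zero_le_one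

theorem reg_inter_le_one (hq : IsPot q r) {k : ℕ} (x : Fin k → Sp d) : inter q x ≤ 1 := by
  have h0 : ∀ i j : Fin k, 0 ≤ (if i < j then q (x i - x j) else 1) := by
    intro i j
    split_ifs
    · exact hq.nonneg _
    · exact zero_le_one
  unfold inter
  refine Finset.prod_le_one (fun i _ => Finset.prod_nonneg fun j _ => h0 i j) fun i _ => ?_
  refine Finset.prod_le_one (fun j _ => h0 i j) fun j _ => ?_
  split_ifs
  · exact hq.le_one _
  · exact le_rfl

theorem measurableSet_pi_reg (Y : Finset (Fin d → ℤ)) (k : ℕ) :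
    MeasurableSet (Set.univ.pi (fun _ : Fin k => reg Y)) :=
  MeasurableSet.univ_pi fun _ => measurableSet_reg Y

theorem volume_pi_reg (Y : Finset (Fin d → ℤ)) (k : ℕ) :
    volume (Set.univ.pi (fun _ : Fin k => reg Y)) = (Y.card : ENNReal) ^ k := by
  rw [volume_pi_pi]
  simp [volume_reg']

theorem integrableOn_inter (hq : IsPot q r) (Y : Finset (Fin d → ℤ)) (k : ℕ) :
    IntegrableOn (fun x : Fin k → Sp d => inter q x) (Set.univ.pi (fun _ : Fin k => reg Y)) := by
  have hfin : volume (Set.univ.pi (fun _ : Fin k => reg Y)) ≠ ⊤ := by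
    rw [volume_pi_reg]
    exact ENNReal.pow_ne_top (ENNReal.natCast_ne_top _)
  refine Measure.integrableOn_of_bounded (M := 1) hfin
    (reg_measurable_inter hq k).aestronglyMeasurable ?_
  refine Filter.Eventually.of_forall fun x => ?_
  rw [Real.norm_of_nonneg (reg_inter_nonneg hq x)]
  exact reg_inter_le_one hq x

theorem zc_reg_deg (hq : IsPot q r) (X : Finset (Fin d → ℤ)) (k : ℕ) (hk : k < X.card) :
    ∑ Y ∈ X.powerset, (-1 : ℝ) ^ (X.card - Y.card) * zc q (reg Y) k = 0 := by
  have h1 : ∀ Y : Finset (Fin d → ℤ), zc q (reg Y) k = (1 / (k.factorial : ℝ)) *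
      ∫ x : Fin k → Sp d, (Set.univ.pi (fun _ : Fin k => reg Y)).indicator
        (fun x => inter q x) x := by
    intro Y
    rw [integral_indicator (measurableSet_pi_reg Y k)]
    rfl
  have h2 : ∀ Y ∈ X.powerset, Integrable (fun x : Fin k → Sp d => (-1 : ℝ) ^ (X.card - Y.card) *
      (Set.univ.pi (fun _ : Fin k => reg Y)).indicator (fun x => inter q x) x) := by
    intro Y _
    refine Integrable.const_mul ?_ _
    exact (integrable_indicator_iff (measurableSet_pi_reg Y k)).mpr (integrableOn_inter hq Y k)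
  have h3 : ∑ Y ∈ X.powerset, (-1 : ℝ) ^ (X.card - Y.card) * zc q (reg Y) k =
      (1 / (k.factorial : ℝ)) * ∫ x : Fin k → Sp d, ∑ Y ∈ X.powerset,
        (-1 : ℝ) ^ (X.card - Y.card) *
          (Set.univ.pi (fun _ : Fin k => reg Y)).indicator (fun x => inter q x) x := by
    rw [integral_finsetSum _ h2, mul_sum]
    refine sum_congr rfl fun Y _ => ?_
    rw [h1 Y, integral_const_mul]
    ring
  rw [h3]
  have h4 : ∀ x : Fin k → Sp d, ∑ Y ∈ X.powerset, (-1 : ℝ) ^ (X.card - Y.card) *
      (Set.univ.pi (fun _ : Fin k => reg Y)).indicator (fun x => inter q x) x = 0 := by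
    intro x
    classical
    set A : Finset (Fin d → ℤ) := univ.image (fun i => cellOf (x i)) with hA
    have hmem : ∀ Y : Finset (Fin d → ℤ), x ∈ Set.univ.pi (fun _ : Fin k => reg Y) ↔ A ⊆ Y := by
      intro Y
      simp only [Set.mem_univ_pi, mem_reg_iff, hA, image_subset_iff, mem_univ, true_implies]
    have hsum : ∑ Y ∈ X.powerset, (-1 : ℝ) ^ (X.card - Y.card) *
        (Set.univ.pi (fun _ : Fin k => reg Y)).indicator (fun x => inter q x) x =
        (∑ Y ∈ X.powerset.filter (fun Y => A ⊆ Y), (-1 : ℝ) ^ (X.card - Y.card)) *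
          inter q x := by
      rw [sum_filter, sum_mul]
      refine sum_congr rfl fun Y _ => ?_
      by_cases h : A ⊆ Y
      · rw [Set.indicator_of_mem ((hmem Y).mpr h), if_pos h]
      · rw [Set.indicator_of_notMem (fun hh => h ((hmem Y).mp hh)), if_neg h]
        simp
    rw [hsum]
    by_cases hAX : A ⊆ X
    · rw [sum_Icc_sign hAX, if_neg, zero_mul]
      intro hh
      have : A.card ≤ k := by
        calc A.card ≤ (univ : Finset (Fin k)).card := card_image_le
          _ = k := by simp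
      rw [hh] at this
      omega
    · rw [filter_false_of_mem, sum_empty, zero_mul]
      intro Y hY hAY
      exact hAX (hAY.trans (mem_powerset.mp hY))
  simp only [h4, integral_zero, mul_zero]

/-- the interaction factor of a configuration indexed by a finite linear order -/
def interT {ι : Type*} [Fintype ι] [LinearOrder ι] (q : Sp d → ℝ) (x : ι → Sp d) : ℝ :=
  ∏ i : ι, ∏ j : ι, if i < j then q (x i - x j) else 1

/-- the weighted integral of the interaction factor -/
def IT (ι : Type*) [Fintype ι] [LinearOrder ι] (q : Sp d → ℝ) (f : Sp d → ℝ) : ℝ :=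
  ∫ x : ι → Sp d, (∏ i, f (x i)) * interT q x

theorem IT_congr {ι ι' : Type*} [Fintype ι] [LinearOrder ι] [Fintype ι'] [LinearOrder ι']
    (e : ι ≃o ι') (q f : Sp d → ℝ) : IT ι q f = IT ι' q f := by
  unfold IT
  have h := (volume_measurePreserving_piCongrLeft (fun _ : ι' => Sp d) e.toEquiv)
  rw [← h.integral_comp']
  refine integral_congr_ae (Filter.Eventually.of_forall fun x => ?_)
  have hx : ∀ i : ι, (MeasurableEquiv.piCongrLeft (fun _ : ι' => Sp d) e.toEquiv) x (e i) = x i := by
    intro i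
    rw [MeasurableEquiv.coe_piCongrLeft]
    exact Equiv.piCongrLeft_apply_apply (P := fun _ : ι' => Sp d) (e := e.toEquiv) x i
  set y := (MeasurableEquiv.piCongrLeft (fun _ : ι' => Sp d) e.toEquiv) x with hy
  show (∏ i, f (x i)) * interT q x = (∏ i, f (y i)) * interT q y
  congr 1
  · rw [← e.toEquiv.prod_comp]
    refine prod_congr rfl fun i _ => ?_
    exact congrArg f (hx i).symm
  · unfold interT
    rw [← e.toEquiv.prod_comp]
    refine prod_congr rfl fun i _ => ?_
    rw [← e.toEquiv.prod_comp]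
    refine prod_congr rfl fun j _ => ?_
    have h1 : y (e.toEquiv i) = x i := hx i
    have h2 : y (e.toEquiv j) = x j := hx j
    rw [h1, h2]
    have h3 : e.toEquiv i < e.toEquiv j ↔ i < j := e.lt_iff_lt
    simp only [h3]

/-- the integral does not depend on the type indexing the points, only on their number -/
theorem IT_subtype {k : ℕ} (S : Finset (Fin k)) (q f : Sp d → ℝ) :
    IT {i : Fin k // i ∈ S} q f = IT (Fin S.card) q f :=
  IT_congr (S.orderIsoOfFin rfl).symm q f

theorem IT_subtype_compl {k : ℕ} (S : Finset (Fin k)) (q f : Sp d → ℝ) :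
    IT {i : Fin k // ¬ i ∈ S} q f = IT (Fin (k - S.card)) q f := by
  have hc : (Sᶜ).card = k - S.card := by
    rw [card_compl, Fintype.card_fin]
  have e1 : {i : Fin k // ¬ i ∈ S} ≃o {i : Fin k // i ∈ Sᶜ} :=
    { toFun := fun i => ⟨i.1, by rw [mem_compl]; exact i.2⟩
      invFun := fun i => ⟨i.1, by have := i.2; rw [mem_compl] at this; exact this⟩
      left_inv := fun i => rfl
      right_inv := fun i => rfl
      map_rel_iff' := Iff.rfl }
  rw [IT_congr e1 q f]
  exact IT_congr ((Sᶜ).orderIsoOfFin hc).symm q f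

theorem zc_eq_IT (Y : Finset (Fin d → ℤ)) (k : ℕ) :
    zc q (reg Y) k = (1 / (k.factorial : ℝ)) * IT (Fin k) q ((reg Y).indicator 1) := by
  unfold zc IT
  rw [← integral_indicator (measurableSet_pi_reg Y k)]
  congr 2
  funext x
  by_cases h : x ∈ Set.univ.pi (fun _ : Fin k => reg Y)
  · rw [Set.indicator_of_mem h, prod_eq_one, one_mul]
    · rfl
    · intro i _
      rw [Set.indicator_of_mem (h i (Set.mem_univ i))]
      rfl
  · rw [Set.indicator_of_notMem h]
    simp only [Set.mem_univ_pi, not_forall] at h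
    obtain ⟨i, hi⟩ := h
    rw [prod_eq_zero (mem_univ i), zero_mul]
    exact Set.indicator_of_notMem hi _

theorem prod_split {k : ℕ} (S : Finset (Fin k)) (F : Fin k → ℝ) :
    ∏ i, F i = (∏ i : {i : Fin k // i ∈ S}, F i) * ∏ i : {i : Fin k // ¬ i ∈ S}, F i := by
  rw [← Fintype.prod_subtype_mul_prod_subtype (fun i => i ∈ S) F]
  have e1 : ∏ i : {i : Fin k // i ∈ S}, F i = ∏ i ∈ S, F i := Finset.prod_coe_sort S F
  have e2 : ∀ (inst : Fintype {i : Fin k // i ∈ S}),
      @Finset.prod _ _ _ (@Finset.univ _ inst) (fun i : {i : Fin k // i ∈ S} => F i) =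
        ∏ i ∈ S, F i := by
    intro inst
    rw [← e1, Subsingleton.elim inst (Finset.Subtype.fintype S)]
  rw [e2, e1]

theorem q_cross (hq : IsPot q r) {R : ℕ} (hR : r ≤ R) {Y Y' : Finset (Fin d → ℤ)}
    (h : ∀ a ∈ Y, ∀ b ∈ Y', ¬ cadj R a b) {x y : Sp d} (hx : x ∈ reg Y) (hy : y ∈ reg Y') :
    q (x - y) = 1 := by
  rw [mem_reg_iff] at hx hy
  have h1 := h _ hx _ hy
  unfold cadj at h1
  push Not at h1
  obtain ⟨t, ht⟩ := h1
  refine hq.far _ (lt_of_le_of_lt hR ?_)
  refine lt_of_lt_of_le ?_ (PiLp.norm_apply_le (x - y) t)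
  rw [PiLp.sub_apply, Real.norm_eq_abs]
  unfold cellOf at ht
  have hx1 := Int.floor_le (x t)
  have hx2 := Int.lt_floor_add_one (x t)
  have hy1 := Int.floor_le (y t)
  have hy2 := Int.lt_floor_add_one (y t)
  rcases le_total 0 (⌊x t⌋ - ⌊y t⌋) with h0 | h0
  · rw [abs_of_nonneg h0] at ht
    have h2 : (R : ℤ) + 1 ≤ ⌊x t⌋ - ⌊y t⌋ := ht
    have h3 : (R : ℝ) + 1 ≤ (⌊x t⌋ : ℝ) - ⌊y t⌋ := by exact_mod_cast h2
    rw [lt_abs]
    left
    linarith
  · rw [abs_of_nonpos h0] at ht
    have h2 : (R : ℤ) + 1 ≤ -(⌊x t⌋ - ⌊y t⌋) := ht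
    have h3 : (R : ℝ) + 1 ≤ -((⌊x t⌋ : ℝ) - ⌊y t⌋) := by exact_mod_cast h2
    rw [lt_abs]
    right
    linarith

theorem inter_split (hq : IsPot q r) {R : ℕ} (hR : r ≤ R) {Y Y' : Finset (Fin d → ℤ)}
    (h : ∀ a ∈ Y, ∀ b ∈ Y', ¬ cadj R a b) {k : ℕ} (S : Finset (Fin k)) (x : Fin k → Sp d)
    (hx : ∀ i ∈ S, x i ∈ reg Y) (hx' : ∀ i, i ∉ S → x i ∈ reg Y') :
    inter q x = interT q (fun i : {i : Fin k // i ∈ S} => x i) *
      interT q (fun i : {i : Fin k // ¬ i ∈ S} => x i) := by
  unfold inter interT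
  rw [prod_split S]
  congr 1
  · refine prod_congr rfl fun i _ => ?_
    rw [prod_split S]
    have h1 : ∏ j : {j : Fin k // ¬ j ∈ S}, (if (i : Fin k) < j then q (x i - x j) else 1) = 1 := by
      refine prod_eq_one fun j _ => ?_
      rw [q_cross hq hR h (hx i i.2) (hx' j j.2), ite_self]
    rw [h1, mul_one]
    rfl
  · refine prod_congr rfl fun i _ => ?_
    rw [prod_split S]
    have h1 : ∏ j : {j : Fin k // j ∈ S}, (if (i : Fin k) < j then q (x i - x j) else 1) = 1 := by
      refine prod_eq_one fun j _ => ?_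
      rw [← hq.even, neg_sub, q_cross hq hR h (hx j j.2) (hx' i i.2), ite_self]
    rw [h1, one_mul]
    rfl

theorem term_split (hq : IsPot q r) {R : ℕ} (hR : r ≤ R) {Y Y' : Finset (Fin d → ℤ)}
    (h : ∀ a ∈ Y, ∀ b ∈ Y', ¬ cadj R a b) {k : ℕ} (S : Finset (Fin k)) :
    ∫ x : Fin k → Sp d, ((∏ i ∈ S, (reg Y).indicator 1 (x i)) *
      ∏ i ∈ univ \ S, (reg Y').indicator 1 (x i)) * inter q x =
      IT (Fin S.card) q ((reg Y).indicator 1) *
        IT (Fin (k - S.card)) q ((reg Y').indicator 1) := by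
  classical
  rw [← IT_subtype, ← IT_subtype_compl]
  unfold IT
  have hmp0 : ∀ [i1 : Fintype {i : Fin k // i ∈ S}] [i2 : Fintype {i : Fin k // ¬ i ∈ S}],
      MeasurePreserving (MeasurableEquiv.piEquivPiSubtypeProd (fun _ : Fin k => Sp d)
      (fun i => i ∈ S)) (volume : Measure (Fin k → Sp d))
      (volume : Measure (({i : Fin k // i ∈ S} → Sp d) × ({i : Fin k // ¬ i ∈ S} → Sp d))) := by
    intro i1 i2
    have e1 : i1 = Subtype.fintype (fun i => i ∈ S) := Subsingleton.elim _ _
    have e2 : i2 = Subtype.fintype (fun i => ¬ i ∈ S) := Subsingleton.elim _ _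
    subst e1 e2
    exact volume_preserving_piEquivPiSubtypeProd (fun _ : Fin k => Sp d) (fun i => i ∈ S)
  have hmp : MeasurePreserving (MeasurableEquiv.piEquivPiSubtypeProd (fun _ : Fin k => Sp d)
      (fun i => i ∈ S)) (volume : Measure (Fin k → Sp d))
      (volume : Measure (({i : Fin k // i ∈ S} → Sp d) × ({i : Fin k // ¬ i ∈ S} → Sp d))) :=
    hmp0
  rw [← integral_prod_mul, ← Measure.volume_eq_prod, ← hmp.integral_comp']
  refine integral_congr_ae (Filter.Eventually.of_forall fun x => ?_)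
  show ((∏ i ∈ S, (reg Y).indicator 1 (x i)) *
      ∏ i ∈ univ \ S, (reg Y').indicator 1 (x i)) * inter q x =
    ((∏ i : {i : Fin k // i ∈ S}, (reg Y).indicator 1 (x i)) *
      interT q (fun i : {i : Fin k // i ∈ S} => x i)) *
    ((∏ i : {i : Fin k // ¬ i ∈ S}, (reg Y').indicator 1 (x i)) *
      interT q (fun i : {i : Fin k // ¬ i ∈ S} => x i))
  have h1 : ∏ i : {i : Fin k // i ∈ S}, (reg Y).indicator (1 : Sp d → ℝ) (x i) =
      ∏ i ∈ S, (reg Y).indicator 1 (x i) :=
    prod_coe_sort S (fun i => (reg Y).indicator (1 : Sp d → ℝ) (x i))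
  have h2 : ∏ i : {i : Fin k // ¬ i ∈ S}, (reg Y').indicator (1 : Sp d → ℝ) (x i) =
      ∏ i ∈ univ \ S, (reg Y').indicator 1 (x i) := by
    rw [← prod_coe_sort (univ \ S)]
    have hiff : ∀ i : Fin k, ¬ i ∈ S ↔ i ∈ univ \ S := fun i => by simp
    exact Fintype.prod_equiv (Equiv.subtypeEquivRight hiff) _ _ fun i => rfl
  rw [h1, h2]
  by_cases hx : ∀ i ∈ S, x i ∈ reg Y
  · by_cases hx' : ∀ i, i ∉ S → x i ∈ reg Y'
    · rw [inter_split hq hR h S x hx hx']
      ring
    · push Not at hx'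
      obtain ⟨i, hi, hxi⟩ := hx'
      have : ∏ i ∈ univ \ S, (reg Y').indicator (1 : Sp d → ℝ) (x i) = 0 := by
        refine prod_eq_zero (i := i) (by simp [hi]) (Set.indicator_of_notMem hxi _)
      rw [this]
      ring
  · push Not at hx
    obtain ⟨i, hi, hxi⟩ := hx
    have : ∏ i ∈ S, (reg Y).indicator (1 : Sp d → ℝ) (x i) = 0 :=
      prod_eq_zero hi (Set.indicator_of_notMem hxi _)
    rw [this]
    ring

theorem indicator_union (Y Y' : Finset (Fin d → ℤ)) (hd : Disjoint Y Y') (x : Sp d) :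
    (reg (Y ∪ Y')).indicator (1 : Sp d → ℝ) x =
      (reg Y).indicator 1 x + (reg Y').indicator 1 x := by
  by_cases h1 : x ∈ reg Y
  · have h2 : x ∉ reg Y' := by
      rw [mem_reg_iff] at h1 ⊢
      exact fun h2 => (Finset.disjoint_left.mp hd) h1 h2
    have h3 : x ∈ reg (Y ∪ Y') := by
      rw [mem_reg_iff] at h1 ⊢
      exact mem_union_left _ h1
    rw [Set.indicator_of_mem h1, Set.indicator_of_notMem h2, Set.indicator_of_mem h3, add_zero]
  · by_cases h2 : x ∈ reg Y'
    · have h3 : x ∈ reg (Y ∪ Y') := by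
        rw [mem_reg_iff] at h2 ⊢
        exact mem_union_right _ h2
      rw [Set.indicator_of_notMem h1, Set.indicator_of_mem h2, Set.indicator_of_mem h3, zero_add]
    · have h3 : x ∉ reg (Y ∪ Y') := by
        rw [mem_reg_iff] at h1 h2 ⊢
        rw [mem_union]
        exact fun hh => hh.elim h1 h2
      rw [Set.indicator_of_notMem h1, Set.indicator_of_notMem h2, Set.indicator_of_notMem h3,
        add_zero]

theorem measurable_ind (Y : Finset (Fin d → ℤ)) :
    Measurable ((reg Y).indicator (1 : Sp d → ℝ)) :=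
  measurable_one.indicator (measurableSet_reg Y)

theorem integrable_ind (Y : Finset (Fin d → ℤ)) :
    Integrable ((reg Y).indicator (1 : Sp d → ℝ)) := by
  rw [integrable_indicator_iff (measurableSet_reg Y)]
  have : volume (reg Y) ≠ ⊤ := by
    rw [volume_reg']
    exact ENNReal.natCast_ne_top _
  exact integrableOn_const (C := (1 : ℝ)) this

theorem integrable_term (hq : IsPot q r) (Y Y' : Finset (Fin d → ℤ)) {k : ℕ}
    (S : Finset (Fin k)) :
    Integrable (fun x : Fin k → Sp d => ((∏ i ∈ S, (reg Y).indicator 1 (x i)) *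
      ∏ i ∈ univ \ S, (reg Y').indicator 1 (x i)) * inter q x) := by
  classical
  have h1 : Integrable (fun x : Fin k → Sp d =>
      ∏ i, (if i ∈ S then (reg Y).indicator (1 : Sp d → ℝ) else (reg Y').indicator 1) (x i)) := by
    refine Integrable.fintype_prod (f := fun i =>
      (if i ∈ S then (reg Y).indicator (1 : Sp d → ℝ) else (reg Y').indicator 1)) fun i => ?_
    split_ifs
    · exact integrable_ind Y
    · exact integrable_ind Y'
  have h2 : (fun x : Fin k → Sp d => ((∏ i ∈ S, (reg Y).indicator (1 : Sp d → ℝ) (x i)) *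
      ∏ i ∈ univ \ S, (reg Y').indicator 1 (x i)) * inter q x) = fun x : Fin k → Sp d =>
      (∏ i, (if i ∈ S then (reg Y).indicator (1 : Sp d → ℝ) else (reg Y').indicator 1) (x i)) *
        inter q x := by
    funext x
    congr 1
    rw [← prod_sdiff (subset_univ S), mul_comm]
    congr 1
    · refine prod_congr rfl fun i hi => ?_
      rw [if_neg (by simpa using hi)]
    · refine prod_congr rfl fun i hi => ?_
      rw [if_pos hi]
  rw [h2]
  refine Integrable.mul_bdd (c := 1) h1 (reg_measurable_inter hq k).aestronglyMeasurable ?_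
  refine Filter.Eventually.of_forall fun x => ?_
  rw [Real.norm_of_nonneg (reg_inter_nonneg hq x)]
  exact reg_inter_le_one hq x

theorem zc_reg_mul (hq : IsPot q r) {R : ℕ} (hR : r ≤ R) (Y Y' : Finset (Fin d → ℤ))
    (hd : Disjoint Y Y') (h : ∀ a ∈ Y, ∀ b ∈ Y', ¬ cadj R a b) (k : ℕ) :
    zc q (reg (Y ∪ Y')) k =
      ∑ p ∈ antidiagonal k, zc q (reg Y) p.1 * zc q (reg Y') p.2 := by
  have h1 : IT (Fin k) q ((reg (Y ∪ Y')).indicator 1) =
      ∑ S ∈ (univ : Finset (Fin k)).powerset, IT (Fin S.card) q ((reg Y).indicator 1) *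
        IT (Fin (k - S.card)) q ((reg Y').indicator 1) := by
    have h2 : ∀ S ∈ (univ : Finset (Fin k)).powerset,
        IT (Fin S.card) q ((reg Y).indicator 1) *
          IT (Fin (k - S.card)) q ((reg Y').indicator 1) =
        ∫ x : Fin k → Sp d, ((∏ i ∈ S, (reg Y).indicator 1 (x i)) *
          ∏ i ∈ univ \ S, (reg Y').indicator 1 (x i)) * inter q x :=
      fun S _ => (term_split hq hR h S).symm
    rw [sum_congr rfl h2, ← integral_finsetSum _ fun S _ => integrable_term hq Y Y' S]
    unfold IT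
    congr 1
    funext x
    rw [← sum_mul]
    congr 1
    rw [← prod_add]
    exact prod_congr rfl fun i _ => indicator_union Y Y' hd (x i)
  rw [zc_eq_IT, h1, sum_powerset_apply_card (fun m => IT (Fin m) q ((reg Y).indicator 1) *
        IT (Fin (k - m)) q ((reg Y').indicator 1)), card_univ, Fintype.card_fin,
    Finset.Nat.sum_antidiagonal_eq_sum_range_succ_mk, mul_sum]
  refine sum_congr rfl fun m hm => ?_
  have hmk : m ≤ k := Nat.lt_succ_iff.mp (mem_range.mp hm)
  show _ = zc q (reg Y) m * zc q (reg Y') (k - m)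
  rw [zc_eq_IT, zc_eq_IT, nsmul_eq_mul]
  have hf : (k.choose m : ℝ) * (m.factorial : ℝ) * ((k - m).factorial : ℝ) =
      (k.factorial : ℝ) := by exact_mod_cast Nat.choose_mul_factorial_mul_factorial hmk
  have hm0 : (m.factorial : ℝ) ≠ 0 := by exact_mod_cast m.factorial_ne_zero
  have hk0 : (k.factorial : ℝ) ≠ 0 := by exact_mod_cast k.factorial_ne_zero
  have hkm0 : ((k - m).factorial : ℝ) ≠ 0 := by exact_mod_cast (k - m).factorial_ne_zero
  field_simp
  rw [← hf]
  ring

end Regions

end Pool.Agent.Lib.P8e91ed
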