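import Pool.Agent.Lib.P8e91ed.Defs

/-!
Elementary facts on `cutw`, `histw` and `dens`.
-/

set_option autoImplicit false

open MeasureTheory Metric Filter Topology

noncomputable section

namespace Pool.Agent.Lib.P8e91ed

variable {d : ℕ} {q : Sp d → ℝ} {r : ℝ}

/-! ### Elementary facts on `cutw`, `histw`, `dens` -/

theorem cutw_nonneg (hq : IsPot q r) (v w x : Sp d) : 0 ≤ cutw q v w x := by
  unfold cutw
  split_ifs
  · exact hq.nonneg _
  · exact zero_le_one

theorem cutw_le_one (hq : IsPot q r) (v w x : Sp d) : cutw q v w x ≤ 1 := by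
  unfold cutw
  split_ifs
  · exact hq.le_one _
  · exact le_rfl

theorem measurable_cutw (hq : IsPot q r) :
    Measurable (fun p : Sp d × Sp d × Sp d => cutw q p.1 p.2.1 p.2.2) := by
  unfold cutw
  refine Measurable.ite (measurableSet_lt ?_ ?_) (hq.meas.comp ?_) measurable_const
  · fun_prop
  · fun_prop
  · fun_prop

theorem histw_nonneg (hq : IsPot q r) {j : ℕ} (h : Fin (j + 1) → Sp d) (x : Sp d) :
    0 ≤ histw q h x := Finset.prod_nonneg fun i _ => cutw_nonneg hq _ _ _

theorem histw_le_one (hq : IsPot q r) {j : ℕ} (h : Fin (j + 1) → Sp d) (x : Sp d) :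
    histw q h x ≤ 1 :=
  Finset.prod_le_one (fun i _ => cutw_nonneg hq _ _ _) (fun i _ => cutw_le_one hq _ _ _)

theorem measurable_histw (hq : IsPot q r) (j : ℕ) :
    Measurable (fun p : (Fin (j + 1) → Sp d) × Sp d => histw q p.1 p.2) := by
  unfold histw
  refine Finset.measurable_prod _ fun i _ => ?_
  exact (measurable_cutw hq).comp (f := fun p : (Fin (j + 1) → Sp d) × Sp d =>
    (p.1 i.castSucc, p.1 i.succ, p.2)) (by fun_prop)

theorem histw_snoc {j : ℕ} (h : Fin (j + 1) → Sp d) (w x : Sp d) :
    histw q (Fin.snoc (α := fun _ => Sp d) h w : Fin (j + 2) → Sp d) x =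
      histw q h x * cutw q (h (Fin.last j)) w x := by
  unfold histw
  rw [Fin.prod_univ_castSucc]
  congr 1
  · refine Finset.prod_congr rfl fun i _ => ?_
    have e1 : (Fin.snoc (α := fun _ => Sp d) h w : Fin (j + 2) → Sp d) (i.castSucc.castSucc) =
        h i.castSucc := Fin.snoc_castSucc (α := fun _ => Sp d) w h i.castSucc
    have e2 : (Fin.snoc (α := fun _ => Sp d) h w : Fin (j + 2) → Sp d) (i.castSucc.succ) =
        h i.succ := by
      rw [← Fin.castSucc_succ]
      exact Fin.snoc_castSucc (α := fun _ => Sp d) w h i.succ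
    rw [e1, e2]
  · have e1 : (Fin.snoc (α := fun _ => Sp d) h w : Fin (j + 2) → Sp d) ((Fin.last j).castSucc) =
        h (Fin.last j) := Fin.snoc_castSucc (α := fun _ => Sp d) w h (Fin.last j)
    have e2 : (Fin.snoc (α := fun _ => Sp d) h w : Fin (j + 2) → Sp d) ((Fin.last j).succ) = w := by
      rw [Fin.succ_last]
      exact Fin.snoc_last (α := fun _ => Sp d) w h
    rw [e1, e2]

theorem dens_nonneg (hq : IsPot q r) {η : Sp d → ℝ} (h0 : ∀ x, 0 ≤ η x) {j : ℕ}
    (h : Fin (j + 1) → Sp d) (x : Sp d) : 0 ≤ dens q η h x :=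
  mul_nonneg (mul_nonneg (h0 x) (histw_nonneg hq h x)) (sub_nonneg.2 (hq.le_one _))

theorem dens_le (hq : IsPot q r) {η : Sp d → ℝ} (h0 : ∀ x, 0 ≤ η x) (h1 : ∀ x, η x ≤ 1) {j : ℕ}
    (h : Fin (j + 1) → Sp d) (x : Sp d) :
    dens q η h x ≤ (closedBall (h (Fin.last j)) r).indicator 1 x := by
  unfold dens
  by_cases hx : x ∈ closedBall (h (Fin.last j)) r
  · rw [Set.indicator_of_mem hx]
    have a1 := histw_nonneg hq h x
    have a2 := histw_le_one hq h x
    have a3 := hq.nonneg (h (Fin.last j) - x)
    have a4 := hq.le_one (h (Fin.last j) - x)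
    calc η x * histw q h x * (1 - q (h (Fin.last j) - x)) ≤ 1 * 1 * 1 := by
          refine mul_le_mul (mul_le_mul (h1 x) a2 a1 zero_le_one) (by linarith) (by linarith)
            (by norm_num)
      _ = (1 : Sp d → ℝ) x := by simp
  · rw [Set.indicator_of_notMem hx]
    have : r < ‖h (Fin.last j) - x‖ := by
      rw [mem_closedBall, not_le, dist_eq_norm] at hx
      rwa [norm_sub_rev]
    rw [hq.far _ this]
    simp

theorem measurable_dens (hq : IsPot q r) {η : Sp d → ℝ} (hη : Measurable η) (j : ℕ) :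
    Measurable (Function.uncurry fun (h : Fin (j + 1) → Sp d) (x : Sp d) => dens q η h x) := by
  unfold dens
  refine Measurable.mul (Measurable.mul (hη.comp measurable_snd) (measurable_histw hq j)) ?_
  exact measurable_const.sub (hq.meas.comp (f := fun p : (Fin (j + 1) → Sp d) × Sp d =>
    p.1 (Fin.last j) - p.2) (by fun_prop))

theorem integrable_dens (hq : IsPot q r) {η : Sp d → ℝ} (hη : Measurable η) (h0 : ∀ x, 0 ≤ η x)
    (h1 : ∀ x, η x ≤ 1) {j : ℕ} (h : Fin (j + 1) → Sp d) : Integrable (dens q η h) := by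
  have hb : Integrable ((closedBall (h (Fin.last j)) r).indicator (1 : Sp d → ℝ)) :=
    (integrable_indicator_iff measurableSet_closedBall).2
      (by
        have : IntegrableOn (fun _ : Sp d => (1 : ℝ)) (closedBall (h (Fin.last j)) r) :=
          integrableOn_const (hs := measure_closedBall_lt_top.ne)
        exact this)
  refine hb.mono' ?_ (Eventually.of_forall fun x => ?_)
  · exact ((measurable_dens hq hη j).comp (measurable_const.prodMk measurable_id
      (β := Fin (j + 1) → Sp d) (f := fun _ => h))).aestronglyMeasurable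
  · rw [Real.norm_of_nonneg (dens_nonneg hq h0 h x)]
    exact dens_le hq h0 h1 h x

theorem integral_dens_le (hq : IsPot q r) {η : Sp d → ℝ} (hη : Measurable η)
    (h0 : ∀ x, 0 ≤ η x) (h1 : ∀ x, η x ≤ 1) {j : ℕ} (h : Fin (j + 1) → Sp d) :
    ∫ x, dens q η h x ≤ (volume (closedBall (0 : Sp d) r)).toReal := by
  have hb : Integrable ((closedBall (h (Fin.last j)) r).indicator (1 : Sp d → ℝ)) :=
    (integrable_indicator_iff measurableSet_closedBall).2
      (by
        have : IntegrableOn (fun _ : Sp d => (1 : ℝ)) (closedBall (h (Fin.last j)) r) :=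
          integrableOn_const (hs := measure_closedBall_lt_top.ne)
        exact this)
  calc ∫ x, dens q η h x ≤ ∫ x, (closedBall (h (Fin.last j)) r).indicator (1 : Sp d → ℝ) x :=
        integral_mono (integrable_dens hq hη h0 h1 h) hb (dens_le hq h0 h1 h)
    _ = (volume (closedBall (h (Fin.last j)) r)).toReal := by
        rw [integral_indicator_one measurableSet_closedBall]
        rfl
    _ = (volume (closedBall (0 : Sp d) r)).toReal := by
        congr 1
        rw [Measure.addHaar_closedBall_center]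

end Pool.Agent.Lib.P8e91ed
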