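import Pool.Agent.Lib.P8e91ed.Defs

/-!
Holomorphic dependence of integrals on a parameter, and basic facts on `nearSeg`.
-/

set_option autoImplicit false

open MeasureTheory Metric Filter Topology

noncomputable section

namespace Pool.Agent.Lib.P8e91ed

theorem isOpen_nearSeg (lam0 δ : ℝ) : IsOpen (nearSeg lam0 δ) := by
  have : nearSeg lam0 δ = ⋃ s ∈ Set.Icc (0 : ℝ) lam0, ball (s : ℂ) δ := by
    ext z
    simp only [nearSeg, Set.mem_ofPred_eq, Set.mem_iUnion, mem_ball, dist_eq_norm, exists_prop]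
  rw [this]
  exact isOpen_biUnion fun s _ => isOpen_ball

theorem convex_nearSeg (lam0 δ : ℝ) : Convex ℝ (nearSeg lam0 δ) := by
  rintro x ⟨s, hs, hx⟩ y ⟨t, ht, hy⟩ a b ha hb hab
  refine ⟨a * s + b * t, ?_, ?_⟩
  · exact (convex_Icc 0 lam0) hs ht ha hb hab
  · have e : a • x + b • y - ((a * s + b * t : ℝ) : ℂ) = a • (x - s) + b • (y - t) := by
      simp only [Complex.real_smul]
      push_cast
      ring
    rw [e]
    refine (norm_add_le _ _).trans_lt ?_
    rw [norm_smul, norm_smul, Real.norm_of_nonneg ha, Real.norm_of_nonneg hb]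
    rcases ha.eq_or_lt with h | h
    · have hb1 : b = 1 := by linarith
      rw [← h, hb1]
      simpa using hy
    · have e2 : a * δ + b * δ = δ := by rw [← add_mul, hab, one_mul]
      have := mul_lt_mul_of_pos_left hx h
      have := mul_le_mul_of_nonneg_left hy.le hb
      linarith

theorem nearSeg_mono {lam0 lam1 δ δ' : ℝ} (h : lam0 ≤ lam1) (h' : δ ≤ δ') :
    nearSeg lam0 δ ⊆ nearSeg lam1 δ' := by
  rintro z ⟨s, hs, hz⟩
  exact ⟨s, ⟨hs.1, hs.2.trans h⟩, hz.trans_le h'⟩

theorem ofReal_mem_nearSeg {lam0 δ s : ℝ} (hδ : 0 < δ) (hs : s ∈ Set.Icc (0 : ℝ) lam0) :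
    (s : ℂ) ∈ nearSeg lam0 δ := ⟨s, hs, by simpa using hδ⟩

theorem ball_subset_nearSeg {lam0 δ s : ℝ} (hs : s ∈ Set.Icc (0 : ℝ) lam0) :
    ball (s : ℂ) δ ⊆ nearSeg lam0 δ := fun z hz => ⟨s, hs, by simpa [dist_eq_norm] using hz⟩

/-- Holomorphic dependence on a parameter. -/
theorem differentiableOn_integral {X : Type*} [MeasurableSpace X] {μ : Measure X}
    {U : Set ℂ} (hU : IsOpen U) {F : ℂ → X → ℂ} {g : X → ℝ}
    (hdiff : ∀ x, DifferentiableOn ℂ (fun z => F z x) U)
    (hmeas : ∀ z ∈ U, AEStronglyMeasurable (F z) μ)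
    (hbound : ∀ z ∈ U, ∀ x, ‖F z x‖ ≤ g x) (hg : Integrable g μ) :
    DifferentiableOn ℂ (fun z => ∫ x, F z x ∂μ) U := by
  intro z0 hz0
  obtain ⟨ε, hε, hball⟩ := Metric.isOpen_iff.1 hU z0 hz0
  set F' : ℂ → X → ℂ := fun z x => deriv (fun w => F w x) z with hF'
  have hsub : ∀ z ∈ ball z0 (ε / 2), closedBall z (ε / 4) ⊆ U := by
    intro z hz w hw
    apply hball
    have h1 := mem_closedBall.1 hw
    have h2 := mem_ball.1 hz
    have := dist_triangle w z z0
    rw [mem_ball]
    linarith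
  have hmem : ∀ z ∈ ball z0 (ε / 2), z ∈ U := fun z hz =>
    hsub z hz (mem_closedBall_self (by positivity))
  have hint : Integrable (F z0) μ :=
    hg.mono' (hmeas z0 hz0) (Eventually.of_forall fun x => hbound z0 hz0 x)
  have hb : ∀ z ∈ ball z0 (ε / 2), ∀ x, ‖F' z x‖ ≤ g x / (ε / 4) := by
    intro z hz x
    refine Complex.norm_deriv_le_of_forall_mem_sphere_norm_le (by positivity) ?_ ?_
    · refine DifferentiableOn.diffContOnCl ?_
      rw [closure_ball _ (by positivity)]
      exact (hdiff x).mono (hsub z hz)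
    · intro w hw
      exact hbound w (hsub z hz (sphere_subset_closedBall hw)) x
  have hd : ∀ z ∈ ball z0 (ε / 2), ∀ x, HasDerivAt (fun w => F w x) (F' z x) z := by
    intro z hz x
    exact ((hdiff x).differentiableAt (hU.mem_nhds (hmem z hz))).hasDerivAt
  have hF'm : AEStronglyMeasurable (F' z0) μ := by
    -- limit of difference quotients
    have hlim : ∀ x, Tendsto (fun n : ℕ => ((1 : ℂ) / (n + 1))⁻¹ • (F (z0 + 1 / (n + 1)) x - F z0 x))
        atTop (𝓝 (F' z0 x)) := by
      intro x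
      have h1 := hd z0 (mem_ball_self (by positivity)) x
      have h2 : Tendsto (fun n : ℕ => (1 : ℂ) / (n + 1)) atTop (𝓝[≠] 0) := by
        refine tendsto_nhdsWithin_iff.2 ⟨tendsto_one_div_add_atTop_nhds_zero_nat, ?_⟩
        refine Eventually.of_forall fun n => ?_
        simp only [Set.mem_compl_iff, Set.mem_singleton_iff, one_div, inv_eq_zero]
        exact_mod_cast n.succ_ne_zero
      have h3 := (hasDerivAt_iff_tendsto_slope_zero.1 h1).comp h2
      exact h3
    have h4 : ∀ᶠ n : ℕ in atTop, z0 + 1 / ((n : ℂ) + 1) ∈ U := by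
      have h5 : Tendsto (fun n : ℕ => z0 + 1 / ((n : ℂ) + 1)) atTop (𝓝 (z0 + 0)) :=
        tendsto_const_nhds.add tendsto_one_div_add_atTop_nhds_zero_nat
      rw [add_zero] at h5
      exact h5 (hU.mem_nhds hz0)
    obtain ⟨n0, hn0⟩ := eventually_atTop.1 h4
    refine aestronglyMeasurable_of_tendsto_ae (u := atTop)
      (f := fun n : ℕ => fun x =>
        ((1 : ℂ) / ((n + n0 : ℕ) + 1))⁻¹ • (F (z0 + 1 / ((n + n0 : ℕ) + 1)) x - F z0 x))
      (fun n => ?_) (Eventually.of_forall fun x => ?_)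
    · have h7 := ((hmeas _ (hn0 (n + n0) (by omega))).sub (hmeas z0 hz0)).const_smul
        (((1 : ℂ) / ((n + n0 : ℕ) + 1))⁻¹)
      exact h7
    · have h6 := (hlim x).comp (tendsto_add_atTop_nat n0)
      exact h6
  have key := hasDerivAt_integral_of_dominated_loc_of_deriv_le (𝕜 := ℂ) (F := F) (F' := F')
    (x₀ := z0) (μ := μ) (bound := fun x => g x / (ε / 4)) (s := ball z0 (ε / 2))
    (ball_mem_nhds z0 (by positivity))
    (by
      filter_upwards [ball_mem_nhds z0 (show 0 < ε / 2 by positivity)] with z hz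
      exact hmeas z (hmem z hz))
    hint hF'm (Eventually.of_forall fun x z hz => hb z hz x) (hg.div_const _)
    (Eventually.of_forall fun x z hz => hd z hz x)
  exact key.2.differentiableAt.differentiableWithinAt

end Pool.Agent.Lib.P8e91ed
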