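import Pool.Agent.Lib.P8e91ed.Defs

/-!
Module Lyapunov for MP_8e91ed_lc: the Lyapunov weight for the Michelen-Perkins recursion.
-/

set_option autoImplicit false
set_option linter.unusedVariables false

open MeasureTheory Finset

noncomputable section

namespace Pool.Agent.Lib.P8e91ed

namespace Lyap

variable {d : ℕ} {q : Sp d → ℝ} {r : ℝ}

/-- snoc of a history -/
def sn {j : ℕ} (h : Fin (j + 1) → Sp d) (x : Sp d) : Fin (j + 1 + 1) → Sp d :=
  Fin.snoc (α := fun _ => Sp d) h x

/-- iterates of the unnormalised operator on the function `1` -/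
def F (q : Sp d → ℝ) (η : Sp d → ℝ) : ℕ → (j : ℕ) → (Fin (j + 1) → Sp d) → ℝ
  | 0, _, _ => 1
  | i + 1, j, h => ∫ x, dens q η h x * F q η i (j + 1) (sn h x)

lemma cutw_nonneg (hq : IsPot q r) (v w x : Sp d) : 0 ≤ cutw q v w x := by
  unfold cutw; split_ifs
  · exact hq.nonneg _
  · exact zero_le_one

lemma cutw_le_one (hq : IsPot q r) (v w x : Sp d) : cutw q v w x ≤ 1 := by
  unfold cutw; split_ifs
  · exact hq.le_one _
  · exact le_rfl

lemma histw_nonneg (hq : IsPot q r) {j : ℕ} (h : Fin (j + 1) → Sp d) (x : Sp d) :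
    0 ≤ histw q h x := Finset.prod_nonneg fun _ _ => cutw_nonneg hq _ _ _

lemma histw_le_one (hq : IsPot q r) {j : ℕ} (h : Fin (j + 1) → Sp d) (x : Sp d) :
    histw q h x ≤ 1 := Finset.prod_le_one (fun _ _ => cutw_nonneg hq _ _ _)
      fun _ _ => cutw_le_one hq _ _ _

lemma dens_nonneg (hq : IsPot q r) {η : Sp d → ℝ} (h0 : ∀ x, 0 ≤ η x) {j : ℕ}
    (h : Fin (j + 1) → Sp d) (x : Sp d) : 0 ≤ dens q η h x := by
  unfold dens
  exact mul_nonneg (mul_nonneg (h0 x) (histw_nonneg hq h x)) (sub_nonneg.2 (hq.le_one _))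

lemma dens_le (hq : IsPot q r) {η : Sp d → ℝ} (_h0 : ∀ x, 0 ≤ η x) (h1 : ∀ x, η x ≤ 1) {j : ℕ}
    (h : Fin (j + 1) → Sp d) (x : Sp d) : dens q η h x ≤ 1 - q (h (Fin.last j) - x) := by
  unfold dens
  have h2 : 0 ≤ 1 - q (h (Fin.last j) - x) := sub_nonneg.2 (hq.le_one _)
  have h3 : η x * histw q h x ≤ 1 :=
    mul_le_one₀ (h1 x) (histw_nonneg hq h x) (histw_le_one hq h x)
  calc η x * histw q h x * (1 - q (h (Fin.last j) - x)) ≤ 1 * (1 - q (h (Fin.last j) - x)) :=
        mul_le_mul_of_nonneg_right h3 h2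
    _ = _ := one_mul _

lemma measurable_cutw (hq : IsPot q r) {α : Type*} [MeasurableSpace α] {v w x : α → Sp d}
    (hv : Measurable v) (hw : Measurable w) (hx : Measurable x) :
    Measurable fun a => cutw q (v a) (w a) (x a) := by
  unfold cutw
  exact Measurable.ite (measurableSet_lt (hx.sub hv).norm (hw.sub hv).norm)
    (hq.meas.comp (hv.sub hx)) measurable_const

lemma measurable_dens (hq : IsPot q r) {η : Sp d → ℝ} (hη : Measurable η) (j : ℕ) :
    Measurable fun p : (Fin (j + 1) → Sp d) × Sp d => dens q η p.1 p.2 := by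
  unfold dens histw
  refine ((hη.comp measurable_snd).mul ?_).mul ?_
  · refine Finset.measurable_fun_prod _ fun i _ => ?_
    exact measurable_cutw hq ((measurable_pi_apply _).comp measurable_fst)
      ((measurable_pi_apply _).comp measurable_fst) measurable_snd
  · exact measurable_const.sub (hq.meas.comp
      (((measurable_pi_apply _).comp measurable_fst).sub measurable_snd))

lemma measurable_sn (j : ℕ) :
    Measurable fun p : (Fin (j + 1) → Sp d) × Sp d => sn p.1 p.2 := by
  rw [measurable_pi_iff]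
  intro i
  refine Fin.lastCases ?_ (fun i => ?_) i
  · simp only [sn, Fin.snoc_last]
    exact measurable_snd
  · simp only [sn, Fin.snoc_castSucc]
    exact (measurable_pi_apply _).comp measurable_fst

/-- `1 - q` is integrable -/
lemma integrable_one_sub (hq : IsPot q r) : Integrable fun x : Sp d => 1 - q x := by
  have hK : IsCompact (Metric.closedBall (0 : Sp d) r) := isCompact_closedBall _ _
  have hint : IntegrableOn (fun x : Sp d => 1 - q x) (Metric.closedBall (0 : Sp d) r) := by
    refine Measure.integrableOn_of_bounded (M := 1) hK.measure_lt_top.ne ?_ ?_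
    · exact (measurable_const.sub hq.meas).aestronglyMeasurable
    · refine Filter.Eventually.of_forall fun x => ?_
      rw [Real.norm_eq_abs, abs_le]
      constructor
      · linarith [hq.le_one x]
      · linarith [hq.nonneg x]
  have hsupp : Function.support (fun x : Sp d => 1 - q x) ⊆ Metric.closedBall (0 : Sp d) r := by
    intro x hx
    by_contra hne
    rw [mem_closedBall_zero_iff, not_le] at hne
    apply hx
    simp [hq.far x hne]
  exact (integrableOn_iff_integrable_of_support_subset hsupp).1 hint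

lemma integrable_shift (hq : IsPot q r) (v : Sp d) : Integrable fun x : Sp d => 1 - q (v - x) :=
  (integrable_one_sub hq).comp_sub_left v

lemma integral_shift (v : Sp d) :
    ∫ x : Sp d, (1 - q (v - x)) = ∫ x : Sp d, (1 - q x) :=
  integral_sub_left_eq_self (fun x => 1 - q x) volume v

lemma integrable_dens_mul (hq : IsPot q r) {η : Sp d → ℝ} (hη : Measurable η)
    (h0 : ∀ x, 0 ≤ η x) (h1 : ∀ x, η x ≤ 1) {j : ℕ}
    (h : Fin (j + 1) → Sp d) {G : Sp d → ℝ} (hG : Measurable G) {M : ℝ}
    (hM : ∀ x, |G x| ≤ M) : Integrable fun x => dens q η h x * G x := by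
  have hmeas : Measurable fun x => dens q η h x :=
    (measurable_dens hq hη j).comp (measurable_const.prodMk measurable_id)
  refine Integrable.mono' ((integrable_shift hq (h (Fin.last j))).mul_const M)
    (hmeas.mul hG).aestronglyMeasurable (Filter.Eventually.of_forall fun x => ?_)
  rw [Real.norm_eq_abs, abs_mul, abs_of_nonneg (dens_nonneg hq h0 h x)]
  exact mul_le_mul (dens_le hq h0 h1 h x) (hM x) (abs_nonneg _) (sub_nonneg.2 (hq.le_one _))

lemma measurable_F (hq : IsPot q r) {η : Sp d → ℝ} (hη : Measurable η) (i : ℕ) :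
    ∀ j, Measurable (F q η i j) := by
  induction i with
  | zero => intro j; exact measurable_const
  | succ i ih =>
    intro j
    have h1 : Measurable fun p : (Fin (j + 1) → Sp d) × Sp d =>
        dens q η p.1 p.2 * F q η i (j + 1) (sn p.1 p.2) :=
      (measurable_dens hq hη j).mul ((ih (j + 1)).comp (measurable_sn j))
    have h2 := StronglyMeasurable.integral_prod_right (ν := (volume : Measure (Sp d)))
      (f := fun (h : Fin (j + 1) → Sp d) (x : Sp d) =>
        dens q η h x * F q η i (j + 1) (sn h x)) h1.stronglyMeasurable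
    exact h2.measurable

lemma F_bounds (hq : IsPot q r) {η : Sp d → ℝ} (hη : Measurable η)
    (h0 : ∀ x, 0 ≤ η x) (h1 : ∀ x, η x ≤ 1) (i : ℕ) :
    ∀ j h, 0 ≤ F q η i j h ∧ F q η i j h ≤ (∫ x : Sp d, (1 - q x)) ^ i := by
  induction i with
  | zero => intro j h; simp [F]
  | succ i ih =>
    intro j h
    have hC : 0 ≤ (∫ x : Sp d, (1 - q x)) ^ i := (ih j h).1.trans (ih j h).2
    constructor
    · exact integral_nonneg fun x => mul_nonneg (dens_nonneg hq h0 h x) (ih _ _).1
    · have hmeas : Measurable fun x => F q η i (j + 1) (sn h x) :=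
        (measurable_F hq hη i (j + 1)).comp
          ((measurable_sn j).comp (measurable_const.prodMk measurable_id))
      calc F q η (i + 1) j h = ∫ x, dens q η h x * F q η i (j + 1) (sn h x) := rfl
        _ ≤ ∫ x, (1 - q (h (Fin.last j) - x)) * (∫ x : Sp d, (1 - q x)) ^ i := by
            refine integral_mono (integrable_dens_mul hq hη h0 h1 h hmeas
              (M := (∫ x : Sp d, (1 - q x)) ^ i) ?_)
              ((integrable_shift hq _).mul_const _) fun x => ?_
            · intro x
              rw [abs_of_nonneg (ih _ _).1]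
              exact (ih _ _).2
            · exact mul_le_mul (dens_le hq h0 h1 h x) (ih _ _).2 (ih _ _).1
                (sub_nonneg.2 (hq.le_one _))
        _ = (∫ x : Sp d, (1 - q x)) ^ (i + 1) := by
            rw [integral_mul_const, integral_shift, pow_succ, mul_comm]

lemma integrable_F (hq : IsPot q r) {η : Sp d → ℝ} (hη : Measurable η)
    (h0 : ∀ x, 0 ≤ η x) (h1 : ∀ x, η x ≤ 1) (i : ℕ) {j : ℕ} (h : Fin (j + 1) → Sp d) :
    Integrable fun x => dens q η h x * F q η i (j + 1) (sn h x) := by
  have hmeas : Measurable fun x => F q η i (j + 1) (sn h x) :=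
    (measurable_F hq hη i (j + 1)).comp
      ((measurable_sn j).comp (measurable_const.prodMk measurable_id))
  refine integrable_dens_mul hq hη h0 h1 h hmeas (M := (∫ x : Sp d, (1 - q x)) ^ i) ?_
  intro x
  rw [abs_of_nonneg (F_bounds hq hη h0 h1 i _ _).1]
  exact (F_bounds hq hη h0 h1 i _ _).2

/-- comparison: dropping the oldest point of the history -/
lemma histw_tail (hq : IsPot q r) {j : ℕ} (h : Fin (j + 1 + 1) → Sp d) (x : Sp d) :
    histw q h x ≤ histw q (fun i : Fin (j + 1) => h i.succ) x := by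
  unfold histw
  rw [Fin.prod_univ_succ]
  have h1 : ∏ i : Fin j, cutw q (h i.succ.castSucc) (h i.succ.succ) x =
      ∏ i : Fin j, cutw q (h i.castSucc.succ) (h i.succ.succ) x := by
    refine Finset.prod_congr rfl fun i _ => ?_
    rw [Fin.succ_castSucc]
  rw [h1]
  have h2 : 0 ≤ ∏ i : Fin j, cutw q (h i.castSucc.succ) (h i.succ.succ) x :=
    Finset.prod_nonneg fun _ _ => cutw_nonneg hq _ _ _
  exact mul_le_of_le_one_left h2 (cutw_le_one hq _ _ _)

lemma sn_tail {j : ℕ} (h : Fin (j + 1 + 1) → Sp d) (x : Sp d) :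
    (fun i : Fin (j + 1 + 1) => sn h x i.succ) = sn (fun i : Fin (j + 1) => h i.succ) x := by
  funext i
  refine Fin.lastCases ?_ (fun i => ?_) i
  · simp only [sn, Fin.snoc_last, Fin.succ_last]
  · simp only [sn, Fin.snoc_castSucc]
    rw [Fin.succ_castSucc, Fin.snoc_castSucc]

lemma F_tail (hq : IsPot q r) {η : Sp d → ℝ} (hη : Measurable η)
    (h0 : ∀ x, 0 ≤ η x) (h1 : ∀ x, η x ≤ 1) (i : ℕ) :
    ∀ (j : ℕ) (h : Fin (j + 1 + 1) → Sp d),
      F q η i (j + 1) h ≤ F q η i j (fun i : Fin (j + 1) => h i.succ) := by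
  induction i with
  | zero => intro j h; simp [F]
  | succ i ih =>
    intro j h
    show ∫ x, dens q η h x * F q η i (j + 1 + 1) (sn h x) ≤
      ∫ x, dens q η (fun i : Fin (j + 1) => h i.succ) x *
        F q η i (j + 1) (sn (fun i : Fin (j + 1) => h i.succ) x)
    refine integral_mono (integrable_F hq hη h0 h1 i h) (integrable_F hq hη h0 h1 i _) fun x => ?_
    have hF := ih (j + 1) (sn h x)
    rw [sn_tail] at hF
    refine mul_le_mul ?_ hF (F_bounds hq hη h0 h1 i _ _).1 (dens_nonneg hq h0 _ x)
    unfold dens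
    have hl : Fin.last (j + 1) = (Fin.last j).succ := (Fin.succ_last j).symm
    rw [hl]
    refine mul_le_mul_of_nonneg_right ?_ (sub_nonneg.2 (hq.le_one _))
    exact mul_le_mul_of_nonneg_left (histw_tail hq h x) (h0 x)

lemma F_last (hq : IsPot q r) {η : Sp d → ℝ} (hη : Measurable η)
    (h0 : ∀ x, 0 ≤ η x) (h1 : ∀ x, η x ≤ 1) (i : ℕ) :
    ∀ (j : ℕ) (h : Fin (j + 1) → Sp d),
      F q η i j h ≤ F q η i 0 (fun _ : Fin 1 => h (Fin.last j)) := by
  intro j
  induction j with
  | zero =>
    intro h
    apply le_of_eq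
    congr 1
    funext k
    have hk : k = Fin.last 0 := by
      apply Fin.ext
      have := k.2
      simp only [Fin.val_last]
      omega
    rw [hk]
  | succ j ih =>
    intro h
    refine (F_tail hq hη h0 h1 i j h).trans ((ih _).trans (le_of_eq ?_))
    rw [Fin.succ_last]

/-- comparison in the weight -/
lemma F_mono (hq : IsPot q r) {η : Sp d → ℝ} (hη : Measurable η)
    (h0 : ∀ x, 0 ≤ η x) (h1 : ∀ x, η x ≤ 1) (i : ℕ) :
    ∀ (j : ℕ) (h : Fin (j + 1) → Sp d), F q η i j h ≤ F q (fun _ => 1) i j h := by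
  induction i with
  | zero => intro j h; simp [F]
  | succ i ih =>
    intro j h
    refine integral_mono (integrable_F hq hη h0 h1 i h)
      (integrable_F hq measurable_const (fun _ => zero_le_one) (fun _ => le_rfl) i _) fun x => ?_
    refine mul_le_mul ?_ (ih _ _) (F_bounds hq hη h0 h1 i _ _).1
      (dens_nonneg hq (fun _ => zero_le_one) _ x)
    unfold dens
    refine mul_le_mul_of_nonneg_right ?_ (sub_nonneg.2 (hq.le_one _))
    exact mul_le_mul_of_nonneg_right (h1 x) (histw_nonneg hq h x)

/-- translation invariance -/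
lemma F_translate (i : ℕ) (c : Sp d) :
    ∀ (j : ℕ) (h : Fin (j + 1) → Sp d),
      F q (fun _ => 1) i j (fun k => h k + c) = F q (fun _ => 1) i j h := by
  induction i with
  | zero => intro j h; simp [F]
  | succ i ih =>
    intro j h
    show ∫ x, dens q (fun _ => 1) (fun k => h k + c) x *
        F q (fun _ => 1) i (j + 1) (sn (fun k => h k + c) x) =
      ∫ x, dens q (fun _ => 1) h x * F q (fun _ => 1) i (j + 1) (sn h x)
    rw [← integral_add_right_eq_self (fun x => dens q (fun _ => 1) (fun k => h k + c) x *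
        F q (fun _ => 1) i (j + 1) (sn (fun k => h k + c) x)) c]
    refine integral_congr_ae (Filter.Eventually.of_forall fun x => ?_)
    show dens q (fun _ => 1) (fun k => h k + c) (x + c) *
        F q (fun _ => 1) i (j + 1) (sn (fun k => h k + c) (x + c)) =
      dens q (fun _ => 1) h x * F q (fun _ => 1) i (j + 1) (sn h x)
    have e1 : sn (fun k => h k + c) (x + c) = fun k => sn h x k + c := by
      funext k
      refine Fin.lastCases ?_ (fun k => ?_) k
      · simp only [sn, Fin.snoc_last]
      · simp only [sn, Fin.snoc_castSucc]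
    rw [e1, ih]
    congr 1
    unfold dens histw cutw
    simp only [add_sub_add_right_eq_sub]

/-- the product formula -/
def H (q : Sp d → ℝ) : (i j : ℕ) → (Fin (j + 1) → Sp d) → (Fin i → Sp d) → ℝ
  | 0, _, _, _ => 1
  | i + 1, j, h, v => dens q (fun _ => 1) h (v 0) * H q i (j + 1) (sn h (v 0)) (fun m => v m.succ)

lemma H_bounds (hq : IsPot q r) (i : ℕ) :
    ∀ j (h : Fin (j + 1) → Sp d) v, 0 ≤ H q i j h v ∧ H q i j h v ≤ 1 := by
  induction i with
  | zero => intro j h v; simp [H]
  | succ i ih =>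
    intro j h v
    have h1 := dens_nonneg hq (fun _ => zero_le_one) h (v 0) (η := fun _ => 1)
    have h2 := dens_le hq (fun _ => zero_le_one) (fun _ => le_rfl) h (v 0) (η := fun _ => 1)
    have h3 := hq.nonneg (h (Fin.last j) - v 0)
    refine ⟨mul_nonneg h1 (ih _ _ _).1, ?_⟩
    exact mul_le_one₀ (by linarith) (ih _ _ _).1 (ih _ _ _).2

lemma measurable_H (hq : IsPot q r) (i : ℕ) :
    ∀ j, Measurable fun p : (Fin (j + 1) → Sp d) × (Fin i → Sp d) => H q i j p.1 p.2 := by
  induction i with
  | zero => intro j; exact measurable_const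
  | succ i ih =>
    intro j
    have hv0 : Measurable fun p : (Fin (j + 1) → Sp d) × (Fin (i + 1) → Sp d) => p.2 0 :=
      (measurable_pi_apply _).comp measurable_snd
    have hv : Measurable fun p : (Fin (j + 1) → Sp d) × (Fin (i + 1) → Sp d) =>
        (fun m : Fin i => p.2 m.succ) := by
      rw [measurable_pi_iff]
      exact fun m => (measurable_pi_apply _).comp measurable_snd
    refine ((measurable_dens hq (measurable_const (a := (1 : ℝ))) j).comp
      (measurable_fst.prodMk hv0)).mul ?_
    exact (ih (j + 1)).comp (((measurable_sn j).comp (measurable_fst.prodMk hv0)).prodMk hv)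

lemma H_integral (hq : IsPot q r) (i : ℕ) :
    ∀ j (h : Fin (j + 1) → Sp d), Integrable (H q i j h) ∧
      F q (fun _ => 1) i j h = ∫ v, H q i j h v := by
  induction i with
  | zero =>
    intro j h
    constructor
    · have : H q 0 j h = fun _ => (1 : ℝ) := rfl
      rw [this]
      rw [volume_pi, Measure.pi_of_empty (x := fun a => isEmptyElim a)]
      exact integrable_const _
    · show (1 : ℝ) = ∫ v : Fin 0 → Sp d, (1 : ℝ)
      rw [volume_pi, Measure.pi_of_empty (x := fun a => isEmptyElim a)]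
      simp
  | succ i ih =>
    intro j h
    have hmp := volume_preserving_piFinSuccAbove (fun _ : Fin (i + 1) => Sp d) 0
    have key : ∀ x (w : Fin i → Sp d),
        H q (i + 1) j h ((MeasurableEquiv.piFinSuccAbove (fun _ : Fin (i + 1) => Sp d) 0).symm
          (x, w)) = dens q (fun _ => 1) h x * H q i (j + 1) (sn h x) w := by
      intro x w
      rfl
    have hmeas : Measurable fun p : Sp d × (Fin i → Sp d) =>
        dens q (fun _ => 1) h p.1 * H q i (j + 1) (sn h p.1) p.2 := by
      refine ((measurable_dens hq (measurable_const (a := (1 : ℝ))) j).comp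
        (measurable_const.prodMk measurable_fst)).mul ?_
      exact (measurable_H hq i (j + 1)).comp (((measurable_sn j).comp
        (measurable_const.prodMk measurable_fst)).prodMk measurable_snd)
    have hint : Integrable (fun p : Sp d × (Fin i → Sp d) =>
        dens q (fun _ => 1) h p.1 * H q i (j + 1) (sn h p.1) p.2)
        ((volume : Measure (Sp d)).prod (volume : Measure (Fin i → Sp d))) := by
      rw [integrable_prod_iff hmeas.aestronglyMeasurable]
      constructor
      · refine Filter.Eventually.of_forall fun x => ?_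
        exact ((ih (j + 1) (sn h x)).1).const_mul (dens q (fun _ => 1) h x)
      · have e1 : (fun x : Sp d => ∫ w : Fin i → Sp d,
            ‖dens q (fun _ => 1) h x * H q i (j + 1) (sn h x) w‖) =
            fun x => dens q (fun _ => 1) h x * F q (fun _ => 1) i (j + 1) (sn h x) := by
          funext x
          rw [(ih (j + 1) (sn h x)).2, ← integral_const_mul]
          refine integral_congr_ae (Filter.Eventually.of_forall fun w => ?_)
          show ‖dens q (fun _ => 1) h x * H q i (j + 1) (sn h x) w‖ = _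
          rw [Real.norm_eq_abs, abs_of_nonneg]
          exact mul_nonneg (dens_nonneg hq (fun _ => zero_le_one) h x) (H_bounds hq i _ _ _).1
        rw [e1]
        exact integrable_F hq measurable_const (fun _ => zero_le_one) (fun _ => le_rfl) i h
    have hsymm := hmp.symm (MeasurableEquiv.piFinSuccAbove (fun _ : Fin (i + 1) => Sp d) 0)
    constructor
    · rw [← hsymm.integrable_comp_emb (MeasurableEquiv.measurableEmbedding _)]
      exact hint
    · have h3 := hsymm.integral_comp' (g := H q (i + 1) j h)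
      rw [← h3]
      show ∫ x, dens q (fun _ => 1) h x * F q (fun _ => 1) i (j + 1) (sn h x) = _
      have h4 : (∫ p : Sp d × (Fin i → Sp d), H q (i + 1) j h
          ((MeasurableEquiv.piFinSuccAbove (fun _ : Fin (i + 1) => Sp d) 0).symm p)) =
          ∫ p : Sp d × (Fin i → Sp d),
            dens q (fun _ => 1) h p.1 * H q i (j + 1) (sn h p.1) p.2
            ∂((volume : Measure (Sp d)).prod (volume : Measure (Fin i → Sp d))) := by
        rfl
      refine Eq.trans ?_ h4.symm
      rw [integral_prod _ hint]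
      refine integral_congr_ae (Filter.Eventually.of_forall fun x => ?_)
      show dens q (fun _ => 1) h x * F q (fun _ => 1) i (j + 1) (sn h x) =
        ∫ w, dens q (fun _ => 1) h x * H q i (j + 1) (sn h x) w
      rw [(ih (j + 1) (sn h x)).2, integral_const_mul]

/-- one factor of the product along a path -/
def Dp (q : Sp d → ℝ) (p : ℕ → Sp d) (j : ℕ) : ℝ :=
  (∏ l ∈ range j, cutw q (p l) (p (l + 1)) (p (j + 1))) * (1 - q (p j - p (j + 1)))

lemma dens_path (p : ℕ → Sp d) (j : ℕ) :
    dens q (fun _ => 1) (fun i : Fin (j + 1) => p i) (p (j + 1)) = Dp q p j := by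
  unfold dens Dp histw
  rw [one_mul, Finset.prod_range fun l => cutw q (p l) (p (l + 1)) (p (j + 1))]
  simp

lemma sn_path (p : ℕ → Sp d) (j : ℕ) :
    sn (fun i : Fin (j + 1) => p i) (p (j + 1)) = fun i : Fin (j + 1 + 1) => p i := by
  funext i
  refine Fin.lastCases ?_ (fun i => ?_) i
  · simp only [sn, Fin.snoc_last, Fin.val_last]
  · simp only [sn, Fin.snoc_castSucc, Fin.val_castSucc]

lemma H_path (i : ℕ) : ∀ (j : ℕ) (p : ℕ → Sp d),
    H q i j (fun l : Fin (j + 1) => p l) (fun m : Fin i => p (j + 1 + m)) =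
      ∏ m ∈ range i, Dp q p (j + m) := by
  induction i with
  | zero => intro j p; simp [H]
  | succ i ih =>
    intro j p
    have e0 : (fun m : Fin (i + 1) => p (j + 1 + m)) 0 = p (j + 1) := by simp
    have e1 : (fun m : Fin i => (fun m : Fin (i + 1) => p (j + 1 + m)) m.succ) =
        fun m : Fin i => p (j + 1 + 1 + m) := by
      funext m
      simp only [Fin.val_succ]
      congr 1
      omega
    show dens q (fun _ => 1) (fun l : Fin (j + 1) => p l)
        ((fun m : Fin (i + 1) => p (j + 1 + m)) 0) *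
      H q i (j + 1) (sn (fun l : Fin (j + 1) => p l) ((fun m : Fin (i + 1) => p (j + 1 + m)) 0))
        (fun m : Fin i => (fun m : Fin (i + 1) => p (j + 1 + m)) m.succ) = _
    rw [e0, e1, dens_path, sn_path, ih (j + 1) p, Finset.prod_range_succ']
    rw [mul_comm]
    congr 1
    refine Finset.prod_congr rfl fun m _ => ?_
    congr 1
    omega

lemma F_walk (hq : IsPot q r) (k : ℕ) :
    F q (fun _ => 1) k 0 (fun _ : Fin 1 => (0 : Sp d)) = walkIntegral q k := by
  rw [(H_integral hq k 0 _).2]
  unfold walkIntegral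
  refine integral_congr_ae (Filter.Eventually.of_forall fun v => ?_)
  show H q k 0 (fun _ : Fin 1 => (0 : Sp d)) v = _
  have e0 : (fun _ : Fin 1 => (0 : Sp d)) = fun l : Fin (0 + 1) => path v l := by
    funext l
    have : (l : ℕ) = 0 := by omega
    rw [this]
    simp [path]
  have e1 : v = fun m : Fin k => path v (0 + 1 + m) := by
    funext m
    have hm : 0 < 0 + 1 + (m : ℕ) ∧ 0 + 1 + (m : ℕ) ≤ k := ⟨by omega, by omega⟩
    unfold path
    rw [dif_pos hm]
    congr 1
    apply Fin.ext
    simp
  have e2 := H_path (q := q) k 0 (path v)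
  rw [← e1, ← e0] at e2
  rw [e2]
  have e3 : Icc 1 k = (range k).image (fun m => m + 1) := by
    ext m
    simp only [Finset.mem_Icc, Finset.mem_image, Finset.mem_range]
    constructor
    · intro hm
      exact ⟨m - 1, by omega, by omega⟩
    · rintro ⟨a, ha, rfl⟩
      omega
  show _ = ∏ j ∈ Icc 1 k, ((∏ i ∈ range (j - 1),
        if ‖path v j - path v i‖ < ‖path v i - path v (i + 1)‖
          then q (path v j - path v i) else 1) *
      (1 - q (path v j - path v (j - 1))))
  rw [e3, Finset.prod_image (fun a _ b _ hab => by simpa using hab)]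
  refine Finset.prod_congr rfl fun m _ => ?_
  rw [zero_add, Nat.add_sub_cancel]
  unfold Dp
  congr 1
  · refine Finset.prod_congr rfl fun l _ => ?_
    unfold cutw
    rw [norm_sub_rev (path v (l + 1)) (path v l), ← hq.even (path v l - path v (m + 1)), neg_sub]
  · rw [← hq.even (path v m - path v (m + 1)), neg_sub]

end Lyap

open Lyap in
theorem lyapunov {d : ℕ} (hd : 1 ≤ d) {q : Sp d → ℝ} {r : ℝ} (hq : IsPot q r) {lam0 : ℝ}
    (h0 : 0 ≤ lam0) {k : ℕ} (hk : (lam0 / Real.exp 1) ^ k * walkIntegral q k < 1) :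
    ∃ CW a : ℝ, 1 ≤ CW ∧ 0 < a ∧ a < 1 ∧ ∀ η : Sp d → ℝ, Measurable η → (∀ x, 0 ≤ η x) →
      (∀ x, η x ≤ 1) → ∃ W : (j : ℕ) → (Fin (j + 1) → Sp d) → ℝ,
        (∀ j, Measurable (W j)) ∧ (∀ j h, 1 ≤ W j h ∧ W j h ≤ CW) ∧
        ∀ j h, (lam0 / Real.exp 1) *
          ∫ x, dens q η h x * W (j + 1) (Fin.snoc (α := fun _ => Sp d) h x) ≤ a ^ 2 * W j h := by
  set L : ℝ := lam0 / Real.exp 1 with hL
  have hL0 : 0 ≤ L := by positivity
  set C : ℝ := ∫ x : Sp d, (1 - q x) with hC
  have hC0 : 0 ≤ C := integral_nonneg fun x => sub_nonneg.2 (hq.le_one x)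
  -- `k ≥ 1`
  have hk1 : 1 ≤ k := by
    rcases Nat.eq_zero_or_pos k with h | h
    · subst h
      exfalso
      have h1 := F_walk hq 0
      have h2 : walkIntegral q 0 = 1 := h1.symm.trans rfl
      rw [h2] at hk
      simp at hk
    · exact h
  -- choice of `γ`
  obtain ⟨γ, hγ1, hγ⟩ : ∃ γ : ℝ, 1 < γ ∧ γ ^ k * (L ^ k * walkIntegral q k) < 1 := by
    have hcont : ContinuousAt (fun γ : ℝ => γ ^ k * (L ^ k * walkIntegral q k)) 1 := by
      fun_prop
    have h1 : (fun γ : ℝ => γ ^ k * (L ^ k * walkIntegral q k)) 1 < 1 := by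
      simpa using hk
    have h2 := hcont.eventually_lt continuousAt_const h1
    have h3 : ∀ᶠ γ : ℝ in nhdsWithin 1 (Set.Ioi 1), γ ^ k * (L ^ k * walkIntegral q k) < 1 :=
      h2.filter_mono nhdsWithin_le_nhds
    obtain ⟨γ, hγ, hγ'⟩ := (h3.and self_mem_nhdsWithin).exists
    exact ⟨γ, hγ', hγ⟩
  have hγ0 : 0 < γ := by linarith
  refine ⟨∑ i ∈ range k, γ ^ i * L ^ i * C ^ i, Real.sqrt γ⁻¹, ?_, ?_, ?_, ?_⟩
  · calc (1 : ℝ) = γ ^ 0 * L ^ 0 * C ^ 0 := by simp
      _ ≤ _ := Finset.single_le_sum (f := fun i => γ ^ i * L ^ i * C ^ i)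
          (fun i _ => by positivity) (Finset.mem_range.2 hk1)
  · exact Real.sqrt_pos.2 (inv_pos.2 hγ0)
  · rw [Real.sqrt_lt' one_pos, one_pow]
    exact inv_lt_one_of_one_lt₀ hγ1
  intro η hη hη0 hη1
  have hF := fun i j (h : Fin (j + 1) → Sp d) => F_bounds hq hη hη0 hη1 i j h
  refine ⟨fun j h => ∑ i ∈ range k, γ ^ i * L ^ i * F q η i j h, ?_, ?_, ?_⟩
  · intro j
    exact Finset.measurable_fun_sum _ fun i _ => (measurable_F hq hη i j).const_mul _
  · intro j h
    constructor
    · calc (1 : ℝ) = γ ^ 0 * L ^ 0 * F q η 0 j h := by simp [F]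
        _ ≤ _ := Finset.single_le_sum (f := fun i => γ ^ i * L ^ i * F q η i j h)
          (fun i _ => mul_nonneg (by positivity) (hF i j h).1) (Finset.mem_range.2 hk1)
    · exact Finset.sum_le_sum fun i _ => mul_le_mul_of_nonneg_left (hF i j h).2 (by positivity)
  · intro j h
    have h1 : ∫ x, dens q η h x * ∑ i ∈ range k, γ ^ i * L ^ i *
        F q η i (j + 1) (Fin.snoc (α := fun _ => Sp d) h x) =
        ∑ i ∈ range k, γ ^ i * L ^ i * F q η (i + 1) j h := by
      have e : (fun x => dens q η h x * ∑ i ∈ range k, γ ^ i * L ^ i *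
          F q η i (j + 1) (Fin.snoc (α := fun _ => Sp d) h x)) =
          fun x => ∑ i ∈ range k, γ ^ i * L ^ i *
            (dens q η h x * F q η i (j + 1) (sn h x)) := by
        funext x
        rw [Finset.mul_sum]
        refine Finset.sum_congr rfl fun i _ => ?_
        unfold sn
        ring
      rw [e, integral_finsetSum _ fun i _ => (integrable_F hq hη hη0 hη1 i h).const_mul _]
      refine Finset.sum_congr rfl fun i _ => ?_
      rw [integral_const_mul]
      rfl
    show L * ∫ x, dens q η h x * ∑ i ∈ range k, γ ^ i * L ^ i *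
        F q η i (j + 1) (Fin.snoc (α := fun _ => Sp d) h x) ≤
      Real.sqrt γ⁻¹ ^ 2 * ∑ i ∈ range k, γ ^ i * L ^ i * F q η i j h
    rw [h1, Real.sq_sqrt (inv_pos.2 hγ0).le]
    have h2 : L * ∑ i ∈ range k, γ ^ i * L ^ i * F q η (i + 1) j h =
        γ⁻¹ * ∑ i ∈ range k, γ ^ (i + 1) * L ^ (i + 1) * F q η (i + 1) j h := by
      rw [Finset.mul_sum, Finset.mul_sum]
      refine Finset.sum_congr rfl fun i _ => ?_
      rw [pow_succ, pow_succ]
      field_simp
    rw [h2]
    refine mul_le_mul_of_nonneg_left ?_ (inv_pos.2 hγ0).le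
    have h3 := Finset.sum_range_succ (fun i => γ ^ i * L ^ i * F q η i j h) k
    have h4 := Finset.sum_range_succ' (fun i => γ ^ i * L ^ i * F q η i j h) k
    have h5 : γ ^ k * L ^ k * F q η k j h ≤ 1 := by
      have h6 : F q η k j h ≤ walkIntegral q k := by
        refine (F_last hq hη hη0 hη1 k j h).trans ((F_mono hq hη hη0 hη1 k 0 _).trans ?_)
        rw [← F_walk hq k]
        have h7 := F_translate (q := q) k (h (Fin.last j)) 0 (fun _ : Fin 1 => (0 : Sp d))
        rw [← h7]
        simp
      calc γ ^ k * L ^ k * F q η k j h ≤ γ ^ k * L ^ k * walkIntegral q k :=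
            mul_le_mul_of_nonneg_left h6 (by positivity)
        _ = γ ^ k * (L ^ k * walkIntegral q k) := by ring
        _ ≤ 1 := hγ.le
    have h6 : γ ^ 0 * L ^ 0 * F q η 0 j h = 1 := by simp [F]
    rw [h6] at h4
    linarith

end Pool.Agent.Lib.P8e91ed
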