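import Pool.Agent.Lib.P8e91ed.Defs

/-!
The complex Picard iteration for `h = exp (-(z/2) ∫ D h²)` near a real segment.
-/

set_option autoImplicit false

open MeasureTheory Finset

noncomputable section

namespace Pool.Agent.Lib.P8e91ed

namespace Pic

section Core

variable {X : Type} [MeasurableSpace X] {ν : Measure X} [IsFiniteMeasure ν]

theorem intg {E : Type} [NormedAddCommGroup E] [MeasurableSpace E] [BorelSpace E]
    [SecondCountableTopology E] {f : X → E} (hf : Measurable f) {B : ℝ}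
    (hB : ∀ x, ‖f x‖ ≤ B) : Integrable f ν :=
  Integrable.of_bound hf.aestronglyMeasurable B (Filter.Eventually.of_forall hB)

theorem cs {f g : X → ℝ} (hf : Measurable f) (hg : Measurable g) {B : ℝ}
    (hfB : ∀ x, |f x| ≤ B) (hgB : ∀ x, |g x| ≤ B) :
    (∫ x, f x * g x ∂ν) ^ 2 ≤ (∫ x, f x ^ 2 ∂ν) * ∫ x, g x ^ 2 ∂ν := by
  have hfg : Integrable (fun x => f x * g x) ν := intg (hf.mul hg) (B := B * B) fun x => by
    rw [Real.norm_eq_abs, abs_mul]
    exact mul_le_mul (hfB x) (hgB x) (abs_nonneg _) ((abs_nonneg _).trans (hfB x))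
  have hff : Integrable (fun x => f x ^ 2) ν := intg (hf.pow_const 2) (B := B ^ 2) fun x => by
    rw [Real.norm_eq_abs, abs_pow]
    exact pow_le_pow_left₀ (abs_nonneg _) (hfB x) 2
  have hgg : Integrable (fun x => g x ^ 2) ν := intg (hg.pow_const 2) (B := B ^ 2) fun x => by
    rw [Real.norm_eq_abs, abs_pow]
    exact pow_le_pow_left₀ (abs_nonneg _) (hgB x) 2
  have key : ∀ t : ℝ, 0 ≤ (∫ x, f x ^ 2 ∂ν) * (t * t) + (-2 * ∫ x, f x * g x ∂ν) * t +
      ∫ x, g x ^ 2 ∂ν := by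
    intro t
    have h1 : (∫ x, f x ^ 2 ∂ν) * (t * t) + (-2 * ∫ x, f x * g x ∂ν) * t + ∫ x, g x ^ 2 ∂ν =
        ∫ x, (t * f x - g x) ^ 2 ∂ν := by
      have h2 : ∀ x, (t * f x - g x) ^ 2 = (t * t) * f x ^ 2 + (-2 * t) * (f x * g x) +
          g x ^ 2 := fun x => by ring
      simp only [h2]
      rw [integral_add, integral_add, integral_const_mul, integral_const_mul]
      · ring
      · exact hff.const_mul _
      · exact hfg.const_mul _
      · exact (hff.const_mul _).add (hfg.const_mul _)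
      · exact hgg
    rw [h1]
    exact integral_nonneg fun x => sq_nonneg _
  have := discrim_le_zero key
  unfold discrim at this
  nlinarith

variable {lam0 C CW a ρ δ : ℝ} {w : X → ℝ} {W0 : ℝ}

theorem sqrt_le_of_one_le {t : ℝ} (ht : 1 ≤ t) : √t ≤ t := by
  rw [Real.sqrt_le_left (by linarith)]
  nlinarith

theorem one_le_sqrt {t : ℝ} (ht : 1 ≤ t) : 1 ≤ √t := by
  rw [Real.le_sqrt (by norm_num) (by linarith)]
  linarith

/-- The norm of the exponential is controlled by the real one. -/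
theorem exp_bound (h0 : 0 ≤ lam0) (hC : 0 ≤ C) (hCW : 1 ≤ CW) (hρ : 0 < ρ) (hδ : 0 < δ)
    (hρW : ρ * CW ≤ 1) (hν : ν.real Set.univ ≤ C) (hw1 : ∀ x, 1 ≤ w x)
    (hw2 : ∀ x, w x ≤ CW) {s : ℝ} (hs : s ∈ Set.Icc 0 lam0) {g : X → ℂ} {h : X → ℝ}
    (hg : Measurable g) (hh : Measurable h) (hh0 : ∀ x, 0 ≤ h x) (hh1 : ∀ x, h x ≤ 1)
    (hgh : ∀ x, ‖g x - h x‖ ≤ ρ * √(w x)) {z : ℂ} (hz : ‖z - s‖ ≤ δ) :
    ‖Complex.exp (-(z / 2) * ∫ x, g x ^ 2 ∂ν)‖ ≤
      Real.exp (-(s / 2) * ∫ x, h x ^ 2 ∂ν) * Real.exp (2 * δ * C + 2 * lam0 * ρ * CW * C) := by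
  have hsw : ∀ x, ρ * √(w x) ≤ ρ * CW := fun x =>
    mul_le_mul_of_nonneg_left ((sqrt_le_of_one_le (hw1 x)).trans (hw2 x)) hρ.le
  have hhn : ∀ x, ‖(h x : ℂ)‖ ≤ 1 := fun x => by
    rw [Complex.norm_real, Real.norm_eq_abs, abs_of_nonneg (hh0 x)]
    exact hh1 x
  have hgn : ∀ x, ‖g x‖ ≤ 2 := fun x => by
    have h1 : g x = (g x - h x) + h x := by ring
    rw [h1]
    refine (norm_add_le _ _).trans ?_
    linarith [hgh x, hsw x, hhn x]
  have hν0 : 0 ≤ ν.real Set.univ := measureReal_nonneg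
  have hρC : 0 ≤ ρ * CW := by nlinarith
  have hG : ‖∫ x, g x ^ 2 ∂ν‖ ≤ 4 * C := by
    refine (norm_integral_le_of_norm_le_const (C := 4)
      (Filter.Eventually.of_forall fun x => ?_)).trans ?_
    · rw [norm_pow]
      have := hgn x
      nlinarith [norm_nonneg (g x)]
    · nlinarith
  have ig : Integrable (fun x => g x ^ 2) ν := intg (hg.pow_const 2) (B := 4) fun x => by
    rw [norm_pow]
    have := hgn x
    nlinarith [norm_nonneg (g x)]
  have ih : Integrable (fun x => ((h x : ℂ)) ^ 2) ν :=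
    intg ((Complex.measurable_ofReal.comp hh).pow_const 2) (B := 1) fun x => by
      rw [norm_pow]
      exact pow_le_one₀ (norm_nonneg _) (hhn x)
  have e1 : ((∫ x, h x ^ 2 ∂ν : ℝ) : ℂ) = ∫ x, ((h x : ℂ)) ^ 2 ∂ν := by
    rw [← integral_complex_ofReal]
    simp
  have hD : ‖(∫ x, g x ^ 2 ∂ν) - ((∫ x, h x ^ 2 ∂ν : ℝ) : ℂ)‖ ≤ 3 * (ρ * CW) * C := by
    rw [e1, ← integral_sub ig ih]
    refine (norm_integral_le_of_norm_le_const (C := 3 * (ρ * CW))
      (Filter.Eventually.of_forall fun x => ?_)).trans ?_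
    · have h2 : g x ^ 2 - (h x : ℂ) ^ 2 = (g x + h x) * (g x - h x) := by ring
      rw [h2, norm_mul]
      refine mul_le_mul ((norm_add_le _ _).trans ?_) ((hgh x).trans (hsw x)) (norm_nonneg _)
        (by norm_num)
      linarith [hgn x, hhn x]
    · exact mul_le_mul_of_nonneg_left hν (by linarith)
  set G := ∫ x, g x ^ 2 ∂ν with hGd
  set Q := ∫ x, h x ^ 2 ∂ν with hQd
  rw [Complex.norm_exp, ← Real.exp_add, Real.exp_le_exp]
  have e2 : -(z / 2) * G = ((-(s / 2) * Q : ℝ) : ℂ) +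
      (-((z - s) / 2) * G - (s / 2) * (G - (Q : ℂ))) := by
    push_cast
    ring
  rw [e2, Complex.add_re, Complex.ofReal_re]
  have e3 : (-((z - s) / 2) * G - (s / 2) * (G - (Q : ℂ))).re ≤
      2 * δ * C + 2 * lam0 * ρ * CW * C := by
    refine (Complex.re_le_norm _).trans ((norm_sub_le _ _).trans ?_)
    rw [norm_mul, norm_mul, norm_neg, norm_div, norm_div]
    have hs' : ‖(s : ℂ)‖ ≤ lam0 := by
      rw [Complex.norm_real, Real.norm_eq_abs, abs_of_nonneg hs.1]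
      exact hs.2
    have h2 : ‖(2 : ℂ)‖ = 2 := by simp
    rw [h2]
    have t1 : ‖z - s‖ / 2 * ‖G‖ ≤ δ / 2 * (4 * C) :=
      mul_le_mul (by linarith) hG (norm_nonneg _) (by linarith)
    have t2 : ‖(s : ℂ)‖ / 2 * ‖G - (Q : ℂ)‖ ≤ lam0 / 2 * (3 * (ρ * CW) * C) :=
      mul_le_mul (by linarith) hD (norm_nonneg _) (by linarith)
    have t3 : 0 ≤ lam0 * (ρ * CW) * C := by positivity
    nlinarith
  linarith

theorem mul_exp_le (P : ℝ) : P * Real.exp (-P) ≤ Real.exp (-1) := by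
  have h1 := Real.add_one_le_exp (P - 1)
  have h2 : Real.exp (-1) = Real.exp (P - 1) * Real.exp (-P) := by
    rw [← Real.exp_add]
    congr 1
    ring
  rw [h2]
  exact mul_le_mul_of_nonneg_right (by linarith) (Real.exp_pos _).le

/-- The core estimate. -/
theorem core (h0 : 0 ≤ lam0) (hC : 0 ≤ C) (hCW : 1 ≤ CW) (ha : 0 < a) (hρ : 0 < ρ) (hδ : 0 < δ)
    (hρW : ρ * CW ≤ 1) (hν : ν.real Set.univ ≤ C) (hw : Measurable w) (hw1 : ∀ x, 1 ≤ w x)
    (hw2 : ∀ x, w x ≤ CW) (hW0 : 1 ≤ W0)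
    (hW : (lam0 / Real.exp 1) * ∫ x, w x ∂ν ≤ a ^ 2 * W0)
    {s : ℝ} (hs : s ∈ Set.Icc 0 lam0) {g u : X → ℂ} {h : X → ℝ}
    (hg : Measurable g) (hu : Measurable u)
    (hh : Measurable h) (hh0 : ∀ x, 0 ≤ h x) (hh1 : ∀ x, h x ≤ 1)
    (hgh : ∀ x, ‖g x - h x‖ ≤ ρ * √(w x)) {M : ℝ} (hM : 0 ≤ M)
    (hum : ∀ x, ‖u x‖ ≤ M * √(w x)) {z : ℂ} (hz : ‖z - s‖ ≤ δ) :
    ‖z * ∫ x, g x * u x ∂ν‖ * ‖Complex.exp (-(z / 2) * ∫ x, g x ^ 2 ∂ν)‖ ≤
      M * √W0 * ((a + lam0 * ρ * CW * C + 2 * δ * C * CW) *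
        Real.exp (2 * δ * C + 2 * lam0 * ρ * CW * C)) := by
  have hE := exp_bound h0 hC hCW hρ hδ hρW hν hw1 hw2 hs hg hh hh0 hh1 hgh hz
  have hsw : ∀ x, √(w x) ≤ CW := fun x => (sqrt_le_of_one_le (hw1 x)).trans (hw2 x)
  have hsw' : ∀ x, ρ * √(w x) ≤ ρ * CW := fun x => mul_le_mul_of_nonneg_left (hsw x) hρ.le
  have hhn : ∀ x, ‖(h x : ℂ)‖ = h x := fun x => by
    rw [Complex.norm_real, Real.norm_eq_abs, abs_of_nonneg (hh0 x)]
  have hgn : ∀ x, ‖g x‖ ≤ h x + ρ * √(w x) := fun x => by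
    have h1 : g x = (g x - h x) + h x := by ring
    rw [h1]
    refine (norm_add_le _ _).trans ?_
    rw [hhn]
    linarith [hgh x]
  have hν0 : 0 ≤ ν.real Set.univ := measureReal_nonneg
  have hρC : 0 ≤ ρ * CW := by nlinarith
  have hun : Measurable fun x => ‖u x‖ := hu.norm
  have hub : ∀ x, ‖u x‖ ≤ M * CW := fun x =>
    (hum x).trans (mul_le_mul_of_nonneg_left (hsw x) hM)
  have hMC : 0 ≤ M * CW := by positivity
  -- the real integral
  have ihu : Integrable (fun x => h x * ‖u x‖) ν := intg (hh.mul hun) (B := M * CW) fun x => by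
    rw [Real.norm_eq_abs, abs_mul, abs_of_nonneg (hh0 x), abs_of_nonneg (norm_nonneg _)]
    calc h x * ‖u x‖ ≤ 1 * ‖u x‖ := mul_le_mul_of_nonneg_right (hh1 x) (norm_nonneg _)
      _ ≤ M * CW := by rw [one_mul]; exact hub x
  have hB0 : 0 ≤ ∫ x, h x * ‖u x‖ ∂ν :=
    integral_nonneg fun x => mul_nonneg (hh0 x) (norm_nonneg _)
  -- |∫ g u| ≤ ∫ h |u| + ρ CW M CW C
  have igu : Integrable (fun x => g x * u x) ν := intg (hg.mul hu) (B := 2 * (M * CW)) fun x => by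
    rw [norm_mul]
    refine mul_le_mul ((hgn x).trans ?_) (hub x) (norm_nonneg _) (by norm_num)
    linarith [hh1 x, hsw' x]
  have g1 : ‖∫ x, g x * u x ∂ν‖ ≤ 2 * (M * CW) * C := by
    refine (norm_integral_le_of_norm_le_const (C := 2 * (M * CW))
      (Filter.Eventually.of_forall fun x => ?_)).trans
        (mul_le_mul_of_nonneg_left hν (by linarith))
    rw [norm_mul]
    refine mul_le_mul ((hgn x).trans ?_) (hub x) (norm_nonneg _) (by norm_num)
    linarith [hh1 x, hsw' x]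
  have g2 : ‖∫ x, g x * u x ∂ν‖ ≤ (∫ x, h x * ‖u x‖ ∂ν) + ρ * M * CW * C := by
    have i2 : Integrable (fun _ : X => ρ * M * CW) ν := integrable_const _
    calc ‖∫ x, g x * u x ∂ν‖ ≤ ∫ x, ‖g x * u x‖ ∂ν := norm_integral_le_integral_norm _
      _ ≤ ∫ x, (h x * ‖u x‖ + ρ * M * CW) ∂ν := by
        refine integral_mono igu.norm (ihu.add i2) fun x => ?_
        simp only [norm_mul]
        have h1 : ‖g x‖ * ‖u x‖ ≤ (h x + ρ * √(w x)) * ‖u x‖ :=
          mul_le_mul_of_nonneg_right (hgn x) (norm_nonneg _)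
        have h2 : ρ * √(w x) * ‖u x‖ ≤ ρ * √(w x) * (M * √(w x)) :=
          mul_le_mul_of_nonneg_left (hum x) (by positivity)
        have h3 : ρ * √(w x) * (M * √(w x)) = ρ * M * w x := by
          have := Real.mul_self_sqrt (by linarith [hw1 x] : 0 ≤ w x)
          calc ρ * √(w x) * (M * √(w x)) = ρ * M * (√(w x) * √(w x)) := by ring
            _ = ρ * M * w x := by rw [this]
        have h4 : ρ * M * w x ≤ ρ * M * CW := mul_le_mul_of_nonneg_left (hw2 x) (by positivity)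
        linarith
      _ = (∫ x, h x * ‖u x‖ ∂ν) + ρ * M * CW * ν.real Set.univ := by
        rw [integral_add ihu i2, integral_const, smul_eq_mul]
        ring
      _ ≤ _ := by
        have : ρ * M * CW * ν.real Set.univ ≤ ρ * M * CW * C :=
          mul_le_mul_of_nonneg_left hν (by positivity)
        linarith
  have hzn : ‖z‖ ≤ s + δ := by
    have h1 : z = (z - s) + s := by ring
    rw [h1]
    refine (norm_add_le _ _).trans ?_
    rw [Complex.norm_real, Real.norm_eq_abs, abs_of_nonneg hs.1]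
    linarith
  have hgu : ‖z * ∫ x, g x * u x ∂ν‖ ≤ s * (∫ x, h x * ‖u x‖ ∂ν) +
      M * (lam0 * ρ * CW * C + 2 * δ * C * CW) := by
    rw [norm_mul]
    have k1 : ‖z‖ * ‖∫ x, g x * u x ∂ν‖ ≤ (s + δ) * ‖∫ x, g x * u x ∂ν‖ :=
      mul_le_mul_of_nonneg_right hzn (norm_nonneg _)
    have k2 : s * ‖∫ x, g x * u x ∂ν‖ ≤ s * ((∫ x, h x * ‖u x‖ ∂ν) + ρ * M * CW * C) :=
      mul_le_mul_of_nonneg_left g2 hs.1
    have k3 : δ * ‖∫ x, g x * u x ∂ν‖ ≤ δ * (2 * (M * CW) * C) :=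
      mul_le_mul_of_nonneg_left g1 hδ.le
    have k4 : s * (ρ * M * CW * C) ≤ lam0 * (ρ * M * CW * C) :=
      mul_le_mul_of_nonneg_right hs.2 (by positivity)
    linarith
  -- the main term
  have hA0 : 0 ≤ ∫ x, h x ^ 2 ∂ν := integral_nonneg fun x => sq_nonneg _
  have hcs := cs (ν := ν) hh hun (B := max 1 (M * CW))
    (fun x => by rw [abs_of_nonneg (hh0 x)]; exact (hh1 x).trans (le_max_left _ _))
    (fun x => by rw [abs_of_nonneg (norm_nonneg _)]; exact (hub x).trans (le_max_right _ _))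
  have hwi : Integrable w ν := intg hw (B := CW) fun x => by
    rw [Real.norm_eq_abs, abs_of_nonneg (by linarith [hw1 x])]
    exact hw2 x
  have hE2 : ∫ x, ‖u x‖ ^ 2 ∂ν ≤ M ^ 2 * ∫ x, w x ∂ν := by
    rw [← integral_const_mul]
    refine integral_mono (intg (hun.pow_const 2) (B := (M * CW) ^ 2) fun x => ?_)
      (hwi.const_mul _) fun x => ?_
    · rw [Real.norm_eq_abs, abs_pow, abs_of_nonneg (norm_nonneg _)]
      exact pow_le_pow_left₀ (norm_nonneg _) (hub x) 2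
    · dsimp only
      calc ‖u x‖ ^ 2 ≤ (M * √(w x)) ^ 2 := pow_le_pow_left₀ (norm_nonneg _) (hum x) 2
        _ = M ^ 2 * w x := by rw [mul_pow, Real.sq_sqrt (by linarith [hw1 x])]
  have hw0 : 0 ≤ ∫ x, w x ∂ν := integral_nonneg fun x => by
    have := hw1 x
    simp only [Pi.zero_apply]
    linarith
  have he0 : 0 < Real.exp 1 := Real.exp_pos _
  have hW' : lam0 * ∫ x, w x ∂ν ≤ Real.exp 1 * (a ^ 2 * W0) := by
    have : lam0 * ∫ x, w x ∂ν = Real.exp 1 * ((lam0 / Real.exp 1) * ∫ x, w x ∂ν) := by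
      field_simp
    rw [this]
    exact mul_le_mul_of_nonneg_left hW he0.le
  have hmain : s * (∫ x, h x * ‖u x‖ ∂ν) * Real.exp (-(s / 2) * ∫ x, h x ^ 2 ∂ν) ≤
      M * √W0 * a := by
    have hnn : 0 ≤ M * √W0 * a := by positivity
    refine abs_le_of_sq_le_sq' ?_ hnn |>.2
    set B := ∫ x, h x * ‖u x‖ ∂ν
    set A := ∫ x, h x ^ 2 ∂ν
    set E := ∫ x, ‖u x‖ ^ 2 ∂ν
    have q1 : (s * B * Real.exp (-(s / 2) * A)) ^ 2 = s ^ 2 * B ^ 2 * Real.exp (-(s * A)) := by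
      rw [mul_pow, mul_pow, ← Real.exp_nat_mul]
      congr 2
      push_cast
      ring
    have q2 : s ^ 2 * B ^ 2 * Real.exp (-(s * A)) ≤ s ^ 2 * (A * E) * Real.exp (-(s * A)) :=
      mul_le_mul_of_nonneg_right (mul_le_mul_of_nonneg_left hcs (sq_nonneg _)) (Real.exp_pos _).le
    have hE0 : 0 ≤ E := integral_nonneg fun x => sq_nonneg _
    have q3 : s ^ 2 * (A * E) * Real.exp (-(s * A)) ≤ Real.exp (-1) * (s * E) := by
      have := mul_le_mul_of_nonneg_right (mul_exp_le (s * A)) (mul_nonneg hs.1 hE0)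
      calc s ^ 2 * (A * E) * Real.exp (-(s * A)) =
            s * A * Real.exp (-(s * A)) * (s * E) := by ring
        _ ≤ _ := this
    have q4 : s * E ≤ M ^ 2 * (Real.exp 1 * (a ^ 2 * W0)) := by
      have r1 : s * E ≤ lam0 * (M ^ 2 * ∫ x, w x ∂ν) :=
        mul_le_mul hs.2 hE2 hE0 h0
      have r2 : M ^ 2 * (lam0 * ∫ x, w x ∂ν) ≤ M ^ 2 * (Real.exp 1 * (a ^ 2 * W0)) :=
        mul_le_mul_of_nonneg_left hW' (sq_nonneg _)
      linarith
    have q5 : Real.exp (-1) * (s * E) ≤ Real.exp (-1) * (M ^ 2 * (Real.exp 1 * (a ^ 2 * W0))) :=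
      mul_le_mul_of_nonneg_left q4 (Real.exp_pos _).le
    have q6 : Real.exp (-1) * (M ^ 2 * (Real.exp 1 * (a ^ 2 * W0))) = (M * √W0 * a) ^ 2 := by
      have r1 : Real.exp (-1) * Real.exp 1 = 1 := by
        rw [← Real.exp_add]
        simp
      have r2 : √W0 ^ 2 = W0 := Real.sq_sqrt (by linarith)
      calc Real.exp (-1) * (M ^ 2 * (Real.exp 1 * (a ^ 2 * W0))) =
            (Real.exp (-1) * Real.exp 1) * (M ^ 2 * (a ^ 2 * W0)) := by ring
        _ = M ^ 2 * √W0 ^ 2 * a ^ 2 := by rw [r1, r2]; ring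
        _ = _ := by ring
    linarith
  set η := 2 * δ * C + 2 * lam0 * ρ * CW * C with hη
  have hs1 : 1 ≤ √W0 := one_le_sqrt hW0
  have hx1 : Real.exp (-(s / 2) * ∫ x, h x ^ 2 ∂ν) ≤ 1 := by
    rw [Real.exp_le_one_iff]
    have := mul_nonneg hs.1 hA0
    linarith
  have hK0 : 0 ≤ lam0 * ρ * CW * C + 2 * δ * C * CW := by positivity
  calc ‖z * ∫ x, g x * u x ∂ν‖ * ‖Complex.exp (-(z / 2) * ∫ x, g x ^ 2 ∂ν)‖
      ≤ (s * (∫ x, h x * ‖u x‖ ∂ν) + M * (lam0 * ρ * CW * C + 2 * δ * C * CW)) *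
        (Real.exp (-(s / 2) * ∫ x, h x ^ 2 ∂ν) * Real.exp η) :=
        mul_le_mul hgu hE (norm_nonneg _) (by have := hs.1; positivity)
    _ = (s * (∫ x, h x * ‖u x‖ ∂ν) * Real.exp (-(s / 2) * ∫ x, h x ^ 2 ∂ν) +
          M * (lam0 * ρ * CW * C + 2 * δ * C * CW) *
          Real.exp (-(s / 2) * ∫ x, h x ^ 2 ∂ν)) * Real.exp η := by ring
    _ ≤ (M * √W0 * a + M * √W0 * (lam0 * ρ * CW * C + 2 * δ * C * CW)) * Real.exp η := by
        refine mul_le_mul_of_nonneg_right (add_le_add hmain ?_) (Real.exp_pos _).le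
        calc M * (lam0 * ρ * CW * C + 2 * δ * C * CW) *
            Real.exp (-(s / 2) * ∫ x, h x ^ 2 ∂ν)
            ≤ M * (lam0 * ρ * CW * C + 2 * δ * C * CW) * 1 :=
              mul_le_mul_of_nonneg_left hx1 (by positivity)
          _ ≤ M * √W0 * (lam0 * ρ * CW * C + 2 * δ * C * CW) := by
              rw [mul_one]
              refine mul_le_mul_of_nonneg_right ?_ hK0
              nlinarith
    _ = _ := by ring

/-- The Lipschitz estimate between two functions close to real functions. -/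
theorem lip (h0 : 0 ≤ lam0) (hC : 0 ≤ C) (hCW : 1 ≤ CW) (ha : 0 < a) (hρ : 0 < ρ) (hδ : 0 < δ)
    (hρW : ρ * CW ≤ 1) (hν : ν.real Set.univ ≤ C) (hw : Measurable w) (hw1 : ∀ x, 1 ≤ w x)
    (hw2 : ∀ x, w x ≤ CW) (hW0 : 1 ≤ W0)
    (hW : (lam0 / Real.exp 1) * ∫ x, w x ∂ν ≤ a ^ 2 * W0)
    {s : ℝ} (hs : s ∈ Set.Icc 0 lam0) {g g' : X → ℂ} {h h' : X → ℝ}
    (hg : Measurable g) (hg' : Measurable g')
    (hh : Measurable h) (hh0 : ∀ x, 0 ≤ h x) (hh1 : ∀ x, h x ≤ 1)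
    (hh' : Measurable h') (hh0' : ∀ x, 0 ≤ h' x) (hh1' : ∀ x, h' x ≤ 1)
    (hgh : ∀ x, ‖g x - h x‖ ≤ ρ * √(w x)) (hgh' : ∀ x, ‖g' x - h' x‖ ≤ ρ * √(w x))
    {M : ℝ} (hM : 0 ≤ M)
    (hum : ∀ x, ‖g' x - g x‖ ≤ M * √(w x)) {z z' : ℂ} (hz : ‖z - s‖ ≤ δ) (hz' : ‖z' - s‖ ≤ δ) :
    ‖Complex.exp (-(z' / 2) * ∫ x, g' x ^ 2 ∂ν) - Complex.exp (-(z / 2) * ∫ x, g x ^ 2 ∂ν)‖ ≤
      M * √W0 * ((a + lam0 * ρ * CW * C + 2 * δ * C * CW) *
        Real.exp (2 * δ * C + 2 * lam0 * ρ * CW * C)) +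
      2 * C * Real.exp (2 * δ * C + 2 * lam0 * ρ * CW * C) * ‖z' - z‖ := by
  have hsw : ∀ x, √(w x) ≤ CW := fun x => (sqrt_le_of_one_le (hw1 x)).trans (hw2 x)
  have hsw' : ∀ x, ρ * √(w x) ≤ ρ * CW := fun x => mul_le_mul_of_nonneg_left (hsw x) hρ.le
  have hb : ∀ (f : X → ℂ) (k : X → ℝ), (∀ x, 0 ≤ k x) → (∀ x, k x ≤ 1) →
      (∀ x, ‖f x - k x‖ ≤ ρ * √(w x)) → ∀ x, ‖f x‖ ≤ 2 := by
    intro f k k0 k1 hk x
    have h1 : f x = (f x - k x) + k x := by ring
    rw [h1]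
    refine (norm_add_le _ _).trans ?_
    rw [Complex.norm_real, Real.norm_eq_abs, abs_of_nonneg (k0 x)]
    linarith [hk x, hsw' x, k1 x]
  have hb0 := hb g h hh0 hh1 hgh
  have hb1 := hb g' h' hh0' hh1' hgh'
  have mu : Measurable fun x => g' x - g x := hg'.sub hg
  have bu : ∀ x, ‖g' x - g x‖ ≤ 4 := fun x =>
    (norm_sub_le _ _).trans (by linarith [hb0 x, hb1 x])
  have iA : Integrable (fun x => g x ^ 2) ν := intg (hg.pow_const 2) (B := 4) fun x => by
    rw [norm_pow]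
    have := hb0 x
    nlinarith [norm_nonneg (g x)]
  have iB : Integrable (fun x => g x * (g' x - g x)) ν := intg (hg.mul mu) (B := 8) fun x => by
    rw [norm_mul]
    have := mul_le_mul (hb0 x) (bu x) (norm_nonneg _) (by norm_num)
    linarith
  have iE : Integrable (fun x => (g' x - g x) ^ 2) ν := intg (mu.pow_const 2) (B := 16)
    fun x => by
      rw [norm_pow]
      have := bu x
      nlinarith [norm_nonneg (g' x - g x)]
  obtain ⟨A, hA⟩ : ∃ A, A = ∫ x, g x ^ 2 ∂ν := ⟨_, rfl⟩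
  obtain ⟨B, hB⟩ : ∃ B, B = ∫ x, g x * (g' x - g x) ∂ν := ⟨_, rfl⟩
  obtain ⟨E, hE⟩ : ∃ E, E = ∫ x, (g' x - g x) ^ 2 ∂ν := ⟨_, rfl⟩
  have hq : ∀ t : ℂ, ∫ x, (g x + t * (g' x - g x)) ^ 2 ∂ν = A + 2 * t * B + t ^ 2 * E := by
    intro t
    have e : ∀ x, (g x + t * (g' x - g x)) ^ 2 = g x ^ 2 + (2 * t) * (g x * (g' x - g x)) +
        t ^ 2 * (g' x - g x) ^ 2 := fun x => by ring
    simp only [e]
    rw [integral_add, integral_add, integral_const_mul, integral_const_mul, hA, hB, hE]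
    · exact iA
    · exact iB.const_mul _
    · exact iA.add (iB.const_mul _)
    · exact iE.const_mul _
  have hr : ∀ t : ℂ, ∫ x, (g x + t * (g' x - g x)) * (g' x - g x) ∂ν = B + t * E := by
    intro t
    have e : ∀ x, (g x + t * (g' x - g x)) * (g' x - g x) = g x * (g' x - g x) +
        t * (g' x - g x) ^ 2 := fun x => by ring
    simp only [e]
    rw [integral_add iB (iE.const_mul _), integral_const_mul, hB, hE]
  have hder : ∀ t : ℝ, HasDerivAt (fun t : ℝ => Complex.exp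
      (-((z + (t : ℂ) * (z' - z)) / 2) * (A + 2 * t * B + (t : ℂ) ^ 2 * E)))
      (Complex.exp (-((z + (t : ℂ) * (z' - z)) / 2) * (A + 2 * t * B + (t : ℂ) ^ 2 * E)) *
        (-((z' - z) / 2) * (A + 2 * t * B + (t : ℂ) ^ 2 * E) -
          (z + (t : ℂ) * (z' - z)) * (B + t * E))) t := by
    intro t
    have d1 : HasDerivAt (fun t : ℂ => -((z + t * (z' - z)) / 2)) (-((z' - z) / 2)) (t : ℂ) := by
      exact ((((hasDerivAt_id (t : ℂ)).mul_const (z' - z)).const_add z).div_const 2).neg.congr_deriv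
        (by simp)
    have d2 : HasDerivAt (fun t : ℂ => A + 2 * t * B + t ^ 2 * E) (2 * B + 2 * t * E)
        (t : ℂ) := by
      have e1 := (((hasDerivAt_id (t : ℂ)).const_mul 2).mul_const B).const_add A
      have e2 := (hasDerivAt_pow 2 (t : ℂ)).mul_const E
      exact (e1.add e2).congr_deriv (by simp)
    have d3 := (d1.mul d2).cexp.comp_ofReal
    refine d3.congr_deriv ?_
    simp only [Pi.mul_apply]
    congr 1
    ring
  have hseg := norm_image_sub_le_of_norm_deriv_le_segment_01'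
    (C := M * √W0 * ((a + lam0 * ρ * CW * C + 2 * δ * C * CW) *
        Real.exp (2 * δ * C + 2 * lam0 * ρ * CW * C)) +
      2 * C * Real.exp (2 * δ * C + 2 * lam0 * ρ * CW * C) * ‖z' - z‖)
    (fun t _ => (hder t).hasDerivWithinAt) ?_
  · have e0 : ∫ x, g' x ^ 2 ∂ν = A + 2 * B + E := by
      have := hq 1
      simp only [one_mul, mul_one, one_pow, add_sub_cancel] at this
      exact this
    simp only [Complex.ofReal_one, Complex.ofReal_zero, one_mul, mul_one, one_pow, zero_mul,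
      mul_zero, add_zero, ne_eq, OfNat.ofNat_ne_zero, not_false_eq_true, zero_pow,
      add_sub_cancel] at hseg
    rw [e0, ← hA]
    exact hseg
  · intro t ht
    obtain ⟨ht0, ht1⟩ := ht
    have mt : Measurable fun x => g x + (t : ℂ) * (g' x - g x) := hg.add (mu.const_mul _)
    have mk : Measurable fun x => h x + t * (h' x - h x) := hh.add ((hh'.sub hh).const_mul _)
    have k0 : ∀ x, 0 ≤ h x + t * (h' x - h x) := fun x => by
      nlinarith [hh0 x, hh0' x]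
    have k1 : ∀ x, h x + t * (h' x - h x) ≤ 1 := fun x => by
      nlinarith [hh1 x, hh1' x]
    have hgt : ∀ x, ‖(g x + (t : ℂ) * (g' x - g x)) - ((h x + t * (h' x - h x) : ℝ) : ℂ)‖ ≤
        ρ * √(w x) := fun x => by
      have e1 : (g x + (t : ℂ) * (g' x - g x)) - ((h x + t * (h' x - h x) : ℝ) : ℂ) =
          ((1 - t : ℝ) : ℂ) * (g x - h x) + (t : ℂ) * (g' x - h' x) := by
        push_cast
        ring
      rw [e1]
      refine (norm_add_le _ _).trans ?_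
      rw [norm_mul, norm_mul, Complex.norm_real, Complex.norm_real, Real.norm_eq_abs,
        Real.norm_eq_abs, abs_of_nonneg ht0, abs_of_nonneg (by linarith : (0:ℝ) ≤ 1 - t)]
      have e2 := mul_le_mul_of_nonneg_left (hgh x) (by linarith : (0:ℝ) ≤ 1 - t)
      have e3 := mul_le_mul_of_nonneg_left (hgh' x) ht0
      linarith
    have hzt : ‖(z + (t : ℂ) * (z' - z)) - s‖ ≤ δ := by
      have e1 : (z + (t : ℂ) * (z' - z)) - s = ((1 - t : ℝ) : ℂ) * (z - s) +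
          (t : ℂ) * (z' - s) := by
        push_cast
        ring
      rw [e1]
      refine (norm_add_le _ _).trans ?_
      rw [norm_mul, norm_mul, Complex.norm_real, Complex.norm_real, Real.norm_eq_abs,
        Real.norm_eq_abs, abs_of_nonneg ht0, abs_of_nonneg (by linarith : (0:ℝ) ≤ 1 - t)]
      have e2 := mul_le_mul_of_nonneg_left hz (by linarith : (0:ℝ) ≤ 1 - t)
      have e3 := mul_le_mul_of_nonneg_left hz' ht0
      linarith
    have c1 := core h0 hC hCW ha hρ hδ hρW hν hw hw1 hw2 hW0 hW hs mt mu mk k0 k1 hgt hM hum hzt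
    have c2 := exp_bound h0 hC hCW hρ hδ hρW hν hw1 hw2 hs mt mk k0 k1 hgt hzt
    have hbt := hb _ _ k0 k1 hgt
    have c3 : ‖∫ x, (g x + (t : ℂ) * (g' x - g x)) ^ 2 ∂ν‖ ≤ 4 * C := by
      refine (norm_integral_le_of_norm_le_const (C := 4)
        (Filter.Eventually.of_forall fun x => ?_)).trans
          (mul_le_mul_of_nonneg_left hν (by norm_num))
      rw [norm_pow]
      have := hbt x
      nlinarith [norm_nonneg (g x + (t : ℂ) * (g' x - g x))]
    have c4 : Real.exp (-(s / 2) * ∫ x, (h x + t * (h' x - h x)) ^ 2 ∂ν) ≤ 1 := by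
      rw [Real.exp_le_one_iff]
      have : 0 ≤ ∫ x, (h x + t * (h' x - h x)) ^ 2 ∂ν := integral_nonneg fun x => sq_nonneg _
      have := mul_nonneg hs.1 this
      linarith
    rw [hq] at c1 c2 c3
    rw [hr] at c1
    have c5 := c2.trans (mul_le_mul_of_nonneg_right c4 (Real.exp_pos _).le)
    rw [one_mul] at c5
    rw [mul_sub]
    refine (norm_sub_le _ _).trans ?_
    rw [add_comm]
    refine add_le_add ?_ ?_
    · rw [norm_mul, mul_comm]
      exact c1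
    · rw [norm_mul, norm_mul, norm_neg, norm_div]
      have e2 : ‖(2 : ℂ)‖ = 2 := by simp
      rw [e2]
      calc _ ≤ Real.exp (2 * δ * C + 2 * lam0 * ρ * CW * C) * (‖z' - z‖ / 2 * (4 * C)) :=
            mul_le_mul c5 (mul_le_mul_of_nonneg_left c3 (by positivity)) (by positivity)
              (Real.exp_pos _).le
        _ = _ := by ring

/-- Integrals of bounded holomorphic functions over a finite measure are holomorphic. -/
theorem diff_int {U : Set ℂ} (hU : IsOpen U) {f : ℂ → X → ℂ}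
    (hm : ∀ z ∈ U, Measurable (f z)) (hd : ∀ x, DifferentiableOn ℂ (fun z => f z x) U) {B : ℝ}
    (hb : ∀ z ∈ U, ∀ x, ‖f z x‖ ≤ B) : DifferentiableOn ℂ (fun z => ∫ x, f z x ∂ν) U := by
  intro z0 hz0
  obtain ⟨ε, hε, hball⟩ := Metric.isOpen_iff.1 hU z0 hz0
  refine DifferentiableAt.differentiableWithinAt ?_
  have key := hasDerivAt_integral_of_dominated_loc_of_deriv_le (μ := ν) (F := f)
    (F' := fun z x => deriv (fun z => f z x) z) (s := Metric.ball z0 (ε / 2))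
    (bound := fun _ => B / (ε / 4)) (x₀ := z0) (Metric.ball_mem_nhds _ (by linarith))
    ?_ ?_ ?_ ?_ ?_ ?_
  · exact key.2.differentiableAt
  · filter_upwards [hU.mem_nhds hz0] with z hz
    exact (hm z hz).aestronglyMeasurable
  · exact intg (hm z0 hz0) (hb z0 hz0)
  · refine Measurable.aestronglyMeasurable ?_
    have ht : Filter.Tendsto (fun n : ℕ => ((ε / 2 / ((n : ℝ) + 1) : ℝ) : ℂ)) Filter.atTop
        (nhdsWithin 0 {0}ᶜ) := by
      refine tendsto_nhdsWithin_iff.2 ⟨?_, Filter.Eventually.of_forall fun n => ?_⟩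
      · have h1 : Filter.Tendsto (fun n : ℕ => ε / 2 / ((n : ℝ) + 1)) Filter.atTop
            (nhds 0) := by
          have := (tendsto_one_div_add_atTop_nhds_zero_nat (𝕜 := ℝ)).const_mul (ε / 2)
          simpa [div_eq_mul_inv] using this
        have h2 := (Complex.continuous_ofReal.tendsto 0).comp h1
        rw [Complex.ofReal_zero] at h2
        exact h2
      · have : ε / 2 / ((n : ℝ) + 1) ≠ 0 := by positivity
        exact Complex.ofReal_ne_zero.2 this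
    refine measurable_of_tendsto_metrizable (f := fun (n : ℕ) x =>
      ((ε / 2 / ((n : ℝ) + 1) : ℝ) : ℂ)⁻¹ • (f (z0 + ((ε / 2 / ((n : ℝ) + 1) : ℝ) : ℂ)) x -
        f z0 x)) (fun n => ?_) (tendsto_pi_nhds.2 fun x => ?_)
    · have hmem : z0 + ((ε / 2 / ((n : ℝ) + 1) : ℝ) : ℂ) ∈ U := hball ?_
      · have hmm : Measurable fun x => f (z0 + ((ε / 2 / ((n : ℝ) + 1) : ℝ) : ℂ)) x - f z0 x :=
          (hm _ hmem).sub (hm z0 hz0)
        exact hmm.const_smul (((ε / 2 / ((n : ℝ) + 1) : ℝ) : ℂ)⁻¹)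
      rw [Metric.mem_ball, dist_eq_norm, add_sub_cancel_left, Complex.norm_real,
        Real.norm_eq_abs, abs_of_pos (by positivity), div_lt_iff₀ (by positivity)]
      have : 0 ≤ (n : ℝ) := Nat.cast_nonneg n
      nlinarith
    · have h1 : HasDerivAt (fun z => f z x) (deriv (fun z => f z x) z0) z0 :=
        ((hd x).differentiableAt (hU.mem_nhds hz0)).hasDerivAt
      exact h1.tendsto_slope_zero.comp ht
  · refine Filter.Eventually.of_forall fun x z hz => ?_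
    have hsub : Metric.closedBall z (ε / 4) ⊆ U := by
      intro y hy
      refine hball ?_
      rw [Metric.mem_ball] at hz ⊢
      rw [Metric.mem_closedBall] at hy
      linarith [dist_triangle y z z0]
    refine Complex.norm_deriv_le_of_forall_mem_sphere_norm_le (by linarith)
      ((hd x).diffContOnCl_ball hsub) fun y hy => hb y (hsub (Metric.sphere_subset_closedBall hy)) x
  · exact integrable_const _
  · refine Filter.Eventually.of_forall fun x z hz => ?_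
    have hzU : z ∈ U := hball (Metric.ball_subset_ball (by linarith) hz)
    exact ((hd x).differentiableAt (hU.mem_nhds hzU)).hasDerivAt

end Core

theorem exists_params {lam0 C CW a : ℝ} (h0 : 0 ≤ lam0) (hC : 0 ≤ C) (hCW : 1 ≤ CW)
    (ha : 0 < a) (ha1 : a < 1) :
    ∃ ρ δ b : ℝ, 0 < ρ ∧ 0 < δ ∧ 0 < b ∧ b < 1 ∧ ρ * CW ≤ 1 ∧
      (a + lam0 * ρ * CW * C + 2 * δ * C * CW) *
        Real.exp (2 * δ * C + 2 * lam0 * ρ * CW * C) ≤ b ∧
      b * ρ + 2 * C * Real.exp (2 * δ * C + 2 * lam0 * ρ * CW * C) * δ ≤ ρ := by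
  set L := (2 * lam0 + 2) * C * CW with hL
  have hL0 : 0 ≤ L := by positivity
  set ρ := (1 - a) / (4 * (L + CW)) with hρd
  have hLC : 0 < L + CW := by linarith
  have hρ : 0 < ρ := div_pos (by linarith) (by linarith)
  have hρL : ρ * (L + CW) = (1 - a) / 4 := by
    rw [hρd]
    field_simp
  set b := (1 + a) / 2 with hb
  set δ := (1 - b) * ρ / (4 * C + 1) with hδd
  have hb1 : b < 1 := by rw [hb]; linarith
  have hδ : 0 < δ := div_pos (mul_pos (by linarith) hρ) (by linarith)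
  have hδρ : δ * (4 * C + 1) = (1 - b) * ρ := by
    rw [hδd]
    field_simp
  have hδ1 : δ ≤ ρ := by
    have h1 : 0 ≤ δ * (4 * C) := by positivity
    have h2 : 0 ≤ b * ρ := mul_nonneg (by rw [hb]; linarith) hρ.le
    nlinarith
  have hρL0 : 0 ≤ ρ * L := by positivity
  have hρC0 : 0 ≤ ρ * CW := by positivity
  have hCC : C ≤ C * CW := by nlinarith
  have x1 : 2 * δ * C + 2 * lam0 * ρ * CW * C ≤ ρ * L := by
    have e1 : δ * C ≤ ρ * (C * CW) := mul_le_mul hδ1 hCC hC hρ.le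
    have e2 : ρ * L = 2 * (ρ * (C * CW)) + 2 * lam0 * ρ * CW * C := by rw [hL]; ring
    linarith
  have x2 : lam0 * ρ * CW * C + 2 * δ * C * CW ≤ ρ * L := by
    have e1 : δ * (C * CW) ≤ ρ * (C * CW) := mul_le_mul_of_nonneg_right hδ1 (by positivity)
    have e2 : ρ * L = 2 * (ρ * (C * CW)) + 2 * lam0 * ρ * CW * C := by rw [hL]; ring
    have e3 : 0 ≤ lam0 * ρ * CW * C := by positivity
    linarith
  have x3 : ρ * L ≤ (1 - a) / 4 := by linarith
  set x := ρ * L with hx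
  have hexp : Real.exp x * (1 - x) ≤ 1 := by
    have h1 := Real.one_sub_le_exp_neg x
    calc Real.exp x * (1 - x) ≤ Real.exp x * Real.exp (-x) :=
          mul_le_mul_of_nonneg_left h1 (Real.exp_pos _).le
      _ = 1 := by rw [← Real.exp_add]; simp
  have he : Real.exp (2 * δ * C + 2 * lam0 * ρ * CW * C) ≤ Real.exp x :=
    Real.exp_le_exp.2 x1
  have he2 : Real.exp x ≤ 2 := by
    have h1 : (1 : ℝ) / 2 ≤ 1 - x := by linarith
    nlinarith [Real.exp_pos x]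
  refine ⟨ρ, δ, b, hρ, hδ, by rw [hb]; linarith, hb1, by linarith, ?_, ?_⟩
  · calc (a + lam0 * ρ * CW * C + 2 * δ * C * CW) *
          Real.exp (2 * δ * C + 2 * lam0 * ρ * CW * C)
        ≤ (a + x) * Real.exp x :=
          mul_le_mul (by linarith) he (Real.exp_pos _).le (by linarith)
      _ ≤ (b * (1 - x)) * Real.exp x := by
          refine mul_le_mul_of_nonneg_right ?_ (Real.exp_pos _).le
          have h2 : (1 + b) * x ≤ 2 * ((1 - a) / 4) :=
            mul_le_mul (by linarith) x3 hρL0 (by norm_num)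
          have : b - a = (1 - a) / 2 := by rw [hb]; ring
          nlinarith
      _ = b * (Real.exp x * (1 - x)) := by ring
      _ ≤ b * 1 := mul_le_mul_of_nonneg_left hexp (by rw [hb]; linarith)
      _ = b := mul_one b
  · have h1 : 2 * C * Real.exp (2 * δ * C + 2 * lam0 * ρ * CW * C) * δ ≤ 2 * C * 2 * δ :=
      mul_le_mul_of_nonneg_right
        (mul_le_mul_of_nonneg_left (he.trans he2) (by linarith)) hδ.le
    nlinarith


section Iter

variable {X : Type} [MeasurableSpace X] (μ : Measure X)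
  {Ω : ℕ → Type} [∀ j, MeasurableSpace (Ω j)]
  (ext : (j : ℕ) → Ω j → X → Ω (j + 1)) (D : (j : ℕ) → Ω j → X → ℝ)

/-- The map whose fixed point is sought. -/
def Phi (z : ℂ) (u : (j : ℕ) → Ω j → ℂ) : (j : ℕ) → Ω j → ℂ := fun j ω =>
  Complex.exp (-(z / 2) * ∫ x, (D j ω x : ℂ) * u (j + 1) (ext j ω x) ^ 2 ∂μ)

/-- The iterates. -/
def it (z : ℂ) : ℕ → (j : ℕ) → Ω j → ℂ
  | 0 => fun _ _ => 1
  | n + 1 => Phi μ ext D z (it z n)

/-- The real iterates. -/
def rit (s : ℝ) : ℕ → (j : ℕ) → Ω j → ℝ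
  | 0 => fun _ _ => 1
  | n + 1 => fun j ω => Real.exp (-(s / 2) * ∫ x, D j ω x * rit s n (j + 1) (ext j ω x) ^ 2 ∂μ)

omit [∀ j, MeasurableSpace (Ω j)] in
theorem Phi_ofReal (s : ℝ) (u : (j : ℕ) → Ω j → ℝ) (j : ℕ) (ω : Ω j) :
    Phi μ ext D s (fun j ω => (u j ω : ℂ)) j ω =
      (Real.exp (-(s / 2) * ∫ x, D j ω x * u (j + 1) (ext j ω x) ^ 2 ∂μ) : ℝ) := by
  unfold Phi
  push_cast
  congr 2
  rw [← integral_complex_ofReal]
  simp

omit [∀ j, MeasurableSpace (Ω j)] in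
theorem it_ofReal (s : ℝ) (n : ℕ) : ∀ j (ω : Ω j), it μ ext D s n j ω = (rit μ ext D s n j ω : ℂ) := by
  induction n with
  | zero => intro j ω; simp [it, rit]
  | succ n ih =>
    intro j ω
    have h1 : it μ ext D s n = fun j ω => (rit μ ext D s n j ω : ℂ) := by
      funext j ω
      exact ih j ω
    rw [it, h1, Phi_ofReal]
    rfl

variable {μ ext D}

/-- The hypotheses. -/
structure PSys (lam0 C CW a : ℝ) (μ : Measure X) (ext : (j : ℕ) → Ω j → X → Ω (j + 1))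
    (D : (j : ℕ) → Ω j → X → ℝ) (W : (j : ℕ) → Ω j → ℝ) : Prop where
  mext : ∀ j, Measurable (Function.uncurry (ext j))
  mD : ∀ j, Measurable (Function.uncurry (D j))
  D0 : ∀ j ω x, 0 ≤ D j ω x
  iD : ∀ j ω, Integrable (D j ω) μ
  DC : ∀ j ω, ∫ x, D j ω x ∂μ ≤ C
  mW : ∀ j, Measurable (W j)
  W1 : ∀ j ω, 1 ≤ W j ω ∧ W j ω ≤ CW
  WD : ∀ j ω, (lam0 / Real.exp 1) * ∫ x, D j ω x * W (j + 1) (ext j ω x) ∂μ ≤ a ^ 2 * W j ω

variable {lam0 C CW a : ℝ} {W : (j : ℕ) → Ω j → ℝ}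

theorem PSys.mDx (H : PSys lam0 C CW a μ ext D W) (j : ℕ) (ω : Ω j) : Measurable (D j ω) :=
  (H.mD j).comp measurable_prodMk_left

theorem PSys.mex (H : PSys lam0 C CW a μ ext D W) (j : ℕ) (ω : Ω j) : Measurable (ext j ω) :=
  (H.mext j).comp measurable_prodMk_left

/-- The measure with density `D`. -/
def nu (μ : Measure X) (D : (j : ℕ) → Ω j → X → ℝ) (j : ℕ) (ω : Ω j) : Measure X :=
  μ.withDensity fun x => ENNReal.ofReal (D j ω x)

theorem PSys.fin (H : PSys lam0 C CW a μ ext D W) (j : ℕ) (ω : Ω j) :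
    IsFiniteMeasure (nu μ D j ω) := isFiniteMeasure_withDensity_ofReal (H.iD j ω).2

theorem PSys.nu_int (H : PSys lam0 C CW a μ ext D W) (j : ℕ) (ω : Ω j) {E : Type}
    [NormedAddCommGroup E] [NormedSpace ℝ E] (g : X → E) :
    ∫ x, g x ∂(nu μ D j ω) = ∫ x, D j ω x • g x ∂μ := by
  unfold nu
  rw [integral_withDensity_eq_integral_toReal_smul (H.mDx j ω).ennreal_ofReal
    (Filter.Eventually.of_forall fun x => ENNReal.ofReal_lt_top)]
  refine integral_congr_ae (Filter.Eventually.of_forall fun x => ?_)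
  simp only [ENNReal.toReal_ofReal (H.D0 j ω x)]

theorem PSys.nu_intc (H : PSys lam0 C CW a μ ext D W) (j : ℕ) (ω : Ω j) (g : X → ℂ) :
    ∫ x, g x ∂(nu μ D j ω) = ∫ x, (D j ω x : ℂ) * g x ∂μ := by
  rw [H.nu_int]
  simp

theorem PSys.nu_univ (H : PSys lam0 C CW a μ ext D W) (j : ℕ) (ω : Ω j) :
    (nu μ D j ω).real Set.univ ≤ C := by
  have h1 := H.nu_int j ω (fun _ => (1 : ℝ))
  simp only [integral_const, smul_eq_mul, mul_one] at h1
  rw [h1]
  exact H.DC j ω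

theorem PSys.Phi_eq (H : PSys lam0 C CW a μ ext D W) (z : ℂ) (u : (j : ℕ) → Ω j → ℂ) (j : ℕ)
    (ω : Ω j) : Phi μ ext D z u j ω =
      Complex.exp (-(z / 2) * ∫ x, u (j + 1) (ext j ω x) ^ 2 ∂(nu μ D j ω)) := by
  rw [H.nu_intc]
  rfl

theorem PSys.measurable_Phi [SigmaFinite μ] (H : PSys lam0 C CW a μ ext D W) (z : ℂ)
    {u : (j : ℕ) → Ω j → ℂ} (hu : ∀ j, Measurable (u j)) (j : ℕ) :
    Measurable (Phi μ ext D z u j) := by
  unfold Phi
  refine Complex.measurable_exp.comp (Measurable.const_mul ?_ _)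
  have h1 : Measurable (Function.uncurry fun (ω : Ω j) x =>
      (D j ω x : ℂ) * u (j + 1) (ext j ω x) ^ 2) :=
    (Complex.measurable_ofReal.comp (H.mD j)).mul (((hu (j + 1)).comp (H.mext j)).pow_const 2)
  exact h1.stronglyMeasurable.integral_prod_right.measurable

theorem PSys.measurable_it [SigmaFinite μ] (H : PSys lam0 C CW a μ ext D W) (z : ℂ) (n : ℕ) :
    ∀ j, Measurable (it μ ext D z n j) := by
  induction n with
  | zero => intro j; exact measurable_const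
  | succ n ih => exact H.measurable_Phi z ih

theorem PSys.measurable_rit [SigmaFinite μ] (H : PSys lam0 C CW a μ ext D W) (s : ℝ) (n : ℕ)
    (j : ℕ) : Measurable (rit μ ext D s n j) := by
  have h1 := Complex.measurable_re.comp (H.measurable_it s n j)
  have h2 : (Complex.re ∘ it μ ext D s n j) = rit μ ext D s n j := by
    funext ω
    simp [it_ofReal]
  rwa [h2] at h1

theorem PSys.rit_mem (H : PSys lam0 C CW a μ ext D W) {s : ℝ} (hs : 0 ≤ s) (n : ℕ) (j : ℕ)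
    (ω : Ω j) : 0 ≤ rit μ ext D s n j ω ∧ rit μ ext D s n j ω ≤ 1 := by
  rcases n with - | n
  · simp [rit]
  · refine ⟨(Real.exp_pos _).le, ?_⟩
    rw [rit, Real.exp_le_one_iff]
    have h1 : 0 ≤ ∫ x, D j ω x * rit μ ext D s n (j + 1) (ext j ω x) ^ 2 ∂μ :=
      integral_nonneg fun x => mul_nonneg (H.D0 j ω x) (sq_nonneg _)
    have := mul_nonneg hs h1
    linarith

variable {ρ δ b : ℝ}

theorem PSys.step (H : PSys lam0 C CW a μ ext D W) (h0 : 0 ≤ lam0) (hC : 0 ≤ C)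
    (hCW : 1 ≤ CW) (ha : 0 < a) (hρ : 0 < ρ) (hδ : 0 < δ) (hρW : ρ * CW ≤ 1)
    (hb : (a + lam0 * ρ * CW * C + 2 * δ * C * CW) *
        Real.exp (2 * δ * C + 2 * lam0 * ρ * CW * C) ≤ b)
    {s : ℝ} (hs : s ∈ Set.Icc 0 lam0) {g g' : (j : ℕ) → Ω j → ℂ} {h h' : (j : ℕ) → Ω j → ℝ}
    (hg : ∀ j, Measurable (g j)) (hg' : ∀ j, Measurable (g' j))
    (hh : ∀ j, Measurable (h j)) (hh0 : ∀ j ω, 0 ≤ h j ω ∧ h j ω ≤ 1)
    (hh' : ∀ j, Measurable (h' j)) (hh0' : ∀ j ω, 0 ≤ h' j ω ∧ h' j ω ≤ 1)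
    (hgh : ∀ j ω, ‖g j ω - h j ω‖ ≤ ρ * √(W j ω)) (hgh' : ∀ j ω, ‖g' j ω - h' j ω‖ ≤ ρ * √(W j ω))
    {M : ℝ} (hM : 0 ≤ M)
    (hum : ∀ j ω, ‖g' j ω - g j ω‖ ≤ M * √(W j ω)) {z z' : ℂ} (hz : ‖z - s‖ ≤ δ)
    (hz' : ‖z' - s‖ ≤ δ) (j : ℕ) (ω : Ω j) :
    ‖Phi μ ext D z' g' j ω - Phi μ ext D z g j ω‖ ≤ M * √(W j ω) * b +
      2 * C * Real.exp (2 * δ * C + 2 * lam0 * ρ * CW * C) * ‖z' - z‖ := by
  have := H.fin j ω
  rw [H.Phi_eq, H.Phi_eq]
  have hwd : (lam0 / Real.exp 1) * ∫ x, W (j + 1) (ext j ω x) ∂(nu μ D j ω) ≤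
      a ^ 2 * W j ω := by
    rw [H.nu_int]
    exact H.WD j ω
  refine (lip (ν := nu μ D j ω) (w := fun x => W (j + 1) (ext j ω x)) h0 hC hCW ha hρ hδ hρW
    (H.nu_univ j ω)
    ((H.mW _).comp (H.mex j ω)) (fun x => (H.W1 _ _).1) (fun x => (H.W1 _ _).2) (H.W1 j ω).1
    hwd hs ((hg _).comp (H.mex j ω)) ((hg' _).comp (H.mex j ω))
    ((hh _).comp (H.mex j ω)) (fun x => (hh0 _ _).1) (fun x => (hh0 _ _).2)
    ((hh' _).comp (H.mex j ω)) (fun x => (hh0' _ _).1) (fun x => (hh0' _ _).2)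
    (fun x => hgh _ _) (fun x => hgh' _ _) hM (fun x => hum _ _) hz hz').trans ?_
  refine add_le_add (mul_le_mul_of_nonneg_left hb ?_) le_rfl
  exact mul_nonneg hM (Real.sqrt_nonneg _)

/-- The parameters are admissible. -/
structure Par (lam0 C CW a ρ δ b : ℝ) : Prop where
  h0 : 0 ≤ lam0
  hC : 0 ≤ C
  hCW : 1 ≤ CW
  ha : 0 < a
  hρ : 0 < ρ
  hδ : 0 < δ
  hb0 : 0 < b
  hb1 : b < 1
  hρW : ρ * CW ≤ 1
  hb : (a + lam0 * ρ * CW * C + 2 * δ * C * CW) *
        Real.exp (2 * δ * C + 2 * lam0 * ρ * CW * C) ≤ b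
  hbρ : b * ρ + 2 * C * Real.exp (2 * δ * C + 2 * lam0 * ρ * CW * C) * δ ≤ ρ

theorem PSys.close [SigmaFinite μ] (H : PSys lam0 C CW a μ ext D W) (P : Par lam0 C CW a ρ δ b)
    {s : ℝ} (hs : s ∈ Set.Icc 0 lam0) {z : ℂ} (hz : ‖z - s‖ ≤ δ) (n : ℕ) :
    ∀ j (ω : Ω j), ‖it μ ext D z n j ω - (rit μ ext D s n j ω : ℂ)‖ ≤ ρ * √(W j ω) := by
  induction n with
  | zero =>
    intro j ω
    simp only [it, rit, Complex.ofReal_one, sub_self, norm_zero]
    exact mul_nonneg P.hρ.le (Real.sqrt_nonneg _)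
  | succ n ih =>
    intro j ω
    have h1 := H.step P.h0 P.hC P.hCW P.ha P.hρ P.hδ P.hρW P.hb hs
      (g := fun j ω => (rit μ ext D s n j ω : ℂ)) (g' := it μ ext D z n)
      (h := rit μ ext D s n) (h' := rit μ ext D s n)
      (fun j => Complex.measurable_ofReal.comp (H.measurable_rit s n j)) (H.measurable_it z n)
      (H.measurable_rit s n) (H.rit_mem hs.1 n) (H.measurable_rit s n) (H.rit_mem hs.1 n)
      (fun j ω => by
        rw [sub_self, norm_zero]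
        exact mul_nonneg P.hρ.le (Real.sqrt_nonneg _))
      ih P.hρ.le ih (z := (s : ℂ)) (z' := z) (by rw [sub_self, norm_zero]; exact P.hδ.le) hz j ω
    rw [Phi_ofReal] at h1
    have h2 := one_le_sqrt (H.W1 j ω).1
    have h3 : 2 * C * Real.exp (2 * δ * C + 2 * lam0 * ρ * CW * C) * ‖z - s‖ ≤
        2 * C * Real.exp (2 * δ * C + 2 * lam0 * ρ * CW * C) * δ :=
      mul_le_mul_of_nonneg_left hz
        (mul_nonneg (mul_nonneg (by norm_num) P.hC) (Real.exp_pos _).le)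
    have h4 : 0 ≤ 2 * C * Real.exp (2 * δ * C + 2 * lam0 * ρ * CW * C) * δ :=
      mul_nonneg (mul_nonneg (mul_nonneg (by norm_num) P.hC) (Real.exp_pos _).le) P.hδ.le
    have h5 : (b * ρ + 2 * C * Real.exp (2 * δ * C + 2 * lam0 * ρ * CW * C) * δ) * √(W j ω) ≤
        ρ * √(W j ω) := mul_le_mul_of_nonneg_right P.hbρ (Real.sqrt_nonneg _)
    refine h1.trans ?_
    nlinarith

theorem PSys.contr [SigmaFinite μ] (H : PSys lam0 C CW a μ ext D W) (P : Par lam0 C CW a ρ δ b)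
    {s : ℝ} (hs : s ∈ Set.Icc 0 lam0) {z : ℂ} (hz : ‖z - s‖ ≤ δ) {g : (j : ℕ) → Ω j → ℂ}
    {h : (j : ℕ) → Ω j → ℝ} (hg : ∀ j, Measurable (g j)) (hh : ∀ j, Measurable (h j))
    (hh0 : ∀ j ω, 0 ≤ h j ω ∧ h j ω ≤ 1) (hgh : ∀ j ω, ‖g j ω - h j ω‖ ≤ ρ * √(W j ω))
    (n : ℕ) {M : ℝ} (hM : 0 ≤ M) (hum : ∀ j ω, ‖g j ω - it μ ext D z n j ω‖ ≤ M * √(W j ω)) :
    ∀ j (ω : Ω j), ‖Phi μ ext D z g j ω - it μ ext D z (n + 1) j ω‖ ≤ M * b * √(W j ω) := by
  intro j ω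
  have h1 := H.step P.h0 P.hC P.hCW P.ha P.hρ P.hδ P.hρW P.hb hs
    (g := it μ ext D z n) (g' := g) (h := rit μ ext D s n) (h' := h)
    (H.measurable_it z n) hg (H.measurable_rit s n) (H.rit_mem hs.1 n) hh hh0
    (H.close P hs hz n) hgh hM hum hz hz j ω
  rw [sub_self, norm_zero, mul_zero, add_zero] at h1
  rw [it]
  linarith

theorem PSys.norm_it [SigmaFinite μ] (H : PSys lam0 C CW a μ ext D W)
    (P : Par lam0 C CW a ρ δ b) {z : ℂ} (hz : z ∈ nearSeg lam0 δ) (n : ℕ) (j : ℕ) (ω : Ω j) :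
    ‖it μ ext D z n j ω‖ ≤ 2 := by
  obtain ⟨s, hs, hzs⟩ := hz
  have h1 := H.close P hs hzs.le n j ω
  have h2 := H.rit_mem hs.1 n j ω
  have h3 : ρ * √(W j ω) ≤ ρ * CW := mul_le_mul_of_nonneg_left
    ((sqrt_le_of_one_le (H.W1 j ω).1).trans (H.W1 j ω).2) P.hρ.le
  have h4 : it μ ext D z n j ω = (it μ ext D z n j ω - (rit μ ext D s n j ω : ℂ)) +
      (rit μ ext D s n j ω : ℂ) := by ring
  rw [h4]
  refine (norm_add_le _ _).trans ?_
  rw [Complex.norm_real, Real.norm_eq_abs, abs_of_nonneg h2.1]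
  linarith [P.hρW]

theorem PSys.geo [SigmaFinite μ] (H : PSys lam0 C CW a μ ext D W) (P : Par lam0 C CW a ρ δ b)
    {z : ℂ} (hz : z ∈ nearSeg lam0 δ) (n : ℕ) :
    ∀ j (ω : Ω j), ‖it μ ext D z n j ω - it μ ext D z (n + 1) j ω‖ ≤ 4 * b ^ n * √(W j ω) := by
  have hz' := hz
  obtain ⟨s, hs, hzs⟩ := hz
  induction n with
  | zero =>
    intro j ω
    refine (norm_sub_le _ _).trans ?_
    have h1 := H.norm_it P hz' 0 j ω
    have h2 := H.norm_it P hz' 1 j ω
    have h3 := one_le_sqrt (H.W1 j ω).1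
    rw [pow_zero]
    linarith
  | succ n ih =>
    intro j ω
    rw [norm_sub_rev]
    have h1 := H.contr P hs hzs.le (H.measurable_it z (n + 1)) (H.measurable_rit s (n + 1))
      (H.rit_mem hs.1 (n + 1)) (H.close P hs hzs.le (n + 1)) n (M := 4 * b ^ n)
      (mul_nonneg (by norm_num) (pow_nonneg P.hb0.le _))
      (fun j ω => by rw [norm_sub_rev]; exact ih j ω) j ω
    rw [pow_succ, ← mul_assoc]
    exact h1

theorem PSys.isOpen_nearSeg (lam0 δ : ℝ) : IsOpen (nearSeg lam0 δ) := by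
  have h1 : nearSeg lam0 δ = ⋃ s ∈ Set.Icc (0 : ℝ) lam0, Metric.ball (s : ℂ) δ := by
    ext z
    simp [nearSeg, Metric.mem_ball, dist_eq_norm]
  rw [h1]
  exact isOpen_biUnion fun s _ => Metric.isOpen_ball

theorem PSys.diff_it [SigmaFinite μ] (H : PSys lam0 C CW a μ ext D W)
    (P : Par lam0 C CW a ρ δ b) (n : ℕ) : ∀ j (ω : Ω j),
    DifferentiableOn ℂ (fun z => it μ ext D z n j ω) (nearSeg lam0 δ) := by
  induction n with
  | zero => intro j ω; exact differentiableOn_const _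
  | succ n ih =>
    intro j ω
    have hf := H.fin j ω
    have h1 : DifferentiableOn ℂ (fun z => ∫ x, it μ ext D z n (j + 1) (ext j ω x) ^ 2
        ∂(nu μ D j ω)) (nearSeg lam0 δ) := by
      refine diff_int (PSys.isOpen_nearSeg lam0 δ) (B := 4) (fun z _ => ?_) (fun x => ?_)
        (fun z hz x => ?_)
      · exact ((H.measurable_it z n (j + 1)).comp (H.mex j ω)).pow_const 2
      · exact (ih (j + 1) (ext j ω x)).pow 2
      · rw [norm_pow]
        have := H.norm_it P hz n (j + 1) (ext j ω x)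
        nlinarith [norm_nonneg (it μ ext D z n (j + 1) (ext j ω x))]
    have h2 : DifferentiableOn ℂ (fun z : ℂ => -(z / 2)) (nearSeg lam0 δ) :=
      (differentiableOn_id.div_const 2).neg
    have h3 := (h2.mul h1).cexp
    refine h3.congr fun z _ => ?_
    rw [it, H.Phi_eq]
    rfl

end Iter

end Pic

open Pic in
theorem picard {lam0 C CW a : ℝ} (h0 : 0 ≤ lam0) (hC : 0 ≤ C) (hCW : 1 ≤ CW) (ha : 0 < a)
    (ha1 : a < 1) :
    ∃ δ : ℝ, 0 < δ ∧ ∀ (X : Type) [MeasurableSpace X] (μ : Measure X) [SigmaFinite μ]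
      (Ω : ℕ → Type) [∀ j, MeasurableSpace (Ω j)]
      (ext : (j : ℕ) → Ω j → X → Ω (j + 1)) (_ : ∀ j, Measurable (Function.uncurry (ext j)))
      (D : (j : ℕ) → Ω j → X → ℝ) (_ : ∀ j, Measurable (Function.uncurry (D j)))
      (_ : ∀ j ω x, 0 ≤ D j ω x) (_ : ∀ j ω, Integrable (D j ω) μ)
      (_ : ∀ j ω, ∫ x, D j ω x ∂μ ≤ C)
      (W : (j : ℕ) → Ω j → ℝ) (_ : ∀ j, Measurable (W j)) (_ : ∀ j ω, 1 ≤ W j ω ∧ W j ω ≤ CW)
      (_ : ∀ j ω, (lam0 / Real.exp 1) * ∫ x, D j ω x * W (j + 1) (ext j ω x) ∂μ ≤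
        a ^ 2 * W j ω),
      ∃ H : ℂ → (j : ℕ) → Ω j → ℂ,
        (∀ j ω, DifferentiableOn ℂ (fun z => H z j ω) (nearSeg lam0 δ)) ∧
        (∀ z ∈ nearSeg lam0 δ, ∀ j, Measurable (H z j)) ∧
        (∀ z ∈ nearSeg lam0 δ, ∀ j ω, ‖H z j ω‖ ≤ 2) ∧
        ∀ s ∈ Set.Icc (0 : ℝ) lam0, ∀ h : (j : ℕ) → Ω j → ℝ, (∀ j, Measurable (h j)) →
          (∀ j ω, 0 ≤ h j ω ∧ h j ω ≤ 1) →
          (∀ j ω, h j ω = Real.exp (-(s / 2) * ∫ x, D j ω x * h (j + 1) (ext j ω x) ^ 2 ∂μ)) →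
          ∀ j ω, H s j ω = h j ω := by
  obtain ⟨ρ, δ, b, hρ, hδ, hb0, hb1, hρW, hb, hbρ⟩ := exists_params h0 hC hCW ha ha1
  have P : Par lam0 C CW a ρ δ b := ⟨h0, hC, hCW, ha, hρ, hδ, hb0, hb1, hρW, hb, hbρ⟩
  refine ⟨δ, hδ, ?_⟩
  intro X _ μ _ Ω _ ext hext D hD hD0 hDi hDC W hW hW1 hWD
  have H : PSys lam0 C CW a μ ext D W := ⟨hext, hD, hD0, hDi, hDC, hW, hW1, hWD⟩
  have hdist : ∀ z ∈ nearSeg lam0 δ, ∀ j (ω : Ω j) n,
      dist (it μ ext D z n j ω) (it μ ext D z (n + 1) j ω) ≤ 4 * √(W j ω) * b ^ n := by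
    intro z hz j ω n
    rw [dist_eq_norm]
    have := H.geo P hz n j ω
    linarith
  have hcau : ∀ z ∈ nearSeg lam0 δ, ∀ j (ω : Ω j),
      CauchySeq (fun n => it μ ext D z n j ω) := fun z hz j ω =>
    cauchySeq_of_le_geometric b (4 * √(W j ω)) hb1 (hdist z hz j ω)
  have hex : ∀ z j (ω : Ω j), ∃ l : ℂ, z ∈ nearSeg lam0 δ →
      Filter.Tendsto (fun n => it μ ext D z n j ω) Filter.atTop (nhds l) := by
    intro z j ω
    by_cases hz : z ∈ nearSeg lam0 δ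
    · obtain ⟨l, hl⟩ := cauchySeq_tendsto_of_complete (hcau z hz j ω)
      exact ⟨l, fun _ => hl⟩
    · exact ⟨0, fun h => absurd h hz⟩
  choose Hf hHf using hex
  have hlim : ∀ z ∈ nearSeg lam0 δ, ∀ j (ω : Ω j),
      Filter.Tendsto (fun n => it μ ext D z n j ω) Filter.atTop (nhds (Hf z j ω)) :=
    fun z hz j ω => hHf z j ω hz
  refine ⟨Hf, ?_, ?_, ?_, ?_⟩
  · intro j ω
    refine TendstoLocallyUniformlyOn.differentiableOn (φ := Filter.atTop)
      (F := fun n z => it μ ext D z n j ω) ?_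
      (Filter.Eventually.of_forall fun n => H.diff_it P n j ω) (PSys.isOpen_nearSeg lam0 δ)
    refine TendstoUniformlyOn.tendstoLocallyUniformlyOn ?_
    rw [Metric.tendstoUniformlyOn_iff]
    intro ε hε
    have ht : Filter.Tendsto (fun n : ℕ => 4 * √(W j ω) * b ^ n / (1 - b)) Filter.atTop
        (nhds 0) := by
      have := ((tendsto_pow_atTop_nhds_zero_of_lt_one hb0.le hb1).const_mul
        (4 * √(W j ω))).div_const (1 - b)
      simpa using this
    filter_upwards [ht.eventually (gt_mem_nhds hε)] with n hn z hz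
    rw [dist_comm]
    exact (dist_le_of_le_geometric_of_tendsto b (4 * √(W j ω)) hb1 (hdist z hz j ω)
      (hlim z hz j ω) n).trans_lt hn
  · intro z hz j
    refine measurable_of_tendsto_metrizable (f := fun n => it μ ext D z n j)
      (fun n => H.measurable_it z n j) (tendsto_pi_nhds.2 fun ω => ?_)
    exact hlim z hz j ω
  · intro z hz j ω
    exact le_of_tendsto' (hlim z hz j ω).norm fun n => H.norm_it P hz n j ω
  · intro s hs h hh hh0 hfix j ω
    have hz : (s : ℂ) ∈ nearSeg lam0 δ := ⟨s, hs, by simpa using hδ⟩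
    have hzs : ‖(s : ℂ) - s‖ ≤ δ := by simpa using hδ.le
    have hPhi : ∀ j (ω : Ω j), Phi μ ext D s (fun j ω => (h j ω : ℂ)) j ω = (h j ω : ℂ) := by
      intro j ω
      rw [Phi_ofReal, ← hfix]
    have hclose : ∀ n j (ω : Ω j), ‖(h j ω : ℂ) - it μ ext D s n j ω‖ ≤
        4 * b ^ n * √(W j ω) := by
      intro n
      induction n with
      | zero =>
        intro j ω
        refine (norm_sub_le _ _).trans ?_
        have h1 := H.norm_it P hz 0 j ω
        have h3 := one_le_sqrt (H.W1 j ω).1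
        rw [pow_zero, Complex.norm_real, Real.norm_eq_abs, abs_of_nonneg (hh0 j ω).1]
        linarith [(hh0 j ω).2]
      | succ n ih =>
        intro j ω
        have h1 := H.contr P hs hzs (g := fun j ω => (h j ω : ℂ)) (h := h)
          (fun j => Complex.measurable_ofReal.comp (hh j)) hh hh0
          (fun j ω => by
            rw [sub_self, norm_zero]
            exact mul_nonneg hρ.le (Real.sqrt_nonneg _)) n (M := 4 * b ^ n)
          (mul_nonneg (by norm_num) (pow_nonneg hb0.le _)) ih j ω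
        rw [hPhi] at h1
        rw [pow_succ, ← mul_assoc]
        exact h1
    refine tendsto_nhds_unique (hlim s hz j ω) ?_
    rw [tendsto_iff_norm_sub_tendsto_zero]
    have ht : Filter.Tendsto (fun n : ℕ => 4 * b ^ n * √(W j ω)) Filter.atTop (nhds 0) := by
      have := ((tendsto_pow_atTop_nhds_zero_of_lt_one hb0.le hb1).const_mul 4).mul_const
        (√(W j ω))
      simpa using this
    refine squeeze_zero (fun n => norm_nonneg _) (fun n => ?_) ht
    rw [norm_sub_rev]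
    exact hclose n j ω

end Pool.Agent.Lib.P8e91ed
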