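import Pool.Agent.Lib.P8e91ed.Defs
import Pool.Agent.Lib.P8e91ed.Expansion

/-!
MP_8e91ed_lc: the Michelen-Perkins radial identity.
-/

set_option autoImplicit false

open MeasureTheory Finset

noncomputable section

namespace Pool.Agent.Lib.P8e91ed

/-- A function whose increments are bounded by squares of increments of a continuous monotone
function is constant. -/
theorem radial_const_of_sq {H Φ : ℝ → ℝ} {C T : ℝ} (hT : 0 ≤ T) (hC : 0 ≤ C)
    (hc : Continuous Φ)
    (h : ∀ s t, s ≤ t → 0 ≤ Φ t - Φ s ∧ (Φ t - Φ s ≤ 1 / 2 →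
      |H t - H s| ≤ C * (Φ t - Φ s) ^ 2)) : H T = H 0 := by
  have key : ∀ ε : ℝ, 0 < ε → ε ≤ 1 / 2 → |H T - H 0| ≤ ε * (C * (Φ T - Φ 0)) := by
    intro ε hε hε2
    have huc : UniformContinuousOn Φ (Set.Icc 0 T) :=
      isCompact_Icc.uniformContinuousOn_of_continuous hc.continuousOn
    rw [Metric.uniformContinuousOn_iff] at huc
    obtain ⟨δ, hδ, hδ'⟩ := huc ε hε
    obtain ⟨n, hn⟩ := exists_nat_gt (T / δ)
    have hn0 : (0 : ℝ) < (n : ℝ) + 1 := by positivity
    have hTn : T / (n + 1) < δ := by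
      rw [div_lt_iff₀ hδ] at hn
      rw [div_lt_iff₀ hn0]
      nlinarith
    set p : ℕ → ℝ := fun i => T * i / (n + 1) with hp
    have hp0 : p 0 = 0 := by simp [hp]
    have hpn : p (n + 1) = T := by simp [hp]; field_simp
    have hmono : ∀ i, p i ≤ p (i + 1) := by
      intro i
      simp only [hp]
      push_cast
      gcongr
      linarith
    have hdiff : ∀ i, p (i + 1) - p i = T / (n + 1) := by
      intro i
      simp only [hp]
      push_cast
      field_simp
      ring
    have hmem : ∀ i, i ≤ n + 1 → p i ∈ Set.Icc 0 T := by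
      intro i hi
      constructor
      · simp only [hp]; positivity
      · simp only [hp]
        rw [div_le_iff₀ hn0]
        have : (i : ℝ) ≤ n + 1 := by exact_mod_cast hi
        nlinarith
    have h1 : H T - H 0 = ∑ i ∈ range (n + 1), (H (p (i + 1)) - H (p i)) := by
      rw [Finset.sum_range_sub (fun i => H (p i)), hp0, hpn]
    have h2 : Φ T - Φ 0 = ∑ i ∈ range (n + 1), (Φ (p (i + 1)) - Φ (p i)) := by
      rw [Finset.sum_range_sub (fun i => Φ (p i)), hp0, hpn]
    rw [h1, h2, Finset.mul_sum, Finset.mul_sum]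
    refine (Finset.abs_sum_le_sum_abs _ _).trans (Finset.sum_le_sum fun i hi => ?_)
    rw [Finset.mem_range] at hi
    obtain ⟨hnn, hb⟩ := h (p i) (p (i + 1)) (hmono i)
    have hlt : Φ (p (i + 1)) - Φ (p i) < ε := by
      have := hδ' (p (i + 1)) (hmem _ (by omega)) (p i) (hmem _ (by omega)) (by
        rw [Real.dist_eq, hdiff i, abs_of_nonneg (by positivity)]
        exact hTn)
      rw [Real.dist_eq, abs_of_nonneg hnn] at this
      exact this
    have := hb (by linarith)
    refine this.trans ?_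
    have : (Φ (p (i + 1)) - Φ (p i)) ^ 2 ≤ ε * (Φ (p (i + 1)) - Φ (p i)) := by
      rw [sq]
      exact mul_le_mul_of_nonneg_right hlt.le hnn
    calc C * (Φ (p (i + 1)) - Φ (p i)) ^ 2 ≤ C * (ε * (Φ (p (i + 1)) - Φ (p i))) :=
          mul_le_mul_of_nonneg_left this hC
      _ = _ := by ring
  by_contra hne
  have hpos : 0 < |H T - H 0| := abs_pos.mpr (sub_ne_zero.mpr hne)
  set K := C * (Φ T - Φ 0) with hK
  have hK0 : 0 ≤ K := mul_nonneg hC (h 0 T hT).1
  have := key (min (1 / 2) (|H T - H 0| / (2 * (K + 1)))) (by positivity) (min_le_left _ _)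
  have h3 : min (1 / 2) (|H T - H 0| / (2 * (K + 1))) * K ≤ |H T - H 0| / (2 * (K + 1)) * K :=
    mul_le_mul_of_nonneg_right (min_le_right _ _) hK0
  have h4 : |H T - H 0| / (2 * (K + 1)) * K < |H T - H 0| := by
    rw [div_mul_eq_mul_div, div_lt_iff₀ (by positivity)]
    nlinarith
  linarith

/-- elementary estimate for the logarithm of a ratio -/
theorem radial_log_aux {Zs Zt E I : ℝ} (hs : 1 ≤ Zs) (ht : 1 ≤ Zt) (hE : E ≤ 1 / 2)
    (h1 : Zt ≤ Zs) (h2 : Zs - Zt ≤ E * Zs) (h3 : |Zs - Zt - I * Zs| ≤ E ^ 2 * Zs) :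
    |Real.log Zt - Real.log Zs + I| ≤ 3 * E ^ 2 := by
  have hs0 : 0 < Zs := by linarith
  have ht0 : 0 < Zt := by linarith
  set ρ := Zt / Zs with hρ
  have hρ0 : 0 < ρ := by positivity
  have hρ1 : ρ ≤ 1 := by rw [hρ, div_le_one hs0]; exact h1
  have hρE : 1 - E ≤ ρ := by
    rw [hρ, le_div_iff₀ hs0]; linarith
  have hI : |1 - ρ - I| ≤ E ^ 2 := by
    have : Zs - Zt - I * Zs = (1 - ρ - I) * Zs := by
      rw [hρ]; field_simp
    rw [this, abs_mul, abs_of_pos hs0] at h3
    exact le_of_mul_le_mul_right h3 hs0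
  rw [← Real.log_div ht0.ne' hs0.ne', ← hρ]
  have hl1 : Real.log ρ ≤ ρ - 1 := Real.log_le_sub_one_of_pos hρ0
  have hl2 : 1 - ρ⁻¹ ≤ Real.log ρ := Real.one_sub_inv_le_log_of_pos hρ0
  have hl3 : -(1 - ρ) - 2 * (1 - ρ) ^ 2 ≤ 1 - ρ⁻¹ := by
    have h12 : 1 / 2 ≤ ρ := by linarith
    have : ρ⁻¹ = 1 + (1 - ρ) / ρ := by field_simp; ring
    rw [this]
    have h5 : (1 - ρ) / ρ ≤ (1 - ρ) + 2 * (1 - ρ) ^ 2 := by
      rw [div_le_iff₀ hρ0]
      nlinarith [mul_nonneg (sub_nonneg.mpr hρ1) (sub_nonneg.mpr hρ1), mul_nonneg (mul_nonneg (sub_nonneg.mpr hρ1) (sub_nonneg.mpr hρ1)) (sub_nonneg.mpr h12)]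
    linarith
  have hsq : (1 - ρ) ^ 2 ≤ E ^ 2 := by
    apply pow_le_pow_left₀ (by linarith); linarith
  rw [abs_le] at hI ⊢
  constructor
  · nlinarith
  · nlinarith

/-- elementary estimate for the difference of two ratios -/
theorem radial_ratio_aux {Ns Nu Ds Du E : ℝ} (hNs : 0 ≤ Ns) (hDs : 0 < Ds) (hDu : 0 < Du)
    (hE0 : 0 ≤ E) (hE : E ≤ 1 / 2) (hND : Ns ≤ Ds) (h1 : Nu ≤ Ns) (h2 : Ns - Nu ≤ E * Ns)
    (h3 : Du ≤ Ds) (h4 : Ds - Du ≤ E * Ds) : |Ns / Ds - Nu / Du| ≤ 2 * E := by
  have hg : Ns / Ds ≤ 1 := by rw [div_le_one hDs]; exact hND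
  have hg0 : 0 ≤ Ns / Ds := by positivity
  have hNs' : Ns = (Ns / Ds) * Ds := by field_simp
  rw [abs_le]
  constructor
  · have : Nu / Du ≤ Ns / Ds + 2 * E := by
      rw [div_le_iff₀ hDu]
      have : Ds / 2 ≤ Du := by nlinarith
      nlinarith [mul_nonneg hg0 hE0, mul_nonneg hE0 hDs.le, mul_nonneg hE0 hDu.le,
        mul_nonneg (mul_nonneg hg0 hE0) hDs.le, mul_le_mul_of_nonneg_left h4 hg0,
        mul_nonneg (mul_nonneg hE0 hDs.le) (sub_nonneg.mpr hg)]
    linarith
  · have h5 : Nu / Ds ≤ Nu / Du := by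
      by_cases hNu : 0 ≤ Nu
      · exact div_le_div_of_nonneg_left hNu hDu h3
      · exfalso
        push Not at hNu
        nlinarith
    have h6 : Ns / Ds - E * (Ns / Ds) ≤ Nu / Ds := by
      rw [le_div_iff₀ hDs]
      have : (Ns / Ds - E * (Ns / Ds)) * Ds = Ns - E * Ns := by field_simp
      rw [this]; linarith
    nlinarith [mul_le_mul_of_nonneg_left hg hE0]

section main

variable {d : ℕ} (q η : Sp d → ℝ) (lam : ℝ) (v : Sp d)

/-- the weight at time `t` -/
def rwt (t : ℝ) (x : Sp d) : ℝ := lam * (η x * if ‖x - v‖ < t then q (v - x) else 1)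

/-- the full increment -/
def rinc (x : Sp d) : ℝ := lam * (η x * (1 - q (v - x)))

/-- the increment between `s` and `t` -/
def rinc2 (s t : ℝ) (x : Sp d) : ℝ := if s ≤ ‖x - v‖ ∧ ‖x - v‖ < t then rinc q η lam v x else 0

/-- the ratio -/
def rg (t : ℝ) (x : Sp d) : ℝ :=
  ZW q (fun y => rwt q η lam v t y * q (x - y)) / ZW q (rwt q η lam v t)

variable {q η lam v} {r : ℝ}

theorem rwt_measurable (hq : IsPot q r) (hη : Measurable η) (t : ℝ) :
    Measurable (rwt q η lam v t) := by
  have h1 : Measurable fun x : Sp d => q (v - x) := hq.meas.comp (measurable_const.sub measurable_id)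
  have h2 : MeasurableSet {x : Sp d | ‖x - v‖ < t} :=
    measurableSet_lt (by fun_prop) measurable_const
  exact measurable_const.mul (hη.mul (Measurable.ite h2 h1 measurable_const))

theorem rwt_nonneg (hq : IsPot q r) (h0 : ∀ x, 0 ≤ η x) (hlam : 0 ≤ lam) (t : ℝ) (x : Sp d) :
    0 ≤ rwt q η lam v t x := by
  unfold rwt
  refine mul_nonneg hlam (mul_nonneg (h0 x) ?_)
  split_ifs
  · exact hq.nonneg _
  · exact zero_le_one

theorem rwt_le (hq : IsPot q r) (h0 : ∀ x, 0 ≤ η x) (hlam : 0 ≤ lam) (t : ℝ) (x : Sp d) :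
    rwt q η lam v t x ≤ lam * η x := by
  unfold rwt
  refine mul_le_mul_of_nonneg_left ?_ hlam
  refine mul_le_of_le_one_right (h0 x) ?_
  split_ifs
  · exact hq.le_one _
  · exact le_rfl

theorem rwt_integrable (hq : IsPot q r) (hη : Measurable η) (h0 : ∀ x, 0 ≤ η x)
    (hi : Integrable η) (hlam : 0 ≤ lam) (t : ℝ) : Integrable (rwt q η lam v t) := by
  refine (hi.const_mul lam).mono' (rwt_measurable hq hη t).aestronglyMeasurable ?_
  refine Filter.Eventually.of_forall fun x => ?_
  rw [Real.norm_of_nonneg (rwt_nonneg hq h0 hlam t x)]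
  exact rwt_le hq h0 hlam t x

theorem rinc_measurable (hq : IsPot q r) (hη : Measurable η) : Measurable (rinc q η lam v) := by
  have h1 : Measurable fun x : Sp d => q (v - x) := hq.meas.comp (measurable_const.sub measurable_id)
  exact measurable_const.mul (hη.mul (measurable_const.sub h1))

theorem rinc_nonneg (hq : IsPot q r) (h0 : ∀ x, 0 ≤ η x) (hlam : 0 ≤ lam) (x : Sp d) :
    0 ≤ rinc q η lam v x :=
  mul_nonneg hlam (mul_nonneg (h0 x) (sub_nonneg.mpr (hq.le_one _)))

theorem rinc_le (hq : IsPot q r) (h0 : ∀ x, 0 ≤ η x) (hlam : 0 ≤ lam) (x : Sp d) :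
    rinc q η lam v x ≤ lam * η x := by
  refine mul_le_mul_of_nonneg_left ?_ hlam
  exact mul_le_of_le_one_right (h0 x) (by linarith [hq.nonneg (v - x)])

theorem rinc_integrable (hq : IsPot q r) (hη : Measurable η) (h0 : ∀ x, 0 ≤ η x)
    (hi : Integrable η) (hlam : 0 ≤ lam) : Integrable (rinc q η lam v) := by
  refine (hi.const_mul lam).mono' (rinc_measurable hq hη).aestronglyMeasurable ?_
  refine Filter.Eventually.of_forall fun x => ?_
  rw [Real.norm_of_nonneg (rinc_nonneg hq h0 hlam x)]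
  exact rinc_le hq h0 hlam x

theorem rinc2_measurable (hq : IsPot q r) (hη : Measurable η) (s t : ℝ) :
    Measurable (rinc2 q η lam v s t) := by
  have h1 : MeasurableSet {x : Sp d | s ≤ ‖x - v‖} :=
    measurableSet_le measurable_const (by fun_prop)
  have h2 : MeasurableSet {x : Sp d | ‖x - v‖ < t} :=
    measurableSet_lt (by fun_prop) measurable_const
  exact Measurable.ite (h1.inter h2) (rinc_measurable hq hη) measurable_const

theorem rinc2_nonneg (hq : IsPot q r) (h0 : ∀ x, 0 ≤ η x) (hlam : 0 ≤ lam) (s t : ℝ) (x : Sp d) :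
    0 ≤ rinc2 q η lam v s t x := by
  unfold rinc2
  split_ifs
  · exact rinc_nonneg hq h0 hlam x
  · exact le_rfl

theorem rinc2_le (hq : IsPot q r) (h0 : ∀ x, 0 ≤ η x) (hlam : 0 ≤ lam) (s t : ℝ) (x : Sp d) :
    rinc2 q η lam v s t x ≤ rinc q η lam v x := by
  unfold rinc2
  split_ifs
  · exact le_rfl
  · exact rinc_nonneg hq h0 hlam x

theorem rinc2_mono (hq : IsPot q r) (h0 : ∀ x, 0 ≤ η x) (hlam : 0 ≤ lam) {s u t : ℝ}
    (hut : u ≤ t) (x : Sp d) : rinc2 q η lam v s u x ≤ rinc2 q η lam v s t x := by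
  unfold rinc2
  by_cases h : s ≤ ‖x - v‖ ∧ ‖x - v‖ < u
  · rw [if_pos h, if_pos ⟨h.1, h.2.trans_le hut⟩]
  · rw [if_neg h]
    split_ifs
    · exact rinc_nonneg hq h0 hlam x
    · exact le_rfl

theorem rinc2_integrable (hq : IsPot q r) (hη : Measurable η) (h0 : ∀ x, 0 ≤ η x)
    (hi : Integrable η) (hlam : 0 ≤ lam) (s t : ℝ) : Integrable (rinc2 q η lam v s t) := by
  refine (rinc_integrable (v := v) hq hη h0 hi hlam).mono'
    (rinc2_measurable hq hη s t).aestronglyMeasurable ?_
  refine Filter.Eventually.of_forall fun x => ?_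
  rw [Real.norm_of_nonneg (rinc2_nonneg hq h0 hlam s t x)]
  exact rinc2_le hq h0 hlam s t x

theorem rwt_sub {s t : ℝ} (hst : s ≤ t) (x : Sp d) :
    rwt q η lam v s x - rinc2 q η lam v s t x = rwt q η lam v t x := by
  unfold rwt rinc2 rinc
  by_cases h1 : ‖x - v‖ < s
  · rw [if_pos h1, if_neg (by intro h; linarith [h.1]), if_pos (h1.trans_le hst)]; ring
  · rw [if_neg h1]
    push Not at h1
    by_cases h2 : ‖x - v‖ < t
    · rw [if_pos ⟨h1, h2⟩, if_pos h2]; ring
    · rw [if_neg (by intro h; exact h2 h.2), if_neg h2]; ring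

theorem rwt_sub' {s t : ℝ} (hst : s ≤ t) :
    (fun x => rwt q η lam v s x - rinc2 q η lam v s t x) = rwt q η lam v t :=
  funext fun x => rwt_sub hst x

/-- mass of the weight inside the ball of radius `t` -/
theorem ZW_rwt_pos (hq : IsPot q r) (hη : Measurable η) (h0 : ∀ x, 0 ≤ η x)
    (hi : Integrable η) (hlam : 0 ≤ lam) (t : ℝ) : 1 ≤ ZW q (rwt q η lam v t) :=
  ZW_one_le hq (rwt_measurable hq hη t) (rwt_nonneg hq h0 hlam t) (rwt_integrable hq hη h0 hi hlam t)

theorem mul_q_integrable (hq : IsPot q r) {w : Sp d → ℝ} (hw : Measurable w) (hi : Integrable w)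
    (x : Sp d) : Integrable (fun y => w y * q (x - y)) := by
  refine hi.mono (hw.mul (hq.meas.comp (measurable_const.sub measurable_id))).aestronglyMeasurable ?_
  refine Filter.Eventually.of_forall fun y => ?_
  rw [norm_mul]
  refine mul_le_of_le_one_right (norm_nonneg _) ?_
  rw [Real.norm_of_nonneg (hq.nonneg _)]
  exact hq.le_one _

theorem mul_q_measurable (hq : IsPot q r) {w : Sp d → ℝ} (hw : Measurable w)
    (x : Sp d) : Measurable (fun y => w y * q (x - y)) :=
  hw.mul (hq.meas.comp (measurable_const.sub measurable_id))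

theorem ZW_mul_q (hq : IsPot q r) {w : Sp d → ℝ} (hw : Measurable w) (h0 : ∀ x, 0 ≤ w x)
    (hi : Integrable w) (x : Sp d) :
    1 ≤ ZW q (fun y => w y * q (x - y)) ∧ ZW q (fun y => w y * q (x - y)) ≤ ZW q w := by
  refine ⟨ZW_one_le hq (mul_q_measurable hq hw x) (fun y => mul_nonneg (h0 y) (hq.nonneg _))
    (mul_q_integrable hq hw hi x), ?_⟩
  have h := (ZW_sub hq hw (e := fun y => w y * (1 - q (x - y)))
    (hw.mul (measurable_const.sub (hq.meas.comp (measurable_const.sub measurable_id))))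
    (fun y => mul_nonneg (h0 y) (sub_nonneg.mpr (hq.le_one _)))
    (fun y => mul_le_of_le_one_right (h0 y) (by linarith [hq.nonneg (x - y)])) hi).1
  have he : (fun y => w y - w y * (1 - q (x - y))) = fun y => w y * q (x - y) := by
    funext y; ring
  rwa [he] at h

theorem rg_nonneg (hq : IsPot q r) (hη : Measurable η) (h0 : ∀ x, 0 ≤ η x)
    (hi : Integrable η) (hlam : 0 ≤ lam) (t : ℝ) (x : Sp d) : 0 ≤ rg q η lam v t x := by
  have h1 := ZW_rwt_pos (v := v) hq hη h0 hi hlam t
  have h2 := (ZW_mul_q hq (rwt_measurable (v := v) (lam := lam) hq hη t)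
    (rwt_nonneg hq h0 hlam t) (rwt_integrable hq hη h0 hi hlam t) x).1
  unfold rg
  apply div_nonneg <;> linarith

theorem rg_le_one (hq : IsPot q r) (hη : Measurable η) (h0 : ∀ x, 0 ≤ η x)
    (hi : Integrable η) (hlam : 0 ≤ lam) (t : ℝ) (x : Sp d) : rg q η lam v t x ≤ 1 := by
  have h1 := ZW_rwt_pos (v := v) hq hη h0 hi hlam t
  have h2 := (ZW_mul_q hq (rwt_measurable (v := v) (lam := lam) hq hη t)
    (rwt_nonneg hq h0 hlam t) (rwt_integrable hq hη h0 hi hlam t) x).2
  unfold rg
  rw [div_le_one (by linarith)]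
  exact h2

theorem rwt_uncurry_measurable (hq : IsPot q r) (hη : Measurable η) :
    Measurable (Function.uncurry fun (ω x : Sp d) => rwt q η lam v ‖ω - v‖ x) := by
  unfold rwt Function.uncurry
  have h1 : Measurable fun p : Sp d × Sp d => q (v - p.2) :=
    hq.meas.comp (measurable_const.sub measurable_snd)
  have h2 : MeasurableSet {p : Sp d × Sp d | ‖p.2 - v‖ < ‖p.1 - v‖} :=
    measurableSet_lt (by fun_prop) (by fun_prop)
  exact measurable_const.mul ((hη.comp measurable_snd).mul (Measurable.ite h2 h1 measurable_const))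

theorem rG_measurable (hq : IsPot q r) (hη : Measurable η) (h0 : ∀ x, 0 ≤ η x)
    (hi : Integrable η) (hlam : 0 ≤ lam) : Measurable fun x : Sp d => rg q η lam v ‖x - v‖ x := by
  unfold rg
  refine Measurable.div ?_ ?_
  · refine ZW_measurable hq (w := fun (ω : Sp d) y => rwt q η lam v ‖ω - v‖ y * q (ω - y)) ?_ ?_ ?_
    · exact (rwt_uncurry_measurable hq hη).mul
        (hq.meas.comp (measurable_fst.sub measurable_snd))
    · exact fun ω x => mul_nonneg (rwt_nonneg hq h0 hlam _ x) (hq.nonneg _)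
    · exact fun ω => mul_q_integrable hq (rwt_measurable hq hη _)
        (rwt_integrable hq hη h0 hi hlam _) ω
  · exact ZW_measurable hq (rwt_uncurry_measurable hq hη)
      (fun ω x => rwt_nonneg hq h0 hlam _ x) (fun ω => rwt_integrable hq hη h0 hi hlam _)

theorem rg_measurable (hq : IsPot q r) (hη : Measurable η) (h0 : ∀ x, 0 ≤ η x)
    (hi : Integrable η) (hlam : 0 ≤ lam) (t : ℝ) : Measurable fun x : Sp d => rg q η lam v t x := by
  unfold rg
  refine Measurable.div ?_ measurable_const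
  refine ZW_measurable hq (w := fun (ω : Sp d) y => rwt q η lam v t y * q (ω - y)) ?_ ?_ ?_
  · exact ((rwt_measurable hq hη t).comp measurable_snd).mul
      (hq.meas.comp (measurable_fst.sub measurable_snd))
  · exact fun ω x => mul_nonneg (rwt_nonneg hq h0 hlam _ x) (hq.nonneg _)
  · exact fun ω => mul_q_integrable hq (rwt_measurable hq hη _)
      (rwt_integrable hq hη h0 hi hlam _) ω

theorem rg_sub (hq : IsPot q r) (hη : Measurable η) (h0 : ∀ x, 0 ≤ η x)
    (hi : Integrable η) (hlam : 0 ≤ lam) {s u t : ℝ} (hsu : s ≤ u) (hut : u ≤ t)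
    (hE : ∫ x, rinc2 q η lam v s t x ≤ 1 / 2) (x : Sp d) :
    |rg q η lam v s x - rg q η lam v u x| ≤ 2 * ∫ x, rinc2 q η lam v s t x := by
  set E := ∫ x, rinc2 q η lam v s t x with hEdef
  have hE0 : 0 ≤ E := integral_nonneg fun x => rinc2_nonneg hq h0 hlam s t x
  have hEu : ∫ x, rinc2 q η lam v s u x ≤ E :=
    integral_mono (rinc2_integrable hq hη h0 hi hlam s u) (rinc2_integrable hq hη h0 hi hlam s t)
      (fun x => rinc2_mono hq h0 hlam hut x)
  have hle : ∀ x, rinc2 q η lam v s u x ≤ rwt q η lam v s x := by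
    intro x
    have := rwt_nonneg (v := v) hq h0 hlam u x
    rw [← rwt_sub hsu x] at this
    linarith
  have hm := rwt_measurable (v := v) (lam := lam) hq hη s
  have hm2 := rinc2_measurable (v := v) (lam := lam) hq hη s u
  have hn := rwt_nonneg (v := v) hq h0 hlam s
  have hii := rwt_integrable (v := v) hq hη h0 hi hlam s
  have hA := ZW_sub hq hm hm2 (rinc2_nonneg hq h0 hlam s u) hle hii
  rw [rwt_sub' hsu] at hA
  have hB := ZW_sub hq (mul_q_measurable hq hm x) (mul_q_measurable hq hm2 x)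
    (fun y => mul_nonneg (rinc2_nonneg hq h0 hlam s u y) (hq.nonneg _))
    (fun y => mul_le_mul_of_nonneg_right (hle y) (hq.nonneg _)) (mul_q_integrable hq hm hii x)
  have he : (fun y => rwt q η lam v s y * q (x - y) - rinc2 q η lam v s u y * q (x - y)) =
      fun y => rwt q η lam v u y * q (x - y) := by
    funext y; rw [← sub_mul, rwt_sub hsu]
  rw [he] at hB
  have hEq : ∫ y, rinc2 q η lam v s u y * q (x - y) ≤ E := by
    refine (integral_mono (mul_q_integrable hq hm2 (rinc2_integrable hq hη h0 hi hlam s u) x)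
      (rinc2_integrable hq hη h0 hi hlam s u) fun y => ?_).trans hEu
    exact mul_le_of_le_one_right (rinc2_nonneg hq h0 hlam s u y) (hq.le_one _)
  have hDs := ZW_rwt_pos (v := v) hq hη h0 hi hlam s
  have hDu := ZW_rwt_pos (v := v) hq hη h0 hi hlam u
  have hNs := ZW_mul_q hq hm hn hii x
  refine radial_ratio_aux (by linarith [hNs.1]) (by linarith) (by linarith) hE0 hE hNs.2
    hB.1 (hB.2.trans ?_) hA.1 (hA.2.trans ?_)
  · exact mul_le_mul_of_nonneg_right hEq (by linarith [hNs.1])
  · exact mul_le_mul_of_nonneg_right hEu (by linarith)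

theorem radial_step (hq : IsPot q r) (hη : Measurable η) (h0 : ∀ x, 0 ≤ η x)
    (hi : Integrable η) (hlam : 0 ≤ lam) {s t : ℝ} (hst : s ≤ t)
    (hE : ∫ x, rinc2 q η lam v s t x ≤ 1 / 2) :
    |Real.log (ZW q (rwt q η lam v t)) - Real.log (ZW q (rwt q η lam v s)) +
      ∫ x, rinc2 q η lam v s t x * rg q η lam v ‖x - v‖ x| ≤
        5 * (∫ x, rinc2 q η lam v s t x) ^ 2 := by
  set E := ∫ x, rinc2 q η lam v s t x with hEdef
  have hE0 : 0 ≤ E := integral_nonneg fun x => rinc2_nonneg hq h0 hlam s t x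
  have hle : ∀ x, rinc2 q η lam v s t x ≤ rwt q η lam v s x := by
    intro x
    have := rwt_nonneg (v := v) hq h0 hlam t x
    rw [← rwt_sub hst x] at this
    linarith
  have hm := rwt_measurable (v := v) (lam := lam) hq hη s
  have hm2 := rinc2_measurable (v := v) (lam := lam) hq hη s t
  have hii := rwt_integrable (v := v) hq hη h0 hi hlam s
  have hi2 := rinc2_integrable (v := v) hq hη h0 hi hlam s t
  have hA := ZW_sub hq hm hm2 (rinc2_nonneg hq h0 hlam s t) hle hii
  have hB := ZW_sub2 hq hm hm2 (rinc2_nonneg hq h0 hlam s t) hle hii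
  rw [rwt_sub' hst] at hA hB
  have hZs := ZW_rwt_pos (v := v) hq hη h0 hi hlam s
  have hZt := ZW_rwt_pos (v := v) hq hη h0 hi hlam t
  have hint1 : Integrable fun x => rinc2 q η lam v s t x * rg q η lam v s x := by
    refine hi2.mono (hm2.mul (rg_measurable hq hη h0 hi hlam s)).aestronglyMeasurable ?_
    refine Filter.Eventually.of_forall fun y => ?_
    rw [norm_mul]
    refine mul_le_of_le_one_right (norm_nonneg _) ?_
    rw [Real.norm_of_nonneg (rg_nonneg hq hη h0 hi hlam s y)]
    exact rg_le_one hq hη h0 hi hlam s y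
  have hint2 : Integrable fun x => rinc2 q η lam v s t x * rg q η lam v ‖x - v‖ x := by
    refine hi2.mono (hm2.mul (rG_measurable hq hη h0 hi hlam)).aestronglyMeasurable ?_
    refine Filter.Eventually.of_forall fun y => ?_
    rw [norm_mul]
    refine mul_le_of_le_one_right (norm_nonneg _) ?_
    rw [Real.norm_of_nonneg (rg_nonneg hq hη h0 hi hlam _ y)]
    exact rg_le_one hq hη h0 hi hlam _ y
  have hI : (∫ x, rinc2 q η lam v s t x * rg q η lam v s x) * ZW q (rwt q η lam v s) =
      ∫ x, rinc2 q η lam v s t x * ZW q (fun y => rwt q η lam v s y * q (x - y)) := by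
    rw [← integral_mul_const]
    congr 1
    funext x
    unfold rg
    field_simp
  rw [← hI] at hB
  have hC := radial_log_aux hZs hZt hE hA.1 hA.2 hB
  have hD : |(∫ x, rinc2 q η lam v s t x * rg q η lam v s x) -
      ∫ x, rinc2 q η lam v s t x * rg q η lam v ‖x - v‖ x| ≤ 2 * E ^ 2 := by
    rw [← integral_sub hint1 hint2]
    have : ∫ x, rinc2 q η lam v s t x * (2 * E) = 2 * E ^ 2 := by
      rw [integral_mul_const]; ring
    rw [← this, ← Real.norm_eq_abs]
    refine norm_integral_le_of_norm_le (hi2.mul_const _) (Filter.Eventually.of_forall fun x => ?_)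
    rw [← mul_sub, norm_mul, Real.norm_of_nonneg (rinc2_nonneg hq h0 hlam s t x), Real.norm_eq_abs]
    by_cases hx : s ≤ ‖x - v‖ ∧ ‖x - v‖ < t
    · exact mul_le_mul_of_nonneg_left (rg_sub hq hη h0 hi hlam hx.1 hx.2.le hE x)
        (rinc2_nonneg hq h0 hlam s t x)
    · have : rinc2 q η lam v s t x = 0 := by unfold rinc2; rw [if_neg hx]
      rw [this]; simp
  rw [abs_le] at hC hD ⊢
  constructor <;> linarith [hC.1, hC.2, hD.1, hD.2]

/-- mass of the increment inside the ball of radius `t` -/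
def rPhi (q η : Sp d → ℝ) (lam : ℝ) (v : Sp d) (t : ℝ) : ℝ :=
  ∫ x, if ‖x - v‖ < t then rinc q η lam v x else 0

theorem ite_lt_integrable {f : Sp d → ℝ} (hf : Integrable f) (t : ℝ) :
    Integrable fun x => if ‖x - v‖ < t then f x else 0 := by
  have h2 : MeasurableSet {x : Sp d | ‖x - v‖ < t} :=
    measurableSet_lt (by fun_prop) measurable_const
  have := hf.indicator h2
  refine this.congr (Filter.Eventually.of_forall fun x => ?_)
  simp [Set.indicator]

theorem ite_lt_sub {f : Sp d → ℝ} (hf : Integrable f) {s t : ℝ} (hst : s ≤ t) :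
    (∫ x, if ‖x - v‖ < t then f x else 0) - (∫ x, if ‖x - v‖ < s then f x else 0) =
      ∫ x, if s ≤ ‖x - v‖ ∧ ‖x - v‖ < t then f x else 0 := by
  rw [← integral_sub (ite_lt_integrable hf t) (ite_lt_integrable hf s)]
  congr 1
  funext x
  by_cases h1 : ‖x - v‖ < s
  · rw [if_pos (h1.trans_le hst), if_pos h1, if_neg (by intro h; linarith [h.1])]; ring
  · rw [if_neg h1]
    push Not at h1
    by_cases h2 : ‖x - v‖ < t
    · rw [if_pos h2, if_pos ⟨h1, h2⟩]; ring
    · rw [if_neg h2, if_neg (by intro h; exact h2 h.2)]; ring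

theorem rPhi_sub (hq : IsPot q r) (hη : Measurable η) (h0 : ∀ x, 0 ≤ η x)
    (hi : Integrable η) (hlam : 0 ≤ lam) {s t : ℝ} (hst : s ≤ t) :
    rPhi q η lam v t - rPhi q η lam v s = ∫ x, rinc2 q η lam v s t x :=
  ite_lt_sub (rinc_integrable hq hη h0 hi hlam) hst

theorem rPhi_continuous (hd : 1 ≤ d) (hq : IsPot q r) (hη : Measurable η) (h0 : ∀ x, 0 ≤ η x)
    (hi : Integrable η) (hlam : 0 ≤ lam) : Continuous (rPhi q η lam v) := by
  have : Nonempty (Fin d) := ⟨⟨0, hd⟩⟩
  have : Nontrivial (Sp d) := inferInstance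
  have hint := rinc_integrable (v := v) hq hη h0 hi hlam
  rw [continuous_iff_continuousAt]
  intro t0
  refine continuousAt_of_dominated (bound := rinc q η lam v) ?_ ?_ hint ?_
  · exact Filter.Eventually.of_forall fun t => (ite_lt_integrable hint t).aestronglyMeasurable
  · refine Filter.Eventually.of_forall fun t => Filter.Eventually.of_forall fun x => ?_
    have := rinc_nonneg (v := v) hq h0 hlam x
    split_ifs
    · rw [Real.norm_of_nonneg this]
    · simpa using this
  · have hs : volume (Metric.sphere v t0) = 0 := Measure.addHaar_sphere _ _ _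
    have hae : ∀ᵐ x : Sp d, x ∉ Metric.sphere v t0 := measure_eq_zero_iff_ae_notMem.mp hs
    filter_upwards [hae] with x hx
    rw [mem_sphere_iff_norm] at hx
    rcases lt_or_gt_of_ne hx with h | h
    · have : (fun t => if ‖x - v‖ < t then rinc q η lam v x else 0) =ᶠ[nhds t0]
          fun _ => rinc q η lam v x := by
        filter_upwards [lt_mem_nhds h] with t ht
        rw [if_pos ht]
      exact this.continuousAt
    · have : (fun t => if ‖x - v‖ < t then rinc q η lam v x else 0) =ᶠ[nhds t0]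
          fun _ => (0 : ℝ) := by
        filter_upwards [gt_mem_nhds h] with t ht
        rw [if_neg (by linarith)]
      exact this.continuousAt

end main

theorem radial {d : ℕ} (hd : 1 ≤ d) {q : Sp d → ℝ} {r : ℝ} (hq : IsPot q r) {η : Sp d → ℝ}
    (hη : Measurable η) (h0 : ∀ x, 0 ≤ η x) (h1 : ∀ x, η x ≤ 1) (hi : Integrable η)
    {lam : ℝ} (hlam : 0 ≤ lam) (v : Sp d) :
    Real.log (ZW q (fun x => lam * η x * q (v - x)) / ZW q (fun x => lam * η x)) =
      -lam * ∫ w, η w * (1 - q (v - w)) *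
        (ZW q (fun x => lam * (η x * cutw q v w x) * q (w - x)) /
          ZW q (fun x => lam * (η x * cutw q v w x))) := by
  have hint := rinc_integrable (v := v) hq hη h0 hi hlam
  have hintG : Integrable fun x => rinc q η lam v x * rg q η lam v ‖x - v‖ x := by
    refine hint.mono ((rinc_measurable hq hη).mul
      (rG_measurable hq hη h0 hi hlam)).aestronglyMeasurable ?_
    refine Filter.Eventually.of_forall fun y => ?_
    rw [norm_mul]
    refine mul_le_of_le_one_right (norm_nonneg _) ?_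
    rw [Real.norm_of_nonneg (rg_nonneg hq hη h0 hi hlam _ y)]
    exact rg_le_one hq hη h0 hi hlam _ y
  set T : ℝ := max r 0 + 1 with hT
  have hT0 : 0 ≤ T := by positivity
  have hTr : r < T := by
    have := le_max_left r 0
    linarith
  set H : ℝ → ℝ := fun t => Real.log (ZW q (rwt q η lam v t)) +
    ∫ x, if ‖x - v‖ < t then rinc q η lam v x * rg q η lam v ‖x - v‖ x else 0 with hH
  have hconst : H T = H 0 := by
    refine radial_const_of_sq (Φ := rPhi q η lam v) (C := 5) hT0 (by norm_num)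
      (rPhi_continuous hd hq hη h0 hi hlam) ?_
    intro s t hst
    rw [rPhi_sub hq hη h0 hi hlam hst]
    refine ⟨integral_nonneg fun x => rinc2_nonneg hq h0 hlam s t x, fun hE => ?_⟩
    have := radial_step hq hη h0 hi hlam hst hE
    refine le_trans (le_of_eq ?_) this
    congr 1
    simp only [hH]
    have h2 := ite_lt_sub (v := v) hintG hst
    have h3 : (∫ x, if s ≤ ‖x - v‖ ∧ ‖x - v‖ < t then
        rinc q η lam v x * rg q η lam v ‖x - v‖ x else 0) =
        ∫ x, rinc2 q η lam v s t x * rg q η lam v ‖x - v‖ x := by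
      congr 1
      funext x
      unfold rinc2
      split_ifs <;> simp
    rw [← h3, ← h2]
    ring
  have e0 : rwt q η lam v 0 = fun x => lam * η x := by
    funext x
    unfold rwt
    rw [if_neg (by have := norm_nonneg (x - v); linarith), mul_one]
  have eT : rwt q η lam v T = fun x => lam * η x * q (v - x) := by
    funext x
    unfold rwt
    by_cases h : ‖x - v‖ < T
    · rw [if_pos h]; ring
    · rw [if_neg h]
      have h2 : r < ‖v - x‖ := by
        rw [norm_sub_rev]
        push Not at h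
        linarith
      rw [hq.far _ h2]
      ring
  have i0 : (∫ x, if ‖x - v‖ < 0 then rinc q η lam v x * rg q η lam v ‖x - v‖ x else 0) = 0 := by
    have : ∀ x : Sp d, (if ‖x - v‖ < 0 then rinc q η lam v x * rg q η lam v ‖x - v‖ x else 0) = 0 := by
      intro x
      rw [if_neg (by have := norm_nonneg (x - v); linarith)]
    simp [this]
  have iT : (∫ x, if ‖x - v‖ < T then rinc q η lam v x * rg q η lam v ‖x - v‖ x else 0) =
      ∫ x, rinc q η lam v x * rg q η lam v ‖x - v‖ x := by
    congr 1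
    funext x
    by_cases h : ‖x - v‖ < T
    · rw [if_pos h]
    · rw [if_neg h]
      have h2 : r < ‖v - x‖ := by
        rw [norm_sub_rev]
        push Not at h
        linarith
      unfold rinc
      rw [hq.far _ h2]
      simp
  simp only [hH] at hconst
  rw [e0, eT, i0, iT] at hconst
  have p0 : 1 ≤ ZW q (fun x => lam * η x) := by
    rw [← e0]; exact ZW_rwt_pos hq hη h0 hi hlam 0
  have pT : 1 ≤ ZW q (fun x => lam * η x * q (v - x)) := by
    rw [← eT]; exact ZW_rwt_pos hq hη h0 hi hlam T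
  rw [Real.log_div (by linarith) (by linarith)]
  have hfin : (∫ x, rinc q η lam v x * rg q η lam v ‖x - v‖ x) =
      lam * ∫ w, η w * (1 - q (v - w)) *
        (ZW q (fun x => lam * (η x * cutw q v w x) * q (w - x)) /
          ZW q (fun x => lam * (η x * cutw q v w x))) := by
    rw [← integral_const_mul]
    congr 1
    funext w
    unfold rinc rg
    have e1 : (fun y => rwt q η lam v ‖w - v‖ y * q (w - y)) =
        fun x => lam * (η x * cutw q v w x) * q (w - x) := rfl
    have e2 : rwt q η lam v ‖w - v‖ = fun x => lam * (η x * cutw q v w x) := rfl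
    rw [e1, e2]
    ring
  rw [hfin] at hconst
  linarith

end Pool.Agent.Lib.P8e91ed
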