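import Pool.Agent.Lib.P8e91ed.Expansion
import Pool.Agent.Lib.P8e91ed.Radial
import Pool.Agent.Lib.P8e91ed.Lyapunov
import Pool.Agent.Lib.P8e91ed.Picard
import Pool.Agent.Lib.P8e91ed.HolInt
import Pool.Agent.Lib.P8e91ed.Hist

/-!
Zero-free region of the partition functions, uniformly in the volume.
-/

set_option autoImplicit false

open MeasureTheory Metric Filter Topology

noncomputable section

namespace Pool.Agent.Lib.P8e91ed

variable {d : ℕ} {q : Sp d → ℝ} {r : ℝ}

theorem ZW_mul_le (hq : IsPot q r) {w : Sp d → ℝ} (hw : Measurable w) (h0 : ∀ x, 0 ≤ w x)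
    (hi : Integrable w) (v : Sp d) : ZW q (fun x => w x * q (v - x)) ≤ ZW q w := by
  have hqm : Measurable fun x : Sp d => q (v - x) := hq.meas.comp (by fun_prop)
  have h := (ZW_sub hq (w := w) (e := fun x => w x * (1 - q (v - x))) hw
    (hw.mul (measurable_const.sub hqm))
    (fun x => mul_nonneg (h0 x) (sub_nonneg.2 (hq.le_one _)))
    (fun x => mul_le_of_le_one_right (h0 x) (by linarith [hq.nonneg (v - x)])) hi).1
  have e : (fun x => w x - w x * (1 - q (v - x))) = fun x => w x * q (v - x) := by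
    funext x; ring
  rwa [e] at h

theorem integrable_mul_q (hq : IsPot q r) {w : Sp d → ℝ} (hw : Measurable w)
    (h0 : ∀ x, 0 ≤ w x) (hi : Integrable w) (v : Sp d) :
    Integrable (fun x => w x * q (v - x)) := by
  have hqm : Measurable fun x : Sp d => q (v - x) := hq.meas.comp (by fun_prop)
  refine hi.mono' (hw.mul hqm).aestronglyMeasurable (Eventually.of_forall fun x => ?_)
  rw [Real.norm_of_nonneg (mul_nonneg (h0 x) (hq.nonneg _))]
  exact mul_le_of_le_one_right (h0 x) (hq.le_one _)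

/-- the ratio `Z(w q_v) / Z(w)` after a history -/
def ratio (q : Sp d → ℝ) (η : Sp d → ℝ) (s : ℝ) {j : ℕ} (h : Fin (j + 1) → Sp d) : ℝ :=
  ZW q (fun x => s * (η x * histw q h x) * q (h (Fin.last j) - x)) /
    ZW q (fun x => s * (η x * histw q h x))

section
variable {η : Sp d → ℝ}

theorem wmeas (hq : IsPot q r) (hη : Measurable η) {j : ℕ} (h : Fin (j + 1) → Sp d) :
    Measurable (fun x => η x * histw q h x) := by
  refine Measurable.mul hη ?_
  unfold histw
  refine Finset.measurable_prod _ fun i _ => ?_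
  unfold cutw
  exact Measurable.ite (measurableSet_lt (by fun_prop) (by fun_prop)) (hq.meas.comp (by fun_prop))
    measurable_const

theorem wint (hq : IsPot q r) (hη : Measurable η) (h0 : ∀ x, 0 ≤ η x) (hi : Integrable η)
    {j : ℕ} (h : Fin (j + 1) → Sp d) : Integrable (fun x => η x * histw q h x) := by
  refine hi.mono' (wmeas hq hη h).aestronglyMeasurable (Eventually.of_forall fun x => ?_)
  rw [Real.norm_of_nonneg (mul_nonneg (h0 x) (histw_nonneg hq h x))]
  exact mul_le_of_le_one_right (h0 x) (histw_le_one hq h x)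

theorem ratio_pos (hq : IsPot q r) (hη : Measurable η) (h0 : ∀ x, 0 ≤ η x) (hi : Integrable η)
    {s : ℝ} (hs : 0 ≤ s) {j : ℕ} (h : Fin (j + 1) → Sp d) : 0 < ratio q η s h := by
  have hm : Measurable (fun x => s * (η x * histw q h x)) := (wmeas hq hη h).const_mul s
  have hi1 : Integrable (fun x => s * (η x * histw q h x)) := (wint hq hη h0 hi h).const_mul s
  have hn : ∀ x, 0 ≤ s * (η x * histw q h x) := fun x =>
    mul_nonneg hs (mul_nonneg (h0 x) (histw_nonneg hq h x))
  have hqm : Measurable fun x : Sp d => q (h (Fin.last j) - x) := hq.meas.comp (by fun_prop)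
  have a := ZW_one_le hq hm hn hi1
  have b : 1 ≤ ZW q (fun x => s * (η x * histw q h x) * q (h (Fin.last j) - x)) :=
    ZW_one_le hq (hm.mul hqm) (fun x => mul_nonneg (hn x) (hq.nonneg _))
    (integrable_mul_q hq hm hn hi1 _)
  exact div_pos (by linarith) (by linarith)

theorem ratio_le_one (hq : IsPot q r) (hη : Measurable η) (h0 : ∀ x, 0 ≤ η x)
    (hi : Integrable η) {s : ℝ} (hs : 0 ≤ s) {j : ℕ} (h : Fin (j + 1) → Sp d) :
    ratio q η s h ≤ 1 := by
  have hm : Measurable (fun x => s * (η x * histw q h x)) := (wmeas hq hη h).const_mul s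
  have hi1 : Integrable (fun x => s * (η x * histw q h x)) := (wint hq hη h0 hi h).const_mul s
  have hn : ∀ x, 0 ≤ s * (η x * histw q h x) := fun x =>
    mul_nonneg hs (mul_nonneg (h0 x) (histw_nonneg hq h x))
  have a := ZW_one_le hq hm hn hi1
  exact div_le_one_of_le₀ (ZW_mul_le hq hm hn hi1 _) (by linarith)

theorem ratio_measurable (hq : IsPot q r) (hη : Measurable η) (h0 : ∀ x, 0 ≤ η x)
    (hi : Integrable η) {s : ℝ} (hs : 0 ≤ s) (j : ℕ) :
    Measurable (fun h : Fin (j + 1) → Sp d => ratio q η s h) := by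
  have hm1 : Measurable (Function.uncurry fun (h : Fin (j + 1) → Sp d) (x : Sp d) =>
      s * (η x * histw q h x)) :=
    ((hη.comp measurable_snd).mul (measurable_histw hq j)).const_mul s
  have hqm : Measurable (fun p : (Fin (j + 1) → Sp d) × Sp d => q (p.1 (Fin.last j) - p.2)) :=
    hq.meas.comp (by fun_prop)
  have hn : ∀ (h : Fin (j + 1) → Sp d) x, 0 ≤ s * (η x * histw q h x) := fun h x =>
    mul_nonneg hs (mul_nonneg (h0 x) (histw_nonneg hq h x))
  refine Measurable.div ?_ ?_
  · refine ZW_measurable hq (w := fun (h : Fin (j + 1) → Sp d) x =>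
      s * (η x * histw q h x) * q (h (Fin.last j) - x)) (hm1.mul hqm)
      (fun h x => mul_nonneg (hn h x) (hq.nonneg _)) (fun h => ?_)
    exact integrable_mul_q hq ((wmeas hq hη h).const_mul s) (hn h)
      ((wint hq hη h0 hi h).const_mul s) _
  · exact ZW_measurable hq (w := fun (h : Fin (j + 1) → Sp d) x => s * (η x * histw q h x)) hm1
      hn (fun h => (wint hq hη h0 hi h).const_mul s)

/-- the Michelen-Perkins recursion along a history -/
theorem ratio_rec (hd : 1 ≤ d) (hq : IsPot q r) (hη : Measurable η) (h0 : ∀ x, 0 ≤ η x)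
    (h1 : ∀ x, η x ≤ 1) (hi : Integrable η) {s : ℝ} (hs : 0 ≤ s) {j : ℕ}
    (h : Fin (j + 1) → Sp d) :
    Real.log (ratio q η s h) = -s * ∫ x, dens q η h x *
      ratio q η s (Fin.snoc (α := fun _ => Sp d) h x : Fin (j + 2) → Sp d) := by
  have key := radial hd hq (η := fun x => η x * histw q h x) (wmeas hq hη h)
    (fun x => mul_nonneg (h0 x) (histw_nonneg hq h x))
    (fun x => mul_le_one₀ (h1 x) (histw_nonneg hq h x) (histw_le_one hq h x))
    (wint hq hη h0 hi h) hs (h (Fin.last j))
  unfold ratio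
  rw [key]
  congr 1
  refine integral_congr_ae (Eventually.of_forall fun w => ?_)
  have e : (Fin.snoc (α := fun _ => Sp d) h w : Fin (j + 2) → Sp d) (Fin.last (j + 1)) = w :=
    Fin.snoc_last (α := fun _ => Sp d) w h
  simp only [histw_snoc, e, dens, mul_assoc]

end

theorem zero_free (hd : 1 ≤ d) (hq : IsPot q r) {lam0 : ℝ}
    (h0 : 0 ≤ lam0) {k : ℕ} (hk : (lam0 / Real.exp 1) ^ k * walkIntegral q k < 1) :
    ∃ δ C : ℝ, 0 < δ ∧ 0 ≤ C ∧ ∀ Y : Set (Sp d), MeasurableSet Y → Bornology.IsBounded Y →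
      ∀ z ∈ nearSeg lam0 δ, Zc q Y z ≠ 0 ∧
        ‖deriv (Zc q Y) z‖ ≤ C * (volume Y).toReal * ‖Zc q Y z‖ := by
  -- a slightly larger activity
  obtain ⟨lam1, h01, hk1⟩ : ∃ lam1, lam0 < lam1 ∧
      (lam1 / Real.exp 1) ^ k * walkIntegral q k < 1 := by
    have hc : Continuous fun l : ℝ => (l / Real.exp 1) ^ k * walkIntegral q k := by fun_prop
    have hev : ∀ᶠ l in 𝓝 lam0, (l / Real.exp 1) ^ k * walkIntegral q k < 1 :=
      hc.continuousAt.eventually (Iio_mem_nhds hk)
    obtain ⟨ε, hε, h⟩ := Metric.eventually_nhds_iff.1 hev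
    refine ⟨lam0 + ε / 2, by linarith, h ?_⟩
    rw [Real.dist_eq, show lam0 + ε / 2 - lam0 = ε / 2 by ring, abs_of_pos (by positivity)]
    linarith
  have hl1 : 0 < lam1 := h0.trans_lt h01
  obtain ⟨CW, a, hCW, ha, ha1, hW⟩ := lyapunov hd hq hl1.le hk1
  obtain ⟨δ, hδ, hP⟩ := picard (lam0 := lam1)
    (C := (volume (closedBall (0 : Sp d) r)).toReal) hl1.le ENNReal.toReal_nonneg hCW ha ha1
  refine ⟨δ, 4, hδ, by norm_num, fun Y hY hb => ?_⟩
  -- the weight function
  set η : Sp d → ℝ := Y.indicator 1 with hηdef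
  have hηm : Measurable η := measurable_one.indicator hY
  have hη0 : ∀ x, 0 ≤ η x := fun x => Set.indicator_nonneg (fun _ _ => zero_le_one) x
  have hη1 : ∀ x, η x ≤ 1 := fun x => by
    by_cases hx : x ∈ Y <;> simp [hηdef, hx]
  have hYfin : volume Y ≠ ⊤ := hb.measure_lt_top.ne
  have hηi : Integrable η := by
    rw [hηdef, integrable_indicator_iff hY]
    exact integrableOn_const (hs := hYfin) (C := (1 : ℝ))
  obtain ⟨W, hWm, hWb, hWl⟩ := hW η hηm hη0 hη1
  obtain ⟨H, hH1, hH2, hH3, hH4⟩ := hP (Sp d) volume (fun j => Fin (j + 1) → Sp d)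
    (fun j h x => Fin.snoc (α := fun _ => Sp d) h x)
    (fun j => by
      refine measurable_pi_iff.2 fun i => ?_
      refine Fin.lastCases ?_ (fun i => ?_) i
      · have : (fun p : (Fin (j + 1) → Sp d) × Sp d => (Function.uncurry
            (fun (h : Fin (j + 1) → Sp d) (x : Sp d) =>
              (Fin.snoc (α := fun _ => Sp d) h x : Fin (j + 2) → Sp d)) p) (Fin.last (j + 1))) =
            fun p => p.2 := by
          funext p
          exact Fin.snoc_last (α := fun _ => Sp d) p.2 p.1
        rw [this]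
        exact measurable_snd
      · have : (fun p : (Fin (j + 1) → Sp d) × Sp d => (Function.uncurry
            (fun (h : Fin (j + 1) → Sp d) (x : Sp d) =>
              (Fin.snoc (α := fun _ => Sp d) h x : Fin (j + 2) → Sp d)) p) i.castSucc) =
            fun p => p.1 i := by
          funext p
          exact Fin.snoc_castSucc (α := fun _ => Sp d) p.2 p.1 i
        rw [this]
        exact (measurable_pi_apply i).comp measurable_fst)
    (fun j h x => dens q η h x) (fun j => measurable_dens hq hηm j)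
    (fun j h x => dens_nonneg hq hη0 h x) (fun j h => integrable_dens hq hηm hη0 hη1 h)
    (fun j h => integral_dens_le hq hηm hη0 hη1 h) W hWm hWb hWl
  have hZd : Differentiable ℂ (Zc q Y) := differentiable_Zc hq hY hb
  -- the fixed point on the real segment
  have hreal : ∀ s ∈ Set.Icc (0 : ℝ) lam1, ∀ x : Sp d,
      H s 0 (fun _ => x) = (Real.sqrt (ratio q η s (fun _ : Fin (0 + 1) => x)) : ℝ) := by
    intro s hs x
    refine hH4 s hs (fun j h => Real.sqrt (ratio q η s h))
      (fun j => (ratio_measurable hq hηm hη0 hηi hs.1 j).sqrt)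
      (fun j h => ⟨Real.sqrt_nonneg _, Real.sqrt_le_one.2
        (ratio_le_one hq hηm hη0 hηi hs.1 h)⟩) (fun j h => ?_) 0 _
    have e1 : ∀ x, Real.sqrt (ratio q η s
        (Fin.snoc (α := fun _ => Sp d) h x : Fin (j + 2) → Sp d)) ^ 2 =
        ratio q η s (Fin.snoc (α := fun _ => Sp d) h x : Fin (j + 2) → Sp d) := fun x =>
      Real.sq_sqrt (ratio_pos hq hηm hη0 hηi hs.1 _).le
    simp only [e1]
    have e2 := ratio_rec hd hq hηm hη0 hη1 hηi hs.1 h
    have e3 : -(s / 2) * ∫ x, dens q η h x *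
        ratio q η s (Fin.snoc (α := fun _ => Sp d) h x : Fin (j + 2) → Sp d) =
        Real.log (ratio q η s h) / 2 := by rw [e2]; ring
    rw [e3, ← Real.log_sqrt (ratio_pos hq hηm hη0 hηi hs.1 _).le,
      Real.exp_log (Real.sqrt_pos.2 (ratio_pos hq hηm hη0 hηi hs.1 _))]
  -- the logarithmic derivative
  set Rf : ℂ → ℂ := fun z => ∫ x, (η x : ℂ) * H z 0 (fun _ => x) ^ 2 with hRf
  have hRbound : ∀ z ∈ nearSeg lam1 δ, ∀ x : Sp d,
      ‖(η x : ℂ) * H z 0 (fun _ => x) ^ 2‖ ≤ 4 * η x := by
    intro z hz x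
    rw [norm_mul, norm_pow, Complex.norm_real, Real.norm_of_nonneg (hη0 x)]
    have h3 := hH3 z hz 0 (fun _ => x)
    have h4 := norm_nonneg (H z 0 (fun _ => x))
    have : ‖H z 0 (fun _ => x)‖ ^ 2 ≤ 4 := by nlinarith
    nlinarith [hη0 x]
  have hmeas0 : ∀ z ∈ nearSeg lam1 δ,
      AEStronglyMeasurable (fun x : Sp d => (η x : ℂ) * H z 0 (fun _ => x) ^ 2) volume := by
    intro z hz
    have h5 : Measurable (fun x : Sp d => (fun _ => x : Fin (0 + 1) → Sp d)) :=
      measurable_pi_iff.2 fun _ => measurable_id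
    exact ((Complex.measurable_ofReal.comp hηm).mul
      (((hH2 z hz 0).comp h5).pow_const 2)).aestronglyMeasurable
  have hRd : DifferentiableOn ℂ Rf (nearSeg lam1 δ) := by
    refine differentiableOn_integral (isOpen_nearSeg lam1 δ) (fun x => ?_) hmeas0 hRbound
      (hηi.const_mul 4)
    exact ((hH1 0 (fun _ => x)).pow 2).const_mul _
  have hRn : ∀ z ∈ nearSeg lam1 δ, ‖Rf z‖ ≤ 4 * (volume Y).toReal := by
    intro z hz
    calc ‖Rf z‖ ≤ ∫ x, 4 * η x := norm_integral_le_of_norm_le (hηi.const_mul 4)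
          (Eventually.of_forall fun x => hRbound z hz x)
      _ = 4 * (volume Y).toReal := by
          rw [integral_const_mul, hηdef, integral_indicator_one hY]
          rfl
  -- the differential equation on the real segment
  have hode : ∀ s ∈ Set.Icc (0 : ℝ) lam1, deriv (Zc q Y) s = Rf s * Zc q Y s := by
    intro s hs
    rw [deriv_Zc hq hY hb hs.1, Zc_ofReal hq hY hb s]
    have hm : Measurable (fun x => s * η x) := hηm.const_mul s
    have hn : ∀ x, 0 ≤ s * η x := fun x => mul_nonneg hs.1 (hη0 x)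
    have hpos : (1 : ℝ) ≤ ZW q (fun x => s * η x) := ZW_one_le hq hm hn (hηi.const_mul s)
    have e1 : Rf s = ((∫ x, η x * (ZW q (fun y => s * η y * q (x - y)) /
        ZW q (fun y => s * η y)) : ℝ) : ℂ) := by
      simp only [hRf]
      rw [← integral_complex_ofReal]
      refine integral_congr_ae (Eventually.of_forall fun x => ?_)
      simp only
      rw [hreal s hs x, ← Complex.ofReal_pow,
        Real.sq_sqrt (ratio_pos hq hηm hη0 hηi hs.1 _).le]
      have e2 : ratio q η s (fun _ : Fin (0 + 1) => x) =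
          ZW q (fun y => s * η y * q (x - y)) / ZW q (fun y => s * η y) := by
        unfold ratio histw
        simp
      rw [e2]
      push_cast
      rfl
    rw [e1, ← Complex.ofReal_mul]
    congr 1
    rw [← integral_mul_const]
    refine integral_congr_ae (Eventually.of_forall fun x => ?_)
    simp only
    have h6 : ZW q (fun y => s * η y) ≠ 0 := by linarith
    rw [mul_assoc, div_mul_cancel₀ _ h6]
  -- the differential equation on the neighbourhood
  have hpre : IsPreconnected (nearSeg lam1 δ) := (convex_nearSeg lam1 δ).isPreconnected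
  have h0mem : (0 : ℂ) ∈ nearSeg lam1 δ := by
    have := ofReal_mem_nearSeg hδ (lam0 := lam1) (s := 0) ⟨le_rfl, hl1.le⟩
    simpa using this
  have hodeC : Set.EqOn (deriv (Zc q Y)) (fun z => Rf z * Zc q Y z) (nearSeg lam1 δ) := by
    have hA1 : AnalyticOnNhd ℂ (deriv (Zc q Y)) (nearSeg lam1 δ) := fun z _ =>
      (hZd.analyticAt z).deriv
    have hA2 : AnalyticOnNhd ℂ (fun z => Rf z * Zc q Y z) (nearSeg lam1 δ) :=
      (hRd.mul hZd.differentiableOn).analyticOnNhd (isOpen_nearSeg lam1 δ)
    refine hA1.eqOn_of_preconnected_of_frequently_eq hA2 hpre h0mem ?_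
    have hseq : Tendsto (fun n : ℕ => ((lam1 * (1 / ((n : ℝ) + 1)) : ℝ) : ℂ)) atTop (𝓝[≠] 0) := by
      refine tendsto_nhdsWithin_iff.2 ⟨?_, Eventually.of_forall fun n => ?_⟩
      · have h7 : Tendsto (fun n : ℕ => lam1 * (1 / ((n : ℝ) + 1))) atTop (𝓝 (lam1 * 0)) :=
          tendsto_one_div_add_atTop_nhds_zero_nat.const_mul lam1
        rw [mul_zero] at h7
        have := (Complex.continuous_ofReal.tendsto 0).comp h7
        simpa [Function.comp_def] using this
      · simp only [Set.mem_compl_iff, Set.mem_singleton_iff, Complex.ofReal_eq_zero]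
        have : 0 < lam1 * (1 / ((n : ℝ) + 1)) := by positivity
        exact this.ne'
    refine hseq.frequently (Frequently.of_forall fun n => ?_)
    have hn0 : (0 : ℝ) < (n : ℝ) + 1 := by positivity
    have h8 : (1 : ℝ) / ((n : ℝ) + 1) ≤ 1 := by
      rw [div_le_one hn0]
      linarith [(Nat.cast_nonneg n : (0 : ℝ) ≤ n)]
    exact hode _ ⟨by positivity, by nlinarith⟩
  -- conclusion
  intro z hz
  have hz1 : z ∈ nearSeg lam1 δ := nearSeg_mono h01.le le_rfl hz
  constructor
  · obtain ⟨s, hs, hzs⟩ := hz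
    have hs1 : s ∈ Set.Icc (0 : ℝ) lam1 := ⟨hs.1, hs.2.trans h01.le⟩
    have hsub : ball (s : ℂ) δ ⊆ nearSeg lam1 δ := ball_subset_nearSeg hs1
    obtain ⟨P, hP⟩ := (hRd.mono hsub).isExactOn_ball
    have hzb : z ∈ ball (s : ℂ) δ := by rwa [mem_ball, dist_eq_norm]
    have hsb : (s : ℂ) ∈ ball (s : ℂ) δ := mem_ball_self hδ
    have hder : ∀ w ∈ ball (s : ℂ) δ, HasDerivAt (fun w => Zc q Y w * Complex.exp (-P w)) 0 w := by
      intro w hw
      have d1 := (hZd w).hasDerivAt
      have d2 : HasDerivAt (fun w => Complex.exp (-P w)) (Complex.exp (-P w) * -(Rf w)) w :=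
        ((hP w hw).neg).cexp
      have d3 : HasDerivAt (fun w => Zc q Y w * Complex.exp (-P w))
          (deriv (Zc q Y) w * Complex.exp (-P w) + Zc q Y w * (Complex.exp (-P w) * -(Rf w))) w :=
        d1.mul d2
      have e : deriv (Zc q Y) w = Rf w * Zc q Y w := hodeC (hsub hw)
      have e2 : deriv (Zc q Y) w * Complex.exp (-P w) +
          Zc q Y w * (Complex.exp (-P w) * -(Rf w)) = 0 := by rw [e]; ring
      rwa [e2] at d3
    have hconst := isOpen_ball.is_const_of_deriv_eq_zero
      (convex_ball (s : ℂ) δ).isPreconnected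
      (fun w hw => (hder w hw).differentiableAt.differentiableWithinAt)
      (fun w hw => (hder w hw).deriv) hzb hsb
    intro hz0
    rw [hz0, zero_mul] at hconst
    have h9 : Zc q Y (s : ℂ) ≠ 0 := by
      rw [Zc_ofReal hq hY hb s]
      have : (1 : ℝ) ≤ ZW q (fun x => s * Y.indicator 1 x) :=
        ZW_one_le hq (hηm.const_mul s) (fun x => mul_nonneg hs.1 (hη0 x)) (hηi.const_mul s)
      exact_mod_cast (by linarith : (ZW q (fun x => s * Y.indicator 1 x)) ≠ 0)
    exact (mul_ne_zero h9 (Complex.exp_ne_zero _)) hconst.symm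
  · rw [hodeC hz1, norm_mul]
    exact mul_le_mul_of_nonneg_right (hRn z hz1) (norm_nonneg _)

end Pool.Agent.Lib.P8e91ed
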