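import Pool.Agent.Lib.P8e91ed.Table
import Pool.Agent.Lib.P8e91ed.Numeric
import Pool.Agent.Lib.P8e91ed.Cluster
import Pool.Agent.Lib.P8e91ed.Regions
import Pool.Agent.Lib.P8e91ed.PathSum
import Pool.Agent.Lib.P8e91ed.Codes
import Pool.Agent.Lib.P8e91ed.Family
import Pool.Agent.Lib.P8e91ed.Interp
import Pool.Agent.Lib.P8e91ed.LogPert
import Pool.Agent.Lib.P8e91ed.PolyMap
import Pool.Agent.Lib.P8e91ed.ZeroFree
import Pool.Agent.Lib.P8e91ed.ZtilError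

/-!
The approximation of `log Z` computed by the algorithm.
-/

set_option autoImplicit false

open MeasureTheory Finset

noncomputable section

namespace Pool.Agent.Lib.P8e91ed

theorem ztil_zero {d : ℕ} (Q : (Fin d → ℤ) → ℝ) (B : ℕ) (A : Finset ℕ) (cel : ℕ → Fin d → ℤ) :
    ztil Q B A cel 0 = 1 := by
  unfold ztil smol avgB
  have e1 : (Fintype.piFinset fun _ : Fin 0 => A).filter Monotone = univ := by
    ext f
    simp only [mem_filter, Fintype.mem_piFinset, mem_univ, iff_true]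
    exact ⟨fun i => i.elim0, fun i => i.elim0⟩
  rw [e1]
  have e2 : (univ : Finset (Fin 0 → Fin (B + 1))).filter (fun b => ∑ i, (b i : ℕ) ≤ B) = univ := by
    ext f
    simp
  have e3 : ∀ b : Fin 0 → Fin (B + 1), (univ : Finset (Fin 0 → Bool)).filter
      (fun e => ∀ i, e i = true → 1 ≤ (b i : ℕ)) = univ := by
    intro b
    ext f
    simp
  rw [e2]
  simp_rw [e3]
  simp

theorem cmb_le (D : ℕ) (A : ℕ → ℕ) (m n : ℕ) : cmb D A m n ≤ (∑ i ∈ Icc 1 D, A i) ^ n := by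
  unfold cmb
  set P : Polynomial ℕ := ∑ i ∈ Icc 1 D, Polynomial.C (A i) * Polynomial.X ^ i with hP
  have h1 : (P ^ n).eval 1 = (∑ i ∈ Icc 1 D, A i) ^ n := by
    simp [P, Polynomial.eval_pow, Polynomial.eval_finsetSum]
  rw [← h1, Polynomial.eval_eq_sum_range' (n := max (m + 1) ((P ^ n).natDegree + 1))
    (lt_of_lt_of_le (Nat.lt_succ_self _) (le_max_right _ _))]
  simp only [one_pow, mul_one]
  refine Finset.sum_le_sum_of_subset ?_
  intro j hj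
  simp only [mem_range] at hj ⊢
  exact lt_of_lt_of_le hj (le_max_left _ _)

theorem prod_fact (m n : ℕ) (h1 : 1 ≤ n) (h2 : n ≤ m) :
    (∏ s ∈ range m, if s + 1 = n then 1 else (s + 1)) * n = m.factorial := by
  rw [← Finset.prod_range_add_one_eq_factorial]
  have hmem : n - 1 ∈ range m := by simp only [mem_range]; omega
  rw [← Finset.mul_prod_erase _ _ hmem, ← Finset.mul_prod_erase (range m) (fun s => s + 1) hmem]
  have e : n - 1 + 1 = n := by omega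
  simp only [e, if_true, one_mul]
  rw [mul_comm]
  congr 1
  refine Finset.prod_congr rfl fun s hs => ?_
  rw [if_neg]
  intro h
  apply (Finset.mem_erase.1 hs).1
  omega

namespace Inst

variable (I : Inst)

theorem DD_pos : 0 < I.DD := by
  unfold DD
  have := Nat.factorial_pos I.m
  positivity

theorem num_div_den (hb : 0 < I.b) (hA : 0 < I.SA) :
    (I.Num : ℝ) / I.Den = ∑ n ∈ Icc 1 I.m, (cmb I.D I.A I.m n : ℝ) / (I.SA : ℝ) ^ n *
      ((I.a : ℝ) / I.b) ^ n * ((I.tot n : ℝ) / (I.DD : ℝ) ^ n / n) := by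
  unfold Num Den
  push_cast
  rw [Finset.sum_div]
  refine Finset.sum_congr rfl fun n hn => ?_
  obtain ⟨h1, h2⟩ := Finset.mem_Icc.1 hn
  have hf := prod_fact I.m n h1 h2
  have hf' : (∏ s ∈ range I.m, if s + 1 = n then (1 : ℝ) else ((s : ℝ) + 1)) * n =
      (I.m.factorial : ℝ) := by
    rw [← hf]
    push_cast
    rfl
  have hb' : (I.b : ℝ) ≠ 0 := by exact_mod_cast hb.ne'
  have hA' : (I.SA : ℝ) ≠ 0 := by exact_mod_cast hA.ne'
  have hD' : (I.DD : ℝ) ≠ 0 := by exact_mod_cast I.DD_pos.ne'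
  have hn' : (n : ℝ) ≠ 0 := by
    have : 0 < n := h1
    exact_mod_cast this.ne'
  have e1 : (I.SA : ℝ) ^ I.m = (I.SA : ℝ) ^ n * (I.SA : ℝ) ^ (I.m - n) := by
    rw [← pow_add]; congr 1; omega
  have e2 : (I.b : ℝ) ^ I.m = (I.b : ℝ) ^ n * (I.b : ℝ) ^ (I.m - n) := by
    rw [← pow_add]; congr 1; omega
  have e3 : (I.DD : ℝ) ^ I.m = (I.DD : ℝ) ^ n * (I.DD : ℝ) ^ (I.m - n) := by
    rw [← pow_add]; congr 1; omega
  rw [cmbc_eq, ← hf', e1, e2, e3, div_pow]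
  have hp : (∏ s ∈ range I.m, if s + 1 = n then (1 : ℝ) else ((s : ℝ) + 1)) ≠ 0 := by
    intro h0
    rw [h0, zero_mul] at hf'
    exact (Nat.cast_ne_zero.2 (Nat.factorial_ne_zero I.m)) hf'.symm
  field_simp

theorem tot_eq {n : ℕ} (h1 : 1 ≤ n) (h2 : n ≤ I.m) :
    (I.tot n : ℝ) / (I.DD : ℝ) ^ n = ∑ x ∈ I.canon, ∑ j ∈ I.masks x,
      (-1 : ℝ) ^ (I.nfv x - cnt j (I.T + 1)) *
        ell (ztil I.Qt I.B (I.times j) (I.cel x)) n := by
  have hD' : (I.DD : ℝ) ≠ 0 := by exact_mod_cast I.DD_pos.ne'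
  unfold tot
  push_cast
  rw [Finset.sum_div]
  refine Finset.sum_congr rfl fun x _ => ?_
  rw [Finset.sum_div]
  refine Finset.sum_congr rfl fun j _ => ?_
  rw [lhat_eq I x j h1 (fun k _ hk => zhat_eq I x j (hk.trans h2)) (ztil_zero _ _ _ _)]
  field_simp

theorem exact_eq {q : Sp I.d → ℝ} {r : ℝ} (hq : IsPot q r) (hR : r ≤ I.R)
    (hN : 1 ≤ I.N) (hT : 2 * I.m ≤ I.T + 2) {n : ℕ} (h1 : 1 ≤ n) (h2 : n ≤ I.m) :
    ∑ x ∈ I.canon, ∑ j ∈ I.masks x, (-1 : ℝ) ^ (I.nfv x - cnt j (I.T + 1)) *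
      ell (zc q (reg ((I.times j).image (I.cel x)))) n =
      ell (zc q (reg (boxCells I.d I.N))) n := by
  rw [sum_fam I (fun Y => ell (zc q (reg Y)) n)]
  refine cluster (adj := cadj I.R) (z := fun Y => zc q (reg Y)) ?_ (fun Y => zc_zero q _) ?_ ?_
    (boxCells I.d I.N) h1 (fam I) (fam_subset I hN) ?_
  · intro a b h i
    rw [abs_sub_comm]
    exact h i
  · intro Y Y' hd h k
    exact zc_reg_mul hq hR Y Y' hd h k
  · intro X k hk
    exact zc_reg_deg hq X k hk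
  · intro X hX hne hc hcon
    refine mem_fam I hN X hX hne ?_ hcon
    omega

theorem ell_error {q : Sp I.d → ℝ} {r : ℝ} (hq : IsPot q r)
    {lam0 δ Cz Kl Kt γ τ : ℝ}
    (hzf : ∀ Y : Set (Sp I.d), MeasurableSet Y → Bornology.IsBounded Y →
      ∀ z ∈ nearSeg lam0 δ, Zc q Y z ≠ 0 ∧
        ‖deriv (Zc q Y) z‖ ≤ Cz * (volume Y).toReal * ‖Zc q Y z‖) (hCz : 0 ≤ Cz)
    (hKl1 : 1 ≤ Kl)
    (hKl : ∀ (z z' : ℕ → ℝ) (Z : ℂ → ℂ) (V τ : ℝ), z 0 = 1 → z' 0 = 1 →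
      (∀ s, HasSum (fun k => (z k : ℂ) * s ^ k) (Z s)) → 0 ≤ V → 0 ≤ τ →
      (∀ s ∈ nearSeg lam0 δ, Z s ≠ 0 ∧ ‖deriv Z s‖ ≤ V * ‖Z s‖) →
      ∀ n : ℕ, (∀ k ≤ n, |z' k - z k| ≤ τ) → Kl ^ n * Real.exp (Kl * V) * τ ≤ 1 →
        |ell z' n - ell z n| ≤ Kl ^ n * Real.exp (Kl * V) * τ)
    (hKt1 : 1 ≤ Kt)
    (hKt : ∀ (k B : ℕ) (A : Finset ℕ) (cel : ℕ → Fin I.d → ℤ)
      (Q : (Fin I.d → ℤ) → ℝ) (τ : ℝ), Set.InjOn cel A → (∀ D, 0 ≤ Q D) → (∀ D, Q D ≤ 1) →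
      (∀ D, |Q D - q (gridPt B D)| ≤ τ) →
      |zc q (reg (A.image cel)) k - ztil Q B A cel k| ≤
        Kt ^ (A.card + k) * ((2 : ℝ) ^ (-(γ * B)) + Kt ^ B * τ))
    (hQ0 : ∀ D, 0 ≤ I.Qt D) (hQ1 : ∀ D, I.Qt D ≤ 1) (hQ : ∀ D, |I.Qt D - q (gridPt I.B D)| ≤ τ)
    {x j : ℕ} (hx : x ∈ I.canon) (hj : j ∈ I.masks x) {n : ℕ} (hn : n ≤ I.m)
    (hsm : Kl ^ I.m * Real.exp (Kl * (Cz * (I.T + 1))) *
      (Kt ^ (I.T + 1 + I.m) * ((2 : ℝ) ^ (-(γ * I.B)) + Kt ^ I.B * τ)) ≤ 1) :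
    |ell (ztil I.Qt I.B (I.times j) (I.cel x)) n -
      ell (zc q (reg ((I.times j).image (I.cel x)))) n| ≤
      Kl ^ I.m * Real.exp (Kl * (Cz * (I.T + 1))) *
      (Kt ^ (I.T + 1 + I.m) * ((2 : ℝ) ^ (-(γ * I.B)) + Kt ^ I.B * τ)) := by
  set τ1 : ℝ := Kt ^ (I.T + 1 + I.m) * ((2 : ℝ) ^ (-(γ * I.B)) + Kt ^ I.B * τ) with hτ1
  have hτ0 : 0 ≤ τ := (abs_nonneg _).trans (hQ 0)
  have hK0 : 0 ≤ Kt := zero_le_one.trans hKt1
  have hb0 : 0 ≤ (2 : ℝ) ^ (-(γ * I.B)) + Kt ^ I.B * τ := by positivity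
  have hτ10 : 0 ≤ τ1 := by positivity
  have hcard : (I.times j).card ≤ I.T + 1 := by
    unfold times
    exact (card_filter_le _ _).trans (by simp)
  set Y : Finset (Fin I.d → ℤ) := (I.times j).image (I.cel x) with hY
  have hYc : (Y.card : ℝ) ≤ I.T + 1 := by
    have : Y.card ≤ I.T + 1 := card_image_le.trans hcard
    exact_mod_cast this
  have hmono : Kl ^ n * Real.exp (Kl * (Cz * (I.T + 1))) * τ1 ≤
      Kl ^ I.m * Real.exp (Kl * (Cz * (I.T + 1))) * τ1 := by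
    gcongr
  refine (hKl (zc q (reg Y)) (ztil I.Qt I.B (I.times j) (I.cel x)) (Zc q (reg Y))
    (Cz * (I.T + 1)) τ1 (zc_zero q _) (ztil_zero _ _ _ _)
    (fun s => hasSum_Zc hq (measurableSet_reg Y) (isBounded_reg Y) s) (by positivity) hτ10 ?_ n ?_
    (hmono.trans hsm)).trans hmono
  · intro s hs
    obtain ⟨h1, h2⟩ := hzf (reg Y) (measurableSet_reg Y) (isBounded_reg Y) s hs
    refine ⟨h1, h2.trans ?_⟩
    rw [volume_reg]
    gcongr
  · intro k hk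
    rw [abs_sub_comm]
    refine (hKt k I.B (I.times j) (I.cel x) I.Qt τ (injOn_cel I hx hj) hQ0 hQ1 hQ).trans ?_
    refine mul_le_mul_of_nonneg_right ?_ hb0
    exact pow_le_pow_right₀ hKt1 (by omega)

theorem tot_error {q : Sp I.d → ℝ} {r : ℝ} (hq : IsPot q r) (hR : r ≤ I.R)
    (hN : 1 ≤ I.N) (hT : 2 * I.m ≤ I.T + 2) {n : ℕ} (h1 : 1 ≤ n) (h2 : n ≤ I.m) {E : ℝ}
    (hE : ∀ x ∈ I.canon, ∀ j ∈ I.masks x, |ell (ztil I.Qt I.B (I.times j) (I.cel x)) n -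
      ell (zc q (reg ((I.times j).image (I.cel x)))) n| ≤ E) (hE0 : 0 ≤ E) :
    |(I.tot n : ℝ) / (I.DD : ℝ) ^ n - ell (zc q (reg (boxCells I.d I.N))) n| ≤
      I.nx * 2 ^ (I.T + 1) * E := by
  rw [I.tot_eq h1 h2, ← I.exact_eq hq hR hN hT h1 h2, ← Finset.sum_sub_distrib]
  refine (Finset.abs_sum_le_sum_abs _ _).trans ?_
  have h3 : ∀ x ∈ I.canon, |∑ j ∈ I.masks x, (-1 : ℝ) ^ (I.nfv x - cnt j (I.T + 1)) *
        ell (ztil I.Qt I.B (I.times j) (I.cel x)) n -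
      ∑ j ∈ I.masks x, (-1 : ℝ) ^ (I.nfv x - cnt j (I.T + 1)) *
        ell (zc q (reg ((I.times j).image (I.cel x)))) n| ≤ 2 ^ (I.T + 1) * E := by
    intro x hx
    rw [← Finset.sum_sub_distrib]
    refine (Finset.abs_sum_le_sum_abs _ _).trans ?_
    have h4 : ∀ j ∈ I.masks x, |(-1 : ℝ) ^ (I.nfv x - cnt j (I.T + 1)) *
        ell (ztil I.Qt I.B (I.times j) (I.cel x)) n -
        (-1 : ℝ) ^ (I.nfv x - cnt j (I.T + 1)) *
        ell (zc q (reg ((I.times j).image (I.cel x)))) n| ≤ E := by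
      intro j hj
      rw [← mul_sub, abs_mul, abs_pow, abs_neg, abs_one, one_pow, one_mul]
      exact hE x hx j hj
    refine (Finset.sum_le_card_nsmul _ _ _ h4).trans ?_
    rw [nsmul_eq_mul]
    refine mul_le_mul_of_nonneg_right ?_ hE0
    have : (I.masks x).card ≤ 2 ^ (I.T + 1) := by
      have hs : I.masks x ⊆ range (2 ^ (I.T + 1)) := by
        intro y hy
        simp only [masks, mem_filter] at hy
        exact hy.1
      exact (card_le_card hs).trans (by simp)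
    exact_mod_cast this
  refine (Finset.sum_le_card_nsmul _ _ _ h3).trans ?_
  rw [nsmul_eq_mul, mul_assoc]
  refine mul_le_mul_of_nonneg_right ?_ (by positivity)
  have : I.canon.card ≤ I.nx := by
    classical
    unfold canon
    exact (card_filter_le _ _).trans (by simp)
  exact_mod_cast this

end Inst

theorem Zc_box {d : ℕ} (q : Sp d → ℝ) (N : ℕ) :
    Zc q (box d N) = Zc q (reg (boxCells d N)) := by
  funext s
  unfold Zc
  simp_rw [zc_box]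

theorem card_boxCells (d N : ℕ) : (boxCells d N).card = (2 * N) ^ d := by
  unfold boxCells
  rw [Fintype.card_piFinset]
  simp only [Int.card_Ico, sub_neg_eq_add, prod_const, card_univ, Fintype.card_fin]
  congr 1
  omega

/-- The error of the approximation of the logarithm. -/
theorem log_error (I : Inst) {q : Sp I.d → ℝ} {r : ℝ} (hq : IsPot q r)
    (hb : 0 < I.b) (hA : 0 < I.SA)
    {lam0 δ Cz Ci β E : ℝ} (hlam : lam0 = (I.a : ℝ) / I.b)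
    (hzf : ∀ Y : Set (Sp I.d), MeasurableSet Y → Bornology.IsBounded Y →
      ∀ z ∈ nearSeg lam0 δ, Zc q Y z ≠ 0 ∧
        ‖deriv (Zc q Y) z‖ ≤ Cz * (volume Y).toReal * ‖Zc q Y z‖) (hCz : 0 ≤ Cz)
    (hint : ∀ (z : ℕ → ℝ) (Z : ℂ → ℂ) (V : ℝ), z 0 = 1 → (∀ k, 0 ≤ z k) →
      (∀ s, HasSum (fun k => (z k : ℂ) * s ^ k) (Z s)) → 0 ≤ V →
      (∀ s ∈ nearSeg lam0 δ, Z s ≠ 0 ∧ ‖deriv Z s‖ ≤ V * ‖Z s‖) →
      ∀ m : ℕ, |Real.log (Z lam0).re -
        ∑ n ∈ Icc 1 m, (cmb I.D I.A m n : ℝ) / ((∑ i ∈ Icc 1 I.D, I.A i : ℕ) : ℝ) ^ n *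
          lam0 ^ n * (ell z n / n)| ≤ Ci * V * (1 / β) ^ m)
    (hE : ∀ n ∈ Icc 1 I.m, |(I.tot n : ℝ) / (I.DD : ℝ) ^ n -
      ell (zc q (reg (boxCells I.d I.N))) n| ≤ E) :
    |(I.Num : ℝ) / I.Den - Real.log (Zc q (box I.d I.N) lam0).re| ≤
      Ci * (Cz * ((2 * I.N) ^ I.d : ℕ)) * (1 / β) ^ I.m + I.m * (1 + lam0) ^ I.m * E := by
  have h0 : 0 ≤ lam0 := by rw [hlam]; positivity
  set L := boxCells I.d I.N with hL
  have hvol : (volume (reg L)).toReal = ((2 * I.N) ^ I.d : ℕ) := by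
    rw [volume_reg, hL, card_boxCells]
  have h1 := hint (zc q (reg L)) (Zc q (reg L)) (Cz * ((2 * I.N) ^ I.d : ℕ)) (zc_zero q _)
    (fun k => zc_nonneg hq _ k)
    (fun s => hasSum_Zc hq (measurableSet_reg L) (isBounded_reg L) s) (by positivity) ?_ I.m
  · rw [I.num_div_den hb hA, Zc_box, ← hlam, ← hL, abs_sub_comm]
    have e : Real.log (Zc q (reg L) lam0).re - ∑ n ∈ Icc 1 I.m,
        (cmb I.D I.A I.m n : ℝ) / (I.SA : ℝ) ^ n * lam0 ^ n *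
          ((I.tot n : ℝ) / (I.DD : ℝ) ^ n / n) =
        (Real.log (Zc q (reg L) lam0).re -
        ∑ n ∈ Icc 1 I.m, (cmb I.D I.A I.m n : ℝ) / (I.SA : ℝ) ^ n *
          lam0 ^ n * (ell (zc q (reg L)) n / n)) -
        ∑ n ∈ Icc 1 I.m, (cmb I.D I.A I.m n : ℝ) / (I.SA : ℝ) ^ n * lam0 ^ n *
          (((I.tot n : ℝ) / (I.DD : ℝ) ^ n - ell (zc q (reg L)) n) / n) := by
      have : ∑ n ∈ Icc 1 I.m, (cmb I.D I.A I.m n : ℝ) / (I.SA : ℝ) ^ n * lam0 ^ n *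
          (((I.tot n : ℝ) / (I.DD : ℝ) ^ n - ell (zc q (reg L)) n) / n) =
          ∑ n ∈ Icc 1 I.m, (cmb I.D I.A I.m n : ℝ) / (I.SA : ℝ) ^ n * lam0 ^ n *
          ((I.tot n : ℝ) / (I.DD : ℝ) ^ n / n) -
          ∑ n ∈ Icc 1 I.m, (cmb I.D I.A I.m n : ℝ) / (I.SA : ℝ) ^ n *
          lam0 ^ n * (ell (zc q (reg L)) n / n) := by
        rw [← Finset.sum_sub_distrib]
        refine Finset.sum_congr rfl fun n _ => ?_
        rw [sub_div, mul_sub]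
      rw [this]
      ring
    rw [e]
    refine (abs_sub _ _).trans (add_le_add h1 ?_)
    refine (Finset.abs_sum_le_sum_abs _ _).trans ?_
    have h2 : ∀ n ∈ Icc 1 I.m, |(cmb I.D I.A I.m n : ℝ) / (I.SA : ℝ) ^ n * lam0 ^ n *
          (((I.tot n : ℝ) / (I.DD : ℝ) ^ n - ell (zc q (reg L)) n) / n)| ≤
          (1 + lam0) ^ I.m * E := by
      intro n hn
      have hn1 := (Finset.mem_Icc.1 hn).1
      have hn2 := (Finset.mem_Icc.1 hn).2
      have hA' : (0 : ℝ) < I.SA := by exact_mod_cast hA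
      have c1 : (cmb I.D I.A I.m n : ℝ) / (I.SA : ℝ) ^ n ≤ 1 := by
        rw [div_le_one (by positivity)]
        exact_mod_cast cmb_le I.D I.A I.m n
      have c1' : 0 ≤ (cmb I.D I.A I.m n : ℝ) / (I.SA : ℝ) ^ n := by positivity
      have c2 : lam0 ^ n ≤ (1 + lam0) ^ I.m :=
        (pow_le_pow_left₀ h0 (by linarith) n).trans (pow_le_pow_right₀ (by linarith) hn2)
      have c3 : |((I.tot n : ℝ) / (I.DD : ℝ) ^ n - ell (zc q (reg L)) n) / n| ≤ E := by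
        rw [abs_div, Nat.abs_cast]
        have hn' : (1 : ℝ) ≤ n := by exact_mod_cast hn1
        calc |(I.tot n : ℝ) / (I.DD : ℝ) ^ n - ell (zc q (reg L)) n| / n
            ≤ |(I.tot n : ℝ) / (I.DD : ℝ) ^ n - ell (zc q (reg L)) n| / 1 := by
              gcongr
          _ ≤ E := by rw [div_one]; exact hE n hn
      rw [abs_mul, abs_mul, abs_of_nonneg c1', abs_of_nonneg (pow_nonneg h0 n)]
      calc (cmb I.D I.A I.m n : ℝ) / (I.SA : ℝ) ^ n * lam0 ^ n *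
            |((I.tot n : ℝ) / (I.DD : ℝ) ^ n - ell (zc q (reg L)) n) / n|
          ≤ 1 * (1 + lam0) ^ I.m * E := by gcongr
        _ = (1 + lam0) ^ I.m * E := by ring
    refine (Finset.sum_le_card_nsmul _ _ _ h2).trans ?_
    rw [nsmul_eq_mul, Nat.card_Icc, Nat.add_sub_cancel, mul_assoc]
  · intro s hs
    obtain ⟨h2, h3⟩ := hzf (reg L) (measurableSet_reg L) (isBounded_reg L) s hs
    refine ⟨h2, ?_⟩
    rw [hvol] at h3
    exact h3

theorem lg_spec (N M : ℕ) (hN : 1 ≤ N) : 1 ≤ lg N M ∧ N ≤ 2 ^ lg N M ∧ M ≤ 2 ^ lg N M := by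
  unfold lg
  have h := Nat.lt_pow_succ_log_self (b := 2) (by norm_num) (N + M)
  rw [Nat.succ_eq_add_one] at h
  exact ⟨by omega, by omega, by omega⟩

/-- The algorithm approximates the logarithm of the partition function. -/
theorem log_approx {d : ℕ} (hd : 1 ≤ d) {q : Sp d → ℝ} {r : ℝ} (hq : IsPot q r) {Ch α : ℝ}
    (hα : 0 < α) (hreg : HolderAvg q Ch α) (a b : ℕ) (hb : 0 < b) {k : ℕ}
    (hk : ((a : ℝ) / b / Real.exp 1) ^ k * walkIntegral q k < 1) :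
    ∃ (R D : ℕ) (A : ℕ → ℕ) (K1 K2 K3 : ℕ), r ≤ R ∧ 0 < ∑ i ∈ Icc 1 D, A i ∧
      ∀ (K4 N M : ℕ) (ans : List ℚ), 1 ≤ N → 1 ≤ M →
        Valid q R (K2 * lg N M) (K3 * lg N M) ans →
        |(((⟨d, R, a, b, D, A, K1, K2, K3, K4⟩ : Consts).inst (N, M, ans)).Num : ℝ) /
            ((⟨d, R, a, b, D, A, K1, K2, K3, K4⟩ : Consts).inst (N, M, ans)).Den -
          Real.log (Zc q (box d N) (((a : ℝ) / b : ℝ) : ℂ)).re| ≤ 1 / (4 * M) := by
  obtain ⟨R, hR⟩ := exists_nat_ge r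
  rcases Nat.eq_zero_or_pos a with ha | ha
  · refine ⟨R, 1, fun _ => 1, 1, 1, 1, hR, by simp, ?_⟩
    intro K4 N M ans hN hM hv
    have hnum : ((⟨d, R, a, b, 1, fun _ => 1, 1, 1, 1, K4⟩ : Consts).inst (N, M, ans)).Num = 0 := by
      unfold Inst.Num
      refine Finset.sum_eq_zero fun n hn => ?_
      have h1 := (Finset.mem_Icc.1 hn).1
      have : ((⟨d, R, a, b, 1, fun _ => 1, 1, 1, 1, K4⟩ : Consts).inst (N, M, ans)).a = 0 := ha
      rw [this, zero_pow (by omega)]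
      simp
    have hz : Zc q (box d N) (((a : ℝ) / b : ℝ) : ℂ) = 1 := by
      subst ha
      simp only [Nat.cast_zero, zero_div, Complex.ofReal_zero]
      unfold Zc
      rw [tsum_eq_single 0]
      · simp [zc_zero]
      · intro k hk
        simp [hk]
    rw [hnum, hz]
    simp
  · have hlam : (0 : ℝ) < (a : ℝ) / b := by positivity
    obtain ⟨δ, Cz, hδ, hCz, hzf⟩ := zero_free hd hq hlam.le hk
    obtain ⟨D, A, β, hA, hβ, hmap⟩ := exists_map hlam hδ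
    obtain ⟨Ci, hCi, hint⟩ := interp hlam hδ hA hβ hmap
    obtain ⟨Kt, γ, hKt1, hγ, hKt⟩ := ztil_error hd hq hα hreg
    obtain ⟨Kl, hKl1, hKl⟩ := log_pert hlam.le hδ
    obtain ⟨K1, K2, K3, hK⟩ := consts hβ hγ hCi hCz hlam.le hKl1 hKt1 d ((2 * R + 1) ^ d)
      (Nat.one_le_pow _ _ (by omega))
    refine ⟨R, D, A, K1, K2, K3, hR, hA, ?_⟩
    intro K4 N M ans hN hM hv
    obtain ⟨hl, hNl, hMl⟩ := lg_spec N M hN
    obtain ⟨hS1, htot⟩ := hK (lg N M) N M hl hNl hM hMl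
    set C : Consts := ⟨d, R, a, b, D, A, K1, K2, K3, K4⟩ with hC
    have hQ : ∀ D' : Fin C.d → ℤ, |(C.inst (N, M, ans)).Qt D' - q (gridPt (C.K2 * lg N M) D')| ≤
        2 / 2 ^ (C.K3 * lg N M) := fun D' => Qt_error C hq hR hv D'
    refine (log_error (C.inst (N, M, ans)) (q := q) hq hb hA (lam0 := (a : ℝ) / b) rfl hzf hCz
      hint (E := ((((2 * N) ^ d * ((2 * R + 1) ^ d) ^ (2 * (K1 * lg N M)) : ℕ) : ℝ) *
        2 ^ (2 * (K1 * lg N M) + 1) *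
          (Kl ^ (K1 * lg N M) * Real.exp (Kl * (Cz * ((2 * (K1 * lg N M) : ℕ) + 1))) *
        (Kt ^ (2 * (K1 * lg N M) + 1 + K1 * lg N M) *
          ((2 : ℝ) ^ (-(γ * (K2 * lg N M : ℕ))) + Kt ^ (K2 * lg N M) *
            (2 / 2 ^ (K3 * lg N M))))))) ?_).trans htot
    intro n hn
    have hn1 := (Finset.mem_Icc.1 hn).1
    have hn2 := (Finset.mem_Icc.1 hn).2
    refine (C.inst (N, M, ans)).tot_error (q := q) hq hR hN (Nat.le_add_right _ 2) hn1 hn2 ?_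
      (by positivity)
    intro x hx j hj
    exact (C.inst (N, M, ans)).ell_error (q := q) hq hzf hCz hKl1 hKl hKt1 hKt
      (Qt_nonneg C _) (Qt_le_one C _) hQ hx hj hn2 hS1

end Pool.Agent.Lib.P8e91ed
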