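import Pool.Agent.Lib.P8e91ed.Defs

/-!
Module Group of MP_8e91ed_lc: symmetric sums as sums over monotone functions, the exact canonical
partition function of a union of cells, and the count of monotone functions weighted with the
numbers of neighbours.
-/

set_option autoImplicit false

open MeasureTheory Finset

noncomputable section

namespace Pool.Agent.Lib.P8e91ed

/-- the number of permutations which sort `f` -/
theorem card_sorters {k : ℕ} (A : Finset ℕ) (f : Fin k → ℕ) (hf : ∀ i, f i ∈ A) :
    ((univ : Finset (Equiv.Perm (Fin k))).filter fun σ : Equiv.Perm (Fin k) => Monotone (f ∘ σ)).card =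
      ∏ t ∈ A, (univ.filter fun i => f i = t).card.factorial := by
  classical
  have h1 : ((univ : Finset (Equiv.Perm (Fin k))).filter fun σ : Equiv.Perm (Fin k) => Monotone (f ∘ σ)).card =
      Fintype.card {g : Equiv.Perm (Fin k) // f ∘ g = f} := by
    rw [Fintype.card_subtype]
    refine Finset.card_bij' (fun σ _ => σ * (Tuple.sort f)⁻¹) (fun τ _ => τ * Tuple.sort f)
      ?_ ?_ ?_ ?_
    · intro σ hσ
      rw [mem_filter] at hσ ⊢
      refine ⟨mem_univ _, ?_⟩
      have h2 := Tuple.comp_sort_eq_comp_iff_monotone.2 hσ.2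
      funext i
      have h3 := congrFun h2 ((Tuple.sort f)⁻¹ i)
      simpa [Equiv.Perm.mul_apply] using h3
    · intro τ hτ
      rw [mem_filter] at hτ ⊢
      refine ⟨mem_univ _, ?_⟩
      have : f ∘ (τ * Tuple.sort f : Equiv.Perm (Fin k)) = f ∘ Tuple.sort f := by
        funext i
        have h3 := congrFun hτ.2 (Tuple.sort f i)
        simpa [Equiv.Perm.mul_apply] using h3
      rw [this]
      exact Tuple.monotone_sort f
    · intro σ _
      simp
    · intro τ _
      simp
  rw [h1, DomMulAct.stabilizer_card']
  have h2 : ∀ t, Fintype.card {a // f a = t} = (univ.filter fun i => f i = t).card := by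
    intro t
    rw [Fintype.card_subtype]
  simp only [h2]
  refine Finset.prod_subset ?_ ?_
  · intro t ht
    rw [mem_image] at ht
    obtain ⟨i, -, rfl⟩ := ht
    exact hf i
  · intro t _ ht
    have : (univ.filter fun i => f i = t) = ∅ := by
      rw [filter_eq_empty_iff]
      intro i _ h
      exact ht (mem_image.2 ⟨i, mem_univ _, h⟩)
    rw [this]
    rfl

/-- symmetric sums over all functions, as sums over monotone functions -/
theorem sum_monotone {k : ℕ} (A : Finset ℕ) (F : (Fin k → ℕ) → ℝ)
    (hF : ∀ (σ : Equiv.Perm (Fin k)) f, F (f ∘ σ) = F f) :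
    (1 / (k.factorial : ℝ)) * ∑ f ∈ Fintype.piFinset (fun _ : Fin k => A), F f =
      ∑ f ∈ (Fintype.piFinset fun _ : Fin k => A).filter Monotone,
        (∏ t ∈ A, 1 / (((univ.filter fun i => f i = t).card.factorial : ℕ) : ℝ)) * F f := by
  classical
  have hk : (k.factorial : ℝ) ≠ 0 := by positivity
  set W : (Fin k → ℕ) → ℝ := fun f =>
    ∏ t ∈ A, 1 / (((univ.filter fun i => f i = t).card.factorial : ℕ) : ℝ) with hW
  have hWσ : ∀ (σ : Equiv.Perm (Fin k)) f, W (f ∘ σ) = W f := by
    intro σ f
    simp only [hW]
    refine Finset.prod_congr rfl fun t _ => ?_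
    congr 3
    refine Finset.card_bij' (fun i _ => σ i) (fun i _ => σ.symm i) ?_ ?_ ?_ ?_ <;>
      simp
  have hc : ∀ f ∈ Fintype.piFinset (fun _ : Fin k => A),
      ∑ σ : Equiv.Perm (Fin k), (if Monotone (f ∘ σ) then W (f ∘ σ) * F (f ∘ σ) else 0) = F f := by
    intro f hf
    rw [Fintype.mem_piFinset] at hf
    simp only [hWσ, hF]
    rw [← Finset.sum_filter, Finset.sum_const, card_sorters A f hf, nsmul_eq_mul, ← mul_assoc]
    have : ((∏ t ∈ A, (univ.filter fun i => f i = t).card.factorial : ℕ) : ℝ) * W f = 1 := by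
      simp only [hW]
      rw [Nat.cast_prod, ← Finset.prod_mul_distrib]
      refine Finset.prod_eq_one fun t _ => ?_
      rw [mul_one_div_cancel]
      positivity
    rw [this, one_mul]
  rw [← Finset.sum_congr rfl hc, Finset.sum_comm]
  have h3 : ∀ σ : Equiv.Perm (Fin k), ∑ f ∈ Fintype.piFinset (fun _ : Fin k => A),
      (if Monotone (f ∘ σ) then W (f ∘ σ) * F (f ∘ σ) else 0) =
      ∑ f ∈ (Fintype.piFinset fun _ : Fin k => A).filter Monotone, W f * F f := by
    intro σ
    rw [Finset.sum_filter]
    refine Finset.sum_bij' (fun f _ => f ∘ σ) (fun f _ => f ∘ σ.symm) ?_ ?_ ?_ ?_ ?_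
    · intro f hf
      rw [Fintype.mem_piFinset] at hf ⊢
      exact fun i => hf _
    · intro f hf
      rw [Fintype.mem_piFinset] at hf ⊢
      exact fun i => hf _
    · intro f _
      funext i
      simp
    · intro f _
      funext i
      simp
    · intro f _
      rfl
  simp only [h3]
  rw [Finset.sum_const, Finset.card_univ, Fintype.card_perm, Fintype.card_fin, nsmul_eq_mul,
    ← mul_assoc, one_div, inv_mul_cancel₀ hk, one_mul]

section inter
variable {d : ℕ} {q : Sp d → ℝ} {r : ℝ}

theorem grp_inter_nonneg (hq : IsPot q r) {k : ℕ} (x : Fin k → Sp d) : 0 ≤ inter q x := by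
  refine Finset.prod_nonneg fun i _ => Finset.prod_nonneg fun j _ => ?_
  split_ifs
  · exact hq.nonneg _
  · exact zero_le_one

theorem grp_inter_le_one (hq : IsPot q r) {k : ℕ} (x : Fin k → Sp d) : inter q x ≤ 1 := by
  refine Finset.prod_le_one (fun i _ => Finset.prod_nonneg fun j _ => ?_) fun i _ =>
    Finset.prod_le_one (fun j _ => ?_) fun j _ => ?_
  · split_ifs
    · exact hq.nonneg _
    · exact zero_le_one
  · split_ifs
    · exact hq.nonneg _
    · exact zero_le_one
  · split_ifs
    · exact hq.le_one _
    · exact le_rfl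

theorem grp_inter_measurable (hq : IsPot q r) (k : ℕ) :
    Measurable (fun x : Fin k → Sp d => inter q x) := by
  unfold inter
  refine Finset.measurable_prod _ fun i _ => Finset.measurable_prod _ fun j _ => ?_
  split_ifs
  · exact hq.meas.comp ((measurable_pi_apply i).sub (measurable_pi_apply j))
  · exact measurable_const

/-- the square of the interaction factor is a product over all ordered pairs -/
theorem grp_inter_sq (hq : IsPot q r) {k : ℕ} (x : Fin k → Sp d) :
    inter q x ^ 2 = ∏ i, ∏ j, if i = j then 1 else q (x i - x j) := by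
  have h1 : inter q x = ∏ i : Fin k, ∏ j : Fin k, if j < i then q (x i - x j) else 1 := by
    rw [inter, Finset.prod_comm]
    refine Finset.prod_congr rfl fun i _ => Finset.prod_congr rfl fun j _ => ?_
    split_ifs
    · rw [← hq.even, neg_sub]
    · rfl
  rw [sq]
  nth_rewrite 2 [h1]
  rw [inter, ← Finset.prod_mul_distrib]
  refine Finset.prod_congr rfl fun i _ => ?_
  rw [← Finset.prod_mul_distrib]
  refine Finset.prod_congr rfl fun j _ => ?_
  rcases lt_trichotomy i j with h | h | h
  · rw [if_pos h, if_neg (not_lt.2 h.le), if_neg h.ne, mul_one]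
  · subst h; simp
  · rw [if_neg (not_lt.2 h.le), if_pos h, if_neg h.ne', one_mul]

/-- the interaction factor is symmetric -/
theorem grp_inter_perm (hq : IsPot q r) {k : ℕ} (x : Fin k → Sp d) (σ : Equiv.Perm (Fin k)) :
    inter q (x ∘ σ) = inter q x := by
  have h : inter q (x ∘ σ) ^ 2 = inter q x ^ 2 := by
    rw [grp_inter_sq hq, grp_inter_sq hq,
      ← Equiv.prod_comp σ (fun i => ∏ j, if i = j then 1 else q (x i - x j))]
    refine Finset.prod_congr rfl fun i _ => ?_
    rw [← Equiv.prod_comp σ (fun j => if σ i = j then 1 else q (x (σ i) - x j))]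
    refine Finset.prod_congr rfl fun j _ => ?_
    simp only [Function.comp_apply, EmbeddingLike.apply_eq_iff_eq]
  exact (pow_left_inj₀ (grp_inter_nonneg hq _) (grp_inter_nonneg hq _) two_ne_zero).1 h

end inter

section cells
variable {d : ℕ}

theorem grp_measurableSet_cell (c : Fin d → ℤ) : MeasurableSet (cell c) := by
  have : cell c = ⋂ i, {x : Sp d | (c i : ℝ) ≤ x i ∧ x i < c i + 1} := by
    ext x
    simp [cell]
  rw [this]
  refine MeasurableSet.iInter fun i => ?_
  have hm : Measurable (fun x : Sp d => x i) := by fun_prop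
  exact (measurableSet_le measurable_const hm).inter (measurableSet_lt hm measurable_const)

theorem grp_isBounded_cell (c : Fin d → ℤ) : Bornology.IsBounded (cell c) := by
  refine (Metric.isBounded_closedBall (x := (0 : Sp d))
    (r := √(∑ i, (|(c i : ℝ)| + 1) ^ 2))).subset ?_
  intro x hx
  rw [mem_closedBall_zero_iff, EuclideanSpace.norm_eq]
  refine Real.sqrt_le_sqrt (Finset.sum_le_sum fun i _ => ?_)
  have h := hx i
  have h1 : ‖x i‖ ≤ |(c i : ℝ)| + 1 := by
    rw [Real.norm_eq_abs, abs_le]
    constructor
    · have := neg_abs_le (c i : ℝ)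
      linarith [h.1]
    · have := le_abs_self (c i : ℝ)
      linarith [h.2]
  exact pow_le_pow_left₀ (norm_nonneg _) h1 2

theorem grp_cell_disjoint {c c' : Fin d → ℤ} (h : c ≠ c') : Disjoint (cell c) (cell c') := by
  rw [Set.disjoint_left]
  intro x hx hx'
  apply h
  funext i
  have h1 := hx i
  have h2 := hx' i
  have h3 : (c i : ℝ) < c' i + 1 := lt_of_le_of_lt h1.1 h2.2
  have h4 : (c' i : ℝ) < c i + 1 := lt_of_le_of_lt h2.1 h1.2
  have h5 : c i < c' i + 1 := by exact_mod_cast h3
  have h6 : c' i < c i + 1 := by exact_mod_cast h4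
  omega

theorem grp_measurableSet_cells {k : ℕ} (c : Fin k → Fin d → ℤ) :
    MeasurableSet (Set.univ.pi fun i => cell (c i)) :=
  MeasurableSet.univ_pi fun i => grp_measurableSet_cell (c i)

theorem grp_volume_cells {k : ℕ} (c : Fin k → Fin d → ℤ) :
    volume (Set.univ.pi fun i => cell (c i)) < ⊤ := by
  rw [volume_pi_pi]
  exact ENNReal.prod_lt_top fun i _ => (grp_isBounded_cell (c i)).measure_lt_top

theorem grp_integrableOn_cells {q : Sp d → ℝ} {r : ℝ} (hq : IsPot q r) {k : ℕ}
    (c : Fin k → Fin d → ℤ) :
    IntegrableOn (fun x : Fin k → Sp d => inter q x) (Set.univ.pi fun i => cell (c i)) := by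
  refine Measure.integrableOn_of_bounded (M := 1) (grp_volume_cells c).ne
    (grp_inter_measurable hq k).aestronglyMeasurable ?_
  refine Filter.Eventually.of_forall fun x => ?_
  rw [Real.norm_eq_abs, abs_of_nonneg (grp_inter_nonneg hq x)]
  exact grp_inter_le_one hq x

theorem Icell_perm {q : Sp d → ℝ} {r : ℝ} (hq : IsPot q r) {k : ℕ} (c : Fin k → Fin d → ℤ)
    (σ : Equiv.Perm (Fin k)) : Icell q (fun i => c (σ i)) = Icell q c := by
  have hmp := volume_measurePreserving_piCongrLeft (fun _ : Fin k => Sp d) σ
  have h := hmp.setIntegral_preimage_emb (MeasurableEquiv.measurableEmbedding _)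
    (fun x => inter q x) (Set.univ.pi fun i => cell (c i))
  rw [Icell, Icell, ← h]
  have h1 : (MeasurableEquiv.piCongrLeft (fun _ : Fin k => Sp d) σ) ⁻¹'
      (Set.univ.pi fun i => cell (c i)) = Set.univ.pi fun i => cell (c (σ i)) := by
    ext x
    simp only [Set.mem_preimage, Set.mem_univ_pi]
    constructor
    · intro hx i
      have := hx (σ i)
      rwa [MeasurableEquiv.piCongrLeft_apply_apply] at this
    · intro hx j
      obtain ⟨i, rfl⟩ := σ.surjective j
      rw [MeasurableEquiv.piCongrLeft_apply_apply]
      exact hx i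
  rw [h1]
  refine integral_congr_ae (Filter.Eventually.of_forall fun x => ?_)
  have h2 : x = (MeasurableEquiv.piCongrLeft (fun _ : Fin k => Sp d) σ x) ∘ σ := by
    funext i
    rw [Function.comp_apply, MeasurableEquiv.piCongrLeft_apply_apply]
  change inter q x = inter q (MeasurableEquiv.piCongrLeft (fun _ : Fin k => Sp d) σ x)
  conv_lhs => rw [h2]
  exact grp_inter_perm hq _ σ

/-- the canonical partition function as a sum over all functions -/
theorem zc_reg_all {q : Sp d → ℝ} {r : ℝ} (hq : IsPot q r) (A : Finset ℕ)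
    (cel : ℕ → Fin d → ℤ) (hinj : Set.InjOn cel A) (k : ℕ) :
    zc q (reg (A.image cel)) k = (1 / (k.factorial : ℝ)) *
      ∑ f ∈ Fintype.piFinset (fun _ : Fin k => A), Icell q (fun i => cel (f i)) := by
  rw [zc]
  congr 1
  have h1 : (Set.univ.pi fun _ : Fin k => reg (A.image cel)) =
      ⋃ f ∈ Fintype.piFinset (fun _ : Fin k => A), Set.univ.pi fun i => cell (cel (f i)) := by
    ext x
    simp only [reg, Set.mem_univ_pi, Set.mem_iUnion, Fintype.mem_piFinset, Finset.mem_image,
      exists_prop]
    constructor
    · intro h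
      choose c hc hx using h
      choose f hf hfc using hc
      exact ⟨f, hf, fun i => by rw [hfc]; exact hx i⟩
    · rintro ⟨f, hf, hx⟩ i
      exact ⟨cel (f i), ⟨f i, hf i, rfl⟩, hx i⟩
  rw [h1, integral_biUnion_finset]
  · rfl
  · intro f _
    exact grp_measurableSet_cells _
  · intro f hf g hg hfg
    rw [Finset.mem_coe, Fintype.mem_piFinset] at hf hg
    obtain ⟨i, hi⟩ := Function.ne_iff.1 hfg
    have hne : cel (f i) ≠ cel (g i) := fun h => hi (hinj (hf i) (hg i) h)
    exact Set.disjoint_univ_pi.2 ⟨i, grp_cell_disjoint hne⟩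
  · intro f _
    exact grp_integrableOn_cells hq _

end cells

/-- the exact canonical partition function as a sum over monotone functions -/
theorem zc_reg_eq {d : ℕ} {q : Sp d → ℝ} {r : ℝ} (hq : IsPot q r) (A : Finset ℕ)
    (cel : ℕ → Fin d → ℤ) (hinj : Set.InjOn cel A) (k : ℕ) :
    zc q (reg (A.image cel)) k =
      ∑ f ∈ (Fintype.piFinset fun _ : Fin k => A).filter Monotone,
        (∏ t ∈ A, 1 / (((univ.filter fun i => f i = t).card.factorial : ℕ) : ℝ)) *
          Icell q (fun i => cel (f i)) := by
  rw [zc_reg_all hq A cel hinj k]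
  exact sum_monotone A (fun f => Icell q (fun i => cel (f i)))
    fun σ f => Icell_perm hq (fun i => cel (f i)) σ

/-- monotone functions with the same multiplicities are equal -/
theorem grp_monotone_eq_of_card {k : ℕ} {f g : Fin k → ℕ} (hf : Monotone f) (hg : Monotone g)
    (h : ∀ t, (univ.filter fun i => f i = t).card = (univ.filter fun i => g i = t).card) :
    f = g := by
  have hc : ∀ (f : Fin k → ℕ) (t : ℕ), (List.ofFn f).count t =
      (univ.filter fun i => f i = t).card := by
    intro f t
    rw [List.ofFn_eq_map, List.count, List.countP_map, Finset.card_def]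
    rw [Finset.filter_val, ← Multiset.countP_eq_card_filter]
    rw [show (univ : Finset (Fin k)).val = (List.finRange k : Multiset (Fin k)) from rfl,
      Multiset.coe_countP]
    congr 1
  have hp : (List.ofFn f).Perm (List.ofFn g) := by
    rw [List.perm_iff_count]
    intro t
    rw [hc, hc, h]
  have := hp.eq_of_pairwise' hf.sortedLE_ofFn.pairwise hg.sortedLE_ofFn.pairwise
  exact List.ofFn_injective this

/-- the number of monotone functions -/
theorem card_monotone_le (A : Finset ℕ) (k : ℕ) :
    ((Fintype.piFinset fun _ : Fin k => A).filter Monotone).card ≤ 2 ^ (A.card + k) := by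
  classical
  have hbound : (A.finsuppAntidiag k).card ≤ 2 ^ (A.card + k) := by
    rw [Finset.card_finsuppAntidiag_nat_eq_choose]
    exact (Nat.choose_le_two_pow _ _).trans (Nat.pow_le_pow_right (by norm_num) (by omega))
  refine le_trans ?_ hbound
  let m : (Fin k → ℕ) → ℕ →₀ ℕ := fun f =>
    Finsupp.onFinset (univ.image f) (fun t => (univ.filter fun i => f i = t).card) (by
      intro t ht
      rw [Finset.card_ne_zero] at ht
      obtain ⟨i, hi⟩ := ht
      rw [mem_filter] at hi
      exact mem_image.2 ⟨i, mem_univ _, hi.2⟩)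
  have hm : ∀ f t, m f t = (univ.filter fun i => f i = t).card := fun f t => rfl
  refine Finset.card_le_card_of_injOn m ?_ ?_
  · intro f hf
    rw [Finset.mem_coe, mem_filter, Fintype.mem_piFinset] at hf
    rw [Finset.mem_coe, mem_finsuppAntidiag]
    constructor
    · simp only [hm]
      rw [← Finset.card_eq_sum_card_fiberwise (f := f) (s := univ) (t := A)
        (fun i _ => hf.1 i)]
      simp
    · intro t ht
      rw [Finsupp.mem_support_iff, hm, Finset.card_ne_zero] at ht
      obtain ⟨i, hi⟩ := ht
      rw [mem_filter] at hi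
      rw [← hi.2]
      exact hf.1 i
  · intro f hf g hg hfg
    rw [Finset.mem_coe, mem_filter] at hf hg
    exact grp_monotone_eq_of_card hf.2 hg.2 fun t => by rw [← hm, ← hm, hfg]

/-- the number of monotone functions, weighted with the numbers of neighbours -/
theorem sum_near {d : ℕ} (R : ℕ) : ∃ K : ℝ, 1 ≤ K ∧ ∀ (A : Finset ℕ) (cel : ℕ → Fin d → ℤ),
    Set.InjOn cel A → ∀ k : ℕ,
      ∑ f ∈ (Fintype.piFinset fun _ : Fin k => A).filter Monotone,
        (∏ t ∈ A, 1 / (((univ.filter fun i => f i = t).card.factorial : ℕ) : ℝ)) *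
          ∏ i, (1 + (nearCount R (fun i => cel (f i)) i : ℝ)) ≤ K ^ (A.card + k) := by
  classical
  set P : ℝ := ((2 * R + 1 : ℕ) : ℝ) ^ d with hP
  have hP0 : 0 ≤ P := by positivity
  have hexp : 1 ≤ Real.exp P := Real.one_le_exp hP0
  refine ⟨2 * Real.exp P, by linarith, ?_⟩
  intro A cel hinj k
  -- bound of one term
  have hterm : ∀ f ∈ (Fintype.piFinset fun _ : Fin k => A).filter Monotone,
      (∏ t ∈ A, 1 / (((univ.filter fun i => f i = t).card.factorial : ℕ) : ℝ)) *
          ∏ i, (1 + (nearCount R (fun i => cel (f i)) i : ℝ)) ≤ Real.exp P ^ k := by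
    intro f hf
    rw [mem_filter, Fintype.mem_piFinset] at hf
    set m : ℕ → ℕ := fun t => (univ.filter fun i => f i = t).card with hm
    have hmsum : ∑ t ∈ A, m t = k := by
      rw [hm, ← Finset.card_eq_sum_card_fiberwise (f := f) (s := univ) (t := A)
        (fun i _ => hf.1 i)]
      simp
    set M : ℕ → ℕ := fun s => ∑ t ∈ A.filter (fun t => ∀ u, |cel s u - cel t u| ≤ R), m t with hM
    have h1 : ∀ i, 1 + nearCount R (fun i => cel (f i)) i = M (f i) := by
      intro i
      have h2 : M (f i) = (univ.filter fun j => ∀ u, |cel (f i) u - cel (f j) u| ≤ R).card := by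
        simp only [hM, hm]
        have h3 : ∀ t ∈ A.filter (fun t => ∀ u, |cel (f i) u - cel t u| ≤ R),
            (univ.filter fun i => f i = t).card =
            ((univ.filter fun j => ∀ u, |cel (f i) u - cel (f j) u| ≤ R).filter
              fun j => f j = t).card := by
          intro t ht
          rw [mem_filter] at ht
          congr 1
          ext j
          simp only [mem_filter, mem_univ, true_and]
          constructor
          · rintro rfl
            exact ⟨ht.2, rfl⟩
          · rintro ⟨-, h⟩
            exact h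
        rw [Finset.sum_congr rfl h3, ← Finset.card_eq_sum_card_fiberwise]
        intro j hj
        rw [Finset.mem_coe, mem_filter] at hj ⊢
        exact ⟨hf.1 j, hj.2⟩
      rw [h2, nearCount]
      have h4 : (univ.filter fun j => ∀ u, |cel (f i) u - cel (f j) u| ≤ (R : ℤ)) =
          insert i (univ.filter fun j => j ≠ i ∧ ∀ t, |cel (f i) t - cel (f j) t| ≤ (R : ℤ)) := by
        ext j
        simp only [mem_filter, mem_univ, true_and, mem_insert]
        constructor
        · intro h
          by_cases hj : j = i
          · exact Or.inl hj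
          · exact Or.inr ⟨hj, h⟩
        · rintro (rfl | ⟨-, h⟩)
          · intro u
            simp
          · exact h
      rw [h4, Finset.card_insert_of_notMem (by simp), add_comm]
    have h5 : ∏ i, (1 + (nearCount R (fun i => cel (f i)) i : ℝ)) = ∏ t ∈ A, (M t : ℝ) ^ m t := by
      have h6 : ∀ i, (1 + (nearCount R (fun i => cel (f i)) i : ℝ)) = (M (f i) : ℝ) := by
        intro i
        rw [← h1 i]
        push_cast
        ring
      simp only [h6]
      rw [← Finset.prod_fiberwise_of_maps_to (s := univ) (t := A) (g := f) (fun i _ => hf.1 i)]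
      refine Finset.prod_congr rfl fun t _ => ?_
      rw [Finset.prod_congr rfl (g := fun _ => (M t : ℝ)), Finset.prod_const]
      intro i hi
      rw [mem_filter] at hi
      rw [hi.2]
    have h7 : ∑ t ∈ A, (M t : ℝ) ≤ k * P := by
      have h8 : ∑ t ∈ A, M t = ∑ t ∈ A, m t *
          (A.filter (fun s => ∀ u, |cel s u - cel t u| ≤ R)).card := by
        simp only [hM, Finset.sum_filter]
        rw [Finset.sum_comm]
        refine Finset.sum_congr rfl fun t _ => ?_
        rw [← Finset.sum_filter, Finset.sum_const, smul_eq_mul, mul_comm]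
      have h9 : ∀ t, (A.filter (fun s => ∀ u, |cel s u - cel t u| ≤ R)).card ≤
          (2 * R + 1) ^ d := by
        intro t
        have h10 : (Fintype.piFinset fun u : Fin d =>
            Finset.Icc (cel t u - R) (cel t u + R)).card = (2 * R + 1) ^ d := by
          rw [Fintype.card_piFinset]
          have : ∀ u, (Finset.Icc (cel t u - R) (cel t u + R)).card = 2 * R + 1 := by
            intro u
            rw [Int.card_Icc]
            omega
          simp [this]
        rw [← h10]
        refine Finset.card_le_card_of_injOn cel ?_ ?_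
        · intro s hs
          rw [Finset.mem_coe, mem_filter] at hs
          rw [Finset.mem_coe, Fintype.mem_piFinset]
          intro u
          have := abs_le.1 (hs.2 u)
          rw [Finset.mem_Icc]
          constructor <;> linarith [this.1, this.2]
        · intro s hs s' hs' h
          rw [Finset.mem_coe, mem_filter] at hs hs'
          exact hinj hs.1 hs'.1 h
      have h11 : ∑ t ∈ A, M t ≤ k * (2 * R + 1) ^ d := by
        rw [h8, ← hmsum, Finset.sum_mul]
        exact Finset.sum_le_sum fun t _ => Nat.mul_le_mul_left _ (h9 t)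
      have h12 : ((∑ t ∈ A, M t : ℕ) : ℝ) ≤ ((k * (2 * R + 1) ^ d : ℕ) : ℝ) := by
        exact_mod_cast h11
      rw [Nat.cast_sum] at h12
      rw [hP]
      push_cast at h12 ⊢
      exact h12
    rw [h5]
    change (∏ t ∈ A, 1 / ((m t).factorial : ℝ)) * ∏ t ∈ A, (M t : ℝ) ^ m t ≤ _
    rw [← Finset.prod_mul_distrib]
    clear_value M m
    clear h5 h1 hM hm hmsum
    calc ∏ t ∈ A, (1 / ((m t).factorial : ℝ) * (M t : ℝ) ^ m t)
        ≤ ∏ t ∈ A, Real.exp (M t) := by
          refine Finset.prod_le_prod (fun t _ => mul_nonneg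
            (one_div_nonneg.2 (Nat.cast_nonneg _)) (pow_nonneg (Nat.cast_nonneg _) _)) fun t _ => ?_
          rw [one_div, mul_comm, ← div_eq_mul_inv]
          exact Real.pow_div_factorial_le_exp _ (Nat.cast_nonneg _) _
      _ = Real.exp (∑ t ∈ A, (M t : ℝ)) := (Real.exp_sum _ _).symm
      _ ≤ Real.exp (k * P) := Real.exp_le_exp.2 h7
      _ = Real.exp P ^ k := by rw [← Real.exp_nat_mul]
  calc _ ≤ ∑ _f ∈ (Fintype.piFinset fun _ : Fin k => A).filter Monotone, Real.exp P ^ k :=
        Finset.sum_le_sum hterm
    _ = (((Fintype.piFinset fun _ : Fin k => A).filter Monotone).card : ℝ) * Real.exp P ^ k := by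
        rw [Finset.sum_const, nsmul_eq_mul]
    _ ≤ 2 ^ (A.card + k) * Real.exp P ^ (A.card + k) := by
        refine mul_le_mul ?_ ?_ (by positivity) (by positivity)
        · exact_mod_cast card_monotone_le A k
        · exact pow_le_pow_right₀ hexp (by omega)
    _ = (2 * Real.exp P) ^ (A.card + k) := (mul_pow _ _ _).symm

end Pool.Agent.Lib.P8e91ed
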