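import Pool.Agent.Lib.P8e91ed.Defs

/-!
Module HardSphere for MP_8e91ed_lc: the averaged modulus of continuity of hard spheres.
-/

set_option autoImplicit false
set_option linter.unusedVariables false

open MeasureTheory Finset

noncomputable section

namespace Pool.Agent.Lib.P8e91ed

/-- Boltzmann factor of hard spheres at distance `ρ` -/
def hs {d : ℕ} (ρ : ℝ) (x : Sp d) : ℝ := if ‖x‖ < ρ then 0 else 1

lemma pow_sub_pow_le_aux {A a b : ℝ} (hA : 1 ≤ A) (ha : a ≤ A) (hb : 0 ≤ b) (hab : b ≤ a)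
    (n : ℕ) : a ^ n - b ^ n ≤ n * A ^ n * (a - b) := by
  induction n with
  | zero => simp
  | succ n ih =>
    have h1 : a ^ (n + 1) - b ^ (n + 1) = a * (a ^ n - b ^ n) + (a - b) * b ^ n := by ring
    have h2 : b ^ n ≤ A ^ n := pow_le_pow_left₀ hb (hab.trans ha) n
    have h3 : A ^ n ≤ A ^ (n + 1) := pow_le_pow_right₀ hA (Nat.le_succ n)
    have h4 : 0 ≤ a - b := sub_nonneg.2 hab
    have h5 : 0 ≤ a ^ n - b ^ n := sub_nonneg.2 (pow_le_pow_left₀ hb hab n)
    have h6 : a * (a ^ n - b ^ n) ≤ A * (n * A ^ n * (a - b)) :=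
      mul_le_mul ha ih h5 (by linarith)
    have h7 : (a - b) * b ^ n ≤ (a - b) * A ^ (n + 1) :=
      mul_le_mul_of_nonneg_left (h2.trans h3) h4
    rw [h1]
    push_cast
    calc a * (a ^ n - b ^ n) + (a - b) * b ^ n ≤
        A * (n * A ^ n * (a - b)) + (a - b) * A ^ (n + 1) := add_le_add h6 h7
      _ = ((n : ℝ) + 1) * A ^ (n + 1) * (a - b) := by ring

theorem holderAvg_hs {d : ℕ} (hd : 1 ≤ d) {ρ : ℝ} (hρ : 0 < ρ) :
    ∃ C : ℝ, HolderAvg (hs (d := d) ρ) C 1 := by
  set c : ℝ := (volume (Metric.ball (0 : Sp d) 1)).toReal with hc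
  have hc0 : 0 ≤ c := ENNReal.toReal_nonneg
  refine ⟨c * (d * (ρ + 1) ^ d * 2), ?_⟩
  intro δ hδ hδ1
  have : Nontrivial (Sp d) := by
    have : Nonempty (Fin d) := ⟨⟨0, hd⟩⟩
    infer_instance
  set b : ℝ := max (ρ - δ) 0 with hb
  set S : Set (Sp d) := Metric.ball (0 : Sp d) (ρ + δ) \ Metric.ball (0 : Sp d) b with hS
  have hSm : MeasurableSet S := measurableSet_ball.diff measurableSet_ball
  have hfin : volume S ≠ ⊤ := by
    refine ne_top_of_le_ne_top ?_ (measure_mono Set.sdiff_subset)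
    exact measure_ball_lt_top.ne
  refine ⟨S.indicator 1, measurable_one.indicator hSm, ?_, ?_, ?_, ?_⟩
  · intro x
    exact Set.indicator_nonneg (fun _ _ => zero_le_one) x
  · rw [integrable_indicator_iff hSm]
    exact integrableOn_const (hs := hfin) (hC := by simp)
  · intro x y z hy hz
    by_cases hx : x ∈ S
    · rw [Set.indicator_of_mem hx]
      unfold hs
      split_ifs <;> simp
    · rw [Set.indicator_of_notMem hx]
      have hcase : ρ + δ ≤ ‖x‖ ∨ ‖x‖ < b := by
        by_contra hcon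
        push Not at hcon
        apply hx
        rw [hS]
        refine ⟨?_, ?_⟩
        · rw [mem_ball_zero_iff]; exact hcon.1
        · rw [mem_ball_zero_iff, not_lt]; exact hcon.2
      have hyx : |‖y‖ - ‖x‖| < δ := lt_of_le_of_lt (abs_norm_sub_norm_le y x) hy
      have hzx : |‖z‖ - ‖x‖| < δ := lt_of_le_of_lt (abs_norm_sub_norm_le z x) hz
      rw [abs_lt] at hyx hzx
      rcases hcase with h | h
      · have h1 : ¬ ‖y‖ < ρ := by linarith [hyx.1]
        have h2 : ¬ ‖z‖ < ρ := by linarith [hzx.1]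
        simp [hs, h1, h2]
      · have hb2 : ‖x‖ < ρ - δ := by
          rw [hb] at h
          rcases lt_max_iff.1 h with h | h
          · exact h
          · exact absurd (norm_nonneg x) (not_le.2 h)
        have h1 : ‖y‖ < ρ := by linarith [hyx.2]
        have h2 : ‖z‖ < ρ := by linarith [hzx.2]
        simp [hs, h1, h2]
  · rw [integral_indicator_one hSm, Real.rpow_one]
    have hb0 : 0 ≤ b := le_max_right _ _
    have hbl : b ≤ ρ + δ := max_le (by linarith) (by linarith)
    have hsub : Metric.ball (0 : Sp d) b ⊆ Metric.ball (0 : Sp d) (ρ + δ) :=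
      Metric.ball_subset_ball hbl
    have h1 : volume.real S = volume.real (Metric.ball (0 : Sp d) (ρ + δ)) -
        volume.real (Metric.ball (0 : Sp d) b) := by
      rw [hS]
      exact measureReal_sdiff hsub measurableSet_ball
    have hv : ∀ t : ℝ, 0 ≤ t → volume.real (Metric.ball (0 : Sp d) t) = t ^ d * c := by
      intro t ht
      rw [measureReal_def, Measure.addHaar_ball volume (0 : Sp d) ht, ENNReal.toReal_mul,
        ENNReal.toReal_ofReal (by positivity), finrank_euclideanSpace_fin]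
    rw [h1, hv _ (by linarith), hv _ hb0]
    have h2 := pow_sub_pow_le_aux (A := ρ + 1) (a := ρ + δ) (b := b) (by linarith)
      (by linarith) hb0 hbl d
    have h3 : ρ + δ - b ≤ 2 * δ := by
      have := le_max_left (ρ - δ) 0
      rw [← hb] at this
      linarith
    calc (ρ + δ) ^ d * c - b ^ d * c = c * ((ρ + δ) ^ d - b ^ d) := by ring
      _ ≤ c * (d * (ρ + 1) ^ d * (ρ + δ - b)) := mul_le_mul_of_nonneg_left h2 hc0
      _ ≤ c * (d * (ρ + 1) ^ d * (2 * δ)) := by
          refine mul_le_mul_of_nonneg_left ?_ hc0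
          exact mul_le_mul_of_nonneg_left h3 (by positivity)
      _ = c * (d * (ρ + 1) ^ d * 2) * δ := by ring

end Pool.Agent.Lib.P8e91ed
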