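import Pool.Agent.Lib.P8e91ed.Final
import Pool.Agent.Lib.P8e91ed.ExpApprox

/-!
Correctness of the approximation scheme.
-/

set_option autoImplicit false

open MeasureTheory Finset

noncomputable section

namespace Pool.Agent.Lib.P8e91ed

theorem partitionFunction_eq {d : ℕ} (q : Sp d → ℝ) (Λ : Set (Sp d)) (lam : ℝ) :
    partitionFunction q Λ lam = (Zc q Λ (lam : ℂ)).re := by
  unfold partitionFunction Zc
  have h : ∀ k : ℕ, (zc q Λ k : ℂ) * (lam : ℂ) ^ k = ((lam ^ k / (k.factorial : ℝ) *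
      ∫ x in Set.univ.pi (fun _ : Fin k => Λ), inter q x : ℝ) : ℂ) := by
    intro k
    unfold zc
    push_cast
    ring
  simp_rw [h]
  rw [← Complex.ofReal_tsum, Complex.ofReal_re]

theorem Z_bounds {d : ℕ} {q : Sp d → ℝ} {r : ℝ} (hq : IsPot q r) {Y : Set (Sp d)}
    (hY : MeasurableSet Y) (hb : Bornology.IsBounded Y) {s : ℝ} (hs : 0 ≤ s) :
    1 ≤ (Zc q Y s).re ∧ (Zc q Y s).re ≤ Real.exp (s * (volume Y).toReal) := by
  rw [Zc_ofReal hq hY hb s, Complex.ofReal_re]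
  have h1 : Integrable (Y.indicator (1 : Sp d → ℝ)) := by
    rw [integrable_indicator_iff hY]
    exact integrableOn_const (hb.measure_lt_top.ne)
  have h2 : Integrable (fun x => s * Y.indicator (1 : Sp d → ℝ) x) := h1.const_mul s
  have h3 : Measurable (fun x => s * Y.indicator (1 : Sp d → ℝ) x) :=
    (measurable_one.indicator hY).const_mul s
  have h4 : ∀ x, 0 ≤ s * Y.indicator (1 : Sp d → ℝ) x := fun x =>
    mul_nonneg hs (Set.indicator_nonneg (fun _ _ => zero_le_one) x)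
  refine ⟨ZW_one_le hq h3 h4 h2, (ZW_le_exp hq h3 h4 h2).trans ?_⟩
  rw [integral_const_mul, integral_indicator_one hY]
  rfl

theorem walkIntegral_nonneg {d : ℕ} {q : Sp d → ℝ} {r : ℝ} (hq : IsPot q r) (k : ℕ) :
    0 ≤ walkIntegral q k := by
  unfold walkIntegral
  refine integral_nonneg fun v => Finset.prod_nonneg fun j _ => mul_nonneg
    (Finset.prod_nonneg fun i _ => ?_) (by linarith [hq.le_one (path v j - path v (j - 1))])
  split_ifs
  · exact hq.nonneg _
  · exact zero_le_one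

theorem exists_walk {d : ℕ} {q : Sp d → ℝ} {r : ℝ} (hq : IsPot q r) {lam : ℝ} (h0 : 0 ≤ lam)
    (h : lam * connectiveConstant q < Real.exp 1) :
    ∃ k : ℕ, (lam / Real.exp 1) ^ k * walkIntegral q k < 1 := by
  have he := Real.exp_pos 1
  rcases h0.eq_or_lt with h0 | h0
  · refine ⟨1, ?_⟩
    rw [← h0]
    simp
  · have h1 : connectiveConstant q < Real.exp 1 / lam := by
      rw [lt_div_iff₀ h0, mul_comm]
      exact h
    obtain ⟨k, hk⟩ := exists_lt_of_ciInf_lt h1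
    refine ⟨k + 1, ?_⟩
    have hV := walkIntegral_nonneg hq (k + 1)
    have h2 : walkIntegral q (k + 1) < (Real.exp 1 / lam) ^ (k + 1) := by
      have h3 : ((walkIntegral q (k + 1)) ^ (1 / ((k : ℝ) + 1))) ^ (k + 1) <
          (Real.exp 1 / lam) ^ (k + 1) :=
        pow_lt_pow_left₀ hk (Real.rpow_nonneg hV _) (by omega)
      rw [← Real.rpow_natCast, ← Real.rpow_mul hV] at h3
      have e : 1 / ((k : ℝ) + 1) * ((k + 1 : ℕ) : ℝ) = 1 := by
        push_cast
        field_simp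
      rw [e, Real.rpow_one] at h3
      exact h3
    calc (lam / Real.exp 1) ^ (k + 1) * walkIntegral q (k + 1)
        < (lam / Real.exp 1) ^ (k + 1) * (Real.exp 1 / lam) ^ (k + 1) :=
          mul_lt_mul_of_pos_left h2 (by positivity)
      _ = 1 := by
          rw [← mul_pow, div_mul_div_comm, mul_comm (Real.exp 1), div_self (by positivity), one_pow]

/-- Correctness of the scheme. -/
theorem scheme_correct {d : ℕ} (hd : 1 ≤ d) {q : Sp d → ℝ} {r : ℝ} (hq : IsPot q r) {Ch α : ℝ}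
    (hα : 0 < α) (hreg : HolderAvg q Ch α) (a b : ℕ) (hb : 0 < b)
    (hlam : (a : ℝ) / b * connectiveConstant q < Real.exp 1) :
    ∃ (R D : ℕ) (A : ℕ → ℕ) (K1 K2 K3 K4 : ℕ), ∀ (N M : ℕ) (ans : List ℚ), 1 ≤ N → 1 ≤ M →
        Valid q R (K2 * lg N M) (K3 * lg N M) ans →
        0 < ((⟨d, R, a, b, D, A, K1, K2, K3, K4⟩ : Consts).out (N, M, ans)).2 ∧
        |((((⟨d, R, a, b, D, A, K1, K2, K3, K4⟩ : Consts).out (N, M, ans)).1 : ℕ) : ℝ) /
            ((((⟨d, R, a, b, D, A, K1, K2, K3, K4⟩ : Consts).out (N, M, ans)).2 : ℕ) : ℝ) -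
          partitionFunction q (box d N) ((a : ℝ) / b)| ≤
          1 / M * partitionFunction q (box d N) ((a : ℝ) / b) := by
  obtain ⟨k, hk⟩ := exists_walk hq (by positivity) hlam
  obtain ⟨R, D, A, K1, K2, K3, hR, hA, h⟩ := log_approx hd hq hα hreg a b hb hk
  obtain ⟨K4, hK4⟩ := exists_nat_ge (4 * (((a : ℝ) / b + 1) * 2 ^ d) ^ 2)
  refine ⟨R, D, A, K1, K2, K3, K4, ?_⟩
  intro N M ans hN hM hv
  have h1 := h K4 N M ans hN hM hv
  set C : Consts := ⟨d, R, a, b, D, A, K1, K2, K3, K4⟩ with hC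
  set I := C.inst (N, M, ans) with hI
  set lam0 : ℝ := (a : ℝ) / b with hlam0
  have hl0 : 0 ≤ lam0 := by positivity
  have hDen : 0 < I.Den := by
    unfold Inst.Den
    have h1 := Nat.factorial_pos I.m
    have h2 : 0 < I.SA := hA
    have h3 : 0 < I.b := hb
    have h4 := I.DD_pos
    positivity
  have hDen' : (0 : ℝ) < I.Den := by exact_mod_cast hDen
  have hZb := Z_bounds hq (measurableSet_reg (boxCells d N)) (isBounded_reg (boxCells d N)) hl0
  rw [← Zc_box, volume_reg, card_boxCells] at hZb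
  rw [partitionFunction_eq]
  set Z : ℝ := (Zc q (box d N) (lam0 : ℂ)).re with hZ
  have hlog0 : 0 ≤ Real.log Z := Real.log_nonneg hZb.1
  have hlog1 : Real.log Z ≤ lam0 * ((2 * N) ^ d : ℕ) := by
    have := Real.log_le_log (by linarith [hZb.1]) hZb.2
    rwa [Real.log_exp] at this
  have hM' : (1 : ℝ) ≤ M := by exact_mod_cast hM
  have hN' : (1 : ℝ) ≤ N := by exact_mod_cast hN
  -- the positive part of the numerator
  have hx : ((I.Num.toNat : ℕ) : ℝ) / I.Den = max ((I.Num : ℝ) / I.Den) 0 := by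
    rcases le_total 0 I.Num with h2 | h2
    · have e : ((I.Num.toNat : ℕ) : ℝ) = (I.Num : ℝ) := by
        have := Int.toNat_of_nonneg h2
        exact_mod_cast congrArg (fun z : ℤ => (z : ℝ)) this
      rw [e, max_eq_left]
      have : (0 : ℝ) ≤ I.Num := by exact_mod_cast h2
      positivity
    · have e : I.Num.toNat = 0 := Int.toNat_of_nonpos h2
      rw [e, max_eq_right]
      · simp
      · have : (I.Num : ℝ) ≤ 0 := by exact_mod_cast h2
        exact div_nonpos_of_nonpos_of_nonneg this hDen'.le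
  have hx2 : |((I.Num.toNat : ℕ) : ℝ) / I.Den - Real.log Z| ≤ 1 / (4 * M) := by
    rw [hx]
    have e := abs_max_sub_max_le_abs ((I.Num : ℝ) / I.Den) (Real.log Z) 0
    rw [max_eq_left hlog0] at e
    exact e.trans h1
  set x : ℝ := ((I.Num.toNat : ℕ) : ℝ) / I.Den with hxdef
  have hx0 : 0 ≤ x := by positivity
  set L : ℝ := (lam0 + 1) * 2 ^ d * ((N : ℝ) + 1) ^ d with hL
  have hxL : x ≤ L := by
    have h2 := (abs_le.1 hx2).2
    have h3 : (1 : ℝ) / (4 * M) ≤ 1 := by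
      rw [div_le_one (by positivity)]
      linarith
    have h4 : (1 : ℝ) ≤ (((2 * N) ^ d : ℕ) : ℝ) := by
      have : 1 ≤ (2 * N) ^ d := Nat.one_le_pow _ _ (by omega)
      exact_mod_cast this
    calc x ≤ lam0 * ((2 * N) ^ d : ℕ) + ((2 * N) ^ d : ℕ) := by linarith
      _ = (lam0 + 1) * (2 ^ d * (N : ℝ) ^ d) := by push_cast; rw [mul_pow]; ring
      _ ≤ (lam0 + 1) * (2 ^ d * ((N : ℝ) + 1) ^ d) := by
          gcongr
          linarith
      _ = L := by rw [hL]; ring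
  have hL1 : 1 ≤ L := by
    rw [hL]
    have c1 : (1 : ℝ) ≤ 2 ^ d := one_le_pow₀ (by norm_num)
    have c2 : (1 : ℝ) ≤ ((N : ℝ) + 1) ^ d := one_le_pow₀ (by linarith)
    exact one_le_mul_of_one_le_of_one_le (one_le_mul_of_one_le_of_one_le (by linarith) c1) c2
  have hQ : 4 * M * L ^ 2 ≤ ((C.Qe (N, M, ans) : ℕ) : ℝ) := by
    have e : ((C.Qe (N, M, ans) : ℕ) : ℝ) = K4 * M * ((N : ℝ) + 1) ^ (2 * d) := by
      simp only [Consts.Qe, hC]
      push_cast
      ring
    rw [e, hL]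
    calc 4 * (M : ℝ) * ((lam0 + 1) * 2 ^ d * ((N : ℝ) + 1) ^ d) ^ 2
        = (4 * ((lam0 + 1) * 2 ^ d) ^ 2) * M * ((N : ℝ) + 1) ^ (2 * d) := by
          rw [mul_pow _ (((N : ℝ) + 1) ^ d), ← pow_mul, mul_comm d 2]
          ring
      _ ≤ K4 * M * ((N : ℝ) + 1) ^ (2 * d) := by gcongr
  have hfin := exp_approx hM hx0 hxL hL1 (by linarith [hZb.1]) hx2 hQ
  have hQ0 : (0 : ℝ) < ((C.Qe (N, M, ans) : ℕ) : ℝ) := by
    have : 0 < 4 * (M : ℝ) * L ^ 2 := by positivity
    linarith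
  have hout : (((C.out (N, M, ans)).1 : ℕ) : ℝ) / (((C.out (N, M, ans)).2 : ℕ) : ℝ) =
      (1 + x / ((C.Qe (N, M, ans) : ℕ) : ℝ)) ^ C.Qe (N, M, ans) := by
    unfold Consts.out
    simp only
    rw [← hI]
    push_cast
    rw [← div_pow]
    congr 1
    rw [hxdef]
    field_simp
  refine ⟨?_, ?_⟩
  · have h2 : 0 < C.Qe (N, M, ans) := by exact_mod_cast hQ0
    unfold Consts.out
    simp only
    rw [← hI]
    positivity
  · rw [hout]
    exact hfin

end Pool.Agent.Lib.P8e91ed
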