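import Pool.Agent.Lib.P8e91ed.Defs

/-!
Bound for mixed differences of products of pair factors (module MixedDiff of MP_8e91ed_lc).
-/

set_option autoImplicit false

open MeasureTheory Finset

noncomputable section

namespace Pool.Agent.Lib.P8e91ed

/-- product of the pair factors -/
private def PP {k : ℕ} (f : Fin k → Fin k → Bool → Bool → ℝ) (e : Fin k → Bool) : ℝ :=
  ∏ i, ∏ j, if i < j then f i j (e i) (e j) else 1

/-- mixed difference in the variables of `J` -/
private def SS {k : ℕ} (J : Finset (Fin k)) (G : (Fin k → Bool) → ℝ) : ℝ :=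
  ∑ e ∈ (univ : Finset (Fin k → Bool)).filter (fun e => ∀ i, e i = true → i ∈ J),
    (-1 : ℝ) ^ (univ.filter fun i => e i = true).card * G e

private lemma SS_sum {k : ℕ} {ι : Type*} (s : Finset ι) (J : Finset (Fin k))
    (G : ι → (Fin k → Bool) → ℝ) :
    SS J (fun e => ∑ a ∈ s, G a e) = ∑ a ∈ s, SS J (G a) := by
  unfold SS
  rw [Finset.sum_comm]
  refine Finset.sum_congr rfl fun e _ => ?_
  rw [Finset.mul_sum]

private lemma SS_mul {k : ℕ} (J : Finset (Fin k)) (c : ℝ) (G : (Fin k → Bool) → ℝ) :
    SS J (fun e => c * G e) = c * SS J G := by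
  unfold SS
  rw [Finset.mul_sum]
  refine Finset.sum_congr rfl fun e _ => ?_
  ring

private lemma card_update {k : ℕ} (i0 : Fin k) (e : Fin k → Bool) (he : e i0 = false) :
    (univ.filter fun i => Function.update e i0 true i = true).card =
      (univ.filter fun i => e i = true).card + 1 := by
  have : (univ.filter fun i => Function.update e i0 true i = true) =
      insert i0 (univ.filter fun i => e i = true) := by
    ext i
    simp only [mem_filter, mem_univ, true_and, mem_insert]
    by_cases h : i = i0
    · subst h; simp
    · simp [h]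
  rw [this, Finset.card_insert_of_notMem (by simp [he])]

private lemma SS_insert {k : ℕ} {i0 : Fin k} {J : Finset (Fin k)} (hi0 : i0 ∉ J)
    (G : (Fin k → Bool) → ℝ) :
    SS (insert i0 J) G = SS J (fun e => G e - G (Function.update e i0 true)) := by
  unfold SS
  rw [← Finset.sum_filter_add_sum_filter_not _ (fun e : Fin k → Bool => e i0 = false)]
  have h1 : ((univ : Finset (Fin k → Bool)).filter
      (fun e => ∀ i, e i = true → i ∈ insert i0 J)).filter (fun e => e i0 = false) =
      (univ : Finset (Fin k → Bool)).filter (fun e => ∀ i, e i = true → i ∈ J) := by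
    ext e
    simp only [mem_filter, mem_univ, true_and, mem_insert]
    constructor
    · rintro ⟨h, h'⟩ i hi
      rcases h i hi with rfl | h2
      · rw [h'] at hi; exact absurd hi (by simp)
      · exact h2
    · intro h
      refine ⟨fun i hi => Or.inr (h i hi), ?_⟩
      by_contra h'
      exact hi0 (h i0 (by simpa using h'))
  rw [h1]
  have h2 : ∑ e ∈ ((univ : Finset (Fin k → Bool)).filter
      (fun e => ∀ i, e i = true → i ∈ insert i0 J)).filter (fun e => ¬ e i0 = false),
      (-1 : ℝ) ^ (univ.filter fun i => e i = true).card * G e =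
      ∑ e ∈ (univ : Finset (Fin k → Bool)).filter (fun e => ∀ i, e i = true → i ∈ J),
        -((-1 : ℝ) ^ (univ.filter fun i => e i = true).card * G (Function.update e i0 true)) := by
    symm
    refine Finset.sum_bij' (fun e _ => Function.update e i0 true)
      (fun e _ => Function.update e i0 false) ?_ ?_ ?_ ?_ ?_
    · intro e he
      simp only [mem_filter, mem_univ, true_and, mem_insert] at he ⊢
      refine ⟨fun i hi => ?_, by simp⟩
      by_cases h : i = i0
      · exact Or.inl h
      · rw [Function.update_of_ne h] at hi
        exact Or.inr (he i hi)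
    · intro e he
      simp only [mem_filter, mem_univ, true_and, mem_insert] at he ⊢
      intro i hi
      by_cases h : i = i0
      · subst h; simp at hi
      · rw [Function.update_of_ne h] at hi
        rcases he.1 i hi with h' | h'
        · exact absurd h' h
        · exact h'
    · intro e he
      simp only [mem_filter, mem_univ, true_and] at he
      have hf : e i0 = false := by
        by_contra h'
        exact hi0 (he i0 (by simpa using h'))
      simp only [Function.update_idem]
      rw [← hf, Function.update_eq_self]
    · intro e he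
      simp only [mem_filter, mem_univ, true_and, mem_insert] at he
      have hf : e i0 = true := by simpa using he.2
      simp only [Function.update_idem]
      rw [← hf, Function.update_eq_self]
    · intro e he
      simp only [mem_filter, mem_univ, true_and] at he
      have hf : e i0 = false := by
        by_contra h'
        exact hi0 (he i0 (by simpa using h'))
      rw [card_update i0 e hf, pow_succ]
      ring
  rw [h2, ← Finset.sum_add_distrib]
  refine Finset.sum_congr rfl fun e _ => ?_
  ring

/-- factor of the pair `{i0, j}` with the variable of `i0` first -/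
private def hh {k : ℕ} (f : Fin k → Fin k → Bool → Bool → ℝ) (i0 j : Fin k) (s t : Bool) : ℝ :=
  if i0 < j then f i0 j s t else if j < i0 then f j i0 t s else 1

/-- pair factors with those of `i0` removed -/
private def ff {k : ℕ} (f : Fin k → Fin k → Bool → Bool → ℝ) (i0 : Fin k) :
    Fin k → Fin k → Bool → Bool → ℝ :=
  fun i j s t => if i = i0 ∨ j = i0 then 1 else f i j s t

private lemma PP_split {k : ℕ} (f : Fin k → Fin k → Bool → Bool → ℝ) (i0 : Fin k)
    (e : Fin k → Bool) :
    PP f e = (∏ j, hh f i0 j (e i0) (e j)) * PP (ff f i0) e := by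
  unfold PP
  have h1 : ∀ i j : Fin k, (if i < j then f i j (e i) (e j) else 1) =
      (if i = i0 then (if i0 < j then f i0 j (e i0) (e j) else 1) else 1) *
      ((if j = i0 then (if i < i0 then f i i0 (e i) (e i0) else 1) else 1) *
      (if i < j then ff f i0 i j (e i) (e j) else 1)) := by
    intro i j
    by_cases hi : i = i0
    · subst hi
      by_cases hj : j = i
      · subst hj; simp
      · simp only [if_true, if_neg hj, ff, true_or, ite_self, mul_one]
    · by_cases hj : j = i0
      · subst hj; simp only [hi, if_false, if_true, one_mul, ff, or_true, ite_self, mul_one]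
      · simp [hi, hj, ff]
  rw [Finset.prod_congr rfl fun i _ => Finset.prod_congr rfl fun j _ => h1 i j]
  simp only [Finset.prod_mul_distrib]
  have h2 : (∏ i : Fin k, ∏ j : Fin k,
      if i = i0 then (if i0 < j then f i0 j (e i0) (e j) else 1) else 1) =
      ∏ j, (if i0 < j then f i0 j (e i0) (e j) else 1) := by
    rw [Finset.prod_comm]
    refine Finset.prod_congr rfl fun j _ => ?_
    rw [Finset.prod_ite_eq' univ i0]
    simp
  have h3 : (∏ i : Fin k, ∏ j : Fin k,
      if j = i0 then (if i < i0 then f i i0 (e i) (e i0) else 1) else 1) =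
      ∏ i, (if i < i0 then f i i0 (e i) (e i0) else 1) := by
    refine Finset.prod_congr rfl fun j _ => ?_
    rw [Finset.prod_ite_eq' univ i0]
    simp
  rw [h2, h3, ← mul_assoc, ← Finset.prod_mul_distrib]
  congr 1
  refine Finset.prod_congr rfl fun j _ => ?_
  unfold hh
  rcases lt_trichotomy i0 j with h | h | h
  · simp [h, h.le.not_gt]
  · subst h; simp
  · simp [h, h.le.not_gt]

private lemma PP_ff_update {k : ℕ} (f : Fin k → Fin k → Bool → Bool → ℝ) (i0 : Fin k)
    (e : Fin k → Bool) (s : Bool) :
    PP (ff f i0) (Function.update e i0 s) = PP (ff f i0) e := by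
  unfold PP
  refine Finset.prod_congr rfl fun i _ => Finset.prod_congr rfl fun j _ => ?_
  by_cases hi : i = i0
  · simp [ff, hi]
  · by_cases hj : j = i0
    · simp [ff, hj]
    · simp [ff, hi, hj]

private lemma vr_nonneg {k : ℕ} (f : Fin k → Fin k → Bool → Bool → ℝ) (i j : Fin k) :
    0 ≤ vr f i j := by
  unfold vr
  split_ifs
  · exact le_max_of_le_left (abs_nonneg _)
  · exact le_max_of_le_left (abs_nonneg _)

private lemma vr_hh {k : ℕ} (f : Fin k → Fin k → Bool → Bool → ℝ) {i j : Fin k} (hij : i ≠ j)
    (t : Bool) : |hh f i j false t - hh f i j true t| ≤ vr f i j := by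
  unfold vr hh
  rcases lt_or_gt_of_ne hij with h | h
  · simp only [h, if_true]
    cases t
    · exact le_max_left _ _
    · exact le_max_right _ _
  · simp only [h, h.le.not_gt, if_true, if_false]
    cases t
    · exact le_max_left _ _
    · exact le_max_right _ _

private lemma hh_comm {k : ℕ} (f : Fin k → Fin k → Bool → Bool → ℝ) (i j : Fin k)
    (s t : Bool) : hh f i j s t = hh f j i t s := by
  unfold hh
  rcases lt_trichotomy i j with h | h | h
  · simp [h, h.le.not_gt]
  · subst h; simp
  · simp [h, h.le.not_gt]

private lemma vr_hh' {k : ℕ} (f : Fin k → Fin k → Bool → Bool → ℝ) {i j : Fin k} (hij : i ≠ j)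
    (s : Bool) : |hh f i j s false - hh f i j s true| ≤ vr f j i := by
  rw [hh_comm f i j s false, hh_comm f i j s true]
  exact vr_hh f hij.symm s

private lemma hh_nonneg {k : ℕ} {f : Fin k → Fin k → Bool → Bool → ℝ}
    (h0 : ∀ i j s t, 0 ≤ f i j s t) (i j : Fin k) (s t : Bool) : 0 ≤ hh f i j s t := by
  unfold hh
  split_ifs
  · exact h0 _ _ _ _
  · exact h0 _ _ _ _
  · exact zero_le_one

private lemma hh_le_one {k : ℕ} {f : Fin k → Fin k → Bool → Bool → ℝ}
    (h1 : ∀ i j s t, f i j s t ≤ 1) (i j : Fin k) (s t : Bool) : hh f i j s t ≤ 1 := by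
  unfold hh
  split_ifs
  · exact h1 _ _ _ _
  · exact h1 _ _ _ _
  · exact le_rfl

private lemma vr_le_one {k : ℕ} {f : Fin k → Fin k → Bool → Bool → ℝ}
    (h0 : ∀ i j s t, 0 ≤ f i j s t) (h1 : ∀ i j s t, f i j s t ≤ 1) (i j : Fin k) :
    vr f i j ≤ 1 := by
  have key : ∀ i j s t i' j' s' t', |f i j s t - f i' j' s' t'| ≤ 1 := by
    intro i j s t i' j' s' t'
    rw [abs_le]
    constructor
    · linarith [h0 i j s t, h1 i' j' s' t']
    · linarith [h1 i j s t, h0 i' j' s' t']
  unfold vr
  split_ifs
  · exact max_le (key _ _ _ _ _ _ _ _) (key _ _ _ _ _ _ _ _)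
  · exact max_le (key _ _ _ _ _ _ _ _) (key _ _ _ _ _ _ _ _)

private lemma vr_ff {k : ℕ} (f : Fin k → Fin k → Bool → Bool → ℝ) {i0 l : Fin k} (m : Fin k)
    (hl : l ≠ i0) : vr (ff f i0) l m = if m = i0 then 0 else vr f l m := by
  unfold vr ff
  by_cases hm : m = i0
  · subst hm; simp
  · simp [hl, hm]

/-- a product of two functions bounded by one -/
private lemma var_mul {a a' b b' α β : ℝ} (ha : |a| ≤ 1) (hb' : |b'| ≤ 1) (h : |a - a'| ≤ α)
    (h' : |b - b'| ≤ β) : |a * b - a' * b'| ≤ α + β := by
  have : a * b - a' * b' = a * (b - b') + (a - a') * b' := by ring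
  rw [this]
  calc |a * (b - b') + (a - a') * b'| ≤ |a * (b - b')| + |(a - a') * b'| := abs_add_le _ _
    _ = |a| * |b - b'| + |a - a'| * |b'| := by rw [abs_mul, abs_mul]
    _ ≤ 1 * β + α * 1 := by
        have hα : 0 ≤ α := (abs_nonneg _).trans h
        have hβ : 0 ≤ β := (abs_nonneg _).trans h'
        gcongr
    _ = α + β := by ring

/-- the difference of a pair factor as a multiple of a unary factor of small variation -/
private lemma factor_exists {k : ℕ} {f : Fin k → Fin k → Bool → Bool → ℝ}
    (h0 : ∀ i j s t, 0 ≤ f i j s t) (h1 : ∀ i j s t, f i j s t ≤ 1) {i j : Fin k} (hij : i ≠ j) :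
    ∃ w : Bool → ℝ, (∀ t, hh f i j false t - hh f i j true t = Real.sqrt (vr f i j) * w t) ∧
      (∀ t, |w t| ≤ 1) ∧ |w false - w true| ≤ 2 * Real.sqrt (vr f j i) := by
  have hv0 := vr_nonneg f i j
  have hv0' := vr_nonneg f j i
  have hv1 := vr_le_one h0 h1 i j
  rcases hv0.eq_or_lt with hv | hv
  · refine ⟨fun _ => 0, ?_, ?_, ?_⟩
    · intro t
      have := vr_hh f hij t
      rw [← hv] at this
      have := abs_nonpos_iff.1 this
      rw [this]; simp
    · intro t; simp
    · simp [Real.sqrt_nonneg]
  · have hs : 0 < Real.sqrt (vr f i j) := Real.sqrt_pos.2 hv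
    have hss : Real.sqrt (vr f i j) * Real.sqrt (vr f i j) = vr f i j := Real.mul_self_sqrt hv0
    have hss' : Real.sqrt (vr f j i) * Real.sqrt (vr f j i) = vr f j i := Real.mul_self_sqrt hv0'
    have hs1 : Real.sqrt (vr f i j) ≤ 1 := by
      exact Real.sqrt_le_iff.2 ⟨zero_le_one, by simpa using hv1⟩
    refine ⟨fun t => (hh f i j false t - hh f i j true t) / Real.sqrt (vr f i j), ?_, ?_, ?_⟩
    · intro t; field_simp
    · intro t
      rw [abs_div, abs_of_pos hs, div_le_one hs]
      have := vr_hh f hij t
      nlinarith
    · rw [div_sub_div_same, abs_div, abs_of_pos hs, div_le_iff₀ hs]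
      set D := |hh f i j false false - hh f i j true false -
        (hh f i j false true - hh f i j true true)| with hD
      have hD1 : D ≤ 2 * vr f i j := by
        rw [hD]
        refine (abs_sub _ _).trans ?_
        linarith [vr_hh f hij false, vr_hh f hij true]
      have hD2 : D ≤ 2 * vr f j i := by
        have : hh f i j false false - hh f i j true false -
          (hh f i j false true - hh f i j true true) = (hh f i j false false - hh f i j false true)
            - (hh f i j true false - hh f i j true true) := by ring
        rw [hD, this]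
        refine (abs_sub _ _).trans ?_
        linarith [vr_hh' f hij false, vr_hh' f hij true]
      have hD0 : 0 ≤ D := abs_nonneg _
      have : D * D ≤ (2 * Real.sqrt (vr f j i) * Real.sqrt (vr f i j)) *
          (2 * Real.sqrt (vr f j i) * Real.sqrt (vr f i j)) := by
        calc D * D ≤ (2 * vr f i j) * (2 * vr f j i) := by gcongr
          _ = (2 * (Real.sqrt (vr f i j) * Real.sqrt (vr f i j))) *
              (2 * (Real.sqrt (vr f j i) * Real.sqrt (vr f j i))) := by rw [hss, hss']
          _ = _ := by ring
      exact (abs_le_of_sq_le_sq' (by simpa [sq] using this) (by positivity)).2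

private theorem mixed_aux {k : ℕ} (J : Finset (Fin k)) :
    ∀ (f : Fin k → Fin k → Bool → Bool → ℝ) (u : Fin k → Bool → ℝ) (β : Fin k → ℝ),
      (∀ i j s t, 0 ≤ f i j s t) → (∀ i j s t, f i j s t ≤ 1) → (∀ i s, |u i s| ≤ 1) →
      (∀ i ∈ J, |u i false - u i true| ≤ β i) →
      |SS J (fun e => (∏ i, u i (e i)) * PP f e)| ≤
        ∏ i ∈ J, (β i + 2 * ∑ j ∈ univ.erase i, Real.sqrt (vr f i j)) := by
  induction J using Finset.induction_on with
  | empty =>
    intro f u β h0 h1 hu hβ
    have : (univ : Finset (Fin k → Bool)).filter (fun e => ∀ i, e i = true → i ∈ (∅ : Finset (Fin k)))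
        = {fun _ => false} := by
      ext e
      simp only [mem_filter, mem_univ, true_and, notMem_empty, mem_singleton]
      constructor
      · intro h; funext i
        by_contra h'
        exact h i (by simpa using h')
      · rintro rfl i h; simp at h
    simp only [SS, this, sum_singleton, prod_empty]
    rw [abs_mul, abs_mul, abs_pow, abs_neg, abs_one, one_pow, one_mul]
    have hu' : |∏ i, u i false| ≤ 1 := by
      rw [Finset.abs_prod]
      exact Finset.prod_le_one (fun i _ => abs_nonneg _) fun i _ => hu i _
    have hP : |PP f fun _ => false| ≤ 1 := by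
      unfold PP
      rw [abs_of_nonneg]
      · refine Finset.prod_le_one (fun i _ => ?_) fun i _ => ?_
        · refine Finset.prod_nonneg fun j _ => ?_
          split_ifs
          · exact h0 _ _ _ _
          · exact zero_le_one
        · refine Finset.prod_le_one (fun j _ => ?_) fun j _ => ?_
          · split_ifs
            · exact h0 _ _ _ _
            · exact zero_le_one
          · split_ifs
            · exact h1 _ _ _ _
            · exact le_rfl
      · refine Finset.prod_nonneg fun i _ => Finset.prod_nonneg fun j _ => ?_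
        split_ifs
        · exact h0 _ _ _ _
        · exact zero_le_one
    calc _ ≤ (1 : ℝ) * 1 := by gcongr
      _ = 1 := one_mul 1
  | insert i0 J hi0 ih =>
    intro f u β h0 h1 hu hβ
    -- the factors that depend on the variable of `i0`
    set A : Fin k → Bool → Bool → ℝ := fun j s t =>
      if j = i0 then u i0 s else hh f i0 j s t with hA
    set u' : Fin k → Bool → ℝ := fun j t => if j = i0 then 1 else u j t with hu'
    have hA1 : ∀ j s t, |A j s t| ≤ 1 := by
      intro j s t
      rw [hA]; dsimp only
      split_ifs
      · exact hu _ _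
      · rw [abs_of_nonneg (hh_nonneg h0 _ _ _ _)]
        exact hh_le_one h1 _ _ _ _
    -- decomposition of the difference factors
    have hw : ∀ j, ∃ w : Bool → ℝ, (∀ t, A j false t - A j true t =
        (if j = i0 then u i0 false - u i0 true else Real.sqrt (vr f i0 j)) * w t) ∧
        (∀ t, |w t| ≤ 1) ∧ (j ≠ i0 → |w false - w true| ≤ 2 * Real.sqrt (vr f j i0)) := by
      intro j
      by_cases hj : j = i0
      · refine ⟨fun _ => 1, fun t => by simp [hA, hj], fun t => by simp, fun h => absurd hj h⟩
      · obtain ⟨w, h1, h2, h3⟩ := factor_exists h0 h1 (i := i0) (j := j) (Ne.symm hj)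
        exact ⟨w, fun t => by simp [hA, hj, h1 t], h2, fun _ => h3⟩
    choose w hw1 hw2 hw3 using hw
    -- new unary factors
    set U : Fin k → Fin k → Bool → ℝ := fun j l t =>
      u' l t * (if l < j then A l false t else if l = j then w j t else A l true t) with hU
    set cc : Fin k → ℝ := fun j =>
      if j = i0 then u i0 false - u i0 true else Real.sqrt (vr f i0 j) with hcc
    have hsplit : ∀ e : Fin k → Bool, e i0 = false →
        ((∏ i, u i (e i)) * PP f e) - ((∏ i, u i (Function.update e i0 true i)) *
          PP f (Function.update e i0 true)) =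
        ∑ j, cc j * ((∏ l, U j l (e l)) * PP (ff f i0) e) := by
      intro e he
      have e1 : ∀ (s : Bool), (∏ i, u i (Function.update e i0 s i)) *
          PP f (Function.update e i0 s) =
          (∏ j, A j s (e j)) * ((∏ j, u' j (e j)) * PP (ff f i0) e) := by
        intro s
        rw [PP_split f i0, PP_ff_update]
        have : (∏ i, u i (Function.update e i0 s i)) *
            ∏ j, hh f i0 j (Function.update e i0 s i0) (Function.update e i0 s j) =
            (∏ j, A j s (e j)) * (∏ j, u' j (e j)) := by
          rw [← Finset.prod_mul_distrib, ← Finset.prod_mul_distrib]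
          refine Finset.prod_congr rfl fun j _ => ?_
          by_cases hj : j = i0
          · subst hj; simp [hA, hu', hh]
          · simp [hA, hu', hj, mul_comm]
        rw [← mul_assoc, this, mul_assoc]
      have e2 : e = Function.update e i0 false := by
        rw [← he, Function.update_eq_self]
      have e3 : (∏ i, u i (e i)) * PP f e =
          (∏ j, A j false (e j)) * ((∏ j, u' j (e j)) * PP (ff f i0) e) := by
        have := e1 false
        rw [← e2] at this
        exact this
      rw [e3, e1 true, ← sub_mul]
      have e4 : (∏ j, A j false (e j)) - (∏ j, A j true (e j)) =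
          ∑ j, (A j false (e j) - A j true (e j)) * (∏ l with l < j, A l false (e l)) *
            ∏ l with j < l, A l true (e l) := by
        have := Finset.prod_add_ordered (univ : Finset (Fin k)) (fun j => A j true (e j))
          (fun j => A j false (e j) - A j true (e j))
        simp only [add_sub_cancel] at this
        rw [this]; ring
      rw [e4, Finset.sum_mul]
      refine Finset.sum_congr rfl fun j _ => ?_
      rw [hw1 j, hcc, hU]
      dsimp only
      rw [Finset.prod_mul_distrib]
      have e5 : (∏ l, (if l < j then A l false (e l) else if l = j then w j (e l) else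
          A l true (e l))) = w j (e j) * ((∏ l with l < j, A l false (e l)) *
            ∏ l with j < l, A l true (e l)) := by
        rw [Finset.prod_filter, Finset.prod_filter, ← Finset.prod_mul_distrib]
        have e6 : w j (e j) = ∏ l, (if l = j then w j (e l) else 1) := by
          rw [Finset.prod_ite_eq' univ j]; simp
        rw [e6, ← Finset.prod_mul_distrib]
        refine Finset.prod_congr rfl fun l _ => ?_
        rcases lt_trichotomy l j with h | h | h
        · simp [h, h.ne, h.le.not_gt]
        · subst h; simp
        · simp [h, h.ne', h.le.not_gt]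
      rw [e5]
      ring
    have hS : SS (insert i0 J) (fun e => (∏ i, u i (e i)) * PP f e) =
        ∑ j, cc j * SS J (fun e => (∏ l, U j l (e l)) * PP (ff f i0) e) := by
      rw [SS_insert hi0]
      have : SS J (fun e => (∏ i, u i (e i)) * PP f e - (∏ i, u i (Function.update e i0 true i)) *
          PP f (Function.update e i0 true)) =
          SS J (fun e => ∑ j, cc j * ((∏ l, U j l (e l)) * PP (ff f i0) e)) := by
        unfold SS
        refine Finset.sum_congr rfl fun e he => ?_
        simp only [mem_filter, mem_univ, true_and] at he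
        have hf : e i0 = false := by
          by_contra h'
          exact hi0 (he i0 (by simpa using h'))
        exact congrArg _ (hsplit e hf)
      rw [this, SS_sum]
      refine Finset.sum_congr rfl fun j _ => ?_
      rw [SS_mul]
    -- properties of the new factors
    have hff0 : ∀ i j s t, 0 ≤ ff f i0 i j s t := by
      intro i j s t; unfold ff; split_ifs
      · exact zero_le_one
      · exact h0 _ _ _ _
    have hff1 : ∀ i j s t, ff f i0 i j s t ≤ 1 := by
      intro i j s t; unfold ff; split_ifs
      · exact le_rfl
      · exact h1 _ _ _ _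
    have hu'1 : ∀ l t, |u' l t| ≤ 1 := by
      intro l t; rw [hu']; dsimp only; split_ifs
      · simp
      · exact hu _ _
    have hU1 : ∀ j l t, |U j l t| ≤ 1 := by
      intro j l t
      rw [hU]; dsimp only
      rw [abs_mul]
      have : |if l < j then A l false t else if l = j then w j t else A l true t| ≤ 1 := by
        split_ifs
        · exact hA1 _ _ _
        · exact hw2 _ _
        · exact hA1 _ _ _
      calc _ ≤ (1 : ℝ) * 1 := by gcongr; exact hu'1 _ _
        _ = 1 := one_mul 1
    have hvar : ∀ j, ∀ l ∈ J, |U j l false - U j l true| ≤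
        β l + 2 * Real.sqrt (vr f l i0) := by
      intro j l hl
      have hli0 : l ≠ i0 := fun h => hi0 (h ▸ hl)
      rw [hU]; dsimp only
      have hb1 : ∀ t, |if l < j then A l false t else if l = j then w j t else A l true t| ≤ 1 := by
        intro t
        split_ifs
        · exact hA1 _ _ _
        · exact hw2 _ _
        · exact hA1 _ _ _
      refine var_mul (hu'1 _ _) (hb1 _) ?_ ?_
      · have := hβ l (Finset.mem_insert_of_mem hl)
        simpa [hu', hli0] using this
      · have hvs : vr f l i0 ≤ 2 * Real.sqrt (vr f l i0) := by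
          have h1 := vr_le_one h0 h1 l i0
          have h2 := vr_nonneg f l i0
          have h3 := Real.sq_sqrt h2
          have h4 := Real.sqrt_nonneg (vr f l i0)
          have h5 : Real.sqrt (vr f l i0) ≤ 1 := Real.sqrt_le_iff.2 ⟨zero_le_one, by simpa using h1⟩
          nlinarith
        have hAl : ∀ s, |A l s false - A l s true| ≤ 2 * Real.sqrt (vr f l i0) := by
          intro s
          rw [hA]; dsimp only
          rw [if_neg hli0, if_neg hli0]
          exact (vr_hh' f (Ne.symm hli0) s).trans hvs
        by_cases h1 : l < j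
        · simp only [h1, if_true]; exact hAl _
        · by_cases h2 : l = j
          · subst h2
            simp only [lt_irrefl, if_false, if_true]
            exact hw3 l hli0
          · simp only [h1, h2, if_false]; exact hAl _
    -- the bound for each term
    have hterm : ∀ j, |SS J (fun e => (∏ l, U j l (e l)) * PP (ff f i0) e)| ≤
        ∏ i ∈ J, (β i + 2 * ∑ j ∈ univ.erase i, Real.sqrt (vr f i j)) := by
      intro j
      have := ih (ff f i0) (U j) (fun l => β l + 2 * Real.sqrt (vr f l i0)) hff0 hff1 (hU1 j)
        (hvar j)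
      refine this.trans (le_of_eq ?_)
      refine Finset.prod_congr rfl fun l hl => ?_
      have hli0 : l ≠ i0 := fun h => hi0 (h ▸ hl)
      have e1 : ∑ m ∈ univ.erase l, Real.sqrt (vr (ff f i0) l m) =
          ∑ m ∈ (univ.erase l).erase i0, Real.sqrt (vr f l m) := by
        rw [← Finset.add_sum_erase (univ.erase l) _ (Finset.mem_erase.2 ⟨Ne.symm hli0, mem_univ _⟩)]
        rw [vr_ff f i0 hli0, if_pos rfl, Real.sqrt_zero, zero_add]
        refine Finset.sum_congr rfl fun m hm => ?_
        rw [vr_ff f m hli0, if_neg (Finset.ne_of_mem_erase hm)]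
      rw [e1, ← Finset.add_sum_erase (univ.erase l) (fun m => Real.sqrt (vr f l m))
        (Finset.mem_erase.2 ⟨Ne.symm hli0, mem_univ i0⟩)]
      ring
    rw [hS, Finset.prod_insert hi0]
    have hprod0 : 0 ≤ ∏ i ∈ J, (β i + 2 * ∑ j ∈ univ.erase i, Real.sqrt (vr f i j)) :=
      (abs_nonneg _).trans (hterm i0)
    have hcc1 : ∑ j, |cc j| ≤ β i0 + 2 * ∑ j ∈ univ.erase i0, Real.sqrt (vr f i0 j) := by
      rw [← Finset.add_sum_erase univ _ (mem_univ i0)]
      have e1 : |cc i0| ≤ β i0 := by
        rw [hcc]; simpa using hβ i0 (Finset.mem_insert_self _ _)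
      have e2 : ∑ j ∈ univ.erase i0, |cc j| = ∑ j ∈ univ.erase i0, Real.sqrt (vr f i0 j) := by
        refine Finset.sum_congr rfl fun j hj => ?_
        rw [hcc]; dsimp only
        rw [if_neg (Finset.ne_of_mem_erase hj), abs_of_nonneg (Real.sqrt_nonneg _)]
      have e3 : 0 ≤ ∑ j ∈ univ.erase i0, Real.sqrt (vr f i0 j) :=
        Finset.sum_nonneg fun _ _ => Real.sqrt_nonneg _
      rw [e2]; linarith
    calc |∑ j, cc j * SS J (fun e => (∏ l, U j l (e l)) * PP (ff f i0) e)|
        ≤ ∑ j, |cc j * SS J (fun e => (∏ l, U j l (e l)) * PP (ff f i0) e)| :=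
          Finset.abs_sum_le_sum_abs _ _
      _ ≤ ∑ j, |cc j| * ∏ i ∈ J, (β i + 2 * ∑ j ∈ univ.erase i, Real.sqrt (vr f i j)) := by
          refine Finset.sum_le_sum fun j _ => ?_
          rw [abs_mul]
          exact mul_le_mul_of_nonneg_left (hterm j) (abs_nonneg _)
      _ = (∑ j, |cc j|) * ∏ i ∈ J, (β i + 2 * ∑ j ∈ univ.erase i, Real.sqrt (vr f i j)) := by
          rw [Finset.sum_mul]
      _ ≤ _ := mul_le_mul_of_nonneg_right hcc1 hprod0

theorem mixed_diff {k : ℕ} (f : Fin k → Fin k → Bool → Bool → ℝ)
    (h0 : ∀ i j s t, 0 ≤ f i j s t) (h1 : ∀ i j s t, f i j s t ≤ 1) (J : Finset (Fin k)) :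
    |∑ e ∈ (univ : Finset (Fin k → Bool)).filter (fun e => ∀ i, e i = true → i ∈ J),
        (-1 : ℝ) ^ (univ.filter fun i => e i = true).card *
          ∏ i, ∏ j, if i < j then f i j (e i) (e j) else 1| ≤
      ∏ i ∈ J, (2 * ∑ j ∈ univ.erase i, Real.sqrt (vr f i j)) := by
  have := mixed_aux J f (fun _ _ => 1) (fun _ => 0) h0 h1 (by simp) (by simp)
  simpa [SS, PP] using this

end Pool.Agent.Lib.P8e91ed
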