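import Mathlib

set_option autoImplicit false

open MeasureTheory Set Filter Topology

noncomputable section

namespace Pool.Agent.Lib.P8e91ed.NoOracle

/-! ### The objects of the problem -/

/-- Euclidean space `R^d`. -/
abbrev Sp (d : ℕ) := EuclideanSpace ℝ (Fin d)

/-- The energy `H(x_1,...,x_k)`, the sum of `φ (x_i - x_j)` over the pairs `i < j`. -/
def energy {d : ℕ} (φ : Sp d → ℝ) {k : ℕ} (x : Fin k → Sp d) : ℝ :=
  ∑ i : Fin k, ∑ j : Fin k, if i < j then φ (x i - x j) else 0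

/-- The box `Λ_n = [-n, n]^d`. -/
def box (d n : ℕ) : Set (Sp d) := {x | ∀ i, |x i| ≤ (n : ℝ)}

/-- The partition function `Z_Λ(λ)`; the term `k = 0` of the series is `1`. -/
def partitionFunction {d : ℕ} (φ : Sp d → ℝ) (Λ : Set (Sp d)) (lam : ℝ) : ℝ :=
  ∑' k : ℕ, lam ^ k / (k.factorial : ℝ) *
    ∫ x in Set.univ.pi (fun _ : Fin k => Λ), Real.exp (-(energy φ x))

/-- The path `v_0 = 0, v_1, ..., v_k` attached to `v : Fin k → R^d`. -/
def path {d k : ℕ} (v : Fin k → Sp d) (j : ℕ) : Sp d :=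
  if h : 0 < j ∧ j ≤ k then v ⟨j - 1, by omega⟩ else 0

/-- The integrals `V_k` of the problem. -/
def walkIntegral {d : ℕ} (φ : Sp d → ℝ) (k : ℕ) : ℝ :=
  ∫ v : Fin k → Sp d, ∏ j ∈ Finset.Icc 1 k,
    (Real.exp (-(∑ i ∈ Finset.range (j - 1),
        if ‖path v j - path v i‖ < ‖path v i - path v (i + 1)‖
          then φ (path v j - path v i) else 0)) *
      (1 - Real.exp (-(φ (path v j - path v (j - 1))))))

/-- The potential-weighted connective constant, the infimum over `k ≥ 1` of `V_k^(1/k)`. -/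
def connectiveConstant {d : ℕ} (φ : Sp d → ℝ) : ℝ :=
  ⨅ k : ℕ, (walkIntegral φ (k + 1)) ^ (1 / ((k : ℝ) + 1))

/-- A query to the oracle: a rational point and a precision. -/
abbrev Query (d : ℕ) := (Fin d → ℚ) × ℕ

/-- The rational point `x`, as a point of `R^d`. -/
def pt {d : ℕ} (x : Fin d → ℚ) : Sp d := WithLp.toLp 2 (fun i => (x i : ℝ))

/-- An oracle procedure: from `n`, `ε` and an oracle it computes a rational, or does not halt
(`none`). -/
abbrev Procedure (d : ℕ) := ℕ → ℚ → (Query d → ℚ) → Option ℚ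

/-- A halting run uses only finitely many answers of the oracle. -/
def FiniteUse {d : ℕ} (A : Procedure d) : Prop :=
  ∀ n ε O r, A n ε O = some r →
    ∃ S : Finset (Query d), ∀ O' : Query d → ℚ, (∀ s ∈ S, O' s = O s) → A n ε O' = some r

/-! ### Shell functions -/

/-- Radii of the shells. -/
def rad (c : ℕ) : ℝ := (1 / 2 : ℝ) ^ (c + 1)

lemma rad_pos (c : ℕ) : 0 < rad c := by unfold rad; positivity

lemma rad_succ (c : ℕ) : rad (c + 1) = rad c / 2 := by unfold rad; ring

lemma rad_le_half (c : ℕ) : rad c ≤ 1 / 2 := by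
  unfold rad
  calc (1 / 2 : ℝ) ^ (c + 1) ≤ (1 / 2 : ℝ) ^ 1 :=
        pow_le_pow_of_le_one (by norm_num) (by norm_num) (by omega)
    _ = 1 / 2 := by norm_num

lemma summable_rad : Summable rad := by
  unfold rad
  have : Summable (fun c : ℕ => (1 / 2 : ℝ) ^ c) := summable_geometric_of_lt_one (by norm_num) (by norm_num)
  exact (summable_nat_add_iff 1).2 this

lemma tsum_rad : ∑' c, rad c = 1 := by
  have h : Summable (fun c : ℕ => (1 / 2 : ℝ) ^ c) := summable_geometric_of_lt_one (by norm_num) (by norm_num)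
  have h2 := h.sum_add_tsum_nat_add 1
  have h3 : ∑' c : ℕ, (1 / 2 : ℝ) ^ c = 2 := tsum_geometric_two
  simp only [Finset.range_one, Finset.sum_singleton, pow_zero] at h2
  unfold rad
  linarith

lemma rad_anti {c c' : ℕ} (h : c ≤ c') : rad c' ≤ rad c := by
  unfold rad
  exact pow_le_pow_of_le_one (by norm_num) (by norm_num) (by omega)

/-- The tent function on the `c`-th shell. -/
def tent (a : ℝ) (c : ℕ) (t : ℝ) : ℝ := a * max 0 (min (t - rad (c + 1)) (rad c - t))

lemma tent_nonneg {a : ℝ} (ha : 0 ≤ a) (c : ℕ) (t : ℝ) : 0 ≤ tent a c t :=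
  mul_nonneg ha (le_max_left _ _)

lemma tent_continuous (a : ℝ) (c : ℕ) : Continuous (tent a c) := by
  unfold tent; fun_prop

lemma tent_le {a : ℝ} (ha : 0 ≤ a) (c : ℕ) (t : ℝ) : tent a c t ≤ a * rad c := by
  refine mul_le_mul_of_nonneg_left ?_ ha
  refine max_le (rad_pos c).le ?_
  rcases le_total 0 t with h | h
  · exact (min_le_right _ _).trans (by linarith)
  · refine (min_le_left _ _).trans ?_
    have := rad_pos (c + 1)
    have := rad_pos c
    linarith

lemma tent_eq_zero_of_le {a : ℝ} {c : ℕ} {t : ℝ} (h : t ≤ rad (c + 1)) : tent a c t = 0 := by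
  unfold tent
  rw [max_eq_left, mul_zero]
  exact (min_le_left _ _).trans (by linarith)

lemma tent_eq_zero_of_ge {a : ℝ} {c : ℕ} {t : ℝ} (h : rad c ≤ t) : tent a c t = 0 := by
  unfold tent
  rw [max_eq_left, mul_zero]
  exact (min_le_right _ _).trans (by linarith)

lemma tent_mid_pos {a : ℝ} (ha : 0 < a) (c : ℕ) {t : ℝ} (h1 : rad (c + 1) < t) (h2 : t < rad c) :
    0 < tent a c t := by
  unfold tent
  refine mul_pos ha (lt_max_of_lt_right (lt_min ?_ ?_)) <;> linarith

variable {d : ℕ}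

lemma hasCompactSupport_radial {f : ℝ → ℝ} (hs : ∀ t, 1 ≤ t → f t = 0) :
    HasCompactSupport (fun x : Sp d => f ‖x‖) := by
  refine HasCompactSupport.intro (isCompact_closedBall (0 : Sp d) 1) ?_
  intro x hx
  apply hs
  simp only [Metric.mem_closedBall, dist_zero_right, not_le] at hx
  exact hx.le

lemma integrable_radial {f : ℝ → ℝ} (hf : Continuous f) (hs : ∀ t, 1 ≤ t → f t = 0) :
    Integrable (fun x : Sp d => f ‖x‖) :=
  (hf.comp continuous_norm).integrable_of_hasCompactSupport (hasCompactSupport_radial hs)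

lemma tent_zero_of_one_le {a : ℝ} {c : ℕ} : ∀ t, 1 ≤ t → tent a c t = 0 := fun _ ht =>
  tent_eq_zero_of_ge ((rad_le_half c).trans (by linarith))

lemma tent_integral_pos [Nontrivial (Sp d)] {a : ℝ} (ha : 0 < a) (c : ℕ) :
    0 < ∫ x : Sp d, tent a c ‖x‖ := by
  obtain ⟨x, hx⟩ := exists_norm_eq (Sp d) (c := 3 / 4 * rad c)
    (by have := rad_pos c; positivity)
  refine Continuous.integral_pos_of_hasCompactSupport_nonneg_nonzero
    ((tent_continuous a c).comp continuous_norm)
    (hasCompactSupport_radial tent_zero_of_one_le) (fun y => tent_nonneg ha.le c _) (x := x) ?_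
  have h1 : rad (c + 1) < 3 / 4 * rad c := by
    rw [rad_succ]; have := rad_pos c; linarith
  have h2 : 3 / 4 * rad c < rad c := by have := rad_pos c; linarith
  have := tent_mid_pos ha c h1 h2
  simp only [hx]
  exact this.ne'

lemma exists_bump [Nontrivial (Sp d)] {a : ℝ} (ha : 0 < a) (c : ℕ) (T : Finset ℝ) :
    ∃ b : ℝ → ℝ, Continuous b ∧ (∀ t, 0 ≤ b t) ∧ (∀ t, b t ≤ tent a c t) ∧ (∀ t ∈ T, b t = 0) ∧
      (1 / 2) * (∫ x : Sp d, tent a c ‖x‖) ≤ ∫ x : Sp d, b ‖x‖ := by
  classical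
  set T' : Set ℝ := (T : Set ℝ) ∪ {0} with hT'
  have hT'fin : T'.Finite := T.finite_toSet.union (finite_singleton 0)
  have hT'ne : T'.Nonempty := ⟨0, by simp [hT']⟩
  have hT'cl : IsClosed T' := hT'fin.isClosed
  let b : ℕ → ℝ → ℝ := fun n t => tent a c t * min 1 ((n : ℝ) * Metric.infDist t T')
  have hb_cont : ∀ n, Continuous (b n) := by
    intro n
    have h1 := tent_continuous a c
    have h2 : Continuous (fun t : ℝ => Metric.infDist t T') := Metric.continuous_infDist_pt T'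
    exact h1.mul (continuous_const.min (continuous_const.mul h2))
  have hmin0 : ∀ (n : ℕ) (t : ℝ), 0 ≤ min 1 ((n : ℝ) * Metric.infDist t T') := fun n t =>
    le_min zero_le_one (mul_nonneg (Nat.cast_nonneg n) Metric.infDist_nonneg)
  have hb0 : ∀ n t, 0 ≤ b n t := fun n t => mul_nonneg (tent_nonneg ha.le c t) (hmin0 n t)
  have hble : ∀ n t, b n t ≤ tent a c t := fun n t =>
    mul_le_of_le_one_right (tent_nonneg ha.le c t) (min_le_left _ _)
  have hbT : ∀ n, ∀ t ∈ T, b n t = 0 := by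
    intro n t ht
    have : Metric.infDist t T' = 0 := Metric.infDist_zero_of_mem (by simp [hT', ht])
    simp [b, this]
  have hint : Integrable (fun x : Sp d => tent a c ‖x‖) :=
    integrable_radial (tent_continuous a c) tent_zero_of_one_le
  have hlim : Tendsto (fun n : ℕ => ∫ x : Sp d, b n ‖x‖) atTop (𝓝 (∫ x : Sp d, tent a c ‖x‖)) := by
    refine tendsto_integral_of_dominated_convergence (fun x : Sp d => tent a c ‖x‖) ?_ hint ?_ ?_
    · intro n
      exact ((hb_cont n).comp continuous_norm).aestronglyMeasurable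
    · intro n
      refine Eventually.of_forall fun x => ?_
      rw [Real.norm_of_nonneg (hb0 n _)]
      exact hble n _
    · have hnull : ∀ᵐ x : Sp d, ‖x‖ ∉ T' := by
        have : {x : Sp d | ‖x‖ ∈ T'} = ⋃ t ∈ T', Metric.sphere (0 : Sp d) t := by
          ext x; simp
        rw [ae_iff]
        simp only [not_not]
        rw [this]
        refine (measure_biUnion_null_iff hT'fin.countable).2 fun t _ => ?_
        exact Measure.addHaar_sphere volume 0 t
      filter_upwards [hnull] with x hx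
      have hpos : 0 < Metric.infDist ‖x‖ T' := (hT'cl.notMem_iff_infDist_pos hT'ne).1 hx
      have : ∀ᶠ n : ℕ in atTop, b n ‖x‖ = tent a c ‖x‖ := by
        obtain ⟨N, hN⟩ := exists_nat_gt (1 / Metric.infDist ‖x‖ T')
        filter_upwards [eventually_ge_atTop N] with n hn
        have h1 : 1 ≤ (n : ℝ) * Metric.infDist ‖x‖ T' := by
          have : (N : ℝ) ≤ n := by exact_mod_cast hn
          have h3 : 1 / Metric.infDist ‖x‖ T' < n := lt_of_lt_of_le hN this
          rw [div_lt_iff₀ hpos] at h3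
          exact h3.le
        simp only [b]
        rw [min_eq_left h1, mul_one]
      exact tendsto_const_nhds.congr' (this.mono fun n hn => hn.symm)
  have hIpos : 0 < ∫ x : Sp d, tent a c ‖x‖ := tent_integral_pos ha c
  have hev : ∀ᶠ n : ℕ in atTop, (1 / 2) * (∫ x : Sp d, tent a c ‖x‖) < ∫ x : Sp d, b n ‖x‖ :=
    (tendsto_order.1 hlim).1 _ (by linarith)
  obtain ⟨n, hn⟩ := hev.exists
  exact ⟨b n, hb_cont n, hb0 n, hble n, hbT n, hn.le⟩


/-- A family of bump functions, one countable family per shell. -/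
structure Family (d : ℕ) (a : ℝ) where
  h : ℕ → ℕ → ℝ → ℝ
  cont : ∀ c m, Continuous (h c m)
  nonneg : ∀ c m t, 0 ≤ h c m t
  le_tent : ∀ c m t, h c m t ≤ tent a c t
  zero : ∀ c t, h c 0 t = 0
  avoid : ∀ c, ∀ T : Finset (Fin d → ℚ), ∃ m, (∀ x ∈ T, h c m ‖(pt x : Sp d)‖ = 0) ∧
    (1 / 2) * (∫ x : Sp d, tent a c ‖x‖) ≤ ∫ x : Sp d, h c m ‖x‖

lemma exists_family [Nontrivial (Sp d)] {a : ℝ} (ha : 0 < a) : Nonempty (Family d a) := by
  classical
  obtain ⟨e, he⟩ := exists_surjective_nat (Finset (Fin d → ℚ))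
  have key : ∀ c : ℕ, ∀ S : Finset (Fin d → ℚ), ∃ b : ℝ → ℝ, Continuous b ∧ (∀ t, 0 ≤ b t) ∧
      (∀ t, b t ≤ tent a c t) ∧ (∀ x ∈ S, b ‖(pt x : Sp d)‖ = 0) ∧
      (1 / 2) * (∫ x : Sp d, tent a c ‖x‖) ≤ ∫ x : Sp d, b ‖x‖ := by
    intro c S
    obtain ⟨b, h1, h2, h3, h4, h5⟩ := exists_bump (d := d) ha c (S.image fun x => ‖(pt x : Sp d)‖)
    exact ⟨b, h1, h2, h3, fun x hx => h4 _ (Finset.mem_image_of_mem _ hx), h5⟩
  choose b hb1 hb2 hb3 hb4 hb5 using key
  refine ⟨⟨fun c m t => Nat.casesOn m 0 (fun k => b c (e k) t), ?_, ?_, ?_, ?_, ?_⟩⟩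
  · intro c m
    cases m with
    | zero => exact continuous_const
    | succ k => exact hb1 c (e k)
  · intro c m t
    cases m with
    | zero => exact le_refl _
    | succ k => exact hb2 c (e k) t
  · intro c m t
    cases m with
    | zero => exact tent_nonneg ha.le c t
    | succ k => exact hb3 c (e k) t
  · intro c t; rfl
  · intro c T
    obtain ⟨k, hk⟩ := he T
    refine ⟨k + 1, ?_, ?_⟩
    · intro x hx
      exact hb4 c (e k) x (hk ▸ hx)
    · exact hb5 c (e k)

variable {a : ℝ}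

/-- The total depth `D_ξ = 1 - e^{-φ_ξ}` as a function of the radius. -/
def Family.D (F : Family d a) (ξ : ℕ → ℕ) (t : ℝ) : ℝ := ∑' c, F.h c (ξ c) t

lemma Family.h_le (F : Family d a) (ha : 0 ≤ a) (c m : ℕ) (t : ℝ) : F.h c m t ≤ a * rad c :=
  (F.le_tent c m t).trans (tent_le ha c t)

lemma Family.norm_le (F : Family d a) (ha : 0 ≤ a) (c m : ℕ) (t : ℝ) :
    ‖F.h c m t‖ ≤ a * rad c := by
  rw [Real.norm_of_nonneg (F.nonneg c m t)]
  exact F.h_le ha c m t

lemma Family.summable (F : Family d a) (ha : 0 ≤ a) (ξ : ℕ → ℕ) (t : ℝ) :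
    Summable (fun c => F.h c (ξ c) t) :=
  Summable.of_norm_bounded (summable_rad.mul_left a) (fun c => F.norm_le ha c (ξ c) t)

lemma Family.D_nonneg (F : Family d a) (ξ : ℕ → ℕ) (t : ℝ) : 0 ≤ F.D ξ t :=
  tsum_nonneg fun c => F.nonneg c _ t

lemma Family.D_le (F : Family d a) (ha : 0 ≤ a) (ξ : ℕ → ℕ) (t : ℝ) : F.D ξ t ≤ a := by
  have h := (F.summable ha ξ t).tsum_le_tsum (fun c => F.h_le ha c (ξ c) t)
    (summable_rad.mul_left a)
  rw [tsum_mul_left, tsum_rad, mul_one] at h
  exact h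

lemma Family.D_cont (F : Family d a) (ha : 0 ≤ a) (ξ : ℕ → ℕ) : Continuous (F.D ξ) :=
  continuous_tsum (fun c => F.cont c (ξ c)) (summable_rad.mul_left a)
    (fun c t => F.norm_le ha c (ξ c) t)

lemma Family.D_cont_index (F : Family d a) (ha : 0 ≤ a) (t : ℝ) :
    Continuous (fun ξ : ℕ → ℕ => F.D ξ t) := by
  refine continuous_tsum (fun c => ?_) (summable_rad.mul_left a)
    (fun c ξ => F.norm_le ha c (ξ c) t)
  exact (continuous_of_discreteTopology (f := fun m : ℕ => F.h c m t)).comp (continuous_apply c)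

lemma Family.D_far (F : Family d a) (ξ : ℕ → ℕ) {t : ℝ} (ht : 1 / 2 ≤ t) :
    F.D ξ t = 0 := by
  have : ∀ c, F.h c (ξ c) t = 0 := fun c => by
    refine le_antisymm ((F.le_tent c (ξ c) t).trans ?_) (F.nonneg _ _ _)
    rw [tent_eq_zero_of_ge ((rad_le_half c).trans ht)]
  unfold Family.D
  simp [this]

lemma Family.D_nonpos (F : Family d a) (ξ : ℕ → ℕ) {t : ℝ} (ht : t ≤ 0) : F.D ξ t = 0 := by
  have : ∀ c, F.h c (ξ c) t = 0 := fun c => by
    refine le_antisymm ((F.le_tent c (ξ c) t).trans ?_) (F.nonneg _ _ _)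
    rw [tent_eq_zero_of_le (ht.trans (rad_pos _).le)]
  unfold Family.D
  simp [this]

lemma Family.D_local (F : Family d a) {ξ η : ℕ → ℕ} {J : ℕ} {t : ℝ} (ht : rad J ≤ t)
    (h : ∀ c < J, F.h c (ξ c) t = F.h c (η c) t) : F.D ξ t = F.D η t := by
  unfold Family.D
  refine tsum_congr fun c => ?_
  rcases lt_or_ge c J with hc | hc
  · exact h c hc
  · have : ∀ m, F.h c m t = 0 := fun m => by
      refine le_antisymm ((F.le_tent c m t).trans ?_) (F.nonneg _ _ _)
      rw [tent_eq_zero_of_ge ((rad_anti hc).trans ht)]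
    rw [this, this]

/-- The potential attached to `ξ`, as a function of the radius. -/
def Family.pot (F : Family d a) (ξ : ℕ → ℕ) (t : ℝ) : ℝ := -Real.log (1 - F.D ξ t)

lemma Family.one_sub_pos (F : Family d a) (ha : 0 ≤ a) (ha2 : a ≤ 1 / 2) (ξ : ℕ → ℕ) (t : ℝ) :
    0 < 1 - F.D ξ t := by
  have := F.D_le ha ξ t
  linarith

lemma Family.exp_pot (F : Family d a) (ha : 0 ≤ a) (ha2 : a ≤ 1 / 2) (ξ : ℕ → ℕ) (t : ℝ) :
    Real.exp (-(F.pot ξ t)) = 1 - F.D ξ t := by
  unfold Family.pot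
  rw [neg_neg, Real.exp_log (F.one_sub_pos ha ha2 ξ t)]

lemma Family.pot_nonneg (F : Family d a) (ha : 0 ≤ a) (ha2 : a ≤ 1 / 2) (ξ : ℕ → ℕ) (t : ℝ) :
    0 ≤ F.pot ξ t := by
  unfold Family.pot
  rw [neg_nonneg]
  exact Real.log_nonpos (F.one_sub_pos ha ha2 ξ t).le (by have := F.D_nonneg ξ t; linarith)

lemma Family.pot_cont (F : Family d a) (ha : 0 ≤ a) (ha2 : a ≤ 1 / 2) (ξ : ℕ → ℕ) :
    Continuous (F.pot ξ) := by
  unfold Family.pot
  exact ((continuous_const.sub (F.D_cont ha ξ)).log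
    (fun t => (F.one_sub_pos ha ha2 ξ t).ne')).neg

lemma Family.pot_cont_index (F : Family d a) (ha : 0 ≤ a) (ha2 : a ≤ 1 / 2) (t : ℝ) :
    Continuous (fun ξ : ℕ → ℕ => F.pot ξ t) := by
  unfold Family.pot
  exact ((continuous_const.sub (F.D_cont_index ha t)).log
    (fun ξ => (F.one_sub_pos ha ha2 ξ t).ne')).neg

lemma Family.pot_far (F : Family d a) (ξ : ℕ → ℕ) {t : ℝ} (ht : 1 / 2 ≤ t) :
    F.pot ξ t = 0 := by
  unfold Family.pot
  rw [F.D_far ξ ht]
  simp


/-! ### The partition function -/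

lemma energy_nonneg {φ : Sp d → ℝ} (h0 : ∀ x, 0 ≤ φ x) {k : ℕ} (x : Fin k → Sp d) :
    0 ≤ energy φ x := by
  unfold energy
  refine Finset.sum_nonneg fun i _ => Finset.sum_nonneg fun j _ => ?_
  split_ifs
  · exact h0 _
  · exact le_refl _

lemma energy_mono {φ ψ : Sp d → ℝ} (h : ∀ x, φ x ≤ ψ x) {k : ℕ} (x : Fin k → Sp d) :
    energy φ x ≤ energy ψ x := by
  unfold energy
  refine Finset.sum_le_sum fun i _ => Finset.sum_le_sum fun j _ => ?_
  split_ifs
  · exact h _
  · exact le_refl _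

lemma energy_cont {φ : Sp d → ℝ} (h : Continuous φ) (k : ℕ) :
    Continuous (fun x : Fin k → Sp d => energy φ x) := by
  unfold energy
  refine continuous_finsetSum _ fun i _ => continuous_finsetSum _ fun j _ => ?_
  split_ifs
  · exact h.comp ((continuous_apply i).sub (continuous_apply j))
  · exact continuous_const

lemma box_isClosed (d n : ℕ) : IsClosed (box d n) := by
  unfold box
  rw [Set.ofPred_forall]
  refine isClosed_iInter fun i => ?_
  refine isClosed_le (continuous_abs.comp ?_) continuous_const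
  exact (continuous_apply i).comp (PiLp.continuous_ofLp 2 _)

lemma box_measurable (d n : ℕ) : MeasurableSet (box d n) := (box_isClosed d n).measurableSet

lemma box_finite (d n : ℕ) : volume (box d n) < ⊤ := by
  have hsub : box d n ⊆ Metric.closedBall (0 : Sp d) (Real.sqrt (d * n ^ 2)) := by
    intro x hx
    rw [Metric.mem_closedBall, dist_zero_right, EuclideanSpace.norm_eq]
    refine Real.sqrt_le_sqrt ?_
    calc ∑ i, ‖x.ofLp i‖ ^ 2 ≤ ∑ _i : Fin d, (n : ℝ) ^ 2 := by
          refine Finset.sum_le_sum fun i _ => ?_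
          have h := hx i
          rw [Real.norm_eq_abs]
          exact pow_le_pow_left₀ (abs_nonneg _) h 2
      _ = d * (n : ℝ) ^ 2 := by simp
  exact (measure_mono hsub).trans_lt measure_closedBall_lt_top

/-- The cube of the box. -/
def cube (d n k : ℕ) : Set (Fin k → Sp d) := Set.univ.pi (fun _ : Fin k => box d n)

lemma cube_measurable (d n k : ℕ) : MeasurableSet (cube d n k) :=
  MeasurableSet.univ_pi fun _ => box_measurable d n

lemma cube_volume (d n k : ℕ) : volume (cube d n k) = (volume (box d n)) ^ k := by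
  unfold cube
  rw [volume_pi_pi]
  simp

lemma cube_finite (d n k : ℕ) : volume (cube d n k) < ⊤ := by
  rw [cube_volume]
  exact ENNReal.pow_lt_top (box_finite d n)

/-- The `k`-particle integral. -/
def term (φ : Sp d → ℝ) (n k : ℕ) : ℝ := ∫ x in cube d n k, Real.exp (-(energy φ x))

lemma partitionFunction_eq (φ : Sp d → ℝ) (n : ℕ) (lam : ℝ) :
    partitionFunction φ (box d n) lam = ∑' k : ℕ, lam ^ k / (k.factorial : ℝ) * term φ n k := rfl

lemma term_integrable {φ : Sp d → ℝ} (hc : Continuous φ) (h0 : ∀ x, 0 ≤ φ x) (n k : ℕ) :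
    IntegrableOn (fun x : Fin k → Sp d => Real.exp (-(energy φ x))) (cube d n k) := by
  refine Measure.integrableOn_of_bounded (M := 1) (cube_finite d n k).ne ?_ ?_
  · exact (Real.continuous_exp.comp (energy_cont hc k).neg).aestronglyMeasurable
  · refine Eventually.of_forall fun x => ?_
    rw [Real.norm_of_nonneg (Real.exp_pos _).le]
    exact Real.exp_le_one_iff.2 (neg_nonpos.2 (energy_nonneg h0 x))

/-- The volume of the box. -/
def vol (d n : ℕ) : ℝ := (volume (box d n)).toReal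

lemma vol_nonneg (d n : ℕ) : 0 ≤ vol d n := ENNReal.toReal_nonneg

lemma term_nonneg (φ : Sp d → ℝ) (n k : ℕ) : 0 ≤ term φ n k :=
  integral_nonneg fun _ => (Real.exp_pos _).le

lemma term_le {φ : Sp d → ℝ} (hc : Continuous φ) (h0 : ∀ x, 0 ≤ φ x) (n k : ℕ) :
    term φ n k ≤ (vol d n) ^ k := by
  have h1 : term φ n k ≤ ∫ _x in cube d n k, (1 : ℝ) := by
    refine setIntegral_mono (term_integrable hc h0 n k) ?_ ?_
    · exact integrableOn_const (cube_finite d n k).ne
    · intro x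
      exact Real.exp_le_one_iff.2 (neg_nonpos.2 (energy_nonneg h0 x))
  refine h1.trans (le_of_eq ?_)
  rw [setIntegral_const, smul_eq_mul, mul_one, Measure.real, cube_volume, ENNReal.toReal_pow]
  rfl

lemma term_anti {φ ψ : Sp d → ℝ} (hc : Continuous φ) (h0 : ∀ x, 0 ≤ φ x) (hc' : Continuous ψ)
    (h : ∀ x, φ x ≤ ψ x) (n k : ℕ) : term ψ n k ≤ term φ n k := by
  refine setIntegral_mono (term_integrable hc' (fun x => (h0 x).trans (h x)) n k)
    (term_integrable hc h0 n k) ?_
  intro x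
  exact Real.exp_le_exp.2 (neg_le_neg (energy_mono h x))

lemma summable_coef {lam : ℝ} (n : ℕ) :
    Summable (fun k : ℕ => lam ^ k / (k.factorial : ℝ) * (vol d n) ^ k) := by
  have := Real.summable_pow_div_factorial (lam * vol d n)
  refine this.congr fun k => ?_
  rw [mul_pow]; ring

lemma summable_term {φ : Sp d → ℝ} (hc : Continuous φ) (h0 : ∀ x, 0 ≤ φ x) {lam : ℝ}
    (hl : 0 ≤ lam) (n : ℕ) : Summable (fun k : ℕ => lam ^ k / (k.factorial : ℝ) * term φ n k) := by
  refine Summable.of_nonneg_of_le (fun k => ?_) (fun k => ?_) (summable_coef (d := d) (lam := lam) n)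
  · have := term_nonneg φ n k
    positivity
  · exact mul_le_mul_of_nonneg_left (term_le hc h0 n k) (by positivity)

/-- A uniform upper bound for the partition functions. -/
def bound (d n : ℕ) (lam : ℝ) : ℝ := ∑' k : ℕ, lam ^ k / (k.factorial : ℝ) * (vol d n) ^ k

lemma partitionFunction_le {φ : Sp d → ℝ} (hc : Continuous φ) (h0 : ∀ x, 0 ≤ φ x) {lam : ℝ}
    (hl : 0 ≤ lam) (n : ℕ) : partitionFunction φ (box d n) lam ≤ bound d n lam := by
  rw [partitionFunction_eq]
  exact (summable_term hc h0 hl n).tsum_le_tsum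
    (fun k => mul_le_mul_of_nonneg_left (term_le hc h0 n k) (by positivity)) (summable_coef n)

lemma partitionFunction_nonneg {φ : Sp d → ℝ} {lam : ℝ}
    (hl : 0 ≤ lam) (n : ℕ) : 0 ≤ partitionFunction φ (box d n) lam := by
  rw [partitionFunction_eq]
  refine tsum_nonneg fun k => ?_
  have := term_nonneg φ n k
  positivity

lemma partitionFunction_diff {φ ψ : Sp d → ℝ} (hc : Continuous φ) (h0 : ∀ x, 0 ≤ φ x)
    (hc' : Continuous ψ) (h : ∀ x, φ x ≤ ψ x) {lam : ℝ} (hl : 0 ≤ lam) (n : ℕ) :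
    lam ^ 2 / 2 * (term φ n 2 - term ψ n 2) ≤
      partitionFunction φ (box d n) lam - partitionFunction ψ (box d n) lam := by
  have h0' : ∀ x, 0 ≤ ψ x := fun x => (h0 x).trans (h x)
  have s1 := summable_term hc h0 hl n
  have s2 := summable_term hc' h0' hl n
  rw [partitionFunction_eq, partitionFunction_eq, ← s1.tsum_sub s2]
  have := (s1.sub s2).le_tsum 2 (fun k _ => ?_)
  · refine le_trans (le_of_eq ?_) this
    norm_num [Nat.factorial]
    ring
  · have := term_anti hc h0 hc' h n k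
    rw [← mul_sub]
    exact mul_nonneg (by positivity) (sub_nonneg.2 this)

lemma closedBall_sub_box {n : ℕ} (hn : 1 ≤ n) :
    Metric.closedBall (0 : Sp d) (1 / 2) ⊆ box d n := by
  intro x hx i
  rw [Metric.mem_closedBall, dist_zero_right] at hx
  have h1 : |x i| ≤ ‖x‖ := by
    have := PiLp.norm_apply_le x i
    rwa [Real.norm_eq_abs] at this
  have : (1 : ℝ) ≤ n := by exact_mod_cast hn
  linarith

/-- Lower bound for the decrease of the two-particle integral. -/
lemma term_two_diff {φ ψ : Sp d → ℝ} {b : ℝ → ℝ} (hb : Continuous b) (hb0 : ∀ t, 0 ≤ b t)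
    (hbs : ∀ t, 1 / 2 ≤ t → b t = 0) (hc : Continuous φ) (h0 : ∀ x, 0 ≤ φ x)
    (hc' : Continuous ψ) (h0' : ∀ x, 0 ≤ ψ x)
    (hφψ : ∀ x, Real.exp (-(φ x)) - Real.exp (-(ψ x)) = b ‖x‖) {n : ℕ} (hn : 1 ≤ n) :
    (volume (Metric.closedBall (0 : Sp d) (1 / 2))).toReal * (∫ x : Sp d, b ‖x‖) ≤
      term φ n 2 - term ψ n 2 := by
  have hen : ∀ (χ : Sp d → ℝ) (x : Fin 2 → Sp d), energy χ x = χ (x 0 - x 1) := by
    intro χ x
    simp [energy, Fin.sum_univ_two]
  have e1 : term φ n 2 - term ψ n 2 = ∫ x in cube d n 2, b ‖x 0 - x 1‖ := by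
    unfold term
    rw [← integral_sub (term_integrable hc h0 n 2) (term_integrable hc' h0' n 2)]
    refine setIntegral_congr_fun (cube_measurable d n 2) fun x _ => ?_
    simp only [hen]
    exact hφψ _
  have hcs : Continuous (fun x : Sp d × Sp d => b ‖x.1 - x.2‖) :=
    hb.comp (continuous_norm.comp (continuous_fst.sub continuous_snd))
  have e2 : ∫ x in cube d n 2, b ‖x 0 - x 1‖ =
      ∫ z in (box d n) ×ˢ (box d n), b ‖z.1 - z.2‖ ∂(volume.prod volume) := by
    have hmp := volume_preserving_finTwoArrow (Sp d)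
    have := hmp.setIntegral_preimage_emb (MeasurableEquiv.measurableEmbedding _)
      (fun z : Sp d × Sp d => b ‖z.1 - z.2‖) ((box d n) ×ˢ (box d n))
    rw [Measure.volume_eq_prod] at this
    rw [← this]
    have hset : (MeasurableEquiv.finTwoArrow : (Fin 2 → Sp d) ≃ᵐ Sp d × Sp d) ⁻¹'
        ((box d n) ×ˢ (box d n)) = cube d n 2 := by
      ext x
      simp only [Set.mem_preimage, Set.mem_prod, cube, Set.mem_univ_pi]
      constructor
      · rintro ⟨h1, h2⟩ i
        fin_cases i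
        · exact h1
        · exact h2
      · intro h
        exact ⟨h 0, h 1⟩
    rw [hset]
    rfl
  have hbound : ∀ t, b t ≤ b t := fun t => le_refl _
  have hfinprod : (volume.prod volume : Measure (Sp d × Sp d)) ((box d n) ×ˢ (box d n)) < ⊤ := by
    rw [Measure.prod_prod]
    exact ENNReal.mul_lt_top (box_finite d n) (box_finite d n)
  obtain ⟨C, hC⟩ : ∃ C, ∀ t, 0 ≤ t → ‖b t‖ ≤ C := by
    obtain ⟨C, hC⟩ := (isCompact_Icc (a := (0 : ℝ)) (b := 1)).exists_bound_of_continuousOn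
      hb.continuousOn
    refine ⟨max C 0, fun t ht => ?_⟩
    rcases le_total t 1 with h | h
    · exact (hC t ⟨ht, h⟩).trans (le_max_left _ _)
    · rw [hbs t (by linarith), norm_zero]
      exact le_max_right _ _
  have hintOn : IntegrableOn (fun z : Sp d × Sp d => b ‖z.1 - z.2‖) ((box d n) ×ˢ (box d n))
      (volume.prod volume) := by
    refine Measure.integrableOn_of_bounded (M := C) hfinprod.ne hcs.aestronglyMeasurable ?_
    exact Eventually.of_forall fun z => hC _ (norm_nonneg _)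
  have hsubset : Metric.closedBall (0 : Sp d) (1 / 2) ×ˢ (box d n) ⊆ (box d n) ×ˢ (box d n) :=
    Set.prod_mono (closedBall_sub_box hn) (le_refl _)
  have e3 : ∫ z in Metric.closedBall (0 : Sp d) (1 / 2) ×ˢ (box d n), b ‖z.1 - z.2‖
        ∂(volume.prod volume) ≤
      ∫ z in (box d n) ×ˢ (box d n), b ‖z.1 - z.2‖ ∂(volume.prod volume) :=
    setIntegral_mono_set hintOn (Eventually.of_forall fun z => hb0 _)
      (Eventually.of_forall hsubset)
  have e4 : ∫ z in Metric.closedBall (0 : Sp d) (1 / 2) ×ˢ (box d n), b ‖z.1 - z.2‖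
        ∂(volume.prod volume) =
      ∫ x in Metric.closedBall (0 : Sp d) (1 / 2), ∫ y in box d n, b ‖x - y‖ :=
    setIntegral_prod _ (hintOn.mono_set hsubset)
  have e5 : ∫ x in Metric.closedBall (0 : Sp d) (1 / 2), ∫ y in box d n, b ‖x - y‖ =
      ∫ _x in Metric.closedBall (0 : Sp d) (1 / 2), ∫ y : Sp d, b ‖y‖ := by
    refine setIntegral_congr_fun measurableSet_closedBall fun x hx => ?_
    rw [setIntegral_eq_integral_of_forall_compl_eq_zero, integral_sub_left_eq_self
      (fun y : Sp d => b ‖y‖) volume x]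
    intro y hy
    apply hbs
    by_contra hlt
    rw [not_le] at hlt
    apply hy
    intro i
    rw [Metric.mem_closedBall, dist_zero_right] at hx
    have h1 : |x i| ≤ ‖x‖ := by
      have := PiLp.norm_apply_le x i
      rwa [Real.norm_eq_abs] at this
    have h2 : |x i - y i| ≤ ‖x - y‖ := by
      have := PiLp.norm_apply_le (x - y) i
      rwa [Real.norm_eq_abs] at this
    have h3 : |y i| ≤ |x i| + |x i - y i| := by
      have := abs_sub_abs_le_abs_sub (y i) (x i)
      rw [abs_sub_comm] at this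
      linarith
    have : (1 : ℝ) ≤ n := by exact_mod_cast hn
    linarith
  rw [e1, e2]
  refine le_trans (le_of_eq ?_) e3
  rw [e4, e5, setIntegral_const, smul_eq_mul]
  rfl


/-! ### The connective constant -/

lemma walkIntegral_one (φ : Sp d → ℝ) :
    walkIntegral φ 1 = ∫ x : Sp d, (1 - Real.exp (-(φ x))) := by
  have hmp := volume_preserving_funUnique (Fin 1) (Sp d)
  have := hmp.integral_comp (MeasurableEquiv.measurableEmbedding _)
    (fun x : Sp d => (1 - Real.exp (-(φ x))))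
  rw [← this]
  unfold walkIntegral
  refine integral_congr_ae (Eventually.of_forall fun v => ?_)
  simp [path, MeasurableEquiv.funUnique]

lemma walkIntegral_nonneg {φ : Sp d → ℝ} (h0 : ∀ x, 0 ≤ φ x) (k : ℕ) : 0 ≤ walkIntegral φ k := by
  unfold walkIntegral
  refine integral_nonneg fun v => Finset.prod_nonneg fun j _ => mul_nonneg (Real.exp_pos _).le ?_
  exact sub_nonneg.2 (Real.exp_le_one_iff.2 (neg_nonpos.2 (h0 _)))

lemma connectiveConstant_le {φ : Sp d → ℝ} (h0 : ∀ x, 0 ≤ φ x) :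
    connectiveConstant φ ≤ ∫ x : Sp d, (1 - Real.exp (-(φ x))) := by
  unfold connectiveConstant
  refine (ciInf_le ?_ 0).trans (le_of_eq ?_)
  · refine ⟨0, ?_⟩
    rintro _ ⟨k, rfl⟩
    exact Real.rpow_nonneg (walkIntegral_nonneg h0 _) _
  · simp [walkIntegral_one]

/-! ### The potentials of the family -/

section pots

variable (F : Family d a)

/-- The potential on `R^d` attached to `ξ`. -/
def Family.phi (F : Family d a) (ξ : ℕ → ℕ) (x : Sp d) : ℝ := F.pot ξ ‖x‖

lemma Family.phi_cont (ha : 0 ≤ a) (ha2 : a ≤ 1 / 2) (ξ : ℕ → ℕ) : Continuous (F.phi ξ) :=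
  (F.pot_cont ha ha2 ξ).comp continuous_norm

lemma Family.phi_nonneg (ha : 0 ≤ a) (ha2 : a ≤ 1 / 2) (ξ : ℕ → ℕ) (x : Sp d) : 0 ≤ F.phi ξ x :=
  F.pot_nonneg ha ha2 ξ _

lemma Family.phi_cont_index (ha : 0 ≤ a) (ha2 : a ≤ 1 / 2) (x : Sp d) :
    Continuous (fun ξ : ℕ → ℕ => F.phi ξ x) :=
  F.pot_cont_index ha ha2 ‖x‖

/-- The partition function as a function of `ξ`. -/
def Family.Z (F : Family d a) (n : ℕ) (lam : ℝ) (ξ : ℕ → ℕ) : ℝ :=
  partitionFunction (F.phi ξ) (box d n) lam

lemma Family.Z_cont (ha : 0 ≤ a) (ha2 : a ≤ 1 / 2) {lam : ℝ} (hl : 0 ≤ lam) (n : ℕ) :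
    Continuous (F.Z n lam) := by
  unfold Family.Z
  simp only [partitionFunction_eq]
  refine continuous_tsum (fun k => ?_) (summable_coef (d := d) (lam := lam) n) (fun k ξ => ?_)
  · refine continuous_const.mul ?_
    unfold term
    refine continuous_of_dominated (bound := fun _ => (1 : ℝ)) (fun ξ => ?_) (fun ξ => ?_) ?_ ?_
    · exact (Real.continuous_exp.comp
        (energy_cont (F.phi_cont ha ha2 ξ) k).neg).aestronglyMeasurable
    · refine Eventually.of_forall fun x => ?_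
      rw [Real.norm_of_nonneg (Real.exp_pos _).le]
      exact Real.exp_le_one_iff.2 (neg_nonpos.2 (energy_nonneg (F.phi_nonneg ha ha2 ξ) x))
    · exact integrableOn_const (cube_finite d n k).ne
    · refine Eventually.of_forall fun x => ?_
      refine Real.continuous_exp.comp (Continuous.neg ?_)
      unfold energy
      refine continuous_finsetSum _ fun i _ => continuous_finsetSum _ fun j _ => ?_
      split_ifs
      · exact F.phi_cont_index ha ha2 _
      · exact continuous_const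
  · have h1 := term_nonneg (F.phi ξ) n k
    rw [Real.norm_of_nonneg (by positivity)]
    exact mul_le_mul_of_nonneg_left (term_le (F.phi_cont ha ha2 ξ) (F.phi_nonneg ha ha2 ξ) n k)
      (by positivity)

lemma Family.connective_le (ha : 0 ≤ a) (ha2 : a ≤ 1 / 2) (ξ : ℕ → ℕ) :
    connectiveConstant (F.phi ξ) ≤
      a * (volume (Metric.closedBall (0 : Sp d) (1 / 2))).toReal := by
  refine (connectiveConstant_le (F.phi_nonneg ha ha2 ξ)).trans ?_
  have h1 : ∀ x : Sp d, 1 - Real.exp (-(F.phi ξ x)) = F.D ξ ‖x‖ := fun x => by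
    unfold Family.phi
    rw [F.exp_pot ha ha2]
    ring
  simp only [h1]
  have h2 : ∫ x : Sp d, F.D ξ ‖x‖ = ∫ x in Metric.closedBall (0 : Sp d) (1 / 2), F.D ξ ‖x‖ := by
    rw [setIntegral_eq_integral_of_forall_compl_eq_zero]
    intro x hx
    simp only [Metric.mem_closedBall, dist_zero_right, not_le] at hx
    exact F.D_far ξ hx.le
  rw [h2]
  have h3 : ∫ x in Metric.closedBall (0 : Sp d) (1 / 2), F.D ξ ‖x‖ ≤
      ∫ _x in Metric.closedBall (0 : Sp d) (1 / 2), a := by
    refine setIntegral_mono_on ?_ ?_ measurableSet_closedBall (fun x _ => F.D_le ha ξ _)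
    · exact ((F.D_cont ha ξ).comp continuous_norm).continuousOn.integrableOn_compact
        (isCompact_closedBall _ _)
    · exact integrableOn_const measure_closedBall_lt_top.ne
  refine h3.trans (le_of_eq ?_)
  rw [setIntegral_const, smul_eq_mul, mul_comm]
  rfl

/-- Changing the `J`-th shell from nothing to a bump lowers the partition function. -/
lemma Family.Z_gap (ha : 0 ≤ a) (ha2 : a ≤ 1 / 2) {lam : ℝ} (hl : 0 ≤ lam) {n : ℕ} (hn : 1 ≤ n)
    (ξ : ℕ → ℕ) (J m : ℕ) (hJ : ξ J = 0) :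
    lam ^ 2 / 2 * ((volume (Metric.closedBall (0 : Sp d) (1 / 2))).toReal *
      ∫ x : Sp d, F.h J m ‖x‖) ≤ F.Z n lam ξ - F.Z n lam (Function.update ξ J m) := by
  have hD : ∀ t, F.D (Function.update ξ J m) t = F.D ξ t + F.h J m t := by
    intro t
    unfold Family.D
    have s1 := F.summable ha (Function.update ξ J m) t
    have s2 := F.summable ha ξ t
    rw [s1.tsum_eq_add_tsum_ite J, s2.tsum_eq_add_tsum_ite J]
    have : ∀ c, (if c = J then 0 else F.h c (Function.update ξ J m c) t) =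
        if c = J then 0 else F.h c (ξ c) t := by
      intro c
      split_ifs with h
      · rfl
      · rw [Function.update_of_ne h]
    simp only [this, Function.update_self, hJ, F.zero]
    ring
  have hpot : ∀ t, F.pot ξ t ≤ F.pot (Function.update ξ J m) t := by
    intro t
    unfold Family.pot
    refine neg_le_neg (Real.log_le_log (F.one_sub_pos ha ha2 _ t) ?_)
    rw [hD]
    have := F.nonneg J m t
    linarith
  have hdiff := partitionFunction_diff (F.phi_cont ha ha2 ξ) (F.phi_nonneg ha ha2 ξ)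
    (F.phi_cont ha ha2 (Function.update ξ J m)) (fun x => hpot ‖x‖) hl n
  refine le_trans ?_ hdiff
  refine mul_le_mul_of_nonneg_left ?_ (by positivity)
  refine term_two_diff (F.cont J m) (F.nonneg J m) ?_ (F.phi_cont ha ha2 ξ)
    (F.phi_nonneg ha ha2 ξ) (F.phi_cont ha ha2 _) (F.phi_nonneg ha ha2 _) ?_ hn
  · intro t ht
    refine le_antisymm ((F.le_tent J m t).trans ?_) (F.nonneg _ _ _)
    rw [tent_eq_zero_of_ge ((rad_le_half J).trans ht)]
  · intro x
    unfold Family.phi
    rw [F.exp_pot ha ha2, F.exp_pot ha ha2, hD]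
    ring

end pots

/-! ### The Baire category argument -/

/-- The cylinder of the sequences that agree with `ξ` below `J`. -/
def cyl (ξ : ℕ → ℕ) (J : ℕ) : Set (ℕ → ℕ) := {η | ∀ c < J, η c = ξ c}

lemma cyl_open (ξ : ℕ → ℕ) (J : ℕ) : IsOpen (cyl ξ J) := by
  have : cyl ξ J = (Finset.range J : Set ℕ).pi (fun c => {ξ c}) := by
    ext η; simp [cyl, Set.mem_pi]
  rw [this]
  exact isOpen_set_pi (Finset.finite_toSet _) fun c _ => isOpen_discrete _

lemma exists_cyl_sub {U : Set (ℕ → ℕ)} (hU : IsOpen U) {ξ : ℕ → ℕ} (h : ξ ∈ U) (J₀ : ℕ) :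
    ∃ J, J₀ ≤ J ∧ cyl ξ J ⊆ U := by
  obtain ⟨I, u, hu, hsub⟩ := isOpen_pi_iff.1 hU ξ h
  refine ⟨max J₀ (I.sup id + 1), le_max_left _ _, fun η hη => hsub ?_⟩
  intro c hc
  have hc' : c ≤ I.sup id := Finset.le_sup (f := id) hc
  have : η c = ξ c := hη c (by have := le_max_right J₀ (I.sup id + 1); omega)
  rw [this]
  exact (hu c hc).2

lemma exists_rad_lt {d : ℕ} (S : Finset (Fin d → ℚ)) (J₀ : ℕ) :
    ∃ J, J₀ ≤ J ∧ ∀ x ∈ S, ‖(pt x : Sp d)‖ = 0 ∨ rad J ≤ ‖(pt x : Sp d)‖ := by
  classical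
  induction S using Finset.induction_on with
  | empty => exact ⟨J₀, le_refl _, by simp⟩
  | insert y S _ ih =>
    obtain ⟨J, hJ, h⟩ := ih
    by_cases hy : ‖(pt y : Sp d)‖ = 0
    · refine ⟨J, hJ, fun x hx => ?_⟩
      rcases Finset.mem_insert.1 hx with rfl | hx
      · exact Or.inl hy
      · exact h x hx
    · have hpos : 0 < ‖(pt y : Sp d)‖ := lt_of_le_of_ne (norm_nonneg _) (Ne.symm hy)
      have hlim : Tendsto rad atTop (𝓝 0) := summable_rad.tendsto_atTop_zero
      obtain ⟨N, hN⟩ := ((tendsto_order.1 hlim).2 _ hpos).exists_forall_of_atTop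
      refine ⟨max J N, hJ.trans (le_max_left _ _), fun x hx => ?_⟩
      rcases Finset.mem_insert.1 hx with rfl | hx
      · exact Or.inr (hN _ (le_max_right _ _)).le
      · rcases h x hx with h0 | h0
        · exact Or.inl h0
        · exact Or.inr ((rad_anti (le_max_left _ _)).trans h0)

/-- The oracle attached to a radial potential by a rounding rule. -/
def oracle {d : ℕ} (R : ℝ → Query d → ℚ) (φ : Sp d → ℝ) : Query d → ℚ :=
  fun q => R (Real.exp (-(φ (pt q.1)))) q

/-- `A` approximates the partition functions of the box `Λ_n` to every relative error `ε`. -/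
def Approximates {d : ℕ} (A : Procedure d) (O : Query d → ℚ) (φ : Sp d → ℝ) (lam : ℝ)
    (n : ℕ) : Prop :=
  ∀ ε : ℚ, 0 < ε → ε < 1 → ∃ r : ℚ, A n ε O = some r ∧
    |(r : ℝ) - partitionFunction φ (box d n) lam| ≤ (ε : ℝ) * partitionFunction φ (box d n) lam

lemma nowhere_dense [Nontrivial (Sp d)] (F : Family d a) (ha : 0 < a) (ha2 : a ≤ 1 / 2) {lam : ℝ}
    (hl : 0 < lam) {n : ℕ} (hn : 1 ≤ n) (R : ℝ → Query d → ℚ) (A : Procedure d)
    (hA : FiniteUse A) :
    ¬ (interior (closure {ξ : ℕ → ℕ |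
      Approximates A (oracle R (F.phi ξ)) (F.phi ξ) lam n})).Nonempty := by
  classical
  set Succ : Set (ℕ → ℕ) := {ξ | Approximates A (oracle R (F.phi ξ)) (F.phi ξ) lam n} with hSucc
  rintro ⟨ξ₀, hξ₀⟩
  obtain ⟨J, -, hJ⟩ := exists_cyl_sub isOpen_interior hξ₀ 0
  have hdense : ∀ η, η ∈ cyl ξ₀ J → ∀ V : Set (ℕ → ℕ), IsOpen V → η ∈ V → ∃ ζ ∈ V, ζ ∈ Succ := by
    intro η hη V hV hηV
    have : η ∈ closure Succ := interior_subset (hJ hη)
    exact mem_closure_iff.1 this V hV hηV
  -- the size of the gap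
  set v : ℝ := (volume (Metric.closedBall (0 : Sp d) (1 / 2))).toReal with hv
  have hvpos : 0 < v := by
    refine ENNReal.toReal_pos ?_ measure_closedBall_lt_top.ne
    exact (Metric.measure_closedBall_pos volume _ (by norm_num)).ne'
  set E : ℝ := lam ^ 2 / 2 * (v * ((1 / 2) * ∫ x : Sp d, tent a J ‖x‖)) with hE
  have hEpos : 0 < E := by
    have := tent_integral_pos (d := d) ha J
    positivity
  set M : ℝ := bound d n lam with hM
  have hM0 : 0 ≤ M := by
    have h1 := partitionFunction_nonneg (φ := F.phi ξ₀) hl.le n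
    exact h1.trans (partitionFunction_le (F.phi_cont ha.le ha2 _) (F.phi_nonneg ha.le ha2 _) hl.le n)
  obtain ⟨ε, hε0, hε1⟩ := exists_rat_btwn
    (show (0 : ℝ) < min 1 (E / (8 * (M + 1))) from lt_min one_pos (by positivity))
  have hε0' : (0 : ℚ) < ε := by exact_mod_cast hε0
  have hε1' : ε < 1 := by
    have := hε1.trans_le (min_le_left _ _)
    exact_mod_cast this
  have hεM : (ε : ℝ) * M ≤ E / 8 := by
    have h1 : (ε : ℝ) ≤ E / (8 * (M + 1)) := (hε1.trans_le (min_le_right _ _)).le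
    calc (ε : ℝ) * M ≤ E / (8 * (M + 1)) * (M + 1) := by
          refine mul_le_mul h1 (by linarith) hM0 (by positivity)
      _ = E / 8 := by field_simp
  have hZM : ∀ ξ, F.Z n lam ξ ≤ M := fun ξ =>
    partitionFunction_le (F.phi_cont ha.le ha2 _) (F.phi_nonneg ha.le ha2 _) hl.le n
  -- step 1: a successful point with empty `J`-th shell
  obtain ⟨η, hηV, hηS⟩ := hdense (fun c => if c < J then ξ₀ c else 0)
    (fun c hc => by simp [hc]) (cyl (fun c => if c < J then ξ₀ c else 0) (J + 1)) (cyl_open _ _)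
    (fun c _ => rfl)
  have hηJ : η J = 0 := by simpa using hηV J (by omega)
  have hηlt : ∀ c < J, η c = ξ₀ c := fun c hc => by simpa [hc] using hηV c (by omega)
  obtain ⟨r, hr, -⟩ := hηS ε hε0' hε1'
  obtain ⟨S, hS⟩ := hA n ε _ r hr
  set T : Finset (Fin d → ℚ) := S.image Prod.fst with hT
  obtain ⟨J', hJJ', hJ'⟩ := exists_rad_lt T (J + 1)
  obtain ⟨m, hm0, hmI⟩ := F.avoid J T
  -- step 2: the two truncated points
  set η₀ : ℕ → ℕ := fun c => if c < J' then η c else 0 with hη₀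
  set η₁ : ℕ → ℕ := Function.update η₀ J m with hη₁
  have hη₀J : η₀ J = 0 := by simp [hη₀, hηJ]
  have hgap : E ≤ F.Z n lam η₀ - F.Z n lam η₁ := by
    refine le_trans ?_ (F.Z_gap ha.le ha2 hl.le hn η₀ J m hη₀J)
    rw [hE]
    refine mul_le_mul_of_nonneg_left ?_ (by positivity)
    exact mul_le_mul_of_nonneg_left hmI hvpos.le
  -- step 3: nearby successful points
  have key : ∀ ζ₀ : ℕ → ℕ, (∀ c < J, ζ₀ c = ξ₀ c) →
      (∀ c < J', ∀ x ∈ T, F.h c (ζ₀ c) ‖(pt x : Sp d)‖ = F.h c (η c) ‖(pt x : Sp d)‖) →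
      |(r : ℝ) - F.Z n lam ζ₀| ≤ E / 4 := by
    intro ζ₀ h1 h2
    have hcont := (F.Z_cont ha.le ha2 hl.le n).continuousAt (x := ζ₀)
    have hnear : {ζ | |F.Z n lam ζ - F.Z n lam ζ₀| < E / 8} ∈ 𝓝 ζ₀ := by
      have h3 := Metric.continuousAt_iff'.1 hcont (E / 8) (by positivity)
      filter_upwards [h3] with ζ hζ
      simpa [Real.dist_eq] using hζ
    obtain ⟨V, hVsub, hVopen, hVmem⟩ := mem_nhds_iff.1 hnear
    obtain ⟨ζ, hζV, hζS⟩ := hdense ζ₀ h1 (V ∩ cyl ζ₀ J') (hVopen.inter (cyl_open _ _))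
      ⟨hVmem, fun c _ => rfl⟩
    have hor : ∀ s ∈ S, oracle R (F.phi ζ) s = oracle R (F.phi η) s := by
      intro s hs
      have hsT : s.1 ∈ T := Finset.mem_image_of_mem _ hs
      have hDD : F.D ζ ‖(pt s.1 : Sp d)‖ = F.D η ‖(pt s.1 : Sp d)‖ := by
        rcases hJ' s.1 hsT with h0 | h0
        · rw [F.D_nonpos ζ h0.le, F.D_nonpos η h0.le]
        · refine F.D_local h0 fun c hc => ?_
          rw [hζV.2 c hc]
          exact h2 c hc s.1 hsT
      unfold oracle Family.phi Family.pot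
      rw [hDD]
    have hrun := hS _ hor
    obtain ⟨r', hr', happ⟩ := hζS ε hε0' hε1'
    have hrr : r' = r := by
      rw [hrun] at hr'
      exact (Option.some.inj hr').symm
    rw [hrr] at happ
    have h3 : |(r : ℝ) - F.Z n lam ζ| ≤ E / 8 := by
      refine happ.trans (le_trans ?_ hεM)
      exact mul_le_mul_of_nonneg_left (hZM ζ) hε0.le
    have h4 : |F.Z n lam ζ - F.Z n lam ζ₀| < E / 8 := hVsub hζV.1
    calc |(r : ℝ) - F.Z n lam ζ₀|
        = |((r : ℝ) - F.Z n lam ζ) + (F.Z n lam ζ - F.Z n lam ζ₀)| := by ring_nf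
      _ ≤ |(r : ℝ) - F.Z n lam ζ| + |F.Z n lam ζ - F.Z n lam ζ₀| := abs_add_le _ _
      _ ≤ E / 4 := by linarith
  have k0 := key η₀ (fun c hc => by
      have : c < J' := by omega
      simp [hη₀, this, hηlt c hc]) (fun c hc x _ => by simp [hη₀, hc])
  have k1 := key η₁ (fun c hc => by
      have h1 : c ≠ J := by omega
      have h2 : c < J' := by omega
      simp [hη₁, Function.update_of_ne h1, hη₀, h2, hηlt c hc]) (fun c hc x hx => by
      by_cases hcJ : c = J
      · subst hcJ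
        simp only [hη₁, Function.update_self]
        rw [hm0 x hx, hηJ, F.zero]
      · simp [hη₁, Function.update_of_ne hcJ, hη₀, hc])
  have := abs_le.1 k0
  have := abs_le.1 k1
  linarith

/-- **Theorem.** For every dimension `d ≥ 1`, every rational activity `λ > 0`, every rounding rule
`R` for the oracle and every sequence of oracle procedures with finite use (in particular for the
list of all deterministic oracle algorithms, whatever their running time), there is a continuous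
isotropic repulsive pair potential `φ` of finite range, with `λ < e / Δ_φ`, such that no procedure
of the sequence approximates `Z_{Λ_n}(λ)` to every relative error, for any `n ≥ 1`. -/
theorem no_oracle (d : ℕ) (hd : 1 ≤ d) (lam : ℚ) (hlam : 0 < lam)
    (R : ℝ → Query d → ℚ) (_hR : ∀ t q, |(R t q : ℝ) - t| ≤ (1 / 2 : ℝ) ^ q.2)
    (A : ℕ → Procedure d) (hA : ∀ i, FiniteUse (A i)) :
    ∃ φ : Sp d → ℝ, Continuous φ ∧ (∀ x y, ‖x‖ = ‖y‖ → φ x = φ y) ∧ (∀ x, 0 ≤ φ x) ∧
      (∀ x, 1 / 2 < ‖x‖ → φ x = 0) ∧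
      (lam : ℝ) * connectiveConstant φ < Real.exp 1 ∧
      ∀ i n, 1 ≤ n → ¬ Approximates (A i) (oracle R φ) φ lam n := by
  classical
  have : Nonempty (Fin d) := ⟨⟨0, hd⟩⟩
  have : Nontrivial (Sp d) := inferInstance
  have hl : (0 : ℝ) < lam := by exact_mod_cast hlam
  set v : ℝ := (volume (Metric.closedBall (0 : Sp d) (1 / 2))).toReal with hv
  have hv0 : 0 ≤ v := ENNReal.toReal_nonneg
  set a : ℝ := min (1 / 2) (1 / ((lam : ℝ) * v + 1)) with ha_def
  have ha : 0 < a := lt_min (by norm_num) (by positivity)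
  have ha2 : a ≤ 1 / 2 := min_le_left _ _
  obtain ⟨F⟩ := exists_family (d := d) ha
  -- a point outside all the bad sets
  obtain ⟨ξ, hξ⟩ : ∃ ξ : ℕ → ℕ, ∀ i n, 1 ≤ n →
      ¬ Approximates (A i) (oracle R (F.phi ξ)) (F.phi ξ) lam n := by
    by_contra hcon
    push Not at hcon
    have hU : ⋃ p : ℕ × {n : ℕ // 1 ≤ n}, closure {ξ : ℕ → ℕ |
        Approximates (A p.1) (oracle R (F.phi ξ)) (F.phi ξ) lam p.2.1} = Set.univ := by
      rw [Set.eq_univ_iff_forall]
      intro ξ
      obtain ⟨i, n, hn, h⟩ := hcon ξ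
      exact Set.mem_iUnion.2 ⟨(i, ⟨n, hn⟩), subset_closure h⟩
    obtain ⟨p, hp⟩ := nonempty_interior_of_iUnion_of_closed (fun _ => isClosed_closure) hU
    exact nowhere_dense F ha ha2 hl p.2.2 R (A p.1) (hA p.1) hp
  refine ⟨F.phi ξ, F.phi_cont ha.le ha2 ξ, ?_, F.phi_nonneg ha.le ha2 ξ, ?_, ?_, hξ⟩
  · intro x y hxy
    unfold Family.phi
    rw [hxy]
  · intro x hx
    exact F.pot_far ξ hx.le
  · have h1 := F.connective_le ha.le ha2 ξ
    have h2 : (lam : ℝ) * connectiveConstant (F.phi ξ) ≤ lam * (a * v) :=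
      mul_le_mul_of_nonneg_left h1 hl.le
    have h3 : (lam : ℝ) * (a * v) ≤ 1 := by
      have : a ≤ 1 / ((lam : ℝ) * v + 1) := min_le_right _ _
      calc (lam : ℝ) * (a * v) = a * (lam * v) := by ring
        _ ≤ 1 / ((lam : ℝ) * v + 1) * (lam * v) :=
            mul_le_mul_of_nonneg_right this (by positivity)
        _ ≤ 1 := by
            rw [one_div, inv_mul_le_iff₀ (by positivity)]
            linarith
    have h4 : (1 : ℝ) < Real.exp 1 := Real.one_lt_exp_iff.2 one_pos
    linarith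

end Pool.Agent.Lib.P8e91ed.NoOracle
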