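import Pool.Agent.Lib.P8e91ed.MixedDiff

/-!
Error of the sparse quadrature formula (module Smol of MP_8e91ed_lc).
-/

set_option autoImplicit false

open MeasureTheory Finset
open scoped ENNReal

noncomputable section

namespace Pool.Agent.Lib.P8e91ed

/-! ### Sub-cells and their volumes -/

/-- box with corner `a` and side `s` -/
private def bx {d : ℕ} (a : Fin d → ℝ) (s : ℝ) : Set (Sp d) := {x | ∀ t, a t ≤ x t ∧ x t < a t + s}

private lemma bx_eq {d : ℕ} (a : Fin d → ℝ) (s : ℝ) :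
    bx a s = (@WithLp.ofLp 2 (Fin d → ℝ)) ⁻¹' (Set.univ.pi fun t => Set.Ico (a t) (a t + s)) := by
  ext x
  simp [bx, Set.mem_pi]

private lemma measurableSet_bx {d : ℕ} (a : Fin d → ℝ) (s : ℝ) : MeasurableSet (bx a s) := by
  rw [bx_eq]
  exact (PiLp.volume_preserving_ofLp (Fin d)).measurable
    (MeasurableSet.univ_pi fun t => measurableSet_Ico)

private lemma volume_bx {d : ℕ} (a : Fin d → ℝ) {s : ℝ} : volume (bx a s) =
    (ENNReal.ofReal s) ^ d := by
  rw [bx_eq, (PiLp.volume_preserving_ofLp (Fin d)).measure_preimage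
    (MeasurableSet.univ_pi fun t => measurableSet_Ico).nullMeasurableSet, volume_pi, Measure.pi_pi]
  simp [Real.volume_Ico]

private lemma cell_eq {d : ℕ} (c : Fin d → ℤ) : cell c = bx (fun t => (c t : ℝ)) 1 := rfl

private lemma measurableSet_cell' {d : ℕ} (c : Fin d → ℤ) : MeasurableSet (cell c) :=
  measurableSet_bx _ _

private lemma volume_cell' {d : ℕ} (c : Fin d → ℤ) : volume (cell c) = 1 := by
  rw [cell_eq, volume_bx]; simp

/-! ### Rounding down -/

/-- rounding down to multiples of `2 ^ (-m)` -/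
private def rd {d : ℕ} (m : ℕ) (x : Sp d) : Sp d :=
  WithLp.toLp 2 (fun t => (⌊2 ^ m * x t⌋ : ℝ) / 2 ^ m)

private lemma rd_apply {d : ℕ} (m : ℕ) (x : Sp d) (t : Fin d) :
    rd m x t = (⌊2 ^ m * x t⌋ : ℝ) / 2 ^ m := rfl

private lemma rd_le {d : ℕ} (m : ℕ) (x : Sp d) (t : Fin d) : rd m x t ≤ x t := by
  rw [rd_apply, div_le_iff₀ (by positivity), mul_comm]
  exact Int.floor_le _

private lemma lt_rd {d : ℕ} (m : ℕ) (x : Sp d) (t : Fin d) : x t < rd m x t + 1 / 2 ^ m := by
  rw [rd_apply, ← add_div, lt_div_iff₀ (by positivity), mul_comm]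
  exact Int.lt_floor_add_one _

private lemma rd_mem {d : ℕ} (m : ℕ) {x : Sp d} {c : Fin d → ℤ} (hx : x ∈ cell c) :
    rd m x ∈ cell c := by
  intro t
  refine ⟨?_, (rd_le m x t).trans_lt (hx t).2⟩
  rw [rd_apply, le_div_iff₀ (by positivity)]
  have : (2 ^ m * c t : ℤ) ≤ ⌊2 ^ m * x t⌋ := by
    rw [Int.le_floor]
    push_cast
    exact mul_le_mul_of_nonneg_left (hx t).1 (by positivity)
  calc (c t : ℝ) * 2 ^ m = ((2 ^ m * c t : ℤ) : ℝ) := by push_cast; ring
    _ ≤ _ := by exact_mod_cast this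

private lemma measurable_rd {d : ℕ} (m : ℕ) : Measurable (rd (d := d) m) := by
  have h : Measurable (fun x : Sp d => (fun t => (⌊2 ^ m * x t⌋ : ℝ) / 2 ^ m : Fin d → ℝ)) := by
    refine measurable_pi_lambda _ fun t => ?_
    have h1 : Measurable fun x : Sp d => x t :=
      (measurable_pi_apply t).comp (PiLp.volume_preserving_ofLp (Fin d)).measurable
    have h2 : Measurable fun x : Sp d => (⌊2 ^ m * x t⌋ : ℝ) :=
      measurable_from_top.comp (Int.measurable_floor.comp (h1.const_mul _))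
    exact h2.div_const _
  exact (PiLp.volume_preserving_toLp (Fin d)).measurable.comp h

private lemma norm_rd_sub {d : ℕ} (hd : 1 ≤ d) (m : ℕ) (x : Sp d) :
    ‖rd m x - x‖ ≤ d * (1 / 2 ^ m) := by
  rw [EuclideanSpace.norm_eq, Real.sqrt_le_iff]
  refine ⟨by positivity, ?_⟩
  calc ∑ t, ‖(rd m x - x) t‖ ^ 2 ≤ ∑ t : Fin d, (1 / 2 ^ m : ℝ) ^ 2 := by
        refine Finset.sum_le_sum fun t _ => ?_
        have h1 := rd_le m x t
        have h2 := lt_rd m x t
        have h3 : ‖(rd m x - x) t‖ ≤ 1 / 2 ^ m := by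
          rw [PiLp.sub_apply, Real.norm_eq_abs, abs_le]
          constructor <;> linarith [show (0 : ℝ) < 1 / 2 ^ m by positivity]
        gcongr
    _ = d * (1 / 2 ^ m) ^ 2 := by simp
    _ ≤ (d : ℝ) ^ 2 * (1 / 2 ^ m) ^ 2 := by
        have : (1 : ℝ) ≤ d := by exact_mod_cast hd
        gcongr
        nlinarith
    _ = _ := by ring

/-- rounding with levels `0, ..., B, ∞` -/
private def rb {d : ℕ} (B m : ℕ) (x : Sp d) : Sp d := if m ≤ B then rd m x else x

private lemma measurable_rb {d : ℕ} (B m : ℕ) : Measurable (rb (d := d) B m) := by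
  unfold rb
  split_ifs
  · exact measurable_rd m
  · exact measurable_id

private lemma rb_mem {d : ℕ} (B m : ℕ) {x : Sp d} {c : Fin d → ℤ} (hx : x ∈ cell c) :
    rb B m x ∈ cell c := by
  unfold rb
  split_ifs
  · exact rd_mem m hx
  · exact hx

private lemma norm_rb_sub {d : ℕ} (hd : 1 ≤ d) (B m : ℕ) (x : Sp d) :
    ‖rb B m x - x‖ ≤ d * (1 / 2 ^ m) := by
  unfold rb
  split_ifs
  · exact norm_rd_sub hd m x
  · simp only [sub_self, norm_zero]; positivity

private lemma neg_one_pow_card {k : ℕ} (e : Fin k → Bool) :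
    (-1 : ℝ) ^ (univ.filter fun i => e i = true).card = ∏ i, if e i = true then (-1 : ℝ) else 1 := by
  rw [Finset.prod_ite, Finset.prod_const, Finset.prod_const_one, mul_one]

private lemma telescope {k : ℕ} (n : ℕ) (E : (Fin k → ℕ) → ℝ) :
    ∑ b ∈ Fintype.piFinset (fun _ : Fin k => range (n + 1)),
      ∑ e ∈ (univ : Finset (Fin k → Bool)).filter (fun e => ∀ i, e i = true → 1 ≤ b i),
        (-1 : ℝ) ^ (univ.filter fun i => e i = true).card *
          E (fun i => b i - if e i then 1 else 0) = E (fun _ => n) := by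
  have h1 : ∀ b : Fin k → ℕ, ∑ e ∈ (univ : Finset (Fin k → Bool)).filter
      (fun e => ∀ i, e i = true → 1 ≤ b i), (-1 : ℝ) ^ (univ.filter fun i => e i = true).card *
          E (fun i => b i - if e i then 1 else 0) =
      ∑ e : Fin k → Bool, if (∀ i, e i = true → 1 ≤ b i) then
        (-1 : ℝ) ^ (univ.filter fun i => e i = true).card *
          E (fun i => b i - if e i then 1 else 0) else 0 := fun b => Finset.sum_filter _ _
  simp_rw [h1]
  rw [Finset.sum_comm]
  have h2 : ∀ e : Fin k → Bool, (∑ b ∈ Fintype.piFinset (fun _ : Fin k => range (n + 1)),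
      if (∀ i, e i = true → 1 ≤ b i) then
        (-1 : ℝ) ^ (univ.filter fun i => e i = true).card *
          E (fun i => b i - if e i then 1 else 0) else 0) =
      ∑ b ∈ Fintype.piFinset (fun _ : Fin k => range (n + 1)),
        if (∀ i, e i = true → b i + 1 ≤ n) then
        (-1 : ℝ) ^ (univ.filter fun i => e i = true).card * E b else 0 := by
    intro e
    rw [← Finset.sum_filter, ← Finset.sum_filter]
    refine Finset.sum_bij' (fun b _ i => b i - if e i then 1 else 0)
      (fun b _ i => b i + if e i then 1 else 0) ?_ ?_ ?_ ?_ ?_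
    · intro b hb
      simp only [mem_filter, Fintype.mem_piFinset, mem_range] at hb ⊢
      refine ⟨fun i => ?_, fun i hi => ?_⟩
      · have := hb.1 i; split_ifs <;> omega
      · have h3 := hb.1 i
        have h4 := hb.2 i hi
        rw [hi]; simp only [if_true]; omega
    · intro b hb
      simp only [mem_filter, Fintype.mem_piFinset, mem_range] at hb ⊢
      refine ⟨fun i => ?_, fun i hi => ?_⟩
      · have := hb.1 i
        split_ifs with h
        · have := hb.2 i h; omega
        · omega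
      · rw [hi]; simp
    · intro b hb
      simp only [mem_filter, Fintype.mem_piFinset, mem_range] at hb
      funext i
      by_cases h : e i = true
      · have := hb.2 i h
        simp only [h, if_true]; omega
      · simp [h]
    · intro b hb
      funext i
      by_cases h : e i = true
      · simp [h]
      · simp [h]
    · intro b hb
      rfl
  simp_rw [h2]
  rw [Finset.sum_comm]
  have h3 : ∀ b : Fin k → ℕ, (∑ e : Fin k → Bool, if (∀ i, e i = true → b i + 1 ≤ n) then
      (-1 : ℝ) ^ (univ.filter fun i => e i = true).card * E b else 0) =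
      (∏ i, (1 - if b i + 1 ≤ n then (1 : ℝ) else 0)) * E b := by
    intro b
    have h4 : ∀ e : Fin k → Bool, (if (∀ i, e i = true → b i + 1 ≤ n) then
      (-1 : ℝ) ^ (univ.filter fun i => e i = true).card * E b else 0) =
        (∏ i, (if e i = true then (if b i + 1 ≤ n then (-1 : ℝ) else 0) else 1)) * E b := by
      intro e
      split_ifs with h
      · rw [neg_one_pow_card]
        congr 1
        refine Finset.prod_congr rfl fun i _ => ?_
        by_cases hi : e i = true
        · simp [hi, h i hi]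
        · simp [hi]
      · push Not at h
        obtain ⟨i, hi, hi'⟩ := h
        rw [Finset.prod_eq_zero (mem_univ i), zero_mul]
        rw [if_pos hi, if_neg (by omega)]
    simp_rw [h4]
    rw [← Finset.sum_mul]
    congr 1
    have := (Finset.prod_univ_sum (fun _ : Fin k => (univ : Finset Bool))
          (fun i s => if s = true then (if b i + 1 ≤ n then (-1 : ℝ) else 0) else 1))
    rw [Fintype.piFinset_univ] at this
    rw [← this]
    refine Finset.prod_congr rfl fun i _ => ?_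
    rw [Fintype.sum_bool]
    by_cases h : b i + 1 ≤ n <;> simp [h]
  simp_rw [h3]
  rw [Finset.sum_eq_single (fun _ => n)]
  · simp
  · intro b hb hne
    have : ∃ i, b i ≠ n := by
      by_contra h'
      push Not at h'
      exact hne (funext h')
    obtain ⟨i, hi⟩ := this
    rw [Fintype.mem_piFinset] at hb
    have := mem_range.1 (hb i)
    rw [Finset.prod_eq_zero (mem_univ i), zero_mul]
    rw [if_pos (by omega)]; simp
  · intro h
    exact absurd (Fintype.mem_piFinset.2 fun i => mem_range.2 (by omega)) h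

private lemma exists_omega {d : ℕ} (hd : 1 ≤ d) {q : Sp d → ℝ} {r : ℝ} (hq : IsPot q r)
    {C α : ℝ} (hα : 0 < α) (hreg : HolderAvg q C α) (hcell : ∀ c : Fin d → ℤ, volume (cell c) = 1) :
    ∃ C' : ℝ, 0 < C' ∧ ∀ m : ℕ, ∃ ω : Sp d → ℝ, Measurable ω ∧ (∀ x, 0 ≤ ω x) ∧
      (∀ x y z, ‖y - x‖ ≤ 2 * (d * (1 / 2 ^ m)) → ‖z - x‖ ≤ 2 * (d * (1 / 2 ^ m)) →
        |q y - q z| ≤ ω x) ∧
      ∀ (c : Fin d → ℤ) (a : Sp d), ∫⁻ x in cell c, ENNReal.ofReal (ω (x - a)) ≤
        ENNReal.ofReal (C' * (2 : ℝ) ^ (-(α * m))) := by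
  have hd' : (1 : ℝ) ≤ d := by exact_mod_cast hd
  refine ⟨max C 1 * (4 * d) ^ α, by positivity, fun m => ?_⟩
  set δ : ℝ := 4 * d * (1 / 2 ^ m) with hδ
  have hδ0 : 0 < δ := by positivity
  have hpow : δ ^ α = (4 * d) ^ α * (2 : ℝ) ^ (-(α * m)) := by
    rw [hδ, Real.mul_rpow (by positivity) (by positivity), one_div, ← Real.rpow_natCast,
      ← Real.rpow_neg (by norm_num), ← Real.rpow_mul (by norm_num)]
    congr 2
    ring
  by_cases h : δ ≤ 1
  · obtain ⟨ω, h1, h2, h3, h4, h5⟩ := hreg δ hδ0 h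
    refine ⟨ω, h1, h2, fun x y z hy hz => ?_, fun c a => ?_⟩
    · have hlt : 2 * ((d : ℝ) * (1 / 2 ^ m)) < δ := by
        rw [hδ]
        have : (0 : ℝ) < d * (1 / 2 ^ m) := by positivity
        linarith
      exact h4 x y z (hy.trans_lt hlt) (hz.trans_lt hlt)
    · calc ∫⁻ x in cell c, ENNReal.ofReal (ω (x - a)) ≤ ∫⁻ x, ENNReal.ofReal (ω (x - a)) :=
            setLIntegral_le_lintegral _ _
        _ = ∫⁻ x, ENNReal.ofReal (ω x) := lintegral_sub_right_eq_self
              (fun x => ENNReal.ofReal (ω x)) a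
        _ = ENNReal.ofReal (∫ x, ω x) := (ofReal_integral_eq_lintegral_ofReal h3
              (Filter.Eventually.of_forall h2)).symm
        _ ≤ _ := by
            refine ENNReal.ofReal_le_ofReal (h5.trans ?_)
            rw [hpow, ← mul_assoc]
            gcongr
            exact le_max_left _ _
  · push Not at h
    refine ⟨fun _ => 1, measurable_const, fun _ => zero_le_one, fun x y z _ _ => ?_,
      fun c a => ?_⟩
    · rw [abs_le]
      constructor <;> linarith [hq.nonneg y, hq.nonneg z, hq.le_one y, hq.le_one z]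
    · simp only [ENNReal.ofReal_one, lintegral_const, Measure.restrict_apply_univ, hcell, one_mul]
      rw [← ENNReal.ofReal_one]
      refine ENNReal.ofReal_le_ofReal ?_
      have h1 : (1 : ℝ) ≤ δ ^ α := Real.one_le_rpow h.le hα.le
      rw [mul_assoc, ← hpow]
      calc (1 : ℝ) = 1 * 1 := by ring
        _ ≤ _ := by gcongr; exact le_max_right _ _

/-- integrating out the variables one after the other -/
private lemma integ_out {k : ℕ} {X : Type*} [MeasurableSpace X] (μ : Fin k → Measure X)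
    [∀ i, IsProbabilityMeasure (μ i)] (φ : Fin k → Fin k) (A : Fin k → X → X → ℝ≥0∞)
    (hA : ∀ i, Measurable (Function.uncurry (A i))) (κ : Fin k → ℝ≥0∞) (ρ : Fin k → ℤ)
    (S : Finset (Fin k)) :
    (∀ i ∈ S, ∀ y, ∫⁻ x, A i x y ∂μ i ≤ κ i) → (∀ i ∈ S, ρ i < ρ (φ i)) →
    ∫⁻ x, ∏ i ∈ S, A i (x i) (x (φ i)) ∂Measure.pi μ ≤ ∏ i ∈ S, κ i := by
  induction' hn : S.card with n ih generalizing S
  · intro _ _
    rw [Finset.card_eq_zero] at hn
    subst hn
    simp
  · intro hκ hρ
    obtain ⟨i0, hi0, hmin⟩ := Finset.exists_min_image S ρ (Finset.card_pos.1 (by omega))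
    have ih' := ih (S.erase i0) (by rw [card_erase_of_mem hi0]; omega)
      (fun i hi => hκ i (mem_of_mem_erase hi)) (fun i hi => hρ i (mem_of_mem_erase hi))
    have hmeas : ∀ i, Measurable fun x : Fin k → X => A i (x i) (x (φ i)) := fun i => by
      have h : Measurable fun x : Fin k → X => (x i, x (φ i)) :=
        (measurable_pi_apply i).prodMk (measurable_pi_apply (φ i))
      exact (hA i).comp h
    set G : (Fin k → X) → ℝ≥0∞ := fun x => ∏ i ∈ S.erase i0, A i (x i) (x (φ i)) with hG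
    have hGm : Measurable G := Finset.measurable_prod _ fun i _ => hmeas i
    have hGu : ∀ x y, G (Function.update x i0 y) = G x := by
      intro x y
      rw [hG]
      refine Finset.prod_congr rfl fun i hi => ?_
      have h1 : i ≠ i0 := ne_of_mem_erase hi
      have h2 : φ i ≠ i0 := by
        intro h
        have h3 := hρ i (mem_of_mem_erase hi)
        have h4 := hmin i (mem_of_mem_erase hi)
        rw [h] at h3
        omega
      rw [Function.update_of_ne h1, Function.update_of_ne h2]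
    have hφ0 : φ i0 ≠ i0 := fun h => by
      have := hρ i0 hi0
      rw [h] at this
      omega
    have hFm : Measurable fun x : Fin k → X => A i0 (x i0) (x (φ i0)) * G x :=
      (hmeas i0).mul hGm
    rcases isEmpty_or_nonempty (Fin k → X) with he | ⟨⟨x0⟩⟩
    · have : IsEmpty (Fin k → X) := he
      rw [lintegral_of_isEmpty]
      exact bot_le
    calc ∫⁻ x, ∏ i ∈ S, A i (x i) (x (φ i)) ∂Measure.pi μ
        = ∫⁻ x, A i0 (x i0) (x (φ i0)) * G x ∂Measure.pi μ := by
          refine lintegral_congr fun x => ?_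
          rw [hG, Finset.mul_prod_erase S (fun i => A i (x i) (x (φ i))) hi0]
      _ = (∫⋯∫⁻_univ, (fun x => A i0 (x i0) (x (φ i0)) * G x) ∂μ) x0 :=
          lintegral_eq_lmarginal_univ x0
      _ = (∫⋯∫⁻_(erase univ i0), (fun x => ∫⁻ y, A i0 (Function.update x i0 y i0)
            (Function.update x i0 y (φ i0)) * G (Function.update x i0 y) ∂μ i0) ∂μ) x0 := by
          rw [lmarginal_erase' _ hFm (mem_univ i0)]
      _ ≤ (∫⋯∫⁻_(erase univ i0), (fun x => ∫⁻ y, κ i0 * G (Function.update x i0 y) ∂μ i0)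
            ∂μ) x0 := by
          refine lmarginal_mono (fun x => ?_) x0
          dsimp only
          simp_rw [hGu, Function.update_self, Function.update_of_ne hφ0]
          have hm1 : Measurable fun y => A i0 y (x (φ i0)) := by
            have h : Measurable fun y : X => (y, x (φ i0)) :=
              measurable_id.prodMk measurable_const
            exact (hA i0).comp h
          rw [lintegral_mul_const _ hm1, lintegral_const, measure_univ, mul_one]
          gcongr
          exact hκ i0 hi0 _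
      _ = (∫⋯∫⁻_univ, (fun x => κ i0 * G x) ∂μ) x0 := by
          rw [lmarginal_erase' _ (hGm.const_mul _) (mem_univ i0)]
      _ = ∫⁻ x, κ i0 * G x ∂Measure.pi μ := (lintegral_eq_lmarginal_univ x0).symm
      _ = κ i0 * ∫⁻ x, G x ∂Measure.pi μ := lintegral_const_mul _ hGm
      _ ≤ κ i0 * ∏ i ∈ S.erase i0, κ i := by gcongr
      _ = ∏ i ∈ S, κ i := Finset.mul_prod_erase S κ hi0

private lemma holder_prod {k : ℕ} {X : Type*} [MeasurableSpace X] (μ : Fin k → Measure X)
    [∀ i, IsProbabilityMeasure (μ i)] (φ : Fin k → Fin k) (A : Fin k → X → X → ℝ≥0∞)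
    (hA : ∀ i, Measurable (Function.uncurry (A i))) (κ : Fin k → ℝ≥0∞) (J : Finset (Fin k))
    (hκ : ∀ i ∈ J, ∀ y, ∫⁻ x, A i x y ∂μ i ≤ κ i) (hφ : ∀ i ∈ J, φ i ≠ i) :
    ∫⁻ x, ∏ i ∈ J, (A i (x i) (x (φ i))) ^ (1 / 2 : ℝ) ∂Measure.pi μ ≤
      ∏ i ∈ J, (κ i) ^ (1 / 2 : ℝ) := by
  have hmeas : ∀ i, Measurable fun x : Fin k → X => A i (x i) (x (φ i)) := fun i => by
    have h : Measurable fun x : Fin k → X => (x i, x (φ i)) :=
      (measurable_pi_apply i).prodMk (measurable_pi_apply (φ i))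
    exact (hA i).comp h
  set U := J.filter (fun i => i < φ i) with hU
  set D := J.filter (fun i => ¬ i < φ i) with hD
  have hsq : ∀ (T : Finset (Fin k)) (x : Fin k → X),
      (∏ i ∈ T, (A i (x i) (x (φ i))) ^ (1 / 2 : ℝ)) ^ (2 : ℝ) =
        ∏ i ∈ T, A i (x i) (x (φ i)) := by
    intro T x
    rw [← ENNReal.prod_rpow_of_nonneg (by norm_num)]
    refine Finset.prod_congr rfl fun i _ => ?_
    rw [← ENNReal.rpow_mul]; norm_num
  have hm : ∀ T : Finset (Fin k), Measurable fun x : Fin k → X =>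
      ∏ i ∈ T, (A i (x i) (x (φ i))) ^ (1 / 2 : ℝ) := fun T =>
    Finset.measurable_prod _ fun i _ => (hmeas i).pow_const _
  have h1 : ∫⁻ x, ∏ i ∈ U, A i (x i) (x (φ i)) ∂Measure.pi μ ≤ ∏ i ∈ U, κ i := by
    refine integ_out μ φ A hA κ (fun i => (i : ℤ)) U
      (fun i hi => hκ i (mem_of_mem_filter i hi)) fun i hi => ?_
    have := (mem_filter.1 hi).2
    rw [Fin.lt_def] at this
    exact_mod_cast this
  have h2 : ∫⁻ x, ∏ i ∈ D, A i (x i) (x (φ i)) ∂Measure.pi μ ≤ ∏ i ∈ D, κ i := by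
    refine integ_out μ φ A hA κ (fun i => -(i : ℤ)) D
      (fun i hi => hκ i (mem_of_mem_filter i hi)) fun i hi => ?_
    have h3 := (mem_filter.1 hi).2
    have h4 := hφ i (mem_filter.1 hi).1
    rw [Fin.lt_def] at h3
    have h5 : (φ i : ℕ) ≠ i := fun h => h4 (Fin.ext h)
    omega
  calc ∫⁻ x, ∏ i ∈ J, (A i (x i) (x (φ i))) ^ (1 / 2 : ℝ) ∂Measure.pi μ
      = ∫⁻ x, ((fun x : Fin k → X => ∏ i ∈ U, (A i (x i) (x (φ i))) ^ (1 / 2 : ℝ)) *
          (fun x : Fin k → X => ∏ i ∈ D, (A i (x i) (x (φ i))) ^ (1 / 2 : ℝ))) x ∂Measure.pi μ := by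
        refine lintegral_congr fun x => ?_
        rw [Pi.mul_apply, hU, hD, Finset.prod_filter_mul_prod_filter_not]
    _ ≤ (∫⁻ x, (∏ i ∈ U, (A i (x i) (x (φ i))) ^ (1 / 2 : ℝ)) ^ (2 : ℝ) ∂Measure.pi μ) ^
          (1 / 2 : ℝ) *
        (∫⁻ x, (∏ i ∈ D, (A i (x i) (x (φ i))) ^ (1 / 2 : ℝ)) ^ (2 : ℝ) ∂Measure.pi μ) ^
          (1 / 2 : ℝ) :=
        ENNReal.lintegral_mul_le_Lp_mul_Lq _ Real.HolderConjugate.two_two (hm U).aemeasurable
          (hm D).aemeasurable
    _ ≤ (∏ i ∈ U, κ i) ^ (1 / 2 : ℝ) * (∏ i ∈ D, κ i) ^ (1 / 2 : ℝ) := by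
        simp_rw [hsq]
        gcongr
    _ = ∏ i ∈ J, (κ i) ^ (1 / 2 : ℝ) := by
        rw [← ENNReal.prod_rpow_of_nonneg (by norm_num), ← ENNReal.prod_rpow_of_nonneg
          (by norm_num), hU, hD, Finset.prod_filter_mul_prod_filter_not]

/-- expansion of a product of sums -/
private lemma holder_sum {k : ℕ} {X : Type*} [MeasurableSpace X] (μ : Fin k → Measure X)
    [∀ i, IsProbabilityMeasure (μ i)] (A : Fin k → Fin k → X → X → ℝ≥0∞)
    (hA : ∀ i j, Measurable (Function.uncurry (A i j))) (κ : Fin k → ℝ≥0∞) (J : Finset (Fin k))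
    (N : Fin k → Finset (Fin k)) (hN : ∀ i, i ∉ N i)
    (hκ : ∀ i ∈ J, ∀ j y, ∫⁻ x, A i j x y ∂μ i ≤ κ i) :
    ∫⁻ x, ∏ i ∈ J, (2 * ∑ j ∈ N i, (A i j (x i) (x j)) ^ (1 / 2 : ℝ)) ∂Measure.pi μ ≤
      ∏ i ∈ J, (2 * (N i).card * (κ i) ^ (1 / 2 : ℝ)) := by
  have hmeas : ∀ i j, Measurable fun x : Fin k → X => A i j (x i) (x j) := fun i j => by
    have h : Measurable fun x : Fin k → X => (x i, x j) :=
      (measurable_pi_apply i).prodMk (measurable_pi_apply j)
    exact (hA i j).comp h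
  set T : Fin k → Finset (Fin k) := fun i => if i ∈ J then N i else {i} with hT
  set h : Fin k → Fin k → (Fin k → X) → ℝ≥0∞ := fun i j x =>
    if i ∈ J then (A i j (x i) (x j)) ^ (1 / 2 : ℝ) else 1 with hh
  have hhm : ∀ i j, Measurable (h i j) := by
    intro i j
    rw [hh]; dsimp only
    split_ifs
    · exact (hmeas i j).pow_const _
    · exact measurable_const
  have e1 : ∀ x : Fin k → X, ∏ i ∈ J, (2 * ∑ j ∈ N i, (A i j (x i) (x j)) ^ (1 / 2 : ℝ)) =
      2 ^ J.card * ∑ φ ∈ Fintype.piFinset T, ∏ i, h i (φ i) x := by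
    intro x
    rw [Finset.prod_mul_distrib, Finset.prod_const]
    congr 1
    rw [← Finset.prod_univ_sum T (fun i j => h i j x)]
    rw [← Finset.prod_subset (Finset.subset_univ J)]
    · refine Finset.prod_congr rfl fun i hi => ?_
      simp [hT, hh, hi]
    · intro i _ hi
      simp [hT, hh, hi]
  simp_rw [e1]
  rw [lintegral_const_mul _ (Finset.measurable_sum _ fun φ _ =>
    Finset.measurable_prod _ fun i _ => hhm i (φ i)),
    lintegral_finsetSum _ fun φ _ => Finset.measurable_prod _ fun i _ => hhm i (φ i)]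
  have e2 : ∀ φ ∈ Fintype.piFinset T, ∫⁻ x, ∏ i, h i (φ i) x ∂Measure.pi μ ≤
      ∏ i ∈ J, (κ i) ^ (1 / 2 : ℝ) := by
    intro φ hφ
    have e3 : ∀ x : Fin k → X, ∏ i, h i (φ i) x =
        ∏ i ∈ J, (A i (φ i) (x i) (x (φ i))) ^ (1 / 2 : ℝ) := by
      intro x
      rw [← Finset.prod_subset (Finset.subset_univ J)]
      · refine Finset.prod_congr rfl fun i hi => ?_
        simp [hh, hi]
      · intro i _ hi
        simp [hh, hi]
    simp_rw [e3]
    refine holder_prod μ φ (fun i => A i (φ i)) (fun i => hA i (φ i)) κ J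
      (fun i hi y => hκ i hi (φ i) y) fun i hi he => ?_
    have := Fintype.mem_piFinset.1 hφ i
    simp only [hT, hi, if_true] at this
    rw [he] at this
    exact hN i this
  calc _ ≤ 2 ^ J.card * ∑ φ ∈ Fintype.piFinset T, ∏ i ∈ J, (κ i) ^ (1 / 2 : ℝ) := by
        gcongr with φ hφ
        exact e2 φ hφ
    _ = _ := by
        rw [Finset.sum_const, Fintype.card_piFinset, nsmul_eq_mul, Finset.prod_mul_distrib,
          Finset.prod_mul_distrib, Finset.prod_const]
        rw [mul_assoc]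
        congr 2
        push_cast
        rw [← Finset.prod_subset (Finset.subset_univ J)]
        · refine Finset.prod_congr rfl fun i hi => ?_
          simp [hT, hi]
        · intro i _ hi
          simp [hT, hi]

private lemma vr_nonneg' {k : ℕ} (f : Fin k → Fin k → Bool → Bool → ℝ) (i j : Fin k) :
    0 ≤ vr f i j := by
  unfold vr
  split_ifs
  · exact le_max_of_le_left (abs_nonneg _)
  · exact le_max_of_le_left (abs_nonneg _)

/-! ### The integrals of the rounded interaction -/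

/-- the interaction of the rounded points -/
private def GG {d k : ℕ} (q : Sp d → ℝ) (B : ℕ) (b : Fin k → ℕ) (x : Fin k → Sp d) : ℝ :=
  ∏ i, ∏ j, if i < j then q (rb B (b i) (x i) - rb B (b j) (x j)) else 1

/-- the integral of the interaction of the rounded points -/
private def EE {d k : ℕ} (q : Sp d → ℝ) (B : ℕ) (c : Fin k → Fin d → ℤ) (b : Fin k → ℕ) : ℝ :=
  ∫ x in Set.univ.pi (fun i => cell (c i)), GG q B b x

private lemma GG_nonneg {d k : ℕ} {q : Sp d → ℝ} {r : ℝ} (hq : IsPot q r) (B : ℕ)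
    (b : Fin k → ℕ) (x : Fin k → Sp d) : 0 ≤ GG q B b x := by
  unfold GG
  refine prod_nonneg fun i _ => prod_nonneg fun j _ => ?_
  split_ifs
  · exact hq.nonneg _
  · exact zero_le_one

private lemma GG_le_one {d k : ℕ} {q : Sp d → ℝ} {r : ℝ} (hq : IsPot q r) (B : ℕ)
    (b : Fin k → ℕ) (x : Fin k → Sp d) : GG q B b x ≤ 1 := by
  unfold GG
  refine prod_le_one (fun i _ => prod_nonneg fun j _ => ?_) fun i _ =>
    prod_le_one (fun j _ => ?_) fun j _ => ?_
  · split_ifs
    · exact hq.nonneg _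
    · exact zero_le_one
  · split_ifs
    · exact hq.nonneg _
    · exact zero_le_one
  · split_ifs
    · exact hq.le_one _
    · exact le_rfl

private lemma measurable_GG {d k : ℕ} {q : Sp d → ℝ} {r : ℝ} (hq : IsPot q r) (B : ℕ)
    (b : Fin k → ℕ) : Measurable (GG q B b) := by
  unfold GG
  refine Finset.measurable_prod _ fun i _ => Finset.measurable_prod _ fun j _ => ?_
  split_ifs
  · exact hq.meas.comp (((measurable_rb B (b i)).comp (measurable_pi_apply i)).sub
      ((measurable_rb B (b j)).comp (measurable_pi_apply j)))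
  · exact measurable_const

private lemma measurableSet_cells {d k : ℕ} (c : Fin k → Fin d → ℤ) :
    MeasurableSet (Set.univ.pi (fun i => cell (c i))) :=
  MeasurableSet.univ_pi fun _ => measurableSet_cell' _

private lemma volume_cells {d k : ℕ} (c : Fin k → Fin d → ℤ) :
    volume (Set.univ.pi (fun i => cell (c i))) = 1 := by
  rw [volume_pi, Measure.pi_pi]
  simp [volume_cell']

private lemma integrableOn_GG {d k : ℕ} {q : Sp d → ℝ} {r : ℝ} (hq : IsPot q r) (B : ℕ)
    (b : Fin k → ℕ) (c : Fin k → Fin d → ℤ) :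
    IntegrableOn (GG q B b) (Set.univ.pi (fun i => cell (c i))) := by
  have : IsFiniteMeasure (volume.restrict (Set.univ.pi (fun i => cell (c i)))) :=
    ⟨by rw [Measure.restrict_apply_univ, volume_cells]; simp⟩
  refine Integrable.of_bound (measurable_GG hq B b).aestronglyMeasurable 1
    (Filter.Eventually.of_forall fun x => ?_)
  rw [Real.norm_eq_abs, abs_of_nonneg (GG_nonneg hq B b x)]
  exact GG_le_one hq B b x

private lemma EE_top {d k : ℕ} (q : Sp d → ℝ) (B : ℕ) (c : Fin k → Fin d → ℤ) :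
    EE q B c (fun _ => B + 1) = Icell q c := by
  unfold EE Icell GG inter rb
  simp

/-- the pair factors of the mixed difference -/
private def fx {d k : ℕ} (q : Sp d → ℝ) (B : ℕ) (b : Fin k → ℕ) (x : Fin k → Sp d)
    (i j : Fin k) (s t : Bool) : ℝ :=
  q (rb B (b i - if s then 1 else 0) (x i) - rb B (b j - if t then 1 else 0) (x j))

private lemma far_one {d : ℕ} {q : Sp d → ℝ} {r : ℝ} (hq : IsPot q r) {R : ℕ} (hR : r ≤ R)
    {c c' : Fin d → ℤ} (h : ¬ ∀ t, |c t - c' t| ≤ R) {x y : Sp d} (hx : x ∈ cell c)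
    (hy : y ∈ cell c') : q (x - y) = 1 := by
  push Not at h
  obtain ⟨t, ht⟩ := h
  refine hq.far _ (hR.trans_lt ?_)
  have h1 : ‖(x - y) t‖ ≤ ‖x - y‖ := PiLp.norm_apply_le (x - y) t
  refine lt_of_lt_of_le ?_ h1
  rw [PiLp.sub_apply, Real.norm_eq_abs]
  have hx' := hx t
  have hy' := hy t
  rcases le_total (c t) (c' t) with h2 | h2
  · rw [abs_of_nonpos (by linarith)] at ht
    have h3 : (R : ℤ) + 1 ≤ c' t - c t := by linarith
    have h4 : (R : ℝ) + 1 ≤ c' t - c t := by exact_mod_cast h3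
    rw [lt_abs]; right; linarith
  · rw [abs_of_nonneg (by linarith)] at ht
    have h3 : (R : ℤ) + 1 ≤ c t - c' t := by linarith
    have h4 : (R : ℝ) + 1 ≤ c t - c' t := by exact_mod_cast h3
    rw [lt_abs]; left; linarith

private lemma vr_far {d k : ℕ} {q : Sp d → ℝ} {r : ℝ} (hq : IsPot q r) {R : ℕ} (hR : r ≤ R)
    {c : Fin k → Fin d → ℤ} {x : Fin k → Sp d} (hx : ∀ i, x i ∈ cell (c i)) (B : ℕ)
    (b : Fin k → ℕ) {i j : Fin k} (h : ¬ ∀ t, |c i t - c j t| ≤ R) :
    vr (fx q B b x) i j = 0 := by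
  have h' : ¬ ∀ t, |c j t - c i t| ≤ R := by
    intro h1; exact h fun t => by rw [abs_sub_comm]; exact h1 t
  have e1 : ∀ s t, fx q B b x i j s t = 1 := fun s t =>
    far_one hq hR h (rb_mem _ _ (hx i)) (rb_mem _ _ (hx j))
  have e2 : ∀ s t, fx q B b x j i s t = 1 := fun s t =>
    far_one hq hR h' (rb_mem _ _ (hx j)) (rb_mem _ _ (hx i))
  unfold vr
  simp [e1, e2]

private lemma vr_near {d k : ℕ} (hd : 1 ≤ d) {q : Sp d → ℝ} {r : ℝ} (hq : IsPot q r)
    (x : Fin k → Sp d) (B : ℕ) (b : Fin k → ℕ) {i j : Fin k} (hb : 1 ≤ b i)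
    {ω : Sp d → ℝ} (hω0 : ∀ x, 0 ≤ ω x)
    (hω : ∀ x y z, ‖y - x‖ ≤ 2 * (d * (1 / 2 ^ (b i))) → ‖z - x‖ ≤ 2 * (d * (1 / 2 ^ (b i))) →
        |q y - q z| ≤ ω x) :
    vr (fx q B b x) i j ≤ ω (x i - rb B (b j) (x j)) + ω (x i - rb B (b j - 1) (x j)) := by
  have hn1 : ‖rb B (b i) (x i) - x i‖ ≤ 2 * (d * (1 / 2 ^ (b i))) := by
    refine (norm_rb_sub hd B (b i) (x i)).trans ?_
    have : (0 : ℝ) ≤ d * (1 / 2 ^ (b i)) := by positivity
    linarith
  have hn2 : ‖rb B (b i - 1) (x i) - x i‖ ≤ 2 * (d * (1 / 2 ^ (b i))) := by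
    refine (norm_rb_sub hd B (b i - 1) (x i)).trans (le_of_eq ?_)
    obtain ⟨n, hn⟩ : ∃ n, b i = n + 1 := ⟨b i - 1, by omega⟩
    rw [hn, Nat.add_sub_cancel, pow_succ]
    field_simp
  have key : ∀ z : Sp d, |q (rb B (b i) (x i) - z) - q (rb B (b i - 1) (x i) - z)| ≤
      ω (x i - z) := by
    intro z
    refine hω _ _ _ ?_ ?_
    · rw [sub_sub_sub_cancel_right]; exact hn1
    · rw [sub_sub_sub_cancel_right]; exact hn2
  have key' : ∀ z : Sp d, |q (z - rb B (b i) (x i)) - q (z - rb B (b i - 1) (x i))| ≤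
      ω (x i - z) := by
    intro z
    have h1 : ∀ y : Sp d, q (z - y) = q (y - z) := fun y => by rw [← hq.even (y - z), neg_sub]
    rw [h1, h1]
    exact key z
  have h1 := hω0 (x i - rb B (b j) (x j))
  have h2 := hω0 (x i - rb B (b j - 1) (x j))
  unfold vr fx
  by_cases hij : i < j
  · rw [if_pos hij]
    refine max_le ?_ ?_
    · simp only [Bool.false_eq_true, if_false, if_true, Nat.sub_zero]
      linarith [key (rb B (b j) (x j))]
    · simp only [Bool.false_eq_true, if_false, if_true, Nat.sub_zero]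
      linarith [key (rb B (b j - 1) (x j))]
  · rw [if_neg hij]
    refine max_le ?_ ?_
    · simp only [Bool.false_eq_true, if_false, if_true, Nat.sub_zero]
      linarith [key' (rb B (b j) (x j))]
    · simp only [Bool.false_eq_true, if_false, if_true, Nat.sub_zero]
      linarith [key' (rb B (b j - 1) (x j))]

/-- the cells near the cell of `i` -/
private def near {d : ℕ} (R : ℕ) {k : ℕ} (c : Fin k → Fin d → ℤ) (i : Fin k) : Finset (Fin k) :=
  univ.filter fun j => j ≠ i ∧ ∀ t, |c i t - c j t| ≤ R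

private theorem delta_bound {d : ℕ} (hd : 1 ≤ d) {q : Sp d → ℝ} {r : ℝ} (hq : IsPot q r) {R : ℕ}
    (hR : r ≤ R) {α C' : ℝ} (hC' : 0 < C') (w : ℕ → Sp d → ℝ) (hwm : ∀ m, Measurable (w m))
    (hw0 : ∀ m x, 0 ≤ w m x)
    (hw : ∀ m x y z, ‖y - x‖ ≤ 2 * (d * (1 / 2 ^ m)) → ‖z - x‖ ≤ 2 * (d * (1 / 2 ^ m)) →
        |q y - q z| ≤ w m x)
    (hwi : ∀ (m : ℕ) (c : Fin d → ℤ) (a : Sp d), ∫⁻ x in cell c, ENNReal.ofReal (w m (x - a)) ≤
        ENNReal.ofReal (C' * (2 : ℝ) ^ (-(α * m))))
    {k : ℕ} (B : ℕ) (c : Fin k → Fin d → ℤ) (b : Fin k → ℕ) :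
    |∑ e ∈ (univ : Finset (Fin k → Bool)).filter (fun e => ∀ i, e i = true → 1 ≤ b i),
        (-1 : ℝ) ^ (univ.filter fun i => e i = true).card *
          EE q B c (fun i => b i - if e i then 1 else 0)| ≤
      ∏ i ∈ univ.filter (fun i => 1 ≤ b i),
        (2 * (nearCount R c i : ℝ) * Real.sqrt (2 * (C' * (2 : ℝ) ^ (-(α * b i))))) := by
  set J : Finset (Fin k) := univ.filter (fun i => 1 ≤ b i) with hJ
  set P : Set (Fin k → Sp d) := Set.univ.pi (fun i => cell (c i)) with hP
  -- the sum of integrals as an integral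
  have e1 : ∑ e ∈ (univ : Finset (Fin k → Bool)).filter (fun e => ∀ i, e i = true → 1 ≤ b i),
        (-1 : ℝ) ^ (univ.filter fun i => e i = true).card *
          EE q B c (fun i => b i - if e i then 1 else 0) =
      ∫ x in P, ∑ e ∈ (univ : Finset (Fin k → Bool)).filter (fun e => ∀ i, e i = true → i ∈ J),
        (-1 : ℝ) ^ (univ.filter fun i => e i = true).card *
          ∏ i, ∏ j, if i < j then fx q B b x i j (e i) (e j) else 1 := by
    have hset : (univ : Finset (Fin k → Bool)).filter (fun e => ∀ i, e i = true → 1 ≤ b i) =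
        (univ : Finset (Fin k → Bool)).filter (fun e => ∀ i, e i = true → i ∈ J) := by
      ext e; simp [hJ]
    rw [hset, integral_finsetSum]
    · refine Finset.sum_congr rfl fun e _ => ?_
      rw [integral_const_mul]
      rfl
    · intro e _
      exact (integrableOn_GG hq B (fun i => b i - if e i then 1 else 0) c).const_mul _
  rw [e1]
  -- pass to the lower integral
  set F : (Fin k → Sp d) → ℝ := fun x =>
    ∑ e ∈ (univ : Finset (Fin k → Bool)).filter (fun e => ∀ i, e i = true → i ∈ J),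
        (-1 : ℝ) ^ (univ.filter fun i => e i = true).card *
          ∏ i, ∏ j, if i < j then fx q B b x i j (e i) (e j) else 1 with hF
  set A : Fin k → Fin k → Sp d → Sp d → ℝ≥0∞ := fun i j x y =>
    ENNReal.ofReal (w (b i) (x - rb B (b j) y)) + ENNReal.ofReal (w (b i) (x - rb B (b j - 1) y))
    with hA
  have hAm : ∀ i j, Measurable (Function.uncurry (A i j)) := by
    intro i j
    have h1 : ∀ m, Measurable fun p : Sp d × Sp d => w (b i) (p.1 - rb B m p.2) := fun m =>
      (hwm (b i)).comp (measurable_fst.sub ((measurable_rb B m).comp measurable_snd))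
    exact ((h1 (b j)).ennreal_ofReal).add ((h1 (b j - 1)).ennreal_ofReal)
  set κ : Fin k → ℝ≥0∞ := fun i => ENNReal.ofReal (2 * (C' * (2 : ℝ) ^ (-(α * b i)))) with hκ
  have hprob : ∀ i, IsProbabilityMeasure (volume.restrict (cell (c i))) := fun i =>
    ⟨by rw [Measure.restrict_apply_univ, volume_cell']⟩
  have hFle : ∀ x ∈ P, ‖F x‖ₑ ≤
      ∏ i ∈ J, (2 * ∑ j ∈ near R c i, (A i j (x i) (x j)) ^ (1 / 2 : ℝ)) := by
    intro x hx
    have hx' : ∀ i, x i ∈ cell (c i) := fun i => hx i (Set.mem_univ i)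
    have h1 := mixed_diff (fx q B b x) (fun i j s t => hq.nonneg _) (fun i j s t => hq.le_one _) J
    rw [Real.enorm_eq_ofReal_abs]
    refine (ENNReal.ofReal_le_ofReal h1).trans ?_
    rw [ENNReal.ofReal_prod_of_nonneg fun i _ => by positivity]
    refine Finset.prod_le_prod' fun i hi => ?_
    have hbi : 1 ≤ b i := (mem_filter.1 hi).2
    rw [ENNReal.ofReal_mul (by norm_num), ENNReal.ofReal_ofNat]
    gcongr
    rw [ENNReal.ofReal_sum_of_nonneg fun j _ => Real.sqrt_nonneg _]
    have hsub : near R c i ⊆ univ.erase i := by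
      intro j hj
      exact mem_erase.2 ⟨(mem_filter.1 hj).2.1, mem_univ _⟩
    rw [← Finset.sum_subset hsub]
    · refine Finset.sum_le_sum fun j hj => ?_
      rw [Real.sqrt_eq_rpow, ← ENNReal.ofReal_rpow_of_nonneg (vr_nonneg' _ _ _) (by norm_num)]
      gcongr
      rw [hA]; dsimp only
      rw [← ENNReal.ofReal_add (hw0 _ _) (hw0 _ _)]
      exact ENNReal.ofReal_le_ofReal (vr_near hd hq x B b hbi (hw0 _) (hw (b i)))
    · intro j hj hj'
      have hne : j ≠ i := ne_of_mem_erase hj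
      have hfar : ¬ ∀ t, |c i t - c j t| ≤ R := fun h =>
        hj' (mem_filter.2 ⟨mem_univ _, hne, h⟩)
      rw [vr_far hq hR hx' B b hfar]
      simp
  have hint : ∫⁻ x in P, ‖F x‖ₑ ≤ ∏ i ∈ J, (2 * (near R c i).card * (κ i) ^ (1 / 2 : ℝ)) := by
    calc ∫⁻ x in P, ‖F x‖ₑ ≤
        ∫⁻ x in P, ∏ i ∈ J, (2 * ∑ j ∈ near R c i, (A i j (x i) (x j)) ^ (1 / 2 : ℝ)) :=
          setLIntegral_mono' (measurableSet_cells c) hFle
      _ = ∫⁻ x, ∏ i ∈ J, (2 * ∑ j ∈ near R c i, (A i j (x i) (x j)) ^ (1 / 2 : ℝ))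
            ∂Measure.pi (fun i => volume.restrict (cell (c i))) := by
          rw [hP, volume_pi, Measure.restrict_pi_pi]
      _ ≤ _ := by
          refine holder_sum (fun i => volume.restrict (cell (c i))) A hAm κ J (near R c)
            (fun _ h => (mem_filter.1 h).2.1 rfl) fun i hi j y => ?_
          rw [hA, hκ]; dsimp only
          have hm1 : ∀ m, Measurable fun x : Sp d => ENNReal.ofReal (w (b i) (x - rb B m y)) :=
            fun m => ((hwm (b i)).comp (measurable_id.sub_const _)).ennreal_ofReal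
          rw [lintegral_add_left (hm1 _), two_mul (C' * _),
            ENNReal.ofReal_add (by positivity) (by positivity)]
          exact add_le_add (hwi _ _ _) (hwi _ _ _)
  have hfin : (∏ i ∈ J, (2 * (near R c i).card * (κ i) ^ (1 / 2 : ℝ)) : ℝ≥0∞) =
      ENNReal.ofReal (∏ i ∈ J,
        (2 * (nearCount R c i : ℝ) * Real.sqrt (2 * (C' * (2 : ℝ) ^ (-(α * b i)))))) := by
    rw [ENNReal.ofReal_prod_of_nonneg fun i _ => by positivity]
    refine Finset.prod_congr rfl fun i _ => ?_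
    rw [hκ]; dsimp only
    rw [ENNReal.ofReal_rpow_of_nonneg (by positivity) (by norm_num), ← Real.sqrt_eq_rpow,
      ENNReal.ofReal_mul (by positivity), ENNReal.ofReal_mul (by norm_num), ENNReal.ofReal_ofNat,
      ENNReal.ofReal_natCast]
    rfl
  rw [← Real.norm_eq_abs]
  have h0 : (0 : ℝ) ≤ ∏ i ∈ J,
      (2 * (nearCount R c i : ℝ) * Real.sqrt (2 * (C' * (2 : ℝ) ^ (-(α * b i))))) := by positivity
  have h1 : ‖∫ x in P, F x‖ₑ ≤ ENNReal.ofReal (∏ i ∈ J,
      (2 * (nearCount R c i : ℝ) * Real.sqrt (2 * (C' * (2 : ℝ) ^ (-(α * b i)))))) :=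
    (enorm_integral_le_lintegral_enorm _).trans (hint.trans hfin.le)
  rw [← ofReal_norm] at h1
  exact (ENNReal.ofReal_le_ofReal_iff h0).1 h1

/-! ### Averages over grids -/

/-- the box of the grid point `g` -/
private def pb {d k : ℕ} (c : Fin k → Fin d → ℤ) (b : Fin k → ℕ)
    (g : (i : Fin k) → Fin d → Fin (2 ^ (b i))) : Set (Fin k → Sp d) :=
  Set.univ.pi fun i => bx (fun t => (c i t : ℝ) + (g i t : ℕ) / 2 ^ (b i)) (1 / 2 ^ (b i))

private lemma floor_of_mem_pb {d k : ℕ} {c : Fin k → Fin d → ℤ} {b : Fin k → ℕ}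
    {g : (i : Fin k) → Fin d → Fin (2 ^ (b i))} {x : Fin k → Sp d} (hx : x ∈ pb c b g)
    (i : Fin k) (t : Fin d) :
    ⌊(2 : ℝ) ^ (b i) * x i t⌋ = 2 ^ (b i) * c i t + ((g i t : ℕ) : ℤ) := by
  have h := hx i (Set.mem_univ i) t
  have hp : (0 : ℝ) < 2 ^ (b i) := by positivity
  rw [Int.floor_eq_iff]
  push_cast
  have e1 : (2 : ℝ) ^ (b i) * (c i t + (g i t : ℕ) / 2 ^ (b i)) =
      2 ^ (b i) * c i t + (g i t : ℕ) := by field_simp
  have e2 : (2 : ℝ) ^ (b i) * (c i t + (g i t : ℕ) / 2 ^ (b i) + 1 / 2 ^ (b i)) =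
      2 ^ (b i) * c i t + (g i t : ℕ) + 1 := by field_simp
  constructor
  · rw [← e1]; exact mul_le_mul_of_nonneg_left h.1 hp.le
  · rw [← e2]; exact mul_lt_mul_of_pos_left h.2 hp

private lemma iUnion_pb {d k : ℕ} (c : Fin k → Fin d → ℤ) (b : Fin k → ℕ) :
    (⋃ g, pb c b g) = Set.univ.pi (fun i => cell (c i)) := by
  ext x
  rw [Set.mem_iUnion]
  constructor
  · rintro ⟨g, hg⟩ i _ t
    have h := hg i (Set.mem_univ i) t
    have hp : (0 : ℝ) < 2 ^ (b i) := by positivity
    have h1 : (0 : ℝ) ≤ (g i t : ℕ) / 2 ^ (b i) := by positivity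
    have h2 : ((g i t : ℕ) : ℝ) / 2 ^ (b i) + 1 / 2 ^ (b i) ≤ 1 := by
      rw [← add_div, div_le_one hp]
      have := (g i t).isLt
      exact_mod_cast this
    constructor
    · linarith [h.1]
    · linarith [h.2]
  · intro hx
    have hx' : ∀ i t, (c i t : ℝ) ≤ x i t ∧ x i t < c i t + 1 := fun i t =>
      hx i (Set.mem_univ i) t
    have hlo : ∀ i t, (2 ^ (b i) * c i t : ℤ) ≤ ⌊(2 : ℝ) ^ (b i) * x i t⌋ := by
      intro i t
      rw [Int.le_floor]
      push_cast
      exact mul_le_mul_of_nonneg_left (hx' i t).1 (by positivity)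
    have hhi : ∀ i t, ⌊(2 : ℝ) ^ (b i) * x i t⌋ < 2 ^ (b i) * c i t + 2 ^ (b i) := by
      intro i t
      rw [Int.floor_lt]
      push_cast
      have := mul_lt_mul_of_pos_left (hx' i t).2 (show (0 : ℝ) < 2 ^ (b i) by positivity)
      linarith
    refine ⟨fun i t => ⟨(⌊(2 : ℝ) ^ (b i) * x i t⌋ - 2 ^ (b i) * c i t).toNat, ?_⟩, ?_⟩
    · have h1 := hlo i t
      have h2 := hhi i t
      zify
      rw [Int.toNat_of_nonneg (by linarith)]
      linarith
    · intro i _ t
      have h1 := hlo i t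
      have hp : (0 : ℝ) < 2 ^ (b i) := by positivity
      have h3 : (((⌊(2 : ℝ) ^ (b i) * x i t⌋ - 2 ^ (b i) * c i t).toNat : ℕ) : ℝ) =
          (⌊(2 : ℝ) ^ (b i) * x i t⌋ : ℝ) - 2 ^ (b i) * c i t := by
        have : (((⌊(2 : ℝ) ^ (b i) * x i t⌋ - 2 ^ (b i) * c i t).toNat : ℕ) : ℤ) =
          ⌊(2 : ℝ) ^ (b i) * x i t⌋ - 2 ^ (b i) * c i t := Int.toNat_of_nonneg (by linarith)
        have h4 := congrArg (fun z : ℤ => (z : ℝ)) this
        push_cast at h4
        exact h4
      dsimp only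
      rw [h3, sub_div, mul_div_cancel_left₀ _ hp.ne']
      have h5 := rd_le (b i) (x i) t
      have h6 := lt_rd (b i) (x i) t
      rw [rd_apply] at h5 h6
      constructor <;> linarith

private lemma pairwise_pb {d k : ℕ} (c : Fin k → Fin d → ℤ) (b : Fin k → ℕ) :
    Pairwise (Function.onFun Disjoint (pb c b)) := by
  intro g g' hne
  rw [Function.onFun, Set.disjoint_left]
  intro x hx hx'
  apply hne
  funext i t
  have h1 := floor_of_mem_pb hx i t
  have h2 := floor_of_mem_pb hx' i t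
  rw [h1] at h2
  have h3 : ((g i t : ℕ) : ℤ) = ((g' i t : ℕ) : ℤ) := by linarith
  exact Fin.ext (by exact_mod_cast h3)

private lemma volume_pb {d k : ℕ} (c : Fin k → Fin d → ℤ) (b : Fin k → ℕ)
    (g : (i : Fin k) → Fin d → Fin (2 ^ (b i))) :
    volume.real (pb c b g) = ∏ i, ((1 : ℝ) / 2 ^ (b i)) ^ d := by
  unfold pb
  rw [Measure.real, volume_pi, Measure.pi_pi, ENNReal.toReal_prod]
  refine Finset.prod_congr rfl fun i _ => ?_
  rw [volume_bx, ENNReal.toReal_pow, ENNReal.toReal_ofReal (by positivity)]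

private lemma avgB_eq {d k : ℕ} {q : Sp d → ℝ} {r : ℝ} (hq : IsPot q r) (B : ℕ)
    (c : Fin k → Fin d → ℤ) (b : Fin k → ℕ) (hb : ∀ i, b i ≤ B) :
    avgB (fun D => q (gridPt B D)) B c b = EE q B c b := by
  unfold EE
  have hpm : ∀ g, MeasurableSet (pb c b g) := fun g => MeasurableSet.univ_pi fun i =>
    measurableSet_bx _ _
  rw [← iUnion_pb c b, integral_iUnion_fintype hpm (pairwise_pb c b)]
  · unfold avgB
    rw [Finset.mul_sum]
    refine Finset.sum_congr rfl fun g _ => ?_
    have hval : ∀ x ∈ pb c b g, GG q B b x = ∏ i, ∏ j, if i < j then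
        q (gridPt B (fun t => (2 ^ B * c i t + 2 ^ (B - b i) * (g i t : ℤ)) -
        (2 ^ B * c j t + 2 ^ (B - b j) * (g j t : ℤ)))) else 1 := by
      intro x hx
      unfold GG
      refine Finset.prod_congr rfl fun i _ => Finset.prod_congr rfl fun j _ => ?_
      congr 2
      have hfl := floor_of_mem_pb hx
      have key : ∀ i t, rb B (b i) (x i) t =
          ((2 ^ B * c i t + 2 ^ (B - b i) * (g i t : ℤ) : ℤ) : ℝ) / 2 ^ B := by
        intro i t
        rw [rb, if_pos (hb i), rd_apply, hfl i t]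
        push_cast
        have h1 : (2 : ℝ) ^ B = 2 ^ (B - b i) * 2 ^ (b i) := by
          rw [← pow_add, Nat.sub_add_cancel (hb i)]
        rw [h1]
        field_simp
      ext t
      rw [PiLp.sub_apply, key, key]
      simp only [gridPt]
      push_cast
      ring
    rw [setIntegral_congr_fun (hpm g) hval, setIntegral_const, volume_pb, smul_eq_mul]
  · intro g
    exact (integrableOn_GG hq B b c).mono_set (by rw [← iUnion_pb c b]; exact Set.subset_iUnion _ g)

/-! ### The error of the sparse quadrature formula -/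

private lemma smol_eq {d k : ℕ} {q : Sp d → ℝ} {r : ℝ} (hq : IsPot q r) (B : ℕ)
    (c : Fin k → Fin d → ℤ) :
    smol (fun D => q (gridPt B D)) B c =
      ∑ b ∈ (Fintype.piFinset (fun _ : Fin k => range (B + 1 + 1))).filter (fun b => ∑ i, b i ≤ B),
        ∑ e ∈ (univ : Finset (Fin k → Bool)).filter (fun e => ∀ i, e i = true → 1 ≤ b i),
        (-1 : ℝ) ^ (univ.filter fun i => e i = true).card *
          EE q B c (fun i => b i - if e i then 1 else 0) := by
  unfold smol
  refine Finset.sum_bij (fun b _ i => (b i : ℕ)) ?_ ?_ ?_ ?_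
  · intro b hb
    rw [mem_filter] at hb ⊢
    exact ⟨Fintype.mem_piFinset.2 fun i => mem_range.2 (by have := (b i).isLt; omega), hb.2⟩
  · intro b _ b' _ h
    funext i
    exact Fin.ext (congrFun h i)
  · intro b hb
    rw [mem_filter] at hb
    have hle : ∀ i, b i ≤ B := fun i =>
      (Finset.single_le_sum (fun j _ => Nat.zero_le (b j)) (mem_univ i)).trans hb.2
    refine ⟨fun i => ⟨b i, by have := hle i; omega⟩, ?_, rfl⟩
    rw [mem_filter]
    exact ⟨mem_univ _, hb.2⟩
  · intro b hb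
    refine Finset.sum_congr rfl fun e _ => ?_
    rw [avgB_eq hq B c _ fun i => by have := (b i).isLt; omega]

theorem smol_error {d : ℕ} (hd : 1 ≤ d) {q : Sp d → ℝ} {r : ℝ} (hq : IsPot q r) {R : ℕ}
    (hR : r ≤ R) {C α : ℝ} (hα : 0 < α) (hreg : HolderAvg q C α) :
    ∃ K γ : ℝ, 1 ≤ K ∧ 0 < γ ∧ ∀ (k B : ℕ) (c : Fin k → Fin d → ℤ),
      |Icell q c - smol (fun D => q (gridPt B D)) B c| ≤
        (2 : ℝ) ^ (-(γ * B)) * ∏ i, (K * (1 + nearCount R c i)) := by
  obtain ⟨C', hC', hw⟩ := exists_omega hd hq hα hreg volume_cell'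
  choose w hwm hw0 hw1 hwi using hw
  set θ : ℝ := (2 : ℝ) ^ (-(α / 4)) with hθ
  have hθ0 : 0 < θ := by positivity
  have hθ1 : θ < 1 := Real.rpow_lt_one_of_one_lt_of_neg (by norm_num) (by linarith)
  set M : ℝ := 2 * Real.sqrt (2 * C') with hM
  have hM0 : 0 ≤ M := by positivity
  refine ⟨1 + M / (1 - θ), α / 4, ?_, by positivity, fun k B c => ?_⟩
  · have : 0 ≤ M / (1 - θ) := div_nonneg hM0 (by linarith)
    linarith
  set Δ : (Fin k → ℕ) → ℝ := fun b =>
    ∑ e ∈ (univ : Finset (Fin k → Bool)).filter (fun e => ∀ i, e i = true → 1 ≤ b i),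
        (-1 : ℝ) ^ (univ.filter fun i => e i = true).card *
          EE q B c (fun i => b i - if e i then 1 else 0) with hΔ
  set a : Fin k → ℕ → ℝ := fun i m => if 1 ≤ m then M * nearCount R c i * θ ^ m else 1 with ha
  have ha0 : ∀ i m, 0 ≤ a i m := by
    intro i m
    rw [ha]; dsimp only
    split_ifs <;> positivity
  have hsqrt : ∀ m : ℕ, Real.sqrt (2 * (C' * (2 : ℝ) ^ (-(α * m)))) =
      Real.sqrt (2 * C') * (θ ^ m * θ ^ m) := by
    intro m
    have h1 : (2 : ℝ) ^ (-(α * m)) = (θ ^ m * θ ^ m) ^ 2 := by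
      have h2 : θ ^ m = (2 : ℝ) ^ (-(α / 4) * m) := by
        rw [hθ, ← Real.rpow_natCast, ← Real.rpow_mul (by norm_num)]
      rw [h2, ← Real.rpow_add (by norm_num), ← Real.rpow_natCast _ 2,
        ← Real.rpow_mul (by norm_num)]
      congr 1
      push_cast
      ring
    rw [← mul_assoc, h1, Real.sqrt_mul (by positivity), Real.sqrt_sq (by positivity)]
  have hΔle : ∀ b : Fin k → ℕ, |Δ b| ≤ (∏ i, a i (b i)) * θ ^ (∑ i, b i) := by
    intro b
    refine (delta_bound hd hq hR hC' w hwm hw0 hw1 hwi B c b).trans (le_of_eq ?_)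
    rw [Finset.prod_filter, ← Finset.prod_pow_eq_pow_sum, ← Finset.prod_mul_distrib]
    refine Finset.prod_congr rfl fun i _ => ?_
    rw [ha]; dsimp only
    split_ifs with h
    · rw [hsqrt, hM]; ring
    · have : b i = 0 := by omega
      rw [this]; simp
  have hI : Icell q c - smol (fun D => q (gridPt B D)) B c =
      ∑ b ∈ (Fintype.piFinset (fun _ : Fin k => range (B + 1 + 1))).filter
        (fun b => ¬ ∑ i, b i ≤ B), Δ b := by
    rw [← EE_top q B c, ← telescope (B + 1) (EE q B c), smol_eq hq B c,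
      ← Finset.sum_filter_add_sum_filter_not _ (fun b : Fin k → ℕ => ∑ i, b i ≤ B)]
    ring
  rw [hI]
  have hpow : (2 : ℝ) ^ (-(α / 4 * B)) = θ ^ B := by
    rw [hθ, ← Real.rpow_natCast, ← Real.rpow_mul (by norm_num)]
    congr 1
    ring
  rw [hpow]
  calc |∑ b ∈ (Fintype.piFinset (fun _ : Fin k => range (B + 1 + 1))).filter
        (fun b => ¬ ∑ i, b i ≤ B), Δ b|
      ≤ ∑ b ∈ (Fintype.piFinset (fun _ : Fin k => range (B + 1 + 1))).filter
        (fun b => ¬ ∑ i, b i ≤ B), |Δ b| := Finset.abs_sum_le_sum_abs _ _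
    _ ≤ ∑ b ∈ (Fintype.piFinset (fun _ : Fin k => range (B + 1 + 1))).filter
        (fun b => ¬ ∑ i, b i ≤ B), (∏ i, a i (b i)) * θ ^ B := by
        refine Finset.sum_le_sum fun b hb => (hΔle b).trans ?_
        have h1 := (mem_filter.1 hb).2
        refine mul_le_mul_of_nonneg_left ?_ (prod_nonneg fun i _ => ha0 i _)
        exact pow_le_pow_of_le_one hθ0.le hθ1.le (by omega)
    _ ≤ ∑ b ∈ Fintype.piFinset (fun _ : Fin k => range (B + 1 + 1)),
          (∏ i, a i (b i)) * θ ^ B := by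
        refine Finset.sum_le_sum_of_subset_of_nonneg (filter_subset _ _) fun b _ _ => ?_
        exact mul_nonneg (prod_nonneg fun i _ => ha0 i _) (by positivity)
    _ = θ ^ B * ∏ i, ∑ m ∈ range (B + 1 + 1), a i m := by
        rw [← Finset.sum_mul, Finset.prod_univ_sum, mul_comm]
    _ ≤ θ ^ B * ∏ i, ((1 + M / (1 - θ)) * (1 + nearCount R c i)) := by
        refine mul_le_mul_of_nonneg_left ?_ (by positivity)
        refine Finset.prod_le_prod (fun i _ => Finset.sum_nonneg fun m _ => ha0 i m)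
          fun i _ => ?_
        have hgeo : ∀ n : ℕ, ∑ m ∈ range n, θ ^ m ≤ 1 / (1 - θ) := by
          intro n
          rw [geom_sum_eq hθ1.ne, le_div_iff₀ (by linarith)]
          have h1 : (θ ^ n - 1) / (θ - 1) * (1 - θ) = 1 - θ ^ n := by
            have : θ - 1 ≠ 0 := by linarith
            field_simp
            ring
          rw [h1]
          have : 0 ≤ θ ^ n := by positivity
          linarith
        rw [Finset.sum_range_succ']
        have h0 : a i 0 = 1 := by simp [ha]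
        rw [h0]
        have h1 : ∑ m ∈ range (B + 1), a i (m + 1) ≤ M * nearCount R c i * (1 / (1 - θ)) := by
          calc ∑ m ∈ range (B + 1), a i (m + 1) =
              ∑ m ∈ range (B + 1), M * nearCount R c i * θ ^ (m + 1) := by
                refine Finset.sum_congr rfl fun m _ => ?_
                simp [ha]
            _ ≤ ∑ m ∈ range (B + 1), M * nearCount R c i * θ ^ m := by
                refine Finset.sum_le_sum fun m _ => ?_
                refine mul_le_mul_of_nonneg_left ?_ (by positivity)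
                exact pow_le_pow_of_le_one hθ0.le hθ1.le (by omega)
            _ = M * nearCount R c i * ∑ m ∈ range (B + 1), θ ^ m := by rw [Finset.mul_sum]
            _ ≤ _ := mul_le_mul_of_nonneg_left (hgeo _) (by positivity)
        have h2 : 0 ≤ M / (1 - θ) := div_nonneg hM0 (by linarith)
        have h3 : (0 : ℝ) ≤ nearCount R c i := by positivity
        have h4 : M * nearCount R c i * (1 / (1 - θ)) = M / (1 - θ) * nearCount R c i := by ring
        rw [h4] at h1
        nlinarith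

end Pool.Agent.Lib.P8e91ed
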