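import Pool.Agent.Lib.P8e91ed.Defs

/-!
Stability of the sparse quadrature formula under a perturbation of the interaction table
(module SmolPerturb of MP_8e91ed_lc).
-/

set_option autoImplicit false

open MeasureTheory Finset

noncomputable section

namespace Pool.Agent.Lib.P8e91ed

private lemma prod_pert {ι : Type*} (s : Finset ι) (a b : ι → ℝ) {τ : ℝ}
    (ha0 : ∀ i, 0 ≤ a i) (ha1 : ∀ i, a i ≤ 1) (hb0 : ∀ i, 0 ≤ b i) (hb1 : ∀ i, b i ≤ 1)
    (h : ∀ i, |a i - b i| ≤ τ) : |∏ i ∈ s, a i - ∏ i ∈ s, b i| ≤ s.card * τ := by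
  classical
  induction s using Finset.induction_on with
  | empty => simp
  | insert i s hi ih =>
    rw [prod_insert hi, prod_insert hi, card_insert_of_notMem hi]
    have h1 : a i * ∏ j ∈ s, a j - b i * ∏ j ∈ s, b j =
        a i * (∏ j ∈ s, a j - ∏ j ∈ s, b j) + (a i - b i) * ∏ j ∈ s, b j := by ring
    have h2 : |∏ j ∈ s, b j| ≤ 1 := by
      rw [abs_of_nonneg (prod_nonneg fun i _ => hb0 i)]
      exact prod_le_one (fun i _ => hb0 i) fun i _ => hb1 i
    have h3 : |a i| ≤ 1 := by rw [abs_of_nonneg (ha0 i)]; exact ha1 i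
    have hτ : 0 ≤ τ := (abs_nonneg _).trans (h i)
    rw [h1]
    calc _ ≤ |a i * (∏ j ∈ s, a j - ∏ j ∈ s, b j)| + |(a i - b i) * ∏ j ∈ s, b j| :=
          abs_add_le _ _
      _ = |a i| * |∏ j ∈ s, a j - ∏ j ∈ s, b j| + |a i - b i| * |∏ j ∈ s, b j| := by
          rw [abs_mul, abs_mul]
      _ ≤ 1 * (s.card * τ) + τ * 1 := by
          gcongr
          exact h i
      _ = ((s.card + 1 : ℕ) : ℝ) * τ := by push_cast; ring

private lemma avgB_pert {d k B : ℕ} {Q Q' : (Fin d → ℤ) → ℝ} {τ : ℝ} (h0 : ∀ D, 0 ≤ Q D)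
    (h1 : ∀ D, Q D ≤ 1) (h0' : ∀ D, 0 ≤ Q' D) (h1' : ∀ D, Q' D ≤ 1) (h : ∀ D, |Q D - Q' D| ≤ τ)
    (c : Fin k → Fin d → ℤ) (b : Fin k → ℕ) :
    |avgB Q B c b - avgB Q' B c b| ≤ (k : ℝ) ^ 2 * τ := by
  have hτ : 0 ≤ τ := (abs_nonneg _).trans (h 0)
  unfold avgB
  rw [← mul_sub, ← Finset.sum_sub_distrib, abs_mul]
  have hw : 0 ≤ ∏ i, ((1 : ℝ) / 2 ^ (b i)) ^ d := by positivity
  rw [abs_of_nonneg hw]
  have key : ∀ g : (i : Fin k) → Fin d → Fin (2 ^ (b i)),
      |(∏ i, ∏ j, if i < j then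
      Q (fun t => (2 ^ B * c i t + 2 ^ (B - b i) * (g i t : ℤ)) -
        (2 ^ B * c j t + 2 ^ (B - b j) * (g j t : ℤ))) else 1) - (∏ i, ∏ j, if i < j then
      Q' (fun t => (2 ^ B * c i t + 2 ^ (B - b i) * (g i t : ℤ)) -
        (2 ^ B * c j t + 2 ^ (B - b j) * (g j t : ℤ))) else 1)| ≤ (k : ℝ) ^ 2 * τ := by
    intro g
    have q0 : ∀ (P : (Fin d → ℤ) → ℝ), (∀ D, 0 ≤ P D) → ∀ i j : Fin k, 0 ≤ (if i < j then
        P (fun t => (2 ^ B * c i t + 2 ^ (B - b i) * (g i t : ℤ)) -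
          (2 ^ B * c j t + 2 ^ (B - b j) * (g j t : ℤ))) else 1) := by
      intro P hP i j
      split_ifs
      · exact hP _
      · exact zero_le_one
    have q1 : ∀ (P : (Fin d → ℤ) → ℝ), (∀ D, P D ≤ 1) → ∀ i j : Fin k, (if i < j then
        P (fun t => (2 ^ B * c i t + 2 ^ (B - b i) * (g i t : ℤ)) -
          (2 ^ B * c j t + 2 ^ (B - b j) * (g j t : ℤ))) else 1) ≤ 1 := by
      intro P hP i j
      split_ifs
      · exact hP _
      · exact le_rfl
    refine (prod_pert _ _ _ (τ := k * τ) (fun i => prod_nonneg fun j _ => q0 Q h0 i j)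
      (fun i => prod_le_one (fun j _ => q0 Q h0 i j) fun j _ => q1 Q h1 i j)
      (fun i => prod_nonneg fun j _ => q0 Q' h0' i j)
      (fun i => prod_le_one (fun j _ => q0 Q' h0' i j) fun j _ => q1 Q' h1' i j)
      (fun i => ?_)).trans (le_of_eq ?_)
    · refine (prod_pert _ _ _ (τ := τ) (q0 Q h0 i) (q1 Q h1 i) (q0 Q' h0' i) (q1 Q' h1' i)
        (fun j => ?_)).trans (le_of_eq ?_)
      · split_ifs
        · exact h _
        · simpa using hτ
      · rw [card_univ, Fintype.card_fin]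
    · rw [card_univ, Fintype.card_fin]; ring
  calc _ ≤ (∏ i, ((1 : ℝ) / 2 ^ (b i)) ^ d) *
        ∑ g : (i : Fin k) → Fin d → Fin (2 ^ (b i)), (k : ℝ) ^ 2 * τ := by
        refine mul_le_mul_of_nonneg_left ?_ hw
        exact (Finset.abs_sum_le_sum_abs _ _).trans (Finset.sum_le_sum fun g _ => key g)
    _ = (k : ℝ) ^ 2 * τ := by
        rw [Finset.sum_const, card_univ, Fintype.card_pi]
        simp only [Fintype.card_pi, Fintype.card_fin, prod_const, card_univ, nsmul_eq_mul]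
        push_cast
        rw [← mul_assoc, ← Finset.prod_mul_distrib]
        have : ∏ i : Fin k, (((1 : ℝ) / 2 ^ (b i)) ^ d * (2 ^ (b i)) ^ d) = 1 := by
          refine Finset.prod_eq_one fun i _ => ?_
          rw [← mul_pow]
          simp
        rw [this, one_mul]

private lemma count_b (k B : ℕ) :
    ((((univ : Finset (Fin k → Fin (B + 1))).filter (fun b => ∑ i, (b i : ℕ) ≤ B)).card : ℕ) : ℝ) ≤
      2 ^ (B + k) := by
  have hgeo : ∑ b : Fin (B + 1), ((1 : ℝ) / 2) ^ (b : ℕ) ≤ 2 := by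
    rw [Fin.sum_univ_eq_sum_range (fun i => ((1 : ℝ) / 2) ^ i)]
    have := geom_sum_eq (by norm_num : (1 / 2 : ℝ) ≠ 1) (B + 1)
    rw [this]
    have h2 : (0 : ℝ) < (1 / 2) ^ (B + 1) := by positivity
    rw [div_le_iff_of_neg (by norm_num)]
    linarith
  calc ((((univ : Finset (Fin k → Fin (B + 1))).filter (fun b => ∑ i, (b i : ℕ) ≤ B)).card : ℕ) : ℝ)
      = ∑ b ∈ (univ : Finset (Fin k → Fin (B + 1))).filter (fun b => ∑ i, (b i : ℕ) ≤ B), 1 := by
        simp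
    _ ≤ ∑ b ∈ (univ : Finset (Fin k → Fin (B + 1))).filter (fun b => ∑ i, (b i : ℕ) ≤ B),
          2 ^ B * ∏ i, ((1 : ℝ) / 2) ^ (b i : ℕ) := by
        refine Finset.sum_le_sum fun b hb => ?_
        rw [mem_filter] at hb
        rw [Finset.prod_pow_eq_pow_sum]
        rw [one_div, inv_pow, ← div_eq_mul_inv, le_div_iff₀ (by positivity), one_mul]
        exact pow_le_pow_right₀ (by norm_num) hb.2
    _ ≤ ∑ b : Fin k → Fin (B + 1), 2 ^ B * ∏ i, ((1 : ℝ) / 2) ^ (b i : ℕ) := by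
        refine Finset.sum_le_sum_of_subset_of_nonneg (filter_subset _ _) fun b _ _ => ?_
        positivity
    _ = 2 ^ B * (∑ b : Fin (B + 1), ((1 : ℝ) / 2) ^ (b : ℕ)) ^ k := by
        rw [← Finset.mul_sum]
        congr 1
        have := (Finset.prod_univ_sum (fun _ : Fin k => (univ : Finset (Fin (B + 1))))
          (fun _ b => ((1 : ℝ) / 2) ^ (b : ℕ)))
        rw [Finset.prod_const, card_univ, Fintype.card_fin, Fintype.piFinset_univ] at this
        exact this.symm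
    _ ≤ 2 ^ B * 2 ^ k := by
        gcongr
    _ = 2 ^ (B + k) := by rw [pow_add]

theorem smol_perturb {d k B : ℕ} {Q Q' : (Fin d → ℤ) → ℝ} {τ : ℝ} (h0 : ∀ D, 0 ≤ Q D)
    (h1 : ∀ D, Q D ≤ 1) (h0' : ∀ D, 0 ≤ Q' D) (h1' : ∀ D, Q' D ≤ 1) (h : ∀ D, |Q D - Q' D| ≤ τ)
    (c : Fin k → Fin d → ℤ) :
    |smol Q B c - smol Q' B c| ≤ 2 ^ (B + k) * 2 ^ k * (k : ℝ) ^ 2 * τ := by
  have hτ : 0 ≤ τ := (abs_nonneg _).trans (h 0)
  unfold smol
  rw [← Finset.sum_sub_distrib]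
  calc _ ≤ ∑ b ∈ (univ : Finset (Fin k → Fin (B + 1))).filter (fun b => ∑ i, (b i : ℕ) ≤ B),
        2 ^ k * ((k : ℝ) ^ 2 * τ) := by
        refine (Finset.abs_sum_le_sum_abs _ _).trans (Finset.sum_le_sum fun b _ => ?_)
        rw [← Finset.sum_sub_distrib]
        calc _ ≤ ∑ e ∈ (univ : Finset (Fin k → Bool)).filter
              (fun e => ∀ i, e i = true → 1 ≤ (b i : ℕ)), (k : ℝ) ^ 2 * τ := by
              refine (Finset.abs_sum_le_sum_abs _ _).trans (Finset.sum_le_sum fun e _ => ?_)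
              rw [← mul_sub, abs_mul, abs_pow, abs_neg, abs_one, one_pow, one_mul]
              exact avgB_pert h0 h1 h0' h1' h c _
          _ ≤ ∑ e : Fin k → Bool, (k : ℝ) ^ 2 * τ := by
              refine Finset.sum_le_sum_of_subset_of_nonneg (filter_subset _ _) fun b _ _ => ?_
              positivity
          _ = _ := by
              rw [Finset.sum_const, card_univ, Fintype.card_fun, Fintype.card_bool,
                Fintype.card_fin, nsmul_eq_mul]
              push_cast; ring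
    _ = ((((univ : Finset (Fin k → Fin (B + 1))).filter
          (fun b => ∑ i, (b i : ℕ) ≤ B)).card : ℕ) : ℝ) * (2 ^ k * ((k : ℝ) ^ 2 * τ)) := by
        rw [Finset.sum_const, nsmul_eq_mul]
    _ ≤ 2 ^ (B + k) * (2 ^ k * ((k : ℝ) ^ 2 * τ)) := by
        have := count_b k B
        gcongr
    _ = _ := by ring

end Pool.Agent.Lib.P8e91ed
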