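import Pool.Agent.Lib.P8e91ed.Scheme

/-!
The rounded oracle table approximates the Boltzmann factor on the grid.
-/

set_option autoImplicit false

open MeasureTheory Finset

noncomputable section

namespace Pool.Agent.Lib.P8e91ed

theorem tabOf_le (p : ℕ) (ans : List ℚ) (i : ℕ) : tabOf p ans i ≤ 2 ^ p := by
  unfold tabOf
  refine (card_filter_le _ _).trans ?_
  simp

theorem card_le_rat (P : ℕ) (y : ℚ) :
    (((Icc 1 P).filter fun s : ℕ => (s : ℚ) ≤ y).card : ℚ) ≤ max 0 y ∧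
      min (P : ℚ) y - 1 ≤ (((Icc 1 P).filter fun s : ℕ => (s : ℚ) ≤ y).card : ℚ) := by
  rcases lt_or_ge y 0 with hy | hy
  · have e : (Icc 1 P).filter (fun s : ℕ => (s : ℚ) ≤ y) = ∅ := by
      ext s
      simp only [mem_filter, mem_Icc, notMem_empty, iff_false, not_and, not_le]
      intro _
      have : (0 : ℚ) ≤ s := Nat.cast_nonneg s
      linarith
    rw [e]
    simp only [card_empty, Nat.cast_zero]
    refine ⟨le_max_left _ _, ?_⟩
    have := min_le_right (P : ℚ) y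
    linarith
  · have e : (Icc 1 P).filter (fun s : ℕ => (s : ℚ) ≤ y) = Icc 1 (min P ⌊y⌋₊) := by
      ext s
      simp only [mem_filter, mem_Icc, le_min_iff, Nat.le_floor_iff hy]
      tauto
    rw [e, Nat.card_Icc, Nat.add_sub_cancel]
    push_cast
    constructor
    · exact (min_le_right _ _).trans ((Nat.floor_le hy).trans (le_max_right _ _))
    · have h1 := Nat.lt_floor_add_one y
      rcases le_total (P : ℚ) y with h | h
      · rw [min_eq_left h]
        have : (P : ℚ) ≤ ⌊y⌋₊ := by exact_mod_cast Nat.le_floor h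
        rw [min_eq_left this]
        linarith
      · rw [min_eq_right h]
        have h2 : ((⌊y⌋₊ : ℕ) : ℚ) ≤ P := (Nat.floor_le hy).trans h
        rw [min_eq_right h2]
        linarith

theorem tabOf_error {p : ℕ} {ans : List ℚ} {i : ℕ} {x : ℝ} (h0 : 0 ≤ x) (h1 : x ≤ 1)
    (h : |((ans.getD i 0 : ℚ) : ℝ) - x| ≤ 1 / 2 ^ p) :
    |(tabOf p ans i : ℝ) / 2 ^ p - x| ≤ 2 / 2 ^ p := by
  have hp : (0 : ℝ) < 2 ^ p := by positivity
  obtain ⟨a1, a2⟩ := card_le_rat (2 ^ p) (ans.getD i 0 * 2 ^ p)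
  have b1 : (tabOf p ans i : ℝ) ≤ max 0 (((ans.getD i 0 : ℚ) : ℝ) * 2 ^ p) := by
    have : ((tabOf p ans i : ℚ) : ℝ) ≤ ((max 0 (ans.getD i 0 * 2 ^ p) : ℚ) : ℝ) :=
      Rat.cast_le.2 (by unfold tabOf; exact a1)
    push_cast at this
    exact this
  have b2 : min (2 ^ p : ℝ) (((ans.getD i 0 : ℚ) : ℝ) * 2 ^ p) - 1 ≤ (tabOf p ans i : ℝ) := by
    have : ((min ((2 ^ p : ℕ) : ℚ) (ans.getD i 0 * 2 ^ p) - 1 : ℚ) : ℝ) ≤
        ((tabOf p ans i : ℚ) : ℝ) :=
      Rat.cast_le.2 (by unfold tabOf; exact a2)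
    push_cast at this
    exact this
  set y : ℝ := ((ans.getD i 0 : ℚ) : ℝ) with hy
  rw [abs_le] at h
  have c1 : y * 2 ^ p ≤ x * 2 ^ p + 1 := by
    have := mul_le_mul_of_nonneg_right h.2 hp.le
    rw [div_mul_cancel₀ _ hp.ne', sub_mul] at this
    linarith
  have c2 : x * 2 ^ p - 1 ≤ y * 2 ^ p := by
    have := mul_le_mul_of_nonneg_right h.1 hp.le
    rw [neg_mul, div_mul_cancel₀ _ hp.ne', sub_mul] at this
    linarith
  have d1 : (tabOf p ans i : ℝ) ≤ x * 2 ^ p + 1 := by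
    refine b1.trans (max_le ?_ c1)
    have : 0 ≤ x * 2 ^ p := mul_nonneg h0 hp.le
    linarith
  have d2 : x * 2 ^ p - 2 ≤ (tabOf p ans i : ℝ) := by
    have : x * 2 ^ p - 1 ≤ min (2 ^ p : ℝ) (y * 2 ^ p) := by
      refine le_min ?_ c2
      nlinarith
    linarith
  have e : (tabOf p ans i : ℝ) / 2 ^ p - x = ((tabOf p ans i : ℝ) - x * 2 ^ p) / 2 ^ p := by
    field_simp
  rw [e, abs_div, abs_of_pos hp]
  refine div_le_div_of_nonneg_right ?_ hp.le
  rw [abs_le]
  constructor <;> linarith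

theorem digits_eq {d n : ℕ} (f : Fin d → ℕ) (hf : ∀ t, f t < n) (t : Fin d) :
    (∑ c : Fin d, f c * n ^ (c : ℕ)) / n ^ (t : ℕ) % n = f t ∧
      (∑ c : Fin d, f c * n ^ (c : ℕ)) < n ^ d := by
  set g : Fin d → Fin n := fun t => ⟨f t, hf t⟩ with hg
  have h1 : ((finFunctionFinEquiv g : Fin (n ^ d)) : ℕ) = ∑ c : Fin d, f c * n ^ (c : ℕ) := by
    rw [finFunctionFinEquiv_apply]
  have h2 : finFunctionFinEquiv.symm (finFunctionFinEquiv g) t = g t := by
    rw [Equiv.symm_apply_apply]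
  have h3 := congrArg Fin.val h2
  rw [finFunctionFinEquiv_symm_apply_val, h1] at h3
  refine ⟨h3, ?_⟩
  rw [← h1]
  exact Fin.is_lt _

theorem abs_coord_le {d : ℕ} (x : Sp d) (c : Fin d) : |x c| ≤ ‖x‖ := by
  have := EuclideanSpace.norm_eq x
  rw [this]
  refine Real.le_sqrt_of_sq_le ?_
  rw [← Real.norm_eq_abs]
  exact Finset.single_le_sum (f := fun i => ‖x i‖ ^ 2) (fun i _ => sq_nonneg _) (mem_univ c)

/-- The table as a function on the lattice approximates `q`. -/
theorem Qt_error (C : Consts) {q : Sp C.d → ℝ} {r : ℝ} (hq : IsPot q r) (hR : r ≤ C.R)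
    {N M : ℕ} {ans : List ℚ} (hv : Valid q C.R (C.K2 * lg N M) (C.K3 * lg N M) ans)
    (D : Fin C.d → ℤ) :
    |(C.inst (N, M, ans)).Qt D - q (gridPt (C.K2 * lg N M) D)| ≤ 2 / 2 ^ (C.K3 * lg N M) := by
  set B := C.K2 * lg N M with hB
  set p := C.K3 * lg N M with hp
  have hH : (C.inst (N, M, ans)).H = C.R * 2 ^ B := rfl
  unfold Inst.Qt
  split_ifs with hD
  · rw [hH] at hD ⊢
    set n := 2 * (C.R * 2 ^ B) + 1 with hn
    have hnat : ∀ c, ((D c + (C.R * 2 ^ B : ℕ)).toNat : ℤ) = D c + (C.R * 2 ^ B : ℕ) := by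
      intro c
      have := (abs_le.1 (hD c)).1
      exact Int.toNat_of_nonneg (by linarith)
    have hlt : ∀ c : Fin C.d, (D c + (C.R * 2 ^ B : ℕ)).toNat < n := by
      intro c
      have h1 := (abs_le.1 (hD c)).2
      have h2 := hnat c
      have : ((D c + (C.R * 2 ^ B : ℕ)).toNat : ℤ) < n := by
        rw [h2, hn]
        push_cast at h1 ⊢
        linarith
      exact_mod_cast this
    set i := ∑ c : Fin C.d, (D c + (C.R * 2 ^ B : ℕ)).toNat * n ^ (c : ℕ) with hi
    have hpt : queryPt C.d C.R B i = gridPt B D := by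
      unfold queryPt
      congr 1
      funext t
      have := (digits_eq (fun c : Fin C.d => (D c + (C.R * 2 ^ B : ℕ)).toNat) hlt t).1
      rw [← hn, hi, this, hnat t]
      ring
    rcases Nat.eq_zero_or_pos C.d with hd | hd
    · have hilt : i < n ^ C.d := by
        have he : IsEmpty (Fin C.d) := by rw [hd]; infer_instance
        rw [hi, Finset.sum_of_isEmpty, hd]
        simp
      have h3 := hv.2 i hilt
      rw [hpt] at h3
      exact tabOf_error (hq.nonneg _) (hq.le_one _) h3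
    · have hilt : i < n ^ C.d :=
        (digits_eq (fun c : Fin C.d => (D c + (C.R * 2 ^ B : ℕ)).toNat) hlt ⟨0, hd⟩).2
      have h3 := hv.2 i hilt
      rw [hpt] at h3
      exact tabOf_error (hq.nonneg _) (hq.le_one _) h3
  · push Not at hD
    obtain ⟨c, hc⟩ := hD
    rw [hH] at hc
    have h1 : r < ‖gridPt B D‖ := by
      refine lt_of_lt_of_le ?_ (abs_coord_le (gridPt B D) c)
      have h2 : (gridPt B D) c = (D c : ℝ) / 2 ^ B := rfl
      rw [h2, abs_div, abs_of_pos (show (0 : ℝ) < 2 ^ B by positivity),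
        lt_div_iff₀ (by positivity)]
      have h3 : ((C.R * 2 ^ B : ℕ) : ℝ) < |(D c : ℝ)| := by
        have : (((C.R * 2 ^ B : ℕ) : ℤ) : ℝ) < ((|D c| : ℤ) : ℝ) := by exact_mod_cast hc
        push_cast at this ⊢
        exact this
      push_cast at h3
      have h4 : (r : ℝ) * 2 ^ B ≤ C.R * 2 ^ B := mul_le_mul_of_nonneg_right hR (by positivity)
      linarith
    rw [hq.far _ h1]
    simp
    positivity

theorem Qt_nonneg (C : Consts) (x : ℕ × ℕ × List ℚ) (D : Fin C.d → ℤ) :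
    0 ≤ (C.inst x).Qt D := by
  unfold Inst.Qt
  split_ifs
  · positivity
  · exact zero_le_one

theorem Qt_le_one (C : Consts) (x : ℕ × ℕ × List ℚ) (D : Fin C.d → ℤ) :
    (C.inst x).Qt D ≤ 1 := by
  unfold Inst.Qt
  split_ifs
  · rw [div_le_one (by positivity)]
    have := tabOf_le (C.K3 * lg x.1 x.2.1) x.2.2
      (∑ c : Fin (C.inst x).d, (D c + (C.inst x).H).toNat * (2 * (C.inst x).H + 1) ^ (c : ℕ))
    exact_mod_cast this
  · exact le_rfl

end Pool.Agent.Lib.P8e91ed
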