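import Pool.Agent.Lib.P8e91ed.Defs

/-!
Taylor coefficients of analytic functions of one complex variable at the origin.
-/

set_option autoImplicit false

open Finset Filter Topology

noncomputable section

namespace Pool.Agent.Lib.P8e91ed

/-- the Taylor coefficient of order `n` at the origin -/
def tc (f : ℂ → ℂ) (n : ℕ) : ℂ := iteratedDeriv n f 0 / (n.factorial : ℂ)

theorem tc_zero (f : ℂ → ℂ) : tc f 0 = f 0 := by simp [tc]

theorem tc_congr {f g : ℂ → ℂ} (h : f =ᶠ[𝓝 0] g) (n : ℕ) : tc f n = tc g n := by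
  unfold tc; rw [h.iteratedDeriv_eq n]

theorem tc_deriv (f : ℂ → ℂ) (n : ℕ) : tc (deriv f) n = (n + 1) * tc f (n + 1) := by
  unfold tc
  rw [← iteratedDeriv_succ', Nat.factorial_succ]
  have h1 : (n.factorial : ℂ) ≠ 0 := by exact_mod_cast n.factorial_ne_zero
  have h2 : ((n : ℂ) + 1) ≠ 0 := by exact_mod_cast n.succ_ne_zero
  push_cast
  field_simp

theorem tc_mul {f g : ℂ → ℂ} (hf : AnalyticAt ℂ f 0) (hg : AnalyticAt ℂ g 0) (n : ℕ) :
    tc (fun s => f s * g s) n = ∑ i ∈ range (n + 1), tc f i * tc g (n - i) := by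
  unfold tc
  have h := iteratedDeriv_mul (n := n) (x := (0 : ℂ)) hf.contDiffAt hg.contDiffAt
  have h' : iteratedDeriv n (fun s => f s * g s) 0 = iteratedDeriv n (f * g) 0 := rfl
  rw [h', h, Finset.sum_div]
  refine Finset.sum_congr rfl fun i hi => ?_
  have hi' : i ≤ n := Nat.lt_succ_iff.1 (Finset.mem_range.1 hi)
  have h1 : (n.factorial : ℂ) ≠ 0 := by exact_mod_cast n.factorial_ne_zero
  have h2 : (i.factorial : ℂ) ≠ 0 := by exact_mod_cast i.factorial_ne_zero
  have h3 : ((n - i).factorial : ℂ) ≠ 0 := by exact_mod_cast (n - i).factorial_ne_zero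
  have h4 : (n.choose i : ℂ) * i.factorial * (n - i).factorial = n.factorial := by
    exact_mod_cast Nat.choose_mul_factorial_mul_factorial hi'
  field_simp
  rw [← h4]; ring

theorem tc_sub {f g : ℂ → ℂ} (hf : AnalyticAt ℂ f 0) (hg : AnalyticAt ℂ g 0) (n : ℕ) :
    tc (fun s => f s - g s) n = tc f n - tc g n := by
  unfold tc
  have h' : iteratedDeriv n (fun s => f s - g s) 0 = iteratedDeriv n (f - g) 0 := rfl
  rw [h', iteratedDeriv_sub hf.contDiffAt hg.contDiffAt, sub_div]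

/-- functions given by a power series that converges everywhere -/
theorem entire_of_hasSum {z : ℕ → ℂ} {Z : ℂ → ℂ} (h : ∀ s, HasSum (fun k => z k * s ^ k) (Z s)) :
    HasFPowerSeriesOnBall Z (FormalMultilinearSeries.ofScalars ℂ z) 0 ⊤ := by
  have hr : (FormalMultilinearSeries.ofScalars ℂ z).radius = ⊤ := by
    refine FormalMultilinearSeries.radius_eq_top_of_summable_norm _ fun r => ?_
    have := (h (r : ℂ)).summable.norm
    refine this.congr fun k => ?_
    rw [norm_mul, norm_pow]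
    congr 1
    · simp
    · simp
  refine ⟨by rw [hr], by simp, ?_⟩
  intro y _
  have := h y
  simpa [FormalMultilinearSeries.ofScalars_apply_eq, smul_eq_mul, mul_comm] using this

theorem differentiable_of_hasSum {z : ℕ → ℂ} {Z : ℂ → ℂ}
    (h : ∀ s, HasSum (fun k => z k * s ^ k) (Z s)) : Differentiable ℂ Z := by
  intro x
  have h1 := (entire_of_hasSum h).analyticAt_of_mem (y := x) (by simp)
  exact h1.differentiableAt

theorem tc_of_hasSum {z : ℕ → ℂ} {Z : ℂ → ℂ} (h : ∀ s, HasSum (fun k => z k * s ^ k) (Z s))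
    (n : ℕ) : tc Z n = z n := by
  have h1 := (entire_of_hasSum h).factorial_smul (1 : ℂ) n
  unfold tc
  rw [iteratedDeriv_eq_iteratedFDeriv, ← h1]
  have h2 : (n.factorial : ℂ) ≠ 0 := by exact_mod_cast n.factorial_ne_zero
  simp
  field_simp

theorem tc_id_mul {f : ℂ → ℂ} (hf : AnalyticAt ℂ f 0) (n : ℕ) :
    tc (fun s => s * f s) n = if n = 0 then 0 else tc f (n - 1) := by
  have h1 : AnalyticAt ℂ (fun s : ℂ => s) 0 := analyticAt_id
  rw [tc_mul h1 hf]
  have h2 : ∀ i, tc (fun s : ℂ => s) i = if i = 1 then 1 else 0 := by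
    intro i
    unfold tc
    rw [iteratedDeriv_fun_id_zero]
    by_cases hi : i = 1
    · simp [hi]
    · simp [hi]
  simp only [h2, ite_mul, one_mul, zero_mul]
  rw [Finset.sum_ite_eq' (range (n + 1)) 1 (fun i => tc f (n - i))]
  by_cases hn : n = 0
  · simp [hn]
  · simp [hn]

/-- the recursion `ell` computes the Taylor coefficients of `s Z'(s) / Z(s)` -/
theorem tc_ell {z : ℕ → ℝ} {Z : ℂ → ℂ} (hz0 : z 0 = 1)
    (h : ∀ s, HasSum (fun k => (z k : ℂ) * s ^ k) (Z s)) {L : ℂ → ℂ} (hL : AnalyticAt ℂ L 0)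
    (hLZ : ∀ᶠ s in 𝓝 (0 : ℂ), L s * Z s = s * deriv Z s) (n : ℕ) : tc L n = (ell z n : ℂ) := by
  have hZd := differentiable_of_hasSum h
  have hZ : AnalyticAt ℂ Z 0 := hZd.analyticAt 0
  have hZ' : AnalyticAt ℂ (deriv Z) 0 := hZ.deriv
  have key : ∀ n : ℕ, ∑ i ∈ range (n + 1), tc L i * (z (n - i) : ℂ) = n * (z n : ℂ) := by
    intro n
    have h1 := tc_mul hL hZ n
    rw [tc_congr (g := fun s => s * deriv Z s) hLZ n, tc_id_mul hZ'] at h1
    have h2 : ∀ i, tc Z i = (z i : ℂ) := tc_of_hasSum h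
    simp only [h2] at h1
    rw [← h1]
    by_cases hn : n = 0
    · simp [hn]
    · rw [if_neg hn, tc_deriv, h2]
      have : n - 1 + 1 = n := by omega
      rw [this]
      congr 1
      have : ((n - 1 : ℕ) : ℂ) + 1 = ((n - 1 + 1 : ℕ) : ℂ) := by push_cast; ring
      rw [this]; congr 1
  induction n using Nat.strong_induction_on with
  | _ n ih =>
    have h1 := key n
    rw [Finset.sum_range_succ, Nat.sub_self, hz0] at h1
    rw [ell]
    push_cast
    have h2 : ∑ j : Fin n, (ell z j : ℂ) * (z (n - j) : ℂ) =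
        ∑ i ∈ range n, tc L i * (z (n - i) : ℂ) := by
      rw [Finset.sum_range]
      exact Finset.sum_congr rfl fun j _ => by rw [ih j j.2]
    rw [h2]
    push_cast at h1
    linear_combination h1

theorem norm_tc_le {f : ℂ → ℂ} {R C : ℝ} (hR : 0 < R) (hf : DiffContOnCl ℂ f (Metric.ball 0 R))
    (hC : ∀ s : ℂ, ‖s‖ = R → ‖f s‖ ≤ C) (n : ℕ) : ‖tc f n‖ ≤ C / R ^ n := by
  have h := Complex.norm_iteratedDeriv_le_of_forall_mem_sphere_norm_le n hR hf
    (fun s hs => hC s (by simpa using hs))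
  unfold tc
  have h1 : (0 : ℝ) < n.factorial := by exact_mod_cast n.factorial_pos
  rw [norm_div, Complex.norm_natCast, div_le_iff₀ h1]
  calc _ ≤ _ := h
    _ = C / R ^ n * n.factorial := by ring

/-- analytic functions of order at least `n` at the origin -/
theorem tc_eq_zero_of_order {f g : ℂ → ℂ} {n : ℕ} (hf : AnalyticAt ℂ f 0) (hg : AnalyticAt ℂ g 0)
    (h : ∀ᶠ s in 𝓝 (0 : ℂ), f s = s ^ n * g s) {i : ℕ} (hi : i < n) : tc f i = 0 := by
  have h1 : (n : ℕ∞) ≤ analyticOrderAt f 0 :=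
    (natCast_le_analyticOrderAt hf).2 ⟨g, hg, by simpa [smul_eq_mul] using h⟩
  have h2 := (natCast_le_analyticOrderAt_iff_iteratedDeriv_eq_zero hf).1 h1 i hi
  simp [tc, h2]

theorem order_of_tc_eq_zero {f : ℂ → ℂ} {n : ℕ} (hf : AnalyticAt ℂ f 0)
    (h : ∀ i < n, tc f i = 0) :
    ∃ g : ℂ → ℂ, AnalyticAt ℂ g 0 ∧ ∀ᶠ s in 𝓝 (0 : ℂ), f s = s ^ n * g s := by
  have h1 : (n : ℕ∞) ≤ analyticOrderAt f 0 := by
    refine (natCast_le_analyticOrderAt_iff_iteratedDeriv_eq_zero hf).2 fun i hi => ?_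
    have := h i hi
    unfold tc at this
    have h2 : (i.factorial : ℂ) ≠ 0 := by exact_mod_cast i.factorial_ne_zero
    simpa [h2] using this
  obtain ⟨g, hg, hfg⟩ := (natCast_le_analyticOrderAt hf).1 h1
  exact ⟨g, hg, by simpa [smul_eq_mul] using hfg⟩

/-- holomorphic logarithms on a disc -/
theorem exists_log {F : ℂ → ℂ} (hF : Differentiable ℂ F) {R : ℝ}
    (hne : ∀ s ∈ Metric.ball (0 : ℂ) R, F s ≠ 0) (hR : 0 < R) (h0 : F 0 = 1) :
    ∃ lg : ℂ → ℂ, lg 0 = 0 ∧ (∀ s ∈ Metric.ball (0 : ℂ) R, HasDerivAt lg (deriv F s / F s) s) ∧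
      ∀ s ∈ Metric.ball (0 : ℂ) R, Complex.exp (lg s) = F s := by
  have hd : DifferentiableOn ℂ (fun s => deriv F s / F s) (Metric.ball 0 R) := by
    refine DifferentiableOn.div ?_ hF.differentiableOn hne
    exact (hF.contDiff (n := 2)).differentiable_deriv_two.differentiableOn
  obtain ⟨lg, hlg0, hlg⟩ := hd.isExactOn_ball.with_val_at 0 0
  refine ⟨lg, hlg0, hlg, ?_⟩
  have hder : ∀ s ∈ Metric.ball (0 : ℂ) R,
      HasDerivAt (fun s => F s * Complex.exp (-lg s)) 0 s := by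
    intro s hs
    have h1 := (hF s).hasDerivAt.mul ((hlg s hs).neg.cexp)
    refine h1.congr_deriv ?_
    have := hne s hs
    field_simp
    ring
  intro s hs
  have hconst := (Metric.isOpen_ball (x := (0 : ℂ)) (ε := R)).is_const_of_deriv_eq_zero
    (convex_ball (0 : ℂ) R).isPreconnected
    (fun s hs => (hder s hs).differentiableAt.differentiableWithinAt)
    (fun s hs => (hder s hs).deriv) hs (Metric.mem_ball_self hR)
  simp only [hlg0, h0, neg_zero, Complex.exp_zero, mul_one] at hconst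
  rw [Complex.exp_neg] at hconst
  have h2 := Complex.exp_ne_zero (lg s)
  field_simp at hconst
  exact hconst.symm

end Pool.Agent.Lib.P8e91ed
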