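import Pool.Agent.Lib.P8e91ed.Smol
import Pool.Agent.Lib.P8e91ed.SmolPerturb
import Pool.Agent.Lib.P8e91ed.Group

/-!
The error of the approximation `ztil` of the canonical partition functions.
-/

set_option autoImplicit false

open MeasureTheory Finset

noncomputable section

namespace Pool.Agent.Lib.P8e91ed

theorem ztil_error {d : ℕ} (hd : 1 ≤ d) {q : Sp d → ℝ} {r : ℝ} (hq : IsPot q r)
    {C α : ℝ} (hα : 0 < α) (hreg : HolderAvg q C α) :
    ∃ K γ : ℝ, 1 ≤ K ∧ 0 < γ ∧ ∀ (k B : ℕ) (A : Finset ℕ) (cel : ℕ → Fin d → ℤ)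
      (Q : (Fin d → ℤ) → ℝ) (τ : ℝ), Set.InjOn cel A → (∀ D, 0 ≤ Q D) → (∀ D, Q D ≤ 1) →
      (∀ D, |Q D - q (gridPt B D)| ≤ τ) →
      |zc q (reg (A.image cel)) k - ztil Q B A cel k| ≤
        K ^ (A.card + k) * ((2 : ℝ) ^ (-(γ * B)) + K ^ B * τ) := by
  obtain ⟨K1, γ, hK1, hγ, h1⟩ := smol_error hd hq (R := ⌈r⌉₊) (Nat.le_ceil r) hα hreg
  obtain ⟨K2, hK2, h2⟩ := sum_near (d := d) ⌈r⌉₊
  refine ⟨16 * K1 * K2, γ, by nlinarith, hγ, ?_⟩
  intro k B A cel Q τ hinj hQ0 hQ1 hτ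
  have hτ0 : 0 ≤ τ := (abs_nonneg _).trans (hτ 0)
  set S := (Fintype.piFinset fun _ : Fin k => A).filter Monotone with hS
  set wt : (Fin k → ℕ) → ℝ := fun f =>
    ∏ t ∈ A, 1 / (((univ.filter fun i => f i = t).card.factorial : ℕ) : ℝ) with hwt
  have hwt0 : ∀ f, 0 ≤ wt f := fun f => Finset.prod_nonneg fun t _ => by positivity
  have hN := h2 A cel hinj k
  have hterm : ∀ f : Fin k → ℕ, |Icell q (fun i => cel (f i)) - smol Q B (fun i => cel (f i))| ≤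
      ((2 : ℝ) ^ (-(γ * B)) * K1 ^ k + 2 ^ (B + k) * 2 ^ k * (k : ℝ) ^ 2 * τ) *
        ∏ i, (1 + (nearCount ⌈r⌉₊ (fun i => cel (f i)) i : ℝ)) := by
    intro f
    have e1 := h1 k B (fun i => cel (f i))
    have e2 := smol_perturb (d := d) (k := k) (B := B) (Q := fun D => q (gridPt B D)) (Q' := Q)
      (τ := τ) (fun D => hq.nonneg _) (fun D => hq.le_one _) hQ0 hQ1
      (fun D => by rw [abs_sub_comm]; exact hτ D) (fun i => cel (f i))
    have e3 : (1 : ℝ) ≤ ∏ i, (1 + (nearCount ⌈r⌉₊ (fun i => cel (f i)) i : ℝ)) :=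
      Finset.one_le_prod fun i _ => by
        have : (0 : ℝ) ≤ (nearCount ⌈r⌉₊ (fun i => cel (f i)) i : ℝ) := Nat.cast_nonneg _
        linarith
    rw [Finset.prod_mul_distrib, Finset.prod_const, Finset.card_univ, Fintype.card_fin] at e1
    have e4 : 0 ≤ 2 ^ (B + k) * 2 ^ k * (k : ℝ) ^ 2 * τ := by positivity
    calc |Icell q (fun i => cel (f i)) - smol Q B (fun i => cel (f i))|
        ≤ |Icell q (fun i => cel (f i)) - smol (fun D => q (gridPt B D)) B (fun i => cel (f i))| +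
          |smol (fun D => q (gridPt B D)) B (fun i => cel (f i)) -
            smol Q B (fun i => cel (f i))| := abs_sub_le _ _ _
      _ ≤ (2 : ℝ) ^ (-(γ * B)) *
            (K1 ^ k * ∏ i, (1 + (nearCount ⌈r⌉₊ (fun i => cel (f i)) i : ℝ))) +
          2 ^ (B + k) * 2 ^ k * (k : ℝ) ^ 2 * τ := add_le_add e1 e2
      _ ≤ _ := by nlinarith
  have hcoef : 0 ≤ (2 : ℝ) ^ (-(γ * B)) * K1 ^ k + 2 ^ (B + k) * 2 ^ k * (k : ℝ) ^ 2 * τ := by
    positivity
  rw [zc_reg_eq hq A cel hinj k]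
  unfold ztil
  rw [← Finset.sum_sub_distrib]
  calc |∑ f ∈ S, (wt f * Icell q (fun i => cel (f i)) - wt f * smol Q B (fun i => cel (f i)))|
      ≤ ∑ f ∈ S, |wt f * Icell q (fun i => cel (f i)) - wt f * smol Q B (fun i => cel (f i))| :=
        Finset.abs_sum_le_sum_abs _ _
    _ ≤ ∑ f ∈ S, ((2 : ℝ) ^ (-(γ * B)) * K1 ^ k + 2 ^ (B + k) * 2 ^ k * (k : ℝ) ^ 2 * τ) *
          (wt f * ∏ i, (1 + (nearCount ⌈r⌉₊ (fun i => cel (f i)) i : ℝ))) := by
        refine Finset.sum_le_sum fun f _ => ?_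
        rw [← mul_sub, abs_mul, abs_of_nonneg (hwt0 f)]
        calc wt f * |Icell q (fun i => cel (f i)) - smol Q B (fun i => cel (f i))|
            ≤ wt f * (((2 : ℝ) ^ (-(γ * B)) * K1 ^ k + 2 ^ (B + k) * 2 ^ k * (k : ℝ) ^ 2 * τ) *
              ∏ i, (1 + (nearCount ⌈r⌉₊ (fun i => cel (f i)) i : ℝ))) :=
              mul_le_mul_of_nonneg_left (hterm f) (hwt0 f)
          _ = _ := by ring
    _ = ((2 : ℝ) ^ (-(γ * B)) * K1 ^ k + 2 ^ (B + k) * 2 ^ k * (k : ℝ) ^ 2 * τ) *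
          ∑ f ∈ S, (wt f * ∏ i, (1 + (nearCount ⌈r⌉₊ (fun i => cel (f i)) i : ℝ))) := by
        rw [Finset.mul_sum]
    _ ≤ ((2 : ℝ) ^ (-(γ * B)) * K1 ^ k + 2 ^ (B + k) * 2 ^ k * (k : ℝ) ^ 2 * τ) *
          K2 ^ (A.card + k) := mul_le_mul_of_nonneg_left hN hcoef
    _ ≤ (16 * K1 * K2) ^ (A.card + k) * ((2 : ℝ) ^ (-(γ * B)) + (16 * K1 * K2) ^ B * τ) := by
        have hk2 : (k : ℝ) ^ 2 ≤ 4 ^ k := by
          have : (k : ℝ) ≤ 2 ^ k := by exact_mod_cast Nat.lt_two_pow_self.le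
          calc (k : ℝ) ^ 2 ≤ (2 ^ k) ^ 2 := by gcongr
            _ = 4 ^ k := by rw [← pow_mul, mul_comm, pow_mul]; norm_num
        have hX : (2 : ℝ) ^ (-(γ * B)) * K1 ^ k ≤ (16 * K1) ^ (A.card + k) *
            (2 : ℝ) ^ (-(γ * B)) := by
          rw [mul_comm]
          refine mul_le_mul_of_nonneg_right ?_ (by positivity)
          calc K1 ^ k ≤ (16 * K1) ^ k := by gcongr; linarith
            _ ≤ (16 * K1) ^ (A.card + k) := pow_le_pow_right₀ (by linarith) (by omega)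
        have hY : 2 ^ (B + k) * 2 ^ k * (k : ℝ) ^ 2 * τ ≤
            (16 * K1) ^ (A.card + k) * ((16 * K1 * K2) ^ B * τ) := by
          have hB : (2 : ℝ) ^ B ≤ (16 * K1 * K2) ^ B := by
            gcongr
            nlinarith
          have hA : (2 : ℝ) ^ k * 2 ^ k * 4 ^ k ≤ (16 * K1) ^ (A.card + k) := by
            calc (2 : ℝ) ^ k * 2 ^ k * 4 ^ k = 16 ^ k := by
                  rw [← mul_pow, ← mul_pow]; norm_num
              _ ≤ (16 * K1) ^ k := by gcongr; linarith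
              _ ≤ (16 * K1) ^ (A.card + k) := pow_le_pow_right₀ (by linarith) (by omega)
          calc 2 ^ (B + k) * 2 ^ k * (k : ℝ) ^ 2 * τ
              ≤ 2 ^ (B + k) * 2 ^ k * 4 ^ k * τ := by gcongr
            _ = (2 ^ k * 2 ^ k * 4 ^ k) * (2 ^ B * τ) := by rw [pow_add]; ring
            _ ≤ (16 * K1) ^ (A.card + k) * ((16 * K1 * K2) ^ B * τ) := by
                refine mul_le_mul hA ?_ (by positivity) (by positivity)
                exact mul_le_mul_of_nonneg_right hB hτ0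
        rw [mul_pow (16 * K1) K2]
        calc ((2 : ℝ) ^ (-(γ * B)) * K1 ^ k + 2 ^ (B + k) * 2 ^ k * (k : ℝ) ^ 2 * τ) *
              K2 ^ (A.card + k)
            ≤ ((16 * K1) ^ (A.card + k) * (2 : ℝ) ^ (-(γ * B)) +
              (16 * K1) ^ (A.card + k) * ((16 * K1 * K2) ^ B * τ)) * K2 ^ (A.card + k) :=
              mul_le_mul_of_nonneg_right (add_le_add hX hY) (by positivity)
          _ = _ := by ring

end Pool.Agent.Lib.P8e91ed
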